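import Pool.Agent.H928R2.PIDet2

/-!
# The pair `(Gam, TT)` is good (task DET)
-/

set_option autoImplicit false

namespace Pool.Agent.H928R2.PIDet

open Matrix Polynomial
open Pool.Agent.H85R2.PI

theorem pid_TT {R C : Type*} [Ring R] [CommRing C] {d : ℕ}
    (π : R →+* Matrix (Fin d) (Fin d) C) (J : Ideal R) (D : ℕ)
    (c : Equiv.Perm (Fin D) → ℤ) (hR : PId R D c) : PId (TT π J) D c := by
  intro x
  set F : MultilinearMap (Gam π J) (fun _ : Fin D => Matrix (Fin d) (Fin d) C)
      (Matrix (Fin d) (Fin d) C) :=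
    ∑ σ : Equiv.Perm (Fin D), (c σ) • (MultilinearMap.mkPiAlgebraFin (Gam π J) D
      (Matrix (Fin d) (Fin d) C)).domDomCongr σ with hF
  have hFa : ∀ v : Fin D → Matrix (Fin d) (Fin d) C, F v =
      ∑ σ : Equiv.Perm (Fin D), ((c σ : ℤ) : Matrix (Fin d) (Fin d) C) *
        (List.ofFn (fun i => v (σ i))).prod := by
    intro v
    rw [hF, _root_.sum_apply]
    refine Finset.sum_congr rfl fun σ _ => ?_
    rw [_root_.smul_apply, zsmul_eq_mul]
    rfl
  have h1 := multilinear_mem_span F (Set.range π) (fun i => (x i : Matrix (Fin d) (Fin d) C))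
    (fun i => (mem_TT_iff π J _).1 (x i).2)
  have h2 : {w | ∃ x : Fin D → Matrix (Fin d) (Fin d) C, (∀ i, x i ∈ Set.range π) ∧ w = F x} ⊆
      {0} := by
    rintro w ⟨v, hv, rfl⟩
    choose r hr using hv
    have h3 : v = fun i => π (r i) := funext fun i => (hr i).symm
    have h4 := congrArg π (hR r)
    rw [map_sum, map_zero] at h4
    rw [Set.mem_singleton_iff, hFa, ← h4]
    refine Finset.sum_congr rfl fun σ _ => ?_
    rw [map_mul, map_intCast, map_list_prod, List.map_ofFn, h3]
    rfl
  have h3 : F (fun i => (x i : Matrix (Fin d) (Fin d) C)) = 0 := by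
    have h4 := Submodule.span_mono h2 h1
    rw [Submodule.span_zero_singleton] at h4
    simpa using h4
  rw [hFa] at h3
  apply Subtype.ext
  rw [AddSubmonoidClass.coe_finsetSum]
  refine Eq.trans ?_ h3
  refine Finset.sum_congr rfl fun σ _ => ?_
  have h5 : (((List.ofFn (fun i => x (σ i))).prod : TT π J) : Matrix (Fin d) (Fin d) C) =
      (List.ofFn (fun i => (x (σ i) : Matrix (Fin d) (Fin d) C))).prod := by
    have h6 := map_list_prod (TT π J).val (List.ofFn (fun i => x (σ i)))
    rw [List.map_ofFn] at h6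
    exact h6
  rw [← h5]
  rfl

section
variable {R C : Type*} [Ring R] [CommRing C] {d : ℕ} (π : R →+* Matrix (Fin d) (Fin d) C)

theorem det_lifts1 (t : Matrix (Fin d) (Fin d) C[X])
    (ht : t ∈ Submodule.span (mapRingHom (Gam π (capIdeal R (d * d))).subtype).range
      (Set.range (piA C[X] π))) :
    ∃ f : (Gam π (capIdeal R (d * d)))[X], f.map (Gam π (capIdeal R (d * d))).subtype =
      t.det ^ d := by
  have h1 : t.det ^ d ∈ lifts (Gam π (capIdeal R (d * d))).subtype := by
    rw [lifts_iff_coeff_lifts]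
    intro n
    have h2 := det_mem π (mapRingHom (Gam π (capIdeal R (d * d))).subtype).range
      (lcoeff C n) (by
        rintro g ⟨f, rfl⟩
        rw [lcoeff_apply, coe_mapRingHom, coeff_map]
        exact (f.coeff n).2) t ht
    exact ⟨⟨_, h2⟩, rfl⟩
  exact (mem_lifts _).1 h1

/-- the subring of polynomials in two variables with coefficients in `Γ` -/
noncomputable def G2 : Subring C[X][X] :=
  RingHom.range (R := (Gam π (capIdeal R (d * d)))[X][X]) (S := C[X][X])
    (mapRingHom (mapRingHom (Gam π (capIdeal R (d * d))).subtype))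

theorem det_lifts2 (t : Matrix (Fin d) (Fin d) C[X][X])
    (ht : t ∈ Submodule.span (G2 π) (Set.range (piA C[X][X] π))) :
    ∃ f : (Gam π (capIdeal R (d * d)))[X][X],
      f.map (mapRingHom (Gam π (capIdeal R (d * d))).subtype) = t.det ^ d := by
  have h1 : t.det ^ d ∈ lifts (mapRingHom (Gam π (capIdeal R (d * d))).subtype) := by
    rw [lifts_iff_coeff_lifts]
    intro n
    have h3 : (t.det ^ d).coeff n ∈ lifts (Gam π (capIdeal R (d * d))).subtype := by
      rw [lifts_iff_coeff_lifts]
      intro m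
      have h2 := det_mem π (G2 π)
        ((lcoeff C m).comp ((lcoeff C[X] n).restrictScalars C)) (by
          rintro g ⟨f, rfl⟩
          rw [LinearMap.comp_apply, LinearMap.restrictScalars_apply, lcoeff_apply, lcoeff_apply,
            coe_mapRingHom, coeff_map, coe_mapRingHom, coeff_map]
          exact ((f.coeff n).coeff m).2) t ht
      exact ⟨⟨_, h2⟩, rfl⟩
    obtain ⟨q, hq⟩ := (mem_lifts _).1 h3
    exact ⟨q, hq⟩
  exact (mem_lifts _).1 h1

/-- the embedding `T[X] → M_d(C[X])` -/
noncomputable def Psi (J : Ideal R) : (TT π J)[X] →+* Matrix (Fin d) (Fin d) C[X] :=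
  ((matPolyEquiv (R := C) (n := Fin d)).symm : (Matrix (Fin d) (Fin d) C)[X] ≃ₐ[C]
    Matrix (Fin d) (Fin d) C[X]).toRingEquiv.toRingHom.comp
    (mapRingHom (TT π J).val.toRingHom)

theorem Psi_injective (J : Ideal R) : Function.Injective (Psi π J) := by
  have h1 : Function.Injective (mapRingHom (TT π J).val.toRingHom) := by
    rw [coe_mapRingHom]
    exact map_injective _ Subtype.val_injective
  exact (matPolyEquiv (R := C) (n := Fin d)).symm.injective.comp h1

theorem Psi_monomial (J : Ideal R) (n : ℕ) (a : TT π J) :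
    Psi π J (monomial n a) = (X ^ n : C[X]) • ((a : Matrix (Fin d) (Fin d) C).map Polynomial.C) := by
  have h1 : Psi π J (monomial n a) =
      matPolyEquiv.symm (monomial n (a : Matrix (Fin d) (Fin d) C)) := by
    show matPolyEquiv.symm ((monomial n a).map (TT π J).val.toRingHom) = _
    rw [map_monomial]
    rfl
  rw [h1, ← C_mul_X_pow_eq_monomial, map_mul, map_pow, matPolyEquiv_symm_C,
    matPolyEquiv_symm_X]
  rw [diagonal_pow]
  ext i j
  rw [Matrix.mul_diagonal, Matrix.smul_apply, smul_eq_mul, mul_comm]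
  rfl

theorem Psi_algebraMap (J : Ideal R) (q : (Gam π J)[X]) :
    Psi π J (q.map (algebraMap (Gam π J) (TT π J))) =
      algebraMap C[X] (Matrix (Fin d) (Fin d) C[X]) (q.map (Gam π J).subtype) := by
  induction q using Polynomial.induction_on' with
  | add p q hp hq =>
    rw [Polynomial.map_add, map_add, hp, hq, Polynomial.map_add, map_add]
  | monomial n a =>
    rw [map_monomial, map_monomial, Psi_monomial, Matrix.algebraMap_eq_diagonal]
    ext i j
    rw [Matrix.smul_apply, Matrix.map_apply, Matrix.diagonal_apply, smul_eq_mul]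
    have h1 : ((algebraMap (Gam π J) (TT π J) a : TT π J) : Matrix (Fin d) (Fin d) C) i j =
        if i = j then (a : C) else 0 := by
      have h2 : ((algebraMap (Gam π J) (TT π J) a : TT π J) : Matrix (Fin d) (Fin d) C) =
        diagonal fun _ => (a : C) := rfl
      rw [h2, Matrix.diagonal_apply]
    rw [h1]
    split_ifs
    · rw [mul_comm, C_mul_X_pow_eq_monomial]
      rfl
    · rw [map_zero, mul_zero]

theorem charmatrix_Psi_mem (τ : (TT π (capIdeal R (d * d)))[X]) :
    charmatrix (Psi π (capIdeal R (d * d)) τ) ∈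
      Submodule.span (G2 π) (Set.range (piA C[X][X] π)) := by
  have h1 : (Polynomial.C : C[X] →+* C[X][X]).mapMatrix (Psi π (capIdeal R (d * d)) τ) ∈
      Submodule.span (G2 π) (Set.range (piA C[X][X] π)) := by
    induction τ using Polynomial.induction_on' with
    | add p q hp hq =>
      rw [map_add, map_add]
      exact Submodule.add_mem _ hp hq
    | monomial n a =>
      rw [Psi_monomial]
      have h2 := map_mem_spanA (A := C[X][X]) (Gam π (capIdeal R (d * d))) (G2 π) (by
        intro g hg
        exact ⟨Polynomial.C (Polynomial.C ⟨g, hg⟩), by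
          rw [coe_mapRingHom, map_C, coe_mapRingHom, map_C]; rfl⟩) π a
          ((mem_TT_iff π _ _).1 a.2)
      have h3 : (Polynomial.C (X ^ n) : C[X][X]) ∈ G2 π :=
        ⟨Polynomial.C (X ^ n), by
          rw [coe_mapRingHom, map_C, coe_mapRingHom, Polynomial.map_pow, map_X]⟩
      have h4 : (Polynomial.C : C[X] →+* C[X][X]).mapMatrix
          ((X ^ n : C[X]) • ((a : Matrix (Fin d) (Fin d) C).map Polynomial.C)) =
          (⟨_, h3⟩ : G2 π) •
            ((a : Matrix (Fin d) (Fin d) C).map (algebraMap C C[X][X])) := by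
        ext1 i j
        rw [RingHom.mapMatrix_apply, Matrix.map_apply, Matrix.smul_apply, smul_eq_mul, map_mul]
        rfl
      rw [h4]
      exact Submodule.smul_mem _ _ h2
  have h5 : (X : C[X][X]) ∈ G2 π := ⟨X, by rw [coe_mapRingHom, map_X]⟩
  have h6 : Matrix.scalar (Fin d) (X : C[X][X]) ∈
      Submodule.span (G2 π) (Set.range (piA C[X][X] π)) := by
    have h7 : Matrix.scalar (Fin d) (X : C[X][X]) = (⟨X, h5⟩ : G2 π) • piA C[X][X] π 1 := by
      rw [map_one, Matrix.scalar_apply, ← Matrix.smul_one_eq_diagonal]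
      rfl
    rw [h7]
    exact Submodule.smul_mem _ _ (Submodule.subset_span ⟨1, rfl⟩)
  exact Submodule.sub_mem _ h6 h1

theorem b2_TT (hd : 0 < d) : ∃ N : ℕ, ∀ τ : (TT π (capIdeal R (d * d)))[X],
    ∃ f : (Gam π (capIdeal R (d * d)))[X][X], f.Monic ∧ f.natDegree ≤ N ∧
    f.eval₂ (mapRingHom (algebraMap (Gam π (capIdeal R (d * d)))
      (TT π (capIdeal R (d * d))))) τ = 0 := by
  refine ⟨d * d, fun τ => ?_⟩
  obtain ⟨f, hf⟩ := det_lifts2 π _ (charmatrix_Psi_mem π τ)
  have hinj : Function.Injective (mapRingHom (Gam π (capIdeal R (d * d))).subtype) := by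
    rw [coe_mapRingHom]
    exact map_injective _ Subtype.val_injective
  have hf' : f.map (mapRingHom (Gam π (capIdeal R (d * d))).subtype) =
      (Psi π (capIdeal R (d * d)) τ).charpoly ^ d := hf
  refine ⟨f, ?_, ?_, ?_⟩
  · apply monic_of_injective hinj
    rw [hf']
    exact (charpoly_monic _).pow d
  · rw [← natDegree_map_eq_of_injective hinj, hf']
    refine le_trans natDegree_pow_le (Nat.mul_le_mul_left d ?_)
    rcases subsingleton_or_nontrivial C[X] with h | h
    · rw [natDegree_of_subsingleton]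
      exact Nat.zero_le _
    · rw [charpoly_natDegree_eq_dim, Fintype.card_fin]
  · apply Psi_injective π
    rw [map_zero, hom_eval₂]
    have h1 : (Psi π (capIdeal R (d * d))).comp (mapRingHom (algebraMap
        (Gam π (capIdeal R (d * d))) (TT π (capIdeal R (d * d))))) =
        (algebraMap C[X] (Matrix (Fin d) (Fin d) C[X])).comp
          (mapRingHom (Gam π (capIdeal R (d * d))).subtype) := by
      exact RingHom.ext fun q => Psi_algebraMap π (capIdeal R (d * d)) q
    rw [h1, ← eval₂_map, hf']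
    have h2 : ∀ g : C[X][X], g.eval₂ (algebraMap C[X] (Matrix (Fin d) (Fin d) C[X]))
        (Psi π (capIdeal R (d * d)) τ) = aeval (Psi π (capIdeal R (d * d)) τ) g := fun g => rfl
    rw [h2, map_pow, aeval_self_charpoly, zero_pow hd.ne']

/-- the two-parameter norm polynomial -/
theorem norm_poly (x a : Matrix (Fin d) (Fin d) C) (hx : x ∈ TT π (capIdeal R (d * d)))
    (ha : a ∈ TT π (capIdeal R (d * d))) :
    ∃ p : (Gam π (capIdeal R (d * d)))[X], ∀ γ : Gam π (capIdeal R (d * d)),
      ((p.eval γ : Gam π (capIdeal R (d * d))) : C) = (x + (γ : C) • a).det ^ d := by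
  have h0 : ∀ b : Matrix (Fin d) (Fin d) C, b ∈ TT π (capIdeal R (d * d)) →
      b.map (algebraMap C C[X]) ∈ Submodule.span
        (mapRingHom (Gam π (capIdeal R (d * d))).subtype).range (Set.range (piA C[X] π)) := by
    intro b hb
    refine map_mem_spanA (A := C[X]) (Gam π (capIdeal R (d * d))) _ (by
        intro g hg
        exact ⟨Polynomial.C ⟨g, hg⟩, by rw [coe_mapRingHom, map_C]; rfl⟩) π b
          ((mem_TT_iff π _ _).1 hb)
  have h1 : (X : C[X]) ∈ (mapRingHom (Gam π (capIdeal R (d * d))).subtype).range :=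
    ⟨X, by rw [coe_mapRingHom, map_X]⟩
  obtain ⟨p, hp⟩ := det_lifts1 π (x.map (algebraMap C C[X]) +
    (⟨X, h1⟩ : (mapRingHom (Gam π (capIdeal R (d * d))).subtype).range) •
      a.map (algebraMap C C[X]))
    (Submodule.add_mem _ (h0 x hx) (Submodule.smul_mem _ _ (h0 a ha)))
  refine ⟨p, fun γ => ?_⟩
  have h2 : ((p.eval γ : Gam π (capIdeal R (d * d))) : C) =
      (p.map (Gam π (capIdeal R (d * d))).subtype).eval (γ : C) :=
    (Polynomial.eval_map_apply (Gam π (capIdeal R (d * d))).subtype γ).symm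
  rw [h2, hp, eval_pow, ← coe_evalRingHom, RingHom.map_det]
  congr 2
  ext i j
  simp only [RingHom.mapMatrix_apply, Matrix.map_apply, Matrix.add_apply, Matrix.smul_apply,
    Subring.smul_def, smul_eq_mul, algebraMap_eq, map_add, coe_evalRingHom, eval_mul, eval_C,
    eval_X]

/-- the norm -/
noncomputable def nrm (x : TT π (capIdeal R (d * d))) : Gam π (capIdeal R (d * d)) :=
  ⟨(x : Matrix (Fin d) (Fin d) C).det ^ d, by
    obtain ⟨p, hp⟩ := norm_poly π x 0 x.2 (Subalgebra.zero_mem _)
    have h1 := hp 0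
    rw [smul_zero, add_zero] at h1
    rw [← h1]
    exact (p.eval 0).2⟩

theorem nrm_mul (x y : TT π (capIdeal R (d * d))) : nrm π (x * y) = nrm π x * nrm π y := by
  apply Subtype.ext
  show ((x : Matrix (Fin d) (Fin d) C) * y).det ^ d = _
  rw [det_mul, mul_pow]
  rfl

theorem nrm_one : nrm π (1 : TT π (capIdeal R (d * d))) = 1 := by
  apply Subtype.ext
  show (1 : Matrix (Fin d) (Fin d) C).det ^ d = 1
  rw [det_one, one_pow]

theorem nrm_sub_mem (m : Ideal (Gam π (capIdeal R (d * d)))) (μ : TT π (capIdeal R (d * d)))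
    (hμ : μ ∈ (m • (⊤ : Submodule (Gam π (capIdeal R (d * d))) (TT π (capIdeal R (d * d)))))) :
    ∀ x : TT π (capIdeal R (d * d)), nrm π (x + μ) - nrm π x ∈ m := by
  induction hμ using Submodule.smul_induction_on' with
  | smul γ hγ a _ =>
    intro x
    obtain ⟨p, hp⟩ := norm_poly π x a x.2 a.2
    have h1 : nrm π (x + γ • a) = p.eval γ := by
      apply Subtype.ext
      rw [hp γ]
      rfl
    have h2 : nrm π x = p.eval 0 := by
      apply Subtype.ext
      rw [hp 0]
      simp only [ZeroMemClass.coe_zero, zero_smul, add_zero]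
      rfl
    rw [h1, h2]
    have h3 := sub_dvd_eval_sub γ 0 p
    rw [sub_zero] at h3
    exact m.mem_of_dvd h3 hγ
  | add μ _ ν _ h1 h2 =>
    intro x
    have h3 := m.add_mem (h2 (x + μ)) (h1 x)
    rw [sub_add_sub_cancel, add_assoc] at h3
    exact h3

theorem b1_TT (hd : 0 < d) (m : Ideal (Gam π (capIdeal R (d * d)))) (hm : m.IsMaximal)
    (b b' : TT π (capIdeal R (d * d)))
    (hb : b' * b - 1 ∈ (m • (⊤ : Submodule (Gam π (capIdeal R (d * d)))
      (TT π (capIdeal R (d * d)))))) : MUnit (Gam π (capIdeal R (d * d))) m b := by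
  have h1 : nrm π (-b) ∉ m := by
    intro h
    have h2 := nrm_sub_mem π m _ hb 1
    rw [add_sub_cancel, nrm_one] at h2
    have h3 : b' * b = (-b') * (-b) := (neg_mul_neg b' b).symm
    rw [h3, nrm_mul] at h2
    have h4 := m.sub_mem (m.mul_mem_left (nrm π (-b')) h) h2
    rw [sub_sub_cancel] at h4
    exact hm.ne_top ((Ideal.eq_top_iff_one m).2 h4)
  obtain ⟨p, hp⟩ := det_lifts1 π (charmatrix (b : Matrix (Fin d) (Fin d) C)) (by
    have h0 : (b : Matrix (Fin d) (Fin d) C).map (algebraMap C C[X]) ∈ Submodule.span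
        (mapRingHom (Gam π (capIdeal R (d * d))).subtype).range (Set.range (piA C[X] π)) := by
      refine map_mem_spanA (A := C[X]) (Gam π (capIdeal R (d * d))) _ (by
        intro g hg
        exact ⟨Polynomial.C ⟨g, hg⟩, by rw [coe_mapRingHom, map_C]; rfl⟩) π b
          ((mem_TT_iff π _ _).1 b.2)
    have h5 : (X : C[X]) ∈ (mapRingHom (Gam π (capIdeal R (d * d))).subtype).range :=
      ⟨X, by rw [coe_mapRingHom, map_X]⟩
    have h6 : Matrix.scalar (Fin d) (X : C[X]) ∈ Submodule.span
        (mapRingHom (Gam π (capIdeal R (d * d))).subtype).range (Set.range (piA C[X] π)) := by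
      have h7 : Matrix.scalar (Fin d) (X : C[X]) =
          (⟨X, h5⟩ : (mapRingHom (Gam π (capIdeal R (d * d))).subtype).range) •
            piA C[X] π 1 := by
        rw [map_one, Matrix.scalar_apply, ← Matrix.smul_one_eq_diagonal]
        rfl
      rw [h7]
      exact Submodule.smul_mem _ _ (Submodule.subset_span ⟨1, rfl⟩)
    exact Submodule.sub_mem _ h6 h0)
  have hp' : p.map (Gam π (capIdeal R (d * d))).subtype =
      (b : Matrix (Fin d) (Fin d) C).charpoly ^ d := hp
  have h8 : p.coeff 0 = nrm π (-b) := by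
    apply Subtype.ext
    have h9 : ((p.coeff 0 : Gam π (capIdeal R (d * d))) : C) =
        (p.map (Gam π (capIdeal R (d * d))).subtype).coeff 0 := by
      rw [coeff_map]; rfl
    rw [h9, hp', coeff_zero_eq_eval_zero, eval_pow, Matrix.eval_charpoly]
    show _ = (-(b : Matrix (Fin d) (Fin d) C)).det ^ d
    rw [map_zero, zero_sub]
  have h10 : aeval b p = 0 := by
    apply Subtype.ext
    have h11 : ((aeval b p : TT π (capIdeal R (d * d))) : Matrix (Fin d) (Fin d) C) =
        aeval (b : Matrix (Fin d) (Fin d) C) p := by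
      have := (aeval_algHom_apply (TT π (capIdeal R (d * d))).val b p)
      exact this.symm
    have h12 : aeval (b : Matrix (Fin d) (Fin d) C) p = aeval (b : Matrix (Fin d) (Fin d) C)
        (p.map (Gam π (capIdeal R (d * d))).subtype) := by
      rw [aeval_def, aeval_def, eval₂_map]
      rfl
    rw [h11, h12, hp', map_pow, aeval_self_charpoly, zero_pow hd.ne']
    rfl
  have h13 : aeval b p.divX * b + algebraMap _ _ (p.coeff 0) = 0 := by
    rw [← h10]
    conv_rhs => rw [← divX_mul_X_add p]
    rw [map_add, map_mul, aeval_X, aeval_C]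
  have h14 : b * aeval b p.divX = aeval b p.divX * b := by
    have h15 : aeval b (X * p.divX) = aeval b (p.divX * X) := by rw [X_mul]
    rw [map_mul, map_mul, aeval_X] at h15
    exact h15
  refine ⟨-aeval b p.divX, p.coeff 0, by rw [h8]; exact h1, ?_, ?_⟩
  · refine (mul_neg b (aeval b p.divX)).trans ?_
    rw [h14]
    exact neg_eq_of_add_eq_zero_right h13
  · exact (neg_mul (aeval b p.divX) b).trans (neg_eq_of_add_eq_zero_right h13)

end

/-- task DET -/
theorem Good_TT {R C : Type*} [Ring R] [CommRing C] {d : ℕ} (hd : 0 < d)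
    (π : R →+* Matrix (Fin d) (Fin d) C) (D : ℕ) (c : Equiv.Perm (Fin D) → ℤ)
    (hR : PId R D c) :
    Good (Gam π (capIdeal R (d * d))) (TT π (capIdeal R (d * d))) D c where
  pid := pid_TT π _ D c hR
  b1 := fun m hm b b' h => b1_TT π hd m hm b b' h
  b2 := b2_TT π hd

end Pool.Agent.H928R2.PIDet
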