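import Pool.Agent.H928R2.FolDef

/-!
# Top degree component of the Jacobian bracket
-/

set_option autoImplicit false

open MvPolynomial Pool.Agent.H928R2.Inv

namespace Pool.Agent.H928R2.Pen

theorem coeff_zero_of_deg_lt {k : Type*} [Field k] (f : PP k) (a : ℕ) (hf : f.totalDegree ≤ a)
    (d : Fin 2 →₀ ℕ) (hd : a < d.degree) : coeff d f = 0 := by
  by_contra h
  have h1 : d ∈ f.support := mem_support_iff.mpr h
  have h2 := le_totalDegree h1
  have h3 : (d.sum fun _ e => e) = d.degree := by
    rfl
  omega

theorem deg_le_of_coeff {k : Type*} [Field k] (f : PP k) (a : ℕ)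
    (h : ∀ d : Fin 2 →₀ ℕ, coeff d f ≠ 0 → d.degree ≤ a) : f.totalDegree ≤ a := by
  unfold totalDegree
  refine Finset.sup_le fun d hd => ?_
  have h3 : (d.sum fun _ e => e) = d.degree := by
    rfl
  rw [h3]
  exact h d (mem_support_iff.mp hd)

theorem comp_mul_top {k : Type*} [Field k] (u v : PP k) (m n : ℕ)
    (hu : u.totalDegree ≤ m) (hv : v.totalDegree ≤ n) :
    homogeneousComponent (m + n) (u * v) = homogeneousComponent m u * homogeneousComponent n v := by
  classical
  ext d
  rw [coeff_homogeneousComponent, coeff_mul, coeff_mul]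
  split_ifs with hd
  · refine Finset.sum_congr rfl fun x hx => ?_
    rw [coeff_homogeneousComponent, coeff_homogeneousComponent]
    have h1 : x.1.degree + x.2.degree = m + n := by
      rw [← map_add, Finset.HasAntidiagonal.mem_antidiagonal.mp hx, hd]
    by_cases h2 : x.1.degree = m
    · have h3 : x.2.degree = n := by omega
      rw [if_pos h2, if_pos h3]
    · rw [if_neg h2, zero_mul]
      rcases lt_or_gt_of_ne h2 with h4 | h4
      · rw [coeff_zero_of_deg_lt v n hv x.2 (by omega), mul_zero]
      · rw [coeff_zero_of_deg_lt u m hu x.1 h4, zero_mul]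
  · symm
    refine Finset.sum_eq_zero fun x hx => ?_
    rw [coeff_homogeneousComponent, coeff_homogeneousComponent]
    have h1 : x.1.degree + x.2.degree ≠ m + n := by
      rw [← map_add, Finset.HasAntidiagonal.mem_antidiagonal.mp hx]
      exact hd
    by_cases h2 : x.1.degree = m
    · have h3 : ¬ x.2.degree = n := by omega
      rw [if_neg h3, mul_zero]
    · rw [if_neg h2, zero_mul]

theorem pderiv_deg {k : Type*} [Field k] (f : PP k) (i : Fin 2) (a : ℕ)
    (hf : f.totalDegree ≤ a) : (pderiv i f).totalDegree ≤ a - 1 := by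
  refine deg_le_of_coeff _ _ fun d hd => ?_
  rw [coeff_pderiv] at hd
  by_contra h
  apply hd
  rw [coeff_zero_of_deg_lt f a hf, zero_mul]
  rw [map_add, Finsupp.degree_single]
  omega

theorem pderiv_comp {k : Type*} [Field k] (f : PP k) (i : Fin 2) (a : ℕ) (ha : 1 ≤ a) :
    homogeneousComponent (a - 1) (pderiv i f) = pderiv i (homogeneousComponent a f) := by
  ext d
  rw [coeff_homogeneousComponent, coeff_pderiv, coeff_pderiv, coeff_homogeneousComponent]
  have h1 : (d + Finsupp.single i 1).degree = d.degree + 1 := by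
    rw [map_add, Finsupp.degree_single]
  rw [h1]
  by_cases h2 : d.degree = a - 1
  · rw [if_pos h2, if_pos (by omega)]
  · rw [if_neg h2, if_neg (by omega), zero_mul]

theorem br_comp {k : Type*} [Field k] (f g : PP k) (a b : ℕ) (ha : 1 ≤ a) (hb : 1 ≤ b)
    (hf : f.totalDegree ≤ a) (hg : g.totalDegree ≤ b) :
    (br f g).totalDegree ≤ a + b - 2 ∧ homogeneousComponent (a + b - 2) (br f g) =
      br (homogeneousComponent a f) (homogeneousComponent b g) := by
  have e : a + b - 2 = (a - 1) + (b - 1) := by omega
  have hf0 := pderiv_deg f 0 a hf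
  have hf1 := pderiv_deg f 1 a hf
  have hg0 := pderiv_deg g 0 b hg
  have hg1 := pderiv_deg g 1 b hg
  constructor
  · unfold br
    refine (totalDegree_sub _ _).trans (max_le ?_ ?_)
    · refine (totalDegree_mul _ _).trans ?_
      omega
    · refine (totalDegree_mul _ _).trans ?_
      omega
  · unfold br
    rw [e, map_sub, comp_mul_top _ _ _ _ hf0 hg1, comp_mul_top _ _ _ _ hf1 hg0,
      pderiv_comp f 0 a ha, pderiv_comp f 1 a ha, pderiv_comp g 0 b hb, pderiv_comp g 1 b hb]

theorem br_deg {k : Type*} [Field k] (f g : PP k) (h : br f g ≠ 0) :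
    (br f g).totalDegree + 2 ≤ f.totalDegree + g.totalDegree := by
  have hf : 1 ≤ f.totalDegree := by
    by_contra h1
    apply h
    rw [totalDegree_eq_zero_iff_eq_C.mp (by omega : f.totalDegree = 0)]
    exact br_C_left g _
  have hg : 1 ≤ g.totalDegree := by
    by_contra h1
    apply h
    rw [totalDegree_eq_zero_iff_eq_C.mp (by omega : g.totalDegree = 0)]
    exact br_C_right f _
  have h1 := (br_comp f g _ _ hf hg le_rfl le_rfl).1
  omega

end Pool.Agent.H928R2.Pen
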