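import Pool.Agent.H928R2.PenMain

/-!
# Definitions for the theorem on Keller maps preserving a foliation
-/

set_option autoImplicit false
set_option linter.unusedSectionVars false

open MvPolynomial Pool.Agent.H928R2.Inv

namespace Pool.Agent.H928R2.Pen

section
variable {k : Type*} [Field k]

/-- the Jacobian bracket -/
noncomputable def br (f g : PP k) : PP k := pderiv 0 f * pderiv 1 g - pderiv 1 f * pderiv 0 g

theorem br_C_right (f : PP k) (c : k) : br f (C c) = 0 := by simp [br]

theorem br_C_left (f : PP k) (c : k) : br (C c) f = 0 := by simp [br]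

theorem br_self (f : PP k) : br f f = 0 := by
  unfold br
  ring

theorem br_swap (f g : PP k) : br g f = -br f g := by
  unfold br
  ring

theorem br_add_right (f g h : PP k) : br f (g + h) = br f g + br f h := by
  unfold br
  rw [map_add, map_add]
  ring

theorem br_mul_right (f g h : PP k) : br f (g * h) = g * br f h + h * br f g := by
  unfold br
  rw [Derivation.leibniz, Derivation.leibniz, smul_eq_mul, smul_eq_mul, smul_eq_mul, smul_eq_mul]
  ring

/-- the derivation `br f` -/
noncomputable def brD (f : PP k) : Derivation k (PP k) (PP k) :=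
  pderiv 0 f • pderiv 1 - pderiv 1 f • pderiv 0

theorem brD_apply (f g : PP k) : brD f g = br f g := rfl

theorem jac_det_br (F : Fin 2 → PP k) : (Pool.Agent.H922R2.jac F).det = br (F 0) (F 1) := by
  rw [Matrix.det_fin_two]
  rfl

end

section
variable {k : Type*} [Field k] [CharZero k] (F : Fin 2 → PP k)

/-- the components of the iterates -/
noncomputable def itr (n : ℕ) (i : Fin 2) : PP k :=
  (aeval F : PP k →ₐ[k] PP k)^[n] (X i)

theorem aeval_itr (n : ℕ) (p : PP k) :
    aeval (itr F n) p = (aeval F : PP k →ₐ[k] PP k)^[n] p := by
  induction n with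
  | zero =>
    show aeval X p = p
    rw [aeval_X_left]
    rfl
  | succ n ih =>
    rw [Function.iterate_succ_apply', ← ih]
    have h1 : (aeval F : PP k →ₐ[k] PP k).comp
        (aeval (itr F n)) = aeval (itr F (n + 1)) := by
      apply MvPolynomial.algHom_ext
      intro i
      rw [AlgHom.comp_apply, aeval_X, aeval_X]
      unfold itr
      rw [Function.iterate_succ_apply']
    rw [← h1]
    rfl

theorem jac_itr (hJ : IsUnit (Pool.Agent.H922R2.jac F).det) (n : ℕ) :
    IsUnit (Pool.Agent.H922R2.jac (itr F n)).det := by
  induction n with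
  | zero =>
    have h1 : (Matrix.of fun i j => pderiv j (itr F 0 i)) =
        (1 : Matrix (Fin 2) (Fin 2) (PP k)) := by
      refine Matrix.ext fun i j => ?_
      rw [Matrix.of_apply, Matrix.one_apply]
      show pderiv j (X i : PP k) = _
      rw [pderiv_X, Pi.single_apply]
    show IsUnit (Matrix.of fun i j => pderiv j (itr F 0 i)).det
    rw [h1, Matrix.det_one]
    exact isUnit_one
  | succ n ih =>
    have h1 : (Matrix.of fun i j => pderiv j (itr F (n + 1) i)) =
        (aeval F : PP k →ₐ[k] PP k).toRingHom.mapMatrix
          (Matrix.of fun i j => pderiv j (itr F n i)) *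
        (Matrix.of fun i j => pderiv j (F i)) := by
      ext i j
      rw [Matrix.of_apply, Matrix.mul_apply]
      unfold itr
      rw [Function.iterate_succ_apply', Pool.Agent.H922R2.deriv_aeval]
      rfl
    show IsUnit (Matrix.of fun i j => pderiv j (itr F (n + 1) i)).det
    rw [h1, Matrix.det_mul, ← RingHom.map_det]
    exact (ih.map _).mul hJ

end

end Pool.Agent.H928R2.Pen
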