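import Mathlib

set_option autoImplicit false

namespace Pool.Agent.H928R2.Pen

theorem surj_of_stable {L : Type*} [Field L] (φ : L →+* L) (K : Subfield L)
    (hfin : Module.Finite K L) (h1 : ∀ x ∈ K, φ x ∈ K) (h2 : ∀ x ∈ K, ∃ y ∈ K, φ y = x) :
    Function.Surjective φ := by
  classical
  let b := Module.finBasis K L
  have hli : LinearIndependent K (fun i => φ (b i)) := by
    rw [Fintype.linearIndependent_iff]
    intro g hg
    choose c hcK hc using fun i => h2 (g i : L) (g i).2
    have h0 : φ (∑ i, (c i) * (b i)) = 0 := by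
      rw [map_sum]
      rw [← hg]
      refine Finset.sum_congr rfl fun i _ => ?_
      rw [map_mul, hc i]
      rfl
    have h3 : (∑ i, (c i) * (b i)) = 0 := by
      exact (map_eq_zero φ).1 h0
    have h4 : ∑ i, (⟨c i, hcK i⟩ : K) • (b i) = 0 := by
      rw [← h3]
      rfl
    have h5 := (Fintype.linearIndependent_iff.1 b.linearIndependent) _ h4
    intro i
    have h6 : c i = 0 := by
      have := h5 i
      exact congrArg Subtype.val this
    apply Subtype.ext
    rw [← hc i, h6, map_zero]
    rfl
  have hsp : ⊤ ≤ Submodule.span K (Set.range (fun i => φ (b i))) := by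
    rw [hli.span_eq_top_of_card_eq_finrank' (by simp)]
  intro y
  have hy : y ∈ Submodule.span K (Set.range (fun i => φ (b i))) := hsp trivial
  rw [Submodule.mem_span_range_iff_exists_fun] at hy
  obtain ⟨g, hg⟩ := hy
  choose c hcK hc using fun i => h2 (g i : L) (g i).2
  refine ⟨∑ i, (c i) * (b i), ?_⟩
  rw [map_sum, ← hg]
  refine Finset.sum_congr rfl fun i _ => ?_
  rw [map_mul, hc i]
  rfl

end Pool.Agent.H928R2.Pen
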