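import Pool.Agent.H928R2.FolDef
import Pool.Agent.H928R2.PenStable

/-!
# Elements in the image of all iterates
-/

set_option autoImplicit false
set_option linter.unusedSectionVars false

open MvPolynomial Pool.Agent.H928R2.Inv

namespace Pool.Agent.H928R2.Pen

section
variable {k : Type*} [Field k] [IsAlgClosed k] [CharZero k] (F : Fin 2 → PP k)

/-- elements in the image of all iterates -/
noncomputable def RInf : Subalgebra k (PP k) :=
  ⨅ n : ℕ, (aeval (itr F n) : PP k →ₐ[k] PP k).range

theorem mem_RInf (w : PP k) : w ∈ RInf F ↔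
    ∀ n, ∃ p, (aeval F : PP k →ₐ[k] PP k)^[n] p = w := by
  unfold RInf
  rw [Algebra.mem_iInf]
  refine forall_congr' fun n => ?_
  rw [AlgHom.mem_range]
  simp only [aeval_itr]

theorem RInf_map (w : PP k) (hw : w ∈ RInf F) : aeval F w ∈ RInf F := by
  rw [mem_RInf] at hw ⊢
  intro n
  obtain ⟨p, hp⟩ := hw n
  refine ⟨aeval F p, ?_⟩
  rw [← Function.iterate_succ_apply, Function.iterate_succ_apply', hp]

theorem RInf_lift (hJ : IsUnit (Pool.Agent.H922R2.jac F).det) (w : PP k) (hw : w ∈ RInf F) :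
    ∃ w' ∈ RInf F, aeval F w' = w := by
  rw [mem_RInf] at hw
  obtain ⟨p, hp⟩ := hw 1
  refine ⟨p, ?_, hp⟩
  rw [mem_RInf]
  intro n
  obtain ⟨q, hq⟩ := hw (n + 1)
  refine ⟨q, ?_⟩
  apply Pool.Agent.H922R2.aeval_injective F hJ
  rw [← Function.iterate_succ_apply' (f := (aeval F : PP k →ₐ[k] PP k)), hq]
  exact hp.symm

/-- the field generated by the elements in the image of all iterates -/
noncomputable def EInf : IntermediateField k (KK k) :=
  IntermediateField.adjoin k (ιK k '' (RInf F : Set (PP k)))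

theorem EInf_map (hJ : IsUnit (Pool.Agent.H922R2.jac F).det) (x : KK k) (hx : x ∈ EInf F) :
    phiL F hJ x ∈ EInf F := by
  unfold EInf at hx
  induction hx using IntermediateField.adjoin_induction with
  | mem x hx =>
    obtain ⟨w, hw, rfl⟩ := hx
    rw [phiL_ι]
    exact IntermediateField.subset_adjoin _ _ ⟨_, RInf_map F w hw, rfl⟩
  | algebraMap x =>
    rw [AlgHom.commutes]
    exact IntermediateField.algebraMap_mem _ x
  | add x y _ _ hx hy => rw [map_add]; exact add_mem hx hy
  | inv x _ hx => rw [map_inv₀]; exact inv_mem hx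
  | mul x y _ _ hx hy => rw [map_mul]; exact mul_mem hx hy

theorem EInf_lift (hJ : IsUnit (Pool.Agent.H922R2.jac F).det) (x : KK k) (hx : x ∈ EInf F) :
    ∃ y ∈ EInf F, phiL F hJ y = x := by
  unfold EInf at hx
  induction hx using IntermediateField.adjoin_induction with
  | mem x hx =>
    obtain ⟨w, hw, rfl⟩ := hx
    obtain ⟨w', hw', rfl⟩ := RInf_lift F hJ w hw
    exact ⟨_, IntermediateField.subset_adjoin _ _ ⟨_, hw', rfl⟩, phiL_ι F hJ w'⟩
  | algebraMap x => exact ⟨_, IntermediateField.algebraMap_mem _ x, AlgHom.commutes _ x⟩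
  | add x y _ _ hx hy =>
    obtain ⟨b, hb, rfl⟩ := hx
    obtain ⟨c, hc, rfl⟩ := hy
    exact ⟨b + c, add_mem hb hc, map_add _ _ _⟩
  | inv x _ hx =>
    obtain ⟨b, hb, rfl⟩ := hx
    exact ⟨b⁻¹, inv_mem hb, map_inv₀ _ _⟩
  | mul x y _ _ hx hy =>
    obtain ⟨b, hb, rfl⟩ := hx
    obtain ⟨c, hc, rfl⟩ := hy
    exact ⟨b * c, mul_mem hb hc, map_mul _ _ _⟩

theorem surj_of_RInf (hJ : IsUnit (Pool.Agent.H922R2.jac F).det) (z : PP k) (hz : z ∈ RInf F)
    (hzc : ∀ c, z ≠ C c) : Function.Surjective (phiL F hJ) := by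
  have hzT : Transcendental k (ιK k z) := transcK_of_nonconst _ ((ne_C_iff z).1 hzc)
  by_cases hcase : ∀ w ∈ RInf F, IsAlgebraic (IntermediateField.adjoin k {ιK k z}) (ιK k w)
  · obtain ⟨A, B, hco, hD⟩ := exists_prim (ιK k z)
    have hD1 : dd A B z = 0 := (DK_zero_iff z).1 hD
    obtain ⟨h, H⟩ := exists_Fib hco z hzc hD1
    obtain ⟨κ, hκ, hcomm, -, -⟩ := fol F hJ A B hco (ιK k z) ((ne_C_iff z).1 hzc) hD (by
      rw [phiL_ι]
      exact DK_of_alg hD _ (hcase _ (RInf_map F z hz)))
    exact caseA F hJ A B h H κ hκ hcomm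
  · push Not at hcase
    obtain ⟨w, hw, hwT⟩ := hcase
    have h1 := hfin hzT (ιK k w) hwT
    have hzE : IntermediateField.adjoin k {ιK k z} ≤ EInf F := by
      rw [IntermediateField.adjoin_simple_le_iff]
      exact IntermediateField.subset_adjoin _ _ ⟨z, hz, rfl⟩
    have h2 : ∀ a ∈ IntermediateField.adjoin (IntermediateField.adjoin k {ιK k z}) {ιK k w},
        a ∈ EInf F := by
      intro a ha
      induction ha using IntermediateField.adjoin_induction with
      | mem x hx =>
        rw [Set.mem_singleton_iff] at hx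
        rw [hx]
        exact IntermediateField.subset_adjoin _ _ ⟨w, hw, rfl⟩
      | algebraMap x => exact hzE x.2
      | add x y _ _ hx hy => exact add_mem hx hy
      | inv x _ hx => exact inv_mem hx
      | mul x y _ _ hx hy => exact mul_mem hx hy
    have h3 : Module.Finite (EInf F).toSubfield (KK k) := by
      obtain ⟨s, hs⟩ := h1.fg_top
      refine ⟨⟨s, ?_⟩⟩
      rw [eq_top_iff]
      intro x _
      have hx : x ∈ Submodule.span
          (IntermediateField.adjoin (IntermediateField.adjoin k {ιK k z}) {ιK k w})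
          (s : Set (KK k)) := by
        rw [hs]
        trivial
      induction hx using Submodule.span_induction with
      | mem x hx => exact Submodule.subset_span hx
      | zero => exact zero_mem _
      | add x y _ _ hx hy => exact add_mem (hx trivial) (hy trivial)
      | smul a x _ hx =>
        have h4 : (⟨a, h2 a a.2⟩ : (EInf F).toSubfield) • x ∈
            Submodule.span (EInf F).toSubfield (s : Set (KK k)) :=
          Submodule.smul_mem _ _ (hx trivial)
        exact h4
    exact surj_of_stable (phiL F hJ : KK k →+* KK k) (EInf F).toSubfield h3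
      (fun x hx => EInf_map F hJ x hx) (fun x hx => EInf_lift F hJ x hx)

/-- if `F` is not an automorphism, the degrees of the elements of `k[F^n]` tend to infinity -/
theorem escape (hJ : IsUnit (Pool.Agent.H922R2.jac F).det)
    (hns : ¬ Function.Surjective (phiL F hJ)) (N : ℕ) :
    ∃ n : ℕ, ∀ p : PP k, (∀ c, p ≠ C c) → N ≤ ((aeval F : PP k →ₐ[k] PP k)^[n] p).totalDegree := by
  by_contra hcon
  push Not at hcon
  -- the spaces
  let U : ℕ → Submodule k (PP k) := fun n =>
    (aeval (itr F n) : PP k →ₐ[k] PP k).range.toSubmodule ⊓ restrictTotalDegree (Fin 2) k N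
  have hU : ∀ n w, w ∈ U n ↔ (∃ p, (aeval F : PP k →ₐ[k] PP k)^[n] p = w) ∧
      w.totalDegree ≤ N := by
    intro n w
    rw [Submodule.mem_inf, mem_restrictTotalDegree]
    refine and_congr_left fun _ => ?_
    rw [Subalgebra.mem_toSubmodule, AlgHom.mem_range]
    simp only [aeval_itr]
  have hanti : Antitone U := by
    apply antitone_nat_of_succ_le
    intro n w hw
    rw [hU] at hw ⊢
    obtain ⟨⟨p, hp⟩, hd⟩ := hw
    exact ⟨⟨aeval F p, by rw [← hp, Function.iterate_succ_apply]⟩, hd⟩
  have hfd : ∀ n, FiniteDimensional k (U n) := fun n =>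
    Submodule.finiteDimensional_of_le (S₂ := restrictTotalDegree (Fin 2) k N) inf_le_right
  obtain ⟨n₀, hn₀⟩ : ∃ n₀, ∀ n, n₀ ≤ n → U n = U n₀ := by
    refine ⟨Function.argmin (fun n => Module.finrank k (U n)), fun n hn => ?_⟩
    have h1 := Function.argmin_le (fun n => Module.finrank k (U n)) n
    exact Submodule.eq_of_le_of_finrank_le (hanti hn) h1
  obtain ⟨p, hp, hpd⟩ := hcon n₀
  have hφinj : Function.Injective ((aeval F : PP k →ₐ[k] PP k)^[n₀]) :=
    (Pool.Agent.H922R2.aeval_injective F hJ).iterate n₀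
  have hz : (aeval F : PP k →ₐ[k] PP k)^[n₀] p ∈ RInf F := by
    rw [mem_RInf]
    intro n
    have h1 : (aeval F : PP k →ₐ[k] PP k)^[n₀] p ∈ U n₀ := (hU _ _).2 ⟨⟨p, rfl⟩, hpd.le⟩
    have h2 : (aeval F : PP k →ₐ[k] PP k)^[n₀] p ∈ U (max n n₀) := by
      rw [hn₀ _ (le_max_right _ _)]
      exact h1
    exact ((hU _ _).1 (hanti (le_max_left n n₀) h2)).1
  apply hns
  refine surj_of_RInf F hJ _ hz ?_
  intro c hc
  apply hp c
  apply hφinj
  rw [hc, ← aeval_itr F n₀ (C c), aeval_C]
  rfl

end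

end Pool.Agent.H928R2.Pen
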