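import Pool.Agent.H928R2.FolDef

/-!
# Derivations with a finite-dimensional invariant subspace (helper18, task G9)
-/

set_option autoImplicit false

open MvPolynomial Pool.Agent.H928R2.Inv

namespace Pool.Agent.H928R2.Pen

theorem fd_genEig_aux {k W : Type*} [Field k] [AddCommGroup W] [Module k W]
    (f : Module.End k W) {μ : k} (hμ : ¬ f.HasEigenvalue μ) (m : ℕ) (v : W)
    (hv : ((f - μ • (1 : Module.End k W)) ^ m) v = 0) : v = 0 := by
  induction m generalizing v with
  | zero => simpa using hv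
  | succ m ih =>
    rw [pow_succ, Module.End.mul_apply] at hv
    have h1 := ih _ hv
    by_contra hne
    apply hμ
    refine Module.End.hasEigenvalue_of_hasEigenvector (x := v) ?_
    rw [Module.End.hasEigenvector_iff]
    refine ⟨?_, hne⟩
    rw [Module.End.mem_eigenspace_iff]
    have h2 : f v - μ • v = 0 := h1
    exact sub_eq_zero.1 h2

theorem fd_analysis {k : Type*} [Field k] [IsAlgClosed k] [CharZero k]
    (D : Derivation k (PP k) (PP k)) (V : Submodule k (PP k)) [FiniteDimensional k V]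
    (hV : ∀ p ∈ V, D p ∈ V) (hne : ∃ p ∈ V, ∀ c, p ≠ C c) :
    (∃ p : PP k, (∀ c, p ≠ C c) ∧ ∃ l : k, D p = C l * p) ∨
      ∃ p : PP k, (∀ c, p ≠ C c) ∧ D p = 1 := by
  classical
  have hDC : ∀ c : k, D (C c) = 0 := fun c => D.map_algebraMap c
  set f : Module.End k V := (D : PP k →ₗ[k] PP k).restrict hV with hf
  have hfc : ∀ v : V, ((f v : V) : PP k) = D v := fun v => rfl
  by_cases h : ∃ μ : k, μ ≠ 0 ∧ f.HasEigenvalue μ
  · obtain ⟨μ, hμ, hev⟩ := h
    obtain ⟨v, hv⟩ := hev.exists_hasEigenvector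
    left
    have h1 : D (v : PP k) = C μ * (v : PP k) := by
      rw [← hfc, hv.apply_eq_smul, Submodule.coe_smul, MvPolynomial.smul_eq_C_mul]
    refine ⟨v, fun c hc => ?_, μ, h1⟩
    rw [hc, hDC, ← C_mul, eq_comm, C_eq_zero] at h1
    have h2 : c = 0 := (mul_eq_zero.1 h1).resolve_left hμ
    apply hv.2
    apply Subtype.ext
    rw [hc, h2, C_0]
    rfl
  · push Not at h
    obtain ⟨p₀, hp₀, hpc⟩ := hne
    -- the generalised eigenspace for the eigenvalue 0 is everything
    have htop : f.maxGenEigenspace 0 = ⊤ := by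
      rw [← Module.End.iSup_maxGenEigenspace_eq_top f]
      apply le_antisymm
      · exact le_iSup f.maxGenEigenspace 0
      · refine iSup_le fun μ => ?_
        by_cases hμ : μ = 0
        · rw [hμ]
        · intro v hv
          rw [Module.End.mem_maxGenEigenspace] at hv
          obtain ⟨m, hm⟩ := hv
          rw [fd_genEig_aux f (h μ hμ) m v hm]
          exact Submodule.zero_mem _
    have hmem : (⟨p₀, hp₀⟩ : V) ∈ f.maxGenEigenspace 0 := by
      rw [htop]
      exact Submodule.mem_top
    rw [Module.End.mem_maxGenEigenspace] at hmem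
    obtain ⟨m, hm⟩ := hmem
    have hf0 : f - (0 : k) • (1 : Module.End k V) = f := by
      refine LinearMap.ext fun v => ?_
      show f v - (0 : k) • v = f v
      rw [zero_smul, sub_zero]
    rw [hf0] at hm
    have hiter : ∀ n : ℕ, (((f ^ n) (⟨p₀, hp₀⟩ : V) : V) : PP k) = (D : PP k → PP k)^[n] p₀ := by
      intro n
      induction n with
      | zero => rfl
      | succ n ih =>
        rw [pow_succ', Module.End.mul_apply, hfc, ih, Function.iterate_succ_apply']
    have hex : ∃ n : ℕ, ∃ c : k, (D : PP k → PP k)^[n] p₀ = C c :=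
      ⟨m, 0, by rw [← hiter, hm, C_0]; rfl⟩
    have hn0 : Nat.find hex ≠ 0 := by
      intro h0
      obtain ⟨c, hc⟩ := Nat.find_spec hex
      rw [h0] at hc
      exact hpc c hc
    obtain ⟨i, hi⟩ := Nat.exists_eq_succ_of_ne_zero hn0
    obtain ⟨c, hc⟩ := Nat.find_spec hex
    have hmin : ¬ ∃ c : k, (D : PP k → PP k)^[i] p₀ = C c :=
      Nat.find_min hex (by rw [hi]; exact Nat.lt_succ_self i)
    push Not at hmin
    rw [hi, Function.iterate_succ_apply'] at hc
    by_cases hc0 : c = 0
    · left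
      refine ⟨_, hmin, 0, ?_⟩
      rw [hc, hc0, C_0, zero_mul]
    · right
      refine ⟨C c⁻¹ * (D : PP k → PP k)^[i] p₀, fun c' hc' => ?_, ?_⟩
      · apply hmin (c * c')
        have h3 : C c * (C c⁻¹ * (D : PP k → PP k)^[i] p₀) = C c * C c' := by rw [hc']
        rw [← mul_assoc, ← C_mul, mul_inv_cancel₀ hc0, C_1, one_mul, ← C_mul] at h3
        exact h3
      · rw [Derivation.leibniz, hDC, smul_zero, add_zero, hc, smul_eq_mul, ← C_mul,
          inv_mul_cancel₀ hc0, C_1]

end Pool.Agent.H928R2.Pen
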