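import Mathlib

/-!
# Multiplicities of roots of a polynomial whose exponents are congruent
-/

set_option autoImplicit false

open Polynomial

namespace Pool.Agent.H928R2.Pen

theorem mult_bound {k R : Type*} [Field k] [IsAlgClosed k] [CharZero k] [CommRing R] [IsDomain R]
    [Algebra k R] (P : Polynomial R) (hP : P ≠ 0) (n : ℕ) (hn : 0 < n)
    (hs : ∀ i ∈ P.support, ∀ j ∈ P.support, i ≡ j [MOD n]) (r : R) (hr : r ≠ 0) :
    n * P.rootMultiplicity r ≤ P.natDegree := by
  classical
  have hinj : Function.Injective (algebraMap k R) := FaithfulSMul.algebraMap_injective k R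
  have : NeZero n := ⟨hn.ne'⟩
  have : NeZero (n : k) := ⟨by exact_mod_cast hn.ne'⟩
  obtain ⟨ζ, hζ⟩ := HasEnoughRootsOfUnity.exists_primitiveRoot k n
  have hcard : (nthRootsFinset n (1 : k)).card = n := hζ.card_nthRootsFinset
  -- multiplicities are invariant
  have key : ∀ ξ : k, ξ ^ n = 1 →
      P.rootMultiplicity r ≤ P.rootMultiplicity (algebraMap k R ξ * r) := by
    intro ξ hξ
    set x := algebraMap k R ξ with hx
    have hx1 : x ^ n = 1 := by rw [hx, ← map_pow, hξ, map_one]
    set y := x ^ (n - 1) with hy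
    have hxy : y * x = 1 := by
      rw [hy, ← pow_succ, Nat.sub_add_cancel hn, hx1]
    have hy1 : y ^ n = 1 := by rw [hy, ← pow_mul, mul_comm, pow_mul, hx1, one_pow]
    have hyu : IsUnit y := IsUnit.of_mul_eq_one x hxy
    have hcomp : P.comp (C y * X) = C (y ^ P.natDegree) * P := by
      ext i
      rw [comp_C_mul_X_coeff, coeff_C_mul]
      by_cases hi : i ∈ P.support
      · have h1 := hs i hi P.natDegree (natDegree_mem_support_of_nonzero hP)
        have h2 : y ^ i = y ^ P.natDegree := pow_eq_pow_of_modEq h1 hy1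
        rw [h2, mul_comm]
      · rw [notMem_support_iff.1 hi, zero_mul, mul_zero]
    have hd : (X - C r) ^ P.rootMultiplicity r ∣ P := pow_rootMultiplicity_dvd P r
    obtain ⟨Q, hQ⟩ := hd
    have hd2 : (C y * X - C r) ^ P.rootMultiplicity r ∣ P.comp (C y * X) := by
      refine ⟨Q.comp (C y * X), ?_⟩
      conv_lhs => rw [hQ]
      rw [mul_comp, pow_comp, sub_comp, X_comp, C_comp]
    have hf : (C y * X - C r : R[X]) = C y * (X - C (x * r)) := by
      rw [mul_sub, ← C_mul, ← mul_assoc, hxy, one_mul]
    have hd3 : (X - C (x * r)) ^ P.rootMultiplicity r ∣ P := by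
      rw [hf, mul_pow, hcomp] at hd2
      have h4 : (X - C (x * r)) ^ P.rootMultiplicity r ∣ C (y ^ P.natDegree) * P :=
        (Dvd.intro_left _ rfl).trans hd2
      exact ((hyu.pow P.natDegree).map C).dvd_mul_left.1 h4
    exact (le_rootMultiplicity_iff hP).2 hd3
  -- count
  let f : k → R := fun ξ => algebraMap k R ξ * r
  have hf : Function.Injective f := fun a b hab => hinj (mul_right_cancel₀ hr hab)
  let S : Finset R := (nthRootsFinset n (1 : k)).image f
  have hS : S.card = n := by rw [Finset.card_image_of_injective _ hf, hcard]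
  have h1 : n * P.rootMultiplicity r ≤ ∑ a ∈ S, P.roots.count a := by
    rw [← hS, ← smul_eq_mul]
    apply Finset.card_nsmul_le_sum
    intro a ha
    obtain ⟨ξ, hξ, rfl⟩ := Finset.mem_image.1 ha
    rw [count_roots]
    exact key ξ ((mem_nthRootsFinset hn 1).1 hξ)
  have h2 : ∑ a ∈ S, P.roots.count a ≤ Multiset.card P.roots := by
    have h3 : ∑ a ∈ S, P.roots.count a = ∑ a ∈ S, (P.roots.filter (· ∈ S)).count a :=
      Finset.sum_congr rfl fun a ha => by rw [Multiset.count_filter, if_pos ha]
    rw [h3, Multiset.sum_count_eq_card (fun a ha => (Multiset.mem_filter.1 ha).2)]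
    exact Multiset.card_le_card (Multiset.filter_le _ _)
  exact h1.trans (h2.trans (card_roots' P))

end Pool.Agent.H928R2.Pen
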