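import Pool.Agent.H928R2.FolDef

/-!
# Top homogeneous component of a composition (task G1 of h928_tasks)
-/

set_option autoImplicit false

open MvPolynomial Pool.Agent.H928R2.Inv

namespace Pool.Agent.H928R2.Pen

namespace FolTopAux

variable {k : Type*} [Field k] {τ : Type*}

theorem hc_mul (f g : MvPolynomial τ k) (a b : ℕ) (hf : f.totalDegree ≤ a)
    (hg : g.totalDegree ≤ b) :
    homogeneousComponent (a + b) (f * g) = homogeneousComponent a f * homogeneousComponent b g := by
  classical
  ext d
  rw [coeff_homogeneousComponent]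
  split_ifs with hd
  · rw [coeff_mul, coeff_mul]
    refine Finset.sum_congr rfl fun x hx => ?_
    rw [Finset.HasAntidiagonal.mem_antidiagonal] at hx
    rw [coeff_homogeneousComponent, coeff_homogeneousComponent]
    by_cases h1 : coeff x.1 f = 0
    · simp [h1]
    by_cases h2 : coeff x.2 g = 0
    · simp [h2]
    have h3 : x.1.degree ≤ a := by
      have := le_totalDegree (mem_support_iff.mpr h1)
      exact this.trans hf
    have h4 : x.2.degree ≤ b := by
      have := le_totalDegree (mem_support_iff.mpr h2)
      exact this.trans hg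
    have h5 : x.1.degree + x.2.degree = a + b := by
      rw [← hd, ← hx, map_add]
    rw [if_pos (by omega), if_pos (by omega)]
  · symm
    by_contra hne
    exact hd (((homogeneousComponent_isHomogeneous a f).mul
      (homogeneousComponent_isHomogeneous b g)).coeff_eq_zero.mt hne |> not_not.mp)

/-- `p` has degree at most `a` and its component of degree `a` is `q` -/
def T (p : MvPolynomial τ k) (a : ℕ) (q : MvPolynomial τ k) : Prop :=
  p.totalDegree ≤ a ∧ homogeneousComponent a p = q

theorem T.mul {p p' q q' : MvPolynomial τ k} {a a' : ℕ} (h : T p a q) (h' : T p' a' q') :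
    T (p * p') (a + a') (q * q') :=
  ⟨(totalDegree_mul _ _).trans (Nat.add_le_add h.1 h'.1), by
    rw [hc_mul _ _ _ _ h.1 h'.1, h.2, h'.2]⟩

theorem T.one : T (1 : MvPolynomial τ k) 0 1 :=
  ⟨by simp, by
    rw [homogeneousComponent_zero]
    simp⟩

theorem T.const (c : k) : T (C c : MvPolynomial τ k) 0 (C c) :=
  ⟨by simp, by
    rw [homogeneousComponent_zero]
    simp⟩

theorem T.pow {p q : MvPolynomial τ k} {a : ℕ} (h : T p a q) (n : ℕ) :
    T (p ^ n) (n * a) (q ^ n) := by
  induction n with
  | zero =>
    rw [pow_zero, pow_zero, zero_mul]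
    exact T.one
  | succ n ih =>
    rw [pow_succ, pow_succ, Nat.succ_mul]
    exact ih.mul h

theorem T.prod {ι : Type*} (s : Finset ι) (p q : ι → MvPolynomial τ k) (a : ι → ℕ)
    (h : ∀ i ∈ s, T (p i) (a i) (q i)) :
    T (∏ i ∈ s, p i) (∑ i ∈ s, a i) (∏ i ∈ s, q i) := by
  classical
  induction s using Finset.induction_on with
  | empty =>
    simp only [Finset.prod_empty, Finset.sum_empty]
    exact T.one
  | insert i s hi ih =>
    rw [Finset.prod_insert hi, Finset.prod_insert hi, Finset.sum_insert hi]
    exact (h i (Finset.mem_insert_self _ _)).mul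
      (ih fun j hj => h j (Finset.mem_insert_of_mem hj))

theorem T.lift {p q : MvPolynomial τ k} {a b : ℕ} (h : T p a q) (hab : a < b) : T p b 0 :=
  ⟨h.1.trans hab.le, homogeneousComponent_eq_zero _ _ (lt_of_le_of_lt h.1 hab)⟩

end FolTopAux

open FolTopAux in
theorem comp_top {k : Type*} [Field k] {σ : Type*} [Fintype σ] [DecidableEq σ] (ω : σ → ℕ)
    (v : σ → PP k) (hv : ∀ i, (v i).totalDegree ≤ ω i) (M : ℕ) (H : MvPolynomial σ k)
    (hH : ∀ d ∈ H.support, Finsupp.weight ω d ≤ M) :
    (aeval v H).totalDegree ≤ M ∧ homogeneousComponent M (aeval v H) =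
      aeval (fun i => homogeneousComponent (ω i) (v i)) (weightedHomogeneousComponent ω M H) := by
  classical
  have hw : ∀ d : σ →₀ ℕ, Finsupp.weight ω d = ∑ i, d i * ω i := by
    intro d
    rw [Finsupp.weight_apply, Finsupp.sum_fintype]
    · simp
    · intro i
      simp
  have hmono : ∀ d : σ →₀ ℕ, ∀ c : k, T (C c * ∏ i, v i ^ d i) (Finsupp.weight ω d)
      (C c * ∏ i, (homogeneousComponent (ω i) (v i)) ^ d i) := by
    intro d c
    rw [hw]
    have h1 := T.prod Finset.univ (fun i => v i ^ d i)
      (fun i => (homogeneousComponent (ω i) (v i)) ^ d i) (fun i => d i * ω i)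
      (fun i _ => T.pow ⟨hv i, rfl⟩ (d i))
    have h2 := (T.const (τ := Fin 2) c).mul h1
    rw [zero_add] at h2
    exact h2
  have hsum : aeval v H = ∑ d ∈ H.support, C (coeff d H) * ∏ i, v i ^ d i := by
    rw [aeval_def, eval₂_eq']
    rfl
  have hcomp : aeval (fun i => homogeneousComponent (ω i) (v i))
      (weightedHomogeneousComponent ω M H) = ∑ d ∈ H.support,
        if Finsupp.weight ω d = M then
          C (coeff d H) * ∏ i, (homogeneousComponent (ω i) (v i)) ^ d i else 0 := by
    rw [weightedHomogeneousComponent_apply, map_sum, Finset.sum_filter]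
    refine Finset.sum_congr rfl fun d _ => ?_
    split_ifs
    · rw [aeval_monomial, Finsupp.prod_fintype]
      · rfl
      · intro i
        simp
    · rfl
  rw [hcomp, hsum]
  constructor
  · refine (totalDegree_finsetSum _ _).trans (Finset.sup_le fun d hd => ?_)
    exact (hmono d _).1.trans (hH d hd)
  · rw [map_sum]
    refine Finset.sum_congr rfl fun d hd => ?_
    split_ifs with h
    · rw [← h]
      exact (hmono d _).2
    · exact ((hmono d _).lift (lt_of_le_of_ne (hH d hd) h)).2

end Pool.Agent.H928R2.Pen
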