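import Pool.Agent.H928R2.FolDef
import Pool.Agent.H928R2.FolTop
import Pool.Agent.H928R2.FolMult

/-!
# Level one: degrees of the elements of `k[f, g]` for a Keller pair `f`, `g` (task G5, helper602)
-/

set_option autoImplicit false

open MvPolynomial Pool.Agent.H928R2.Inv

namespace Pool.Agent.H928R2.Pen

/-- degree of the bracket -/
theorem G5_br_deg {k : Type*} [Field k] [CharZero k] (f g : PP k) (h : br f g ≠ 0) :
    (br f g).totalDegree + 2 ≤ f.totalDegree + g.totalDegree := by
  have key : ∀ i j : Fin 2, pderiv i f * pderiv j g ≠ 0 →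
      (pderiv i f * pderiv j g).totalDegree + 2 ≤ f.totalDegree + g.totalDegree := by
    intro i j hij
    have h1 := Pool.Agent.H922R2.totalDegree_pderiv_lt f i (left_ne_zero_of_mul hij)
    have h2 := Pool.Agent.H922R2.totalDegree_pderiv_lt g j (right_ne_zero_of_mul hij)
    have h3 := totalDegree_mul (pderiv i f) (pderiv j g)
    omega
  unfold br at h ⊢
  by_cases h1 : pderiv 0 f * pderiv 1 g = 0
  · have h2 : pderiv 1 f * pderiv 0 g ≠ 0 := by
      intro h2
      rw [h1, h2, sub_zero] at h
      exact h rfl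
    rw [h1, zero_sub, totalDegree_neg]
    exact key 1 0 h2
  · by_cases h2 : pderiv 1 f * pderiv 0 g = 0
    · rw [h2, sub_zero]
      exact key 0 1 h1
    · have h3 := totalDegree_sub (pderiv 0 f * pderiv 1 g) (pderiv 1 f * pderiv 0 g)
      have h4 := key 0 1 h1
      have h5 := key 1 0 h2
      rcases le_max_iff.1 h3 with h6 | h6 <;> omega

section LevelOne

variable {k : Type*} [Field k]

/-- the top component of a nonzero polynomial is nonzero -/
theorem G5_top_ne {f : PP k} (hf : f ≠ 0) : homogeneousComponent f.totalDegree f ≠ 0 := by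
  classical
  obtain ⟨d, hd, hd2⟩ := Finset.exists_mem_eq_sup f.support (support_nonempty.2 hf)
    (fun s => s.sum fun _ e => e)
  intro h
  have h1 : coeff d (homogeneousComponent f.totalDegree f) = coeff d f := by
    rw [coeff_homogeneousComponent, if_pos]
    rw [totalDegree, hd2]
    rfl
  rw [h, coeff_zero] at h1
  exact (mem_support_iff.1 hd) h1.symm

/-- a nonzero component bounds the total degree from below -/
theorem G5_le_deg {f : PP k} {m : ℕ} (h : homogeneousComponent m f ≠ 0) : m ≤ f.totalDegree := by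
  by_contra hlt
  exact h (homogeneousComponent_eq_zero m f (by omega))

/-- the derivation `br f` on polynomials in `f`, `g` -/
theorem G5_br_aeval (F : Fin 2 → PP k) (c : k) (hF : br (F 0) (F 1) = C c) (Q : PP k) :
    br (F 0) (aeval F Q) = C c * aeval F (pderiv 1 Q) := by
  induction Q using MvPolynomial.induction_on with
  | C a =>
    rw [aeval_C]
    show br (F 0) (C a) = _
    rw [br_C_right, pderiv_C, map_zero, mul_zero]
  | add p q hp hq => rw [map_add, br_add_right, hp, hq, map_add, map_add, mul_add]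
  | mul_X p i hp =>
    rw [map_mul, aeval_X, br_mul_right, hp, pderiv_mul, map_add, map_mul, map_mul, aeval_X]
    fin_cases i
    · show aeval F p * br (F 0) (F 0) + F 0 * (C c * aeval F (pderiv 1 p)) = _
      rw [br_self, mul_zero, zero_add]
      show _ = C c * (aeval F (pderiv 1 p) * F 0 + aeval F p * aeval F (pderiv 1 (X 0)))
      rw [pderiv_X_of_ne (by decide : (0 : Fin 2) ≠ 1), map_zero]
      ring
    · show aeval F p * br (F 0) (F 1) + F 1 * (C c * aeval F (pderiv 1 p)) = _
      show _ = C c * (aeval F (pderiv 1 p) * F 1 + aeval F p * aeval F (pderiv 1 (X 1)))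
      rw [pderiv_X_self, map_one, hF]
      ring

theorem G5_br_iter (F : Fin 2 → PP k) (c : k) (hF : br (F 0) (F 1) = C c) (Q : PP k) (t : ℕ) :
    (br (F 0))^[t] (aeval F Q) = C (c ^ t) * aeval F ((pderiv (R := k) (1 : Fin 2))^[t] Q) := by
  induction t with
  | zero => simp
  | succ t ih =>
    rw [Function.iterate_succ_apply', ih, Function.iterate_succ_apply']
    have h1 : br (F 0) (C (c ^ t) * aeval F ((pderiv (R := k) (1 : Fin 2))^[t] Q)) =
        C (c ^ t) * br (F 0) (aeval F ((pderiv (R := k) (1 : Fin 2))^[t] Q)) := by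
      rw [br_mul_right, br_C_right, mul_zero, add_zero]
    rw [h1, G5_br_aeval F c hF, pow_succ, C_mul]
    ring

/-- degrees along the iteration -/
theorem G5_iter_deg [CharZero k] (f u : PP k) (t : ℕ) (h : (br f)^[t] u ≠ 0) :
    ((br f)^[t] u).totalDegree + 2 * t ≤ t * f.totalDegree + u.totalDegree := by
  induction t with
  | zero => simp
  | succ t ih =>
    rw [Function.iterate_succ_apply'] at h ⊢
    have h1 : (br f)^[t] u ≠ 0 := by
      intro h0
      apply h
      rw [h0]
      simp [br]
    have h2 := ih h1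
    have h3 := G5_br_deg f _ h
    have : (t + 1) * f.totalDegree = t * f.totalDegree + f.totalDegree := by ring
    omega

/-- the derivative with respect to the second variable lowers the weight by `ω 1` -/
theorem G5_weight_add (ω : Fin 2 → ℕ) (d : Fin 2 →₀ ℕ) :
    Finsupp.weight ω (d + Finsupp.single 1 1) = Finsupp.weight ω d + ω 1 := by
  rw [map_add, Finsupp.weight_single]
  simp

theorem G5_wt_pderiv (ω : Fin 2 → ℕ) (Q : PP k) (M : ℕ)
    (hQ : ∀ d ∈ Q.support, Finsupp.weight ω d ≤ M + ω 1) :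
    (∀ d ∈ (pderiv 1 Q).support, Finsupp.weight ω d ≤ M) ∧
      weightedHomogeneousComponent ω M (pderiv 1 Q) =
        pderiv 1 (weightedHomogeneousComponent ω (M + ω 1) Q) := by
  classical
  constructor
  · intro d hd
    rw [mem_support_iff, coeff_pderiv] at hd
    have h1 : coeff (d + Finsupp.single 1 1) Q ≠ 0 := fun h => hd (by rw [h, zero_mul])
    have h2 := hQ _ (mem_support_iff.2 h1)
    rw [G5_weight_add] at h2
    omega
  · ext d
    rw [coeff_weightedHomogeneousComponent, coeff_pderiv, coeff_pderiv,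
      coeff_weightedHomogeneousComponent, G5_weight_add]
    by_cases h : Finsupp.weight ω d = M
    · rw [if_pos h, if_pos (by omega)]
    · rw [if_neg h, if_neg (by omega), zero_mul]

theorem G5_wt_iter (ω : Fin 2 → ℕ) (t : ℕ) : ∀ (Q : PP k) (M : ℕ),
    (∀ d ∈ Q.support, Finsupp.weight ω d ≤ M + t * ω 1) →
    (∀ d ∈ ((pderiv (R := k) (1 : Fin 2))^[t] Q).support, Finsupp.weight ω d ≤ M) ∧
      weightedHomogeneousComponent ω M ((pderiv (R := k) (1 : Fin 2))^[t] Q) =
        (pderiv (R := k) (1 : Fin 2))^[t] (weightedHomogeneousComponent ω (M + t * ω 1) Q) := by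
  induction t with
  | zero =>
    intro Q M hQ
    simp only [zero_mul, add_zero] at hQ ⊢
    exact ⟨hQ, rfl⟩
  | succ t ih =>
    intro Q M hQ
    have e : M + (t + 1) * ω 1 = (M + t * ω 1) + ω 1 := by ring
    rw [e] at hQ ⊢
    obtain ⟨h1, h2⟩ := G5_wt_pderiv ω Q (M + t * ω 1) hQ
    obtain ⟨h3, h4⟩ := ih (pderiv 1 Q) M h1
    rw [Function.iterate_succ_apply, Function.iterate_succ_apply]
    refine ⟨h3, ?_⟩
    rw [h4, h2]

/-- substitution of `u` for the first variable -/
noncomputable def G5_phi (u : PP k) : PP k →ₐ[k] Polynomial (PP k) :=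
  aeval ![Polynomial.C u, Polynomial.X]

theorem G5_phi_monomial (u : PP k) (d : Fin 2 →₀ ℕ) (a : k) :
    G5_phi u (monomial d a) = Polynomial.monomial (d 1) (C a * u ^ d 0) := by
  unfold G5_phi
  rw [aeval_monomial, Finsupp.prod_fintype _ _ (fun i => pow_zero _), Fin.prod_univ_two]
  have h1 : (algebraMap k (Polynomial (PP k))) a = Polynomial.C (C a) := rfl
  rw [h1]
  simp only [Matrix.cons_val_zero, Matrix.cons_val_one]
  rw [← Polynomial.C_pow, ← mul_assoc, ← Polynomial.C_mul, Polynomial.C_mul_X_pow_eq_monomial]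

theorem G5_phi_sum (u : PP k) (T : PP k) :
    G5_phi u T = ∑ d ∈ T.support, Polynomial.monomial (d 1) (C (coeff d T) * u ^ d 0) := by
  conv_lhs => rw [T.as_sum]
  rw [map_sum]
  exact Finset.sum_congr rfl fun d _ => G5_phi_monomial u d _

theorem G5_phi_pderiv (u : PP k) (T : PP k) :
    G5_phi u (pderiv 1 T) = Polynomial.derivative (G5_phi u T) := by
  induction T using MvPolynomial.induction_on with
  | C a =>
    rw [pderiv_C, map_zero]
    have : G5_phi u (C a) = Polynomial.C (C a) := by
      unfold G5_phi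
      rw [aeval_C]
      rfl
    rw [this, Polynomial.derivative_C]
  | add p q hp hq => rw [map_add, map_add, hp, hq, map_add, Polynomial.derivative_add]
  | mul_X p i hp =>
    rw [pderiv_mul, map_add, map_mul, map_mul, hp, map_mul, Polynomial.derivative_mul]
    congr 1
    congr 1
    fin_cases i
    · show G5_phi u (pderiv 1 (X 0)) = Polynomial.derivative (G5_phi u (X 0))
      rw [pderiv_X_of_ne (by decide : (0 : Fin 2) ≠ 1), map_zero]
      unfold G5_phi
      rw [aeval_X]
      simp
    · show G5_phi u (pderiv 1 (X 1)) = Polynomial.derivative (G5_phi u (X 1))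
      rw [pderiv_X_self, map_one]
      unfold G5_phi
      rw [aeval_X]
      simp

theorem G5_phi_iter (u : PP k) (T : PP k) (t : ℕ) :
    G5_phi u ((pderiv (R := k) (1 : Fin 2))^[t] T) =
      (Polynomial.derivative)^[t] (G5_phi u T) := by
  induction t with
  | zero => rfl
  | succ t ih => rw [Function.iterate_succ_apply', Function.iterate_succ_apply', G5_phi_pderiv, ih]

theorem G5_phi_eval (u w : PP k) (T : PP k) :
    (G5_phi u T).eval w = aeval ![u, w] T := by
  induction T using MvPolynomial.induction_on with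
  | C a =>
    have : G5_phi u (C a) = Polynomial.C (C a) := by
      unfold G5_phi
      rw [aeval_C]
      rfl
    rw [this, Polynomial.eval_C, aeval_C]
    rfl
  | add p q hp hq => rw [map_add, Polynomial.eval_add, hp, hq, map_add]
  | mul_X p i hp =>
    rw [map_mul, Polynomial.eval_mul, hp, map_mul]
    congr 1
    rw [aeval_X]
    unfold G5_phi
    rw [aeval_X]
    fin_cases i <;> simp

theorem G5_weight (a b : ℕ) (d : Fin 2 →₀ ℕ) :
    Finsupp.weight ![a, b] d = d 0 * a + d 1 * b := by
  rw [Finsupp.weight_apply, Finsupp.sum_fintype _ _ (by simp), Fin.sum_univ_two]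
  simp

/-- coefficients -/
theorem G5_phi_coeff (u : PP k) (T : PP k) (a b M : ℕ) (ha : 0 < a)
    (hT : ∀ d ∈ T.support, d 0 * a + d 1 * b = M) (d : Fin 2 →₀ ℕ) (hd : d ∈ T.support) :
    (G5_phi u T).coeff (d 1) = C (coeff d T) * u ^ d 0 := by
  classical
  rw [G5_phi_sum, Polynomial.finsetSum_coeff, Finset.sum_eq_single d]
  · rw [Polynomial.coeff_monomial, if_pos rfl]
  · intro d' hd' hne
    rw [Polynomial.coeff_monomial, if_neg]
    intro h1
    apply hne
    have h2 := hT d' hd'
    have h3 := hT d hd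
    rw [h1] at h2
    have h4 : d' 0 * a = d 0 * a := by omega
    have h5 : d' 0 = d 0 := Nat.eq_of_mul_eq_mul_right ha h4
    ext i
    fin_cases i
    · exact h5
    · exact h1
  · intro h
    exact absurd hd h

theorem G5_phi_supp (u : PP k) (T : PP k) (j : ℕ) (hj : j ∈ (G5_phi u T).support) :
    ∃ d ∈ T.support, d 1 = j := by
  classical
  by_contra hcon
  push Not at hcon
  rw [Polynomial.mem_support_iff] at hj
  apply hj
  rw [G5_phi_sum, Polynomial.finsetSum_coeff]
  refine Finset.sum_eq_zero fun d hd => ?_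
  rw [Polynomial.coeff_monomial, if_neg (hcon d hd)]

theorem level_one {k : Type*} [Field k] [IsAlgClosed k] [CharZero k] (F : Fin 2 → PP k) (c : k)
    (hc : c ≠ 0) (hF : br (F 0) (F 1) = C c) (a b : ℕ) (ha : (F 0).totalDegree = a)
    (hb : (F 1).totalDegree = b) (ha2 : 2 ≤ a) (hb2 : 2 ≤ b) (G : PP k) (hG : G ≠ 0) :
    (∃ i j : ℕ, (aeval F G).totalDegree = i * a + j * b) ∨
      a / Nat.gcd a b * b + 2 ≤ (aeval F G).totalDegree + a + b := by
  classical
  have hf0 : F 0 ≠ 0 := by
    intro h
    rw [h, totalDegree_zero] at ha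
    omega
  have hg0 : F 1 ≠ 0 := by
    intro h
    rw [h, totalDegree_zero] at hb
    omega
  obtain ⟨fb, hfb⟩ : ∃ fb, fb = homogeneousComponent a (F 0) := ⟨_, rfl⟩
  obtain ⟨gb, hgb⟩ : ∃ gb, gb = homogeneousComponent b (F 1) := ⟨_, rfl⟩
  have hfb0 : fb ≠ 0 := by
    rw [hfb, ← ha]
    exact G5_top_ne hf0
  have hgb0 : gb ≠ 0 := by
    rw [hgb, ← hb]
    exact G5_top_ne hg0
  -- the maximal weight
  obtain ⟨d0, hd0, hmax⟩ := Finset.exists_max_image G.support
    (fun d => Finsupp.weight ![a, b] d) (support_nonempty.2 hG)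
  obtain ⟨M, hM⟩ : ∃ M, M = Finsupp.weight ![a, b] d0 := ⟨_, rfl⟩
  rw [← hM] at hmax
  obtain ⟨T, hT⟩ : ∃ T, T = weightedHomogeneousComponent ![a, b] M G := ⟨_, rfl⟩
  have hTc : ∀ d, coeff d T = if Finsupp.weight ![a, b] d = M then coeff d G else 0 := by
    intro d
    rw [hT, coeff_weightedHomogeneousComponent]
  have hTs : ∀ d ∈ T.support, d 0 * a + d 1 * b = M := by
    intro d hd
    rw [mem_support_iff, hTc] at hd
    by_contra h
    rw [if_neg (by rw [G5_weight]; exact h)] at hd
    exact hd rfl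
  have hd0T : d0 ∈ T.support := by
    rw [mem_support_iff, hTc, if_pos hM.symm]
    exact mem_support_iff.1 hd0
  have hω : ∀ i, (F i).totalDegree ≤ (![a, b] : Fin 2 → ℕ) i := by
    intro i
    fin_cases i
    · exact ha.le
    · exact hb.le
  have hvec : (fun i => homogeneousComponent ((![a, b] : Fin 2 → ℕ) i) (F i)) = ![fb, gb] := by
    funext i
    fin_cases i
    · exact hfb.symm
    · exact hgb.symm
  obtain ⟨h1, h2⟩ := comp_top ![a, b] F hω M G hmax
  rw [← hT, hvec] at h2
  obtain ⟨H, hH⟩ : ∃ H, H = G5_phi fb T := ⟨_, rfl⟩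
  have hHe : H.eval gb = aeval ![fb, gb] T := by rw [hH, G5_phi_eval]
  have hcoef : ∀ d ∈ T.support, H.coeff (d 1) = C (coeff d T) * fb ^ d 0 := by
    intro d hd
    rw [hH]
    exact G5_phi_coeff fb T a b M (by omega) hTs d hd
  have hH0 : H ≠ 0 := by
    intro h
    have h3 := hcoef d0 hd0T
    rw [h, Polynomial.coeff_zero] at h3
    rcases mul_eq_zero.1 h3.symm with h4 | h4
    · rw [C_eq_zero] at h4
      exact mem_support_iff.1 hd0T h4
    · exact pow_ne_zero _ hfb0 h4
  by_cases hroot : H.eval gb = 0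
  · right
    -- the multiplicity
    obtain ⟨p, hp⟩ : ∃ p, p = a / Nat.gcd a b := ⟨_, rfl⟩
    have hgcd : 0 < Nat.gcd a b := Nat.gcd_pos_of_pos_left b (by omega)
    have hpa : p * Nat.gcd a b = a := by
      rw [hp]
      exact Nat.div_mul_cancel (Nat.gcd_dvd_left a b)
    have hp0 : 0 < p := by
      rcases Nat.eq_zero_or_pos p with h | h
      · rw [h, zero_mul] at hpa
        omega
      · exact h
    obtain ⟨b', hb'⟩ := Nat.gcd_dvd_right a b
    have hcop : Nat.Coprime p b' := by
      have h3 := Nat.coprime_div_gcd_div_gcd hgcd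
      rw [← hp] at h3
      have h4 : b / Nat.gcd a b = b' := Nat.div_eq_of_eq_mul_right hgcd hb'
      rw [h4] at h3
      exact h3
    have hs : ∀ i ∈ H.support, ∀ j ∈ H.support, i ≡ j [MOD p] := by
      intro i hi j hj
      rw [hH] at hi hj
      obtain ⟨d, hd, hdi⟩ := G5_phi_supp fb T i hi
      obtain ⟨e, he, hej⟩ := G5_phi_supp fb T j hj
      have h3 := hTs d hd
      have h4 := hTs e he
      rw [hdi] at h3
      rw [hej] at h4
      -- work in integers
      have h5 : ((d 0 : ℤ) * p + i * b') = ((e 0 : ℤ) * p + j * b') := by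
        have h6 : (Nat.gcd a b : ℤ) * ((d 0 : ℤ) * p + i * b') =
            (Nat.gcd a b : ℤ) * ((e 0 : ℤ) * p + j * b') := by
          have e1 : ((d 0 : ℤ) * a + i * b) = ((e 0 : ℤ) * a + j * b) := by
            exact_mod_cast h3.trans h4.symm
          have e2 : (a : ℤ) = p * Nat.gcd a b := by exact_mod_cast hpa.symm
          have e3 : (b : ℤ) = Nat.gcd a b * b' := by exact_mod_cast hb'
          rw [e3] at e1
          have e4 : (d 0 : ℤ) * a = (d 0 : ℤ) * (p * Nat.gcd a b) := by rw [← e2]
          have e5 : (e 0 : ℤ) * a = (e 0 : ℤ) * (p * Nat.gcd a b) := by rw [← e2]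
          rw [e4, e5] at e1
          linarith
        have h7 : (Nat.gcd a b : ℤ) ≠ 0 := by exact_mod_cast hgcd.ne'
        exact mul_left_cancel₀ h7 h6
      have h8 : (p : ℤ) ∣ (b' : ℤ) * (j - i) := ⟨(d 0 : ℤ) - e 0, by linarith⟩
      have h9 : IsCoprime (p : ℤ) (b' : ℤ) := Nat.isCoprime_iff_coprime.2 hcop
      have h10 : (p : ℤ) ∣ (j : ℤ) - i := h9.dvd_of_dvd_mul_left h8
      exact (Nat.modEq_iff_dvd.2 h10)
    obtain ⟨t, ht⟩ : ∃ t, t = H.rootMultiplicity gb := ⟨_, rfl⟩
    have ht1 : 1 ≤ t := by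
      rw [ht]
      exact (Polynomial.rootMultiplicity_pos hH0).2 hroot
    have hmb := mult_bound (k := k) H hH0 p hp0 hs gb hgb0
    rw [← ht] at hmb
    obtain ⟨dJ, hdJ, hdJ1⟩ := G5_phi_supp fb T H.natDegree (by
      rw [← hH]
      exact Polynomial.natDegree_mem_support_of_nonzero hH0)
    have hMJ := hTs dJ hdJ
    rw [hdJ1] at hMJ
    have hMt : p * t * b ≤ M := by
      have := Nat.mul_le_mul_right b hmb
      omega
    have htM : t * b ≤ M := by
      refine le_trans ?_ hMt
      refine Nat.mul_le_mul_right b ?_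
      exact Nat.le_mul_of_pos_left t hp0
    obtain ⟨M', hM'⟩ : ∃ M', M = M' + t * b := ⟨M - t * b, by omega⟩
    have hwt := G5_wt_iter ![a, b] t G M' (by
      intro d hd
      have := hmax d hd
      have e1 : (![a, b] : Fin 2 → ℕ) 1 = b := rfl
      rw [e1, ← hM']
      exact this)
    obtain ⟨w1, w2⟩ := hwt
    have e1 : (![a, b] : Fin 2 → ℕ) 1 = b := rfl
    rw [e1, ← hM', ← hT] at w2
    obtain ⟨h3, h4⟩ := comp_top ![a, b] F hω M' _ w1
    rw [w2, hvec, ← G5_phi_eval, G5_phi_iter, ← hH] at h4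
    have hne : (Polynomial.derivative^[t] H).eval gb ≠ 0 := by
      rw [ht, Polynomial.eval_iterate_derivative_rootMultiplicity, nsmul_eq_mul]
      refine mul_ne_zero ?_ (Polynomial.eval_divByMonic_pow_rootMultiplicity_ne_zero gb hH0)
      exact_mod_cast Nat.factorial_ne_zero _
    rw [← h4] at hne
    have h5 := G5_le_deg hne
    have hct : c ^ t ≠ 0 := pow_ne_zero _ hc
    have hQ0 : aeval F ((pderiv (R := k) (1 : Fin 2))^[t] G) ≠ 0 := by
      intro h
      rw [h, map_zero] at hne
      exact hne rfl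
    have hiter := G5_br_iter F c hF G t
    have hne2 : (br (F 0))^[t] (aeval F G) ≠ 0 := by
      rw [hiter]
      exact mul_ne_zero (fun h => hct (C_eq_zero.1 h)) hQ0
    have hdeg := G5_iter_deg (F 0) (aeval F G) t hne2
    have hdeg2 : ((br (F 0))^[t] (aeval F G)).totalDegree =
        (aeval F ((pderiv (R := k) (1 : Fin 2))^[t] G)).totalDegree := by
      rw [hiter]
      apply le_antisymm
      · exact (totalDegree_mul _ _).trans (by rw [totalDegree_C, zero_add])
      · have e2 : aeval F ((pderiv (R := k) (1 : Fin 2))^[t] G) =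
          C (c ^ t)⁻¹ * (C (c ^ t) * aeval F ((pderiv (R := k) (1 : Fin 2))^[t] G)) := by
          rw [← mul_assoc, ← C_mul, inv_mul_cancel₀ hct, C_1, one_mul]
        conv_lhs => rw [e2]
        exact (totalDegree_mul _ _).trans (by rw [totalDegree_C, zero_add])
    rw [hdeg2, ha] at hdeg
    rw [← hp]
    -- arithmetic
    obtain ⟨D, hD⟩ : ∃ D, D = (aeval F G).totalDegree := ⟨_, rfl⟩
    rw [← hD] at hdeg ⊢
    by_contra hlt
    push Not at hlt
    have h6 : M' + 2 * t ≤ t * a + D := by omega
    have h7 : p * t * b ≤ M' + t * b := by omega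
    have h8 : t * (D + a + b + 1) ≤ t * (p * b + 2) := Nat.mul_le_mul_left t hlt
    have h9 : D ≤ t * D := Nat.le_mul_of_pos_left D (by omega)
    nlinarith
  · left
    have h3 : homogeneousComponent M (aeval F G) ≠ 0 := by
      rw [h2, ← hHe]
      exact hroot
    have h4 := G5_le_deg h3
    have h5 := hTs d0 hd0T
    exact ⟨d0 0, d0 1, by omega⟩

end LevelOne

end Pool.Agent.H928R2.Pen
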