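import Pool.Agent.H928R2.FolDef

/-!
# Homogeneous polynomials of the same degree with vanishing bracket are proportional
-/

set_option autoImplicit false
set_option linter.unusedSectionVars false

open MvPolynomial Pool.Agent.H928R2.Inv

namespace Pool.Agent.H928R2.Pen

theorem same_deg {k : Type*} [Field k] [CharZero k] (P Q : PP k) (n : ℕ)
    (hP : P.IsHomogeneous n) (hQ : Q.IsHomogeneous n) (hP0 : P ≠ 0) (h : br P Q = 0) :
    ∃ γ : k, Q = C γ * P := by
  rcases Nat.eq_zero_or_pos n with rfl | hn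
  · -- constants
    have hPc := (totalDegree_eq_zero_iff_eq_C).1 (Nat.le_zero.1 hP.totalDegree_le)
    have hQc := (totalDegree_eq_zero_iff_eq_C).1 (Nat.le_zero.1 hQ.totalDegree_le)
    have hc : coeff 0 P ≠ 0 := by
      intro h0
      rw [h0, C_0] at hPc
      exact hP0 hPc
    refine ⟨coeff 0 Q / coeff 0 P, ?_⟩
    conv_lhs => rw [hQc]
    conv_rhs => rw [hPc]
    rw [← C_mul, coeff_C, if_pos rfl, div_mul_cancel₀ _ hc]
  · have eP := hP.sum_X_mul_pderiv
    have eQ := hQ.sum_X_mul_pderiv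
    rw [Fin.sum_univ_two, nsmul_eq_mul] at eP eQ
    have hn0 : ((n : ℕ) : PP k) ≠ 0 := by
      have : (n : k) ≠ 0 := Nat.cast_ne_zero.2 (by omega)
      intro h0
      rw [← map_natCast (C : k →+* PP k)] at h0
      exact this (C_injective _ _ (by rw [h0, C_0]))
    unfold br at h
    have h0 : P * pderiv 0 Q = Q * pderiv 0 P := by
      apply mul_left_cancel₀ hn0
      linear_combination (pderiv 0 P) * eQ - (pderiv 0 Q) * eP - (X 1 : PP k) * h
    have h1 : P * pderiv 1 Q = Q * pderiv 1 P := by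
      apply mul_left_cancel₀ hn0
      linear_combination (pderiv 1 P) * eQ - (pderiv 1 Q) * eP + (X 0 : PP k) * h
    have hPi := ι_ne hP0
    have key : ∀ j : Fin 2, P * pderiv j Q = Q * pderiv j P → dL j (ιK k Q / ιK k P) = 0 := by
      intro j hj
      have h2 : (ιK k Q / ιK k P) * ιK k P = ιK k Q := div_mul_cancel₀ _ hPi
      have h3 := congrArg (dL j) h2
      rw [Derivation.leibniz, dL_ι, dL_ι, smul_eq_mul, smul_eq_mul] at h3
      have h4 := congrArg (ιK k) hj
      rw [map_mul, map_mul] at h4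
      have h5 : ιK k P * (ιK k P * dL j (ιK k Q / ιK k P)) = 0 := by
        have h6 : ιK k P * (ιK k Q / ιK k P) = ιK k Q := mul_div_cancel₀ _ hPi
        linear_combination (ιK k P) * h3 + h4 - ιK k (pderiv j P) * h6
      exact (mul_eq_zero.1 ((mul_eq_zero.1 h5).resolve_left hPi)).resolve_left hPi
    obtain ⟨γ, hγ⟩ := const_of_dL (ιK k Q / ιK k P) (key 0 h0) (key 1 h1)
    refine ⟨γ, ?_⟩
    apply iR_inj (k := k) (σ := Fin 2)
    show ιK k _ = ιK k _
    rw [map_mul]
    have h7 : algebraMap k (KK k) γ = ιK k (C γ) := ((ιK k).commutes γ).symm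
    rw [← h7, ← hγ, div_mul_cancel₀ _ hPi]

end Pool.Agent.H928R2.Pen
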