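import Pool.Agent.H928R2.FolDef
import Pool.Agent.H928R2.FolTop
import Pool.Agent.H928R2.FolSame
import Pool.Agent.H928R2.FolMult

/-!
# The second key level (task G6)

For a plane Keller map with components of degrees `2 r` and `3 r`, `r ≥ 3`, the degrees of the
elements of the image lie in the semigroup generated by `2 r`, `3 r`, `δ` or are at least
`r + δ + 2`.
-/

set_option autoImplicit false

open MvPolynomial Pool.Agent.H928R2.Inv

namespace Pool.Agent.H928R2.Pen

namespace Two

/-! ### top components -/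
section top
variable {k : Type*} [Field k] {σ : Type*}

/-- `q` is the component of weight `M` of `p` and all weights of `p` are at most `M` -/
def Top (ω : σ → ℕ) (M : ℕ) (p q : MvPolynomial σ k) : Prop :=
  ∀ d : σ →₀ ℕ, (coeff d p ≠ 0 → Finsupp.weight ω d ≤ M) ∧
    (Finsupp.weight ω d = M → coeff d p = coeff d q) ∧ (coeff d q ≠ 0 → Finsupp.weight ω d = M)

variable {ω : σ → ℕ} {M M' : ℕ} {p q p' q' : MvPolynomial σ k}

theorem Top.add (h : Top ω M p q) (h' : Top ω M p' q') : Top ω M (p + p') (q + q') := by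
  intro d
  obtain ⟨a1, a2, a3⟩ := h d
  obtain ⟨b1, b2, b3⟩ := h' d
  refine ⟨fun hd => ?_, fun hd => ?_, fun hd => ?_⟩
  · rw [coeff_add] at hd
    by_cases hp : coeff d p = 0
    · exact b1 (by rwa [hp, zero_add] at hd)
    · exact a1 hp
  · rw [coeff_add, coeff_add, a2 hd, b2 hd]
  · rw [coeff_add] at hd
    by_cases hp : coeff d q = 0
    · exact b3 (by rwa [hp, zero_add] at hd)
    · exact a3 hp

theorem Top.Cmul (h : Top ω M p q) (a : k) : Top ω M (C a * p) (C a * q) := by
  intro d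
  obtain ⟨a1, a2, a3⟩ := h d
  refine ⟨fun hd => ?_, fun hd => ?_, fun hd => ?_⟩
  · rw [coeff_C_mul] at hd
    exact a1 (right_ne_zero_of_mul hd)
  · rw [coeff_C_mul, coeff_C_mul, a2 hd]
  · rw [coeff_C_mul] at hd
    exact a3 (right_ne_zero_of_mul hd)

theorem weight_single_add (ω : σ → ℕ) (d : σ →₀ ℕ) (i : σ) :
    Finsupp.weight ω (d + Finsupp.single i 1) = Finsupp.weight ω d + ω i := by
  rw [map_add, Finsupp.weight_single, one_smul]

theorem Top.mulX (h : Top ω M p q) (i : σ) : Top ω (M + ω i) (X i * p) (X i * q) := by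
  classical
  have key : ∀ d : σ →₀ ℕ, i ∈ d.support → ∃ e, d = e + Finsupp.single i 1 := by
    intro d hd
    refine ⟨d - Finsupp.single i 1, ?_⟩
    rw [tsub_add_cancel_of_le]
    rw [Finsupp.single_le_iff]
    exact Nat.one_le_iff_ne_zero.2 (Finsupp.mem_support_iff.1 hd)
  intro d
  by_cases hi : i ∈ d.support
  · obtain ⟨e, rfl⟩ := key d hi
    obtain ⟨a1, a2, a3⟩ := h e
    rw [weight_single_add, add_comm e, coeff_X_mul, coeff_X_mul]
    refine ⟨fun hd => ?_, fun hd => ?_, fun hd => ?_⟩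
    · exact Nat.add_le_add_right (a1 hd) _
    · exact a2 (by omega)
    · rw [a3 hd]
  · rw [coeff_X_mul', coeff_X_mul', if_neg hi, if_neg hi]
    exact ⟨fun hd => absurd rfl hd, fun _ => rfl, fun hd => absurd rfl hd⟩

theorem coeff_pd (d : σ →₀ ℕ) (i : σ) (p : MvPolynomial σ k) :
    coeff d (pderiv i p) = coeff (d + Finsupp.single i 1) p * (d i + 1) := by
  classical
  exact coeff_pderiv _ _

theorem Top.pd (i : σ) (h : Top ω (M + ω i) p q) : Top ω M (pderiv i p) (pderiv i q) := by
  intro d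
  obtain ⟨a1, a2, a3⟩ := h (d + Finsupp.single i 1)
  rw [weight_single_add] at a1 a2 a3
  rw [coeff_pd, coeff_pd]
  refine ⟨fun hd => ?_, fun hd => ?_, fun hd => ?_⟩
  · have := a1 (left_ne_zero_of_mul hd)
    omega
  · rw [a2 (by omega)]
  · have := a3 (left_ne_zero_of_mul hd)
    omega

theorem Top.low (h : Top ω M p q) (hM : M < M') : Top ω M' p 0 := by
  intro d
  obtain ⟨a1, a2, a3⟩ := h d
  refine ⟨fun hd => (a1 hd).trans hM.le, fun hd => ?_, fun hd => absurd (coeff_zero d) hd⟩
  rw [coeff_zero]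
  by_contra hne
  have := a1 hne
  omega

theorem Top.low_pd (i : σ) (h : Top ω M p q) (hM : M < M' + ω i) : Top ω M' (pderiv i p) 0 := by
  intro d
  obtain ⟨a1, a2, a3⟩ := h (d + Finsupp.single i 1)
  rw [weight_single_add] at a1
  rw [coeff_pd]
  refine ⟨fun hd => ?_, fun hd => ?_, fun hd => absurd (coeff_zero d) hd⟩
  · have := a1 (left_ne_zero_of_mul hd)
    omega
  · rw [coeff_zero]
    by_contra hne
    have := a1 (left_ne_zero_of_mul hne)
    omega

theorem Top.eq_comp (h : Top ω M p q) : weightedHomogeneousComponent ω M p = q := by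
  classical
  ext d
  obtain ⟨a1, a2, a3⟩ := h d
  rw [coeff_weightedHomogeneousComponent]
  split_ifs with hd
  · exact a2 hd
  · by_contra hne
    exact hd (a3 (Ne.symm hne))

theorem Top.supp (h : Top ω M p q) : ∀ d ∈ p.support, Finsupp.weight ω d ≤ M := by
  intro d hd
  exact (h d).1 (mem_support_iff.1 hd)

theorem Top.of (hp : ∀ d ∈ p.support, Finsupp.weight ω d ≤ M) :
    Top ω M p (weightedHomogeneousComponent ω M p) := by
  classical
  intro d
  rw [coeff_weightedHomogeneousComponent]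
  refine ⟨fun hd => hp d (mem_support_iff.2 hd), fun hd => ?_, fun hd => ?_⟩
  · rw [if_pos hd]
  · by_contra hne
    rw [if_neg hne] at hd
    exact hd rfl

end top

/-! ### elementary facts about homogeneous components in two variables -/
section comp
variable {k : Type*} [Field k]

theorem hc_mul (u v : PP k) (m n : ℕ) (hu : u.totalDegree ≤ m) (hv : v.totalDegree ≤ n) :
    (u * v).totalDegree ≤ m + n ∧ homogeneousComponent (m + n) (u * v) =
      homogeneousComponent m u * homogeneousComponent n v := by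
  have h1 : Top (![m, n] : Fin 2 → ℕ) (m + n) (X 0 * X 1 : MvPolynomial (Fin 2) k)
      (X 0 * X 1 : MvPolynomial (Fin 2) k) := by
    have h0 : Top (![m, n] : Fin 2 → ℕ) 0 (1 : MvPolynomial (Fin 2) k) 1 := by
      classical
      intro d
      refine ⟨fun hd => ?_, fun _ => rfl, fun hd => ?_⟩
      · rw [coeff_one] at hd
        have : d = 0 := by
          by_contra hne
          exact hd (if_neg (Ne.symm hne))
        rw [this, map_zero]
      · rw [coeff_one] at hd
        have : d = 0 := by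
          by_contra hne
          exact hd (if_neg (Ne.symm hne))
        rw [this, map_zero]
    have h2 := (h0.mulX 1).mulX 0
    simp only [mul_one] at h2
    have h3 : (0 + (![m, n] : Fin 2 → ℕ) 1) + (![m, n] : Fin 2 → ℕ) 0 = m + n := by
      simp [add_comm]
    rw [h3] at h2
    exact h2
  have h2 := comp_top (![m, n] : Fin 2 → ℕ) (![u, v]) (by
    intro i
    fin_cases i
    · exact hu
    · exact hv) (m + n) (X 0 * X 1) h1.supp
  rw [h1.eq_comp] at h2
  simpa using h2

theorem lt_of_comp {u : PP k} {n : ℕ} (hn : 0 < n) (hu : u.totalDegree ≤ n)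
    (h : homogeneousComponent n u = 0) : u.totalDegree < n := by
  rcases lt_or_eq_of_le hu with h1 | h1
  · exact h1
  exfalso
  have hu0 : u ≠ 0 := by
    rintro rfl
    rw [totalDegree_zero] at h1
    omega
  obtain ⟨d, hd, hd'⟩ := Finset.exists_mem_eq_sup u.support
    (by rwa [Finset.nonempty_iff_ne_empty, Ne, support_eq_empty]) (fun s => s.sum fun _ e => e)
  have h2 : u.totalDegree = d.sum fun _ e => e := hd'
  have h3 : coeff d (homogeneousComponent n u) = coeff d u := by
    rw [coeff_homogeneousComponent, if_pos]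
    rw [← h1, h2, Finsupp.degree_eq_sum]
    simp [Finsupp.sum_fintype]
  rw [h, coeff_zero] at h3
  exact (mem_support_iff.1 hd) h3.symm

theorem comp_ne {u : PP k} (hu : u ≠ 0) : homogeneousComponent u.totalDegree u ≠ 0 := by
  intro h
  rcases Nat.eq_zero_or_pos u.totalDegree with h0 | h0
  · rw [h0, homogeneousComponent_zero, C_eq_zero] at h
    have := totalDegree_eq_zero_iff_eq_C.1 h0
    rw [h, C_0] at this
    exact hu this
  · exact absurd (lt_of_comp h0 le_rfl h) (lt_irrefl _)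

theorem le_of_comp_ne {u : PP k} {n : ℕ} (h : homogeneousComponent n u ≠ 0) :
    n ≤ u.totalDegree := by
  by_contra hlt
  exact h (homogeneousComponent_eq_zero _ _ (not_le.1 hlt))

end comp

/-! ### the components of the bracket -/
section brc
variable {k : Type*} [Field k]

theorem hc_pd [CharZero k] (u : PP k) (a : ℕ) (ha : 1 ≤ a) (hu : u.totalDegree ≤ a) (i : Fin 2) :
    (pderiv i u).totalDegree ≤ a - 1 ∧ homogeneousComponent (a - 1) (pderiv i u) =
      pderiv i (homogeneousComponent a u) := by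
  constructor
  · by_cases h0 : pderiv i u = 0
    · rw [h0, totalDegree_zero]
      exact Nat.zero_le _
    · have := Pool.Agent.H922R2.totalDegree_pderiv_lt u i h0
      omega
  · ext d
    rw [coeff_homogeneousComponent, coeff_pd, coeff_pd, coeff_homogeneousComponent]
    have e : (d + Finsupp.single i 1).degree = d.degree + 1 := by
      rw [map_add, Finsupp.degree_single]
    rw [e]
    by_cases h : d.degree = a - 1
    · rw [if_pos h, if_pos (by omega)]
    · rw [if_neg h, if_neg (by omega), zero_mul]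

theorem br_comp' [CharZero k] (f g : PP k) (a b : ℕ) (ha : 1 ≤ a) (hb : 1 ≤ b)
    (hf : f.totalDegree ≤ a) (hg : g.totalDegree ≤ b) :
    (br f g).totalDegree ≤ a + b - 2 ∧ homogeneousComponent (a + b - 2) (br f g) =
      br (homogeneousComponent a f) (homogeneousComponent b g) := by
  have e : a + b - 2 = (a - 1) + (b - 1) := by omega
  obtain ⟨f1, f2⟩ := hc_pd f a ha hf 0
  obtain ⟨f3, f4⟩ := hc_pd f a ha hf 1
  obtain ⟨g1, g2⟩ := hc_pd g b hb hg 0
  obtain ⟨g3, g4⟩ := hc_pd g b hb hg 1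
  obtain ⟨a1, a2⟩ := hc_mul _ _ _ _ f1 g3
  obtain ⟨b1, b2⟩ := hc_mul _ _ _ _ f3 g1
  rw [e]
  unfold br
  refine ⟨(totalDegree_sub _ _).trans (max_le a1 b1), ?_⟩
  rw [map_sub, a2, b2, f2, f4, g2, g4]

theorem br_deg' [CharZero k] (f g : PP k) (h : br f g ≠ 0) :
    (br f g).totalDegree + 2 ≤ f.totalDegree + g.totalDegree := by
  have h1 : 1 ≤ f.totalDegree := by
    by_contra hlt
    have h0 := totalDegree_eq_zero_iff_eq_C.1 (show f.totalDegree = 0 by omega)
    rw [h0] at h
    exact h (br_C_left _ _)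
  have h2 : 1 ≤ g.totalDegree := by
    by_contra hlt
    have h0 := totalDegree_eq_zero_iff_eq_C.1 (show g.totalDegree = 0 by omega)
    rw [h0] at h
    exact h (br_C_right _ _)
  have := (br_comp' f g _ _ h1 h2 le_rfl le_rfl).1
  omega

end brc

/-! ### the derivation on three variables -/
section der
variable {k : Type*} [Field k]

/-- the derivation with `X ↦ 0`, `Y ↦ 1`, `Z ↦ 2Y + e1 X + e0` -/
noncomputable def Dl (e1 e0 : k) : Derivation k (MvPolynomial (Fin 3) k) (MvPolynomial (Fin 3) k) :=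
  pderiv 1 + (C 2 * X 1 + C e1 * X 0 + C e0 : MvPolynomial (Fin 3) k) • pderiv 2

theorem Dl_apply (e1 e0 : k) (H : MvPolynomial (Fin 3) k) :
    Dl e1 e0 H = pderiv 1 H + (C 2 * X 1 + C e1 * X 0 + C e0) * pderiv 2 H := rfl

theorem Dl_X (e1 e0 : k) (i : Fin 3) : Dl e1 e0 (X i) =
    (![0, 1, C 2 * X 1 + C e1 * X 0 + C e0] : Fin 3 → MvPolynomial (Fin 3) k) i := by
  rw [Dl_apply]
  fin_cases i <;> simp [pderiv_X]

theorem step (r δ : ℕ) (hδ : δ < 6 * r) (e1 e0 : k) (M : ℕ)
    (H T : MvPolynomial (Fin 3) k) (h : Top (![2 * r, 3 * r, δ] : Fin 3 → ℕ) (M + δ) H T) :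
    Top (![2 * r, 3 * r, δ] : Fin 3 → ℕ) (M + 3 * r) (Dl e1 e0 H) (C 2 * (X 1 * pderiv 2 T)) := by
  have a1 : Top (![2 * r, 3 * r, δ] : Fin 3 → ℕ) (M + 3 * r) (pderiv 1 H) 0 := by
    refine Top.low_pd 1 h ?_
    show M + δ < M + 3 * r + 3 * r
    omega
  have a2 : Top (![2 * r, 3 * r, δ] : Fin 3 → ℕ) M (pderiv 2 H) (pderiv 2 T) := by
    refine Top.pd 2 ?_
    exact h
  have a3 : Top (![2 * r, 3 * r, δ] : Fin 3 → ℕ) (M + 3 * r) (X 1 * pderiv 2 H)
    (X 1 * pderiv 2 T) := a2.mulX 1
  have a4 : Top (![2 * r, 3 * r, δ] : Fin 3 → ℕ) (M + 2 * r) (X 0 * pderiv 2 H)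
    (X 0 * pderiv 2 T) := a2.mulX 0
  have a5 := (a4.low (M' := M + 3 * r) (by omega)).Cmul e1
  have a6 := (a2.low (M' := M + 3 * r) (by omega)).Cmul e0
  have a7 := ((a1.add (a3.Cmul 2)).add a5).add a6
  simp only [mul_zero, add_zero, zero_add] at a7
  have e : Dl e1 e0 H = pderiv 1 H + C 2 * (X 1 * pderiv 2 H) + C e1 * (X 0 * pderiv 2 H) +
      C e0 * pderiv 2 H := by
    rw [Dl_apply]
    ring
  rw [e]
  exact a7

theorem br_aeval (f : PP k) (v : Fin 3 → PP k) (c e1 e0 : k)
    (h0 : br f (v 0) = 0) (h1 : br f (v 1) = C c)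
    (h2 : br f (v 2) = C c * (C 2 * v 1 + C e1 * v 0 + C e0)) (H : MvPolynomial (Fin 3) k) :
    br f (aeval v H) = C c * aeval v (Dl e1 e0 H) := by
  induction H using MvPolynomial.induction_on with
  | C a =>
    have e : aeval v (C a : MvPolynomial (Fin 3) k) = (C a : PP k) := by
      rw [aeval_C]
      rfl
    have e' : Dl e1 e0 (C a : MvPolynomial (Fin 3) k) = 0 := by
      rw [← algebraMap_eq, Derivation.map_algebraMap]
    rw [e, e', br_C_right, map_zero, mul_zero]
  | add p q hp hq => rw [map_add, br_add_right, hp, hq, map_add, map_add, mul_add]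
  | mul_X p i hp =>
    rw [map_mul, br_mul_right, hp, aeval_X, Derivation.leibniz, map_add, smul_eq_mul, smul_eq_mul,
      map_mul, map_mul, aeval_X, mul_add, Dl_X]
    have : br f (v i) = C c * aeval v ((![0, 1, C 2 * X 1 + C e1 * X 0 + C e0] :
        Fin 3 → MvPolynomial (Fin 3) k) i) := by
      fin_cases i
      · simp [h0]
      · simp [h1]
      · simp only [Fin.reduceFinMk, Matrix.cons_val, map_add, map_mul, aeval_X, aeval_C]
        exact h2
    rw [this]
    ring

theorem br_iter (f : PP k) (v : Fin 3 → PP k) (c e1 e0 : k)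
    (h0 : br f (v 0) = 0) (h1 : br f (v 1) = C c)
    (h2 : br f (v 2) = C c * (C 2 * v 1 + C e1 * v 0 + C e0)) (H : MvPolynomial (Fin 3) k) (t : ℕ) :
    (br f)^[t] (aeval v H) = C (c ^ t) * aeval v ((Dl e1 e0)^[t] H) := by
  induction t with
  | zero => simp
  | succ t ih =>
    rw [Function.iterate_succ_apply', ih, Function.iterate_succ_apply']
    rw [br_mul_right, br_C_right, mul_zero, add_zero, br_aeval f v c e1 e0 h0 h1 h2, pow_succ,
      C_mul]
    ring

theorem br_zero (f : PP k) : br f 0 = 0 := by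
  have := br_C_right f 0
  rwa [C_0] at this

theorem deg_iter [CharZero k] (f : PP k) (s : PP k) (t : ℕ) (h : (br f)^[t] s ≠ 0) :
    ((br f)^[t] s).totalDegree + 2 * t ≤ s.totalDegree + t * f.totalDegree := by
  induction t with
  | zero => simp
  | succ t ih =>
    rw [Function.iterate_succ_apply'] at h ⊢
    have h1 : (br f)^[t] s ≠ 0 := by
      intro h0
      rw [h0, br_zero] at h
      exact h rfl
    have h2 := ih h1
    have h3 := br_deg' _ _ h
    have : (t + 1) * f.totalDegree = t * f.totalDegree + f.totalDegree := by ring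
    rw [this]
    omega

/-- the polynomial in `V` -/
noncomputable def ph (f g : PP k) : MvPolynomial (Fin 3) k →ₐ[k] Polynomial (PP k) :=
  aeval (![Polynomial.C f, Polynomial.C g, Polynomial.X] : Fin 3 → Polynomial (PP k))

theorem ph_C (f g : PP k) (a : k) : ph f g (C a) = Polynomial.C (C a) := by
  unfold ph
  rw [aeval_C]
  rfl

theorem ph_X1 (f g : PP k) : ph f g (X 1) = Polynomial.C g := by
  unfold ph
  rw [aeval_X]
  rfl

theorem ph_der (f g : PP k) (H : MvPolynomial (Fin 3) k) :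
    Polynomial.derivative (ph f g H) = ph f g (pderiv 2 H) := by
  induction H using MvPolynomial.induction_on with
  | C a => rw [ph_C, Polynomial.derivative_C, pderiv_C, map_zero]
  | add p q hp hq => rw [map_add, map_add, hp, hq, map_add, map_add]
  | mul_X p i hp =>
    rw [map_mul, Polynomial.derivative_mul, hp, Derivation.leibniz, map_add, smul_eq_mul,
      smul_eq_mul, map_mul, map_mul]
    have : Polynomial.derivative (ph f g (X i)) = ph f g (pderiv 2 (X i)) := by
      fin_cases i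
      · simp [ph, pderiv_X]
      · simp [ph, pderiv_X]
      · simp [ph, pderiv_X]
    rw [this]
    ring

/-- the iterated top components -/
noncomputable def Ti (T : MvPolynomial (Fin 3) k) : ℕ → MvPolynomial (Fin 3) k
  | 0 => T
  | s + 1 => C 2 * (X 1 * pderiv 2 (Ti T s))

theorem ph_Ti (f g : PP k) (T : MvPolynomial (Fin 3) k) (s : ℕ) :
    ph f g (Ti T s) = Polynomial.C ((C 2 * g) ^ s) * Polynomial.derivative^[s] (ph f g T) := by
  induction s with
  | zero => simp [Ti]
  | succ s ih =>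
    rw [Ti, map_mul, map_mul, ph_C, ph_X1, ← ph_der, ih, Function.iterate_succ_apply',
      Polynomial.derivative_mul, Polynomial.derivative_C, zero_mul, zero_add]
    rw [pow_succ, Polynomial.C_mul, Polynomial.C_mul]
    ring

theorem top_iter (r δ : ℕ) (hδ : δ < 6 * r) (e1 e0 : k) (M : ℕ)
    (H T : MvPolynomial (Fin 3) k) (t : ℕ)
    (h : Top (![2 * r, 3 * r, δ] : Fin 3 → ℕ) (M + t * δ) H T) :
    ∀ s ≤ t, Top (![2 * r, 3 * r, δ] : Fin 3 → ℕ) (M + s * (3 * r) + (t - s) * δ)
      ((Dl e1 e0)^[s] H) (Ti T s) := by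
  intro s
  induction s with
  | zero =>
    intro _
    simpa [Ti] using h
  | succ s ih =>
    intro hs
    have h1 := ih (by omega)
    rw [Function.iterate_succ_apply']
    obtain ⟨u, hu⟩ : ∃ u, t - s = u + 1 := ⟨t - s - 1, by omega⟩
    have hu' : t - (s + 1) = u := by omega
    rw [hu, add_mul, one_mul, ← add_assoc] at h1
    have h2 := step r δ hδ e1 e0 _ _ _ h1
    rw [hu']
    have e : M + (s + 1) * (3 * r) + u * δ = M + s * (3 * r) + u * δ + 3 * r := by ring
    rw [e]
    exact h2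

end der

/-! ### division by `U` -/
section div
variable {k : Type*} [Field k]

theorem exists_div (U : PP k) (e1 e0 : k) (A0 : Polynomial k)
    (hU : U = X 1 ^ 2 + (C e1 * X 0 + C e0) * X 1 + Polynomial.aeval (X 0) A0) (G : PP k) :
    ∃ P Q : PP k, G = aeval ![X 0, U] P + X 1 * aeval ![X 0, U] Q := by
  induction G using MvPolynomial.induction_on with
  | C a =>
    refine ⟨C a, 0, ?_⟩
    rw [aeval_C, map_zero, mul_zero, add_zero]
    rfl
  | add p q hp hq =>
    obtain ⟨P, Q, h1⟩ := hp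
    obtain ⟨P', Q', h2⟩ := hq
    refine ⟨P + P', Q + Q', ?_⟩
    rw [h1, h2, map_add, map_add]
    ring
  | mul_X p i hp =>
    obtain ⟨P, Q, h1⟩ := hp
    fin_cases i
    · refine ⟨P * X 0, Q * X 0, ?_⟩
      rw [map_mul, map_mul, aeval_X]
      show p * X 0 = _ * X 0 + X 1 * (_ * X 0)
      rw [h1]
      ring
    · refine ⟨(X 1 - Polynomial.aeval (X 0) A0) * Q, P - (C e1 * X 0 + C e0) * Q, ?_⟩
      have e1' : aeval ![X 0, U] (Polynomial.aeval (X 0 : PP k) A0) =
          Polynomial.aeval (X 0 : PP k) A0 := by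
        rw [← Polynomial.aeval_algHom_apply, aeval_X]
        rfl
      have e2' : aeval ![X 0, U] (X 0 : PP k) = (X 0 : PP k) := by
        rw [aeval_X]
        rfl
      have e3' : aeval ![X 0, U] (X 1 : PP k) = (U : PP k) := by
        rw [aeval_X]
        rfl
      have e4' : ∀ a : k, aeval ![X 0, U] (C a : PP k) = (C a : PP k) := by
        intro a
        rw [aeval_C]
        rfl
      show p * X 1 = _
      rw [map_mul, map_sub, map_sub, map_mul, map_add, map_mul, e1', e2', e3', e4', e4', h1]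
      have : X 1 ^ 2 = U - (C e1 * X 0 + C e0) * X 1 - Polynomial.aeval (X 0) A0 := by
        rw [hU]
        ring
      linear_combination (aeval ![X 0, U] Q) * this

theorem exists_H (U : PP k) (e1 e0 : k) (A0 : Polynomial k)
    (hU : U = X 1 ^ 2 + (C e1 * X 0 + C e0) * X 1 + Polynomial.aeval (X 0) A0) (G : PP k) :
    ∃ H : MvPolynomial (Fin 3) k, (∀ d ∈ H.support, d 1 ≤ 1) ∧ aeval ![X 0, X 1, U] H = G := by
  classical
  obtain ⟨P, Q, h⟩ := exists_div U e1 e0 A0 hU G
  have hr : ∀ P : PP k, degreeOf 1 (rename (![0, 2] : Fin 2 → Fin 3) P) = 0 := by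
    intro P
    by_contra hne
    have h1 : (1 : Fin 3) ∈ (rename (![0, 2] : Fin 2 → Fin 3) P).vars := by
      by_contra hn
      refine hne ?_
      rw [degreeOf_eq_sup]
      refine Nat.le_zero.1 (Finset.sup_le ?_)
      intro m hm
      by_contra hm'
      exact hn ((mem_vars_iff_mem_support _).2 ⟨m, hm, Finsupp.mem_support_iff.2 (by omega)⟩)
    have h2 := vars_rename (![0, 2] : Fin 2 → Fin 3) P h1
    rw [Finset.mem_image] at h2
    obtain ⟨a, _, ha⟩ := h2
    fin_cases a <;> simp at ha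
  refine ⟨rename (![0, 2] : Fin 2 → Fin 3) P + X 1 * rename (![0, 2] : Fin 2 → Fin 3) Q, ?_, ?_⟩
  · intro d hd
    refine (monomial_le_degreeOf 1 hd).trans ?_
    refine (degreeOf_add_le _ _ _).trans ?_
    refine max_le (by rw [hr]; exact Nat.zero_le _) ?_
    refine (degreeOf_mul_le _ _ _).trans ?_
    rw [hr, add_zero, degreeOf_X, if_pos rfl]
  · rw [map_add, map_mul, aeval_rename, aeval_rename, aeval_X, h]
    have : (![X 0, X 1, U] : Fin 3 → PP k) ∘ (![0, 2] : Fin 2 → Fin 3) = ![X 0, U] := by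
      funext i
      fin_cases i <;> rfl
    rw [this]
    rfl

end div

/-! ### brackets -/
section brk
variable {k : Type*} [Field k]

theorem br_mul_zero {u v w : PP k} (h1 : br u v = 0) (h2 : br u w = 0) : br u (v * w) = 0 := by
  rw [br_mul_right, h1, h2, mul_zero, mul_zero, add_zero]

theorem br_pow_zero {u v : PP k} (h1 : br u v = 0) (n : ℕ) : br u (v ^ n) = 0 := by
  induction n with
  | zero =>
    rw [pow_zero, ← C_1]
    exact br_C_right _ _
  | succ n ih =>
    rw [pow_succ]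
    exact br_mul_zero ih h1

theorem br_symm_zero {u v : PP k} (h : br u v = 0) : br v u = 0 := by
  rw [br_swap, h, neg_zero]

theorem br_aeval_self (f : PP k) (A : Polynomial k) : br f (Polynomial.aeval f A) = 0 := by
  rw [← brD_apply, Derivation.map_aeval, brD_apply, br_self, smul_zero]

theorem hc_pow (u : PP k) (m : ℕ) (hu : u.totalDegree ≤ m) (n : ℕ) :
    (u ^ n).totalDegree ≤ n * m ∧ homogeneousComponent (n * m) (u ^ n) =
      (homogeneousComponent m u) ^ n := by
  induction n with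
  | zero =>
    refine ⟨by simp, ?_⟩
    rw [zero_mul, pow_zero, pow_zero, homogeneousComponent_zero, coeff_zero_one, C_1]
  | succ n ih =>
    have h := hc_mul (u ^ n) u (n * m) m ih.1 hu
    rw [pow_succ, pow_succ, add_mul, one_mul]
    rw [ih.2] at h
    exact h

theorem hc_mono (f g : PP k) (a b : ℕ) (hf : f.totalDegree ≤ a) (hg : g.totalDegree ≤ b)
    (i j : ℕ) : (f ^ i * g ^ j).totalDegree ≤ i * a + j * b ∧
      homogeneousComponent (i * a + j * b) (f ^ i * g ^ j) =
      (homogeneousComponent a f) ^ i * (homogeneousComponent b g) ^ j := by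
  have h1 := hc_pow f a hf i
  have h2 := hc_pow g b hg j
  have h := hc_mul (f ^ i) (g ^ j) (i * a) (j * b) h1.1 h2.1
  rw [h1.2, h2.2] at h
  exact h

theorem hom_mono (f g : PP k) (a b : ℕ) (i j : ℕ) :
    ((homogeneousComponent a f) ^ i * (homogeneousComponent b g) ^ j).IsHomogeneous
      (i * a + j * b) := by
  have h1 := (homogeneousComponent_isHomogeneous a f).pow i
  have h2 := (homogeneousComponent_isHomogeneous b g).pow j
  have := h1.mul h2
  rwa [mul_comm a i, mul_comm b j] at this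

/-- the elements of the family -/
noncomputable def hh (f g : PP k) (e1 e0 : k) (A : Polynomial k) : PP k :=
  g ^ 2 + (C e1 * f + C e0) * g + Polynomial.aeval f A

theorem br_hh (f g : PP k) (c : k) (h : br f g = C c) (e1 e0 : k) (A : Polynomial k) :
    br f (hh f g e1 e0 A) = C c * (C 2 * g + C e1 * f + C e0) := by
  unfold hh
  rw [br_add_right, br_add_right, br_aeval_self, pow_two, br_mul_right, br_mul_right, h,
    br_add_right, br_C_right, br_mul_right, br_self, br_C_right]
  have : (C 2 : PP k) = 2 := rfl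
  rw [this]
  ring

end brk

/-! ### the coefficients of `ph` -/
section phc
variable {k : Type*} [Field k]

theorem weight3 (a b c : ℕ) (d : Fin 3 →₀ ℕ) :
    Finsupp.weight (![a, b, c] : Fin 3 → ℕ) d = d 0 * a + d 1 * b + d 2 * c := by
  rw [Finsupp.weight_apply, Finsupp.sum_fintype _ _ (by simp), Fin.sum_univ_three]
  rfl

theorem ph_sum (f g : PP k) (T : MvPolynomial (Fin 3) k) :
    ph f g T = ∑ d ∈ T.support, Polynomial.C (C (coeff d T) * f ^ d 0 * g ^ d 1) *
      Polynomial.X ^ d 2 := by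
  unfold ph
  rw [aeval_def, eval₂_eq']
  refine Finset.sum_congr rfl fun d _ => ?_
  rw [Fin.prod_univ_three]
  show Polynomial.C (C (coeff d T)) * (Polynomial.C f ^ d 0 * Polynomial.C g ^ d 1 *
    Polynomial.X ^ d 2) = _
  rw [Polynomial.C_mul, Polynomial.C_mul, Polynomial.C_pow, Polynomial.C_pow]
  ring

theorem ph_coeff (f g : PP k) (T : MvPolynomial (Fin 3) k) (l : ℕ) :
    (ph f g T).coeff l = ∑ d ∈ T.support, if l = d 2 then C (coeff d T) * f ^ d 0 * g ^ d 1
      else 0 := by
  rw [ph_sum, Polynomial.finsetSum_coeff]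
  refine Finset.sum_congr rfl fun d _ => ?_
  rw [Polynomial.coeff_C_mul_X_pow]

theorem ph_coeff_ne (f g : PP k) (T : MvPolynomial (Fin 3) k) (l : ℕ)
    (h : (ph f g T).coeff l ≠ 0) : ∃ d ∈ T.support, d 2 = l := by
  rw [ph_coeff] at h
  obtain ⟨d, hd, h1⟩ := Finset.exists_ne_zero_of_sum_ne_zero h
  refine ⟨d, hd, ?_⟩
  by_contra hne
  rw [if_neg (Ne.symm hne)] at h1
  exact h1 rfl

theorem ph_ne (f g : PP k) (hf : f ≠ 0) (hg : g ≠ 0) (T : MvPolynomial (Fin 3) k)
    (hu : ∀ d ∈ T.support, ∀ d' ∈ T.support, d 2 = d' 2 → d = d') (hT : T ≠ 0) :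
    ph f g T ≠ 0 := by
  obtain ⟨d, hd⟩ : T.support.Nonempty := by
    rwa [Finset.nonempty_iff_ne_empty, Ne, support_eq_empty]
  intro h0
  have h1 : (ph f g T).coeff (d 2) = 0 := by rw [h0, Polynomial.coeff_zero]
  rw [ph_coeff, Finset.sum_eq_single d, if_pos rfl] at h1
  · have h2 : (C (coeff d T) : PP k) ≠ 0 := by
      rw [Ne, C_eq_zero]
      exact mem_support_iff.1 hd
    exact (mul_ne_zero (mul_ne_zero h2 (pow_ne_zero _ hf)) (pow_ne_zero _ hg)) h1
  · intro d' hd' hne
    refine if_neg fun h => hne (hu d' hd' d hd h.symm)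
  · intro h
    exact absurd hd h

theorem ph_eval (f g h : PP k) (T : MvPolynomial (Fin 3) k) :
    (ph f g T).eval h = aeval ![f, g, h] T := by
  rw [ph_sum, Polynomial.eval_finsetSum, aeval_def, eval₂_eq']
  refine Finset.sum_congr rfl fun d _ => ?_
  rw [Fin.prod_univ_three, Polynomial.eval_mul, Polynomial.eval_C, Polynomial.eval_pow,
    Polynomial.eval_X]
  show _ = C (coeff d T) * (f ^ d 0 * g ^ d 1 * h ^ d 2)
  ring

end phc

section main
variable {k : Type*} [Field k] [IsAlgClosed k] [CharZero k]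

/-- the last part of the argument -/
theorem fin_part (F : Fin 2 → PP k) (c : k) (hc : c ≠ 0) (hF : br (F 0) (F 1) = C c) (r : ℕ)
    (hr : 3 ≤ r) (ha : (F 0).totalDegree = 2 * r) (hb : (F 1).totalDegree = 3 * r)
    (e1 e0 : k) (A : Polynomial k) (δ : ℕ) (hδ : (hh (F 0) (F 1) e1 e0 A).totalDegree = δ)
    (h1 : r + 2 ≤ δ) (h2 : δ < 6 * r) (h3 : ¬ r ∣ δ) (G : PP k) (hG : G ≠ 0) :
    (∃ i j l : ℕ, (aeval F G).totalDegree = i * (2 * r) + j * (3 * r) + l * δ) ∨
        r + δ + 2 ≤ (aeval F G).totalDegree := by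
  classical
  set f := F 0 with hf
  set g := F 1 with hg
  set h := hh f g e1 e0 A with hh'
  set fb := homogeneousComponent (2 * r) f with hfb
  set gb := homogeneousComponent (3 * r) g with hgb
  set hb' := homogeneousComponent δ h with hhb
  have f0 : f ≠ 0 := by
    rintro h0
    rw [h0, totalDegree_zero] at ha
    omega
  have g0 : g ≠ 0 := by
    rintro h0
    rw [h0, totalDegree_zero] at hb
    omega
  have h0 : h ≠ 0 := by
    rintro h0
    rw [h0, totalDegree_zero] at hδ
    omega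
  have fb0 : fb ≠ 0 := by
    rw [hfb, ← ha]
    exact comp_ne f0
  have gb0 : gb ≠ 0 := by
    rw [hgb, ← hb]
    exact comp_ne g0
  have hb0 : hb' ≠ 0 := by
    rw [hhb, ← hδ]
    exact comp_ne h0
  obtain ⟨H, hH1, hH2⟩ := exists_H (X 1 ^ 2 + (C e1 * X 0 + C e0) * X 1 +
    Polynomial.aeval (X 0) A) e1 e0 A rfl G
  have hv : aeval F G = aeval ![f, g, h] H := by
    rw [← hH2]
    have : (aeval F : PP k →ₐ[k] PP k).comp (aeval ![X 0, X 1, X 1 ^ 2 + (C e1 * X 0 + C e0) * X 1 +
      Polynomial.aeval (X 0) A]) = aeval ![f, g, h] := by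
      apply MvPolynomial.algHom_ext
      intro i
      rw [AlgHom.comp_apply, aeval_X, aeval_X]
      fin_cases i
      · simp [hf]
      · simp [hg]
      · show aeval F (X 1 ^ 2 + (C e1 * X 0 + C e0) * X 1 + Polynomial.aeval (X 0) A) = h
        rw [map_add, map_add, map_pow, map_mul, map_add, map_mul, aeval_X, aeval_X,
          ← Polynomial.aeval_algHom_apply, aeval_X, aeval_C, aeval_C]
        rfl
    rw [← this]
    rfl
  rw [hv]
  have hH0 : H ≠ 0 := by
    rintro rfl
    rw [map_zero] at hH2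
    exact hG hH2.symm
  -- the maximal weight
  set ω : Fin 3 → ℕ := ![2 * r, 3 * r, δ] with hω
  obtain ⟨d0, hd0, hd0'⟩ := Finset.exists_mem_eq_sup H.support
    (by rwa [Finset.nonempty_iff_ne_empty, Ne, support_eq_empty]) (fun d => Finsupp.weight ω d)
  set M := Finsupp.weight ω d0 with hM
  have hMle : ∀ d ∈ H.support, Finsupp.weight ω d ≤ M := by
    intro d hd
    rw [← hd0']
    exact Finset.le_sup (f := fun d => Finsupp.weight ω d) hd
  set T := weightedHomogeneousComponent ω M H with hT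
  have hTop : Top ω M H T := Top.of hMle
  have hTc : ∀ d, coeff d T ≠ 0 → Finsupp.weight ω d = M ∧ d ∈ H.support := by
    intro d hd
    have e1' := (hTop d).2.2 hd
    refine ⟨e1', ?_⟩
    rw [mem_support_iff, (hTop d).2.1 e1']
    exact hd
  have hT0 : T ≠ 0 := by
    intro h0'
    have e1' := (hTop d0).2.1 rfl
    rw [h0', coeff_zero] at e1'
    exact (mem_support_iff.1 hd0) e1'
  have hTw : ∀ d ∈ T.support, d 0 * (2 * r) + d 1 * (3 * r) + d 2 * δ = M ∧ d 1 ≤ 1 := by
    intro d hd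
    obtain ⟨e1', e2'⟩ := hTc d (mem_support_iff.1 hd)
    rw [hω, weight3] at e1'
    exact ⟨e1', hH1 d e2'⟩
  have huniq : ∀ d ∈ T.support, ∀ d' ∈ T.support, d 2 = d' 2 → d = d' := by
    intro d hd d' hd' he
    obtain ⟨a1, a2⟩ := hTw d hd
    obtain ⟨b1, b2⟩ := hTw d' hd'
    have e3 : r * (2 * d 0 + 3 * d 1) = r * (2 * d' 0 + 3 * d' 1) := by
      rw [he] at a1
      nlinarith
    have e4 := Nat.eq_of_mul_eq_mul_left (by omega) e3
    ext i
    fin_cases i
    · show d 0 = d' 0
      omega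
    · show d 1 = d' 1
      omega
    · exact he
  set Φ := ph fb gb T with hΦ
  have hΦ0 : Φ ≠ 0 := ph_ne fb gb fb0 gb0 T huniq hT0
  -- the top component
  have hvd : ∀ i, ((![f, g, h] : Fin 3 → PP k) i).totalDegree ≤ ω i := by
    intro i
    fin_cases i
    · exact ha.le
    · exact hb.le
    · exact hδ.le
  have hvb : (fun i => homogeneousComponent (ω i) ((![f, g, h] : Fin 3 → PP k) i)) =
      ![fb, gb, hb'] := by
    funext i
    fin_cases i <;> rfl
  have htop := comp_top ω ![f, g, h] hvd M H hMle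
  rw [hvb] at htop
  by_cases hev : Φ.eval hb' = 0
  swap
  · left
    have e1' : homogeneousComponent M (aeval ![f, g, h] H) ≠ 0 := by
      rw [htop.2, ← ph_eval]
      exact hev
    have e2' := le_of_comp_ne e1'
    refine ⟨d0 0, d0 1, d0 2, ?_⟩
    rw [le_antisymm htop.1 e2', hM, hω, weight3]
  right
  set t := Φ.rootMultiplicity hb' with ht
  have ht1 : 1 ≤ t := (Polynomial.rootMultiplicity_pos hΦ0).2 hev
  -- the bound for the multiplicity
  have hgr : Nat.gcd r δ ∣ r := Nat.gcd_dvd_left _ _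
  have hg0 : 0 < Nat.gcd r δ := Nat.gcd_pos_of_pos_left _ (by omega)
  have hn2 : 2 ≤ r / Nat.gcd r δ := by
    by_contra hlt
    have e1' : 0 < r / Nat.gcd r δ := Nat.div_pos (Nat.le_of_dvd (by omega) hgr) hg0
    have e2' : r / Nat.gcd r δ = 1 := by omega
    have e3' := Nat.div_mul_cancel hgr
    rw [e2', one_mul] at e3'
    exact h3 (Nat.gcd_eq_left_iff_dvd.1 e3')
  have hmod : ∀ i ∈ Φ.support, ∀ j ∈ Φ.support, i ≡ j [MOD r / Nat.gcd r δ] := by
    intro i hi j hj
    obtain ⟨d, hd, hdi⟩ := ph_coeff_ne fb gb T i (Polynomial.mem_support_iff.1 hi)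
    obtain ⟨d', hd', hdj⟩ := ph_coeff_ne fb gb T j (Polynomial.mem_support_iff.1 hj)
    refine Nat.ModEq.cancel_left_div_gcd (by omega) ?_
    obtain ⟨a1, _⟩ := hTw d hd
    obtain ⟨b1, _⟩ := hTw d' hd'
    rw [hdi] at a1
    rw [hdj] at b1
    have e1' : δ * i + r * (2 * d 0 + 3 * d 1) = δ * j + r * (2 * d' 0 + 3 * d' 1) := by
      nlinarith
    have e2' : δ * i + r * (2 * d 0 + 3 * d 1) ≡ δ * i [MOD r] := by
      simp [Nat.ModEq]
    have e3' : δ * j + r * (2 * d' 0 + 3 * d' 1) ≡ δ * j [MOD r] := by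
      simp [Nat.ModEq]
    rw [e1'] at e2'
    exact e2'.symm.trans e3'
  have hmb := mult_bound (k := k) Φ hΦ0 (r / Nat.gcd r δ) (by omega) hmod hb' hb0
  have hJ : Φ.natDegree * δ ≤ M := by
    obtain ⟨d, hd, hdi⟩ := ph_coeff_ne fb gb T Φ.natDegree
      (by
        rw [← hΦ]
        exact Polynomial.leadingCoeff_ne_zero.2 hΦ0)
    obtain ⟨a1, _⟩ := hTw d hd
    rw [← hdi, ← a1]
    omega
  have hMt : 2 * t * δ ≤ M := by
    refine le_trans ?_ hJ
    refine Nat.mul_le_mul_right _ ?_
    refine le_trans ?_ hmb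
    exact Nat.mul_le_mul_right _ hn2
  obtain ⟨M0, hM0⟩ : ∃ M0, M = M0 + t * δ := ⟨M - t * δ, by
    have : 2 * t * δ = t * δ + t * δ := by ring
    omega⟩
  rw [hM0] at hTop
  have hTi := top_iter r δ h2 e1 e0 M0 H T t hTop t le_rfl
  rw [Nat.sub_self, zero_mul, add_zero] at hTi
  have hc2 := comp_top ω ![f, g, h] hvd (M0 + t * (3 * r)) ((Dl e1 e0)^[t] H) hTi.supp
  rw [hvb, hTi.eq_comp, ← ph_eval fb gb hb', ph_Ti, Polynomial.eval_mul, Polynomial.eval_C] at hc2
  have hne : (C 2 * gb) ^ t * Polynomial.eval hb' (Polynomial.derivative^[t] (ph fb gb T)) ≠ 0 := by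
    refine mul_ne_zero (pow_ne_zero _ (mul_ne_zero ?_ gb0)) ?_
    · rw [Ne, C_eq_zero]
      exact two_ne_zero
    · rw [← hΦ, ht, Polynomial.eval_iterate_derivative_rootMultiplicity, nsmul_eq_mul]
      refine mul_ne_zero (Nat.cast_ne_zero.2 (Nat.factorial_ne_zero _)) ?_
      exact Polynomial.eval_divByMonic_pow_rootMultiplicity_ne_zero _ hΦ0
  rw [← hc2.2] at hne
  have hct : c ^ t ≠ 0 := pow_ne_zero _ hc
  have hct' : (C (c ^ t) : PP k) ≠ 0 := by rwa [Ne, C_eq_zero]
  have hle : M0 + t * (3 * r) ≤ (C (c ^ t) * aeval ![f, g, h] ((Dl e1 e0)^[t] H)).totalDegree := by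
    refine le_of_comp_ne ?_
    rw [homogeneousComponent_C_mul]
    exact mul_ne_zero hct' hne
  have hbi := br_iter f ![f, g, h] c e1 e0 (br_self f) hF (br_hh f g c hF e1 e0 A) H t
  have hne2 : aeval ![f, g, h] ((Dl e1 e0)^[t] H) ≠ 0 := by
    intro h0'
    rw [h0', map_zero] at hne
    exact hne rfl
  have hne3 : (br f)^[t] (aeval ![f, g, h] H) ≠ 0 := by
    rw [hbi]
    exact mul_ne_zero hct' hne2
  have hdg := deg_iter f _ t hne3
  rw [hbi] at hdg
  rw [ha] at hdg
  have e1' : t * (2 * r) = 2 * (t * r) := by ring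
  have e2' : t * (3 * r) = 3 * (t * r) := by ring
  have e3' : 2 * t * δ = 2 * (t * δ) := by ring
  rw [e1'] at hdg
  rw [e2'] at hle
  rw [e3'] at hMt
  have e4' : t * r ≥ r := Nat.le_mul_of_pos_left _ ht1
  have e5' : t * δ ≥ δ := Nat.le_mul_of_pos_left _ ht1
  omega

omit [IsAlgClosed k] in
/-- the elements of the family of smaller degree -/
theorem reduce (f g h : PP k) (a b δ : ℕ) (hf : f.totalDegree ≤ a) (hg : g.totalDegree ≤ b)
    (hδ : h.totalDegree ≤ δ) (hδ0 : 0 < δ) (i j : ℕ) (hij : i * a + j * b = δ)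
    (f0 : homogeneousComponent a f ≠ 0) (g0 : homogeneousComponent b g ≠ 0)
    (h1 : br (homogeneousComponent a f) (homogeneousComponent δ h) = 0)
    (h2 : br (homogeneousComponent b g) (homogeneousComponent δ h) = 0) :
    ∃ γ : k, (h - C γ * (f ^ i * g ^ j)).totalDegree < δ := by
  have a1 := hc_mono f g a b hf hg i j
  have a2 := hom_mono f g a b i j
  rw [hij] at a1 a2
  have a3 : br ((homogeneousComponent a f) ^ i * (homogeneousComponent b g) ^ j)
      (homogeneousComponent δ h) = 0 :=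
    br_symm_zero (br_mul_zero (br_pow_zero (br_symm_zero h1) i) (br_pow_zero (br_symm_zero h2) j))
  obtain ⟨γ, hγ⟩ := same_deg _ _ δ a2 (homogeneousComponent_isHomogeneous δ h)
    (mul_ne_zero (pow_ne_zero _ f0) (pow_ne_zero _ g0)) a3
  refine ⟨γ, lt_of_comp hδ0 ?_ ?_⟩
  · refine (totalDegree_sub _ _).trans (max_le hδ ?_)
    rw [C_mul']
    exact (totalDegree_smul_le _ _).trans a1.1
  · rw [map_sub, homogeneousComponent_C_mul, a1.2, hγ, sub_self]

end main

end Two

open Two in
theorem level_two {k : Type*} [Field k] [IsAlgClosed k] [CharZero k] (F : Fin 2 → PP k) (c : k)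
    (hc : c ≠ 0) (hF : br (F 0) (F 1) = C c) (r : ℕ) (hr : 3 ≤ r)
    (ha : (F 0).totalDegree = 2 * r) (hb : (F 1).totalDegree = 3 * r) :
    ∃ δ : ℕ, r + 2 ≤ δ ∧ δ < 6 * r ∧ ¬ r ∣ δ ∧ (∃ U : PP k, (aeval F U).totalDegree = δ) ∧
      ∀ G : PP k, G ≠ 0 →
        (∃ i j l : ℕ, (aeval F G).totalDegree = i * (2 * r) + j * (3 * r) + l * δ) ∨
        r + δ + 2 ≤ (aeval F G).totalDegree := by
  classical
  have f0 : F 0 ≠ 0 := by
    rintro h0
    rw [h0, totalDegree_zero] at ha
    omega
  have g0 : F 1 ≠ 0 := by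
    rintro h0
    rw [h0, totalDegree_zero] at hb
    omega
  have fb0 : homogeneousComponent (2 * r) (F 0) ≠ 0 := by
    rw [← ha]
    exact comp_ne f0
  have gb0 : homogeneousComponent (3 * r) (F 1) ≠ 0 := by
    rw [← hb]
    exact comp_ne g0
  -- the leading forms
  have hfg : br (homogeneousComponent (2 * r) (F 0)) (homogeneousComponent (3 * r) (F 1)) = 0 := by
    have h1 := (br_comp' (F 0) (F 1) (2 * r) (3 * r) (by omega) (by omega) ha.le hb.le).2
    rw [← h1, hF]
    refine homogeneousComponent_eq_zero _ _ ?_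
    rw [totalDegree_C]
    omega
  obtain ⟨γ, hγ⟩ := same_deg (homogeneousComponent (2 * r) (F 0) ^ 3)
    (homogeneousComponent (3 * r) (F 1) ^ 2) (6 * r)
    (by
      have := (homogeneousComponent_isHomogeneous (2 * r) (F 0)).pow 3
      have e : 2 * r * 3 = 6 * r := by ring
      rwa [e] at this)
    (by
      have := (homogeneousComponent_isHomogeneous (3 * r) (F 1)).pow 2
      have e : 3 * r * 2 = 6 * r := by ring
      rwa [e] at this)
    (pow_ne_zero _ fb0) (br_pow_zero (br_symm_zero (br_pow_zero (br_symm_zero hfg) 3)) 2)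
  -- the minimal degree
  have hex : ∃ n : ℕ, ∃ e1 e0 : k, ∃ A : Polynomial k,
      (hh (F 0) (F 1) e1 e0 A).totalDegree = n := ⟨_, 0, 0, 0, rfl⟩
  obtain ⟨δ, ⟨e1, e0, A, hδ⟩, hmin'⟩ : ∃ δ : ℕ, (∃ e1 e0 : k, ∃ A : Polynomial k,
      (hh (F 0) (F 1) e1 e0 A).totalDegree = δ) ∧ ∀ n, (∃ e1 e0 : k, ∃ A : Polynomial k,
      (hh (F 0) (F 1) e1 e0 A).totalDegree = n) → δ ≤ n :=
    ⟨Nat.find hex, Nat.find_spec hex, fun n hn => Nat.find_min' hex hn⟩
  have hmin : ∀ (e1 e0 : k) (A : Polynomial k),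
      δ ≤ (hh (F 0) (F 1) e1 e0 A).totalDegree := fun e1 e0 A => hmin' _ ⟨e1, e0, A, rfl⟩
  have hδ6 : δ < 6 * r := by
    refine lt_of_le_of_lt (hmin 0 0 (-Polynomial.C γ * Polynomial.X ^ 3)) ?_
    have e : hh (F 0) (F 1) 0 0 (-Polynomial.C γ * Polynomial.X ^ 3) =
        F 1 ^ 2 - C γ * F 0 ^ 3 := by
      unfold hh
      rw [map_mul, map_neg, map_pow, Polynomial.aeval_C, Polynomial.aeval_X, C_0]
      show F 1 ^ 2 + (0 * F 0 + 0) * F 1 + -C γ * F 0 ^ 3 = _
      ring
    rw [e]
    have a1 := hc_pow (F 0) (2 * r) ha.le 3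
    have a2 := hc_pow (F 1) (3 * r) hb.le 2
    have e3 : 3 * (2 * r) = 6 * r := by ring
    have e4 : 2 * (3 * r) = 6 * r := by ring
    rw [e3] at a1
    rw [e4] at a2
    refine lt_of_comp (by omega) ?_ ?_
    · refine (totalDegree_sub _ _).trans (max_le a2.1 ?_)
      rw [C_mul']
      exact (totalDegree_smul_le _ _).trans a1.1
    · rw [map_sub, homogeneousComponent_C_mul, a1.2, a2.2, hγ, sub_self]
  -- the bracket
  have hbr := br_hh (F 0) (F 1) c hF e1 e0 A
  have hlow : homogeneousComponent (3 * r) (br (F 0) (hh (F 0) (F 1) e1 e0 A)) =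
      C c * (C 2 * homogeneousComponent (3 * r) (F 1)) := by
    rw [hbr, homogeneousComponent_C_mul, map_add, map_add, homogeneousComponent_C_mul,
      homogeneousComponent_C_mul]
    rw [homogeneousComponent_eq_zero (3 * r) (F 0) (by omega),
      homogeneousComponent_eq_zero (3 * r) (C e0) (by rw [totalDegree_C]; omega)]
    rw [mul_zero, add_zero, add_zero]
  have hupp : (br (F 0) (hh (F 0) (F 1) e1 e0 A)).totalDegree ≤ 3 * r := by
    rw [hbr]
    refine (totalDegree_mul _ _).trans ?_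
    rw [totalDegree_C, zero_add]
    refine (totalDegree_add _ _).trans (max_le ((totalDegree_add _ _).trans (max_le ?_ ?_)) ?_)
    · rw [C_mul']
      exact (totalDegree_smul_le _ _).trans hb.le
    · rw [C_mul']
      refine (totalDegree_smul_le _ _).trans ?_
      omega
    · rw [totalDegree_C]
      omega
  have hlow0 : homogeneousComponent (3 * r) (br (F 0) (hh (F 0) (F 1) e1 e0 A)) ≠ 0 := by
    rw [hlow]
    refine mul_ne_zero ?_ (mul_ne_zero ?_ gb0)
    · rwa [Ne, C_eq_zero]
    · rw [Ne, C_eq_zero]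
      exact two_ne_zero
  have hge := le_of_comp_ne hlow0
  have hb1 : r + 2 ≤ δ := by
    have h1 := br_deg' (F 0) (hh (F 0) (F 1) e1 e0 A) (by
      intro h0
      rw [h0, map_zero] at hlow0
      exact hlow0 rfl)
    rw [ha, hδ] at h1
    omega
  have hndvd : ¬ r ∣ δ := by
    rintro ⟨m, hm⟩
    have hm2 : 2 ≤ m := by
      by_contra hlt
      have : r * m ≤ r * 1 := Nat.mul_le_mul_left _ (by omega)
      omega
    have hm5 : m ≤ 5 := by
      by_contra hlt
      have : r * 6 ≤ r * m := Nat.mul_le_mul_left _ (by omega)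
      omega
    have hcomp := br_comp' (F 0) (hh (F 0) (F 1) e1 e0 A) (2 * r) δ (by omega) (by omega) ha.le hδ.le
    by_cases hz : br (homogeneousComponent (2 * r) (F 0))
        (homogeneousComponent δ (hh (F 0) (F 1) e1 e0 A)) = 0
    swap
    · rw [← hcomp.2] at hz
      have h1 := le_of_comp_ne hz
      have h2 : r * 2 ≤ r * m := Nat.mul_le_mul_left _ hm2
      omega
    have hz2 : br (homogeneousComponent (3 * r) (F 1))
        (homogeneousComponent δ (hh (F 0) (F 1) e1 e0 A)) = 0 := by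
      have h1 : br (homogeneousComponent δ (hh (F 0) (F 1) e1 e0 A))
          (homogeneousComponent (3 * r) (F 1) ^ 2) = 0 := by
        rw [hγ, br_mul_right, br_C_right, br_pow_zero (br_symm_zero hz), mul_zero, mul_zero,
          add_zero]
      rw [pow_two, br_mul_right, ← two_mul] at h1
      have h2 : (2 : PP k) ≠ 0 := two_ne_zero
      rcases mul_eq_zero.1 h1 with h3 | h3
      · exact absurd h3 h2
      · rcases mul_eq_zero.1 h3 with h4 | h4
        · exact absurd h4 gb0
        · exact br_symm_zero h4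
    have hred := fun (i j : ℕ) (hij : i * (2 * r) + j * (3 * r) = δ) =>
      reduce (F 0) (F 1) (hh (F 0) (F 1) e1 e0 A) (2 * r) (3 * r) δ ha.le hb.le hδ.le (by omega)
        i j hij fb0 gb0 hz hz2
    have hCe : ∀ a : k, (algebraMap k (PP k)) a = C a := fun a => rfl
    have hm' : m = 2 ∨ m = 3 ∨ m = 4 ∨ m = 5 := by omega
    rcases hm' with rfl | rfl | rfl | rfl
    · obtain ⟨γ', h1⟩ := hred 1 0 (by omega)
      have e : hh (F 0) (F 1) e1 e0 A - C γ' * (F 0 ^ 1 * F 1 ^ 0) =
          hh (F 0) (F 1) e1 e0 (A - Polynomial.C γ' * Polynomial.X) := by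
        unfold hh
        rw [map_sub, map_mul, Polynomial.aeval_C, Polynomial.aeval_X, hCe]
        ring
      rw [e] at h1
      exact absurd (hmin _ _ _) (not_le.2 h1)
    · obtain ⟨γ', h1⟩ := hred 0 1 (by omega)
      have e : hh (F 0) (F 1) e1 e0 A - C γ' * (F 0 ^ 0 * F 1 ^ 1) =
          hh (F 0) (F 1) e1 (e0 - γ') A := by
        unfold hh
        rw [C_sub]
        ring
      rw [e] at h1
      exact absurd (hmin _ _ _) (not_le.2 h1)
    · obtain ⟨γ', h1⟩ := hred 2 0 (by omega)
      have e : hh (F 0) (F 1) e1 e0 A - C γ' * (F 0 ^ 2 * F 1 ^ 0) =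
          hh (F 0) (F 1) e1 e0 (A - Polynomial.C γ' * Polynomial.X ^ 2) := by
        unfold hh
        rw [map_sub, map_mul, map_pow, Polynomial.aeval_C, Polynomial.aeval_X, hCe]
        ring
      rw [e] at h1
      exact absurd (hmin _ _ _) (not_le.2 h1)
    · obtain ⟨γ', h1⟩ := hred 1 1 (by omega)
      have e : hh (F 0) (F 1) e1 e0 A - C γ' * (F 0 ^ 1 * F 1 ^ 1) =
          hh (F 0) (F 1) (e1 - γ') e0 A := by
        unfold hh
        rw [C_sub]
        ring
      rw [e] at h1
      exact absurd (hmin _ _ _) (not_le.2 h1)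
  refine ⟨δ, hb1, hδ6, hndvd, ?_, fun G hG => ?_⟩
  · refine ⟨X 1 ^ 2 + (C e1 * X 0 + C e0) * X 1 + Polynomial.aeval (X 0) A, ?_⟩
    rw [map_add, map_add, map_pow, map_mul, map_add, map_mul, aeval_X, aeval_X,
      ← Polynomial.aeval_algHom_apply, aeval_X, aeval_C, aeval_C]
    exact hδ
  · exact fin_part F c hc hF r hr ha hb e1 e0 A δ hδ hb1 hδ6 hndvd G hG

end Pool.Agent.H928R2.Pen
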