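import Pool.Agent.H928R2.FolDef
import Pool.Agent.H928R2.FolSame
import Pool.Agent.H928R2.FolTop
import Pool.Agent.H928R2.FolOne
import Pool.Agent.H928R2.FolTwo

/-!
# Gaps between the degrees of the elements of the image of a Keller map (task G7)
-/

set_option autoImplicit false

open MvPolynomial Pool.Agent.H928R2.Inv

namespace Pool.Agent.H928R2.Pen

namespace Gap

lemma numB (θ r δ : ℕ) (hr : 2 * (θ + 5) ^ 2 ≤ r) (h1 : r + 2 ≤ δ) (h3 : ¬ r ∣ δ)
    (D : Set ℕ) (hD : ∀ d ∈ D, (∃ i j l : ℕ, d = i * (2 * r) + j * (3 * r) + l * δ) ∨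
      r + δ + 2 ≤ d) : ∃ T, (T = 2 * r ∨ T = δ) ∧ ∀ d ∈ D, d ≤ T + θ → d ≤ T := by
  have hr' : 10 * θ + 50 ≤ r := by nlinarith
  have hδ : δ ≠ 2 * r := by
    rintro rfl
    exact h3 (Dvd.intro_left 2 rfl)
  have key : ∀ d ∈ D, (d = 0 ∨ d = 2 * r ∨ d = δ ∨ 3 * r ≤ d ∨ 2 * δ ≤ d) ∨ r + δ + 2 ≤ d := by
    intro d hd
    rcases hD d hd with ⟨i, j, l, h⟩ | h
    · left
      have hA : i * (2 * r) = 0 ∨ i * (2 * r) = 2 * r ∨ 4 * r ≤ i * (2 * r) := by
        rcases i with _ | _ | i
        · left; simp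
        · right; left; simp
        · right; right; nlinarith
      have hB : j * (3 * r) = 0 ∨ 3 * r ≤ j * (3 * r) := by
        rcases j with _ | j
        · left; simp
        · right; nlinarith
      have hL : l * δ = 0 ∨ l * δ = δ ∨ 2 * δ ≤ l * δ := by
        rcases l with _ | _ | l
        · left; simp
        · right; left; simp
        · right; right; nlinarith
      rcases hA with hA | hA | hA <;> rcases hB with hB | hB <;> rcases hL with hL | hL | hL <;>
        omega
    · right; exact h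
  rcases lt_or_gt_of_ne hδ with h | h
  · by_cases h4 : θ < 2 * r - δ
    · refine ⟨δ, Or.inr rfl, fun d hd hle => ?_⟩
      rcases key d hd with (h5 | h5 | h5 | h5 | h5) | h5 <;> omega
    · refine ⟨2 * r, Or.inl rfl, fun d hd hle => ?_⟩
      rcases key d hd with (h5 | h5 | h5 | h5 | h5) | h5 <;> omega
  · by_cases h4 : 2 * r + θ < δ
    · refine ⟨2 * r, Or.inl rfl, fun d hd hle => ?_⟩
      rcases key d hd with (h5 | h5 | h5 | h5 | h5) | h5 <;> omega
    · refine ⟨δ, Or.inr rfl, fun d hd hle => ?_⟩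
      rcases key d hd with (h5 | h5 | h5 | h5 | h5) | h5 <;> omega

lemma numA (θ a b : ℕ) (ha : 4 * (θ + 5) ^ 2 ≤ a) (hab : a ≤ b) (hdvd : ¬ a ∣ b)
    (hne : ¬ ∃ r, a = 2 * r ∧ b = 3 * r) (D : Set ℕ)
    (hD : ∀ d ∈ D, (∃ i j : ℕ, d = i * a + j * b) ∨ a / Nat.gcd a b * b + 2 ≤ d + a + b) :
    ∃ T, (T = a ∨ T = b) ∧ ∀ d ∈ D, d ≤ T + θ → d ≤ T := by
  have ha0 : 20 * θ + 100 ≤ a := by nlinarith
  set r := Nat.gcd a b with hr
  have hr0 : 0 < r := Nat.gcd_pos_of_pos_left b (by omega)
  obtain ⟨p, q, hpq, hap, hbq⟩ := Nat.exists_coprime a b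
  rw [← hr] at hap hbq
  have hp : a / r = p := by
    rw [hap]
    exact Nat.mul_div_cancel p hr0
  rw [hp] at hD
  have hp0 : p ≠ 0 := by rintro rfl; omega
  have hp1 : p ≠ 1 := by
    rintro rfl
    apply hdvd
    rw [hap, hbq, one_mul]
    exact Dvd.intro_left q rfl
  have hpq' : p < q := by
    have h1 : p ≤ q := by
      by_contra hcon
      push Not at hcon
      have := Nat.mul_lt_mul_of_pos_right hcon hr0
      omega
    rcases Nat.lt_or_ge p q with h | h
    · exact h
    · have : p = q := le_antisymm h1 h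
      subst this
      exact absurd (Nat.coprime_self p |>.1 hpq) hp1
  have hne' : ¬ (p = 2 ∧ q = 3) := by
    rintro ⟨rfl, rfl⟩
    exact hne ⟨r, hap, hbq⟩
  -- `p q ≥ 2 p + q + 1`
  have hprod : 2 * p + q + 1 ≤ p * q := by
    rcases Nat.lt_or_ge p 3 with h | h
    · have hp2 : p = 2 := by omega
      subst hp2
      have hq4 : q ≠ 4 := by
        rintro rfl
        norm_num at hpq
      omega
    · have : (p - 3) * (q - 4) ≥ 0 := Nat.zero_le _
      obtain ⟨p', rfl⟩ := Nat.exists_eq_add_of_le h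
      obtain ⟨q', rfl⟩ := Nat.exists_eq_add_of_le (show 4 ≤ q by omega)
      nlinarith
  have hbig : p * b = p * q * r := by rw [hbq]; ring
  rcases Nat.lt_or_ge θ r with hθ | hθ
  · -- Case A1
    refine ⟨a, Or.inl rfl, fun d hd hle => ?_⟩
    by_contra hcon
    push Not at hcon
    rcases hD d hd with ⟨i, j, h⟩ | h
    · have h1 : d = (i * p + j * q) * r := by rw [h, hap, hbq]; ring
      rw [h1, hap] at hcon
      have h2 : p < i * p + j * q := lt_of_mul_lt_mul_right hcon (Nat.zero_le r)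
      have h3 : (p + 1) * r ≤ (i * p + j * q) * r := Nat.mul_le_mul_right r h2
      rw [← h1, add_mul, one_mul, ← hap] at h3
      omega
    · rw [hbig] at h
      have h1 : (2 * p + q + 1) * r ≤ p * q * r := Nat.mul_le_mul_right r hprod
      have h2 : (2 * p + q + 1) * r = 2 * a + b + r := by rw [hap, hbq]; ring
      omega
  · -- Case A2
    have hp5 : θ + 5 ≤ p := by
      by_contra hcon
      push Not at hcon
      have : p * r ≤ (θ + 5) * θ := Nat.mul_le_mul hcon.le hθ
      rw [← hap] at this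
      nlinarith
    obtain ⟨p', hp'⟩ := Nat.exists_eq_add_of_le hp5
    obtain ⟨q', hq'⟩ := Nat.exists_eq_add_of_lt hpq'
    by_cases hbθ : a + θ < b
    · refine ⟨a, Or.inl rfl, fun d hd hle => ?_⟩
      rcases hD d hd with ⟨i, j, h⟩ | h
      · have hA : i * a = 0 ∨ i * a = a ∨ 2 * a ≤ i * a := by
          rcases i with _ | _ | i
          · left; simp
          · right; left; simp
          · right; right; nlinarith
        have hB : j * b = 0 ∨ b ≤ j * b := by
          rcases j with _ | j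
          · left; simp
          · right; nlinarith
        rcases hA with hA | hA | hA <;> rcases hB with hB | hB <;> omega
      · exfalso
        rw [hbig] at h
        have h0 : 2 * p + q + θ ≤ p * q := by
          subst hq'
          subst hp'
          nlinarith
        have h1 : (2 * p + q + θ) * r ≤ p * q * r := Nat.mul_le_mul_right r h0
        have h2 : (2 * p + q + θ) * r = 2 * a + b + θ * r := by rw [hap, hbq]; ring
        have h3 : θ ≤ θ * r := Nat.le_mul_of_pos_right θ hr0
        omega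
    · refine ⟨b, Or.inr rfl, fun d hd hle => ?_⟩
      rcases hD d hd with ⟨i, j, h⟩ | h
      · have hA : i * a = 0 ∨ i * a = a ∨ 2 * a ≤ i * a := by
          rcases i with _ | _ | i
          · left; simp
          · right; left; simp
          · right; right; nlinarith
        have hB : j * b = 0 ∨ j * b = b ∨ 2 * b ≤ j * b := by
          rcases j with _ | _ | j
          · left; simp
          · right; left; simp
          · right; right; nlinarith
        rcases hA with hA | hA | hA <;> rcases hB with hB | hB | hB <;> omega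
      · exfalso
        rw [hbig] at h
        have h0 : p + 2 * q + θ ≤ p * q := by
          subst hq'
          subst hp'
          nlinarith
        have h1 : (p + 2 * q + θ) * r ≤ p * q * r := Nat.mul_le_mul_right r h0
        have h2 : (p + 2 * q + θ) * r = a + 2 * b + θ * r := by rw [hap, hbq]; ring
        have h3 : θ ≤ θ * r := Nat.le_mul_of_pos_right θ hr0
        omega

end Gap

namespace Gap

section
variable {k : Type*} [Field k]

/-- the top component is not zero -/
lemma hc_ne_zero (p : PP k) (hp : p ≠ 0) : homogeneousComponent p.totalDegree p ≠ 0 := by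
  obtain ⟨d, hd, hdeg⟩ := Finset.exists_mem_eq_sup p.support (support_nonempty.2 hp)
    (fun s : Fin 2 →₀ ℕ => s.sum fun _ e => e)
  intro h0
  have h1 := coeff_homogeneousComponent p.totalDegree p d
  rw [h0, coeff_zero] at h1
  have h2 : d.degree = p.totalDegree := by
    rw [totalDegree, hdeg]
    rfl
  rw [if_pos h2] at h1
  exact (mem_support_iff.1 hd) h1.symm

lemma deg_lt (p : PP k) (b : ℕ) (hb : 0 < b) (h : p.totalDegree ≤ b)
    (h0 : homogeneousComponent b p = 0) : p.totalDegree < b := by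
  rcases h.lt_or_eq with h1 | h1
  · exact h1
  · exfalso
    have hp : p ≠ 0 := by
      rintro rfl
      rw [totalDegree_zero] at h1
      omega
    exact hc_ne_zero p hp (h1 ▸ h0)

lemma range_le (F G : Fin 2 → PP k) (h : ∀ i, G i ∈ (aeval F : PP k →ₐ[k] PP k).range) :
    (aeval G : PP k →ₐ[k] PP k).range ≤ (aeval F : PP k →ₐ[k] PP k).range := by
  rw [aeval_range]
  refine Algebra.adjoin_le ?_
  rintro _ ⟨i, rfl⟩
  exact h i

lemma mem_range (F : Fin 2 → PP k) (i : Fin 2) : F i ∈ (aeval F : PP k →ₐ[k] PP k).range :=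
  ⟨X i, by simp⟩

/-- pairs which generate the same subalgebra -/
structure Pr (F G : Fin 2 → PP k) : Prop where
  rg : (aeval G : PP k →ₐ[k] PP k).range = (aeval F : PP k →ₐ[k] PP k).range
  br : ∃ c : k, c ≠ 0 ∧ br (G 0) (G 1) = C c

lemma Pr.swap {F G : Fin 2 → PP k} (h : Pr F G) : Pr F ![G 1, G 0] := by
  refine ⟨?_, ?_⟩
  · rw [← h.rg]
    apply le_antisymm
    · apply range_le
      intro i
      fin_cases i
      · exact mem_range G 1
      · exact mem_range G 0
    · apply range_le
      intro i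
      fin_cases i
      · exact mem_range ![G 1, G 0] 1
      · exact mem_range ![G 1, G 0] 0
  · obtain ⟨c, hc, hb⟩ := h.br
    refine ⟨-c, neg_ne_zero.2 hc, ?_⟩
    show Pen.br (G 1) (G 0) = _
    rw [br_swap, hb, C_neg]

/-- there is a minimal ordered pair -/
lemma exists_min (F : Fin 2 → PP k) (h : Pr F F) :
    ∃ G : Fin 2 → PP k, Pr F G ∧ (G 0).totalDegree ≤ (G 1).totalDegree ∧
      ∀ G', Pr F G' → (G 0).totalDegree + (G 1).totalDegree ≤
        (G' 0).totalDegree + (G' 1).totalDegree := by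
  classical
  have hex : ∃ n, ∃ G, Pr F G ∧ (G 0).totalDegree + (G 1).totalDegree = n := ⟨_, F, h, rfl⟩
  obtain ⟨G, hG, hn⟩ := Nat.find_spec hex
  have hmin : ∀ G', Pr F G' → (G 0).totalDegree + (G 1).totalDegree ≤
        (G' 0).totalDegree + (G' 1).totalDegree := by
    intro G' hG'
    rw [hn]
    exact Nat.find_min' hex ⟨G', hG', rfl⟩
  by_cases hle : (G 0).totalDegree ≤ (G 1).totalDegree
  · exact ⟨G, hG, hle, hmin⟩
  · refine ⟨![G 1, G 0], hG.swap, ?_, fun G' hG' => ?_⟩
    · show (G 1).totalDegree ≤ (G 0).totalDegree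
      omega
    · show (G 1).totalDegree + (G 0).totalDegree ≤ _
      have := hmin G' hG'
      omega

lemma not_dvd [CharZero k] (F G : Fin 2 → PP k) (hG : Pr F G)
    (hmin : ∀ G', Pr F G' → (G 0).totalDegree + (G 1).totalDegree ≤
        (G' 0).totalDegree + (G' 1).totalDegree) (h0 : 2 ≤ (G 0).totalDegree)
    (h1 : 2 ≤ (G 1).totalDegree) : ¬ (G 0).totalDegree ∣ (G 1).totalDegree := by
  rintro ⟨q, hq⟩
  obtain ⟨c, hc, hb⟩ := hG.br
  set f := G 0 with hf
  set g := G 1 with hg
  set a := f.totalDegree with ha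
  set b := g.totalDegree with hbb
  set fb := homogeneousComponent a f with hfb
  set gb := homogeneousComponent b g with hgb
  have hf0 : f ≠ 0 := by
    intro h
    rw [ha, h, totalDegree_zero] at h0
    omega
  have hfb0 : fb ≠ 0 := hc_ne_zero f hf0
  have hbr : Pen.br fb gb = 0 := by
    rw [hfb, hgb, ← (Two.br_comp' f g a b (by omega) (by omega) le_rfl le_rfl).2, hb]
    apply homogeneousComponent_eq_zero
    rw [totalDegree_C]
    omega
  have hbr2 : ∀ (u v : PP k) (n : ℕ), Pen.br v u = 0 → Pen.br v (u ^ n) = 0 := by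
    intro u v n h
    induction n with
    | zero =>
      rw [pow_zero, ← C_1, br_C_right]
    | succ n ih =>
      rw [pow_succ, br_mul_right, h, ih, mul_zero, mul_zero, add_zero]
  have hbr3 : Pen.br (fb ^ q) gb = 0 := by
    rw [br_swap, hbr2, neg_zero]
    rw [br_swap, hbr, neg_zero]
  obtain ⟨γ, hγ⟩ := same_deg (fb ^ q) gb b
    (by rw [hq]; exact (homogeneousComponent_isHomogeneous a f).pow q)
    (homogeneousComponent_isHomogeneous b g) (pow_ne_zero q hfb0) hbr3
  set g' := g - C γ * f ^ q with hg'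
  have hT : FolTopAux.T (f ^ q) (a * q) (fb ^ q) := by
    have h : FolTopAux.T f a fb := ⟨le_rfl, rfl⟩
    have := h.pow q
    rwa [mul_comm] at this
  have hdeg : g'.totalDegree < b := by
    apply deg_lt _ _ (by omega)
    · refine (totalDegree_sub _ _).trans (max_le le_rfl ?_)
      refine (totalDegree_mul _ _).trans ?_
      rw [totalDegree_C, zero_add, hq]
      exact hT.1
    · rw [hg', map_sub, ← hgb, hγ, homogeneousComponent_C_mul, hq, hT.2, sub_self]
  have hff : ∀ n, Pen.br f (f ^ n) = 0 := fun n => hbr2 f f n (br_self f)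
  have hP : Pr F ![f, g'] := by
    refine ⟨?_, c, hc, ?_⟩
    · rw [← hG.rg]
      have hfm : f ∈ (aeval G : PP k →ₐ[k] PP k).range := mem_range G 0
      have hgm : g ∈ (aeval G : PP k →ₐ[k] PP k).range := mem_range G 1
      have hCm : ∀ (H : Fin 2 → PP k), (C γ : PP k) ∈ (aeval H : PP k →ₐ[k] PP k).range :=
        fun H => ⟨C γ, by simp [algebraMap_eq]⟩
      have hfm' : f ∈ (aeval ![f, g'] : PP k →ₐ[k] PP k).range := mem_range ![f, g'] 0
      have hgm' : g' ∈ (aeval ![f, g'] : PP k →ₐ[k] PP k).range := mem_range ![f, g'] 1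
      apply le_antisymm
      · apply range_le
        intro i
        fin_cases i
        · exact hfm
        · exact sub_mem hgm (mul_mem (hCm G) (pow_mem hfm q))
      · apply range_le
        intro i
        fin_cases i
        · exact hfm'
        · have : g = g' + C γ * f ^ q := by rw [hg']; ring
          show g ∈ _
          rw [this]
          exact add_mem hgm' (mul_mem (hCm _) (pow_mem hfm' q))
    · show Pen.br f g' = C c
      have e : g' = g + (C (-γ) * f ^ q) := by rw [hg', C_neg]; ring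
      rw [e, br_add_right, hb, br_mul_right, br_C_right, hff]
      ring
  have := hmin _ hP
  have h2 : ((![f, g'] : Fin 2 → PP k) 0).totalDegree = a := rfl
  have h3 : ((![f, g'] : Fin 2 → PP k) 1).totalDegree = g'.totalDegree := rfl
  rw [h2, h3] at this
  omega

end

end Gap

theorem gap {k : Type*} [Field k] [IsAlgClosed k] [CharZero k] (F : Fin 2 → PP k)
    (hJ : IsUnit (Pool.Agent.H922R2.jac F).det) (θ : ℕ)
    (hc : ∀ p : PP k, (∀ c, p ≠ C c) → 4 * (θ + 5) ^ 2 ≤ (aeval F p).totalDegree) :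
    ∃ T : ℕ, (∃ p : PP k, (∀ c, p ≠ C c) ∧ (aeval F p).totalDegree ≤ T) ∧
      ∀ p : PP k, (aeval F p).totalDegree ≤ T + θ → (aeval F p).totalDegree ≤ T := by
  have hPF : Gap.Pr F F := by
    refine ⟨rfl, ?_⟩
    rw [jac_det_br] at hJ
    obtain ⟨c, hcu, hc2⟩ := isUnit_iff_eq_C_of_isReduced.1 hJ
    exact ⟨c, hcu.ne_zero, hc2⟩
  obtain ⟨G, hG, hle, hmin⟩ := Gap.exists_min F hPF
  obtain ⟨c, hc0, hb⟩ := hG.br
  -- elements of positive degree in the image
  have hpos : ∀ s : PP k, 0 < (aeval G s).totalDegree → ∃ p : PP k, (∀ c, p ≠ C c) ∧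
      aeval F p = aeval G s := by
    intro s hs
    have hm : aeval G s ∈ (aeval G : PP k →ₐ[k] PP k).range := ⟨s, rfl⟩
    rw [hG.rg] at hm
    obtain ⟨p, hp⟩ := hm
    have hp' : aeval F p = aeval G s := hp
    refine ⟨p, fun c hpc => ?_, hp'⟩
    rw [← hp', hpc, aeval_C, algebraMap_eq, totalDegree_C] at hs
    omega
  have hGi : ∀ i, G i = aeval G (X i : PP k) := fun i => by simp
  have hGpos : ∀ i, 0 < (G i).totalDegree := by
    intro i
    by_contra hcon
    have h0 : (G i).totalDegree = 0 := by omega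
    obtain ⟨d, hd⟩ : ∃ d, G i = C d := ⟨_, (totalDegree_eq_zero_iff_eq_C).1 h0⟩
    fin_cases i
    · have hd' : G 0 = C d := hd
      rw [hd', br_C_left] at hb
      exact hc0 (by simpa using hb.symm)
    · have hd' : G 1 = C d := hd
      rw [hd', br_C_right] at hb
      exact hc0 (by simpa using hb.symm)
  have hbig : ∀ i, 4 * (θ + 5) ^ 2 ≤ (G i).totalDegree := by
    intro i
    obtain ⟨p, hp, he⟩ := hpos (X i) (by rw [← hGi]; exact hGpos i)
    rw [hGi i, ← he]
    exact hc p hp
  have h25 : 5 ^ 2 ≤ (θ + 5) ^ 2 := Nat.pow_le_pow_left (Nat.le_add_left 5 θ) 2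
  have h100 : ∀ i, 100 ≤ (G i).totalDegree := fun i => by have := hbig i; omega
  have hnd := Gap.not_dvd F G hG hmin (by linarith [h100 0]) (by linarith [h100 1])
  -- the degrees
  set D : Set ℕ := {d | ∃ s : PP k, s ≠ 0 ∧ (aeval G s).totalDegree = d} with hD
  have hfin : ∀ T : ℕ, (∃ s : PP k, 0 < (aeval G s).totalDegree ∧ (aeval G s).totalDegree = T) →
      (∀ d ∈ D, d ≤ T + θ → d ≤ T) → ∃ T : ℕ, (∃ p : PP k, (∀ c, p ≠ C c) ∧
        (aeval F p).totalDegree ≤ T) ∧
      ∀ p : PP k, (aeval F p).totalDegree ≤ T + θ → (aeval F p).totalDegree ≤ T := by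
    rintro T ⟨s, hs, hsT⟩ hTD
    obtain ⟨p, hp, he⟩ := hpos s hs
    refine ⟨T, ⟨p, hp, by rw [he, hsT]⟩, fun p' hp' => ?_⟩
    have hm : aeval F p' ∈ (aeval F : PP k →ₐ[k] PP k).range := ⟨p', rfl⟩
    rw [← hG.rg] at hm
    obtain ⟨s', hs'⟩ := hm
    have hs2 : aeval G s' = aeval F p' := hs'
    by_cases h0 : s' = 0
    · rw [← hs2, h0, map_zero, totalDegree_zero]
      exact Nat.zero_le _
    · exact hTD _ ⟨s', h0, congrArg totalDegree hs2⟩ hp'
  by_cases hne : ∃ r, (G 0).totalDegree = 2 * r ∧ (G 1).totalDegree = 3 * r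
  · obtain ⟨r, hr0, hr1⟩ := hne
    have hr2 : 2 * (θ + 5) ^ 2 ≤ r := by
      have := hbig 0
      rw [hr0] at this
      nlinarith
    obtain ⟨δ, hd1, _, hd3, ⟨U, hU⟩, hd4⟩ := level_two G c hc0 hb r (by omega) hr0 hr1
    obtain ⟨T, hT, hTD⟩ := Gap.numB θ r δ hr2 hd1 hd3 D (by
      rintro d ⟨s, hs, rfl⟩
      exact hd4 s hs)
    refine hfin T ?_ hTD
    rcases hT with rfl | rfl
    · exact ⟨X 0, by rw [← hGi, hr0]; have := h100 0; omega, by rw [← hGi, hr0]⟩
    · exact ⟨U, by rw [hU]; omega, hU⟩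
  · obtain ⟨T, hT, hTD⟩ := Gap.numA θ (G 0).totalDegree (G 1).totalDegree (hbig 0) hle hnd hne D (by
      rintro d ⟨s, hs, rfl⟩
      exact level_one G c hc0 hb _ _ rfl rfl (by linarith [h100 0]) (by linarith [h100 1]) s hs)
    refine hfin T ?_ hTD
    rcases hT with rfl | rfl
    · exact ⟨X 0, by rw [← hGi]; exact hGpos 0, by rw [← hGi]⟩
    · exact ⟨X 1, by rw [← hGi]; exact hGpos 1, by rw [← hGi]⟩

end Pool.Agent.H928R2.Pen
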