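import Pool.Agent.H928R2.FolEscape
import Pool.Agent.H928R2.FolGap
import Pool.Agent.H928R2.FolFd

/-!
# Plane Keller maps preserving a foliation
-/

set_option autoImplicit false
set_option linter.unusedSectionVars false

open MvPolynomial Pool.Agent.H928R2.Inv

namespace Pool.Agent.H928R2.Pen

section
variable {k : Type*} [Field k] [IsAlgClosed k] [CharZero k] (F : Fin 2 → PP k)

theorem fol2 (hJ : IsUnit (Pool.Agent.H922R2.jac F).det) (A B : PP k) (hco : IsRelPrime A B)
    (h2 : (A * pderiv 1 (F 1) - B * pderiv 0 (F 1)) * aeval F B =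
      (B * pderiv 0 (F 0) - A * pderiv 1 (F 0)) * aeval F A) :
    ∃ κ : k, κ ≠ 0 ∧ (∀ f, dd A B (aeval F f) = C κ * aeval F (dd A B f)) ∧
      A * pderiv 1 (F 1) - B * pderiv 0 (F 1) = C κ * aeval F A ∧
      B * pderiv 0 (F 0) - A * pderiv 1 (F 0) = C κ * aeval F B := by
  set A₁ := A * pderiv 1 (F 1) - B * pderiv 0 (F 1) with hA₁
  set B₁ := B * pderiv 0 (F 0) - A * pderiv 1 (F 0) with hB₁
  have hco₁ : IsRelPrime A₁ B₁ := by
    intro z hzA hzB
    have h1 : z ∣ A * (Pool.Agent.H922R2.jac F).det := by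
      have h2 : A * (Pool.Agent.H922R2.jac F).det = A₁ * pderiv 0 (F 0) + B₁ * pderiv 0 (F 1) := by
        rw [jac_det, hA₁, hB₁]; ring
      rw [h2]
      exact dvd_add (hzA.mul_right _) (hzB.mul_right _)
    have h2 : z ∣ B * (Pool.Agent.H922R2.jac F).det := by
      have h2 : B * (Pool.Agent.H922R2.jac F).det = A₁ * pderiv 1 (F 0) + B₁ * pderiv 1 (F 1) := by
        rw [jac_det, hA₁, hB₁]; ring
      rw [h2]
      exact dvd_add (hzA.mul_right _) (hzB.mul_right _)
    exact hco ((hJ.dvd_mul_right).1 h1) ((hJ.dvd_mul_right).1 h2)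
  obtain ⟨u, hu, hu1, hu2⟩ := assoc_pairs hco₁ (relprime_map F hJ hco) h2
  obtain ⟨κ, hκ, rfl⟩ := (isUnit_iff_C u).1 hu
  refine ⟨κ, hκ, fun f => ?_, hu1, hu2⟩
  rw [dd_aevalF, ← hA₁, ← hB₁, hu1, hu2, dd_apply, map_sub, map_mul, map_mul]
  ring

theorem dd_degree (A B f : PP k) :
    (dd A B f).totalDegree ≤ f.totalDegree + max A.totalDegree B.totalDegree := by
  have h0 : ∀ j, (pderiv j f).totalDegree ≤ f.totalDegree := by
    intro j
    by_cases h : pderiv j f = 0
    · rw [h, totalDegree_zero]; exact Nat.zero_le _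
    · exact (Pool.Agent.H922R2.totalDegree_pderiv_lt f j h).le
  rw [dd_apply]
  refine (totalDegree_sub _ _).trans (max_le ?_ ?_)
  · refine (totalDegree_mul _ _).trans ?_
    have := h0 1
    have := le_max_left A.totalDegree B.totalDegree
    omega
  · refine (totalDegree_mul _ _).trans ?_
    have := h0 0
    have := le_max_right A.totalDegree B.totalDegree
    omega

/-- the presence of an invariant algebraic curve -/
theorem surj_of_darboux (hJ : IsUnit (Pool.Agent.H922R2.jac F).det) (A B : PP k)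
    (hco : IsRelPrime A B)
    (hcomm : ∀ f, dd A B (aeval F f) = aeval F (dd A B f))
    (p l : PP k) (hp : ∀ c, p ≠ C c) (hl : dd A B p = l * p) :
    Function.Surjective (phiL F hJ) := by
  have hp0 : p ≠ 0 := fun h => hp 0 (by rw [h, C_0])
  have hcomm' : ∀ f, dd A B (aeval F f) = C 1 * aeval F (dd A B f) := by
    intro f
    rw [hcomm, C_1, one_mul]
  by_cases hlc : ∀ c, l ≠ C c
  · obtain ⟨s, α, β, hs, hα, hsF⟩ := semi_inv F (Pool.Agent.H922R2.aeval_injective F hJ) A B 1
      one_ne_zero hcomm' p l hp0 hl hlc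
    exact p1 F hJ s hs α β hα hsF
  push Not at hlc
  obtain ⟨c, rfl⟩ := hlc
  by_cases h1 : ∀ q, dd A B q = C c * q → ∃ α, q = C α * p
  · obtain ⟨α, hα⟩ := h1 (aeval F p) (by rw [hcomm, hl, map_mul, aevalF_C])
    refine p1 F hJ p hp α 0 ?_ (by rw [hα, C_0, add_zero])
    rintro rfl
    rw [C_0, zero_mul, map_eq_zero_iff _ (Pool.Agent.H922R2.aeval_injective F hJ)] at hα
    exact hp0 hα
  · push Not at h1
    obtain ⟨q, hq, hqp⟩ := h1
    have hιp := ι_ne hp0
    have hDx : DK A B (ιK k q / ιK k p) = 0 := by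
      have h2 : (ιK k q / ιK k p) * ιK k p = ιK k q := div_mul_cancel₀ _ hιp
      have h3 := congrArg (DK A B) h2
      rw [Derivation.leibniz, DK_coe, DK_coe, hl, hq, map_mul, map_mul, smul_eq_mul,
        smul_eq_mul] at h3
      have h4 : ιK k p * DK A B (ιK k q / ιK k p) = 0 := by
        have h5 : (ιK k q / ιK k p) * (ιK k (C c) * ιK k p) = ιK k (C c) * ιK k q := by
          rw [mul_left_comm, h2]
        rw [h5] at h3
        linear_combination h3
      exact (mul_eq_zero.1 h4).resolve_left hιp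
    have hxc : ∀ α : k, ιK k q / ιK k p ≠ algebraMap k (KK k) α := by
      intro α hα
      apply hqp α
      apply iR_inj (k := k) (σ := Fin 2)
      show ιK k q = ιK k (C α * p)
      rw [div_eq_iff hιp] at hα
      rw [hα, map_mul]
      rfl
    obtain ⟨y, hy, hyc⟩ := exists_y hco _ hxc hDx
    apply pencil_surj F hJ y hyc
    rw [← hy, commK F hJ A B 1 hcomm', (hy y).2 (IntermediateField.mem_adjoin_simple_self k y),
      map_zero, mul_zero]

theorem comm_itr {A B : PP k} (hcomm : ∀ f, dd A B (aeval F f) = aeval F (dd A B f)) (n : ℕ)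
    (f : PP k) : dd A B (aeval (itr F n) f) = aeval (itr F n) (dd A B f) := by
  rw [aeval_itr, aeval_itr]
  induction n with
  | zero => rfl
  | succ n ih => rw [Function.iterate_succ_apply', Function.iterate_succ_apply', hcomm, ih]

/-- a Keller map preserving a foliation is birational -/
theorem foliation_surj (hJ : IsUnit (Pool.Agent.H922R2.jac F).det) (A B : PP k)
    (hco : IsRelPrime A B)
    (h2 : (A * pderiv 1 (F 1) - B * pderiv 0 (F 1)) * aeval F B =
      (B * pderiv 0 (F 0) - A * pderiv 1 (F 0)) * aeval F A) :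
    Function.Surjective (phiL F hJ) := by
  obtain ⟨κ, hκ, hcomm, hfA, hfB⟩ := fol2 F hJ A B hco h2
  by_cases hker : ∀ f : PP k, dd A B f = 0 → ∃ c, f = C c
  swap
  · push Not at hker
    obtain ⟨f, hf, hfc⟩ := hker
    obtain ⟨h, H⟩ := exists_Fib hco f hfc hf
    exact caseA F hJ A B h H κ hκ hcomm
  have hdiv := div_semi F hJ A B κ hκ hfA hfB
  by_cases hζ : ∀ c, pderiv 1 A - pderiv 0 B ≠ C c
  · refine p1 F hJ (pderiv 1 A - pderiv 0 B) hζ κ⁻¹ 0 (inv_ne_zero hκ) ?_
    rw [C_0, add_zero, eq_comm]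
    calc C κ⁻¹ * (pderiv 1 A - pderiv 0 B) = C κ⁻¹ * (C κ * aeval F (pderiv 1 A - pderiv 0 B)) := by
          rw [hdiv]
      _ = aeval F (pderiv 1 A - pderiv 0 B) := by
          rw [← mul_assoc, ← C_mul, inv_mul_cancel₀ hκ, C_1, one_mul]
  push Not at hζ
  obtain ⟨z, hz⟩ := hζ
  by_cases hz0 : z = 0
  · exfalso
    rw [hz0, C_0, sub_eq_zero] at hz
    obtain ⟨f, hf0, hf1⟩ := poincare A B hz
    obtain ⟨c, hc⟩ := hker f (by rw [dd_apply, hf0, hf1]; ring)
    rw [hc, pderiv_C] at hf0 hf1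
    rcases relprime_ne hco with h | h
    · exact h hf0.symm
    · exact h hf1.symm
  have hκ1 : κ = 1 := by
    rw [hz, aevalF_C, ← C_mul] at hdiv
    have h3 := C_injective _ _ hdiv
    exact mul_right_cancel₀ hz0 (by rw [h3, one_mul])
  have hcomm1 : ∀ f, dd A B (aeval F f) = aeval F (dd A B f) := by
    intro f
    rw [hcomm, hκ1, C_1, one_mul]
  by_contra hns
  obtain ⟨n, hn⟩ := escape F hJ hns (4 * (max A.totalDegree B.totalDegree + 5) ^ 2)
  have hJn := jac_itr F hJ n
  obtain ⟨T, ⟨p₀, hp₀, hp₀T⟩, hT⟩ := gap (itr F n) hJn (max A.totalDegree B.totalDegree) (by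
    intro p hp
    rw [aeval_itr]
    exact hn p hp)
  have hinj := Pool.Agent.H922R2.aeval_injective (itr F n) hJn
  let V : Submodule k (PP k) := (restrictTotalDegree (Fin 2) k T).comap
    (aeval (itr F n) : PP k →ₐ[k] PP k).toLinearMap
  have hV : ∀ p, p ∈ V ↔ (aeval (itr F n) p).totalDegree ≤ T := by
    intro p
    rw [Submodule.mem_comap, mem_restrictTotalDegree]
    rfl
  have hfd : FiniteDimensional k V := by
    let g : V →ₗ[k] restrictTotalDegree (Fin 2) k T :=
      (aeval (itr F n) : PP k →ₐ[k] PP k).toLinearMap.restrict (fun p hp => hp)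
    exact FiniteDimensional.of_injective g (fun a b hab => Subtype.ext (hinj (congrArg Subtype.val hab)))
  rcases fd_analysis (dd A B) V (by
    intro p hp
    rw [hV] at hp ⊢
    rw [← comm_itr F hcomm1]
    have h3 := dd_degree A B (aeval (itr F n) p)
    have h4 := hT (dd A B p) (by
      rw [← comm_itr F hcomm1]
      omega)
    rw [← comm_itr F hcomm1] at h4
    exact h4) ⟨p₀, (hV _).2 hp₀T, hp₀⟩ with ⟨p, hp, l, hl⟩ | ⟨p, hp, hDp⟩
  · exact hns (surj_of_darboux F hJ A B hco hcomm1 p (C l) hp hl)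
  · obtain ⟨c, hc⟩ := hker (aeval F p - p) (by rw [map_sub, hcomm1, hDp, map_one, sub_self])
    exact hns (p1 F hJ p hp 1 c one_ne_zero (by rw [C_1, one_mul, ← hc]; ring))

end

section
variable {k : Type*} [Field k] [CharZero k]

theorem exists_coprime (A B : PP k) (hAB : A ≠ 0 ∨ B ≠ 0) :
    ∃ A' B' g : PP k, IsRelPrime A' B' ∧ g ≠ 0 ∧ A = g * A' ∧ B = g * B' := by
  rcases hAB with h | h
  · obtain ⟨b', a', c', hco, hb, ha⟩ := UniqueFactorizationMonoid.exists_reduced_factors' B A h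
    refine ⟨a', b', c', hco.symm, ?_, ha.symm, hb.symm⟩
    rintro rfl
    rw [zero_mul] at ha
    exact h ha.symm
  · obtain ⟨a', b', c', hco, ha, hb⟩ := UniqueFactorizationMonoid.exists_reduced_factors' A B h
    refine ⟨a', b', c', hco, ?_, ha.symm, hb.symm⟩
    rintro rfl
    rw [zero_mul] at hb
    exact h hb.symm

theorem foliation_closed [IsAlgClosed k] (F : Fin 2 → PP k)
    (hJ : IsUnit (Matrix.of fun i j => pderiv j (F i)).det) (A B : PP k) (hAB : A ≠ 0 ∨ B ≠ 0)
    (hinv : (aeval F A * pderiv 0 (F 0) + aeval F B * pderiv 0 (F 1)) * B =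
      (aeval F A * pderiv 1 (F 0) + aeval F B * pderiv 1 (F 1)) * A) :
    ∃ G : Fin 2 → PP k, ∀ i, aeval F (G i) = X i := by
  have hJ' : IsUnit (Pool.Agent.H922R2.jac F).det := hJ
  obtain ⟨A', B', g, hco, hg, rfl, rfl⟩ := exists_coprime A B hAB
  have hφg : aeval F g ≠ 0 :=
    (map_ne_zero_iff _ (Pool.Agent.H922R2.aeval_injective F hJ')).2 hg
  have h1 : Function.Surjective (phiL F hJ') := by
    apply foliation_surj F hJ' A' B' hco
    apply mul_left_cancel₀ (mul_ne_zero hφg hg)
    rw [map_mul, map_mul] at hinv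
    linear_combination -hinv
  obtain ⟨G, hG, -⟩ := inverse_of_surj F hJ' h1
  exact ⟨G, hG⟩

open Pool.Agent.H922R2 in
/-- a plane Keller map preserving a foliation is an automorphism -/
theorem foliation (F : Fin 2 → PP k)
    (hJ : IsUnit (Matrix.of fun i j => pderiv j (F i)).det) (A B : PP k) (hAB : A ≠ 0 ∨ B ≠ 0)
    (hinv : (aeval F A * pderiv 0 (F 0) + aeval F B * pderiv 0 (F 1)) * B =
      (aeval F A * pderiv 1 (F 0) + aeval F B * pderiv 1 (F 1)) * A) :
    ∃ G : Fin 2 → PP k, ∀ i, aeval F (G i) = X i := by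
  let K := AlgebraicClosure k
  have : CharZero K := charZero_of_injective_algebraMap (algebraMap k K).injective
  have hpd : ∀ (j : Fin 2) (p : PP k), pderiv j (mE k K (Fin 2) p) = mE k K (Fin 2) (pderiv j p) := by
    intro j p
    rw [mE, pderiv_map]
  obtain ⟨G, hG⟩ := foliation_closed (fun i => mE k K (Fin 2) (F i)) (jac_mE (E := K) F hJ)
    (mE k K (Fin 2) A) (mE k K (Fin 2) B)
    (by
      rcases hAB with h | h
      · exact Or.inl ((map_ne_zero_iff _ mE_inj).2 h)
      · exact Or.inr ((map_ne_zero_iff _ mE_inj).2 h))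
    (by
      have h1 := congrArg (mE k K (Fin 2)) hinv
      simp only [map_mul, map_add, mE_aeval] at h1
      rw [hpd, hpd, hpd, hpd]
      exact h1)
  have hS : Pool.Agent.H922R2.SS (fun i => mE k K (Fin 2) (F i)) = ⊤ := by
    rw [eq_top_iff]
    have : (⊤ : Subalgebra K (PP K)) = Algebra.adjoin K (Set.range X) := by
      rw [MvPolynomial.adjoin_range_X]
    rw [this, Algebra.adjoin_le_iff]
    rintro _ ⟨i, rfl⟩
    exact ⟨G i, hG i⟩
  have hS' := SS_descent (E := K) F hS
  have h1 : ∀ i, ∃ g : PP k, aeval F g = X i := by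
    intro i
    have h2 : (X i : PP k) ∈ Pool.Agent.H922R2.SS F := by rw [hS']; trivial
    obtain ⟨g, hg⟩ := h2
    exact ⟨g, hg⟩
  choose G' hG' using h1
  exact ⟨G', hG'⟩

/-- iterates -/
theorem foliation_iterate (F : Fin 2 → PP k)
    (hJ : IsUnit (Matrix.of fun i j => pderiv j (F i)).det) (n : ℕ) (hn : 0 < n) (A B : PP k)
    (hAB : A ≠ 0 ∨ B ≠ 0)
    (hinv : (aeval (itr F n) A * pderiv 0 (itr F n 0) + aeval (itr F n) B * pderiv 0 (itr F n 1)) * B =
      (aeval (itr F n) A * pderiv 1 (itr F n 0) + aeval (itr F n) B * pderiv 1 (itr F n 1)) * A) :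
    ∃ G : Fin 2 → PP k, (∀ i, aeval F (G i) = X i) ∧ ∀ i, aeval G (F i) = X i := by
  obtain ⟨G', hG'⟩ := foliation (itr F n) (jac_itr F hJ n) A B hAB hinv
  obtain ⟨m, rfl⟩ := Nat.exists_eq_succ_of_ne_zero hn.ne'
  have hG : ∀ i, aeval F ((aeval F : PP k →ₐ[k] PP k)^[m] (G' i)) = X i := by
    intro i
    rw [← hG' i, aeval_itr, Function.iterate_succ_apply']
  refine ⟨fun i => (aeval F : PP k →ₐ[k] PP k)^[m] (G' i), hG, fun i => ?_⟩
  apply Pool.Agent.H922R2.aeval_injective F hJ
  rw [aeval_X]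
  have h1 : (aeval F : PP k →ₐ[k] PP k).comp
      (aeval fun i => (aeval F : PP k →ₐ[k] PP k)^[m] (G' i)) = AlgHom.id k (PP k) := by
    apply MvPolynomial.algHom_ext
    intro j
    rw [AlgHom.comp_apply, aeval_X, hG]
    rfl
  exact congrArg (fun f => f (F i)) h1

end

section
variable {k : Type*} [Field k] [CharZero k]

theorem algHom_id_of (F G : Fin 2 → PP k) (h : ∀ i, aeval F (G i) = X i) (p : PP k) :
    aeval F (aeval G p) = p := by
  have h1 : (aeval F : PP k →ₐ[k] PP k).comp (aeval G) = AlgHom.id k (PP k) := by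
    apply MvPolynomial.algHom_ext
    intro j
    rw [AlgHom.comp_apply, aeval_X, h]
    rfl
  exact congrArg (fun f => f p) h1

/-- if `F ∘ H` preserves a foliation then `F` is an automorphism -/
theorem foliation_comp (F H : Fin 2 → PP k)
    (hF : IsUnit (Matrix.of fun i j => pderiv j (F i)).det)
    (hH : IsUnit (Matrix.of fun i j => pderiv j (H i)).det)
    (G : Fin 2 → PP k) (hG : ∀ i, G i = aeval H (F i)) (A B : PP k) (hAB : A ≠ 0 ∨ B ≠ 0)
    (hinv : (aeval G A * pderiv 0 (G 0) + aeval G B * pderiv 0 (G 1)) * B =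
      (aeval G A * pderiv 1 (G 0) + aeval G B * pderiv 1 (G 1)) * A) :
    ∃ F' : Fin 2 → PP k, (∀ i, aeval F (F' i) = X i) ∧ ∀ i, aeval F' (F i) = X i := by
  have hFinj := Pool.Agent.H922R2.aeval_injective F hF
  have hHinj := Pool.Agent.H922R2.aeval_injective H hH
  have hGp : ∀ p : PP k, aeval G p = aeval H (aeval F p) := by
    intro p
    have h1 : (aeval G : PP k →ₐ[k] PP k) = (aeval H : PP k →ₐ[k] PP k).comp (aeval F) := by
      apply MvPolynomial.algHom_ext
      intro j
      rw [AlgHom.comp_apply, aeval_X, aeval_X, hG]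
    exact congrArg (fun f => f p) h1
  have hJG : IsUnit (Matrix.of fun i j => pderiv j (G i)).det := by
    have h1 : (Matrix.of fun i j => pderiv j (G i)) =
        (aeval H : PP k →ₐ[k] PP k).toRingHom.mapMatrix
          (Matrix.of fun i j => pderiv j (F i)) *
        (Matrix.of fun i j => pderiv j (H i)) := by
      ext i j
      rw [Matrix.of_apply, Matrix.mul_apply, hG, Pool.Agent.H922R2.deriv_aeval]
      rfl
    rw [h1, Matrix.det_mul, ← RingHom.map_det]
    exact (hF.map _).mul hH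
  obtain ⟨G', hG'⟩ := foliation G hJG A B hAB hinv
  have hH' : ∀ i, aeval H (aeval F (G' i)) = X i := by
    intro i
    rw [← hGp, hG']
  have hHid := algHom_id_of H (fun i => aeval F (G' i)) hH'
  have hFid : ∀ i, aeval F (aeval G' (H i)) = X i := by
    intro i
    apply hHinj
    rw [← hGp, algHom_id_of G G' hG', aeval_X]
  refine ⟨fun i => aeval G' (H i), hFid, fun i => ?_⟩
  apply hFinj
  rw [algHom_id_of F _ hFid, aeval_X]

end

end Pool.Agent.H928R2.Pen
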