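import Mathlib

/-!
# Places of a function field of one variable: Dedekind part
-/

set_option autoImplicit false

namespace Pool.Agent.H928R2.Inv

open IsDedekindDomain Polynomial

section ded
variable {B L : Type*} [CommRing B] [IsDedekindDomain B] [Field L] [Algebra B L]
  [IsFractionRing B L]

theorem exists_prime (O : ValuationSubring L) (hB : ∀ b : B, algebraMap B L b ∈ O) (b₀ : B)
    (h0 : b₀ ≠ 0) (hb₀ : algebraMap B L b₀ ∈ O.nonunits) :
    ∃ v : HeightOneSpectrum B, O = HeightOneSpectrum.valuationSubringAtPrime L v ∧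
      b₀ ∈ v.asIdeal := by
  let g : B →+* O := (algebraMap B L).codRestrict O.toSubring hB
  have hg : ∀ b : B, ((g b : O) : L) = algebraMap B L b := fun _ => rfl
  let P : Ideal B := Ideal.comap g (IsLocalRing.maximalIdeal O)
  have hP : P.IsPrime := Ideal.comap_isPrime g _
  have hmem : ∀ b : B, b ∈ P ↔ algebraMap B L b ∈ O.nonunits := by
    intro b
    rw [Ideal.mem_comap, ← hg, ValuationSubring.coe_mem_nonunits_iff]
  have hb₀P : b₀ ∈ P := (hmem b₀).2 hb₀
  have hne : P ≠ ⊥ := fun h => h0 (by rw [h] at hb₀P; exact hb₀P)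
  refine ⟨⟨P, hP, hne⟩, ?_, hb₀P⟩
  symm
  apply ValuationSubring.eq_of_le_of_ne_top
  · rintro x ⟨a, s, hs, rfl⟩
    have hs' : algebraMap B L s ∉ O.nonunits := fun h => hs ((hmem s).2 h)
    have h1 : (algebraMap B L s)⁻¹ ∈ O := by
      rw [ValuationSubring.mem_nonunits_iff_or, not_or, not_not] at hs'
      exact hs'.2
    exact O.mul_mem _ _ (hB a) h1
  · intro h
    rw [h] at hb₀
    rw [ValuationSubring.mem_nonunits_iff_or] at hb₀
    rcases hb₀ with h1 | h1
    · exact h0 ((IsFractionRing.injective B L) (by rw [h1, map_zero]))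
    · exact h1 (ValuationSubring.mem_top _)

theorem finite_of_dedekind (b₀ : B) (h0 : b₀ ≠ 0) :
    {O : ValuationSubring L | (∀ b : B, algebraMap B L b ∈ O) ∧
      algebraMap B L b₀ ∈ O.nonunits}.Finite := by
  have h1 : {v : HeightOneSpectrum B | v.asIdeal ∣ Ideal.span {b₀}}.Finite :=
    Ideal.finite_factors (by rw [Ne, Ideal.zero_eq_bot, Ideal.span_singleton_eq_bot]; exact h0)
  refine (h1.image (fun v => HeightOneSpectrum.valuationSubringAtPrime L v)).subset ?_
  rintro O ⟨hB, hb₀⟩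
  obtain ⟨v, hv, hbv⟩ := exists_prime O hB b₀ h0 hb₀
  refine ⟨v, ?_, hv.symm⟩
  show v.asIdeal ∣ Ideal.span {b₀}
  rw [Ideal.dvd_span_singleton]
  exact hbv

end ded

/-- `t` is a uniformiser of the valuation ring `O` -/
structure IsUnif {L : Type*} [Field L] (O : ValuationSubring L) (t : L) : Prop where
  mem : t ∈ O
  ne : t ≠ 0
  inv : t⁻¹ ∉ O
  fac : ∀ f : L, f ≠ 0 → ∃ (j : ℤ) (u : L), u ∈ O ∧ u⁻¹ ∈ O ∧ f = u * t ^ j

section ded2
variable {B L : Type*} [CommRing B] [IsDedekindDomain B] [Field L] [Algebra B L]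
  [IsFractionRing B L]

theorem exists_unif (v : HeightOneSpectrum B) :
    ∃ t, IsUnif (HeightOneSpectrum.valuationSubringAtPrime L v) t := by
  obtain ⟨t, ht⟩ := v.valuation_exists_uniformizer L
  have hmem : ∀ x : L, x ∈ HeightOneSpectrum.valuationSubringAtPrime L v ↔
      v.valuation L x ≤ 1 := by
    intro x
    rw [HeightOneSpectrum.valuationSubringAtPrime_eq_valuationSubring]
    exact Valuation.mem_valuationSubring_iff _ _
  have hne : t ≠ 0 := by
    rintro rfl
    rw [map_zero] at ht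
    exact WithZero.coe_ne_zero ht.symm
  refine ⟨t, (hmem t).2 ?_, hne, fun h => ?_, fun f hf => ?_⟩
  · rw [ht]
    exact (WithZero.exp_le_exp.2 (by norm_num)).trans_eq WithZero.exp_zero
  · have h1 := (hmem _).1 h
    rw [map_inv₀, ht, ← WithZero.exp_neg, ← WithZero.exp_zero, WithZero.exp_le_exp] at h1
    norm_num at h1
  · have hvf : v.valuation L f ≠ 0 := (Valuation.ne_zero_iff _).2 hf
    obtain ⟨n, hn⟩ : ∃ n : ℤ, v.valuation L f = WithZero.exp n :=
      ⟨WithZero.log (v.valuation L f), (WithZero.exp_log hvf).symm⟩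
    have h1 : v.valuation L (f * t ^ n) = 1 := by
      rw [map_mul, map_zpow₀, hn, ht, ← WithZero.exp_zsmul, ← WithZero.exp_add,
        ← WithZero.exp_zero]
      congr 1
      simp
    refine ⟨-n, f * t ^ n, (hmem _).2 h1.le, (hmem _).2 ?_, ?_⟩
    · rw [map_inv₀, h1, inv_one]
    · rw [mul_assoc, ← zpow_add₀ hne, add_neg_cancel, zpow_zero, mul_one]

end ded2

end Pool.Agent.H928R2.Inv
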