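import Pool.Agent.H928R2.Inv9

/-!
# Keller maps with many invariants: conclusion
-/

set_option autoImplicit false
set_option linter.unusedSectionVars false

open MvPolynomial

namespace Pool.Agent.H928R2.Inv

section

variable {k : Type*} [Field k] [CharZero k] {σ : Type*} [Fintype σ] [DecidableEq σ]
  (F : σ → MvPolynomial σ k)

/-- the inclusion of polynomials in rational functions -/
noncomputable abbrev iR (k : Type*) [Field k] (σ : Type*) : MvPolynomial σ k →ₐ[k] RF k σ :=
  IsScalarTower.toAlgHom k (MvPolynomial σ k) (RF k σ)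

theorem iR_inj : Function.Injective (iR k σ) := IsFractionRing.injective (MvPolynomial σ k) (RF k σ)

theorem comp_inj (hJ : IsUnit (Pool.Agent.H922R2.jac F).det) :
    Function.Injective ((iR k σ).comp (aeval F)) := by
  intro a b hab
  exact Pool.Agent.H922R2.aeval_injective F hJ (iR_inj hab)

/-- the endomorphism of the field of rational functions -/
noncomputable def phiL (hJ : IsUnit (Pool.Agent.H922R2.jac F).det) : RF k σ →ₐ[k] RF k σ :=
  IsFractionRing.liftAlgHom (comp_inj F hJ)

theorem phiL_coe (hJ : IsUnit (Pool.Agent.H922R2.jac F).det) (r : MvPolynomial σ k) :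
    phiL F hJ (algebraMap (MvPolynomial σ k) (RF k σ) r) =
      algebraMap (MvPolynomial σ k) (RF k σ) (aeval F r) :=
  IsFractionRing.lift_algebraMap (comp_inj F hJ) r

theorem inverse_of_surj (hJ : IsUnit (Pool.Agent.H922R2.jac F).det)
    (hs : Function.Surjective (phiL F hJ)) :
    ∃ G : σ → MvPolynomial σ k, (∀ i, aeval F (G i) = X i) ∧ ∀ i, aeval G (F i) = X i := by
  have hX : ∀ i, ∃ g : MvPolynomial σ k, aeval F g = (X i : MvPolynomial σ k) := by
    intro i
    obtain ⟨y, hy⟩ := hs (algebraMap (MvPolynomial σ k) (RF k σ) (X i))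
    obtain ⟨a, b, hb, rfl⟩ := IsFractionRing.div_surjective (A := MvPolynomial σ k) y
    rw [map_div₀, phiL_coe, phiL_coe] at hy
    have h1 : algebraMap (MvPolynomial σ k) (RF k σ) (X i) ∈ Pool.Agent.H922R2.fF (RF k σ) F := by
      rw [Pool.Agent.H922R2.mem_fF_iff]
      exact ⟨a, b, hy.symm⟩
    obtain ⟨g, hg⟩ := Pool.Agent.H922R2.mem_SS_of_mem_fF (RF k σ) F hJ (X i) h1
    exact ⟨g, hg⟩
  choose G hG using hX
  refine ⟨G, hG, fun i => ?_⟩
  apply Pool.Agent.H922R2.aeval_injective F hJ
  rw [aeval_X]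
  have h1 : (aeval F : MvPolynomial σ k →ₐ[k] MvPolynomial σ k).comp (aeval G) =
      AlgHom.id k (MvPolynomial σ k) := by
    apply MvPolynomial.algHom_ext
    intro j
    rw [AlgHom.comp_apply, aeval_X, hG]
    rfl
  exact congrArg (fun f => f (F i)) h1

end

end Pool.Agent.H928R2.Inv
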