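import Pool.Agent.H928R2.Inv2

/-!
# Residues and derivations at a place
-/

set_option autoImplicit false

namespace Pool.Agent.H928R2.Inv

open Polynomial IntermediateField

section
variable {L : Type*} [Field L]

theorem nonunits_mul {O : ValuationSubring L} {t g : L} (ht : t ∈ O.nonunits) (hg : g ∈ O) :
    t * g ∈ O.nonunits := by
  rw [ValuationSubring.mem_nonunits_iff] at ht ⊢
  rw [map_mul]
  exact mul_lt_one_of_lt_of_le ht ((O.valuation_le_one_iff g).2 hg)

theorem nonunits_mem {O : ValuationSubring L} {t : L} (ht : t ∈ O.nonunits) : t ∈ O :=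
  ValuationSubring.nonunits_le ht

theorem zero_nonunits (O : ValuationSubring L) : (0 : L) ∈ O.nonunits := by
  rw [ValuationSubring.mem_nonunits_iff_or]
  exact Or.inl rfl

theorem inv_mem_of_notMem_nonunits {O : ValuationSubring L} {t : L} (ht : t ∉ O.nonunits) :
    t⁻¹ ∈ O := by
  rw [ValuationSubring.mem_nonunits_iff_or, not_or, not_not] at ht
  exact ht.2

theorem notMem_nonunits_of_inv {O : ValuationSubring L} {t : L} (h0 : t ≠ 0) (ht : t⁻¹ ∈ O) :
    t ∉ O.nonunits := by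
  rw [ValuationSubring.mem_nonunits_iff_or, not_or, not_not]
  exact ⟨h0, ht⟩

theorem IsUnif.nonunit {O : ValuationSubring L} {t : L} (h : IsUnif O t) : t ∈ O.nonunits := by
  rw [ValuationSubring.mem_nonunits_iff_or]
  exact Or.inr h.inv

theorem IsUnif.pow_of_nonunit {O : ValuationSubring L} {t : L} (h : IsUnif O t) {f : L}
    (hf : f ∈ O.nonunits) : ∃ g ∈ O, f = t * g := by
  by_cases h0 : f = 0
  · exact ⟨0, O.zero_mem, by rw [h0, mul_zero]⟩
  obtain ⟨j, u, hu, hui, h1⟩ := h.fac f h0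
  have hj : 1 ≤ j := by
    by_contra hcon
    refine notMem_nonunits_of_inv h0 ?_ hf
    rw [h1, mul_inv, ← zpow_neg]
    exact mem_of_unit_mul hui h.mem _ (by omega)
  refine ⟨u * t ^ (j - 1), mem_of_unit_mul hu h.mem _ (by omega), ?_⟩
  rw [h1, zpow_sub_one₀ h.ne]
  field_simp [h.ne]

end

section
variable {E L : Type*} [Field E] [Field L] [Algebra E L]

theorem aeval_mem {O : ValuationSubring L} (hE : ∀ a : E, algebraMap E L a ∈ O) {f : L}
    (hf : f ∈ O) (P : E[X]) : aeval f P ∈ O := by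
  rw [aeval_eq_sum_range]
  refine sum_mem fun i _ => ?_
  rw [Algebra.smul_def]
  exact O.mul_mem _ _ (hE _) (pow_mem hf i)

theorem const_notMem_nonunits {O : ValuationSubring L} (hE : ∀ a : E, algebraMap E L a ∈ O)
    {a : E} (ha : a ≠ 0) : algebraMap E L a ∉ O.nonunits := by
  refine notMem_nonunits_of_inv ((map_ne_zero (algebraMap E L)).2 ha) ?_
  rw [← map_inv₀]
  exact hE _

open scoped algebraAdjoinAdjoin in
theorem res_alg (H : ∀ x : L, Transcendental E x →
      Algebra.IsAlgebraic (IntermediateField.adjoin E {x}) L)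
    (O : ValuationSubring L) (hE : ∀ a : E, algebraMap E L a ∈ O) (t : L) (ht0 : t ≠ 0)
    (ht : t ∈ O.nonunits) (f : L) (hf : f ∈ O) :
    ∃ P : E[X], P ≠ 0 ∧ aeval f P ∈ O.nonunits := by
  by_cases halg : IsAlgebraic E f
  · obtain ⟨P, hP, hPf⟩ := halg
    exact ⟨P, hP, by rw [hPf]; exact zero_nonunits O⟩
  have h1 : IsAlgebraic (IntermediateField.adjoin E {f}) t :=
    (H f halg).isAlgebraic t
  have h2 : IsAlgebraic (Algebra.adjoin E {f}) t :=
    (IsFractionRing.isAlgebraic_iff (Algebra.adjoin E {f})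
      (IntermediateField.adjoin E {f}) L).2 h1
  obtain ⟨q, hq0, hq⟩ := h2.exists_nonzero_coeff_and_aeval_eq_zero
    (mem_nonZeroDivisors_of_ne_zero ht0)
  have hcoef : ∀ a : Algebra.adjoin E {f}, ∃ P : E[X], aeval f P = (a : L) := by
    intro a
    have h3 : (a : L) ∈ (aeval f : E[X] →ₐ[E] L).range := by
      rw [← Algebra.adjoin_singleton_eq_range_aeval]
      exact a.2
    obtain ⟨P, hP⟩ := h3
    exact ⟨P, hP⟩
  have hcoefO : ∀ a : Algebra.adjoin E {f}, (a : L) ∈ O := by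
    intro a
    obtain ⟨P, hP⟩ := hcoef a
    rw [← hP]
    exact aeval_mem hE hf P
  obtain ⟨P, hP⟩ := hcoef (q.coeff 0)
  refine ⟨P, ?_, ?_⟩
  · rintro rfl
    rw [map_zero] at hP
    exact hq0 (Subtype.ext hP.symm)
  · have h4 : aeval t q = aeval t q.divX * t + (q.coeff 0 : L) := by
      conv_lhs => rw [← divX_mul_X_add q]
      rw [map_add, map_mul, aeval_X, aeval_C]
      rfl
    rw [hq] at h4
    have h5 : (q.coeff 0 : L) = t * (- aeval t q.divX) := by linear_combination -h4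
    rw [hP, h5]
    refine nonunits_mul ht (O.neg_mem _ ?_)
    rw [aeval_eq_sum_range]
    refine sum_mem fun i _ => ?_
    rw [Algebra.smul_def]
    exact O.mul_mem _ _ (hcoefO _) (pow_mem (nonunits_mem ht) i)

/-- a polynomial with simple root modulo the maximal ideal -/
theorem exists_sep_poly [CharZero E] (O : ValuationSubring L)
    (hE : ∀ a : E, algebraMap E L a ∈ O) (f : L)
    (h : ∃ P : E[X], P ≠ 0 ∧ aeval f P ∈ O.nonunits) :
    ∃ P : E[X], aeval f P ∈ O.nonunits ∧ aeval f (derivative P) ∉ O.nonunits := by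
  classical
  have hex : ∃ n : ℕ, ∃ P : E[X], P ≠ 0 ∧ aeval f P ∈ O.nonunits ∧ P.natDegree = n := by
    obtain ⟨P, h1, h2⟩ := h
    exact ⟨_, P, h1, h2, rfl⟩
  obtain ⟨P, h1, h2, h3⟩ := Nat.find_spec hex
  refine ⟨P, h2, fun h4 => ?_⟩
  have hdeg : P.natDegree ≠ 0 := by
    intro h0
    rw [eq_C_of_natDegree_eq_zero h0, aeval_C] at h2
    refine const_notMem_nonunits hE ?_ h2
    intro h5
    apply h1
    rw [eq_C_of_natDegree_eq_zero h0, h5, map_zero]
  have hd0 : derivative P ≠ 0 := by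
    intro h5
    exact hdeg (derivative_eq_zero.1 h5)
  have h6 := Nat.find_min' hex ⟨derivative P, hd0, h4, rfl⟩
  have h7 : (derivative P).natDegree < P.natDegree := natDegree_derivative_lt hdeg
  rw [h3] at h7
  omega

theorem deriv_mem [CharZero E] (O : ValuationSubring L) (hE : ∀ a : E, algebraMap E L a ∈ O)
    (t : L) (ht : IsUnif O t)
    (hres : ∀ f ∈ O, ∃ P : E[X], P ≠ 0 ∧ aeval f P ∈ O.nonunits)
    (D : Derivation E L L) (hDt : D t ≠ 0) (x : L) (hx0 : x ≠ 0)
    (hbd : ∃ M : ℕ, ∀ f ∈ O, (x⁻¹) ^ M * D f ∈ O) (f : L) (hf : f ∈ O) : D f / D t ∈ O := by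
  -- a power of `t` bounds the denominators
  have hbd2 : ∃ M : ℕ, ∀ f ∈ O, t ^ M * (D f / D t) ∈ O := by
    obtain ⟨M, hM⟩ := hbd
    obtain ⟨m, hm⟩ := ht.exists_pow ht.ne ht.inv ((x⁻¹ ^ M)⁻¹ * (D t)⁻¹)
    refine ⟨m, fun f hf => ?_⟩
    have h1 : t ^ m * (D f / D t) = (t ^ m * ((x⁻¹ ^ M)⁻¹ * (D t)⁻¹)) * (x⁻¹ ^ M * D f) := by
      have h2 : (x⁻¹ ^ M) ≠ 0 := pow_ne_zero _ (inv_ne_zero hx0)
      field_simp
    rw [h1]
    exact O.mul_mem _ _ (hm m le_rfl) (hM f hf)
  obtain ⟨M, hM⟩ := hbd2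
  have key : ∀ M : ℕ, (∀ f ∈ O, t ^ M * (D f / D t) ∈ O) → ∀ f ∈ O, D f / D t ∈ O := by
    intro M
    induction M with
    | zero =>
      intro h f hf
      have h1 := h f hf
      rwa [pow_zero, one_mul] at h1
    | succ M ih =>
      intro h
      apply ih
      intro f hf
      obtain ⟨P, hP1, hP2⟩ := exists_sep_poly O hE f (hres f hf)
      obtain ⟨g, hg, hPg⟩ := ht.pow_of_nonunit hP1
      have h1 := congrArg D hPg
      rw [Derivation.map_aeval, Derivation.leibniz, smul_eq_mul, smul_eq_mul, smul_eq_mul] at h1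
      have hP0 : aeval f (derivative P) ≠ 0 := by
        intro h0
        rw [h0] at hP2
        exact hP2 (zero_nonunits O)
      have h2 : t ^ M * (D f / D t) =
          (aeval f (derivative P))⁻¹ * (t ^ M * g + t ^ (M + 1) * (D g / D t)) := by
        rw [eq_inv_mul_iff_mul_eq₀ hP0]
        field_simp
        linear_combination t ^ M * h1
      rw [h2]
      exact O.mul_mem _ _ (inv_mem_of_notMem_nonunits hP2)
        (O.add_mem _ _ (O.mul_mem _ _ (pow_mem ht.mem M) hg) (h g hg))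
  exact key M hM f hf

end

end Pool.Agent.H928R2.Inv
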