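import Pool.Agent.H928R2.Inv3

/-!
# The ramification index at a fixed place is one
-/

set_option autoImplicit false

namespace Pool.Agent.H928R2.Inv

open Polynomial IntermediateField

section
variable {L : Type*} [Field L]

theorem unit_inj {O : ValuationSubring L} {t : L} (ht : IsUnif O t) {u v : L} {i j : ℤ}
    (hu : u ∈ O) (hu' : u⁻¹ ∈ O) (hu0 : u ≠ 0) (hv : v ∈ O) (hv' : v⁻¹ ∈ O) (hv0 : v ≠ 0)
    (h : u * t ^ i = v * t ^ j) : i = j := by
  have key : ∀ {u v : L} {i j : ℤ}, u ∈ O → v⁻¹ ∈ O → u ≠ 0 → v ≠ 0 →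
      u * t ^ i = v * t ^ j → ¬ j < i := by
    intro u v i j hu hv' hu0 hv0 h hij
    have h1 : t⁻¹ = (v⁻¹ * u) * t ^ (i - j - 1) := by
      have h2 : t ^ (i - j - 1) = t ^ i * (t ^ j)⁻¹ * t⁻¹ := by
        rw [zpow_sub_one₀ ht.ne, zpow_sub₀ ht.ne, div_eq_mul_inv]
      rw [h2]
      have h3 : (v⁻¹ * u) * (t ^ i * (t ^ j)⁻¹ * t⁻¹) = v⁻¹ * (u * t ^ i) * (t ^ j)⁻¹ * t⁻¹ := by
        ring
      rw [h3, h]
      have h4 : t ^ j ≠ 0 := zpow_ne_zero _ ht.ne
      field_simp
    apply ht.inv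
    rw [h1]
    exact mem_of_unit_mul (O.mul_mem _ _ hv' hu) ht.mem _ (by omega)
  rcases lt_trichotomy i j with h1 | h1 | h1
  · exact absurd h1 (key hv hu' hv0 hu0 h.symm)
  · exact h1
  · exact absurd h1 (key hu hv' hu0 hv0 h)

end

section
variable {E L : Type*} [Field E] [CharZero E] [Field L] [Algebra E L]

theorem ram_eq_one (O : ValuationSubring L) (hE : ∀ a : E, algebraMap E L a ∈ O)
    (t : L) (ht : IsUnif O t)
    (hres : ∀ f ∈ O, ∃ P : E[X], P ≠ 0 ∧ aeval f P ∈ O.nonunits)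
    (D : Derivation E L L) (hDt : D t ≠ 0) (hder : ∀ f ∈ O, D f / D t ∈ O)
    (Φ : L →ₐ[E] L) (hΦ : ∀ f, Φ f ∈ O ↔ f ∈ O) (c : E) (hc : c ≠ 0)
    (hD : ∀ f, D (Φ f) = algebraMap E L c * Φ (D f))
    (hpow : ∀ a : ℕ, 0 < a → ∀ N : ℕ, 2 ≤ N → c ^ a ≠ N) :
    ∃ u, u ∈ O ∧ u⁻¹ ∈ O ∧ Φ t = u * t := by
  have hΦn : ∀ f, f ∈ O.nonunits → Φ f ∈ O.nonunits := by
    intro f hf
    rw [ValuationSubring.mem_nonunits_iff_or] at hf ⊢
    rcases hf with h | h
    · left
      rw [h, map_zero]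
    · right
      rw [← map_inv₀, hΦ]
      exact h
  have hΦt0 : Φ t ≠ 0 := (map_ne_zero Φ).2 ht.ne
  obtain ⟨e, u, hu, hui, h1⟩ := ht.fac (Φ t) hΦt0
  obtain ⟨a, w, hw, hwi, h2⟩ := ht.fac (D t) hDt
  have hu0 : u ≠ 0 := by
    rintro rfl
    rw [zero_mul] at h1
    exact hΦt0 h1
  have hw0 : w ≠ 0 := by
    rintro rfl
    rw [zero_mul] at h2
    exact hDt h2
  have he : 1 ≤ e := by
    by_contra hcon
    refine notMem_nonunits_of_inv hΦt0 ?_ (hΦn t ht.nonunit)
    rw [h1, mul_inv, ← zpow_neg]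
    exact mem_of_unit_mul hui ht.mem _ (by omega)
  obtain ⟨n, rfl⟩ : ∃ n : ℕ, e = n := ⟨e.toNat, by omega⟩
  have hn : 1 ≤ n := by exact_mod_cast he
  by_cases hn1 : n = 1
  · refine ⟨u, hu, hui, ?_⟩
    rw [h1, hn1]
    simp
  exfalso
  -- the main relation
  have hs : D u / D t ∈ O := hder u hu
  set s := D u / D t with hsdef
  have hDu : D u = s * D t := by
    rw [hsdef, div_mul_cancel₀ _ hDt]
  have h3 : D (Φ t) = t ^ (n - 1) * D t * (n * u + t * s) := by
    rw [h1, zpow_natCast, Derivation.leibniz, Derivation.leibniz_pow, smul_eq_mul, smul_eq_mul,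
      hDu, nsmul_eq_mul, smul_eq_mul]
    obtain ⟨m, rfl⟩ : ∃ m, n = m + 1 := ⟨n - 1, by omega⟩
    rw [Nat.add_sub_cancel]
    ring
  have hz : (n * u + t * s : L) ∉ O.nonunits := by
    intro hmem
    have h4 : (n * u : L) ∈ O.nonunits := by
      have h5 := O.nonunits.sub_mem hmem (nonunits_mul ht.nonunit hs)
      rwa [add_sub_cancel_right] at h5
    have h6 : (n : L) = (n * u) * u⁻¹ := by
      rw [mul_assoc, mul_inv_cancel₀ hu0, mul_one]
    have h7 : (n : L) ∈ O.nonunits := by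
      rw [h6]
      exact nonunits_mul h4 hui
    have h8 : (n : L) = algebraMap E L (n : E) := by rw [map_natCast]
    rw [h8] at h7
    exact const_notMem_nonunits hE (Nat.cast_ne_zero.2 (by omega)) h7
  have hzO : (n * u + t * s : L) ∈ O := by
    refine O.add_mem _ _ (O.mul_mem _ _ ?_ hu) (O.mul_mem _ _ ht.mem hs)
    exact natCast_mem O n
  have hz0 : (n * u + t * s : L) ≠ 0 := by
    intro h0
    rw [h0] at hz
    exact hz (zero_nonunits O)
  have hcL : algebraMap E L c ≠ 0 := (map_ne_zero (algebraMap E L)).2 hc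
  have hΦw0 : Φ w ≠ 0 := (map_ne_zero Φ).2 hw0
  have h4 : (w * (n * u + t * s)) * t ^ ((n : ℤ) - 1 + a) =
      (algebraMap E L c * Φ w * u ^ a) * t ^ ((n : ℤ) * a) := by
    have h5 := hD t
    rw [h3, h2, map_mul, map_zpow₀, h1, mul_zpow, ← zpow_mul] at h5
    have h6 : t ^ ((n : ℤ) - 1 + a) = t ^ (n - 1) * t ^ a := by
      rw [zpow_add₀ ht.ne]
      congr 1
      rw [← zpow_natCast]
      congr 1
      omega
    rw [h6]
    linear_combination h5
  have h7 : (n : ℤ) - 1 + a = n * a := by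
    refine unit_inj ht ?_ ?_ (mul_ne_zero hw0 hz0) ?_ ?_ ?_ h4
    · exact O.mul_mem _ _ hw hzO
    · rw [mul_inv]
      exact O.mul_mem _ _ hwi (inv_mem_of_notMem_nonunits hz)
    · refine O.mul_mem _ _ (O.mul_mem _ _ (hE c) ((hΦ w).2 hw)) ?_
      rcases Int.eq_nat_or_neg a with ⟨m, rfl | rfl⟩
      · rw [zpow_natCast]; exact pow_mem hu m
      · rw [zpow_neg, ← inv_zpow, zpow_natCast]; exact pow_mem hui m
    · rw [mul_inv, mul_inv, ← map_inv₀, ← map_inv₀]
      refine O.mul_mem _ _ (O.mul_mem _ _ (hE _) ((hΦ _).2 hwi)) ?_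
      rcases Int.eq_nat_or_neg a with ⟨m, rfl | rfl⟩
      · rw [zpow_natCast, ← inv_pow]; exact pow_mem hui m
      · rw [zpow_neg, inv_inv, zpow_natCast]; exact pow_mem hu m
    · exact mul_ne_zero (mul_ne_zero hcL hΦw0) (zpow_ne_zero _ hu0)
  have ha : a = 1 := by
    have h8 : ((n : ℤ) - 1) * (a - 1) = 0 := by linarith
    rcases mul_eq_zero.1 h8 with h9 | h9
    · exact absurd (by omega : n = 1) hn1
    · omega
  subst ha
  -- residues
  have h9 : w * (n * u + t * s) = algebraMap E L c * Φ w * u := by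
    have h10 := h4
    rw [h7, mul_one, zpow_one] at h10
    exact mul_right_cancel₀ (zpow_ne_zero _ ht.ne) h10
  obtain ⟨γ, hγ⟩ : ∃ γ : E, γ = (n : E) / c := ⟨_, rfl⟩
  have hγ0 : γ ≠ 0 := by
    rw [hγ]
    exact div_ne_zero (Nat.cast_ne_zero.2 (by omega)) hc
  have h11 : Φ w - algebraMap E L γ * w ∈ O.nonunits := by
    have h12 : Φ w - algebraMap E L γ * w =
        t * ((algebraMap E L c)⁻¹ * u⁻¹ * (w * s)) := by
      rw [hγ, map_div₀, map_natCast]
      have h13 : Φ w = (algebraMap E L c)⁻¹ * u⁻¹ * (w * (n * u + t * s)) := by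
        rw [h9]
        field_simp
      rw [h13]
      field_simp
      ring
    rw [h12]
    refine nonunits_mul ht.nonunit (O.mul_mem _ _ (O.mul_mem _ _ ?_ hui) (O.mul_mem _ _ hw hs))
    rw [← map_inv₀]
    exact hE _
  -- all `γ ^ i * w` are roots of the same polynomial modulo the maximal ideal
  have h14 : ∀ i : ℕ, (Φ^[i] w ∈ O) ∧ Φ^[i] w - algebraMap E L (γ ^ i) * w ∈ O.nonunits := by
    intro i
    induction i with
    | zero =>
      refine ⟨hw, ?_⟩
      rw [Function.iterate_zero, id, pow_zero, map_one, one_mul, sub_self]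
      exact zero_nonunits O
    | succ i ih =>
      rw [Function.iterate_succ_apply']
      refine ⟨(hΦ _).2 ih.1, ?_⟩
      have h15 := hΦn _ ih.2
      rw [map_sub, map_mul, AlgHom.commutes] at h15
      have h16 := O.nonunits.add_mem h15
        (nonunits_mul h11 (hE (γ ^ i)))
      have h17 : Φ (Φ^[i] w) - algebraMap E L (γ ^ i) * Φ w +
          (Φ w - algebraMap E L γ * w) * algebraMap E L (γ ^ i) =
          Φ (Φ^[i] w) - algebraMap E L (γ ^ (i + 1)) * w := by
        rw [pow_succ, map_mul]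
        ring
      rwa [h17] at h16
  obtain ⟨P, hP0, hPw⟩ := hres w hw
  let κ := IsLocalRing.ResidueField O
  let ρ : O →+* κ := IsLocalRing.residue O
  let g : E →+* κ := ρ.comp ((algebraMap E L).codRestrict O.toSubring hE)
  have hρ : ∀ y : O, ρ y = 0 ↔ (y : L) ∈ O.nonunits := by
    intro y
    rw [IsLocalRing.residue_eq_zero_iff, ValuationSubring.coe_mem_nonunits_iff]
  have hev : ∀ (y : O) (Q : E[X]), eval₂ g (ρ y) Q = ρ ⟨aeval (y : L) Q, aeval_mem hE y.2 Q⟩ := by
    intro y Q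
    have h18 : (⟨aeval (y : L) Q, aeval_mem hE y.2 Q⟩ : O) =
        eval₂ ((algebraMap E L).codRestrict O.toSubring hE) y Q := by
      apply Subtype.ext
      show aeval (y : L) Q = O.subtype (eval₂ ((algebraMap E L).codRestrict O.toSubring hE) y Q)
      rw [hom_eval₂]
      rfl
    rw [h18, hom_eval₂]
  let z : ℕ → κ := fun i => g (γ ^ i) * ρ ⟨w, hw⟩
  have hz1 : ∀ i, z i = ρ ⟨Φ^[i] w, (h14 i).1⟩ := by
    intro i
    symm
    rw [← sub_eq_zero]
    have h19 : ρ ⟨Φ^[i] w, (h14 i).1⟩ - z i =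
        ρ (⟨Φ^[i] w, (h14 i).1⟩ -
          ((algebraMap E L).codRestrict O.toSubring hE (γ ^ i)) * ⟨w, hw⟩) := by
      rw [map_sub, map_mul]
      rfl
    rw [h19, hρ]
    exact (h14 i).2
  have hroot : ∀ i, eval₂ g (z i) P = 0 := by
    intro i
    rw [hz1, hev, hρ]
    show aeval (Φ^[i] w) P ∈ O.nonunits
    have h20 : ∀ i, aeval (Φ^[i] w) P ∈ O.nonunits := by
      intro i
      induction i with
      | zero => exact hPw
      | succ i ih =>
        rw [Function.iterate_succ_apply', aeval_algHom_apply]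
        exact hΦn _ ih
    exact h20 i
  have hPm : P.map g ≠ 0 := (Polynomial.map_ne_zero_iff g.injective).2 hP0
  have hfin : Set.Finite (Set.range z) := by
    classical
    refine (Finset.finite_toSet (P.map g).roots.toFinset).subset ?_
    rintro _ ⟨i, rfl⟩
    rw [Finset.mem_coe, Multiset.mem_toFinset, mem_roots hPm, IsRoot, eval_map]
    exact hroot i
  have hninj : ¬ Function.Injective z := by
    intro hinj
    exact Set.infinite_range_of_injective hinj hfin
  rw [Function.not_injective_iff] at hninj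
  obtain ⟨i, j, hij, hne⟩ := hninj
  have hwρ : ρ ⟨w, hw⟩ ≠ 0 := by
    rw [Ne, hρ]
    exact notMem_nonunits_of_inv hw0 hwi
  have key : ∀ i j : ℕ, i < j → z i = z j → False := by
    intro i j hlt hij
    have h21 : g (γ ^ i) = g (γ ^ j) := mul_right_cancel₀ hwρ hij
    have h22 : γ ^ i = γ ^ j := g.injective h21
    obtain ⟨m, rfl⟩ : ∃ m, j = i + m := ⟨j - i, by omega⟩
    have h23 : γ ^ m = 1 := by
      have h24 : γ ^ i * γ ^ m = γ ^ i * 1 := by rw [← pow_add, ← h22, mul_one]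
      exact mul_left_cancel₀ (pow_ne_zero _ hγ0) h24
    rw [hγ, div_pow, div_eq_one_iff_eq (pow_ne_zero _ hc)] at h23
    refine hpow m (by omega) (n ^ m) ?_ ?_
    · calc 2 ≤ n := by omega
        _ = n ^ 1 := (pow_one n).symm
        _ ≤ n ^ m := Nat.pow_le_pow_right (by omega) (by omega)
    · rw [← h23]
      push_cast
      rfl
  rcases lt_or_gt_of_ne hne with hlt | hlt
  · exact key i j hlt hij
  · exact key j i hlt hij.symm

end

end Pool.Agent.H928R2.Inv
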