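import Pool.Agent.H928R2.Inv4

/-!
# Nakayama: an unramified, residually trivial place with a unique extension
-/

set_option autoImplicit false

namespace Pool.Agent.H928R2.Inv

open Polynomial

theorem IsUnif.isDVR {L : Type*} [Field L] {O : ValuationSubring L} {t : L} (ht : IsUnif O t) :
    IsDiscreteValuationRing O := by
  apply IsDiscreteValuationRing.ofHasUnitMulPowIrreducibleFactorization
  have hunit : ∀ u : O, (u : L)⁻¹ ∈ O → (u : L) ≠ 0 → IsUnit u := by
    intro u hu hu0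
    refine IsUnit.of_mul_eq_one ⟨_, hu⟩ (Subtype.ext ?_)
    show (u : L) * (u : L)⁻¹ = 1
    exact mul_inv_cancel₀ hu0
  have hfac : ∀ x : O, x ≠ 0 → ∃ n : ℕ, Associated ((⟨t, ht.mem⟩ : O) ^ n) x := by
    intro x hx
    have hxL : (x : L) ≠ 0 := fun h => hx (Subtype.ext h)
    obtain ⟨j, u, hu, hui, h1⟩ := ht.fac x hxL
    have hu0 : u ≠ 0 := by
      rintro rfl
      rw [zero_mul] at h1
      exact hxL h1
    have hj : 0 ≤ j := by
      by_contra hcon
      have h2 : t⁻¹ = (u⁻¹ * x) * t ^ (-j - 1) := by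
        rw [h1, zpow_sub_one₀ ht.ne, zpow_neg]
        have h3 : t ^ j ≠ 0 := zpow_ne_zero _ ht.ne
        field_simp
      apply ht.inv
      rw [h2]
      exact mem_of_unit_mul (O.mul_mem _ _ hui x.2) ht.mem _ (by omega)
    obtain ⟨n, rfl⟩ := Int.eq_ofNat_of_zero_le hj
    have hU : IsUnit (⟨u, hu⟩ : O) := hunit _ hui hu0
    refine ⟨n, hU.unit, Subtype.ext ?_⟩
    show t ^ n * u = x
    rw [h1, zpow_natCast, mul_comm]
  refine ⟨⟨t, ht.mem⟩, ?_, fun {x} hx => hfac x hx⟩
  constructor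
  · intro h
    obtain ⟨v, hv⟩ := h
    apply ht.inv
    have h1 : (t : L) * ((v⁻¹ : Oˣ) : O) = 1 := by
      have h2 : (⟨t, ht.mem⟩ : O) * ((v⁻¹ : Oˣ) : O) = 1 := by rw [← hv, Units.mul_inv]
      exact congrArg Subtype.val h2
    rw [inv_eq_of_mul_eq_one_right h1]
    exact ((v⁻¹ : Oˣ) : O).2
  · intro a b hab
    have ha0 : a ≠ 0 := by
      rintro rfl
      rw [zero_mul] at hab
      exact ht.ne (congrArg Subtype.val hab)
    have hb0 : b ≠ 0 := by
      rintro rfl
      rw [mul_zero] at hab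
      exact ht.ne (congrArg Subtype.val hab)
    obtain ⟨i, u, hu⟩ := hfac a ha0
    obtain ⟨j, v, hv⟩ := hfac b hb0
    have huv : (u : O) * v ≠ 0 := (u * v).ne_zero
    have h1 : (1 : L) * t ^ (1 : ℤ) = ((u : O) * (v : O) : O) * t ^ ((i + j : ℕ) : ℤ) := by
      rw [zpow_natCast, zpow_one, one_mul]
      have h2 := congrArg Subtype.val hab
      rw [← hu, ← hv] at h2
      have h3 : t = (t ^ i * (u : O)) * (t ^ j * (v : O)) := h2
      rw [pow_add]
      have h4 : (((u : O) * (v : O) : O) : L) = (u : O) * (v : O) := rfl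
      rw [h4]
      linear_combination h3
    have h5 := unit_inj ht (one_mem O) (by rw [inv_one]; exact one_mem O) one_ne_zero
      ((u : O) * (v : O) : O).2 (by
        have h6 : (((u : O) * (v : O) : O) : L)⁻¹ = (((u * v)⁻¹ : Oˣ) : O) := by
          apply inv_eq_of_mul_eq_one_right
          have h7 : ((u : O) * (v : O)) * (((u * v)⁻¹ : Oˣ) : O) = 1 := by
            rw [← Units.val_mul, Units.mul_inv]
          exact congrArg Subtype.val h7
        rw [h6]
        exact (((u * v)⁻¹ : Oˣ) : O).2) (fun h => huv (Subtype.ext h)) h1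
    have h8 : i + j = 1 := by exact_mod_cast h5.symm
    rcases Nat.eq_zero_or_pos i with hi | hi
    · left
      rw [← hu, hi, pow_zero, one_mul]
      exact u.isUnit
    · right
      have hj : j = 0 := by omega
      rw [← hv, hj, pow_zero, one_mul]
      exact v.isUnit

theorem surj_of_unique {L₁ L₂ : Type*} [Field L₁] [Field L₂] [Algebra L₁ L₂]
    [FiniteDimensional L₁ L₂] [CharZero L₁] (O₁ : ValuationSubring L₁) (O₂ : ValuationSubring L₂)
    (t : L₁) (ht : IsUnif O₁ t)
    (hcomap : ∀ f : L₁, algebraMap L₁ L₂ f ∈ O₂ ↔ f ∈ O₁)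
    (huniq : ∀ O' : ValuationSubring L₂, (∀ f : L₁, algebraMap L₁ L₂ f ∈ O' ↔ f ∈ O₁) → O' = O₂)
    (hmaxO : ∀ O' : ValuationSubring L₁, O₁ ≤ O' → O' = O₁ ∨ O' = ⊤)
    (hres : ∀ f ∈ O₂, ∃ g ∈ O₁, f - algebraMap L₁ L₂ g ∈ O₂.nonunits)
    (hmax : ∀ f ∈ O₂.nonunits, ∃ g ∈ O₂, f = algebraMap L₁ L₂ t * g) :
    Function.Surjective (algebraMap L₁ L₂) := by
  have hdvr : IsDiscreteValuationRing O₁ := ht.isDVR
  let alg : Algebra O₁ L₂ := ((algebraMap L₁ L₂).comp O₁.subtype).toAlgebra
  have halg : ∀ a : O₁, algebraMap O₁ L₂ a = algebraMap L₁ L₂ (a : L₁) := fun _ => rfl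
  have htower : IsScalarTower O₁ L₁ L₂ := IsScalarTower.of_algebraMap_eq (fun _ => rfl)
  have hfinB : Module.Finite O₁ (integralClosure O₁ L₂) :=
    IsIntegralClosure.finite O₁ L₁ L₂ (integralClosure O₁ L₂)
  have hVint : ∀ (V : ValuationSubring L₂) (A : Type _) [CommRing A] [Algebra A L₂] (y : L₂),
      (∀ a : A, algebraMap A L₂ a ∈ V) → IsIntegral A y → y ∈ V := by
    intro V A _ _ y hV hy
    let g : A →+* V := (algebraMap A L₂).codRestrict V.toSubring hV
    obtain ⟨p, hp, hpb⟩ := hy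
    have h1 : IsIntegral V y := by
      refine ⟨p.map g, hp.map g, ?_⟩
      rw [eval₂_map]
      exact hpb
    obtain ⟨z, hz⟩ := IsIntegrallyClosed.isIntegral_iff.1 h1
    rw [← hz]
    exact z.2
  have hBO : ∀ y : L₂, y ∈ integralClosure O₁ L₂ ↔ y ∈ O₂ := by
    intro y
    constructor
    · intro hy
      exact hVint O₂ O₁ y (fun a => (hcomap a).2 a.2) hy
    · intro hy
      by_contra hcon
      have hcon' : y ∉ (integralClosure O₁ L₂).toSubring := hcon
      have hic : IsIntegrallyClosedIn (integralClosure O₁ L₂).toSubring L₂ :=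
        inferInstanceAs (IsIntegrallyClosedIn (integralClosure O₁ L₂) L₂)
      obtain ⟨V, hV, hyV⟩ := Subring.exists_le_valuationSubring_of_isIntegrallyClosedIn hcon'
      have h1 : O₁ ≤ V.comap (algebraMap L₁ L₂) := by
        intro f hf
        rw [ValuationSubring.mem_comap]
        apply hV
        exact (integralClosure O₁ L₂).algebraMap_mem (⟨f, hf⟩ : O₁)
      rcases hmaxO _ h1 with h2 | h2
      · have h3 : V = O₂ := by
          apply huniq
          intro f
          rw [← ValuationSubring.mem_comap, h2]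
        rw [h3] at hyV
        exact hyV hy
      · apply hyV
        refine hVint V L₁ y (fun a => ?_) (Algebra.IsIntegral.isIntegral y)
        rw [← ValuationSubring.mem_comap, h2]
        exact ValuationSubring.mem_top _
  let N' : Submodule O₁ L₂ := Subalgebra.toSubmodule (integralClosure O₁ L₂)
  have hN' : N'.FG := Module.Finite.iff_fg.1 hfinB
  have hNN : N' ≤ Submodule.span O₁ {(1 : L₂)} ⊔ (IsLocalRing.maximalIdeal O₁) • N' := by
    intro f hf
    have hfO : f ∈ O₂ := (hBO f).1 hf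
    obtain ⟨g, hg, h1⟩ := hres f hfO
    obtain ⟨g', hg', h2⟩ := hmax _ h1
    have h3 : f = (⟨g, hg⟩ : O₁) • (1 : L₂) + (⟨t, ht.mem⟩ : O₁) • g' := by
      rw [Algebra.smul_def, Algebra.smul_def, halg, halg, mul_one, ← h2]
      ring
    rw [h3]
    refine Submodule.add_mem_sup (Submodule.smul_mem _ _ (Submodule.subset_span rfl)) ?_
    refine Submodule.smul_mem_smul ?_ ((hBO g').2 hg')
    rw [← ValuationSubring.coe_mem_nonunits_iff]
    exact ht.nonunit
  have hle := Submodule.le_of_le_smul_of_le_jacobson_bot hN'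
    (IsLocalRing.maximalIdeal_le_jacobson ⊥) hNN
  have hO₂ : ∀ y ∈ O₂, ∃ x : L₁, algebraMap L₁ L₂ x = y := by
    intro y hy
    have h1 := hle ((hBO y).2 hy : y ∈ N')
    rw [Submodule.mem_span_singleton] at h1
    obtain ⟨a, ha⟩ := h1
    refine ⟨a, ?_⟩
    rw [← ha, Algebra.smul_def, mul_one, halg]
  intro y
  rcases O₂.mem_or_inv_mem y with h | h
  · exact hO₂ y h
  · obtain ⟨x, hx⟩ := hO₂ _ h
    exact ⟨x⁻¹, by rw [map_inv₀, hx, inv_inv]⟩

end Pool.Agent.H928R2.Inv
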