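import Pool.Agent.H928R2.Inv5

/-!
# The abstract theorem
-/

set_option autoImplicit false

namespace Pool.Agent.H928R2.Inv

open Polynomial IntermediateField

section
variable {E L : Type*} [Field E] [Field L] [Algebra E L]

theorem algebraic_mem {O : ValuationSubring L} (hE : ∀ a : E, algebraMap E L a ∈ O) {x : L}
    (hx : IsAlgebraic E x) : x ∈ O := by
  let g : E →+* O := (algebraMap E L).codRestrict O.toSubring hE
  obtain ⟨p, hp, hpb⟩ := hx.isIntegral
  have h1 : IsIntegral O x := by
    refine ⟨p.map g, hp.map g, ?_⟩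
    rw [eval₂_map]
    exact hpb
  obtain ⟨z, hz⟩ := IsIntegrallyClosed.isIntegral_iff.1 h1
  rw [← hz]
  exact z.2

theorem exists_place (x : L) (hx : Transcendental E x) :
    ∃ O : ValuationSubring L, (∀ a : E, algebraMap E L a ∈ O) ∧ x ∉ O := by
  have hcon' : x ∉ (integralClosure E L).toSubring := fun h =>
    hx (IsIntegral.isAlgebraic h)
  have hic : IsIntegrallyClosedIn (integralClosure E L).toSubring L :=
    inferInstanceAs (IsIntegrallyClosedIn (integralClosure E L) L)
  obtain ⟨V, hV, hyV⟩ := Subring.exists_le_valuationSubring_of_isIntegrallyClosedIn hcon'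
  exact ⟨V, fun a => hV ((integralClosure E L).algebraMap_mem a), hyV⟩

/-- extension of a valuation ring along an endomorphism -/
theorem exists_ext (φ : L →+* L) (O : ValuationSubring L) :
    ∃ O' : ValuationSubring L, ∀ f, φ f ∈ O' ↔ f ∈ O := by
  let A : Subring L := O.toSubring.map φ
  let e : O →+* A := (φ.comp O.subtype).codRestrict A (fun x => ⟨x, x.2, rfl⟩)
  have he : Function.Surjective e := by
    rintro ⟨y, x, hx, rfl⟩
    exact ⟨⟨x, hx⟩, rfl⟩
  let I : Ideal A := (IsLocalRing.maximalIdeal O).map e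
  have hker : RingHom.ker e ≤ IsLocalRing.maximalIdeal O := by
    intro x hx
    rw [RingHom.mem_ker] at hx
    have h1 : φ (x : L) = 0 := congrArg Subtype.val hx
    have h2 : (x : L) = 0 := by
      rw [map_eq_zero] at h1
      exact h1
    have h3 : x = 0 := Subtype.ext h2
    rw [h3]
    exact Ideal.zero_mem _
  have hI : I ≠ ⊤ := by
    intro h
    have h1 : (1 : A) ∈ (IsLocalRing.maximalIdeal O).map e := by
      show (1 : A) ∈ I
      rw [h]; exact Submodule.mem_top
    rw [Ideal.mem_map_iff_of_surjective e he] at h1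
    obtain ⟨x, hx, hx1⟩ := h1
    have h2 : x - 1 ∈ IsLocalRing.maximalIdeal O := hker (by
      rw [RingHom.mem_ker, map_sub, hx1, map_one, sub_self])
    have h3 : (1 : O) ∈ IsLocalRing.maximalIdeal O := by
      have := Ideal.sub_mem _ hx h2
      rwa [sub_sub_cancel] at this
    exact (Ideal.ne_top_iff_one _).1 (IsLocalRing.maximalIdeal.isMaximal O).ne_top h3
  obtain ⟨B, hAB, hIB⟩ := Ideal.image_subset_nonunits_valuationSubring I hI
  have hmem : ∀ f ∈ O, φ f ∈ B := fun f hf => hAB ⟨f, hf, rfl⟩
  refine ⟨B, fun f => ⟨fun h => ?_, hmem f⟩⟩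
  by_contra hf
  have hf0 : f ≠ 0 := by
    rintro rfl
    exact hf O.zero_mem
  have h1 : f⁻¹ ∈ O.nonunits := by
    rw [ValuationSubring.mem_nonunits_iff_or, inv_inv]
    exact Or.inr hf
  have h2 : (⟨f⁻¹, nonunits_mem h1⟩ : O) ∈ IsLocalRing.maximalIdeal O := by
    rw [← ValuationSubring.coe_mem_nonunits_iff]
    exact h1
  have h3 : φ f⁻¹ ∈ B.nonunits := hIB ⟨e ⟨f⁻¹, nonunits_mem h1⟩, Ideal.mem_map_of_mem e h2, rfl⟩
  refine notMem_nonunits_of_inv ?_ ?_ h3
  · exact (_root_.map_ne_zero φ).2 (inv_ne_zero hf0)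
  · rw [map_inv₀, inv_inv]
    exact h

theorem deriv_ne_zero [CharZero E] (D : Derivation E L L) (hD0 : D ≠ 0) (t : L)
    (halg : Algebra.IsAlgebraic (IntermediateField.adjoin E {t}) L) : D t ≠ 0 := by
  intro hDt
  apply hD0
  -- the constants of `D` form an intermediate field
  have hinv : ∀ y : L, D y = 0 → D y⁻¹ = 0 := by
    intro y hy
    by_cases h0 : y = 0
    · rw [h0, inv_zero, map_zero]
    have h1 : D (y * y⁻¹) = 0 := by rw [mul_inv_cancel₀ h0, Derivation.map_one_eq_zero]
    rw [Derivation.leibniz, hy, smul_zero, add_zero, smul_eq_mul] at h1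
    exact (mul_eq_zero.1 h1).resolve_left h0
  have hK : ∀ a ∈ IntermediateField.adjoin E {t}, D a = 0 := by
    intro a ha
    induction ha using IntermediateField.adjoin_induction with
    | mem x hx =>
      rw [Set.mem_singleton_iff] at hx
      rw [hx]; exact hDt
    | algebraMap x => exact D.map_algebraMap x
    | add x y _ _ hx hy => rw [map_add, hx, hy, add_zero]
    | inv x _ hx => exact hinv x hx
    | mul x y _ _ hx hy => rw [Derivation.leibniz, hx, hy, smul_zero, smul_zero, add_zero]
  let D' : Derivation (IntermediateField.adjoin E {t}) L L :=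
    { toFun := D
      map_add' := map_add D
      map_smul' := by
        intro a y
        show D ((a : L) * y) = (a : L) * D y
        rw [Derivation.leibniz, hK a a.2, smul_zero, add_zero, smul_eq_mul]
      map_one_eq_zero' := D.map_one_eq_zero
      leibniz' := D.leibniz }
  have hD' : ∀ y, D' y = D y := fun _ => rfl
  ext y
  rw [Derivation.coe_zero, Pi.zero_apply, ← hD']
  have hy : IsAlgebraic (IntermediateField.adjoin E {t}) y := halg.isAlgebraic y
  have hsep : (minpoly (IntermediateField.adjoin E {t}) y).Separable :=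
    (minpoly.irreducible hy.isIntegral).separable
  have h1 := congrArg D' (minpoly.aeval (IntermediateField.adjoin E {t}) y)
  rw [Derivation.map_aeval, map_zero, smul_eq_mul] at h1
  rcases mul_eq_zero.1 h1 with h2 | h2
  · exact absurd h2 (hsep.aeval_derivative_ne_zero (minpoly.aeval _ _))
  · exact h2

theorem fd_of {L₁ L₂ : Type*} [Field L₁] [Field L₂] [Algebra L₁ L₂] [Algebra E L₂]
    (K0 : IntermediateField E L₂) (hK0 : ∀ a ∈ K0, ∃ d : L₁, algebraMap L₁ L₂ d = a)
    (hfin : Module.Finite K0 L₂) : Module.Finite L₁ L₂ := by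
  obtain ⟨s, hs⟩ := hfin.fg_top
  refine ⟨⟨s, ?_⟩⟩
  rw [eq_top_iff]
  intro y _
  have hy : y ∈ Submodule.span K0 (s : Set L₂) := by rw [hs]; exact Submodule.mem_top
  induction hy using Submodule.span_induction with
  | mem y hy => exact Submodule.subset_span hy
  | zero => exact Submodule.zero_mem _
  | add y z _ _ hy hz => exact Submodule.add_mem _ (hy trivial) (hz trivial)
  | smul a y _ hy =>
    obtain ⟨d, hd⟩ := hK0 a a.2
    have h1 : a • y = d • y := by
      rw [Algebra.smul_def d y, hd]
      rfl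
    rw [h1]
    exact Submodule.smul_mem _ _ (hy trivial)

end

end Pool.Agent.H928R2.Inv
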