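import Pool.Agent.H928R2.Inv6

/-!
# The abstract theorem: endomorphisms of affine curves commuting with a derivation
-/

set_option autoImplicit false

namespace Pool.Agent.H928R2.Inv

open Polynomial IntermediateField

section
variable {E L : Type*} [Field E] [Field L] [Algebra E L]

/-- a valuation ring containing `E`, as a subalgebra -/
def toSA (O : ValuationSubring L) (hE : ∀ a : E, algebraMap E L a ∈ O) : Subalgebra E L :=
  { O.toSubring with algebraMap_mem' := hE }

theorem mem_toSA (O : ValuationSubring L) (hE : ∀ a : E, algebraMap E L a ∈ O) (x : L) :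
    x ∈ toSA O hE ↔ x ∈ O := Iff.rfl

/-- the places of `L / E` which are not finite on `R` -/
def SR (R : Subalgebra E L) : Set (ValuationSubring L) :=
  {O | (∀ a : E, algebraMap E L a ∈ O) ∧ ∃ x ∈ R, x ∉ O}

theorem exists_gen (s : Set L) (O : ValuationSubring L)
    (hO : O ∈ SR (Algebra.adjoin E s)) : ∃ x ∈ s, x ∉ O := by
  obtain ⟨hE, x, hx, hxO⟩ := hO
  by_contra hcon
  push Not at hcon
  apply hxO
  have h2 : Algebra.adjoin E s ≤ toSA O hE := Algebra.adjoin_le hcon
  exact h2 hx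

theorem SR_finite [CharZero E]
    (Hfin : ∀ x : L, Transcendental E x → FiniteDimensional (IntermediateField.adjoin E {x}) L)
    (R : Subalgebra E L) (hR : R.FG) : (SR R).Finite := by
  obtain ⟨s, hs⟩ := hR
  have h1 : SR R ⊆ ⋃ x ∈ (s : Set L),
      {O : ValuationSubring L | (∀ a : E, algebraMap E L a ∈ O) ∧ x ∉ O} := by
    intro O hO
    rw [← hs] at hO
    obtain ⟨x, hx, hxO⟩ := exists_gen _ O hO
    simp only [Set.mem_iUnion]
    exact ⟨x, hx, hO.1, hxO⟩
  refine Set.Finite.subset (Set.Finite.biUnion s.finite_toSet fun x _ => ?_) h1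
  by_cases hx : IsAlgebraic E x
  · refine Set.Finite.subset Set.finite_empty ?_
    rintro O ⟨hE, hxO⟩
    exact hxO (algebraic_mem hE hx)
  · exact (places x hx (Hfin x hx)).1

/-- some power of `φ` fixes every place at infinity -/
theorem exists_pow_fix (R : Subalgebra E L) (hS : (SR R).Finite) (φ : L →ₐ[E] L)
    (hφR : ∀ x ∈ R, φ x ∈ R) :
    ∃ j : ℕ, 0 < j ∧ ∀ O ∈ SR R, ∀ f, (φ : L → L)^[j] f ∈ O ↔ f ∈ O := by
  classical
  have hext : ∀ O : SR R, ∃ O' : SR R, ∀ f, φ f ∈ O'.1 ↔ f ∈ O.1 := by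
    rintro ⟨O, hE, x, hx, hxO⟩
    obtain ⟨O', hO'⟩ := exists_ext (φ : L →+* L) O
    refine ⟨⟨O', fun a => ?_, φ x, hφR x hx, fun h => hxO ((hO' x).1 h)⟩, hO'⟩
    have h1 : algebraMap E L a = φ (algebraMap E L a) := (φ.commutes a).symm
    rw [h1]
    exact (hO' _).2 (hE a)
  choose G hG using hext
  have hinj : Function.Injective G := by
    intro O₁ O₂ h
    apply Subtype.ext
    apply SetLike.ext
    intro f
    rw [← hG O₁ f, h, hG O₂ f]
  have hfin : Finite (SR R) := hS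
  have hbij : Function.Bijective G := Finite.injective_iff_bijective.1 hinj
  let e : Equiv.Perm (SR R) := Equiv.ofBijective G hbij
  have hfo : IsOfFinOrder e := isOfFinOrder_of_finite e
  refine ⟨orderOf e, hfo.orderOf_pos, ?_⟩
  have key : ∀ (i : ℕ) (O : SR R) (f : L), (φ : L → L)^[i] f ∈ ((e ^ i) O).1 ↔ f ∈ O.1 := by
    intro i
    induction i with
    | zero => intro O f; rfl
    | succ i ih =>
      intro O f
      rw [Function.iterate_succ_apply', pow_succ', Equiv.Perm.mul_apply]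
      have h1 : e ((e ^ i) O) = G ((e ^ i) O) := rfl
      rw [h1, hG, ih]
  intro O hO f
  have h2 := key (orderOf e) ⟨O, hO⟩ f
  rw [pow_orderOf_eq_one] at h2
  exact h2

theorem res_surj (O : ValuationSubring L) (hE : ∀ a : E, algebraMap E L a ∈ O)
    (hres : ∀ f ∈ O, ∃ P : E[X], P ≠ 0 ∧ aeval f P ∈ O.nonunits)
    (Φ : L →ₐ[E] L) (hΦ : ∀ f, Φ f ∈ O ↔ f ∈ O) (f : L) (hf : f ∈ O) :
    ∃ g ∈ O, f - Φ g ∈ O.nonunits := by
  classical
  have hΦn : ∀ f, f ∈ O.nonunits ↔ Φ f ∈ O.nonunits := by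
    intro f
    rw [ValuationSubring.mem_nonunits_iff_or, ValuationSubring.mem_nonunits_iff_or,
      ← map_inv₀, hΦ, map_eq_zero]
  obtain ⟨P, hP0, hPf⟩ := hres f hf
  let κ := IsLocalRing.ResidueField O
  let ρ : O →+* κ := IsLocalRing.residue O
  let g : E →+* κ := ρ.comp ((algebraMap E L).codRestrict O.toSubring hE)
  have hρ : ∀ y : O, ρ y = 0 ↔ (y : L) ∈ O.nonunits := by
    intro y
    rw [IsLocalRing.residue_eq_zero_iff, ValuationSubring.coe_mem_nonunits_iff]
  have hev : ∀ (y : O) (Q : E[X]), eval₂ g (ρ y) Q = ρ ⟨aeval (y : L) Q, aeval_mem hE y.2 Q⟩ := by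
    intro y Q
    have h18 : (⟨aeval (y : L) Q, aeval_mem hE y.2 Q⟩ : O) =
        eval₂ ((algebraMap E L).codRestrict O.toSubring hE) y Q := by
      apply Subtype.ext
      show aeval (y : L) Q = O.subtype (eval₂ ((algebraMap E L).codRestrict O.toSubring hE) y Q)
      rw [hom_eval₂]
      rfl
    rw [h18, hom_eval₂]
  have hρs : Function.Surjective ρ := IsLocalRing.residue_surjective
  let T : Set κ := {y | eval₂ g y P = 0}
  have hPm : P.map g ≠ 0 := (Polynomial.map_ne_zero_iff g.injective).2 hP0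
  have hT : T.Finite := by
    refine (Finset.finite_toSet (P.map g).roots.toFinset).subset ?_
    intro y hy
    rw [Finset.mem_coe, Multiset.mem_toFinset, mem_roots hPm, IsRoot, eval_map]
    exact hy
  have hstep : ∀ y : T, ∃ z : T, ∀ a : O, ρ a = y.1 → ρ ⟨Φ a, (hΦ _).2 a.2⟩ = z.1 := by
    rintro ⟨y, hy⟩
    obtain ⟨a, rfl⟩ := hρs y
    refine ⟨⟨ρ ⟨Φ a, (hΦ _).2 a.2⟩, ?_⟩, ?_⟩
    · show eval₂ g _ P = 0
      rw [hev, hρ]
      show aeval (Φ a) P ∈ O.nonunits
      rw [aeval_algHom_apply, ← hΦn]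
      have h1 : eval₂ g (ρ a) P = 0 := hy
      rw [hev, hρ] at h1
      exact h1
    · intro b hb
      have h2 : ρ (b - a) = 0 := by rw [map_sub, hb, sub_self]
      rw [hρ] at h2
      have h3 : ρ (⟨Φ b, (hΦ _).2 b.2⟩ - ⟨Φ a, (hΦ _).2 a.2⟩) = 0 := by
        rw [hρ]
        show Φ b - Φ a ∈ O.nonunits
        rw [← map_sub, ← hΦn]
        exact h2
      rw [map_sub, sub_eq_zero] at h3
      exact h3
  choose Z hZ using hstep
  have hZinj : Function.Injective Z := by
    rintro ⟨y₁, hy₁⟩ ⟨y₂, hy₂⟩ h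
    obtain ⟨a, ha⟩ := hρs y₁
    obtain ⟨b, hb⟩ := hρs y₂
    have h1 := hZ ⟨y₁, hy₁⟩ a ha
    have h2 := hZ ⟨y₂, hy₂⟩ b hb
    rw [h, ← h2, ← sub_eq_zero, ← map_sub, hρ] at h1
    have h3 : Φ (a - b) ∈ O.nonunits := by
      rw [map_sub]
      exact h1
    rw [← hΦn] at h3
    have h4 : ρ (a - b) = 0 := by
      rw [hρ]
      exact h3
    rw [map_sub, sub_eq_zero, ha, hb] at h4
    exact Subtype.ext h4
  have hTf : Finite T := hT
  have hZs : Function.Surjective Z := (Finite.injective_iff_bijective.1 hZinj).2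
  have hfT : ρ ⟨f, hf⟩ ∈ T := by
    show eval₂ g _ P = 0
    rw [hev, hρ]
    exact hPf
  obtain ⟨y, hy⟩ := hZs ⟨_, hfT⟩
  obtain ⟨a, ha⟩ := hρs y.1
  have h5 := hZ y a ha
  rw [hy] at h5
  refine ⟨a, a.2, ?_⟩
  have h6 : ρ (⟨f, hf⟩ - ⟨Φ a, (hΦ _).2 a.2⟩) = 0 := by
    rw [map_sub, h5, sub_self]
  rw [hρ] at h6
  exact h6

theorem surj_abstract [CharZero E]
    (Hfin : ∀ x : L, Transcendental E x → FiniteDimensional (IntermediateField.adjoin E {x}) L)
    (R : Subalgebra E L) (hR : R.FG) (hRt : ∃ x ∈ R, Transcendental E x) (φ : L →ₐ[E] L)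
    (hφR : ∀ x ∈ R, φ x ∈ R) (D : Derivation E L L) (hD0 : D ≠ 0) (c : E) (hc : c ≠ 0)
    (hD : ∀ f, D (φ f) = algebraMap E L c * φ (D f))
    (hpow : ∀ a : ℕ, 0 < a → ∀ N : ℕ, 2 ≤ N → c ^ a ≠ N) : Function.Surjective φ := by
  obtain ⟨j, hj, hfix⟩ := exists_pow_fix R (SR_finite Hfin R hR) φ hφR
  -- the power
  let Φ : L →ₐ[E] L := φ ^ j
  have hΦi : ∀ f, Φ f = (φ : L → L)^[j] f := by
    intro f
    show (φ ^ j) f = _
    rw [AlgHom.coe_pow]
  have hΦR : ∀ x ∈ R, Φ x ∈ R := by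
    intro x hx
    rw [hΦi]
    have h1 : ∀ i : ℕ, (φ : L → L)^[i] x ∈ R := by
      intro i
      induction i with
      | zero => exact hx
      | succ i ih =>
        rw [Function.iterate_succ_apply']
        exact hφR _ ih
    exact h1 j
  have hDΦ : ∀ f, D (Φ f) = algebraMap E L (c ^ j) * Φ (D f) := by
    intro f
    have h1 : ∀ i : ℕ, D ((φ : L → L)^[i] f) = algebraMap E L (c ^ i) * (φ : L → L)^[i] (D f) := by
      intro i
      induction i with
      | zero => simp
      | succ i ih =>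
        rw [Function.iterate_succ_apply', Function.iterate_succ_apply', hD, ih, map_mul,
          AlgHom.commutes, pow_succ, map_mul]
        ring
    rw [hΦi, hΦi]
    exact h1 j
  have hpow' : ∀ a : ℕ, 0 < a → ∀ N : ℕ, 2 ≤ N → (c ^ j) ^ a ≠ N := by
    intro a ha N hN
    rw [← pow_mul]
    exact hpow (j * a) (Nat.mul_pos hj ha) N hN
  have hcj : c ^ j ≠ 0 := pow_ne_zero _ hc
  have hΦinj : Function.Injective Φ := Φ.injective
  -- a place at infinity
  obtain ⟨x, hxR, hx⟩ := hRt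
  obtain ⟨O, hE, hxO⟩ := exists_place x hx
  have hOS : O ∈ SR R := ⟨hE, x, hxR, hxO⟩
  have hΦO : ∀ f, Φ f ∈ O ↔ f ∈ O := by
    intro f
    rw [hΦi]
    exact hfix O hOS f
  obtain ⟨⟨t, ht⟩, hmaxO, hbd⟩ := (places x hx (Hfin x hx)).2 O hE hxO
  have hx0 : x ≠ 0 := fun h => hx (by rw [h]; exact isAlgebraic_zero)
  have Halg : ∀ x : L, Transcendental E x →
      Algebra.IsAlgebraic (IntermediateField.adjoin E {x}) L := by
    intro y hy
    have hf := Hfin y hy
    exact Algebra.IsAlgebraic.of_finite _ _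
  have hres := res_alg Halg O hE t ht.ne ht.nonunit
  have htt : Transcendental E t := by
    intro h
    apply ht.inv
    exact algebraic_mem hE h.inv
  have hDt : D t ≠ 0 := deriv_ne_zero D hD0 t (Halg t htt)
  have hder := deriv_mem O hE t ht hres D hDt x hx0 (hbd D)
  obtain ⟨u, hu, hui, hΦt⟩ := ram_eq_one O hE t ht hres D hDt hder Φ hΦO (c ^ j) hcj hDΦ hpow'
  have hsurj : Function.Surjective Φ := by
    let alg : Algebra L L := (Φ : L →+* L).toAlgebra
    have hfd : @Module.Finite L L _ _ alg.toModule := by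
      have hΦx : Transcendental E (Φ x) := by
        intro h
        exact hx ((isAlgebraic_algHom_iff Φ hΦinj).1 h)
      refine @fd_of E _ L L _ _ alg _ (IntermediateField.adjoin E {Φ x}) ?_ (Hfin _ hΦx)
      intro a ha
      have h1 : IntermediateField.adjoin E {Φ x} ≤ Φ.fieldRange := by
        rw [IntermediateField.adjoin_simple_le_iff]
        exact ⟨x, rfl⟩
      obtain ⟨d, hd⟩ := h1 ha
      exact ⟨d, hd⟩
    refine @surj_of_unique L L _ _ alg hfd (charZero_of_injective_algebraMap (algebraMap E L).injective) O O t ht hΦO ?_ hmaxO ?_ ?_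
    · intro O' hO'
      have hO'S : O' ∈ SR R := by
        refine ⟨fun a => ?_, Φ x, hΦR x hxR, fun h => hxO ((hO' x).1 h)⟩
        rw [← Φ.commutes a]
        exact (hO' _).2 (hE a)
      apply SetLike.ext
      intro f
      have h1 := hfix O' hO'S f
      rw [← hΦi] at h1
      rw [← h1]
      exact hO' f
    · intro f hf
      exact res_surj O hE hres Φ hΦO f hf
    · intro f hf
      obtain ⟨g, hg, hfg⟩ := ht.pow_of_nonunit hf
      refine ⟨u⁻¹ * g, O.mul_mem _ _ hui hg, ?_⟩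
      have hu0 : u ≠ 0 := by
        rintro rfl
        rw [zero_mul] at hΦt
        exact ht.ne ((map_eq_zero Φ).1 hΦt)
      show f = Φ t * (u⁻¹ * g)
      rw [hΦt, hfg]
      field_simp
  intro y
  obtain ⟨z, hz⟩ := hsurj y
  rw [hΦi] at hz
  obtain ⟨i, rfl⟩ : ∃ i, j = i + 1 := ⟨j - 1, by omega⟩
  rw [Function.iterate_succ_apply'] at hz
  exact ⟨_, hz⟩

end

end Pool.Agent.H928R2.Inv
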