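import Pool.Agent.H928R2.Inv7
import Pool.Agent.H922R2.K7

/-!
# The derivation attached to `n - 1` rational functions
-/

set_option autoImplicit false
set_option linter.unusedSectionVars false

open MvPolynomial

namespace Pool.Agent.H928R2.Inv

section Extend
open TrivSqZeroExt

variable {k A F : Type*} [CommRing k] [CommRing A] [IsDomain A] [Field F] [Algebra A F]
  [IsFractionRing A F] [Algebra k A] [Algebra k F] [IsScalarTower k A F]

theorem exists_extend (D : Derivation k A A) :
    ∃ D' : Derivation k F F, ∀ a, D' (algebraMap A F a) = algebraMap A F (D a) := by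
  let φ : A →ₐ[k] TrivSqZeroExt F F :=
    { toFun := fun a => inl (algebraMap A F a) + inr (algebraMap A F (D a))
      map_one' := by simp
      map_mul' := by
        intro a b
        ext
        · simp only [fst_add, fst_inl, fst_inr, fst_mul, map_mul, add_zero]
        · simp only [snd_add, snd_inl, snd_inr, snd_mul, fst_add, fst_inl, fst_inr, map_mul,
            Derivation.leibniz, smul_eq_mul, map_add, MulOpposite.smul_eq_mul_unop,
            MulOpposite.unop_op, zero_add, add_zero]
          ring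
      map_zero' := by simp
      map_add' := by
        intro a b
        ext
        · simp only [fst_add, fst_inl, fst_inr, map_add, add_zero]
        · simp only [snd_add, snd_inl, snd_inr, map_add, zero_add]
      commutes' := by
        intro c
        rw [algebraMap_eq_inl', ← IsScalarTower.algebraMap_apply k A F]
        simp }
  have hφ1 : ∀ a, (φ a).fst = algebraMap A F a := fun a => by
    change (inl (algebraMap A F a) + inr (algebraMap A F (D a)) : TrivSqZeroExt F F).fst = _
    simp only [fst_add, fst_inl, fst_inr, add_zero]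
  have hφ2 : ∀ a, (φ a).snd = algebraMap A F (D a) := fun a => by
    change (inl (algebraMap A F a) + inr (algebraMap A F (D a)) : TrivSqZeroExt F F).snd = _
    simp only [snd_add, snd_inl, snd_inr, zero_add]
  have hφ : ∀ s : nonZeroDivisors A, IsUnit (φ s) := by
    intro s
    rw [TrivSqZeroExt.isUnit_iff_isUnit_fst, hφ1, isUnit_iff_ne_zero]
    exact IsLocalization.to_map_ne_zero_of_mem_nonZeroDivisors F le_rfl s.2
  let ψ : F →ₐ[k] TrivSqZeroExt F F := IsLocalization.liftAlgHom (M := nonZeroDivisors A) (f := φ) hφ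
  have hψ : ∀ a, ψ (algebraMap A F a) = φ a := fun a => by
    simp [ψ]
  have hfst : ∀ z, (ψ z).fst = z := by
    intro z
    obtain ⟨a, b, hb, rfl⟩ := IsFractionRing.div_surjective (A := A) z
    have hb0 : algebraMap A F b ≠ 0 := IsLocalization.to_map_ne_zero_of_mem_nonZeroDivisors F le_rfl hb
    have h1 : ψ (algebraMap A F a / algebraMap A F b) * ψ (algebraMap A F b) = ψ (algebraMap A F a) := by
      rw [← map_mul, div_mul_cancel₀ _ hb0]
    have h2 := congrArg TrivSqZeroExt.fst h1
    rw [TrivSqZeroExt.fst_mul, hψ, hψ, hφ1, hφ1] at h2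
    rw [eq_div_iff hb0, h2]
  refine ⟨
    { toFun := fun z => (ψ z).snd
      map_add' := fun a b => by rw [map_add, snd_add]
      map_smul' := fun c a => by rw [map_smul, snd_smul]; rfl
      map_one_eq_zero' := by
        change (ψ 1).snd = 0
        rw [map_one, snd_one]
      leibniz' := fun a b => by
        change (ψ (a * b)).snd = a • (ψ b).snd + b • (ψ a).snd
        rw [map_mul, snd_mul, hfst, hfst]
        simp only [smul_eq_mul, MulOpposite.smul_eq_mul_unop, MulOpposite.unop_op]
        ring }, ?_⟩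
  intro a
  change (ψ (algebraMap A F a)).snd = _
  rw [hψ, hφ2]

end Extend

section

variable {k : Type*} [Field k] [CharZero k] {σ : Type*} [Fintype σ] [DecidableEq σ]

/-- the field of rational functions -/
abbrev RF (k : Type*) [Field k] (σ : Type*) : Type _ := FractionRing (MvPolynomial σ k)

/-- partial derivatives of rational functions -/
noncomputable def dL (j : σ) : Derivation k (RF k σ) (RF k σ) :=
  (exists_extend (A := MvPolynomial σ k) (F := RF k σ) (pderiv (R := k) j)).choose

theorem dL_coe (j : σ) (p : MvPolynomial σ k) :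
    dL j (algebraMap (MvPolynomial σ k) (RF k σ) p) =
      algebraMap (MvPolynomial σ k) (RF k σ) (pderiv j p) :=
  (exists_extend (A := MvPolynomial σ k) (F := RF k σ) (pderiv (R := k) j)).choose_spec p

theorem chain (F : σ → MvPolynomial σ k) (φ : RF k σ →ₐ[k] RF k σ)
    (hφ : ∀ p : MvPolynomial σ k, φ (algebraMap (MvPolynomial σ k) (RF k σ) p) =
      algebraMap (MvPolynomial σ k) (RF k σ) (aeval F p)) (j : σ)
    (g : RF k σ) :
    dL j (φ g) = ∑ l, φ (dL l g) * algebraMap (MvPolynomial σ k) (RF k σ) (pderiv j (F l)) := by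
  have h0 : ∀ p : MvPolynomial σ k, dL j (φ (algebraMap _ (RF k σ) p)) =
      ∑ l, φ (dL l (algebraMap _ (RF k σ) p)) *
        algebraMap (MvPolynomial σ k) (RF k σ) (pderiv j (F l)) := by
    intro p
    rw [hφ, dL_coe, Pool.Agent.H922R2.deriv_aeval, map_sum]
    refine Finset.sum_congr rfl fun l _ => ?_
    rw [map_mul, dL_coe, hφ]
  obtain ⟨a, b, hb, rfl⟩ := IsFractionRing.div_surjective (A := MvPolynomial σ k) g
  have hb0 : algebraMap _ (RF k σ) b ≠ 0 :=
    IsLocalization.to_map_ne_zero_of_mem_nonZeroDivisors (RF k σ) le_rfl hb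
  set A := algebraMap (MvPolynomial σ k) (RF k σ) a with hA
  set B := algebraMap (MvPolynomial σ k) (RF k σ) b with hB
  set g := A / B with hg
  have h1 : g * B = A := div_mul_cancel₀ _ hb0
  have h2 := h0 a
  rw [← hA, ← h1, map_mul, Derivation.leibniz, h0 b, ← hB] at h2
  have h3 : ∀ l, φ (dL l (g * B)) = φ g * φ (dL l B) + φ B * φ (dL l g) := by
    intro l
    rw [Derivation.leibniz, map_add, smul_eq_mul, smul_eq_mul, map_mul, map_mul]
  simp only [h3, add_mul, Finset.sum_add_distrib, smul_eq_mul] at h2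
  rw [Finset.mul_sum] at h2
  simp only [mul_assoc] at h2
  rw [add_right_inj, ← Finset.mul_sum] at h2
  exact mul_left_cancel₀ ((_root_.map_ne_zero φ).2 hb0) h2

/-- the derivation attached to a family of rational functions -/
noncomputable def DD (i₀ : σ) (h : σ → RF k σ) (f : RF k σ) : RF k σ :=
  (Matrix.of fun i j => dL j (Function.update h i₀ f i)).det

theorem DD_eq (i₀ : σ) (h : σ → RF k σ) (f : RF k σ) :
    DD i₀ h f = ((Matrix.of fun i j => dL j (h i)).updateRow i₀ (fun j => dL j f)).det := by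
  unfold DD
  congr 1
  ext i j
  by_cases hi : i = i₀
  · subst hi
    simp
  · simp [hi]

theorem DD_self (i₀ : σ) (h : σ → RF k σ) (i : σ) (hi : i ≠ i₀) : DD i₀ h (h i) = 0 := by
  unfold DD
  apply Matrix.det_zero_of_row_eq hi
  ext j
  simp [hi]

theorem DD_add (i₀ : σ) (h : σ → RF k σ) (f g : RF k σ) :
    DD i₀ h (f + g) = DD i₀ h f + DD i₀ h g := by
  rw [DD_eq, DD_eq, DD_eq, ← Matrix.det_updateRow_add]
  congr 2
  ext j
  simp

theorem DD_mul (i₀ : σ) (h : σ → RF k σ) (f g : RF k σ) :
    DD i₀ h (f * g) = f * DD i₀ h g + g * DD i₀ h f := by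
  rw [DD_eq, DD_eq, DD_eq, ← Matrix.det_updateRow_smul, ← Matrix.det_updateRow_smul,
    ← Matrix.det_updateRow_add]
  congr 2
  ext j
  simp [Derivation.leibniz]

theorem DD_const (i₀ : σ) (h : σ → RF k σ) (a : k) : DD i₀ h (algebraMap k _ a) = 0 := by
  rw [DD_eq]
  apply Matrix.det_eq_zero_of_row_eq_zero i₀
  intro j
  simp

theorem DD_one (i₀ : σ) (h : σ → RF k σ) : DD i₀ h 1 = 0 := by
  have := DD_const i₀ h 1
  rwa [map_one] at this

theorem DD_inv (i₀ : σ) (h : σ → RF k σ) (y : RF k σ) (hy : DD i₀ h y = 0) :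
    DD i₀ h y⁻¹ = 0 := by
  by_cases h0 : y = 0
  · rw [h0, inv_zero]
    rwa [h0] at hy
  have h1 : DD i₀ h (y * y⁻¹) = 0 := by rw [mul_inv_cancel₀ h0, DD_one]
  rw [DD_mul, hy, mul_zero, add_zero] at h1
  exact (mul_eq_zero.1 h1).resolve_left h0

theorem DD_E (i₀ : σ) (h : σ → RF k σ) (a : RF k σ)
    (ha : a ∈ IntermediateField.adjoin k (h '' {i₀}ᶜ)) : DD i₀ h a = 0 := by
  induction ha using IntermediateField.adjoin_induction with
  | mem x hx =>
    obtain ⟨i, hi, rfl⟩ := hx
    exact DD_self i₀ h i hi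
  | algebraMap x => exact DD_const i₀ h x
  | add x y _ _ hx hy => rw [DD_add, hx, hy, add_zero]
  | inv x _ hx => exact DD_inv i₀ h x hx
  | mul x y _ _ hx hy => rw [DD_mul, hx, hy, mul_zero, mul_zero, add_zero]

/-- the derivation over the field of invariants -/
noncomputable def DDer (i₀ : σ) (h : σ → RF k σ) :
    Derivation (IntermediateField.adjoin k (h '' {i₀}ᶜ)) (RF k σ) (RF k σ) where
  toFun := DD i₀ h
  map_add' := DD_add i₀ h
  map_smul' := by
    intro a y
    show DD i₀ h ((a : RF k σ) * y) = (a : RF k σ) * DD i₀ h y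
    rw [DD_mul, DD_E i₀ h a a.2, mul_zero, add_zero]
  map_one_eq_zero' := DD_one i₀ h
  leibniz' := DD_mul i₀ h

theorem DDer_apply (i₀ : σ) (h : σ → RF k σ) (f : RF k σ) : DDer i₀ h f = DD i₀ h f := rfl

/-- the transformation rule -/
theorem DD_map (i₀ : σ) (h : σ → RF k σ) (F : σ → MvPolynomial σ k) (φ : RF k σ →ₐ[k] RF k σ)
    (hφ : ∀ p : MvPolynomial σ k, φ (algebraMap (MvPolynomial σ k) (RF k σ) p) =
      algebraMap (MvPolynomial σ k) (RF k σ) (aeval F p))
    (hh : ∀ i, i ≠ i₀ → φ (h i) = h i) (c : k)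
    (hF : (Pool.Agent.H922R2.jac F).det = C c) (f : RF k σ) :
    DD i₀ h (φ f) = algebraMap k _ c * φ (DD i₀ h f) := by
  have h1 : (Matrix.of fun i j => dL j (Function.update h i₀ (φ f) i)) =
      φ.toRingHom.mapMatrix (Matrix.of fun i j => dL j (Function.update h i₀ f i)) *
      (algebraMap (MvPolynomial σ k) (RF k σ)).mapMatrix (Pool.Agent.H922R2.jac F) := by
    ext i j
    rw [Matrix.mul_apply, Matrix.of_apply]
    have h2 : Function.update h i₀ (φ f) i = φ (Function.update h i₀ f i) := by
      by_cases hi : i = i₀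
      · subst hi; simp
      · simp [hi, hh i hi]
    rw [h2, chain F φ hφ]
    rfl
  unfold DD
  rw [h1, Matrix.det_mul, ← RingHom.map_det, ← RingHom.map_det, hF, mul_comm]
  rfl

end

end Pool.Agent.H928R2.Inv
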