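import Pool.Agent.H928R2.Inv8

/-!
# Keller maps with many invariants
-/

set_option autoImplicit false
set_option linter.unusedSectionVars false
set_option linter.style.haveILetI false

open MvPolynomial

namespace Pool.Agent.H928R2.Inv

section

variable {k : Type*} [Field k] [CharZero k] {σ : Type*} [Fintype σ] [DecidableEq σ]

theorem indep_update (i₀ : σ) (h : σ → RF k σ)
    (hind : AlgebraicIndependent k (fun j : {j // j ≠ i₀} => h j)) (x : RF k σ)
    (hx : Transcendental (Algebra.adjoin k (h '' {i₀}ᶜ)) x) :
    AlgebraicIndependent k (Function.update h i₀ x) := by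
  rw [AlgebraicIndependent.iff_transcendental_adjoin_image i₀]
  have h1 : Function.update h i₀ x '' {i₀}ᶜ = h '' {i₀}ᶜ := by
    apply Set.image_congr
    intro i hi
    rw [Function.update_of_ne (by simpa using hi)]
  constructor
  · convert hind using 1
    funext j
    rw [Function.update_of_ne j.2]
  · rw [h1, Function.update_self]
    exact hx

theorem tb_X : IsTranscendenceBasis k
    (algebraMap (MvPolynomial σ k) (RF k σ) ∘ (X : σ → MvPolynomial σ k)) := by
  have : Algebra.IsAlgebraic (MvPolynomial σ k) (RF k σ) :=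
    IsLocalization.isAlgebraic _ (nonZeroDivisors (MvPolynomial σ k))
  exact (IsTranscendenceBasis.mvPolynomial σ k).algebraMap_comp

theorem isTB (g : σ → RF k σ) (hg : AlgebraicIndependent k g) : IsTranscendenceBasis k g := by
  apply hg.isTranscendenceBasis_of_lift_trdeg_le_of_finite
  rw [← (tb_X (k := k) (σ := σ)).lift_cardinalMk_eq_trdeg]

theorem transc_down (S : Set (RF k σ)) (x : RF k σ)
    (hx : Transcendental (IntermediateField.adjoin k S) x) :
    Transcendental (Algebra.adjoin k S) x := by
  intro halg
  apply hx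
  letI : Algebra (Algebra.adjoin k S) (IntermediateField.adjoin k S) :=
    (Subalgebra.inclusion (IntermediateField.algebra_adjoin_le_adjoin k S)).toRingHom.toAlgebra
  haveI : IsScalarTower (Algebra.adjoin k S) (IntermediateField.adjoin k S) (RF k σ) :=
    IsScalarTower.of_algebraMap_eq (congrFun rfl)
  exact halg.extendScalars (Subalgebra.inclusion_injective _)

theorem alg_of (i₀ : σ) (h : σ → RF k σ)
    (hind : AlgebraicIndependent k (fun j : {j // j ≠ i₀} => h j)) (x : RF k σ)
    (hx : Transcendental (IntermediateField.adjoin k (h '' {i₀}ᶜ)) x) :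
    Algebra.IsAlgebraic
      (IntermediateField.adjoin (IntermediateField.adjoin k (h '' {i₀}ᶜ)) {x}) (RF k σ) := by
  have h1 := isTB _ (indep_update i₀ h hind x (transc_down _ x hx))
  have h2 := h1.isAlgebraic_field
  set E := IntermediateField.adjoin k (h '' {i₀}ᶜ) with hE
  have h3 : IntermediateField.adjoin k (Set.range (Function.update h i₀ x)) ≤
      (IntermediateField.adjoin E {x}).restrictScalars k := by
    rw [IntermediateField.adjoin_le_iff]
    rintro _ ⟨i, rfl⟩
    rw [SetLike.mem_coe, IntermediateField.mem_restrictScalars]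
    by_cases hi : i = i₀
    · subst hi
      rw [Function.update_self]
      exact IntermediateField.mem_adjoin_simple_self E x
    · rw [Function.update_of_ne hi]
      have h4 : h i ∈ E := IntermediateField.subset_adjoin _ _ ⟨i, by simpa using hi, rfl⟩
      exact (IntermediateField.adjoin E {x}).algebraMap_mem ⟨h i, h4⟩
  constructor
  intro y
  have h5 : IsAlgebraic ((IntermediateField.adjoin E {x}).restrictScalars k) y :=
    (h2.isAlgebraic y).tower_top_of_subalgebra_le h3
  exact h5

theorem Hfin (i₀ : σ) (h : σ → RF k σ)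
    (hind : AlgebraicIndependent k (fun j : {j // j ≠ i₀} => h j)) (x : RF k σ)
    (hx : Transcendental (IntermediateField.adjoin k (h '' {i₀}ᶜ)) x) :
    FiniteDimensional
      (IntermediateField.adjoin (IntermediateField.adjoin k (h '' {i₀}ᶜ)) {x}) (RF k σ) := by
  have halg := alg_of i₀ h hind x hx
  set E := IntermediateField.adjoin k (h '' {i₀}ᶜ) with hE
  have h1 : FiniteDimensional (IntermediateField.adjoin E {x})
      (IntermediateField.adjoin (IntermediateField.adjoin E {x}) (Set.range
        (algebraMap (MvPolynomial σ k) (RF k σ) ∘ (X : σ → MvPolynomial σ k)))) := by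
    haveI := (Set.finite_range (algebraMap (MvPolynomial σ k) (RF k σ) ∘
      (X : σ → MvPolynomial σ k))).to_subtype
    apply IntermediateField.finiteDimensional_adjoin
    intro y _
    exact (halg.isAlgebraic y).isIntegral
  have h2 : IntermediateField.adjoin (IntermediateField.adjoin E {x}) (Set.range
        (algebraMap (MvPolynomial σ k) (RF k σ) ∘ (X : σ → MvPolynomial σ k))) = ⊤ := by
    rw [eq_top_iff]
    intro y _
    obtain ⟨a, b, hb, rfl⟩ := IsFractionRing.div_surjective (A := MvPolynomial σ k) y
    have h3 : ∀ p : MvPolynomial σ k, algebraMap (MvPolynomial σ k) (RF k σ) p ∈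
        IntermediateField.adjoin (IntermediateField.adjoin E {x}) (Set.range
        (algebraMap (MvPolynomial σ k) (RF k σ) ∘ (X : σ → MvPolynomial σ k))) := by
      intro p
      induction p using MvPolynomial.induction_on with
      | C a =>
        have h4 : algebraMap (MvPolynomial σ k) (RF k σ) (C a) = algebraMap k (RF k σ) a := rfl
        have h5 : algebraMap k (RF k σ) a ∈ E := E.algebraMap_mem a
        rw [h4]
        exact (IntermediateField.adjoin _ _).algebraMap_mem
          (⟨algebraMap k (RF k σ) a, (IntermediateField.adjoin E {x}).algebraMap_mem ⟨_, h5⟩⟩ :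
            IntermediateField.adjoin E {x})
      | add p q hp hq => rw [map_add]; exact add_mem hp hq
      | mul_X p i hp =>
        rw [map_mul]
        exact mul_mem hp (IntermediateField.subset_adjoin _ _ ⟨i, rfl⟩)
    exact div_mem (h3 a) (h3 b)
  rw [h2] at h1
  exact Module.Finite.equiv (IntermediateField.topEquiv
    (F := IntermediateField.adjoin E {x}) (E := RF k σ)).toLinearEquiv

open scoped IntermediateField.algebraAdjoinAdjoin in
theorem exists_transc (i₀ : σ) (h : σ → RF k σ)
    (hind : AlgebraicIndependent k (fun j : {j // j ≠ i₀} => h j)) :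
    ∃ i : σ, Transcendental (IntermediateField.adjoin k (h '' {i₀}ᶜ))
      (algebraMap (MvPolynomial σ k) (RF k σ) (X i)) := by
  by_contra hcon
  push Not at hcon
  have h0 : ∀ i : σ, IsAlgebraic (IntermediateField.adjoin k (h '' {i₀}ᶜ))
      (algebraMap (MvPolynomial σ k) (RF k σ) (X i)) := by
    intro i
    have := hcon i
    unfold Transcendental at this
    push Not at this
    exact this
  have h1 : Algebra.IsAlgebraic (IntermediateField.adjoin k (h '' {i₀}ᶜ)) (RF k σ) :=
    (tb_X (k := k) (σ := σ)).isAlgebraic_iff.2 h0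
  have h3 : Algebra.IsAlgebraic (Algebra.adjoin k (h '' {i₀}ᶜ)) (RF k σ) :=
    Algebra.IsAlgebraic.trans _ (IntermediateField.adjoin k (h '' {i₀}ᶜ)) _
  have h4 : Set.range (fun j : {j // j ≠ i₀} => h j) = h '' {i₀}ᶜ := by
    ext y
    constructor
    · rintro ⟨j, rfl⟩
      exact ⟨j, j.2, rfl⟩
    · rintro ⟨j, hj, rfl⟩
      exact ⟨⟨j, hj⟩, rfl⟩
  have h5 : IsTranscendenceBasis k (fun j : {j // j ≠ i₀} => h j) := by
    rw [hind.isTranscendenceBasis_iff_isAlgebraic, h4]
    exact h3
  have h6 := h5.cardinalMk_eq (tb_X (k := k) (σ := σ))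
  rw [Cardinal.mk_fintype, Cardinal.mk_fintype, Nat.cast_inj] at h6
  have h7 := Fintype.card_subtype_lt (p := fun j : σ => j ≠ i₀) (x := i₀) (by simp)
  omega

/-- polynomials over the field of invariants -/
noncomputable def RR (i₀ : σ) (h : σ → RF k σ) :
    Subalgebra (IntermediateField.adjoin k (h '' {i₀}ᶜ)) (RF k σ) :=
  Algebra.adjoin _ (Set.range fun i : σ => algebraMap (MvPolynomial σ k) (RF k σ) (X i))

theorem poly_mem (i₀ : σ) (h : σ → RF k σ) (p : MvPolynomial σ k) :
    algebraMap (MvPolynomial σ k) (RF k σ) p ∈ RR i₀ h := by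
  induction p using MvPolynomial.induction_on with
  | C a =>
    have h4 : algebraMap (MvPolynomial σ k) (RF k σ) (C a) = algebraMap k (RF k σ) a := rfl
    rw [h4]
    exact (RR i₀ h).algebraMap_mem ⟨algebraMap k (RF k σ) a, IntermediateField.algebraMap_mem _ a⟩
  | add p q hp hq => rw [map_add]; exact add_mem hp hq
  | mul_X p i hp =>
    rw [map_mul]
    exact mul_mem hp (Algebra.subset_adjoin ⟨i, rfl⟩)

theorem DDer_ne_zero (i₀ : σ) (h : σ → RF k σ)
    (hind : AlgebraicIndependent k (fun j : {j // j ≠ i₀} => h j)) : DDer i₀ h ≠ 0 := by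
  intro h0
  obtain ⟨l, hl⟩ := exists_transc i₀ h hind
  set x := algebraMap (MvPolynomial σ k) (RF k σ) (X l) with hx
  have h1 : DD i₀ h x = 0 := by
    rw [← DDer_apply, h0]; rfl
  have h2 := isTB _ (indep_update i₀ h hind x (transc_down _ x hl))
  have h3 := h2.isAlgebraic_field
  unfold DD at h1
  obtain ⟨v, hv0, hv⟩ := Matrix.exists_mulVec_eq_zero_iff.2 h1
  set g := Function.update h i₀ x with hg
  let δ : Derivation k (RF k σ) (RF k σ) := ∑ j, v j • dL j
  have hδ : ∀ f, δ f = ∑ j, v j * dL j f := by
    intro f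
    have h8 := congrFun (map_sum (Derivation.coeFnAddMonoidHom :
      Derivation k (RF k σ) (RF k σ) →+ (RF k σ → RF k σ)) (fun j => v j • dL j) Finset.univ) f
    rw [Finset.sum_apply] at h8
    exact h8
  have h4 : ∀ i, δ (g i) = 0 := by
    intro i
    rw [hδ]
    have := congrFun hv i
    rw [Matrix.mulVec, dotProduct, Pi.zero_apply] at this
    rw [← this]
    refine Finset.sum_congr rfl fun j _ => ?_
    rw [Matrix.of_apply, mul_comm]
  have h5 : ∀ a ∈ IntermediateField.adjoin k (Set.range g), δ a = 0 := by
    intro a ha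
    induction ha using IntermediateField.adjoin_induction with
    | mem x hx =>
      obtain ⟨i, rfl⟩ := hx
      exact h4 i
    | algebraMap x => exact δ.map_algebraMap x
    | add x y _ _ hx hy => rw [map_add, hx, hy, add_zero]
    | inv x _ hx => rw [Derivation.leibniz_inv, hx, smul_zero]
    | mul x y _ _ hx hy => rw [Derivation.leibniz, hx, hy, smul_zero, smul_zero, add_zero]
  let δ' : Derivation (IntermediateField.adjoin k (Set.range g)) (RF k σ) (RF k σ) :=
    { toFun := δ
      map_add' := map_add δ
      map_smul' := by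
        intro a y
        show δ ((a : RF k σ) * y) = (a : RF k σ) * δ y
        rw [Derivation.leibniz, h5 a a.2, smul_zero, add_zero, smul_eq_mul]
      map_one_eq_zero' := δ.map_one_eq_zero
      leibniz' := δ.leibniz }
  have h6 : ∀ y, δ y = 0 := by
    intro y
    show δ' y = 0
    have hy : IsAlgebraic (IntermediateField.adjoin k (Set.range g)) y := h3.isAlgebraic y
    have hsep : (minpoly (IntermediateField.adjoin k (Set.range g)) y).Separable :=
      (minpoly.irreducible hy.isIntegral).separable
    have h1 := congrArg δ' (minpoly.aeval (IntermediateField.adjoin k (Set.range g)) y)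
    rw [Derivation.map_aeval, map_zero, smul_eq_mul] at h1
    rcases mul_eq_zero.1 h1 with h2 | h2
    · exact absurd h2 (hsep.aeval_derivative_ne_zero (minpoly.aeval _ _))
    · exact h2
  apply hv0
  funext j
  have h7 := h6 (algebraMap (MvPolynomial σ k) (RF k σ) (X j))
  rw [hδ] at h7
  rw [Finset.sum_eq_single j] at h7
  · rw [dL_coe, pderiv_X_self, map_one, mul_one] at h7
    exact h7
  · intro l _ hl
    rw [dL_coe, pderiv_X_of_ne hl.symm, map_zero, mul_zero]
  · simp

theorem main (F : σ → MvPolynomial σ k) (c : k) (hc : c ≠ 0)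
    (hF : (Pool.Agent.H922R2.jac F).det = C c)
    (hpow : ∀ a : ℕ, 0 < a → ∀ N : ℕ, 2 ≤ N → c ^ a ≠ N) (i₀ : σ) (h : σ → RF k σ)
    (hind : AlgebraicIndependent k (fun j : {j // j ≠ i₀} => h j))
    (φ : RF k σ →ₐ[k] RF k σ)
    (hφ : ∀ p : MvPolynomial σ k, φ (algebraMap (MvPolynomial σ k) (RF k σ) p) =
      algebraMap (MvPolynomial σ k) (RF k σ) (aeval F p))
    (hh : ∀ i, i ≠ i₀ → φ (h i) = h i) : Function.Surjective φ := by
  have hE : ∀ a ∈ IntermediateField.adjoin k (h '' {i₀}ᶜ), φ a = a := by
    intro a ha
    induction ha using IntermediateField.adjoin_induction with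
    | mem x hx =>
      obtain ⟨i, hi, rfl⟩ := hx
      exact hh i hi
    | algebraMap x => exact φ.commutes x
    | add x y _ _ hx hy => rw [map_add, hx, hy]
    | inv x _ hx => rw [map_inv₀, hx]
    | mul x y _ _ hx hy => rw [map_mul, hx, hy]
  set E := IntermediateField.adjoin k (h '' {i₀}ᶜ) with hEd
  let φE : RF k σ →ₐ[E] RF k σ :=
    { toRingHom := φ.toRingHom
      commutes' := fun a => hE a a.2 }
  have hφE : ∀ x, φE x = φ x := fun _ => rfl
  obtain ⟨l, hl⟩ := exists_transc i₀ h hind
  have key := surj_abstract (E := E) (L := RF k σ) (Hfin i₀ h hind) (RR i₀ h)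
    (Subalgebra.fg_def.2 ⟨_, Set.finite_range _, rfl⟩) ⟨_, poly_mem i₀ h (X l), hl⟩ φE
    (by
      intro x hx
      have h1 : RR i₀ h ≤ (RR i₀ h).comap φE := by
        unfold RR
        rw [Algebra.adjoin_le_iff]
        rintro _ ⟨i, rfl⟩
        show φE _ ∈ RR i₀ h
        rw [hφE, hφ]
        exact poly_mem i₀ h _
      exact h1 hx)
    (DDer i₀ h) (DDer_ne_zero i₀ h hind) (algebraMap k E c) (by simpa using hc)
    (by
      intro f
      exact DD_map i₀ h F φ hφ hh c hF f)
    (by
      intro a ha N hN hcon
      apply hpow a ha N hN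
      apply (algebraMap k E).injective
      rw [map_pow, hcon, map_natCast])
  exact key

end

end Pool.Agent.H928R2.Inv
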