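import Pool.Agent.H85R2.PIDefs

/-!
# Determinant scaling of Capelli values (task DET of helper85)
-/

set_option autoImplicit false

namespace Pool.Agent.H928R2.PIDet

open Matrix Polynomial
open Pool.Agent.H85R2.PI

/-- multilinear expansion -/
theorem multilinear_mem_span {S ι V W : Type*} [Finite ι] [CommRing S] [AddCommGroup V]
    [AddCommGroup W] [Module S V] [Module S W] (F : MultilinearMap S (fun _ : ι => V) W)
    (X : Set V) (v : ι → V) (hv : ∀ i, v i ∈ Submodule.span S X) :
    F v ∈ Submodule.span S {w | ∃ x : ι → V, (∀ i, x i ∈ X) ∧ w = F x} := by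
  classical
  cases nonempty_fintype ι
  have key : ∀ s : Finset ι, ∀ v : ι → V, (∀ i ∈ s, v i ∈ Submodule.span S X) →
      (∀ i ∉ s, v i ∈ X) → F v ∈ Submodule.span S {w | ∃ x : ι → V, (∀ i, x i ∈ X) ∧ w = F x} := by
    intro s
    induction s using Finset.induction_on with
    | empty =>
      intro v _ h2
      exact Submodule.subset_span ⟨v, fun i => h2 i (Finset.notMem_empty i), rfl⟩
    | insert a s ha ih =>
      intro v h1 h2
      have h3 : ∀ y ∈ Submodule.span S X, F (Function.update v a y) ∈
          Submodule.span S {w | ∃ x : ι → V, (∀ i, x i ∈ X) ∧ w = F x} := by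
        intro y hy
        induction hy using Submodule.span_induction with
        | mem y hy =>
          apply ih
          · intro i hi
            have hia : i ≠ a := fun h => ha (by rw [← h]; exact hi)
            rw [Function.update_of_ne hia]
            exact h1 i (Finset.mem_insert_of_mem hi)
          · intro i hi
            by_cases hia : i = a
            · subst hia
              rw [Function.update_self]
              exact hy
            · rw [Function.update_of_ne hia]
              exact h2 i (fun h => (Finset.mem_insert.1 h).elim hia hi)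
        | zero =>
          rw [F.map_update_zero]
          exact Submodule.zero_mem _
        | add y z _ _ hy hz =>
          rw [F.map_update_add]
          exact Submodule.add_mem _ hy hz
        | smul c y _ hy =>
          rw [F.map_update_smul]
          exact Submodule.smul_mem _ _ hy
      have h4 := h3 (v a) (h1 a (Finset.mem_insert_self a s))
      rwa [Function.update_eq_self] at h4
  exact key Finset.univ v (fun i _ => hv i) (fun i hi => absurd (Finset.mem_univ i) hi)

/-- the Capelli value as an alternating map -/
noncomputable def capAlt (S : Type*) {M : Type*} [CommRing S] [Ring M] [Algebra S M] (N : ℕ)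
    (y y' : Fin N → M) : M [⋀^Fin N]→ₗ[S] M :=
  MultilinearMap.alternatization ((MultilinearMap.mkPiAlgebraFin S N M).compLinearMap
    (fun k => (LinearMap.mulRight S (y' k)).comp (LinearMap.mulLeft S (y k))))

theorem capAlt_apply (S : Type*) {M : Type*} [CommRing S] [Ring M] [Algebra S M] (N : ℕ)
    (y y' x : Fin N → M) : capAlt S N y y' x = cap N x y y' := by
  rw [capAlt, MultilinearMap.alternatization_apply, cap]
  refine Finset.sum_congr rfl fun σ _ => ?_
  rw [Units.smul_def]
  congr 1

theorem det_mulLeft' {A : Type*} [CommRing A] {d : ℕ} (t : Matrix (Fin d) (Fin d) A) :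
    LinearMap.det (LinearMap.mulLeft A t) = t.det ^ d := by
  have h1 : LinearMap.toMatrix (Matrix.stdBasis A (Fin d) (Fin d))
      (Matrix.stdBasis A (Fin d) (Fin d)) (LinearMap.mulLeft A t) =
      Matrix.kroneckerMap (· * ·) t (1 : Matrix (Fin d) (Fin d) A) := by
    ext ⟨i, j⟩ ⟨k, l⟩
    rw [LinearMap.toMatrix_apply, Matrix.stdBasis_eq_single]
    have h2 : ∀ M : Matrix (Fin d) (Fin d) A, (Matrix.stdBasis A (Fin d) (Fin d)).repr M (i, j) =
        M i j := by
      intro M
      simp [Matrix.stdBasis]
    rw [h2]
    simp only [LinearMap.mulLeft_apply, Matrix.mul_apply, Matrix.single_apply,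
      Matrix.kroneckerMap_apply, Matrix.one_apply]
    rw [Finset.sum_eq_single k]
    · simp [eq_comm]
    · intro m _ hm
      rw [if_neg (fun h => hm h.1.symm), mul_zero]
    · intro h
      exact absurd (Finset.mem_univ k) h
  rw [← LinearMap.det_toMatrix (Matrix.stdBasis A (Fin d) (Fin d)), h1, Matrix.det_kronecker]
  simp

theorem cap_scale {A : Type*} [CommRing A] {d : ℕ} (t : Matrix (Fin d) (Fin d) A)
    (x y y' : Fin (d * d) → Matrix (Fin d) (Fin d) A) :
    cap (d * d) (fun i => t * x i) y y' = t.det ^ d • cap (d * d) x y y' := by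
  have e : Module.Basis (Fin (d * d)) A (Matrix (Fin d) (Fin d) A) :=
    (Matrix.stdBasis A (Fin d) (Fin d)).reindex finProdFinEquiv
  have h0 : ∀ g : (Matrix (Fin d) (Fin d) A) [⋀^Fin (d * d)]→ₗ[A] A,
      g (fun i => t * x i) = t.det ^ d * g x := by
    intro g
    rw [g.eq_smul_basis_det e, AlternatingMap.smul_apply, AlternatingMap.smul_apply]
    have h2 := e.det_comp (LinearMap.mulLeft A t) x
    rw [det_mulLeft'] at h2
    have h3 : (fun i => t * x i) = (LinearMap.mulLeft A t) ∘ x := rfl
    rw [h3, h2]
    simp only [smul_eq_mul]
    ring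
  ext a b
  have h1 := h0 ((Matrix.entryLinearMap A A a b).compAlternatingMap (capAlt A (d * d) y y'))
  simp only [LinearMap.compAlternatingMap_apply, capAlt_apply, Matrix.entryLinearMap_apply] at h1
  rw [h1]
  rfl

end Pool.Agent.H928R2.PIDet
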