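import Pool.Agent.H928R2.PIDet1

/-!
# Determinants of elements of the span of the image have coefficients in `Gam` (task DET)
-/

set_option autoImplicit false

namespace Pool.Agent.H928R2.PIDet

open Matrix Polynomial
open Pool.Agent.H85R2.PI

theorem cap_map' {R S : Type*} [Ring R] [Ring S] (φ : R →+* S) (N : ℕ) (x y y' : Fin N → R) :
    φ (cap N x y y') = cap N (fun i => φ (x i)) (fun i => φ (y i)) (fun i => φ (y' i)) := by
  rw [cap, cap, map_sum]
  refine Finset.sum_congr rfl fun σ _ => ?_
  rw [map_zsmul, map_list_prod, List.map_ofFn]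
  congr 3
  funext k
  simp only [Function.comp_apply, map_mul]

section
variable {R C A : Type*} [Ring R] [CommRing C] [CommRing A] [Algebra C A] {d : ℕ}

/-- the composition of `π` with `C → A` -/
noncomputable def piA (A : Type*) [CommRing A] [Algebra C A] (π : R →+* Matrix (Fin d) (Fin d) C) :
    R →+* Matrix (Fin d) (Fin d) A :=
  ((algebraMap C A).mapMatrix).comp π

/-- elements of `span (π_A R)` are closed under multiplication by `π_A r` -/
theorem mul_mem_spanA (ΓA : Subring A) (π : R →+* Matrix (Fin d) (Fin d) C)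
    (t : Matrix (Fin d) (Fin d) A) (ht : t ∈ Submodule.span ΓA (Set.range (piA A π))) (r : R) :
    t * piA A π r ∈ Submodule.span ΓA (Set.range (piA A π)) := by
  induction ht using Submodule.span_induction with
  | mem x hx =>
    obtain ⟨s, rfl⟩ := hx
    exact Submodule.subset_span ⟨s * r, map_mul _ _ _⟩
  | zero =>
    rw [zero_mul]
    exact Submodule.zero_mem _
  | add x y _ _ hx hy =>
    rw [add_mul]
    exact Submodule.add_mem _ hx hy
  | smul a x _ hx =>
    rw [smul_mul_assoc]
    exact Submodule.smul_mem _ _ hx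

theorem det_smul_mem (ΓA : Subring A) (π : R →+* Matrix (Fin d) (Fin d) C)
    (t : Matrix (Fin d) (Fin d) A) (ht : t ∈ Submodule.span ΓA (Set.range (piA A π)))
    (c : R) (hc : c ∈ capIdeal R (d * d)) :
    t.det ^ d • piA A π c ∈
      Submodule.span ΓA {w | ∃ c ∈ capIdeal R (d * d), w = piA A π c} := by
  have hc' : c ∈ AddSubgroup.closure
      {z : R | ∃ r r' : R, ∃ x y y' : Fin (d * d) → R, z = r * cap (d * d) x y y' * r'} := hc
  clear hc
  induction hc' using AddSubgroup.closure_induction with
  | mem z hz =>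
    obtain ⟨r, r', x, y, y', rfl⟩ := hz
    have h1 := multilinear_mem_span
      (capAlt ΓA (d * d) (fun i => piA A π (y i)) (fun i => piA A π (y' i))).toMultilinearMap
      (Set.range (piA A π)) (fun i => t * piA A π (x i)) (fun i => mul_mem_spanA ΓA π t ht (x i))
    have h2 : ∀ w ∈ Submodule.span ΓA {w | ∃ x : Fin (d * d) → Matrix (Fin d) (Fin d) A,
        (∀ i, x i ∈ Set.range (piA A π)) ∧ w =
          (capAlt ΓA (d * d) (fun i => piA A π (y i)) (fun i => piA A π (y' i))).toMultilinearMap x},
        piA A π r * w * piA A π r' ∈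
          Submodule.span ΓA {w | ∃ c ∈ capIdeal R (d * d), w = piA A π c} := by
      intro w hw
      induction hw using Submodule.span_induction with
      | mem w hw =>
        obtain ⟨x', hx', rfl⟩ := hw
        choose x'' hx'' using hx'
        refine Submodule.subset_span ⟨r * cap (d * d) x'' y y' * r', ?_, ?_⟩
        · exact AddSubgroup.subset_closure ⟨r, r', x'', y, y', rfl⟩
        · have h3 : x' = fun i => piA A π (x'' i) := funext fun i => (hx'' i).symm
          have h4 := capAlt_apply ΓA (d * d) (fun i => piA A π (y i)) (fun i => piA A π (y' i)) x'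
          have h5 : (capAlt ΓA (d * d) (fun i => piA A π (y i))
            (fun i => piA A π (y' i))).toMultilinearMap x' =
              cap (d * d) x' (fun i => piA A π (y i)) (fun i => piA A π (y' i)) := h4
          rw [h5, h3, map_mul, map_mul, cap_map']
      | zero =>
        rw [mul_zero, zero_mul]
        exact Submodule.zero_mem _
      | add v w _ _ hv hw =>
        rw [mul_add, add_mul]
        exact Submodule.add_mem _ hv hw
      | smul a w _ hw =>
        rw [mul_smul_comm, smul_mul_assoc]
        exact Submodule.smul_mem _ _ hw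
    have h3 := h2 _ h1
    have h4 : (capAlt ΓA (d * d) (fun i => piA A π (y i))
        (fun i => piA A π (y' i))).toMultilinearMap (fun i => t * piA A π (x i)) =
          t.det ^ d • piA A π (cap (d * d) x y y') := by
      rw [cap_map', ← cap_scale]
      exact capAlt_apply ΓA (d * d) (fun i => piA A π (y i)) (fun i => piA A π (y' i)) _
    rw [h4, mul_smul_comm, smul_mul_assoc, ← map_mul, ← map_mul] at h3
    exact h3
  | zero =>
    rw [map_zero, smul_zero]
    exact Submodule.zero_mem _
  | add z w _ _ h1 h2 =>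
    rw [map_add, smul_add]
    exact Submodule.add_mem _ h1 h2
  | neg z _ h1 =>
    rw [map_neg, smul_neg]
    exact Submodule.neg_mem _ h1

theorem det_mem (π : R →+* Matrix (Fin d) (Fin d) C) (ΓA : Subring A) (lam : A →ₗ[C] C)
    (hlam : ∀ g ∈ ΓA, lam g ∈ Gam π (capIdeal R (d * d)))
    (t : Matrix (Fin d) (Fin d) A) (ht : t ∈ Submodule.span ΓA (Set.range (piA A π))) :
    lam (t.det ^ d) ∈ Gam π (capIdeal R (d * d)) := by
  have key : ∀ (a : A) (c : R), (a • piA A π c).map lam = lam a • π c := by
    intro a c
    ext i j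
    simp only [Matrix.map_apply, Matrix.smul_apply, piA, RingHom.comp_apply,
      RingHom.mapMatrix_apply, smul_eq_mul]
    rw [mul_comm a, ← Algebra.smul_def, map_smul, smul_eq_mul, mul_comm]
  have h1 : ∀ w ∈ Submodule.span ΓA {w | ∃ c ∈ capIdeal R (d * d), w = piA A π c},
      ∀ g : ΓA, ∃ y ∈ capIdeal R (d * d), (g • w).map lam = π y := by
    intro w hw
    induction hw using Submodule.span_induction with
    | mem w hw =>
      obtain ⟨c, hc, rfl⟩ := hw
      intro g
      obtain ⟨y, hy, h2⟩ := hlam g g.2 c hc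
      exact ⟨y, hy, by rw [← h2]; exact key g c⟩
    | zero =>
      intro g
      refine ⟨0, Ideal.zero_mem _, ?_⟩
      rw [smul_zero, map_zero]
      exact Matrix.map_zero _ (map_zero lam)
    | add v w _ _ hv hw =>
      intro g
      obtain ⟨y, hy, h2⟩ := hv g
      obtain ⟨z, hz, h3⟩ := hw g
      refine ⟨y + z, Ideal.add_mem _ hy hz, ?_⟩
      rw [smul_add, Matrix.map_add _ (map_add lam), h2, h3, map_add]
    | smul a w _ hw =>
      intro g
      obtain ⟨y, hy, h2⟩ := hw (g * a)
      exact ⟨y, hy, by rw [← h2, mul_smul]⟩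
  intro c hc
  obtain ⟨y, hy, h2⟩ := h1 _ (det_smul_mem ΓA π t ht c hc) 1
  refine ⟨y, hy, ?_⟩
  rw [← h2, one_smul, key]

/-- the span of the image is mapped into the span of the image -/
theorem map_mem_spanA (Γ : Subring C) (ΓA : Subring A) (hΓ : ∀ g ∈ Γ, algebraMap C A g ∈ ΓA)
    (π : R →+* Matrix (Fin d) (Fin d) C) (b : Matrix (Fin d) (Fin d) C)
    (hb : b ∈ Submodule.span Γ (Set.range π)) :
    b.map (algebraMap C A) ∈ Submodule.span ΓA (Set.range (piA A π)) := by
  induction hb using Submodule.span_induction with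
  | mem x hx =>
    obtain ⟨s, rfl⟩ := hx
    exact Submodule.subset_span ⟨s, rfl⟩
  | zero =>
    rw [Matrix.map_zero _ (map_zero _)]
    exact Submodule.zero_mem _
  | add x y _ _ hx hy =>
    rw [Matrix.map_add _ (map_add _)]
    exact Submodule.add_mem _ hx hy
  | smul a x _ hx =>
    have h1 : (a • x).map (algebraMap C A) = (⟨algebraMap C A a, hΓ a a.2⟩ : ΓA) •
        x.map (algebraMap C A) := by
      ext i j
      simp only [Matrix.map_apply, Matrix.smul_apply, Subring.smul_def, smul_eq_mul, map_mul]
    rw [h1]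
    exact Submodule.smul_mem _ _ hx

end

/-- `TT` is the span of the image -/
theorem mem_TT_iff {R C : Type*} [Ring R] [CommRing C] {d : ℕ}
    (π : R →+* Matrix (Fin d) (Fin d) C) (J : Ideal R) (b : Matrix (Fin d) (Fin d) C) :
    b ∈ TT π J ↔ b ∈ Submodule.span (Gam π J) (Set.range π) := by
  rw [TT, ← Subalgebra.mem_toSubmodule, Algebra.adjoin_eq_span]
  have h : ((Submonoid.closure (Set.range π) : Submonoid (Matrix (Fin d) (Fin d) C)) :
      Set (Matrix (Fin d) (Fin d) C)) = Set.range π := by
    have h1 : (Set.range π) = ((MonoidHom.mrange (π : R →* Matrix (Fin d) (Fin d) C) :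
      Submonoid (Matrix (Fin d) (Fin d) C)) : Set (Matrix (Fin d) (Fin d) C)) := rfl
    rw [h1, Submonoid.closure_eq]
  rw [h]

end Pool.Agent.H928R2.PIDet
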