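import Pool.Agent.H928R2.Inv7
import Pool.Agent.H928R2.Inv10
import Pool.Agent.H922R2.K24

/-!
# Definitions for the theorem on Keller maps preserving a pencil
-/

set_option autoImplicit false

open Polynomial IntermediateField Pool.Agent.H928R2.Inv

namespace Pool.Agent.H928R2.Pen

/-- the place `O` is discrete, has a residue field of finite degree over `E`, and `D` behaves
logarithmically there -/
structure IsLog {E L : Type*} [Field E] [Field L] [Algebra E L] (O : ValuationSubring L)
    (D : Derivation E L L) : Prop where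
  unif : ∃ t, IsUnif O t
  resfin : ∃ n : ℕ, ∀ (m : ℕ) (f : Fin m → L), (∀ i, f i ∈ O) →
    (∀ a : Fin m → E, ∑ i, algebraMap E L (a i) * f i ∈ O.nonunits → a = 0) → m ≤ n
  small : ∀ f ∈ O, D f ∈ O.nonunits
  pole : ∀ f, f ∉ O → D f / f ∈ O ∧ (D f / f)⁻¹ ∈ O

/-- `E` is algebraically closed in `L` -/
def AlgCl (E L : Type*) [Field E] [Field L] [Algebra E L] : Prop :=
  ∀ x : L, IsAlgebraic E x → ∃ a : E, algebraMap E L a = x

/-- transcendence degree at most one -/
def Tr1 (E L : Type*) [Field E] [Field L] [Algebra E L] : Prop :=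
  ∀ x : L, Transcendental E x → Algebra.IsAlgebraic (IntermediateField.adjoin E {x}) L

end Pool.Agent.H928R2.Pen
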