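import Pool.Agent.H928R2.PenDer

/-!
# Base change for the pencil theorem
-/

set_option autoImplicit false

open MvPolynomial Pool.Agent.H928R2.Inv

namespace Pool.Agent.H928R2.Pen

section
variable (k : Type*) [Field k] (K : Type*) [Field K] [Algebra k K]

open Pool.Agent.H922R2 in
/-- the induced map of fraction fields -/
noncomputable def frM : KK k →+* KK K :=
  IsFractionRing.lift (A := PP k) (K := KK k) (L := KK K)
    (g := ((algebraMap (PP K) (KK K)).comp (mE k K (Fin 2))))
    ((IsFractionRing.injective (PP K) (KK K)).comp mE_inj)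

open Pool.Agent.H922R2 in
theorem frM_ι (p : PP k) : frM k K (ιK k p) = ιK K (mE k K (Fin 2) p) := by
  have h : frM k K (algebraMap (PP k) (KK k) p) =
      ((algebraMap (PP K) (KK K)).comp (mE k K (Fin 2))) p :=
    IsFractionRing.lift_algebraMap _ p
  exact h

open Pool.Agent.H922R2 in
theorem frM_const (c : k) : frM k K (algebraMap k (KK k) c) = algebraMap K (KK K) (algebraMap k K c) := by
  have h1 : algebraMap k (KK k) c = ιK k (C c) := by
    rw [← MvPolynomial.algebraMap_eq, AlgHom.commutes]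
  have h2 : algebraMap K (KK K) (algebraMap k K c) = ιK K (C (algebraMap k K c)) := by
    rw [← MvPolynomial.algebraMap_eq, AlgHom.commutes]
  rw [h1, h2, frM_ι, mE, map_C]

theorem frM_mem (x y : KK k) (h : y ∈ IntermediateField.adjoin k {x}) :
    frM k K y ∈ IntermediateField.adjoin K {frM k K x} := by
  rw [IntermediateField.mem_adjoin_simple_iff] at h
  obtain ⟨r, s, rfl⟩ := h
  have key : ∀ r : Polynomial k, frM k K (Polynomial.aeval x r) ∈
      IntermediateField.adjoin K {frM k K x} := by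
    intro r
    have h1 : frM k K (Polynomial.aeval x r) =
        Polynomial.aeval (frM k K x) (r.map (algebraMap k K)) := by
      rw [Polynomial.aeval_def, Polynomial.hom_eval₂, Polynomial.aeval_def, Polynomial.eval₂_map]
      congr 1
      ext c
      exact frM_const k K c
    rw [h1]
    exact IntermediateField.algebra_adjoin_le_adjoin K _ (Polynomial.aeval_mem_adjoin_singleton K _)
  rw [map_div₀]
  exact div_mem (key r) (key s)

end

open Pool.Agent.H922R2 in
theorem base_change {k : Type*} [Field k] [CharZero k] (F : Fin 2 → PP k)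
    (hJ : IsUnit (Matrix.of fun i j => pderiv j (F i)).det) (P Q : PP k) (hQ : Q ≠ 0)
    (hnc : ∀ c : k, ιK k P / ιK k Q ≠ algebraMap k (KK k) c)
    (hpres : ιK k (aeval F P) / ιK k (aeval F Q) ∈
      IntermediateField.adjoin k {ιK k P / ιK k Q})
    (K : Type*) [Field K] [Algebra k K]
    (main : ∀ (F' : Fin 2 → PP K), IsUnit (Matrix.of fun i j => pderiv j (F' i)).det →
      ∀ (P' Q' : PP K), Q' ≠ 0 → (∀ c : K, ιK K P' / ιK K Q' ≠ algebraMap K (KK K) c) →
      ιK K (aeval F' P') / ιK K (aeval F' Q') ∈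
        IntermediateField.adjoin K {ιK K P' / ιK K Q'} →
      ∃ G : Fin 2 → PP K, ∀ i, aeval F' (G i) = X i) :
    ∃ G : Fin 2 → PP k, ∀ i, aeval F (G i) = X i := by
  haveI : CharZero K := charZero_of_injective_algebraMap (algebraMap k K).injective
  obtain ⟨ρ, hρ⟩ := LinearMap.exists_leftInverse_of_injective (Algebra.linearMap k K)
    (LinearMap.ker_eq_bot.2 (algebraMap k K).injective)
  have hρ1 : ∀ c : k, ρ (algebraMap k K c) = c := fun c => by
    have := LinearMap.congr_fun hρ c
    simpa using this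
  have hρE : ∀ p : PP k, rr ρ (mE k K (Fin 2) p) = p := by
    intro p
    ext m
    rw [coeff_rr, mE, coeff_map, hρ1]
  have hQ' : mE k K (Fin 2) Q ≠ 0 := (map_ne_zero_iff _ mE_inj).2 hQ
  have k1 : ∀ c : K, ιK K (mE k K (Fin 2) P) / ιK K (mE k K (Fin 2) Q) ≠ algebraMap K (KK K) c := by
    intro c hc
    have hQι : ιK K (mE k K (Fin 2) Q) ≠ 0 := (map_ne_zero_iff _ iR_inj).2 hQ'
    rw [div_eq_iff hQι] at hc
    have h2 : algebraMap K (KK K) c = ιK K (C c) := by
      rw [← MvPolynomial.algebraMap_eq, AlgHom.commutes]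
    rw [h2, ← map_mul] at hc
    have h3 := iR_inj hc
    have h4 := congrArg (rr ρ) h3
    rw [hρE, mul_comm, rr_mul, rr_C] at h4
    apply hnc (ρ c)
    have hQι' : ιK k Q ≠ 0 := (map_ne_zero_iff _ iR_inj).2 hQ
    have h5 : algebraMap k (KK k) (ρ c) = ιK k (C (ρ c)) := by
      rw [← MvPolynomial.algebraMap_eq, AlgHom.commutes]
    rw [div_eq_iff hQι', h5, ← map_mul, h4, mul_comm]
  have k2 : ιK K (aeval (fun i => mE k K (Fin 2) (F i)) (mE k K (Fin 2) P)) /
      ιK K (aeval (fun i => mE k K (Fin 2) (F i)) (mE k K (Fin 2) Q)) ∈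
      IntermediateField.adjoin K {ιK K (mE k K (Fin 2) P) / ιK K (mE k K (Fin 2) Q)} := by
    have h1 := frM_mem k K _ _ hpres
    rw [map_div₀, map_div₀, frM_ι, frM_ι, frM_ι, frM_ι, mE_aeval, mE_aeval] at h1
    exact h1
  obtain ⟨G, hG⟩ := main (fun i => mE k K (Fin 2) (F i)) (jac_mE (E := K) F hJ)
    (mE k K (Fin 2) P) (mE k K (Fin 2) Q) hQ' k1 k2
  have hS : SS (fun i => mE k K (Fin 2) (F i)) = ⊤ := by
    rw [eq_top_iff]
    have : (⊤ : Subalgebra K (PP K)) = Algebra.adjoin K (Set.range X) := by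
      rw [MvPolynomial.adjoin_range_X]
    rw [this, Algebra.adjoin_le_iff]
    rintro _ ⟨i, rfl⟩
    exact ⟨G i, hG i⟩
  have hS' := SS_descent (E := K) F hS
  have h1 : ∀ i, ∃ g : PP k, aeval F g = X i := by
    intro i
    have h2 : (X i : PP k) ∈ SS F := by rw [hS']; trivial
    obtain ⟨g, hg⟩ := h2
    exact ⟨g, hg⟩
  choose G' hG' using h1
  exact ⟨G', hG'⟩

end Pool.Agent.H928R2.Pen
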