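import Pool.Agent.H928R2.PenKer
import Pool.Agent.H928R2.PenStable

set_option autoImplicit false

open MvPolynomial Pool.Agent.H928R2.Inv

namespace Pool.Agent.H928R2.Pen

namespace Case1

theorem dd_totalDegree_le {k : Type*} [Field k] [CharZero k] (A B u : PP k) :
    (dd A B u).totalDegree ≤ max A.totalDegree B.totalDegree + u.totalDegree := by
  have hp : ∀ j : Fin 2, (pderiv j u).totalDegree ≤ u.totalDegree := by
    intro j
    by_cases h : pderiv j u = 0
    · rw [h, totalDegree_zero]
      exact Nat.zero_le _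
    · exact (Pool.Agent.H922R2.totalDegree_pderiv_lt u j h).le
  rw [dd_apply]
  refine (totalDegree_sub _ _).trans (max_le ?_ ?_)
  · refine (totalDegree_mul _ _).trans ?_
    exact add_le_add (le_max_left _ _) (hp 1)
  · refine (totalDegree_mul _ _).trans ?_
    exact add_le_add (le_max_right _ _) (hp 0)

theorem cofactor_degree {k : Type*} [Field k] [CharZero k] (A B u l : PP k) (hu : u ≠ 0)
    (hul : dd A B u = l * u) : l.totalDegree ≤ max A.totalDegree B.totalDegree := by
  by_cases hl : l = 0
  · rw [hl, totalDegree_zero]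
    exact Nat.zero_le _
  · have h1 := dd_totalDegree_le A B u
    rw [hul, totalDegree_mul_of_isDomain hl hu] at h1
    omega

end Case1

open Case1 in
theorem surj_case1 {k : Type*} [Field k] [IsAlgClosed k] [CharZero k] (F : Fin 2 → PP k)
    (hJ : IsUnit (Pool.Agent.H922R2.jac F).det) (A B h : PP k) (H : Fib A B h) (κ : k)
    (hκ : κ ≠ 0) (hcomm : ∀ f, dd A B (aeval F f) = C κ * aeval F (dd A B f))
    (α β : k) (hα : α ≠ 0) (hh : aeval F h = C α * h + C β)
    (u l : PP k) (hu : u ≠ 0) (hul : dd A B u = l * u) (hl : dd A B l ≠ 0) :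
    Function.Surjective (phiL F hJ) := by
  have hF : Function.Injective (aeval F : PP k →ₐ[k] PP k) :=
    Pool.Agent.H922R2.aeval_injective F hJ
  set Λ : Set (PP k) := {m | ∃ v : PP k, v ≠ 0 ∧ dd A B v = m * v} with hΛ
  set M : Submodule k (PP k) := Submodule.span k Λ with hM
  have hlM : l ∈ M := Submodule.subset_span ⟨u, hu, hul⟩
  have hfin' : M ≤ restrictTotalDegree (Fin 2) k (max A.totalDegree B.totalDegree) := by
    rw [hM, Submodule.span_le]
    rintro x ⟨v, hv, hx⟩
    rw [SetLike.mem_coe, mem_restrictTotalDegree]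
    exact cofactor_degree A B v x hv hx
  have hMfin : FiniteDimensional k M := Submodule.finiteDimensional_of_le hfin'
  have hstab : ∀ x ∈ M, (aeval F x : PP k) ∈ M := by
    intro x hx
    induction hx using Submodule.span_induction with
    | mem x hx =>
      obtain ⟨v, hv, hx⟩ := hx
      have h1 : C κ * aeval F x ∈ Λ := by
        refine ⟨aeval F v, ?_, ?_⟩
        · intro h
          apply hv
          apply hF
          rw [h, map_zero]
        · rw [hcomm, hx, map_mul]
          ring
      have h2 : (aeval F x : PP k) = κ⁻¹ • (C κ * aeval F x) := by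
        rw [← smul_eq_C_mul, smul_smul, inv_mul_cancel₀ hκ, one_smul]
      rw [h2]
      exact M.smul_mem _ (Submodule.subset_span h1)
    | zero => rw [map_zero]; exact M.zero_mem
    | add x y _ _ hx hy => rw [map_add]; exact M.add_mem hx hy
    | smul c x _ hx => rw [map_smul]; exact M.smul_mem _ hx
  let φ : M →ₗ[k] M := ((aeval F : PP k →ₐ[k] PP k).toLinearMap).restrict hstab
  have hφ : ∀ x : M, ((φ x : M) : PP k) = aeval F (x : PP k) := fun x => rfl
  have hφi : Function.Injective φ := by
    intro x y hxy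
    apply Subtype.ext
    apply hF
    rw [← hφ, ← hφ, hxy]
  have hφs : Function.Surjective φ := LinearMap.injective_iff_surjective.1 hφi
  set S : Set (KK k) := {ιK k h} ∪ (ιK k) '' (M : Set (PP k)) with hS
  set K₀ : IntermediateField k (KK k) := IntermediateField.adjoin k S with hK₀
  have hhK : ιK k h ∈ K₀ := IntermediateField.subset_adjoin k S (Or.inl rfl)
  have hmK : ∀ m ∈ M, ιK k m ∈ K₀ := fun m hm =>
    IntermediateField.subset_adjoin k S (Or.inr ⟨m, hm, rfl⟩)
  have hCK : ∀ c : k, ιK k (C c) ∈ K₀ := fun c => K₀.algebraMap_mem c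
  -- stability
  have h1 : ∀ x ∈ K₀.toSubfield, (phiL F hJ : KK k →+* KK k) x ∈ K₀.toSubfield := by
    intro x hx
    change phiL F hJ x ∈ K₀
    have hx' : x ∈ IntermediateField.adjoin k S := hx
    clear hx
    induction hx' using IntermediateField.adjoin_induction with
    | mem x hx =>
      rcases hx with hx | ⟨m, hm, rfl⟩
      · rw [Set.mem_singleton_iff] at hx
        subst hx
        rw [phiL_ι, hh, map_add, map_mul]
        exact K₀.add_mem (K₀.mul_mem (hCK α) hhK) (hCK β)
      · rw [phiL_ι]
        exact hmK _ (hstab m hm)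
    | algebraMap c =>
      rw [AlgHom.commutes]
      exact K₀.algebraMap_mem c
    | add x y _ _ ihx ihy => rw [map_add]; exact K₀.add_mem ihx ihy
    | inv x _ ihx => rw [map_inv₀]; exact K₀.inv_mem ihx
    | mul x y _ _ ihx ihy => rw [map_mul]; exact K₀.mul_mem ihx ihy
  have h2 : ∀ x ∈ K₀.toSubfield, ∃ y ∈ K₀.toSubfield, (phiL F hJ : KK k →+* KK k) y = x := by
    intro x hx
    change ∃ y ∈ K₀, phiL F hJ y = x
    have hx' : x ∈ IntermediateField.adjoin k S := hx
    clear hx
    induction hx' using IntermediateField.adjoin_induction with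
    | mem x hx =>
      rcases hx with hx | ⟨m, hm, rfl⟩
      · rw [Set.mem_singleton_iff] at hx
        subst hx
        refine ⟨ιK k (C α⁻¹ * (h - C β)), ?_, ?_⟩
        · rw [map_mul, map_sub]
          exact K₀.mul_mem (hCK _) (K₀.sub_mem hhK (hCK β))
        · rw [phiL_ι]
          congr 1
          rw [map_mul, map_sub, hh, aeval_C, aeval_C, MvPolynomial.algebraMap_eq,
            add_sub_cancel_right, ← mul_assoc, ← C_mul, inv_mul_cancel₀ hα, C_1, one_mul]
      · obtain ⟨m', hm'⟩ := hφs ⟨m, hm⟩
        refine ⟨ιK k (m' : PP k), hmK _ m'.2, ?_⟩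
        rw [phiL_ι, ← hφ, hm']
    | algebraMap c => exact ⟨algebraMap k (KK k) c, K₀.algebraMap_mem c, AlgHom.commutes _ _⟩
    | add x y _ _ ihx ihy =>
      obtain ⟨a, ha, ha'⟩ := ihx
      obtain ⟨b, hb, hb'⟩ := ihy
      exact ⟨a + b, K₀.add_mem ha hb, by rw [map_add, ha', hb']⟩
    | inv x _ ihx =>
      obtain ⟨a, ha, ha'⟩ := ihx
      exact ⟨a⁻¹, K₀.inv_mem ha, by rw [map_inv₀, ha']⟩
    | mul x y _ _ ihx ihy =>
      obtain ⟨a, ha, ha'⟩ := ihx
      obtain ⟨b, hb, hb'⟩ := ihy
      exact ⟨a * b, K₀.mul_mem ha hb, by rw [map_mul, ha', hb']⟩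
  -- finiteness
  have htr : Transcendental (IntermediateField.adjoin k {ιK k h}) (ιK k l) := by
    intro halg
    obtain ⟨a, ha⟩ := H.algCl _ halg
    have h3 : ιK k l ∈ IntermediateField.adjoin k {ιK k h} := by
      rw [← ha]
      exact a.2
    rw [← H.kerK, DK_coe] at h3
    exact hl (iR_inj (k := k) (σ := Fin 2) (h3.trans (map_zero (ιK k)).symm))
  have hf := hfin H.transcK _ htr
  have hle : ∀ x ∈ IntermediateField.adjoin (IntermediateField.adjoin k {ιK k h}) {ιK k l},
      x ∈ K₀ := by
    intro x hx
    induction hx using IntermediateField.adjoin_induction with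
    | mem x hx =>
      rw [Set.mem_singleton_iff] at hx
      subst hx
      exact hmK l hlM
    | algebraMap c =>
      have h4 : IntermediateField.adjoin k {ιK k h} ≤ K₀ := by
        rw [IntermediateField.adjoin_le_iff]
        intro z hz
        rw [Set.mem_singleton_iff] at hz
        subst hz
        exact hhK
      exact h4 c.2
    | add x y _ _ hx hy => exact K₀.add_mem hx hy
    | inv x _ hx => exact K₀.inv_mem hx
    | mul x y _ _ hx hy => exact K₀.mul_mem hx hy
  have hK0 : Module.Finite K₀.toSubfield (KK k) := by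
    obtain ⟨s, hs⟩ := hf.fg_top
    refine ⟨⟨s, ?_⟩⟩
    rw [eq_top_iff]
    intro x _
    have hx : x ∈ Submodule.span
        (IntermediateField.adjoin (IntermediateField.adjoin k {ιK k h}) {ιK k l})
        (s : Set (KK k)) := by rw [hs]; trivial
    induction hx using Submodule.span_induction with
    | mem x hx => exact Submodule.subset_span hx
    | zero => exact Submodule.zero_mem _
    | add x y _ _ hx hy => exact Submodule.add_mem _ (hx trivial) (hy trivial)
    | smul c x _ hx =>
      have h5 : c • x = (⟨(c : KK k), hle c c.2⟩ : K₀.toSubfield) • x := rfl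
      rw [h5]
      exact Submodule.smul_mem _ _ (hx trivial)
  exact surj_of_stable (phiL F hJ : KK k →+* KK k) K₀.toSubfield hK0 h1 h2

end Pool.Agent.H928R2.Pen
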