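import Pool.Agent.H928R2.PenKer

/-!
# Prime factors of a non-prime fibre (task P19, helper368)
-/

set_option autoImplicit false

open MvPolynomial Pool.Agent.H928R2.Inv

namespace Pool.Agent.H928R2.Pen

theorem darboux_of_nonprime {k : Type*} [Field k] [IsAlgClosed k] [CharZero k]
    (A B h : PP k) (H : Fib A B h) (b : k) (hb : ¬ Prime (h - C b)) (p : PP k) (hp : Prime p)
    (hpb : p ∣ h - C b) : ∃ l : PP k, l ≠ 0 ∧ dd A B p = l * p := by
  have h0 : h - C b ≠ 0 := fun h1 => H.hc b (sub_eq_zero.1 h1)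
  obtain ⟨n, a, hpa, hfac⟩ := WfDvdMonoid.max_power_factor h0 hp.irreducible
  have hn : n ≠ 0 := by
    rintro rfl
    rw [pow_zero, one_mul] at hfac
    rw [hfac] at hpb
    exact hpa hpb
  obtain ⟨m, rfl⟩ := Nat.exists_eq_succ_of_ne_zero hn
  have hD0 : dd A B (h - C b) = 0 := by
    rw [map_sub, H.Dh]
    have : dd A B (C b) = 0 := (dd A B).map_algebraMap b
    rw [this, sub_zero]
  rw [hfac, Derivation.leibniz, Derivation.leibniz_pow] at hD0
  simp only [smul_eq_mul, nsmul_eq_mul, Nat.succ_eq_add_one, Nat.add_sub_cancel] at hD0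
  have hD1 : p ^ m * (p * dd A B a + ((m + 1 : ℕ) : PP k) * (a * dd A B p)) = 0 := by
    rw [← hD0]
    ring
  have hD2 : p * dd A B a + ((m + 1 : ℕ) : PP k) * (a * dd A B p) = 0 :=
    (mul_eq_zero.1 hD1).resolve_left (pow_ne_zero _ hp.ne_zero)
  have hdvd : p ∣ ((m + 1 : ℕ) : PP k) * (a * dd A B p) := by
    refine ⟨-dd A B a, ?_⟩
    linear_combination hD2
  have hnat : ¬ p ∣ ((m + 1 : ℕ) : PP k) := by
    intro h1
    have h2 : ((m + 1 : ℕ) : PP k) = C ((m + 1 : ℕ) : k) := by simp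
    rw [h2] at h1
    exact hp.not_isUnit (isUnit_of_dvd_C (Nat.cast_ne_zero.2 (Nat.succ_ne_zero m)) h1)
  have hpD : p ∣ dd A B p := by
    rcases hp.dvd_or_dvd hdvd with h1 | h1
    · exact absurd h1 hnat
    · exact (hp.dvd_or_dvd h1).resolve_left hpa
  obtain ⟨l, hl⟩ := hpD
  refine ⟨l, ?_, by rw [hl, mul_comm]⟩
  rintro rfl
  rw [mul_zero] at hl
  obtain ⟨γ, hγ⟩ := H.ker p hl
  have hγ0 : γ ≠ 0 := by
    rintro rfl
    rw [map_zero] at hγ
    exact hp.ne_zero hγ
  have hs := (IsAlgClosed.splits γ).eq_prod_roots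
  have hγ1 : p = C γ.leadingCoeff * (γ.roots.map (fun r => h - C r)).prod := by
    rw [hγ]
    conv_lhs => rw [hs]
    rw [map_mul, Polynomial.aeval_C, map_multiset_prod, Multiset.map_map]
    congr 2
    apply Multiset.map_congr rfl
    intro r _
    simp only [Function.comp_apply, map_sub, Polynomial.aeval_X, Polynomial.aeval_C]
    rfl
  have hlc : γ.leadingCoeff ≠ 0 := Polynomial.leadingCoeff_ne_zero.2 hγ0
  have hpd : p ∣ C γ.leadingCoeff * (γ.roots.map (fun r => h - C r)).prod := dvd_of_eq hγ1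
  rcases hp.dvd_or_dvd hpd with h1 | h1
  · exact hp.not_isUnit (isUnit_of_dvd_C hlc h1)
  · obtain ⟨r, hr, hpr⟩ := hp.exists_mem_multiset_map_dvd h1
    have hrp : h - C r ∣ p := by
      rw [hγ1]
      exact Dvd.dvd.mul_left (Multiset.dvd_prod (Multiset.mem_map_of_mem _ hr)) _
    by_cases hrb : r = b
    · subst hrb
      exact hb ((associated_of_dvd_dvd hpr hrp).prime hp)
    · apply hp.not_isUnit
      apply isUnit_of_dvd_C (c := b - r) (sub_ne_zero.2 (Ne.symm hrb))
      have h2 := dvd_sub hpr hpb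
      have h3 : h - C r - (h - C b) = C (b - r) := by
        rw [C_sub]
        ring
      rwa [h3] at h2

end Pool.Agent.H928R2.Pen
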