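import Pool.Agent.H928R2.PenDer

/-!
# Permutation of the prime factors of a semi-invariant polynomial
-/

set_option autoImplicit false
set_option linter.unusedSectionVars false

open MvPolynomial Pool.Agent.H928R2.Inv

namespace Pool.Agent.H928R2.Pen

open UniqueFactorizationMonoid

section

variable {R : Type*} [CommRing R] [IsDomain R] [UniqueFactorizationMonoid R]

/-- number of prime factors -/
noncomputable def perm_om (g : R) : ℕ := (factors g).card

theorem perm_om_mul {x y : R} (hx : x ≠ 0) (hy : y ≠ 0) :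
    perm_om (x * y) = perm_om x + perm_om y := by
  unfold perm_om
  rw [Multiset.card_eq_card_of_rel (factors_mul hx hy), Multiset.card_add]

theorem perm_om_unit {x : R} (hx : IsUnit x) : perm_om x = 0 := by
  unfold perm_om
  rw [Multiset.card_eq_zero]
  rw [Multiset.eq_zero_iff_forall_notMem]
  intro p hp
  exact (prime_of_factor p hp).not_isUnit (isUnit_of_dvd_unit (dvd_of_mem_factors hp) hx)

theorem perm_om_zero {x : R} (hx : x ≠ 0) (h : perm_om x = 0) : IsUnit x := by
  unfold perm_om at h
  rw [Multiset.card_eq_zero] at h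
  have h1 := factors_prod hx
  rw [h, Multiset.prod_zero] at h1
  exact h1.isUnit isUnit_one

theorem perm_om_assoc {x y : R} (hx : x ≠ 0) (h : Associated x y) : perm_om x = perm_om y := by
  obtain ⟨u, rfl⟩ := h
  rw [perm_om_mul hx u.ne_zero, perm_om_unit u.isUnit, add_zero]

theorem perm_om_prime {p : R} (hp : Prime p) : perm_om p = 1 := by
  unfold perm_om
  have h := factors_unique (f := factors p) (g := {p}) (fun x hx => irreducible_of_factor x hx)
    (fun x hx => by rw [Multiset.mem_singleton.1 hx]; exact hp.irreducible)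
    (by rw [Multiset.prod_singleton]; exact factors_prod hp.ne_zero)
  rw [Multiset.card_eq_card_of_rel h, Multiset.card_singleton]

theorem perm_prime_of_om {x : R} (hx : x ≠ 0) (hu : ¬ IsUnit x) (h : perm_om x ≤ 1) : Prime x := by
  have h1 : perm_om x = 1 := by
    rcases Nat.eq_zero_or_pos (perm_om x) with h0 | h0
    · exact absurd (perm_om_zero hx h0) hu
    · omega
  unfold perm_om at h1
  rw [Multiset.card_eq_one] at h1
  obtain ⟨q, hq⟩ := h1
  have h2 := factors_prod hx
  rw [hq, Multiset.prod_singleton] at h2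
  have h3 : Prime q := prime_of_factor q (by rw [hq]; exact Multiset.mem_singleton_self q)
  exact h2.prime_iff.1 h3

end

theorem factor_perm {k : Type*} [Field k] [CharZero k] (F : Fin 2 → PP k)
    (hF : Function.Injective (aeval F : PP k →ₐ[k] PP k)) (f : PP k) (hf : f ≠ 0)
    (hass : Associated (aeval F f) f) (p : PP k) (hp : Prime p) (hpf : p ∣ f) :
    ∃ (a : ℕ) (c : k), 0 < a ∧ c ≠ 0 ∧ (aeval F : PP k →ₐ[k] PP k)^[a] p = C c * p := by
  set φ : PP k →ₐ[k] PP k := aeval F with hφ
  have hne : ∀ g : PP k, g ≠ 0 → φ g ≠ 0 := fun g hg h => hg (hF (by rw [h, map_zero]))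
  have hC : ∀ c : k, φ (C c) = C c := fun c => by
    rw [hφ]; exact AlgHom.commutes _ c
  have hnu : ∀ g : PP k, g ≠ 0 → ¬ IsUnit g → ¬ IsUnit (φ g) := by
    intro g hg hu h
    obtain ⟨c, hc, h1⟩ := (isUnit_iff_C _).1 h
    rw [← hC c] at h1
    exact hu ((isUnit_iff_C _).2 ⟨c, hc, hF h1⟩)
  have hge : ∀ g : PP k, g ≠ 0 → perm_om g ≤ perm_om (φ g) := by
    intro g
    induction g using UniqueFactorizationMonoid.induction_on_prime with
    | h₁ => intro h; exact absurd rfl h
    | h₂ x hx => intro _; rw [perm_om_unit hx]; exact Nat.zero_le _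
    | h₃ a q ha hq ih =>
      intro _
      rw [map_mul, perm_om_mul hq.ne_zero ha, perm_om_mul (hne q hq.ne_zero) (hne a ha),
        perm_om_prime hq]
      have h1 := ih ha
      have h2 : perm_om (φ q) ≠ 0 := fun h0 =>
        hnu q hq.ne_zero hq.not_isUnit (perm_om_zero (hne q hq.ne_zero) h0)
      omega
  have hstep : ∀ q : PP k, Prime q → q ∣ f → Prime (φ q) ∧ φ q ∣ f := by
    rintro q hq ⟨w, hw⟩
    have hw0 : w ≠ 0 := by rintro rfl; exact hf (by rw [hw, mul_zero])
    have h1 : perm_om f = perm_om (φ q) + perm_om (φ w) := by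
      rw [← perm_om_assoc (hne f hf) hass, hw, map_mul, perm_om_mul (hne q hq.ne_zero) (hne w hw0)]
    have h2 : perm_om f = 1 + perm_om w := by
      rw [hw, perm_om_mul hq.ne_zero hw0, perm_om_prime hq]
    have h3 := hge w hw0
    refine ⟨perm_prime_of_om (hne q hq.ne_zero) (hnu q hq.ne_zero hq.not_isUnit) (by omega), ?_⟩
    have h4 : φ q ∣ φ f := by rw [hw, map_mul]; exact Dvd.intro _ rfl
    exact h4.trans hass.dvd
  have hall : ∀ n : ℕ, Prime (φ^[n] p) ∧ φ^[n] p ∣ f := by
    intro n
    induction n with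
    | zero => exact ⟨hp, hpf⟩
    | succ n ih =>
      rw [Function.iterate_succ_apply']
      exact hstep _ ih.1 ih.2
  have hex : ∀ n : ℕ, ∃ q ∈ factors f, Associated (φ^[n] p) q := fun n =>
    exists_mem_factors_of_dvd hf (hall n).1.irreducible (hall n).2
  choose q hq hqa using hex
  classical
  obtain ⟨i, j, hij, he⟩ := Finite.exists_ne_map_eq_of_infinite
    (fun n : ℕ => (⟨q n, Multiset.mem_toFinset.2 (hq n)⟩ : (factors f).toFinset))
  have he' : q i = q j := congrArg Subtype.val he
  have hass' : Associated (φ^[i] p) (φ^[j] p) := by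
    refine (hqa i).trans ?_
    rw [he']
    exact (hqa j).symm
  have hiter : ∀ (n : ℕ) (c : k) (x : PP k), φ^[n] (C c * x) = C c * φ^[n] x := by
    intro n
    induction n with
    | zero => intro c x; rfl
    | succ n ih =>
      intro c x
      rw [Function.iterate_succ_apply, Function.iterate_succ_apply, map_mul, hC, ih]
  have key : ∀ i j : ℕ, i < j → Associated (φ^[i] p) (φ^[j] p) →
      ∃ (a : ℕ) (c : k), 0 < a ∧ c ≠ 0 ∧ φ^[a] p = C c * p := by
    intro i j hij h
    obtain ⟨u, hu⟩ := h
    obtain ⟨c, hc, huc⟩ := (isUnit_iff_C _).1 u.isUnit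
    refine ⟨j - i, c, by omega, hc, ?_⟩
    apply hF.iterate i
    rw [hiter, ← Function.iterate_add_apply, show i + (j - i) = j by omega, ← hu, huc, mul_comm]
  rcases lt_or_gt_of_ne hij with h | h
  · exact key i j h hass'
  · exact key j i h hass'.symm

end Pool.Agent.H928R2.Pen
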