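import Pool.Agent.H928R2.Pen0

/-!
# Two logarithmic eigenvalues have a rational ratio
-/

set_option autoImplicit false

open Polynomial IntermediateField Pool.Agent.H928R2.Inv
open scoped IntermediateField.algebraAdjoinAdjoin

namespace Pool.Agent.H928R2.Pen

/-- eigenvectors of a derivation with distinct constant eigenvalues are independent over the
constants -/
theorem ratio_indep {E L ι : Type*} [Field E] [Field L] [Algebra E L] [DecidableEq ι]
    (D : Derivation E L L) (μ v : ι → L) (hDμ : ∀ s, D (μ s) = 0) (hv : ∀ s, v s ≠ 0)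
    (hDv : ∀ s, D (v s) = μ s * v s) (S : Finset ι) :
    Set.InjOn μ S → ∀ c : ι → L, (∀ s, D (c s) = 0) → ∑ s ∈ S, c s * v s = 0 →
      ∀ s ∈ S, c s = 0 := by
  induction S using Finset.induction_on with
  | empty => intro _ c _ _ s hs; simp at hs
  | insert t S ht ih =>
    intro hμ c hc h0
    have hμS : Set.InjOn μ S := hμ.mono (by simp)
    rw [Finset.sum_insert ht] at h0
    have h1 : c t * (μ t * v t) + ∑ s ∈ S, c s * (μ s * v s) = 0 := by
      have h2 := congrArg D h0
      rw [map_add, map_sum, map_zero] at h2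
      have h3 : ∀ s, D (c s * v s) = c s * (μ s * v s) := by
        intro s
        rw [Derivation.leibniz, hc s, hDv s]
        simp [smul_eq_mul]
      rw [h3 t, Finset.sum_congr rfl (fun s _ => h3 s)] at h2
      exact h2
    have h4 : ∑ s ∈ S, (c s * (μ s - μ t)) * v s = 0 := by
      have e1 : ∑ s ∈ S, (c s * (μ s - μ t)) * v s =
          ∑ s ∈ S, c s * (μ s * v s) - μ t * ∑ s ∈ S, c s * v s := by
        rw [Finset.mul_sum, ← Finset.sum_sub_distrib]
        apply Finset.sum_congr rfl
        intro s _
        ring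
      rw [e1]
      linear_combination h1 - μ t * h0
    have h5 := ih hμS (fun s => c s * (μ s - μ t)) (fun s => by
      rw [Derivation.leibniz, map_sub, hDμ s, hDμ t, hc s]
      simp) h4
    have h6 : ∀ s ∈ S, c s = 0 := by
      intro s hs
      rcases mul_eq_zero.mp (h5 s hs) with h | h
      · exact h
      · exfalso
        have h7 : μ s = μ t := sub_eq_zero.mp h
        have h8 := hμ (by simp [hs]) (by simp) h7
        exact ht (h8 ▸ hs)
    intro s hs
    rcases Finset.mem_insert.mp hs with rfl | h
    · have h7 : ∑ x ∈ S, c x * v x = 0 := by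
        apply Finset.sum_eq_zero
        intro x hx
        rw [h6 x hx, zero_mul]
      rw [h7, add_zero] at h0
      exact (mul_eq_zero.mp h0).resolve_right (hv _)
    · exact h6 s h

theorem ratio_pow {E L : Type*} [Field E] [Field L] [Algebra E L]
    (D : Derivation E L L) (u r : L) (hDu : D u = r * u) (n : ℕ) :
    D (u ^ n) = ((n : L) * r) * u ^ n := by
  induction n with
  | zero => simp
  | succ n ih =>
    rw [pow_succ, Derivation.leibniz, ih, hDu]
    push_cast
    simp only [smul_eq_mul]
    ring

theorem ratio {E L : Type*} [Field E] [CharZero E] [Field L] [Algebra E L] (h1 : Tr1 E L)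
    (D : Derivation E L L) (u u' r r' : L) (hu : u ≠ 0) (hu' : u' ≠ 0) (hr : D r = 0)
    (hr' : D r' = 0) (hDu : D u = r * u) (hDu' : D u' = r' * u') :
    ∃ i j : ℤ, (i ≠ 0 ∨ j ≠ 0) ∧ (i : L) * r + (j : L) * r' = 0 := by
  by_contra hcon
  push Not at hcon
  have : CharZero L := charZero_of_injective_algebraMap (algebraMap E L).injective
  have hDnat : ∀ n : ℕ, D (n : L) = 0 := fun n => D.map_natCast n
  -- injectivity of the eigenvalues
  have hinj : Function.Injective (fun p : ℕ × ℕ => (p.1 : L) * r + (p.2 : L) * r') := by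
    rintro ⟨i, j⟩ ⟨i', j'⟩ h
    by_contra hne
    have h2 := hcon ((i : ℤ) - i') ((j : ℤ) - j') (by
      by_contra h3
      push Not at h3
      apply hne
      have h4 : i = i' := by have := h3.1; omega
      have h5 : j = j' := by have := h3.2; omega
      rw [h4, h5])
    apply h2
    push_cast
    simp only at h
    linear_combination h
  have hind := ratio_indep (E := E) (ι := ℕ × ℕ) D
    (fun p : ℕ × ℕ => (p.1 : L) * r + (p.2 : L) * r')
    (fun p : ℕ × ℕ => u ^ p.1 * u' ^ p.2)
    (fun p => by
      rw [map_add, Derivation.leibniz, Derivation.leibniz, hr, hr', hDnat, hDnat]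
      simp)
    (fun p => mul_ne_zero (pow_ne_zero _ hu) (pow_ne_zero _ hu'))
    (fun p => by
      rw [Derivation.leibniz, ratio_pow D u r hDu, ratio_pow D u' r' hDu']
      simp only [smul_eq_mul]
      ring)
  -- coefficients in `E`
  have hindE : ∀ (S : Finset (ℕ × ℕ)) (c : ℕ × ℕ → E),
      ∑ p ∈ S, algebraMap E L (c p) * (u ^ p.1 * u' ^ p.2) = 0 → ∀ p ∈ S, c p = 0 := by
    intro S c h p hp
    have h2 := hind S hinj.injOn (fun p => algebraMap E L (c p)) (fun p => D.map_algebraMap _) h p hp
    exact (map_eq_zero _).mp h2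
  -- `u` is transcendental
  have hut : Transcendental E u := by
    intro halg
    obtain ⟨p, hp0, hp⟩ := halg
    apply hp0
    rw [Polynomial.aeval_eq_sum_range] at hp
    have h2 := hindE ((Finset.range (p.natDegree + 1)) ×ˢ {0}) (fun q => p.coeff q.1) (by
      rw [Finset.sum_product]
      simp only [Finset.sum_singleton, pow_zero, mul_one]
      rw [← hp]
      apply Finset.sum_congr rfl
      intro i _
      rw [Algebra.smul_def])
    ext i
    rw [coeff_zero]
    by_cases hi : i ≤ p.natDegree
    · exact h2 (i, 0) (by simp; omega)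
    · exact coeff_eq_zero_of_natDegree_lt (by omega)
  have halg := h1 u hut
  have hu'alg : IsAlgebraic (Algebra.adjoin E {u}) u' := by
    have h3 := halg.isAlgebraic u'
    exact (IsFractionRing.isAlgebraic_iff (Algebra.adjoin E {u}) (IntermediateField.adjoin E {u}) L).mpr h3
  obtain ⟨q, hq0, hq⟩ := hu'alg
  have hP : ∀ j : ℕ, ∃ P : E[X], aeval u P = ((q.coeff j : Algebra.adjoin E {u}) : L) := by
    intro j
    have h4 : ∀ y : L, y ∈ Algebra.adjoin E {u} → ∃ P : E[X], aeval u P = y := by
      intro y hy
      rw [Algebra.adjoin_singleton_eq_range_aeval] at hy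
      exact hy
    exact h4 _ (q.coeff j).2
  choose P hP using hP
  obtain ⟨N, hN⟩ : ∃ N : ℕ, ∀ j ≤ q.natDegree, (P j).natDegree < N := by
    refine ⟨(Finset.range (q.natDegree + 1)).sup (fun j => (P j).natDegree) + 1, fun j hj => ?_⟩
    have : (P j).natDegree ≤ (Finset.range (q.natDegree + 1)).sup (fun j => (P j).natDegree) :=
      Finset.le_sup (f := fun j => (P j).natDegree) (by simp; omega)
    omega
  have hrel : ∑ p ∈ (Finset.range N) ×ˢ (Finset.range (q.natDegree + 1)),
      algebraMap E L ((P p.2).coeff p.1) * (u ^ p.1 * u' ^ p.2) = 0 := by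
    rw [Finset.sum_product_right]
    rw [Polynomial.aeval_eq_sum_range] at hq
    rw [← hq]
    apply Finset.sum_congr rfl
    intro j hj
    have hjN := hN j (by have := Finset.mem_range.mp hj; omega)
    have h3 : aeval u (P j) = ∑ i ∈ Finset.range N, algebraMap E L ((P j).coeff i) * u ^ i := by
      rw [Polynomial.aeval_eq_sum_range' hjN]
      apply Finset.sum_congr rfl
      intro i _
      rw [Algebra.smul_def]
    rw [Algebra.smul_def]
    have h4 : algebraMap (Algebra.adjoin E {u}) L (q.coeff j) = aeval u (P j) := (hP j).symm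
    rw [h4, h3, Finset.sum_mul]
    apply Finset.sum_congr rfl
    intro i _
    ring
  have h5 := hindE _ (fun p => (P p.2).coeff p.1) hrel
  apply hq0
  ext j
  rw [coeff_zero]
  by_cases hj : j ≤ q.natDegree
  · have h6 : P j = 0 := by
      ext i
      rw [coeff_zero]
      by_cases hi : i < N
      · exact h5 (i, j) (by simp; omega)
      · exact coeff_eq_zero_of_natDegree_lt (by have := hN j hj; omega)
    have h7 := hP j
    rw [h6, map_zero] at h7
    rw [← h7]
    rfl
  · rw [coeff_eq_zero_of_natDegree_lt (by omega)]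

end Pool.Agent.H928R2.Pen
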