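import Pool.Agent.H928R2.PenDer
import Pool.Agent.H928R2.PenRatio

/-!
# Uniqueness of the reducible fibre
-/

set_option autoImplicit false

open MvPolynomial Pool.Agent.H928R2.Inv

namespace Pool.Agent.H928R2.Pen

/-- `A ∂_y - B ∂_x` as a derivation over `k(h)` -/
noncomputable def uniqDer {k : Type*} [Field k] [CharZero k] (A B h : PP k) (H : Fib A B h) :
    Derivation (IntermediateField.adjoin k {ιK k h}) (KK k) (KK k) where
  toFun := DK A B
  map_add' := map_add _
  map_smul' := by
    intro a y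
    show DK A B ((a : KK k) * y) = (a : KK k) * DK A B y
    rw [Derivation.leibniz, (H.kerK a).2 a.2, smul_zero, add_zero, smul_eq_mul]
  map_one_eq_zero' := (DK A B).map_one_eq_zero
  leibniz' := (DK A B).leibniz

theorem uniqDer_apply {k : Type*} [Field k] [CharZero k] (A B h : PP k) (H : Fib A B h)
    (x : KK k) : uniqDer A B h H x = DK A B x := rfl

/-- a prime over `h - b` dividing a polynomial in `h` -/
theorem uniq_root {k : Type*} [Field k] [CharZero k] (h : PP k) (b : k) (q : PP k)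
    (hq : Prime q) (hqb : q ∣ h - C b) (γ : Polynomial k) (hγ : q ∣ Polynomial.aeval h γ) :
    γ.eval b = 0 := by
  by_contra hne
  have h1 : (Polynomial.X - Polynomial.C b) ∣ γ - Polynomial.C (γ.eval b) :=
    Polynomial.X_sub_C_dvd_sub_C_eval
  have h2 := map_dvd (Polynomial.aeval h : Polynomial k →ₐ[k] PP k) h1
  rw [map_sub, map_sub, Polynomial.aeval_X, Polynomial.aeval_C, Polynomial.aeval_C] at h2
  have h3 : q ∣ Polynomial.aeval h γ - C (γ.eval b) := hqb.trans h2
  have h4 : q ∣ C (γ.eval b) := by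
    have := dvd_sub hγ h3
    rwa [sub_sub_cancel] at this
  exact hq.not_unit (isUnit_of_dvd_C hne h4)

theorem uniq_dvd {k : Type*} [Field k] [CharZero k] (h : PP k) (b : k) (γ : Polynomial k)
    (hγ : γ.eval b = 0) : h - C b ∣ Polynomial.aeval h γ := by
  have h1 : (Polynomial.X - Polynomial.C b) ∣ γ := Polynomial.dvd_iff_isRoot.2 hγ
  have h2 := map_dvd (Polynomial.aeval h : Polynomial k →ₐ[k] PP k) h1
  rwa [map_sub, Polynomial.aeval_X, Polynomial.aeval_C] at h2

theorem uniq_ne {k : Type*} [Field k] [CharZero k] (h : PP k) (b b' : k) (hbb : b ≠ b')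
    (p q : PP k) (hp : Prime p) (hq : Prime q) (hpb : p ∣ h - C b) (hqb : q ∣ h - C b') :
    ¬ p ∣ q := by
  intro hpq
  have h1 : Associated p q := hp.associated_of_dvd hq hpq
  have h2 : p ∣ h - C b' := h1.dvd.trans hqb
  have h3 : p ∣ C (b - b') := by
    have := dvd_sub h2 hpb
    have e : (h - C b') - (h - C b) = C (b - b') := by rw [C_sub]; ring
    rwa [e] at this
  exact hp.not_unit (isUnit_of_dvd_C (sub_ne_zero.2 hbb) h3)

theorem fibre_unique {k : Type*} [Field k] [CharZero k] (A B h : PP k) (H : Fib A B h)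
    (hT : Tr1 (IntermediateField.adjoin k {ιK k h}) (KK k))
    (p q l m : PP k) (b b' : k) (hp : Prime p) (hq : Prime q) (hpb : p ∣ h - C b)
    (hqb : q ∣ h - C b') (hl : l ≠ 0) (hm : m ≠ 0) (hpl : dd A B p = l * p)
    (hqm : dd A B q = m * q) (hlE : dd A B l = 0) (hmE : dd A B m = 0) : b = b' := by
  by_contra hbb
  have hp0 : p ≠ 0 := hp.ne_zero
  have hq0 : q ≠ 0 := hq.ne_zero
  have hb0 : h - C b ≠ 0 := sub_ne_zero.2 (H.hc b)
  set D := uniqDer A B h H with hD
  have hDp : D (ιK k p) = ιK k l * ιK k p := by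
    rw [hD, uniqDer_apply, DK_coe, hpl, map_mul]
  have hDq : D (ιK k q) = ιK k m * ιK k q := by
    rw [hD, uniqDer_apply, DK_coe, hqm, map_mul]
  obtain ⟨i, j, hij, hrel⟩ := ratio hT D (ιK k p) (ιK k q) (ιK k l) (ιK k m) (ι_ne hp0)
    (ι_ne hq0) (by rw [hD, uniqDer_apply, DK_coe, hlE, map_zero])
    (by rw [hD, uniqDer_apply, DK_coe, hmE, map_zero]) hDp hDq
  have hchar : CharZero (KK k) := charZero_of_injective_algebraMap (algebraMap k (KK k)).injective
  have hi0 : i ≠ 0 := by
    intro hi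
    rw [hi, Int.cast_zero, zero_mul, zero_add] at hrel
    rcases mul_eq_zero.1 hrel with h1 | h1
    · rcases hij with h2 | h2
      · exact h2 hi
      · exact h2 (by exact_mod_cast h1)
    · exact ι_ne hm h1
  -- natural exponents
  obtain ⟨n, a, c, hn, hrel2⟩ : ∃ n a c : ℕ, 0 < n ∧
      (n : KK k) * ιK k l + (a : KK k) * ιK k m - (c : KK k) * ιK k m = 0 := by
    have hsplit : ∀ j : ℤ, ((j.toNat : ℕ) : KK k) - (((-j).toNat : ℕ) : KK k) = (j : KK k) := by
      intro j
      have : ((j.toNat : ℕ) : ℤ) - (((-j).toNat : ℕ) : ℤ) = j := by omega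
      exact_mod_cast congrArg (Int.cast : ℤ → KK k) this
    rcases lt_or_gt_of_ne hi0 with h1 | h1
    · refine ⟨(-i).toNat, (-j).toNat, (- -j).toNat, by omega, ?_⟩
      have e1 : (((-i).toNat : ℕ) : KK k) = -(i : KK k) := by
        have : (((-i).toNat : ℕ) : ℤ) = -i := by omega
        exact_mod_cast congrArg (Int.cast : ℤ → KK k) this
      have e2 := hsplit (-j)
      rw [e1]
      push_cast at e2
      linear_combination -hrel + ιK k m * e2
    · refine ⟨i.toNat, j.toNat, (-j).toNat, by omega, ?_⟩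
      have e1 : ((i.toNat : ℕ) : KK k) = (i : KK k) := by
        have : ((i.toNat : ℕ) : ℤ) = i := by omega
        exact_mod_cast congrArg (Int.cast : ℤ → KK k) this
      have e2 := hsplit j
      rw [e1]
      linear_combination hrel + ιK k m * e2
  -- the element of the kernel
  have hM : ιK k q ^ c ≠ 0 := pow_ne_zero _ (ι_ne hq0)
  set x : KK k := ιK k p ^ n * ιK k q ^ a / ιK k q ^ c with hx
  have hxM : x * ιK k q ^ c = ιK k p ^ n * ιK k q ^ a := div_mul_cancel₀ _ hM
  have hx0 : x ≠ 0 := div_ne_zero (mul_ne_zero (pow_ne_zero _ (ι_ne hp0))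
    (pow_ne_zero _ (ι_ne hq0))) hM
  have hDx : D x = 0 := by
    have h1 := congrArg D hxM
    rw [Derivation.leibniz, Derivation.leibniz, ratio_pow D _ _ hDp, ratio_pow D _ _ hDq,
      ratio_pow D _ _ hDq] at h1
    simp only [smul_eq_mul] at h1
    have h2 : ιK k q ^ c * D x = 0 := by
      linear_combination h1 + (ιK k p ^ n * ιK k q ^ a) * hrel2 -
        ((c : KK k) * ιK k m) * hxM
    exact (mul_eq_zero.1 h2).resolve_left hM
  have hmem := (H.kerK x).1 hDx
  rw [IntermediateField.mem_adjoin_simple_iff] at hmem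
  obtain ⟨r, s, hrs⟩ := hmem
  have hr0 : Polynomial.aeval (ιK k h) r ≠ 0 := by
    intro h0
    rw [h0, zero_div] at hrs
    exact hx0 hrs
  have hs0 : Polynomial.aeval (ιK k h) s ≠ 0 := by
    intro h0
    rw [h0, div_zero] at hrs
    exact hx0 hrs
  have hs1 : s ≠ 0 := by
    rintro rfl
    exact hs0 (map_zero _)
  obtain ⟨r', s', g, hco, hgr, hgs⟩ := UniqueFactorizationMonoid.exists_reduced_factors' r s hs1
  have hg0 : Polynomial.aeval (ιK k h) g ≠ 0 := by
    intro h0
    rw [← hgr, map_mul, h0, zero_mul] at hr0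
    exact hr0 rfl
  have hs'0 : Polynomial.aeval (ιK k h) s' ≠ 0 := by
    intro h0
    rw [← hgs, map_mul, h0, mul_zero] at hs0
    exact hs0 rfl
  have hrs2 : x * Polynomial.aeval (ιK k h) s' = Polynomial.aeval (ιK k h) r' := by
    rw [hrs, ← hgr, ← hgs, map_mul, map_mul, mul_div_mul_left _ _ hg0, div_mul_cancel₀ _ hs'0]
  have haev : ∀ γ : Polynomial k, Polynomial.aeval (ιK k h) γ = ιK k (Polynomial.aeval h γ) :=
    fun γ => Polynomial.aeval_algHom_apply (ιK k) h γ
  have key : p ^ n * q ^ a * Polynomial.aeval h s' = Polynomial.aeval h r' * q ^ c := by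
    apply iR_inj (k := k) (σ := Fin 2)
    show ιK k _ = ιK k _
    rw [map_mul, map_mul, map_mul, map_pow, map_pow, map_pow, ← haev, ← haev, ← hxM, ← hrs2]
    ring
  -- the second prime
  obtain ⟨p', hp', hp'b, hp'p⟩ : ∃ p' : PP k, Prime p' ∧ p' ∣ h - C b ∧ ¬ p' ∣ p := by
    have hfin : FiniteMultiplicity p (h - C b) := FiniteMultiplicity.of_prime_left hp hb0
    obtain ⟨t, ht, hpt⟩ := hfin.exists_eq_pow_mul_and_not_dvd
    have ht0 : t ≠ 0 := by
      rintro rfl
      rw [mul_zero] at ht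
      exact hb0 ht
    have htu : ¬ IsUnit t := by
      intro hu
      obtain ⟨c', hc', rfl⟩ := (isUnit_iff_C t).1 hu
      have h1 : dd A B (h - C b) = 0 := by
        rw [map_sub, H.Dh, zero_sub, neg_eq_zero]
        exact (dd A B).map_algebraMap b
      have he : multiplicity p (h - C b) ≠ 0 := by
        intro h0
        have := hfin.not_pow_dvd_of_multiplicity_lt (m := 1) (by rw [h0]; exact Nat.one_pos)
        rw [pow_one] at this
        exact this hpb
      rw [ht] at h1
      rw [Derivation.leibniz] at h1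
      have h2 : dd A B (C c' : PP k) = 0 := (dd A B).map_algebraMap c'
      rw [h2, smul_zero, zero_add, Derivation.leibniz_pow, hpl] at h1
      simp only [smul_eq_mul, nsmul_eq_mul] at h1
      rcases mul_eq_zero.1 h1 with h3 | h3
      · exact hc' (C_eq_zero.1 h3)
      rcases mul_eq_zero.1 h3 with h4 | h4
      · exact he (by exact_mod_cast h4)
      rcases mul_eq_zero.1 h4 with h5 | h5
      · exact pow_ne_zero _ hp0 h5
      · exact mul_ne_zero hl hp0 h5
    obtain ⟨p', hp'i, hp't⟩ := WfDvdMonoid.exists_irreducible_factor htu ht0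
    refine ⟨p', hp'i.prime, ?_, ?_⟩
    · rw [ht]; exact hp't.mul_left _
    · intro hpp
      have h1 : Associated p' p := hp'i.prime.associated_of_dvd hp hpp
      exact hpt (h1.symm.dvd.trans hp't)
  have hpq : ¬ p ∣ q := uniq_ne h b b' hbb p q hp hq hpb hqb
  have hp'q : ¬ p' ∣ q := uniq_ne h b b' hbb p' q hp' hq hp'b hqb
  -- conclusion
  have h1 : p ∣ Polynomial.aeval h r' := by
    have h2 : p ∣ Polynomial.aeval h r' * q ^ c := by
      rw [← key, mul_assoc]
      exact (dvd_pow_self p hn.ne').mul_right _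
    rcases hp.dvd_or_dvd h2 with h3 | h3
    · exact h3
    · exact absurd (hp.dvd_of_dvd_pow h3) hpq
  have h4 := uniq_root h b p hp hpb r' h1
  have h5 : p' ∣ p ^ n * q ^ a * Polynomial.aeval h s' := by
    rw [key]
    exact (hp'b.trans (uniq_dvd h b r' h4)).mul_right _
  have h6 : p' ∣ Polynomial.aeval h s' := by
    rcases hp'.dvd_or_dvd h5 with h7 | h7
    · rcases hp'.dvd_or_dvd h7 with h8 | h8
      · exact absurd (hp'.dvd_of_dvd_pow h8) hp'p
      · exact absurd (hp'.dvd_of_dvd_pow h8) hp'q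
    · exact h7
  have h9 := uniq_root h b p' hp' hp'b s' h6
  have h10 : IsUnit (Polynomial.X - Polynomial.C b) :=
    hco (Polynomial.dvd_iff_isRoot.2 h4) (Polynomial.dvd_iff_isRoot.2 h9)
  exact Polynomial.not_isUnit_X_sub_C b h10

end Pool.Agent.H928R2.Pen
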