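import Pool.Agent.H928R2.PenKer
import Pool.Agent.H928R2.PenStable
import Pool.Agent.H928R2.PenPerm
import Pool.Agent.H928R2.PenUnique
import Pool.Agent.H928R2.PenNonprime

set_option autoImplicit false

/-!
# Pencils, second case: a reducible fibre (helper36)
-/

open MvPolynomial Pool.Agent.H928R2.Inv

namespace Pool.Agent.H928R2.Pen

section
variable {k : Type*} [Field k] [CharZero k]

/-- an endomorphism of `k(x,y)` with two independent semi-invariants is onto -/
theorem surj_of_two (Φ : KK k →ₐ[k] KK k) (y z : KK k) (α β c : k) (hα : α ≠ 0) (hc : c ≠ 0)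
    (hy : Φ y = algebraMap k (KK k) α * y + algebraMap k (KK k) β)
    (hz : Φ z = algebraMap k (KK k) c * z)
    (hf : FiniteDimensional
      (IntermediateField.adjoin (IntermediateField.adjoin k {y}) {z}) (KK k)) :
    Function.Surjective Φ := by
  have hmem : ∀ x, x ∈ IntermediateField.adjoin (IntermediateField.adjoin k {y}) {z} ↔
      x ∈ IntermediateField.adjoin k {y, z} := by
    intro x
    rw [← IntermediateField.adjoin_simple_adjoin_simple]
    rfl
  have hyM : y ∈ IntermediateField.adjoin k {y, z} :=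
    IntermediateField.subset_adjoin _ _ (Set.mem_insert _ _)
  have hzM : z ∈ IntermediateField.adjoin k {y, z} :=
    IntermediateField.subset_adjoin _ _ (Set.mem_insert_of_mem _ rfl)
  have hαK : algebraMap k (KK k) α ≠ 0 := (map_ne_zero _).2 hα
  have hcK : algebraMap k (KK k) c ≠ 0 := (map_ne_zero _).2 hc
  have h1 : IntermediateField.adjoin k {y, z} ≤
      (IntermediateField.adjoin k {y, z}).comap Φ := by
    rw [IntermediateField.adjoin_le_iff]
    rintro x hx
    rw [Set.mem_insert_iff, Set.mem_singleton_iff] at hx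
    rcases hx with hx | hx
    · change Φ x ∈ IntermediateField.adjoin k {y, z}
      rw [hx, hy]
      exact add_mem (mul_mem (IntermediateField.algebraMap_mem _ _) hyM)
        (IntermediateField.algebraMap_mem _ _)
    · change Φ x ∈ IntermediateField.adjoin k {y, z}
      rw [hx, hz]
      exact mul_mem (IntermediateField.algebraMap_mem _ _) hzM
  have h2 : IntermediateField.adjoin k {y, z} ≤
      (IntermediateField.adjoin k {y, z}).map Φ := by
    rw [IntermediateField.adjoin_le_iff]
    rintro x hx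
    rw [Set.mem_insert_iff, Set.mem_singleton_iff] at hx
    rcases hx with hx | hx
    · have h3 : algebraMap k (KK k) α⁻¹ * (y - algebraMap k (KK k) β) ∈
          IntermediateField.adjoin k {y, z} :=
        mul_mem (IntermediateField.algebraMap_mem _ _)
          (sub_mem hyM (IntermediateField.algebraMap_mem _ _))
      refine ⟨algebraMap k (KK k) α⁻¹ * (y - algebraMap k (KK k) β), h3, ?_⟩
      show Φ _ = x
      rw [map_mul, map_sub, hy, AlgHom.commutes, AlgHom.commutes, map_inv₀, hx]
      field_simp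
      ring
    · have h3 : algebraMap k (KK k) c⁻¹ * z ∈ IntermediateField.adjoin k {y, z} :=
        mul_mem (IntermediateField.algebraMap_mem _ _) hzM
      refine ⟨algebraMap k (KK k) c⁻¹ * z, h3, ?_⟩
      show Φ _ = x
      rw [map_mul, hz, AlgHom.commutes, map_inv₀, hx]
      field_simp
  exact surj_of_stable (Φ : KK k →+* KK k)
    (IntermediateField.adjoin (IntermediateField.adjoin k {y}) {z}).toSubfield hf
    (fun x hx => (hmem _).2 (h1 ((hmem _).1 hx)))
    (fun x hx => by
      obtain ⟨w, hw, hwx⟩ := h2 ((hmem _).1 hx)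
      exact ⟨w, (hmem _).2 hw, hwx⟩)

end

theorem nonprime_unique {k : Type*} [Field k] [IsAlgClosed k] [CharZero k] (A B h : PP k)
    (H : Fib A B h) (hcof : ∀ u l : PP k, u ≠ 0 → dd A B u = l * u → dd A B l = 0)
    (b b' : k) (hb : ¬ Prime (h - C b)) (hb' : ¬ Prime (h - C b')) : b = b' := by
  have hpf : ∀ b : k, ∃ p, Prime p ∧ p ∣ h - C b := by
    intro b
    have h0 : h - C b ≠ 0 := sub_ne_zero.2 (H.hc b)
    have h1 : ¬ IsUnit (h - C b) := by
      intro hu
      obtain ⟨c, _, hc⟩ := (isUnit_iff_C _).1 hu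
      apply H.hc (c + b)
      rw [map_add, ← hc]
      ring
    obtain ⟨p, hp, hpd⟩ := WfDvdMonoid.exists_irreducible_factor h1 h0
    exact ⟨p, hp.prime, hpd⟩
  obtain ⟨p, hp, hpb⟩ := hpf b
  obtain ⟨q, hq, hqb⟩ := hpf b'
  obtain ⟨l, hl, hpl⟩ := darboux_of_nonprime A B h H b hb p hp hpb
  obtain ⟨m, hm, hqm⟩ := darboux_of_nonprime A B h H b' hb' q hq hqb
  exact fibre_unique A B h H (tr1 H.transcK) p q l m b b' hp hq hpb hqb hl hm hpl hqm
    (hcof p l hp.ne_zero hpl) (hcof q m hq.ne_zero hqm)

theorem surj_case2 {k : Type*} [Field k] [IsAlgClosed k] [CharZero k] (F : Fin 2 → PP k)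
    (hJ : IsUnit (Pool.Agent.H922R2.jac F).det) (A B h : PP k) (H : Fib A B h) (κ : k)
    (hκ : κ ≠ 0) (hcomm : ∀ f, dd A B (aeval F f) = C κ * aeval F (dd A B f))
    (α β : k) (hα : α ≠ 0) (hh : aeval F h = C α * h + C β)
    (hcof : ∀ u l : PP k, u ≠ 0 → dd A B u = l * u → dd A B l = 0)
    (b : k) (hb : ¬ Prime (h - C b)) :
    Function.Surjective (phiL F hJ) := by
  have hinj := Pool.Agent.H922R2.aeval_injective F hJ
  have hCF : ∀ c : k, aeval F (C c : PP k) = C c := fun c => by
    rw [aeval_C]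
    rfl
  have hunit : ∀ r : PP k, IsUnit (aeval F r) → IsUnit r := by
    intro r hr
    obtain ⟨c, hc, hrc⟩ := (isUnit_iff_C _).1 hr
    have : r = C c := hinj (by rw [hrc, hCF])
    exact (isUnit_iff_C _).2 ⟨c, hc, this⟩
  have h0 : h - C b ≠ 0 := sub_ne_zero.2 (H.hc b)
  have h1 : ¬ IsUnit (h - C b) := by
    intro hu
    obtain ⟨c, _, hc⟩ := (isUnit_iff_C _).1 hu
    apply H.hc (c + b)
    rw [map_add, ← hc]
    ring
  -- the reducible fibre is preserved
  have hshift : aeval F (h - C b) = C α * (h - C ((b - β) / α)) := by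
    rw [map_sub, hh, hCF]
    have : (C α : PP k) * C ((b - β) / α) = C b - C β := by
      rw [← map_mul, mul_div_cancel₀ _ hα, map_sub]
    rw [mul_sub, this]
    ring
  have hαu : IsUnit (C α : PP k) := (isUnit_iff_ne_zero.2 hα).map C
  have hnp : ¬ Prime (h - C ((b - β) / α)) := by
    intro hp
    apply hb
    apply Irreducible.prime
    refine ⟨h1, fun r s hrs => ?_⟩
    have h2 : Irreducible (aeval F r * aeval F s) := by
      rw [← map_mul, ← hrs, hshift]
      exact (irreducible_isUnit_mul hαu).2 hp.irreducible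
    rcases h2.isUnit_or_isUnit rfl with h3 | h3
    · exact Or.inl (hunit r h3)
    · exact Or.inr (hunit s h3)
  have hbb : b = (b - β) / α := nonprime_unique A B h H hcof b _ hb hnp
  rw [← hbb] at hshift
  obtain ⟨p, hpi, hpd⟩ := WfDvdMonoid.exists_irreducible_factor h1 h0
  have hp : Prime p := hpi.prime
  obtain ⟨l, hl, hpl⟩ := darboux_of_nonprime A B h H b hb p hp hpd
  have hass : Associated (aeval F (h - C b)) (h - C b) := by
    rw [hshift]
    exact (associated_isUnit_mul_left_iff hαu).2 (Associated.refl _)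
  obtain ⟨a, c, ha, hc, hpa⟩ := factor_perm F hinj (h - C b) h0 hass p hp hpd
  -- iterates
  have hiter : ∀ (n : ℕ) (q : PP k), (phiL F hJ)^[n] (ιK k q) =
      ιK k ((aeval F : PP k →ₐ[k] PP k)^[n] q) := by
    intro n
    induction n with
    | zero => intro q; rfl
    | succ n ih =>
      intro q
      rw [Function.iterate_succ_apply, phiL_ι, ih, Function.iterate_succ_apply]
  have hstep : ∀ n : ℕ, (aeval F : PP k →ₐ[k] PP k)^[n] (h - C b) = C (α ^ n) * (h - C b) := by
    intro n
    induction n with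
    | zero => simp
    | succ n ih =>
      rw [Function.iterate_succ_apply', ih, map_mul, hCF, hshift, pow_succ, map_mul]
      ring
  have hιC : ∀ c : k, ιK k (C c) = algebraMap k (KK k) c := fun c => rfl
  have hΦ : ∀ (x : KK k), ((phiL F hJ) ^ a : KK k →ₐ[k] KK k) x = (phiL F hJ)^[a] x := by
    intro x
    rw [AlgHom.coe_pow]
  have hsurj : Function.Surjective ((phiL F hJ) ^ a : KK k →ₐ[k] KK k) := by
    refine surj_of_two _ (ιK k h) (ιK k p) (α ^ a) (b - α ^ a * b) c (pow_ne_zero _ hα) hc ?_ ?_ ?_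
    · have h2 := hΦ (ιK k (h - C b))
      rw [hiter, hstep, map_sub, map_sub, map_mul, hιC, hιC, map_sub, AlgHom.commutes, hιC] at h2
      rw [sub_eq_iff_eq_add] at h2
      rw [h2]
      rw [map_sub, map_mul]
      ring
    · rw [hΦ, hiter, hpa, map_mul, hιC]
    · apply hfin H.transcK
      intro halg
      obtain ⟨e, he⟩ := H.algCl _ halg
      have h3 : ιK k p ∈ IntermediateField.adjoin k {ιK k h} := by
        rw [← he]; exact e.2
      rw [← H.kerK, DK_zero_iff, hpl] at h3
      rcases mul_eq_zero.1 h3 with h4 | h4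
      · exact hl h4
      · exact hp.ne_zero h4
  obtain ⟨a', rfl⟩ : ∃ a', a = a' + 1 := ⟨a - 1, by omega⟩
  have h5 : Function.Surjective ((phiL F hJ) ∘ (phiL F hJ)^[a']) := by
    rw [← Function.iterate_succ']
    intro x
    obtain ⟨w, hw⟩ := hsurj x
    exact ⟨w, by rw [← hΦ]; exact hw⟩
  exact h5.of_comp

end Pool.Agent.H928R2.Pen
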