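import Pool.Agent.H928R2.PenDer

/-!
# Darboux primes are vertical
-/

set_option autoImplicit false
set_option linter.unusedSectionVars false

open MvPolynomial Pool.Agent.H928R2.Inv

namespace Pool.Agent.H928R2.Pen

section
variable {k : Type*} [Field k] [CharZero k]

/-- evaluation of polynomials in two variables at `(h, x)` -/
noncomputable def dbf (h x : PP k) : Polynomial (Polynomial k) →+* PP k :=
  Polynomial.eval₂RingHom (Polynomial.aeval h : Polynomial k →ₐ[k] PP k).toRingHom x

/-- evaluation of polynomials in three variables at `(h, x, p)` -/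
noncomputable def dbg (h x p : PP k) : Polynomial (Polynomial (Polynomial k)) →+* PP k :=
  Polynomial.eval₂RingHom (dbf h x) p

theorem dbf_C (h x : PP k) (γ : Polynomial k) :
    dbf h x (Polynomial.C γ) = Polynomial.aeval h γ := by
  simp [dbf]

theorem dbf_X (h x : PP k) : dbf h x Polynomial.X = x := by
  simp [dbf]

theorem dbg_C (h x p : PP k) (Γ : Polynomial (Polynomial k)) :
    dbg h x p (Polynomial.C Γ) = dbf h x Γ := by
  simp [dbg]

theorem dbg_X (h x p : PP k) : dbg h x p Polynomial.X = p := by
  simp [dbg]

theorem dbg_not_inj (h x p : PP k) : ¬ Function.Injective (dbg h x p) := by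
  intro hinj
  let f : Polynomial (Polynomial (Polynomial k)) →ₐ[k] PP k :=
    { dbg h x p with
      commutes' := by
        intro c
        show dbg h x p (Polynomial.C (Polynomial.C (Polynomial.C c))) = _
        rw [dbg_C, dbf_C, Polynomial.aeval_C] }
  have h1 : Algebra.trdeg k (Polynomial (Polynomial (Polynomial k))) ≤ Algebra.trdeg k (PP k) :=
    trdeg_le_of_injective f hinj
  have h2 : Algebra.trdeg k (PP k) = 2 := by
    rw [MvPolynomial.trdeg_of_isDomain]
    simp
  have h3 : Algebra.trdeg k (Polynomial k) + Algebra.trdeg (Polynomial k)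
      (Polynomial (Polynomial k)) = Algebra.trdeg k (Polynomial (Polynomial k)) :=
    _root_.trdeg_add_eq k (Polynomial k)
  have h4 : Algebra.trdeg k (Polynomial (Polynomial k)) + Algebra.trdeg
      (Polynomial (Polynomial k)) (Polynomial (Polynomial (Polynomial k))) =
      Algebra.trdeg k (Polynomial (Polynomial (Polynomial k))) :=
    _root_.trdeg_add_eq k (Polynomial (Polynomial k))
  rw [← h4, ← h3, h2, Polynomial.trdeg_of_isDomain, Polynomial.trdeg_of_isDomain,
    Polynomial.trdeg_of_isDomain] at h1
  norm_num at h1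

theorem db_exists (h x p : PP k) (hp : p ≠ 0) :
    ∃ Γ : Polynomial (Polynomial k), Γ ≠ 0 ∧ p ∣ dbf h x Γ := by
  obtain ⟨H, hH, hH0⟩ : ∃ H, dbg h x p H = 0 ∧ H ≠ 0 := by
    by_contra hcon
    push Not at hcon
    exact dbg_not_inj h x p ((injective_iff_map_eq_zero _).2 hcon)
  have key : ∀ n : ℕ, ∀ H, dbg h x p H = 0 → H ≠ 0 → H.natDegree = n →
      ∃ Γ : Polynomial (Polynomial k), Γ ≠ 0 ∧ p ∣ dbf h x Γ := by
    intro n
    induction n using Nat.strong_induction_on with
    | _ n ih =>
      intro H hH hH0 hn
      have e := Polynomial.divX_mul_X_add H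
      have e2 : dbg h x p H = dbg h x p H.divX * p + dbf h x (H.coeff 0) := by
        conv_lhs => rw [← e]
        rw [map_add, map_mul, dbg_X, dbg_C]
      rw [hH] at e2
      by_cases h0 : H.coeff 0 = 0
      · rw [h0, map_zero, add_zero] at e2
        have e3 : dbg h x p H.divX = 0 := by
          rcases mul_eq_zero.1 e2.symm with h | h
          · exact h
          · exact absurd h hp
        have e4 : H.divX ≠ 0 := by
          intro h4
          rw [h4, h0] at e
          simp at e
          exact hH0 e.symm
        have e5 : H.natDegree ≠ 0 := by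
          intro h5
          have := Polynomial.eq_C_of_natDegree_eq_zero h5
          rw [this, h0, map_zero] at hH0
          exact hH0 rfl
        refine ih (H.divX.natDegree) ?_ _ e3 e4 rfl
        rw [Polynomial.natDegree_divX_eq_natDegree_tsub_one]
        omega
      · exact ⟨H.coeff 0, h0, ⟨-dbg h x p H.divX, by linear_combination -e2⟩⟩
  exact key _ H hH hH0 rfl

theorem db_deriv (A B h x : PP k) (hDh : dd A B h = 0) (Γ : Polynomial (Polynomial k)) :
    dd A B (dbf h x Γ) = dbf h x (Polynomial.derivative Γ) * dd A B x := by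
  induction Γ using Polynomial.induction_on' with
  | add a b ha hb => rw [map_add, map_add, ha, hb, map_add, map_add, add_mul]
  | monomial n γ =>
    rw [← Polynomial.C_mul_X_pow_eq_monomial, map_mul, map_pow, dbf_C, dbf_X,
      Derivation.leibniz, Derivation.leibniz_pow, Derivation.map_aeval, hDh, smul_zero, smul_zero,
      add_zero, Polynomial.derivative_C_mul_X_pow, map_mul, dbf_C, map_pow, dbf_X, map_mul,
      map_natCast]
    simp only [smul_eq_mul, nsmul_eq_mul]
    ring

theorem darboux_vertical (A B h p : PP k)
    (hco : IsRelPrime A B) (hDh : dd A B h = 0) (hp : Prime p)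
    (hv : ∀ γ : Polynomial k, γ ≠ 0 → ¬ p ∣ Polynomial.aeval h γ) : ¬ p ∣ dd A B p := by
  intro hpD
  have hD : ∀ g : PP k, p ∣ g → p ∣ dd A B g := by
    rintro _ ⟨s, rfl⟩
    rw [Derivation.leibniz]
    exact dvd_add (dvd_mul_right p _) (dvd_mul_of_dvd_right hpD s)
  have claim : ∀ x : PP k, p ∣ dd A B x := by
    intro x
    obtain ⟨Γ, hΓ, hpΓ⟩ := db_exists h x p hp.ne_zero
    have key : ∀ n : ℕ, ∀ Γ : Polynomial (Polynomial k), Γ ≠ 0 → p ∣ dbf h x Γ →
        Γ.natDegree = n → p ∣ dd A B x := by
      intro n
      induction n using Nat.strong_induction_on with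
      | _ n ih =>
        intro Γ hΓ hpΓ hn
        have h1 := hD _ hpΓ
        rw [db_deriv A B h x hDh] at h1
        rcases hp.dvd_or_dvd h1 with h2 | h2
        · by_cases h3 : Γ.natDegree = 0
          · have h4 := Polynomial.eq_C_of_natDegree_eq_zero h3
            have h5 : Γ.coeff 0 ≠ 0 := by
              intro h5
              rw [h5, map_zero] at h4
              exact hΓ h4
            rw [h4, dbf_C] at hpΓ
            exact absurd hpΓ (hv _ h5)
          · have h4 : Polynomial.derivative Γ ≠ 0 := by
              intro h4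
              exact h3 (Polynomial.derivative_eq_zero.1 h4)
            exact ih _ (by rw [← hn]; exact Polynomial.natDegree_derivative_lt h3) _ h4 h2 rfl
        · exact h2
    exact key _ Γ hΓ hpΓ rfl
  have h0 := claim (X 0)
  have h1 := claim (X 1)
  rw [dd_X0, dvd_neg] at h0
  rw [dd_X1] at h1
  exact hp.not_isUnit (hco h1 h0)

end

end Pool.Agent.H928R2.Pen
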