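import Pool.Agent.H928R2.Pen0

/-!
# Descent along square roots of eigenvectors
-/

set_option autoImplicit false

open Polynomial IntermediateField Pool.Agent.H928R2.Inv

namespace Pool.Agent.H928R2.Pen

section
variable {E L : Type*} [Field E] [Field L] [Algebra E L]

theorem D_cmul (D : Derivation E L L) (a : E) (x : L) :
    D (algebraMap E L a * x) = algebraMap E L a * D x := by
  rw [D.leibniz, D.map_algebraMap]
  simp [smul_eq_mul]

/-- eigenvectors of eigenvalue a nonzero constant vanish -/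
theorem eig_zero (R : Subalgebra E L)
    (hunit : ∀ u ∈ R, ∀ v ∈ R, u * v = 1 → ∃ a : E, algebraMap E L a = u)
    (D : Derivation E L L)
    (heig : ∀ u ∈ R, u ≠ 0 → ∀ a : E, D u = algebraMap E L a * u → ∃ v ∈ R, u * v = 1)
    (u : L) (hu : u ∈ R) (a : E) (ha : a ≠ 0) (h : D u = algebraMap E L a * u) : u = 0 := by
  by_contra hu0
  obtain ⟨v, hv, huv⟩ := heig u hu hu0 a h
  obtain ⟨b, hb⟩ := hunit u hu v hv huv
  have h1 : D u = 0 := by rw [← hb, D.map_algebraMap]
  rw [h1] at h
  have h2 : algebraMap E L a ≠ 0 := by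
    rw [Ne, map_eq_zero]
    exact ha
  exact (mul_ne_zero h2 hu0) h.symm

/-- the eigenvalue of a second order equation is not a square -/
theorem not_sq (R : Subalgebra E L)
    (hunit : ∀ u ∈ R, ∀ v ∈ R, u * v = 1 → ∃ a : E, algebraMap E L a = u)
    (D : Derivation E L L) (hDR : ∀ x ∈ R, D x ∈ R)
    (heig : ∀ u ∈ R, u ≠ 0 → ∀ a : E, D u = algebraMap E L a * u → ∃ v ∈ R, u * v = 1)
    (g : L) (hg : g ∈ R) (hg0 : g ≠ 0) (A : E) (hA : A ≠ 0)
    (hDg : D (D g) = algebraMap E L A * g) (lam : E) : lam ^ 2 ≠ A := by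
  intro hlam
  have hlam0 : lam ≠ 0 := by
    rintro rfl
    exact hA (by rw [← hlam]; ring)
  have h1 : D g + algebraMap E L lam * g = 0 := by
    apply eig_zero R hunit D heig _ _ lam hlam0
    · rw [map_add, D_cmul, hDg, ← hlam, map_pow]
      ring
    · exact R.add_mem (hDR g hg) (R.mul_mem (R.algebraMap_mem lam) hg)
  have h2 : D g = algebraMap E L (-lam) * g := by
    rw [map_neg]
    linear_combination h1
  exact hg0 (eig_zero R hunit D heig g hg (-lam) (neg_ne_zero.2 hlam0) h2)

/-- the first integral is a nonzero constant -/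
theorem integral_const (R : Subalgebra E L)
    (hunit : ∀ u ∈ R, ∀ v ∈ R, u * v = 1 → ∃ a : E, algebraMap E L a = u)
    (D : Derivation E L L) (hDR : ∀ x ∈ R, D x ∈ R)
    (hker : ∀ x : L, D x = 0 → ∃ a : E, algebraMap E L a = x)
    (heig : ∀ u ∈ R, u ≠ 0 → ∀ a : E, D u = algebraMap E L a * u → ∃ v ∈ R, u * v = 1)
    (g : L) (hg : g ∈ R) (hg0 : g ≠ 0) (A : E) (hA : A ≠ 0)
    (hDg : D (D g) = algebraMap E L A * g) :
    ∃ B : E, B ≠ 0 ∧ algebraMap E L B = D g ^ 2 - algebraMap E L A * g ^ 2 := by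
  have h1 : D (D g ^ 2 - algebraMap E L A * g ^ 2) = 0 := by
    rw [map_sub, D_cmul, D.leibniz_pow, D.leibniz_pow, hDg]
    simp only [smul_eq_mul, nsmul_eq_mul]
    push_cast
    ring
  obtain ⟨B, hB⟩ := hker _ h1
  refine ⟨B, ?_, hB⟩
  rintro rfl
  rw [map_zero] at hB
  have h2 : D (D g / g) = 0 := by
    have h3 : D g = (D g / g) * g := by field_simp
    have h4 : D (D g) = (D g / g) * D g + g * D (D g / g) := by
      conv_lhs => rw [h3]
      rw [D.leibniz]
      simp only [smul_eq_mul]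
    have h5 : g ^ 2 * D (D g / g) = 0 := by
      have h6 : g * (D g / g) = D g := by field_simp
      calc g ^ 2 * D (D g / g) = g * (D (D g)) - (g * (D g / g)) * D g := by rw [h4]; ring
        _ = g * (algebraMap E L A * g) - D g * D g := by rw [h6, hDg]
        _ = 0 := by linear_combination hB
    rcases mul_eq_zero.1 h5 with h6 | h6
    · exact absurd h6 (pow_ne_zero _ hg0)
    · exact h6
  obtain ⟨lam, hlam⟩ := hker _ h2
  apply not_sq R hunit D hDR heig g hg hg0 A hA hDg lam
  apply (algebraMap E L).injective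
  rw [map_pow, hlam, div_pow]
  rw [div_eq_iff (pow_ne_zero _ hg0)]
  linear_combination -hB

/-- one step of the descent -/
theorem step [CharZero E]
    (R : Subalgebra E L) [UniqueFactorizationMonoid R]
    (hunit : ∀ u ∈ R, ∀ v ∈ R, u * v = 1 → ∃ a : E, algebraMap E L a = u)
    (D : Derivation E L L) (hDR : ∀ x ∈ R, D x ∈ R)
    (g : L) (hg : g ∈ R) (A : E) (hA : A ≠ 0)
    (hDg : D (D g) = algebraMap E L A * g) (hg1 : g ≠ 1)
    (hI : D g ^ 2 = algebraMap E L A * (g ^ 2 - 1)) :
    ∃ s ∈ R, ∃ ε : E, ε ≠ 0 ∧ g - 1 = algebraMap E L ε * s ^ 2 ∧ s ≠ 0 ∧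
      D (D s) = algebraMap E L (A / 4) * s := by
  have hA' : algebraMap E L A ≠ 0 := by
    rw [Ne, map_eq_zero]
    exact hA
  let _ : GCDMonoid R := UniqueFactorizationMonoid.toGCDMonoid R
  let P : R := ⟨algebraMap E L A * (g - 1), R.mul_mem (R.algebraMap_mem A)
    (R.sub_mem hg R.one_mem)⟩
  let Q : R := ⟨g + 1, R.add_mem hg R.one_mem⟩
  let C : R := ⟨D g, hDR g hg⟩
  have hPQ : P * Q = C ^ 2 := by
    apply Subtype.ext
    show algebraMap E L A * (g - 1) * (g + 1) = D g ^ 2
    rw [hI]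
    ring
  have hgcd : IsUnit (gcd P Q) := by
    have h1 : gcd P Q ∣ (1 : R) := by
      have h2 : (1 : R) = (algebraMap E R (2⁻¹)) * Q - (algebraMap E R (2⁻¹ * A⁻¹)) * P := by
        apply Subtype.ext
        show (1 : L) = algebraMap E L (2⁻¹) * (g + 1) -
          algebraMap E L (2⁻¹ * A⁻¹) * (algebraMap E L A * (g - 1))
        rw [map_mul, map_inv₀, map_inv₀]
        have h3 : algebraMap E L 2 ≠ 0 := by
          rw [Ne, map_eq_zero]
          exact two_ne_zero
        have h4 : algebraMap E L 2 = 2 := map_ofNat _ 2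
        field_simp
        rw [h4]
        ring
      rw [h2]
      exact dvd_sub (Dvd.dvd.mul_left (gcd_dvd_right _ _) _)
        (Dvd.dvd.mul_left (gcd_dvd_left _ _) _)
    exact isUnit_of_dvd_one h1
  obtain ⟨d, e, hde⟩ := exists_associated_pow_of_mul_eq_pow hgcd hPQ
  obtain ⟨ε', hε'⟩ := hunit ((e : R) : L) (e : R).2 (((e⁻¹ : Rˣ) : R) : L) ((e⁻¹ : Rˣ) : R).2 (by
    have h1 : ((e : R) * ((e⁻¹ : Rˣ) : R)) = 1 := Units.mul_inv e
    have h2 := congrArg (fun r : R => (r : L)) h1
    exact h2)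
  have hde' : (d : L) ^ 2 * algebraMap E L ε' = algebraMap E L A * (g - 1) := by
    have h2 := congrArg (fun r : R => (r : L)) hde
    rw [hε']
    exact h2
  have hg1' : g - 1 ≠ 0 := sub_ne_zero.2 hg1
  have hne : (d : L) ^ 2 * algebraMap E L ε' ≠ 0 := by
    rw [hde']
    exact mul_ne_zero hA' hg1'
  have hε0 : ε' ≠ 0 := by
    rintro rfl
    exact hne (by rw [map_zero, mul_zero])
  have hd0 : (d : L) ≠ 0 := by
    intro h
    exact hne (by rw [h]; ring)
  refine ⟨d, d.2, ε' / A, div_ne_zero hε0 hA, ?_, hd0, ?_⟩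
  · rw [map_div₀]
    field_simp
    linear_combination -hde'
  · obtain ⟨s, hs⟩ : ∃ s : L, s = (d : L) := ⟨_, rfl⟩
    obtain ⟨ε, hε⟩ : ∃ ε : E, ε = ε' / A := ⟨_, rfl⟩
    have hεne : ε ≠ 0 := by rw [hε]; exact div_ne_zero hε0 hA
    have hεL : algebraMap E L ε ≠ 0 := by
      rw [Ne, map_eq_zero]
      exact hεne
    rw [← hs] at hde' hd0 ⊢
    have hgs : g = 1 + algebraMap E L ε * s ^ 2 := by
      rw [hε, map_div₀]
      field_simp
      linear_combination -hde'
    have hD1 : D g = 2 * algebraMap E L ε * s * D s := by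
      rw [hgs, map_add, D.map_one_eq_zero, D_cmul, D.leibniz_pow]
      simp only [smul_eq_mul, nsmul_eq_mul]
      push_cast
      ring
    have hD2 : D (D g) = 2 * algebraMap E L ε * (D s ^ 2 + s * D (D s)) := by
      have h1 : D g = algebraMap E L (2 * ε) * (s * D s) := by
        rw [hD1, map_mul, map_ofNat]
        ring
      rw [h1, D_cmul, D.leibniz, map_mul, map_ofNat]
      simp only [smul_eq_mul]
      ring
    have h4 : 4 * algebraMap E L ε * D s ^ 2 =
        algebraMap E L A * (2 + algebraMap E L ε * s ^ 2) := by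
      have h5 : (algebraMap E L ε * s ^ 2) * (4 * algebraMap E L ε * D s ^ 2) =
          (algebraMap E L ε * s ^ 2) * (algebraMap E L A * (2 + algebraMap E L ε * s ^ 2)) := by
        have h6 := hI
        rw [hD1] at h6
        rw [show (algebraMap E L ε * s ^ 2) * (4 * algebraMap E L ε * D s ^ 2) =
          (2 * algebraMap E L ε * s * D s) ^ 2 by ring, h6]
        rw [hgs]
        ring
      exact mul_left_cancel₀ (mul_ne_zero hεL (pow_ne_zero _ hd0)) h5
    rw [hD2, hgs] at hDg
    have h8 : CharZero L := charZero_of_injective_algebraMap (algebraMap E L).injective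
    have h44 : (4 : L) ≠ 0 := by norm_num
    have h7 : (4 * algebraMap E L ε * s) * D (D s) =
        (4 * algebraMap E L ε * s) * (algebraMap E L (A / 4) * s) := by
      rw [map_div₀, map_ofNat]
      have h10 : (4 * algebraMap E L ε * s) * (algebraMap E L A / 4 * s) =
          algebraMap E L A * algebraMap E L ε * s ^ 2 := by
        field_simp
      rw [h10]
      linear_combination 2 * hDg - h4
    have h9 : (4 * algebraMap E L ε * s) ≠ 0 :=
      mul_ne_zero (mul_ne_zero h44 hεL) hd0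
    exact mul_left_cancel₀ h9 h7

/-- moving inside the solution space to normalise the first integral -/
theorem normalise (D : Derivation E L L)
    (O : ValuationSubring L) (hO : ∀ a : E, algebraMap E L a ∈ O) (hlog : IsLog O D)
    (g : L) (hgO : g ∉ O) (A B : E) (hA : A ≠ 0) (hB : B ≠ 0)
    (hBg : algebraMap E L B = D g ^ 2 - algebraMap E L A * g ^ 2)
    (hDg : D (D g) = algebraMap E L A * g) (x y : E) (hxy : x ^ 2 - A * y ^ 2 = - A / B)
    (g1 : L) (hg1 : g1 = algebraMap E L x * g + algebraMap E L y * D g) :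
    D (D g1) = algebraMap E L A * g1 ∧ D g1 ^ 2 = algebraMap E L A * (g1 ^ 2 - 1) ∧
      g1 ∉ O ∧ g1 / g ∈ O ∧ g / g1 ∈ O := by
  have hg0 : g ≠ 0 := by
    rintro rfl
    exact hgO O.zero_mem
  have hD1 : D g1 = algebraMap E L x * D g + algebraMap E L y * (algebraMap E L A * g) := by
    rw [hg1, map_add, D_cmul, D_cmul, hDg]
  have hD2 : D (D g1) = algebraMap E L A * g1 := by
    rw [hD1, map_add, D_cmul, D_cmul, D_cmul, hDg, hg1]
    ring
  have hxyL : algebraMap E L x ^ 2 - algebraMap E L A * algebraMap E L y ^ 2 =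
      - algebraMap E L A / algebraMap E L B := by
    rw [← map_pow, ← map_pow, ← map_mul, ← map_sub, hxy, map_div₀, map_neg]
  have hA' : algebraMap E L A ≠ 0 := by
    rw [Ne, map_eq_zero]
    exact hA
  have hB' : algebraMap E L B ≠ 0 := by
    rw [Ne, map_eq_zero]
    exact hB
  have hN : algebraMap E L x ^ 2 - algebraMap E L A * algebraMap E L y ^ 2 ≠ 0 := by
    rw [hxyL]
    exact div_ne_zero (neg_ne_zero.2 hA') hB'
  have hNE : x ^ 2 - A * y ^ 2 ≠ 0 := by
    rw [hxy]
    exact div_ne_zero (neg_ne_zero.2 hA) hB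
  have hI : D g1 ^ 2 = algebraMap E L A * (g1 ^ 2 - 1) := by
    have h1 : D g1 ^ 2 - algebraMap E L A * g1 ^ 2 =
        (algebraMap E L x ^ 2 - algebraMap E L A * algebraMap E L y ^ 2) *
          (D g ^ 2 - algebraMap E L A * g ^ 2) := by
      rw [hD1, hg1]
      ring
    rw [hxyL, ← hBg] at h1
    have h2 : - algebraMap E L A / algebraMap E L B * algebraMap E L B = - algebraMap E L A := by
      field_simp
    rw [h2] at h1
    linear_combination h1
  have hback : g = algebraMap E L (x / (x ^ 2 - A * y ^ 2)) * g1 -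
      algebraMap E L (y / (x ^ 2 - A * y ^ 2)) * D g1 := by
    rw [map_div₀, map_div₀]
    simp only [map_sub, map_pow, map_mul]
    rw [hD1, hg1]
    field_simp
    ring
  have hg1O : g1 ∉ O := by
    intro h
    apply hgO
    rw [hback]
    exact sub_mem (O.mul_mem _ _ (hO _) h)
      (O.mul_mem _ _ (hO _) (nonunits_mem (hlog.small g1 h)))
  have hg10 : g1 ≠ 0 := by
    rintro rfl
    exact hg1O O.zero_mem
  refine ⟨hD2, hI, hg1O, ?_, ?_⟩
  · have h1 : g1 / g = algebraMap E L x + algebraMap E L y * (D g / g) := by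
      rw [hg1]
      field_simp
    rw [h1]
    exact O.add_mem _ _ (hO _) (O.mul_mem _ _ (hO _) (hlog.pole g hgO).1)
  · have h1 : g / g1 = algebraMap E L (x / (x ^ 2 - A * y ^ 2)) -
      algebraMap E L (y / (x ^ 2 - A * y ^ 2)) * (D g1 / g1) := by
      rw [div_eq_iff hg10, sub_mul, mul_assoc, div_mul_cancel₀ _ hg10]
      exact hback
    rw [h1]
    exact sub_mem (hO _) (O.mul_mem _ _ (hO _) (hlog.pole g1 hg1O).1)

end

theorem descent {E L : Type*} [Field E] [CharZero E] [Field L] [Algebra E L]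
    (R : Subalgebra E L) [UniqueFactorizationMonoid R]
    (hunit : ∀ u ∈ R, ∀ v ∈ R, u * v = 1 → ∃ a : E, algebraMap E L a = u)
    (D : Derivation E L L) (hDR : ∀ x ∈ R, D x ∈ R)
    (hker : ∀ x : L, D x = 0 → ∃ a : E, algebraMap E L a = x)
    (heig : ∀ u ∈ R, u ≠ 0 → ∀ a : E, D u = algebraMap E L a * u → ∃ v ∈ R, u * v = 1)
    (tsen : ∀ a b : E, ∃ x y z : E, (x ≠ 0 ∨ y ≠ 0 ∨ z ≠ 0) ∧ x ^ 2 = a * y ^ 2 + b * z ^ 2)
    (O : ValuationSubring L) (hO : ∀ a : E, algebraMap E L a ∈ O) (hlog : IsLog O D)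
    (g : L) (hg : g ∈ R) (hgO : g ∉ O) (A : E) (hA : A ≠ 0)
    (hDg : D (D g) = algebraMap E L A * g) : False := by
  obtain ⟨t, ht⟩ := hlog.unif
  have main : ∀ n : ℕ, ∀ g ∈ R, g ∉ O → ∀ A : E, A ≠ 0 → D (D g) = algebraMap E L A * g →
      ∀ u : L, u ∈ O → u⁻¹ ∈ O → g = u * t ^ (-(n : ℤ)) → False := by
    intro n
    induction n using Nat.strong_induction_on with
    | _ n ih =>
      intro g hg hgO A hA hDg u hu hu' hgu
      have hg0 : g ≠ 0 := by
        rintro rfl
        exact hgO O.zero_mem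
      have hn : 1 ≤ n := by
        by_contra hcon
        apply hgO
        rw [hgu]
        exact mem_of_unit_mul hu ht.mem _ (by omega)
      obtain ⟨B, hB, hBg⟩ := integral_const R hunit D hDR hker heig g hg hg0 A hA hDg
      obtain ⟨x, y, z, hne, hxyz⟩ := tsen A (-A / B)
      have hz : z ≠ 0 := by
        rintro rfl
        have hy : y ≠ 0 := by
          rintro rfl
          have hx : x = 0 := by
            have : x ^ 2 = 0 := by rw [hxyz]; ring
            exact pow_eq_zero_iff (two_ne_zero) |>.1 this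
          simp [hx] at hne
        apply not_sq R hunit D hDR heig g hg hg0 A hA hDg (x / y)
        rw [div_pow, hxyz]
        field_simp
        ring
      have hxy : (x / z) ^ 2 - A * (y / z) ^ 2 = - A / B := by
        rw [div_pow, div_pow, hxyz]
        field_simp
        ring
      obtain ⟨g1, hg1⟩ : ∃ g1 : L, g1 = algebraMap E L (x / z) * g + algebraMap E L (y / z) * D g :=
        ⟨_, rfl⟩
      obtain ⟨hDD, hI, hg1O, hq, hq'⟩ := normalise D O hO hlog g hgO A B hA hB hBg hDg _ _ hxy g1 hg1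
      have hg1R : g1 ∈ R := by
        rw [hg1]
        exact R.add_mem (R.mul_mem (R.algebraMap_mem _) hg)
          (R.mul_mem (R.algebraMap_mem _) (hDR g hg))
      have hg11 : g1 ≠ 1 := by
        intro h
        exact hg1O (by rw [h]; exact O.one_mem)
      have hg10 : g1 ≠ 0 := by
        intro h
        exact hg1O (by rw [h]; exact O.zero_mem)
      obtain ⟨s, hs, ε, hε, hgs, hs0, hDs⟩ := step R hunit D hDR g1 hg1R A hA hDD hg11 hI
      obtain ⟨j, w, hw, hw', hsw⟩ := ht.fac s hs0
      have hu0 : u ≠ 0 := by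
        rintro rfl
        exact hg0 (by rw [hgu, zero_mul])
      have hw0 : w ≠ 0 := by
        rintro rfl
        exact hs0 (by rw [hsw, zero_mul])
      have hεL : algebraMap E L ε ≠ 0 := by
        rw [Ne, map_eq_zero]
        exact hε
      have hinv : g1⁻¹ ∈ O := (O.mem_or_inv_mem g1).resolve_left hg1O
      have hfrac : (1 - g1⁻¹) ∈ O := sub_mem O.one_mem hinv
      have hg1sub : g1 - 1 ≠ 0 := sub_ne_zero.2 hg11
      have hfrac' : (1 - g1⁻¹)⁻¹ ∈ O := by
        apply inv_mem_of_notMem_nonunits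
        intro hmem
        have h1 : g1⁻¹ ∈ O.nonunits := by
          rw [ValuationSubring.mem_nonunits_iff_or]
          right
          rw [inv_inv]
          exact hg1O
        have h2 : (1 : L) ∈ O.nonunits := by
          have h3 : (1 : L) = (1 - g1⁻¹) + g1⁻¹ := by ring
          rw [ValuationSubring.mem_nonunits_iff] at hmem h1 ⊢
          rw [h3]
          exact lt_of_le_of_lt (O.valuation.map_add _ _) (max_lt hmem h1)
        rw [ValuationSubring.mem_nonunits_iff, map_one] at h2
        exact lt_irrefl _ h2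
      have hkey : 2 * j = -(n : ℤ) := by
        apply unit_inj ht (u := algebraMap E L ε * w ^ 2) (v := (g1 / g) * (1 - g1⁻¹) * u)
        · exact O.mul_mem _ _ (hO _) (pow_mem hw 2)
        · rw [mul_inv, ← map_inv₀, ← inv_pow]
          exact O.mul_mem _ _ (hO _) (pow_mem hw' 2)
        · exact mul_ne_zero hεL (pow_ne_zero _ hw0)
        · exact O.mul_mem _ _ (O.mul_mem _ _ hq hfrac) hu
        · rw [mul_inv, mul_inv, inv_div]
          exact O.mul_mem _ _ (O.mul_mem _ _ hq' hfrac') hu'
        · refine mul_ne_zero (mul_ne_zero (div_ne_zero hg10 hg0) ?_) hu0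
          intro h
          apply hg1sub
          have h2 : g1 - 1 = g1 * (1 - g1⁻¹) := by field_simp
          rw [h2, h, mul_zero]
        · have h1 : algebraMap E L ε * w ^ 2 * t ^ (2 * j) = algebraMap E L ε * s ^ 2 := by
            rw [hsw, mul_pow, mul_comm 2 j, zpow_mul]
            norm_cast
            ring
          rw [h1, ← hgs]
          have h2 : g1 / g * (1 - g1⁻¹) * u * t ^ (-(n : ℤ)) = g1 / g * (1 - g1⁻¹) * g := by
            rw [mul_assoc, ← hgu]
          rw [h2]
          field_simp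
      obtain ⟨m, hm⟩ : ∃ m : ℕ, j = -(m : ℤ) := ⟨j.natAbs, by omega⟩
      have hmn : m < n := by omega
      have hsO : s ∉ O := by
        intro h
        have h1 : (1 : ℤ) ≤ m := by omega
        -- t⁻¹ would lie in O
        apply ht.inv
        have h2 : t⁻¹ = (w⁻¹ * s) * t ^ ((m : ℤ) - 1) := by
          rw [hsw, hm, zpow_sub_one₀ ht.ne, zpow_neg]
          have h3 : t ^ (m : ℤ) ≠ 0 := zpow_ne_zero _ ht.ne
          field_simp
        rw [h2]
        exact mem_of_unit_mul (O.mul_mem _ _ hw' h) ht.mem _ (by omega)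
      have hA4 : A / 4 ≠ 0 := div_ne_zero hA (by norm_num)
      exact ih m hmn s hs hsO (A / 4) hA4 hDs w hw hw' (by rw [hsw, hm])
  have hg0 : g ≠ 0 := by
    rintro rfl
    exact hgO O.zero_mem
  obtain ⟨j, u, hu, hu', hgu⟩ := ht.fac g hg0
  have hj : j < 0 := by
    by_contra hcon
    apply hgO
    rw [hgu]
    exact mem_of_unit_mul hu ht.mem _ (by omega)
  obtain ⟨m, hm⟩ : ∃ m : ℕ, j = -(m : ℤ) := ⟨j.natAbs, by omega⟩
  exact main m g hg hgO A hA hDg u hu hu' (by rw [hgu, hm])

end Pool.Agent.H928R2.Pen
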