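import Pool.Agent.H928R2.Pen0

/-!
# D-finite elements: an irreducible polynomial in `D` kills a nonzero element (task P1, helper793)
-/

set_option autoImplicit false

open Polynomial IntermediateField Pool.Agent.H928R2.Inv

namespace Pool.Agent.H928R2.Pen

namespace P1

section
variable {E L : Type*} [Field E] [Field L] [Algebra E L]

/-- the valuation ring as a submodule over the constants -/
def MO (O : ValuationSubring L) (hE : ∀ a : E, algebraMap E L a ∈ O) : Submodule E L where
  carrier := {x | x ∈ O}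
  add_mem' := fun hx hy => O.add_mem _ _ hx hy
  zero_mem' := O.zero_mem
  smul_mem' := fun a x hx => by
    show a • x ∈ O
    rw [Algebra.smul_def]
    exact O.mul_mem _ _ (hE a) hx

theorem nonunits_add {O : ValuationSubring L} {x y : L} (hx : x ∈ O.nonunits)
    (hy : y ∈ O.nonunits) : x + y ∈ O.nonunits := by
  rw [ValuationSubring.mem_nonunits_iff] at hx hy ⊢
  exact lt_of_le_of_lt (O.valuation.map_add x y) (max_lt hx hy)

/-- the maximal ideal as a submodule over the constants -/
def mO (O : ValuationSubring L) (hE : ∀ a : E, algebraMap E L a ∈ O) : Submodule E L where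
  carrier := {x | x ∈ O.nonunits}
  add_mem' := fun hx hy => nonunits_add hx hy
  zero_mem' := zero_nonunits O
  smul_mem' := fun a x hx => by
    show a • x ∈ O.nonunits
    rw [Algebra.smul_def, mul_comm]
    exact nonunits_mul hx (hE a)

theorem mem_MO {O : ValuationSubring L} {hE : ∀ a : E, algebraMap E L a ∈ O} {x : L} :
    x ∈ MO O hE ↔ x ∈ O := Iff.rfl

theorem mem_mO {O : ValuationSubring L} {hE : ∀ a : E, algebraMap E L a ∈ O} {x : L} :
    x ∈ mO O hE ↔ x ∈ O.nonunits := Iff.rfl

/-- the residue space -/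
abbrev QO (O : ValuationSubring L) (hE : ∀ a : E, algebraMap E L a ∈ O) : Type _ :=
  (MO O hE) ⧸ (mO O hE).comap (MO O hE).subtype

theorem QO_finite (O : ValuationSubring L) (hE : ∀ a : E, algebraMap E L a ∈ O)
    (h : ∃ n : ℕ, ∀ (m : ℕ) (f : Fin m → L), (∀ i, f i ∈ O) →
      (∀ a : Fin m → E, ∑ i, algebraMap E L (a i) * f i ∈ O.nonunits → a = 0) → m ≤ n) :
    Module.Finite E (QO O hE) := by
  obtain ⟨n, hn⟩ := h
  have h1 : Module.rank E (QO O hE) ≤ n := by
    apply rank_le
    intro s hs
    have hs' : LinearIndependent E (fun i : Fin s.card => ((s.equivFin.symm i : s) : QO O hE)) :=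
      hs.comp _ s.equivFin.symm.injective
    choose f hf using fun i : Fin s.card =>
      Submodule.Quotient.mk_surjective _ ((s.equivFin.symm i : s) : QO O hE)
    refine hn s.card (fun i => (f i : L)) (fun i => (f i).2) fun a ha => ?_
    have h2 : ∑ i, a i • ((s.equivFin.symm i : s) : QO O hE) = 0 := by
      have h3 : ∑ i, a i • ((s.equivFin.symm i : s) : QO O hE) =
          Submodule.Quotient.mk (∑ i, a i • f i) := by
        rw [← Submodule.mkQ_apply, map_sum]
        refine Finset.sum_congr rfl fun i _ => ?_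
        rw [map_smul, Submodule.mkQ_apply, hf]
      rw [h3, Submodule.Quotient.mk_eq_zero, Submodule.mem_comap, mem_mO]
      have h4 : ((MO O hE).subtype (∑ i, a i • f i) : L) = ∑ i, algebraMap E L (a i) * f i := by
        rw [map_sum]
        refine Finset.sum_congr rfl fun i _ => ?_
        rw [map_smul, Submodule.subtype_apply, Algebra.smul_def]
      rw [h4]
      exact ha
    have h5 := Fintype.linearIndependent_iff.1 hs' a h2
    funext i
    exact h5 i
  exact Module.rank_lt_aleph0_iff.1 (lt_of_le_of_lt h1 Cardinal.natCast_lt_aleph0)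

/-- functions in `R` with poles of order at most `N` -/
def VN (R : Subalgebra E L) (t : ValuationSubring L → L) (N : ℕ) : Submodule E L where
  carrier := {f | f ∈ R ∧ ∀ O ∈ SR R, t O ^ N * f ∈ O}
  add_mem' := fun {x y} hx hy => ⟨R.add_mem hx.1 hy.1, fun O hO => by
    rw [mul_add]
    exact O.add_mem _ _ (hx.2 O hO) (hy.2 O hO)⟩
  zero_mem' := ⟨R.zero_mem, fun O _ => by rw [mul_zero]; exact O.zero_mem⟩
  smul_mem' := fun a x hx => ⟨R.smul_mem hx.1 a, fun O hO => by
    rw [mul_smul_comm, Algebra.smul_def]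
    exact O.mul_mem _ _ (hO.1 a) (hx.2 O hO)⟩

theorem mem_VN {R : Subalgebra E L} {t : ValuationSubring L → L} {N : ℕ} {f : L} :
    f ∈ VN R t N ↔ f ∈ R ∧ ∀ O ∈ SR R, t O ^ N * f ∈ O := Iff.rfl

theorem VN_zero (hE : AlgCl E L) (R : Subalgebra E L) (t : ValuationSubring L → L) {f : L}
    (hf : f ∈ VN R t 0) : ∃ a : E, algebraMap E L a = f := by
  apply hE
  by_contra hcon
  obtain ⟨O, hO, hfO⟩ := exists_place f hcon
  apply hfO
  have := hf.2 O ⟨hO, f, hf.1, hfO⟩
  rwa [pow_zero, one_mul] at this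

/-- one residue map -/
theorem step (O : ValuationSubring L) (hE : ∀ a : E, algebraMap E L a ∈ O)
    (hQ : Module.Finite E (QO O hE)) (W W' : Submodule E L) (hW' : Module.Finite E W') (c : L)
    (h1 : ∀ f ∈ W, c * f ∈ O) (h2 : ∀ f ∈ W, c * f ∈ O.nonunits → f ∈ W') :
    Module.Finite E W := by
  let φ : W →ₗ[E] MO O hE :=
    LinearMap.codRestrict (MO O hE) ((LinearMap.mulLeft E c) ∘ₗ W.subtype) (fun f => h1 f f.2)
  let ψ : W →ₗ[E] QO O hE := ((mO O hE).comap (MO O hE).subtype).mkQ ∘ₗ φ
  have hker : ∀ f : W, ψ f = 0 → (f : L) ∈ W' := by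
    intro f hf
    apply h2 f f.2
    have h3 : (Submodule.Quotient.mk (φ f) : QO O hE) = 0 := hf
    have h4 := (Submodule.Quotient.mk_eq_zero _).1 h3
    exact h4
  have hk1 : Module.Finite E (LinearMap.ker ψ) := by
    let j : LinearMap.ker ψ →ₗ[E] W' :=
      LinearMap.codRestrict W' (W.subtype ∘ₗ (LinearMap.ker ψ).subtype) (fun f => hker f f.2)
    refine Module.Finite.of_injective j fun x y hxy => ?_
    apply Subtype.ext
    apply Subtype.ext
    exact congrArg (fun z : W' => (z : L)) hxy
  have hk2 : Module.Finite E (LinearMap.range ψ) := inferInstance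
  have hk3 : Module.Finite E (W ⧸ LinearMap.ker ψ) :=
    Module.Finite.equiv ψ.quotKerEquivRange.symm
  exact Module.Finite.of_submodule_quotient (LinearMap.ker ψ)

open Classical in
/-- functions in `R` with poles of order at most `N + 1` on `s`, at most `N` elsewhere -/
noncomputable def VS (R : Subalgebra E L) (t : ValuationSubring L → L) (N : ℕ)
    (s : Finset (ValuationSubring L)) : Submodule E L where
  carrier := {f | f ∈ R ∧ ∀ O ∈ SR R, t O ^ (if O ∈ s then N + 1 else N) * f ∈ O}
  add_mem' := fun {x y} hx hy => ⟨R.add_mem hx.1 hy.1, fun O hO => by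
    rw [mul_add]
    exact O.add_mem _ _ (hx.2 O hO) (hy.2 O hO)⟩
  zero_mem' := ⟨R.zero_mem, fun O _ => by rw [mul_zero]; exact O.zero_mem⟩
  smul_mem' := fun a x hx => ⟨R.smul_mem hx.1 a, fun O hO => by
    rw [mul_smul_comm, Algebra.smul_def]
    exact O.mul_mem _ _ (hO.1 a) (hx.2 O hO)⟩

theorem VS_finite (R : Subalgebra E L) (t : ValuationSubring L → L)
    (ht : ∀ O ∈ SR R, IsUnif O (t O))
    (hres : ∀ O ∈ SR R, ∃ n : ℕ, ∀ (m : ℕ) (f : Fin m → L), (∀ i, f i ∈ O) →
      (∀ a : Fin m → E, ∑ i, algebraMap E L (a i) * f i ∈ O.nonunits → a = 0) → m ≤ n)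
    (N : ℕ) (hN : Module.Finite E (VN R t N)) (s : Finset (ValuationSubring L))
    (hs : ∀ O ∈ s, O ∈ SR R) : Module.Finite E (VS R t N s) := by
  classical
  induction s using Finset.induction_on with
  | empty =>
    have h1 : VS R t N ∅ ≤ VN R t N := by
      intro f hf
      refine ⟨hf.1, fun O hO => ?_⟩
      have := hf.2 O hO
      rwa [if_neg (Finset.notMem_empty O)] at this
    exact Module.Finite.of_injective (Submodule.inclusion h1) (Submodule.inclusion_injective h1)
  | insert O s hOs ih =>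
    have hO := hs O (Finset.mem_insert_self O s)
    have ih' := ih fun O' hO' => hs O' (Finset.mem_insert_of_mem hO')
    refine step O hO.1 (QO_finite O hO.1 (hres O hO)) _ (VS R t N s) ih' (t O ^ (N + 1)) ?_ ?_
    · intro f hf
      have := hf.2 O hO
      rwa [if_pos (Finset.mem_insert_self O s)] at this
    · intro f hf hfn
      refine ⟨hf.1, fun O' hO' => ?_⟩
      by_cases hOO : O' = O
      · subst hOO
        rw [if_neg hOs]
        obtain ⟨g, hg, hg2⟩ := (ht O' hO').pow_of_nonunit hfn
        have h4 : t O' ^ N * f = g := by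
          have h5 : t O' * (t O' ^ N * f) = t O' * g := by
            rw [← hg2]; ring
          exact mul_left_cancel₀ (ht O' hO').ne h5
        rw [h4]
        exact hg
      · have h6 := hf.2 O' hO'
        have h7 : (O' ∈ insert O s) ↔ O' ∈ s := by
          rw [Finset.mem_insert]
          exact or_iff_right hOO
        simp only [h7] at h6
        exact h6

theorem VN_finite (hE : AlgCl E L) (R : Subalgebra E L) (hS : (SR R).Finite)
    (t : ValuationSubring L → L) (ht : ∀ O ∈ SR R, IsUnif O (t O))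
    (hres : ∀ O ∈ SR R, ∃ n : ℕ, ∀ (m : ℕ) (f : Fin m → L), (∀ i, f i ∈ O) →
      (∀ a : Fin m → E, ∑ i, algebraMap E L (a i) * f i ∈ O.nonunits → a = 0) → m ≤ n)
    (N : ℕ) : Module.Finite E (VN R t N) := by
  classical
  induction N with
  | zero =>
    have h1 : ∀ f : VN R t 0, ∃ a : E, algebraMap E L a = f := fun f => VN_zero hE R t f.2
    have h2 : (1 : L) ∈ VN R t 0 :=
      ⟨R.one_mem, fun O _ => by rw [pow_zero, one_mul]; exact O.one_mem⟩
    refine Module.Finite.of_surjective
      (LinearMap.toSpanSingleton E (VN R t 0) ⟨1, h2⟩) fun f => ?_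
    obtain ⟨a, ha⟩ := h1 f
    refine ⟨a, ?_⟩
    apply Subtype.ext
    rw [LinearMap.toSpanSingleton_apply, Submodule.coe_smul, Algebra.smul_def, mul_one]
    exact ha
  | succ N ih =>
    have h1 := VS_finite R t ht hres N ih hS.toFinset fun O hO => hS.mem_toFinset.1 hO
    have h2 : VN R t (N + 1) ≤ VS R t N hS.toFinset := by
      intro f hf
      refine ⟨hf.1, fun O hO => ?_⟩
      rw [if_pos (hS.mem_toFinset.2 hO)]
      exact hf.2 O hO
    exact Module.Finite.of_injective (Submodule.inclusion h2) (Submodule.inclusion_injective h2)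

theorem D_VN (R : Subalgebra E L) (t : ValuationSubring L → L) (N : ℕ)
    (ht : ∀ O ∈ SR R, t O ∈ O) (D : Derivation E L L) (hDR : ∀ x ∈ R, D x ∈ R)
    (hlog : ∀ O ∈ SR R, IsLog O D) {f : L} (hf : f ∈ VN R t N) : D f ∈ VN R t N := by
  refine ⟨hDR f hf.1, fun O hO => ?_⟩
  by_cases hfO : f ∈ O
  · exact O.mul_mem _ _ (pow_mem (ht O hO) N) (nonunits_mem ((hlog O hO).small f hfO))
  · have h0 : f ≠ 0 := by
      rintro rfl
      exact hfO O.zero_mem
    have h1 : t O ^ N * D f = (t O ^ N * f) * (D f / f) := by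
      field_simp
    rw [h1]
    exact O.mul_mem _ _ (hf.2 O hO) ((hlog O hO).pole f hfO).1

theorem const_of_D (hE : AlgCl E L) (R : Subalgebra E L) (D : Derivation E L L)
    (hlog : ∀ O ∈ SR R, IsLog O D) (hD : ∀ x : L, Transcendental E x → D x ≠ 0) {f : L}
    (hf : f ∈ R) {a : E} (ha : D f = algebraMap E L a) : ∃ a : E, algebraMap E L a = f := by
  apply hE
  by_contra hcon
  obtain ⟨O, hO, hfO⟩ := exists_place f hcon
  have hOS : O ∈ SR R := ⟨hO, f, hf, hfO⟩
  apply hfO
  have h1 := ((hlog O hOS).pole f hfO).2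
  have h2 : D f ≠ 0 := hD f hcon
  have h3 : f = D f * (D f / f)⁻¹ := by
    rw [inv_div, mul_div_cancel₀ _ h2]
  rw [h3]
  refine O.mul_mem _ _ ?_ h1
  rw [ha]
  exact hO a

theorem const_of_iterate (hE : AlgCl E L) (R : Subalgebra E L) (D : Derivation E L L)
    (hDR : ∀ x ∈ R, D x ∈ R)
    (hlog : ∀ O ∈ SR R, IsLog O D) (hD : ∀ x : L, Transcendental E x → D x ≠ 0) (k : ℕ) {f : L}
    (hf : f ∈ R) (ha : (D.toLinearMap ^ k : Module.End E L) f = 0) :
    ∃ a : E, algebraMap E L a = f := by
  induction k generalizing f with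
  | zero =>
    refine ⟨0, ?_⟩
    rw [map_zero]
    simpa using ha.symm
  | succ k ih =>
    have h1 : (D.toLinearMap ^ k : Module.End E L) (D f) = 0 := by
      rw [pow_succ] at ha
      exact ha
    obtain ⟨a, ha'⟩ := ih (hDR f hf) h1
    exact const_of_D hE R D hlog hD hf ha'.symm

theorem aeval_restrict (V : Submodule E L) (T : Module.End E V) (S : Module.End E L)
    (h : ∀ v : V, ((T v : V) : L) = S v) (p : E[X]) (v : V) :
    ((aeval T p v : V) : L) = aeval S p (v : L) := by
  induction p using Polynomial.induction_on' generalizing v with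
  | add p q hp hq =>
    rw [map_add, map_add, LinearMap.add_apply, LinearMap.add_apply, Submodule.coe_add, hp, hq]
  | monomial n a =>
    rw [aeval_monomial, aeval_monomial, Module.algebraMap_end_eq_smul_id,
      Module.algebraMap_end_eq_smul_id, Module.End.mul_apply, Module.End.mul_apply,
      LinearMap.smul_apply, LinearMap.smul_apply, LinearMap.id_apply, LinearMap.id_apply,
      Submodule.coe_smul]
    congr 1
    induction n generalizing v with
    | zero => simp
    | succ n ih =>
      rw [pow_succ, pow_succ, Module.End.mul_apply, Module.End.mul_apply, ih, h]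

end

end P1

/-- Task P1 (with the additional hypothesis `hD`, which excludes `D = 0`). -/
theorem exists_irred {E L : Type*} [Field E] [CharZero E] [Field L] [Algebra E L]
    (hE : AlgCl E L) (R : Subalgebra E L) (hS : (SR R).Finite)
    (hR : ∃ x ∈ R, Transcendental E x) (D : Derivation E L L) (hDR : ∀ x ∈ R, D x ∈ R)
    (hlog : ∀ O ∈ SR R, IsLog O D) (hD : ∀ x : L, Transcendental E x → D x ≠ 0) :
    ∃ (χ : E[X]) (g : L), Irreducible χ ∧ χ.coeff 0 ≠ 0 ∧ g ∈ R ∧ g ≠ 0 ∧
      aeval (D.toLinearMap : Module.End E L) χ g = 0 := by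
  classical
  have hu : ∀ O : ValuationSubring L, ∃ t : L, O ∈ SR R → IsUnif O t := by
    intro O
    by_cases hO : O ∈ SR R
    · obtain ⟨t, ht⟩ := (hlog O hO).unif
      exact ⟨t, fun _ => ht⟩
    · exact ⟨0, fun h => absurd h hO⟩
  choose t ht using hu
  obtain ⟨x, hxR, hx⟩ := hR
  -- a common bound for the poles of x
  have hN : ∃ N : ℕ, x ∈ P1.VN R t N := by
    have h1 : ∀ O : ValuationSubring L, ∃ m : ℕ, O ∈ SR R → ∀ n ≥ m, t O ^ n * x ∈ O := by
      intro O
      by_cases hO : O ∈ SR R
      · obtain ⟨m, hm⟩ := (ht O hO).exists_pow (ht O hO).ne (ht O hO).inv x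
        exact ⟨m, fun _ => hm⟩
      · exact ⟨0, fun h => absurd h hO⟩
    choose m hm using h1
    refine ⟨∑ O ∈ hS.toFinset, m O, hxR, fun O hO => hm O hO _ ?_⟩
    exact Finset.single_le_sum (f := m) (fun _ _ => Nat.zero_le _) (hS.mem_toFinset.2 hO)
  obtain ⟨N, hxN⟩ := hN
  have hfin : Module.Finite E (P1.VN R t N) :=
    P1.VN_finite hE R hS t ht (fun O hO => (hlog O hO).resfin) N
  -- the endomorphism induced by D
  let T : Module.End E (P1.VN R t N) :=
    LinearMap.restrict D.toLinearMap
      (fun f hf => P1.D_VN R t N (fun O hO => (ht O hO).mem) D hDR hlog hf)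
  have hT : ∀ v : P1.VN R t N, ((T v : P1.VN R t N) : L) = D.toLinearMap (v : L) := fun v => rfl
  have htr := P1.aeval_restrict (P1.VN R t N) T D.toLinearMap hT
  have hint : IsIntegral E T := Algebra.IsIntegral.isIntegral T
  set M := minpoly E T with hM
  have hM0 : M ≠ 0 := minpoly.ne_zero hint
  -- there is an irreducible factor not associated to X
  have hfac : ∃ χ : E[X], Irreducible χ ∧ χ.coeff 0 ≠ 0 ∧ χ ∣ M := by
    obtain ⟨M', hM', hM'0⟩ := exists_eq_pow_rootMultiplicity_mul_and_not_dvd M hM0 (0 : E)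
    rw [C_0, sub_zero] at hM' hM'0
    have hM'ne : M' ≠ 0 := by
      rintro rfl
      exact hM'0 (dvd_zero _)
    by_cases hunit : IsUnit M'
    · exfalso
      obtain ⟨c, hc, hcM⟩ := Polynomial.isUnit_iff.1 hunit
      have h2 : aeval T M = 0 := minpoly.aeval E T
      have h3 : (aeval T (X ^ (rootMultiplicity 0 M) : E[X])) = 0 := by
        have h4 : (X ^ (rootMultiplicity 0 M) : E[X]) = M * C (c⁻¹) := by
          conv_rhs => rw [hM']
          rw [← hcM, mul_assoc, ← C_mul, mul_inv_cancel₀ hc.ne_zero, C_1, mul_one]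
        rw [h4, map_mul, h2, zero_mul]
      have h5 := htr (X ^ (rootMultiplicity 0 M)) ⟨x, hxN⟩
      rw [h3, map_pow, aeval_X] at h5
      obtain ⟨a, ha⟩ := P1.const_of_iterate hE R D hDR hlog hD (rootMultiplicity 0 M) hxR h5.symm
      exact hx (by rw [← ha]; exact isAlgebraic_algebraMap a)
    · obtain ⟨χ, hχ, hχM⟩ := WfDvdMonoid.exists_irreducible_factor hunit hM'ne
      refine ⟨χ, hχ, fun h0 => hM'0 ((X_dvd_iff.2 h0).trans hχM), ?_⟩
      rw [hM']
      exact hχM.mul_left _
  obtain ⟨χ, hχ, hχ0, M'', hMM⟩ := hfac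
  have hM''0 : M'' ≠ 0 := by
    rintro rfl
    exact hM0 (by rw [hMM, mul_zero])
  have hne : aeval T M'' ≠ 0 := by
    intro h
    have h1 : M ∣ M'' := minpoly.dvd E T h
    have h2 := Polynomial.natDegree_le_of_dvd h1 hM''0
    rw [hMM, Polynomial.natDegree_mul hχ.ne_zero hM''0] at h2
    have h3 : 0 < χ.natDegree := hχ.natDegree_pos
    omega
  obtain ⟨v, hv⟩ : ∃ v, aeval T M'' v ≠ 0 := by
    by_contra hcon
    push Not at hcon
    exact hne (LinearMap.ext hcon)
  refine ⟨χ, ((aeval T M'' v : P1.VN R t N) : L), hχ, hχ0, (aeval T M'' v).2.1, ?_, ?_⟩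
  · intro h
    exact hv (Subtype.ext h)
  · have h6 : aeval T M = 0 := minpoly.aeval E T
    have h7 : (aeval T χ) ((aeval T M'') v) = 0 := by
      rw [← Module.End.mul_apply, ← map_mul, ← hMM]
      exact LinearMap.congr_fun h6 v
    rw [← htr, h7]
    rfl

end Pool.Agent.H928R2.Pen
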