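import Pool.Agent.H928R2.PenRatio

/-!
# A D-finite element with an irreducible annihilator has a quadratic eigenvalue
-/

set_option autoImplicit false

open Polynomial IntermediateField Pool.Agent.H928R2.Inv
open scoped IntermediateField.algebraAdjoinAdjoin

namespace Pool.Agent.H928R2.Pen

/-- derivations extend to finite extensions -/
theorem quad_ext {E L M : Type*} [Field E] [CharZero E] [Field L] [Algebra E L] [Field M]
    [Algebra L M] [Algebra E M] [IsScalarTower E L M] [FiniteDimensional L M]
    (D : Derivation E L L) :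
    ∃ D' : Derivation E M M, ∀ x : L, D' (algebraMap L M x) = algebraMap L M (D x) := by
  have : CharZero L := charZero_of_injective_algebraMap (algebraMap E L).injective
  letI i1 : Differential L := ⟨D.restrictScalars ℤ⟩
  letI i2 : Differential M := Differential.differentialFiniteDimensional L M
  have i3 : DifferentialAlgebra L M := Differential.differentialAlgebraFiniteDimensional
  have h1 : ∀ x : L, Differential.deriv (algebraMap L M x) = algebraMap L M (D x) :=
    fun x => i3.deriv_algebraMap x
  have h0 : ∀ a : E, Differential.deriv (algebraMap E M a) = (0 : M) := by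
    intro a
    rw [IsScalarTower.algebraMap_apply E L M, h1, D.map_algebraMap, map_zero]
  refine ⟨Derivation.mk'
    { toFun := fun x => Differential.deriv x
      map_add' := fun x y => map_add _ x y
      map_smul' := fun a x => by
        simp only [RingHom.id_apply]
        rw [Algebra.smul_def, Derivation.leibniz, h0, smul_zero, add_zero, smul_eq_mul,
          ← Algebra.smul_def] } (fun a b => by
      show Differential.deriv (a * b) = a • Differential.deriv b + b • Differential.deriv a
      exact Derivation.leibniz _ a b), fun x => h1 x⟩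

/-- transcendence degree at most one is inherited by algebraic extensions -/
theorem quad_tr1.{u, v} {E : Type u} {L M : Type v} [Field E] [Field L] [Algebra E L] [Field M]
    [Algebra L M] [Algebra E M] [IsScalarTower E L M] [Algebra.IsAlgebraic L M] (h : Tr1 E L) :
    Tr1 E M := by
  intro x hx
  by_cases hy : ∃ y : L, Transcendental E y
  · obtain ⟨y, hy⟩ := hy
    have h1 := h y hy
    have h2 : Algebra.IsAlgebraic (Algebra.adjoin E {y}) L :=
      (IsFractionRing.comap_isAlgebraic_iff (K := IntermediateField.adjoin E {y})).2 h1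
    have h3 : Algebra.trdeg E L ≤ 1 := by
      refine (Algebra.IsAlgebraic.trdeg_le_cardinalMk E {y}).trans ?_
      rw [Cardinal.mk_singleton]
    have h4 : Algebra.trdeg E M ≤ 1 := by
      rw [← _root_.trdeg_add_eq E L (A := M), trdeg_eq_zero (R := L) (A := M), add_zero]
      exact h3
    have h5 : AlgebraicIndependent E (fun _ : PUnit.{v + 1} => x) :=
      algebraicIndependent_unique_type_iff.2 hx
    have h6 := h5.isTranscendenceBasis_of_trdeg_le_of_finite (by
      rw [Cardinal.mk_punit]
      exact h4)
    have h7 := h6.isAlgebraic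
    rw [Set.range_const] at h7
    exact (IsFractionRing.comap_isAlgebraic_iff (K := IntermediateField.adjoin E {x})).1 h7
  · push Not at hy
    exfalso
    have h1 : Algebra.IsAlgebraic E L := ⟨fun y => by
      by_contra hcon
      exact hy y hcon⟩
    have h2 : Algebra.IsAlgebraic E M := Algebra.IsAlgebraic.trans E L M
    exact hx (h2.isAlgebraic x)

/-- polynomials of semilinearly conjugate endomorphisms -/
theorem quad_aeval_comm {E C V W : Type*} [CommRing E] [CommRing C] [AddCommGroup V] [Module E V]
    [AddCommGroup W] [Module C W] (S : Module.End E V) (T : Module.End C W) (φ : E →+* C)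
    (f : V →+ W) (hf : ∀ a v, f (a • v) = φ a • f v) (hS : ∀ v, f (S v) = T (f v))
    (χ : E[X]) (v : V) : f (aeval S χ v) = aeval T (χ.map φ) (f v) := by
  induction χ using Polynomial.induction_on' with
  | add p q hp hq =>
    simp only [map_add, Polynomial.map_add, LinearMap.add_apply, hp, hq]
  | monomial n a =>
    have h1 : ∀ n : ℕ, f ((S ^ n) v) = (T ^ n) (f v) := by
      intro n
      induction n with
      | zero => simp
      | succ n ih => rw [pow_succ', pow_succ', Module.End.mul_apply, Module.End.mul_apply, hS, ih]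
    rw [Polynomial.map_monomial, aeval_monomial, aeval_monomial, Module.End.mul_apply,
      Module.End.mul_apply, Module.algebraMap_end_apply, Module.algebraMap_end_apply, hf, h1]

/-- decomposition in eigenvectors -/
theorem quad_decomp {C V : Type*} [Field C] [AddCommGroup V] [Module C V] (T : Module.End C V)
    (s : Finset C) : ∀ g : V, aeval T (∏ r ∈ s, (X - Polynomial.C r)) g = 0 →
      ∃ G : C → V, (∀ r ∈ s, T (G r) = r • G r) ∧ g = ∑ r ∈ s, G r := by
  classical
  induction s using Finset.induction_on with
  | empty =>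
    intro g hg
    refine ⟨fun _ => 0, by simp, ?_⟩
    simpa using hg
  | insert r s hr ih =>
    intro g hg
    rw [Finset.prod_insert hr, mul_comm, map_mul, Module.End.mul_apply] at hg
    obtain ⟨H, hH, hsum⟩ := ih _ hg
    have h1 : aeval T (X - Polynomial.C r) g = T g - r • g := by
      rw [map_sub, aeval_X, aeval_C, LinearMap.sub_apply, Module.algebraMap_end_apply]
    rw [h1] at hsum
    have hne : ∀ t ∈ s, t - r ≠ 0 := fun t ht h0 => hr (by rw [← sub_eq_zero.1 h0]; exact ht)
    obtain ⟨g', hg'⟩ : ∃ g', g' = g - ∑ t ∈ s, (t - r)⁻¹ • H t := ⟨_, rfl⟩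
    refine ⟨fun t => if t = r then g' else (t - r)⁻¹ • H t, ?_, ?_⟩
    · intro t ht
      rcases Finset.mem_insert.1 ht with rfl | hts
      · simp only [if_true]
        have h2 : T g' - t • g' = 0 := by
          rw [hg', map_sub, map_sum, smul_sub, Finset.smul_sum]
          have h3 : ∑ x ∈ s, T ((x - t)⁻¹ • H x) - ∑ x ∈ s, t • (x - t)⁻¹ • H x
              = ∑ x ∈ s, H x := by
            rw [← Finset.sum_sub_distrib]
            refine Finset.sum_congr rfl (fun x hx => ?_)
            rw [map_smul, hH x hx, smul_smul, smul_smul, ← sub_smul]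
            have h4 : (x - t)⁻¹ * x - t * (x - t)⁻¹ = 1 := by
              have := hne x hx
              field_simp
            rw [h4, one_smul]
          rw [← hsum] at h3
          have h5 : T g - ∑ x ∈ s, T ((x - t)⁻¹ • H x) - (t • g - ∑ x ∈ s, t • (x - t)⁻¹ • H x)
              = (T g - t • g) - (∑ x ∈ s, T ((x - t)⁻¹ • H x) - ∑ x ∈ s, t • (x - t)⁻¹ • H x) := by
            abel
          rw [h5, h3, sub_self]
        exact sub_eq_zero.1 h2
      · have htr : t ≠ r := fun h => hr (h ▸ hts)
        simp only [if_neg htr]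
        rw [map_smul, hH t hts, smul_comm]
    · rw [Finset.sum_insert hr, if_pos rfl, Finset.sum_congr rfl (fun t ht => if_neg
        (fun h => hr (h ▸ ht) : t ≠ r)), hg']
      abel

/-- two roots of an irreducible polynomial with a rational ratio are equal up to sign -/
theorem quad_sq {E M : Type*} [Field E] [CharZero E] [Field M] [Algebra E M] (p : E[X])
    (hp : Irreducible p) (h0 : p.coeff 0 ≠ 0) (r r' : M) (hr : aeval r p = 0)
    (hr' : aeval r' p = 0) (i j : ℤ) (hij : i ≠ 0 ∨ j ≠ 0)
    (h : (i : M) * r + (j : M) * r' = 0) : r' ^ 2 = r ^ 2 := by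
  have : CharZero M := charZero_of_injective_algebraMap (algebraMap E M).injective
  have hne : ∀ t : M, aeval t p = 0 → t ≠ 0 := by
    rintro t ht rfl
    rw [← coeff_zero_eq_aeval_zero'] at ht
    exact h0 ((map_eq_zero _).1 ht)
  have hr0 := hne r hr
  have hr0' := hne r' hr'
  have hi : i ≠ 0 := by
    rintro rfl
    have hj : j ≠ 0 := by simpa using hij
    rw [Int.cast_zero, zero_mul, zero_add] at h
    rcases mul_eq_zero.1 h with h1 | h1
    · exact hj (by exact_mod_cast h1)
    · exact hr0' h1
  have hj : j ≠ 0 := by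
    rintro rfl
    rw [Int.cast_zero, zero_mul, add_zero] at h
    rcases mul_eq_zero.1 h with h1 | h1
    · exact hi (by exact_mod_cast h1)
    · exact hr0 h1
  have hq : minpoly E r = minpoly E r' := by
    rw [← minpoly.eq_of_irreducible hp hr, ← minpoly.eq_of_irreducible hp hr']
  have hint : IsIntegral E r := by
    refine isAlgebraic_iff_isIntegral.1 ⟨p, hp.ne_zero, hr⟩
  obtain ⟨q, hqdef⟩ : ∃ q, q = minpoly E r := ⟨_, rfl⟩
  have hqm : q.Monic := by rw [hqdef]; exact minpoly.monic hint
  have hqr : aeval r q = 0 := by rw [hqdef]; exact minpoly.aeval E r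
  have hqr' : aeval r' q = 0 := by rw [hqdef, hq]; exact minpoly.aeval E r'
  have hq0 : q.coeff 0 ≠ 0 := by rw [hqdef]; exact minpoly.coeff_zero_ne_zero hint hr0
  have hqd : q.natDegree ≠ 0 := by
    rw [hqdef]
    exact (minpoly.natDegree_pos hint).ne'
  obtain ⟨θ, hθ⟩ : ∃ θ : M, θ = algebraMap E M (j : E) * r' := ⟨_, rfl⟩
  have hθ2 : θ = algebraMap E M ((-i : ℤ) : E) * r := by
    rw [hθ, map_intCast, map_intCast]
    push_cast
    linear_combination h
  have h1 : aeval θ (q.scaleRoots (j : E)) = 0 := by
    rw [hθ]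
    exact scaleRoots_aeval_eq_zero hqr'
  have h2 : aeval θ (q.scaleRoots ((-i : ℤ) : E)) = 0 := by
    rw [hθ2]
    exact scaleRoots_aeval_eq_zero hqr
  have hm1 : (q.scaleRoots (j : E)).Monic := (monic_scaleRoots_iff _).2 hqm
  have hm2 : (q.scaleRoots ((-i : ℤ) : E)).Monic := (monic_scaleRoots_iff _).2 hqm
  have hθint : IsIntegral E θ := ⟨_, hm1, h1⟩
  have hdeg : q.degree ≤ (minpoly E θ).degree := by
    have h3 : aeval r ((minpoly E θ).scaleRoots (((-i : ℤ) : E)⁻¹)) = 0 := by
      have h4 : r = algebraMap E M (((-i : ℤ) : E)⁻¹) * θ := by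
        rw [hθ2, ← mul_assoc, ← map_mul, inv_mul_cancel₀, map_one, one_mul]
        exact_mod_cast neg_ne_zero.2 hi
      have h5 := scaleRoots_aeval_eq_zero (r := (((-i : ℤ) : E)⁻¹)) (minpoly.aeval E θ)
      rwa [← h4] at h5
    have h4 := minpoly.min E r ((monic_scaleRoots_iff _).2 (minpoly.monic hθint)) h3
    rw [degree_scaleRoots, ← hqdef] at h4
    exact h4
  have hS : q.scaleRoots (j : E) = q.scaleRoots ((-i : ℤ) : E) := by
    by_contra hcon
    have h3 : q.scaleRoots (j : E) - q.scaleRoots ((-i : ℤ) : E) ≠ 0 := sub_ne_zero.2 hcon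
    have h4 := minpoly.degree_le_of_ne_zero E θ h3 (by rw [map_sub, h1, h2, sub_zero])
    have h5 := degree_sub_lt (p := q.scaleRoots (j : E)) (q := q.scaleRoots ((-i : ℤ) : E))
      (by rw [degree_scaleRoots, degree_scaleRoots]) hm1.ne_zero
      (by rw [hm1.leadingCoeff, hm2.leadingCoeff])
    rw [degree_scaleRoots] at h5
    exact absurd (hdeg.trans h4) (not_le.2 h5)
  have hc := congrArg (fun P => P.coeff 0) hS
  simp only [coeff_scaleRoots, Nat.sub_zero] at hc
  have hc2 := mul_left_cancel₀ hq0 hc
  have hc3 : j ^ q.natDegree = (-i) ^ q.natDegree := by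
    have : ((j ^ q.natDegree : ℤ) : E) = (((-i) ^ q.natDegree : ℤ) : E) := by
      push_cast
      push_cast at hc2
      exact hc2
    exact_mod_cast this
  have hc4 : j.natAbs ^ q.natDegree = i.natAbs ^ q.natDegree := by
    have := congrArg Int.natAbs hc3
    rwa [Int.natAbs_pow, Int.natAbs_pow, Int.natAbs_neg] at this
  have hc5 : j.natAbs = i.natAbs := Nat.pow_left_injective hqd hc4
  have hiM : (i : M) ≠ 0 := by exact_mod_cast hi
  rcases Int.natAbs_eq_natAbs_iff.1 hc5 with hji | hji
  · rw [hji] at h
    have h6 : (i : M) * (r + r') = 0 := by linear_combination h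
    have h7 := (mul_eq_zero.1 h6).resolve_left hiM
    have h8 : r' = -r := by linear_combination h7
    rw [h8]
    ring
  · rw [hji] at h
    push_cast at h
    have h6 : (i : M) * (r - r') = 0 := by linear_combination h
    have h7 := (mul_eq_zero.1 h6).resolve_left hiM
    have h8 : r' = r := by linear_combination -h7
    rw [h8]

/-- the field of constants of a derivation -/
def quadC {E M : Type*} [Field E] [Field M] [Algebra E M] (D : Derivation E M M) :
    IntermediateField E M where
  carrier := {x | D x = 0}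
  mul_mem' := by
    intro a b ha hb
    simp only [Set.mem_setOf_eq] at ha hb ⊢
    rw [Derivation.leibniz, ha, hb]
    simp
  add_mem' := by
    intro a b ha hb
    simp only [Set.mem_setOf_eq] at ha hb ⊢
    rw [map_add, ha, hb, add_zero]
  algebraMap_mem' := by
    intro a
    simp only [Set.mem_setOf_eq]
    exact D.map_algebraMap a
  inv_mem' := by
    intro a ha
    have ha' : D a = 0 := ha
    show D a⁻¹ = 0
    rw [Derivation.leibniz_inv, ha', smul_zero]

theorem quad_core {E M : Type*} [Field E] [CharZero E] [Field M] [Algebra E M] (h1 : Tr1 E M)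
    (D : Derivation E M M) (χ : E[X]) (g : M) (hχ : Irreducible χ) (h0 : χ.coeff 0 ≠ 0)
    (hs : (χ.map (algebraMap E M)).Splits) (hg : g ≠ 0)
    (h : aeval (D.toLinearMap : Module.End E M) χ g = 0) :
    ∃ r : M, aeval r χ = 0 ∧ D (D g) = r ^ 2 * g := by
  classical
  have hDr : ∀ r : M, aeval r χ = 0 → D r = 0 := by
    intro r hr
    have h2 : aeval r (derivative χ) ≠ 0 := by
      intro h3
      obtain ⟨a, b, hab⟩ := hχ.separable
      have h4 := congrArg (aeval r) hab
      rw [map_add, map_mul, map_mul, hr, h3, mul_zero, mul_zero, add_zero, map_one] at h4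
      exact zero_ne_one h4
    have h3 := D.map_aeval χ r
    rw [hr, map_zero, smul_eq_mul] at h3
    exact (mul_eq_zero.1 h3.symm).resolve_left h2
  obtain ⟨C, hC⟩ : ∃ C : IntermediateField E M, ∀ x, x ∈ C ↔ D x = 0 :=
    ⟨quadC D, fun x => Iff.rfl⟩
  obtain ⟨T, hT⟩ : ∃ T : Module.End C M, ∀ x, T x = D x := by
    have hsm : ∀ (c : C) (x : M), D (c • x) = c • D x := by
      intro c x
      rw [IntermediateField.smul_def, smul_eq_mul, Derivation.leibniz, (hC c).1 c.2, smul_zero,
        add_zero]
      rfl
    exact ⟨{  toFun := fun x => D x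
              map_add' := fun x y => map_add D x y
              map_smul' := fun c x => hsm c x }, fun x => rfl⟩
  have hTg : aeval T (χ.map (algebraMap E C)) g = 0 := by
    have h2 := quad_aeval_comm (D.toLinearMap : Module.End E M) T (algebraMap E C)
      (AddMonoidHom.id M) (fun a v => by
        rw [AddMonoidHom.id_apply, AddMonoidHom.id_apply, algebraMap_smul])
      (fun v => by
        rw [AddMonoidHom.id_apply, AddMonoidHom.id_apply, hT]
        rfl) χ g
    rw [h, map_zero, AddMonoidHom.id_apply] at h2
    exact h2.symm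
  have hsC : (χ.map (algebraMap E C)).Splits := by
    refine IntermediateField.splits_of_splits hs (fun x hx => ?_)
    rw [hC]
    exact hDr x (mem_rootSet.1 hx).2
  have hχC0 : χ.map (algebraMap E C) ≠ 0 := by
    rw [Polynomial.map_ne_zero_iff (algebraMap E C).injective]
    exact hχ.ne_zero
  have hnd : (χ.map (algebraMap E C)).roots.Nodup :=
    nodup_roots (hχ.separable.map)
  have hprod := hsC.eq_prod_roots
  have hprod2 : χ.map (algebraMap E C) = Polynomial.C (χ.map (algebraMap E C)).leadingCoeff *
      ∏ r ∈ (χ.map (algebraMap E C)).roots.toFinset, (X - Polynomial.C r) := by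
    conv_lhs => rw [hprod]
    congr 1
    rw [Finset.prod_eq_multiset_prod, Multiset.toFinset_val, Multiset.dedup_eq_self.2 hnd]
  obtain ⟨s, hsdef⟩ : ∃ s, s = (χ.map (algebraMap E C)).roots.toFinset := ⟨_, rfl⟩
  rw [← hsdef] at hprod2
  have hroot : ∀ r ∈ s, aeval (r : M) χ = 0 := by
    intro r hr
    rw [hsdef, Multiset.mem_toFinset, mem_roots hχC0, IsRoot.def, eval_map_algebraMap] at hr
    have h2 := congrArg (algebraMap C M) hr
    rw [map_zero, ← aeval_algebraMap_apply] at h2
    exact h2
  have hkill : aeval T (∏ r ∈ s, (X - Polynomial.C r)) g = 0 := by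
    rw [hprod2, map_mul, aeval_C, Module.End.mul_apply, Module.algebraMap_end_apply] at hTg
    rcases smul_eq_zero.1 hTg with h2 | h2
    · exact absurd (leadingCoeff_eq_zero.1 h2) hχC0
    · exact h2
  obtain ⟨G, hG, hsum⟩ := quad_decomp T s g hkill
  have hDG : ∀ r ∈ s, D (G r) = (r : M) * G r := by
    intro r hr
    rw [← hT, hG r hr, IntermediateField.smul_def, smul_eq_mul]
  have hex : ∃ r1 ∈ s, G r1 ≠ 0 := by
    by_contra hcon
    push Not at hcon
    exact hg (by rw [hsum]; exact Finset.sum_eq_zero hcon)
  obtain ⟨r1, hr1, hGr1⟩ := hex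
  refine ⟨(r1 : M), hroot r1 hr1, ?_⟩
  have hsq : ∀ r ∈ s, D (D (G r)) = (r1 : M) ^ 2 * G r := by
    intro r hr
    by_cases hGr : G r = 0
    · rw [hGr]
      simp
    · obtain ⟨i, j, hij, hrel⟩ := ratio h1 D (G r1) (G r) r1 r hGr1 hGr
        (hDr _ (hroot r1 hr1)) (hDr _ (hroot r hr)) (hDG r1 hr1) (hDG r hr)
      have h2 := quad_sq χ hχ h0 (r1 : M) (r : M) (hroot r1 hr1) (hroot r hr) i j hij hrel
      rw [hDG r hr, Derivation.leibniz, hDr _ (hroot r hr), hDG r hr, smul_zero, add_zero,
        smul_eq_mul, ← h2]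
      ring
  rw [hsum, map_sum, map_sum, Finset.mul_sum]
  exact Finset.sum_congr rfl hsq

theorem quad_of_irred.{u, v} {E : Type u} {L : Type v} [Field E] [CharZero E] [Field L]
    [Algebra E L] (hE : AlgCl E L) (h1 : Tr1 E L) (D : Derivation E L L) (χ : E[X]) (g : L)
    (hχ : Irreducible χ) (h0 : χ.coeff 0 ≠ 0) (hg : g ≠ 0)
    (h : aeval (D.toLinearMap : Module.End E L) χ g = 0) :
    ∃ A : E, A ≠ 0 ∧ D (D g) = algebraMap E L A * g := by
  obtain ⟨D', hD'⟩ := quad_ext (M := (χ.map (algebraMap E L)).SplittingField) D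
  have hsplit : (χ.map (algebraMap E (χ.map (algebraMap E L)).SplittingField)).Splits := by
    have h2 := SplittingField.splits (χ.map (algebraMap E L))
    rwa [Polynomial.map_map, ← IsScalarTower.algebraMap_eq] at h2
  have hinj := (algebraMap L (χ.map (algebraMap E L)).SplittingField).injective
  have hg' : algebraMap L (χ.map (algebraMap E L)).SplittingField g ≠ 0 := by
    rwa [Ne, map_eq_zero]
  have h' : aeval (D'.toLinearMap : Module.End E (χ.map (algebraMap E L)).SplittingField) χ
      (algebraMap L (χ.map (algebraMap E L)).SplittingField g) = 0 := by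
    have h2 := quad_aeval_comm (D.toLinearMap : Module.End E L)
      (D'.toLinearMap : Module.End E (χ.map (algebraMap E L)).SplittingField) (RingHom.id E)
      (algebraMap L (χ.map (algebraMap E L)).SplittingField).toAddMonoidHom
      (fun a v => by
        show algebraMap L _ (a • v) = a • algebraMap L _ v
        rw [Algebra.smul_def, map_mul, ← IsScalarTower.algebraMap_apply, ← Algebra.smul_def])
      (fun v => (hD' v).symm) χ g
    rw [h, map_zero, Polynomial.map_id] at h2
    exact h2.symm
  obtain ⟨r, hr, hDD⟩ := quad_core (quad_tr1 h1) D' χ _ hχ h0 hsplit hg' h'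
  rw [hD', hD'] at hDD
  have hr2 : algebraMap L (χ.map (algebraMap E L)).SplittingField (D (D g) / g) = r ^ 2 := by
    rw [map_div₀, hDD, mul_div_assoc, div_self hg', mul_one]
  have halg : IsAlgebraic E r := ⟨χ, hχ.ne_zero, hr⟩
  have halg2 : IsAlgebraic E (D (D g) / g) := by
    have h2 : IsAlgebraic E (algebraMap L (χ.map (algebraMap E L)).SplittingField (D (D g) / g)) := by
      rw [hr2]
      exact halg.pow 2
    exact (isAlgebraic_algebraMap_iff hinj).1 h2
  obtain ⟨A, hA⟩ := hE _ halg2
  refine ⟨A, ?_, ?_⟩
  · rintro rfl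
    rw [map_zero] at hA
    rw [← hA, map_zero] at hr2
    have h3 : r = 0 := pow_eq_zero_iff (two_ne_zero) |>.1 hr2.symm
    rw [h3, ← coeff_zero_eq_aeval_zero'] at hr
    exact h0 ((map_eq_zero _).1 hr)
  · rw [hA]
    field_simp

end Pool.Agent.H928R2.Pen
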