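import Pool.Agent.H928R2.Pen0

/-!
# Semilinear endomorphisms of a function field in one variable
-/

set_option autoImplicit false

open Polynomial IntermediateField Pool.Agent.H928R2.Inv

namespace Pool.Agent.H928R2.Pen

section
variable {E L : Type*} [Field E] [Field L] [Algebra E L]

theorem poly_zero_of_res (O : ValuationSubring L) (hE : ∀ a : E, algebraMap E L a ∈ O) (t : L)
    (ht0 : t ≠ 0) (ht : t ∈ O.nonunits) (m : ℕ) (f : Fin m → L) (hf : ∀ i, f i ∈ O)
    (hind : ∀ a : Fin m → E, ∑ i, algebraMap E L (a i) * f i ∈ O.nonunits → a = 0) :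
    ∀ (N : ℕ) (p : Fin m → E[X]), (∀ i, (p i).natDegree ≤ N) →
      ∑ i, aeval t (p i) * f i = 0 → p = 0 := by
  have hstep : ∀ p : Fin m → E[X], ∑ i, aeval t (p i) * f i = 0 → ∀ i, (p i).coeff 0 = 0 := by
    intro p hp
    have h1 : ∑ i, algebraMap E L ((p i).coeff 0) * f i ∈ O.nonunits := by
      have h2 : ∀ i, aeval t (p i) = t * aeval t (p i).divX + algebraMap E L ((p i).coeff 0) := by
        intro i
        conv_lhs => rw [← divX_mul_X_add (p i)]
        rw [map_add, map_mul, aeval_X, aeval_C, mul_comm]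
      have h3 : ∑ i, algebraMap E L ((p i).coeff 0) * f i =
          t * (- ∑ i, aeval t (p i).divX * f i) := by
        have h4 : ∑ i, aeval t (p i) * f i = t * (∑ i, aeval t (p i).divX * f i) +
            ∑ i, algebraMap E L ((p i).coeff 0) * f i := by
          rw [Finset.mul_sum, ← Finset.sum_add_distrib]
          refine Finset.sum_congr rfl fun i _ => ?_
          rw [h2 i]
          ring
        rw [hp] at h4
        linear_combination -h4
      rw [h3]
      refine nonunits_mul ht (O.neg_mem _ (sum_mem fun i _ => ?_))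
      exact O.mul_mem _ _ (aeval_mem hE (nonunits_mem ht) _) (hf i)
    intro i
    exact congrFun (hind _ h1) i
  intro N
  induction N with
  | zero =>
    intro p hN hp
    funext i
    rw [eq_C_of_natDegree_le_zero (hN i), hstep p hp i, map_zero]
    rfl
  | succ N ih =>
    intro p hN hp
    have h0 := hstep p hp
    have h1 : ∀ i, p i = (p i).divX * X := by
      intro i
      conv_lhs => rw [← divX_mul_X_add (p i)]
      rw [h0 i, map_zero, add_zero]
    have h2 : (fun i => (p i).divX) = 0 := by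
      apply ih
      · intro i
        rw [natDegree_divX_eq_natDegree_tsub_one]
        have := hN i
        omega
      · have h3 : ∑ i, aeval t (p i) * f i = t * ∑ i, aeval t (p i).divX * f i := by
          rw [Finset.mul_sum]
          refine Finset.sum_congr rfl fun i _ => ?_
          conv_lhs => rw [h1 i]
          rw [map_mul, aeval_X]
          ring
        rw [h3] at hp
        exact (mul_eq_zero.1 hp).resolve_left ht0
    funext i
    rw [h1 i, show (p i).divX = 0 from congrFun h2 i, zero_mul]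
    rfl

open scoped algebraAdjoinAdjoin in
theorem res_fin (O : ValuationSubring L) (hE : ∀ a : E, algebraMap E L a ∈ O) (t : L)
    (ht0 : t ≠ 0) (ht : t ∈ O.nonunits)
    (hfin : FiniteDimensional (IntermediateField.adjoin E {t}) L) :
    ∃ n : ℕ, ∀ (m : ℕ) (f : Fin m → L), (∀ i, f i ∈ O) →
      (∀ a : Fin m → E, ∑ i, algebraMap E L (a i) * f i ∈ O.nonunits → a = 0) → m ≤ n := by
  refine ⟨Module.finrank (IntermediateField.adjoin E {t}) L, fun m f hf hind => ?_⟩
  have h1 : LinearIndependent (Algebra.adjoin E {t}) f := by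
    rw [Fintype.linearIndependent_iff]
    intro g hg
    have hcoef : ∀ a : Algebra.adjoin E {t}, ∃ P : E[X], aeval t P = (a : L) := by
      intro a
      have h3 : (a : L) ∈ (aeval t : E[X] →ₐ[E] L).range := by
        rw [← Algebra.adjoin_singleton_eq_range_aeval]
        exact a.2
      obtain ⟨P, hP⟩ := h3
      exact ⟨P, hP⟩
    choose P hP using fun i => hcoef (g i)
    have h2 : ∑ i, aeval t (P i) * f i = 0 := by
      rw [← hg]
      refine Finset.sum_congr rfl fun i _ => ?_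
      rw [hP i]
      rfl
    have h3 := poly_zero_of_res O hE t ht0 ht m f hf hind
      (Finset.univ.sup fun i => (P i).natDegree) P
      (fun i => Finset.le_sup (f := fun i => (P i).natDegree) (Finset.mem_univ i)) h2
    intro i
    apply Subtype.ext
    rw [← hP i, h3]
    simp
  have h2 : LinearIndependent (IntermediateField.adjoin E {t}) f :=
    (LinearIndependent.iff_fractionRing (R := Algebra.adjoin E {t})
      (K := IntermediateField.adjoin E {t})).1 h1
  simpa using h2.fintype_card_le_finrank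

theorem res_surj' (O : ValuationSubring L) (hE : ∀ a : E, algebraMap E L a ∈ O)
    (hfin : ∃ n : ℕ, ∀ (m : ℕ) (f : Fin m → L), (∀ i, f i ∈ O) →
      (∀ a : Fin m → E, ∑ i, algebraMap E L (a i) * f i ∈ O.nonunits → a = 0) → m ≤ n)
    (Φ : L →+* L) (hΦ : ∀ f, Φ f ∈ O ↔ f ∈ O)
    (hΦE : ∀ a : E, ∃ b : E, Φ (algebraMap E L b) = algebraMap E L a) (f : L) (hf : f ∈ O) :
    ∃ g ∈ O, f - Φ g ∈ O.nonunits := by
  classical
  have hΦn : ∀ f, f ∈ O.nonunits ↔ Φ f ∈ O.nonunits := by
    intro f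
    rw [ValuationSubring.mem_nonunits_iff_or, ValuationSubring.mem_nonunits_iff_or,
      ← map_inv₀, hΦ, map_eq_zero]
  obtain ⟨n, hn⟩ := hfin
  let good : ℕ → Prop := fun m => ∃ f : Fin m → L, (∀ i, f i ∈ O) ∧
      (∀ a : Fin m → E, ∑ i, algebraMap E L (a i) * f i ∈ O.nonunits → a = 0)
  have hgood0 : good 0 := ⟨Fin.elim0, fun i => i.elim0, fun a _ => Subsingleton.elim _ _⟩
  have hbound : ∀ m, good m → m ≤ n := by
    rintro m ⟨f, hf, hind⟩
    exact hn m f hf hind
  obtain ⟨m, hm, hmax⟩ : ∃ m, good m ∧ ∀ m', good m' → m' ≤ m := by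
    refine ⟨Nat.findGreatest good n, Nat.findGreatest_spec (Nat.zero_le n) hgood0, ?_⟩
    intro m' hm'
    exact Nat.le_findGreatest (hbound m' hm') hm'
  obtain ⟨b, hb, hind⟩ := hm
  choose β hβ using hΦE
  have hnot : ¬ good (m + 1) := fun h => by
    have := hmax _ h
    omega
  have h1 : ∃ a : Fin (m + 1) → E, ∑ i, algebraMap E L (a i) *
      (Fin.cons f (fun i => Φ (b i)) : Fin (m + 1) → L) i ∈ O.nonunits ∧ a ≠ 0 := by
    by_contra hcon
    push Not at hcon
    apply hnot
    refine ⟨Fin.cons f (fun i => Φ (b i)), ?_, hcon⟩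
    intro i
    refine Fin.cases ?_ (fun i => ?_) i
    · exact hf
    · exact (hΦ _).2 (hb i)
  obtain ⟨a, ha, ha0⟩ := h1
  rw [Fin.sum_univ_succ] at ha
  simp only [Fin.cons_zero, Fin.cons_succ] at ha
  have hsum : ∀ c : Fin m → E, ∑ i, algebraMap E L (c i) * Φ (b i) =
      Φ (∑ i, algebraMap E L (β (c i)) * b i) := by
    intro c
    rw [map_sum]
    refine Finset.sum_congr rfl fun i _ => ?_
    rw [map_mul, hβ]
  have ha00 : a 0 ≠ 0 := by
    intro h0
    apply ha0
    rw [h0, map_zero, zero_mul, zero_add, hsum, ← hΦn] at ha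
    have h2 := hind _ ha
    funext i
    refine Fin.cases h0 (fun i => ?_) i
    have h3 : β (a i.succ) = 0 := congrFun h2 i
    have h4 := hβ (a i.succ)
    rw [h3, map_zero, map_zero] at h4
    exact ((algebraMap E L).injective (by rw [← h4, Pi.zero_apply, map_zero]))
  have haL : algebraMap E L (a 0) ≠ 0 := (map_ne_zero (algebraMap E L)).2 ha00
  refine ⟨- ∑ i, algebraMap E L (β (a i.succ / a 0)) * b i, O.neg_mem _
    (sum_mem fun i _ => O.mul_mem _ _ (hE _) (hb i)), ?_⟩
  rw [map_neg, ← hsum, sub_neg_eq_add]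
  have h5 : f + ∑ i, algebraMap E L (a i.succ / a 0) * Φ (b i) =
      (algebraMap E L (a 0) * f + ∑ i, algebraMap E L (a i.succ) * Φ (b i)) *
        algebraMap E L (a 0)⁻¹ := by
    rw [add_mul, Finset.sum_mul, map_inv₀]
    congr 1
    · field_simp
    · refine Finset.sum_congr rfl fun i _ => ?_
      rw [map_div₀]
      field_simp
  rw [h5]
  exact nonunits_mul ha (hE _)

end

section
variable {E L : Type*} [Field E] [CharZero E] [Field L] [Algebra E L]

theorem ram_or_log (O : ValuationSubring L) (hE : ∀ a : E, algebraMap E L a ∈ O)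
    (t : L) (ht : IsUnif O t) (D : Derivation E L L) (hDt : D t ≠ 0)
    (hder : ∀ f ∈ O, D f / D t ∈ O)
    (Φ : L →+* L) (hΦ : ∀ f, Φ f ∈ O ↔ f ∈ O) (c : L) (hc : c ≠ 0) (hcO : c ∈ O)
    (hcO' : c⁻¹ ∈ O) (hD : ∀ f, D (Φ f) = c * Φ (D f)) :
    (∃ u, u ∈ O ∧ u⁻¹ ∈ O ∧ Φ t = u * t) ∨ (∃ w, w ∈ O ∧ w⁻¹ ∈ O ∧ D t = w * t) := by
  have hΦn : ∀ f, f ∈ O.nonunits → Φ f ∈ O.nonunits := by
    intro f hf
    rw [ValuationSubring.mem_nonunits_iff_or] at hf ⊢
    rcases hf with h | h
    · left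
      rw [h, map_zero]
    · right
      rw [← map_inv₀, hΦ]
      exact h
  have hΦt0 : Φ t ≠ 0 := (map_ne_zero Φ).2 ht.ne
  obtain ⟨e, u, hu, hui, h1⟩ := ht.fac (Φ t) hΦt0
  obtain ⟨a, w, hw, hwi, h2⟩ := ht.fac (D t) hDt
  have hu0 : u ≠ 0 := by
    rintro rfl
    rw [zero_mul] at h1
    exact hΦt0 h1
  have hw0 : w ≠ 0 := by
    rintro rfl
    rw [zero_mul] at h2
    exact hDt h2
  have he : 1 ≤ e := by
    by_contra hcon
    refine notMem_nonunits_of_inv hΦt0 ?_ (hΦn t ht.nonunit)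
    rw [h1, mul_inv, ← zpow_neg]
    exact mem_of_unit_mul hui ht.mem _ (by omega)
  obtain ⟨n, rfl⟩ : ∃ n : ℕ, e = n := ⟨e.toNat, by omega⟩
  have hn : 1 ≤ n := by exact_mod_cast he
  by_cases hn1 : n = 1
  · left
    refine ⟨u, hu, hui, ?_⟩
    rw [h1, hn1]
    simp
  right
  -- the main relation
  have hs : D u / D t ∈ O := hder u hu
  set s := D u / D t with hsdef
  have hDu : D u = s * D t := by
    rw [hsdef, div_mul_cancel₀ _ hDt]
  have h3 : D (Φ t) = t ^ (n - 1) * D t * (n * u + t * s) := by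
    rw [h1, zpow_natCast, Derivation.leibniz, Derivation.leibniz_pow, smul_eq_mul, smul_eq_mul,
      hDu, nsmul_eq_mul, smul_eq_mul]
    obtain ⟨m, rfl⟩ : ∃ m, n = m + 1 := ⟨n - 1, by omega⟩
    rw [Nat.add_sub_cancel]
    ring
  have hz : (n * u + t * s : L) ∉ O.nonunits := by
    intro hmem
    have h4 : (n * u : L) ∈ O.nonunits := by
      have h5 := O.nonunits.sub_mem hmem (nonunits_mul ht.nonunit hs)
      rwa [add_sub_cancel_right] at h5
    have h6 : (n : L) = (n * u) * u⁻¹ := by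
      rw [mul_assoc, mul_inv_cancel₀ hu0, mul_one]
    have h7 : (n : L) ∈ O.nonunits := by
      rw [h6]
      exact nonunits_mul h4 hui
    have h8 : (n : L) = algebraMap E L (n : E) := by rw [map_natCast]
    rw [h8] at h7
    exact const_notMem_nonunits hE (Nat.cast_ne_zero.2 (by omega)) h7
  have hzO : (n * u + t * s : L) ∈ O := by
    refine O.add_mem _ _ (O.mul_mem _ _ ?_ hu) (O.mul_mem _ _ ht.mem hs)
    exact natCast_mem O n
  have hz0 : (n * u + t * s : L) ≠ 0 := by
    intro h0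
    rw [h0] at hz
    exact hz (zero_nonunits O)
  have hΦw0 : Φ w ≠ 0 := (map_ne_zero Φ).2 hw0
  have h4 : (w * (n * u + t * s)) * t ^ ((n : ℤ) - 1 + a) =
      (c * Φ w * u ^ a) * t ^ ((n : ℤ) * a) := by
    have h5 := hD t
    rw [h3, h2, map_mul, map_zpow₀, h1, mul_zpow, ← zpow_mul] at h5
    have h6 : t ^ ((n : ℤ) - 1 + a) = t ^ (n - 1) * t ^ a := by
      rw [zpow_add₀ ht.ne]
      congr 1
      rw [← zpow_natCast]
      congr 1
      omega
    rw [h6]
    linear_combination h5
  have h7 : (n : ℤ) - 1 + a = n * a := by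
    refine unit_inj ht ?_ ?_ (mul_ne_zero hw0 hz0) ?_ ?_ ?_ h4
    · exact O.mul_mem _ _ hw hzO
    · rw [mul_inv]
      exact O.mul_mem _ _ hwi (inv_mem_of_notMem_nonunits hz)
    · refine O.mul_mem _ _ (O.mul_mem _ _ hcO ((hΦ w).2 hw)) ?_
      rcases Int.eq_nat_or_neg a with ⟨m, rfl | rfl⟩
      · rw [zpow_natCast]; exact pow_mem hu m
      · rw [zpow_neg, ← inv_zpow, zpow_natCast]; exact pow_mem hui m
    · rw [mul_inv, mul_inv, ← map_inv₀]
      refine O.mul_mem _ _ (O.mul_mem _ _ hcO' ((hΦ _).2 hwi)) ?_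
      rcases Int.eq_nat_or_neg a with ⟨m, rfl | rfl⟩
      · rw [zpow_natCast, ← inv_pow]; exact pow_mem hui m
      · rw [zpow_neg, inv_inv, zpow_natCast]; exact pow_mem hu m
    · exact mul_ne_zero (mul_ne_zero hc hΦw0) (zpow_ne_zero _ hu0)
  have ha : a = 1 := by
    have h8 : ((n : ℤ) - 1) * (a - 1) = 0 := by linarith
    rcases mul_eq_zero.1 h8 with h9 | h9
    · exact absurd (by omega : n = 1) hn1
    · omega
  subst ha
  exact ⟨w, hw, hwi, by rw [h2, zpow_one]⟩

theorem isLog_of (O : ValuationSubring L) (hE : ∀ a : E, algebraMap E L a ∈ O)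
    (t : L) (ht : IsUnif O t) (D : Derivation E L L)
    (hder : ∀ f ∈ O, D f / D t ∈ O) (w : L) (hw : w ∈ O) (hwi : w⁻¹ ∈ O) (hw0 : w ≠ 0)
    (hDt : D t = w * t)
    (hfin : ∃ n : ℕ, ∀ (m : ℕ) (f : Fin m → L), (∀ i, f i ∈ O) →
      (∀ a : Fin m → E, ∑ i, algebraMap E L (a i) * f i ∈ O.nonunits → a = 0) → m ≤ n) :
    IsLog O D := by
  have hDt0 : D t ≠ 0 := by rw [hDt]; exact mul_ne_zero hw0 ht.ne
  have hsmall : ∀ f ∈ O, D f ∈ O.nonunits := by
    intro f hf
    have h1 : D f = t * (w * (D f / D t)) := by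
      rw [← mul_assoc, mul_comm t w, ← hDt]
      field_simp
    rw [h1]
    exact nonunits_mul ht.nonunit (O.mul_mem _ _ hw (hder f hf))
  refine ⟨⟨t, ht⟩, hfin, hsmall, fun f hf => ?_⟩
  have hf0 : f ≠ 0 := by
    rintro rfl
    exact hf O.zero_mem
  obtain ⟨j, u, hu, hui, h1⟩ := ht.fac f hf0
  have hu0 : u ≠ 0 := by
    rintro rfl
    rw [zero_mul] at h1
    exact hf0 h1
  have hj : j < 0 := by
    by_contra hcon
    apply hf
    rw [h1]
    exact mem_of_unit_mul hu ht.mem _ (by omega)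
  have h2 : D f / f = D u * u⁻¹ + algebraMap E L (j : E) * w := by
    have h3 : D (t ^ j) = (j : L) * t ^ j * w := by
      have h4 : D (t ^ j) = (j : ℤ) • t ^ (j - 1) • D t := Derivation.leibniz_zpow D t j
      rw [h4, hDt, smul_eq_mul, zsmul_eq_mul, zpow_sub_one₀ ht.ne]
      have := ht.ne
      field_simp
    have h5 : D f = D u * t ^ j + u * ((j : L) * t ^ j * w) := by
      rw [h1, Derivation.leibniz, smul_eq_mul, smul_eq_mul, h3]
      ring
    rw [h5, h1, map_intCast]
    have h6 : t ^ j ≠ 0 := zpow_ne_zero _ ht.ne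
    field_simp
  have h3 : D u * u⁻¹ ∈ O.nonunits := nonunits_mul (hsmall u hu) hui
  have h4 : algebraMap E L (j : E) ∉ O.nonunits :=
    const_notMem_nonunits hE (Int.cast_ne_zero.2 (by omega))
  have h5 : D f / f ∈ O := by
    rw [h2]
    exact O.add_mem _ _ (nonunits_mem h3) (O.mul_mem _ _ (hE _) hw)
  refine ⟨h5, inv_mem_of_notMem_nonunits ?_⟩
  intro h6
  apply h4
  have h7 := O.nonunits.sub_mem h6 h3
  rw [h2, add_sub_cancel_left] at h7
  have h8 : algebraMap E L (j : E) = algebraMap E L (j : E) * w * w⁻¹ := by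
    field_simp
  rw [h8]
  exact nonunits_mul h7 hwi

theorem exists_pow_fix' (R : Subalgebra E L) (hS : (SR R).Finite) (φ : L →+* L)
    (hφE' : ∀ a : E, ∃ b : E, φ (algebraMap E L b) = algebraMap E L a)
    (hφR : ∀ x ∈ R, φ x ∈ R) :
    ∃ j : ℕ, 0 < j ∧ ∀ O ∈ SR R, ∀ f, (φ : L → L)^[j] f ∈ O ↔ f ∈ O := by
  classical
  have hext : ∀ O : SR R, ∃ O' : SR R, ∀ f, φ f ∈ O'.1 ↔ f ∈ O.1 := by
    rintro ⟨O, hE, x, hx, hxO⟩
    obtain ⟨O', hO'⟩ := exists_ext φ O
    refine ⟨⟨O', fun a => ?_, φ x, hφR x hx, fun h => hxO ((hO' x).1 h)⟩, hO'⟩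
    obtain ⟨b, hb⟩ := hφE' a
    rw [← hb]
    exact (hO' _).2 (hE b)
  choose G hG using hext
  have hinj : Function.Injective G := by
    intro O₁ O₂ h
    apply Subtype.ext
    apply SetLike.ext
    intro f
    rw [← hG O₁ f, h, hG O₂ f]
  have hfin : Finite (SR R) := hS
  have hbij : Function.Bijective G := Finite.injective_iff_bijective.1 hinj
  let e : Equiv.Perm (SR R) := Equiv.ofBijective G hbij
  have hfo : IsOfFinOrder e := isOfFinOrder_of_finite e
  refine ⟨orderOf e, hfo.orderOf_pos, ?_⟩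
  have key : ∀ (i : ℕ) (O : SR R) (f : L), (φ : L → L)^[i] f ∈ ((e ^ i) O).1 ↔ f ∈ O.1 := by
    intro i
    induction i with
    | zero => intro O f; rfl
    | succ i ih =>
      intro O f
      rw [Function.iterate_succ_apply', pow_succ', Equiv.Perm.mul_apply]
      have h1 : e ((e ^ i) O) = G ((e ^ i) O) := rfl
      rw [h1, hG, ih]
  intro O hO f
  have h2 := key (orderOf e) ⟨O, hO⟩ f
  rw [pow_orderOf_eq_one] at h2
  exact h2

theorem log_of_not_surj
    (Hfin : ∀ x : L, Transcendental E x → FiniteDimensional (IntermediateField.adjoin E {x}) L)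
    (R : Subalgebra E L) (hR : R.FG) (φ : L →+* L)
    (hφE : ∀ a : E, ∃ b : E, φ (algebraMap E L a) = algebraMap E L b)
    (hφE' : ∀ a : E, ∃ b : E, φ (algebraMap E L b) = algebraMap E L a)
    (hφR : ∀ x ∈ R, φ x ∈ R) (D : Derivation E L L) (hD0 : D ≠ 0) (c : E) (hc : c ≠ 0)
    (hD : ∀ f, D (φ f) = algebraMap E L c * φ (D f))
    (hns : ¬ Function.Surjective φ) : ∀ O ∈ SR R, IsLog O D := by
  obtain ⟨j, hj, hfix⟩ := exists_pow_fix' R (SR_finite Hfin R hR) φ hφE' hφR
  -- the power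
  let Φ : L →+* L := φ ^ j
  have hΦi : ∀ f, Φ f = (φ : L → L)^[j] f := by
    intro f
    show (φ ^ j) f = _
    rw [RingHom.coe_pow]
  have hΦR : ∀ x ∈ R, Φ x ∈ R := by
    intro x hx
    rw [hΦi]
    have h1 : ∀ i : ℕ, (φ : L → L)^[i] x ∈ R := by
      intro i
      induction i with
      | zero => exact hx
      | succ i ih =>
        rw [Function.iterate_succ_apply']
        exact hφR _ ih
    exact h1 j
  have hΦE' : ∀ a : E, ∃ b : E, Φ (algebraMap E L b) = algebraMap E L a := by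
    intro a
    rw [show (∃ b : E, Φ (algebraMap E L b) = algebraMap E L a) ↔
      ∃ b : E, (φ : L → L)^[j] (algebraMap E L b) = algebraMap E L a by simp only [hΦi]]
    have h1 : ∀ i : ℕ, ∀ a : E, ∃ b : E, (φ : L → L)^[i] (algebraMap E L b) = algebraMap E L a := by
      intro i
      induction i with
      | zero => exact fun a => ⟨a, rfl⟩
      | succ i ih =>
        intro a
        obtain ⟨b, hb⟩ := hφE' a
        obtain ⟨b', hb'⟩ := ih b
        exact ⟨b', by rw [Function.iterate_succ_apply', hb', hb]⟩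
    exact h1 j a
  obtain ⟨c', hc', hDΦ⟩ : ∃ c' : E, c' ≠ 0 ∧ ∀ f, D (Φ f) = algebraMap E L c' * Φ (D f) := by
    have h1 : ∀ i : ℕ, ∃ c' : E, c' ≠ 0 ∧
        ∀ f, D ((φ : L → L)^[i] f) = algebraMap E L c' * (φ : L → L)^[i] (D f) := by
      intro i
      induction i with
      | zero => exact ⟨1, one_ne_zero, fun f => by simp⟩
      | succ i ih =>
        obtain ⟨c', hc', h2⟩ := ih
        obtain ⟨b, hb⟩ := hφE c'
        have hb0 : b ≠ 0 := by
          rintro rfl
          rw [map_zero, map_eq_zero, map_eq_zero] at hb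
          exact hc' hb
        refine ⟨c * b, mul_ne_zero hc hb0, fun f => ?_⟩
        rw [Function.iterate_succ_apply', Function.iterate_succ_apply', hD, h2, map_mul, hb,
          map_mul]
        ring
    obtain ⟨c', hc', h2⟩ := h1 j
    exact ⟨c', hc', fun f => by rw [hΦi, hΦi]; exact h2 f⟩
  have hΦinj : Function.Injective Φ := Φ.injective
  have hnsΦ : ¬ Function.Surjective Φ := by
    intro hsurj
    apply hns
    intro y
    obtain ⟨z, hz⟩ := hsurj y
    rw [hΦi] at hz
    obtain ⟨i, rfl⟩ : ∃ i, j = i + 1 := ⟨j - 1, by omega⟩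
    rw [Function.iterate_succ_apply'] at hz
    exact ⟨_, hz⟩
  have Halg : ∀ x : L, Transcendental E x →
      Algebra.IsAlgebraic (IntermediateField.adjoin E {x}) L := by
    intro y hy
    have hf := Hfin y hy
    exact Algebra.IsAlgebraic.of_finite _ _
  -- a place at infinity
  intro O hOS
  obtain ⟨hE, x, hxR, hxO⟩ := id hOS
  have hx : Transcendental E x := fun h => hxO (algebraic_mem hE h)
  have hΦO : ∀ f, Φ f ∈ O ↔ f ∈ O := by
    intro f
    rw [hΦi]
    exact hfix O hOS f
  obtain ⟨⟨t, ht⟩, hmaxO, hbd⟩ := (places x hx (Hfin x hx)).2 O hE hxO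
  have hx0 : x ≠ 0 := fun h => hx (by rw [h]; exact isAlgebraic_zero)
  have hres := res_alg Halg O hE t ht.ne ht.nonunit
  have htt : Transcendental E t := by
    intro h
    apply ht.inv
    exact algebraic_mem hE h.inv
  have hDt : D t ≠ 0 := deriv_ne_zero D hD0 t (Halg t htt)
  have hder := deriv_mem O hE t ht hres D hDt x hx0 (hbd D)
  have hrf := res_fin O hE t ht.ne ht.nonunit (Hfin t htt)
  have hcO : algebraMap E L c' ∈ O := hE _
  have hcO' : (algebraMap E L c')⁻¹ ∈ O := by rw [← map_inv₀]; exact hE _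
  have hcL : algebraMap E L c' ≠ 0 := (map_ne_zero (algebraMap E L)).2 hc'
  rcases ram_or_log O hE t ht D hDt hder Φ hΦO (algebraMap E L c') hcL hcO hcO' hDΦ with
    ⟨u, hu, hui, hΦt⟩ | ⟨w, hw, hwi, hDw⟩
  · exfalso
    apply hnsΦ
    let alg : Algebra L L := Φ.toAlgebra
    have hΦx : Transcendental E (Φ x) := by
      intro h
      apply hxO
      have h1 : Φ x ∈ O := algebraic_mem hE h
      exact (hΦO x).1 h1
    have hfd : @Module.Finite L L _ _ alg.toModule := by
      refine @fd_of E _ L L _ _ alg _ (IntermediateField.adjoin E {Φ x}) ?_ (Hfin _ hΦx)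
      intro a ha
      let K : IntermediateField E L :=
        { Φ.fieldRange with
          algebraMap_mem' := fun r => by
            obtain ⟨b, hb⟩ := hΦE' r
            exact ⟨_, hb⟩ }
      have h1 : IntermediateField.adjoin E {Φ x} ≤ K := by
        rw [IntermediateField.adjoin_simple_le_iff]
        exact ⟨x, rfl⟩
      obtain ⟨d, hd⟩ := h1 ha
      exact ⟨d, hd⟩
    refine @surj_of_unique L L _ _ alg hfd
      (charZero_of_injective_algebraMap (algebraMap E L).injective) O O t ht hΦO ?_ hmaxO ?_ ?_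
    · intro O' hO'
      have hO'S : O' ∈ SR R := by
        refine ⟨fun a => ?_, Φ x, hΦR x hxR, fun h => hxO ((hO' x).1 h)⟩
        obtain ⟨b, hb⟩ := hΦE' a
        rw [← hb]
        exact (hO' _).2 (hE b)
      apply SetLike.ext
      intro f
      have h1 := hfix O' hO'S f
      rw [← hΦi] at h1
      rw [← h1]
      exact hO' f
    · intro f hf
      exact res_surj' O hE hrf Φ hΦO hΦE' f hf
    · intro f hf
      obtain ⟨g, hg, hfg⟩ := ht.pow_of_nonunit hf
      refine ⟨u⁻¹ * g, O.mul_mem _ _ hui hg, ?_⟩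
      have hu0 : u ≠ 0 := by
        rintro rfl
        rw [zero_mul] at hΦt
        exact ht.ne ((map_eq_zero Φ).1 hΦt)
      show f = Φ t * (u⁻¹ * g)
      rw [hΦt, hfg]
      field_simp
  · have hw0 : w ≠ 0 := by
      rintro rfl
      rw [zero_mul] at hDw
      exact hDt hDw
    exact isLog_of O hE t ht D hder w hw hwi hw0 hDw hrf

end

end Pool.Agent.H928R2.Pen
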