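import Pool.Agent.H928R2.PenDer

/-!
# The ring `k(h)[x, y]` is factorial
-/

set_option autoImplicit false
set_option linter.unusedSectionVars false
set_option linter.unusedVariables false

open MvPolynomial Pool.Agent.H928R2.Inv

namespace Pool.Agent.H928R2.Pen

section
variable {k : Type*} [Field k] [CharZero k]

/-- polynomials belong to `k(h)[x, y]` -/
theorem ι_mem_RE (h f : PP k) : ιK k f ∈ RE h := by
  induction f using MvPolynomial.induction_on with
  | C a =>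
    have h1 : ιK k (C a) = algebraMap (IntermediateField.adjoin k {ιK k h}) (KK k)
        (algebraMap k _ a) := by
      rw [← IsScalarTower.algebraMap_apply]
      exact (ιK k).commutes a
    rw [h1]
    exact (RE h).algebraMap_mem _
  | add p q hp hq =>
    rw [map_add]
    exact add_mem hp hq
  | mul_X p i hp =>
    rw [map_mul]
    exact mul_mem hp (Algebra.subset_adjoin ⟨i, rfl⟩)

theorem ι_aeval (h : PP k) (γ : Polynomial k) :
    Polynomial.aeval (ιK k h) γ = ιK k (Polynomial.aeval h γ) :=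
  Polynomial.aeval_algHom_apply (ιK k) h γ

theorem aeval_ne {h : PP k} (hc : ∀ c, h ≠ C c) {γ : Polynomial k} (hγ : γ ≠ 0) :
    Polynomial.aeval h γ ≠ 0 := fun h1 => hγ (aeval_inj hc (h1.trans (map_zero _).symm))

theorem adj_frac (h : PP k) (hc : ∀ c, h ≠ C c) (x : KK k)
    (hx : x ∈ IntermediateField.adjoin k {ιK k h}) :
    ∃ (a b : Polynomial k), b ≠ 0 ∧
      x * ιK k (Polynomial.aeval h b) = ιK k (Polynomial.aeval h a) := by
  obtain ⟨r, s, rfl⟩ := IntermediateField.mem_adjoin_simple_iff _ _ |>.1 hx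
  by_cases hs : s = 0
  · refine ⟨0, 1, one_ne_zero, ?_⟩
    rw [hs, map_zero, div_zero, zero_mul, map_zero, map_zero]
  · refine ⟨r, s, hs, ?_⟩
    rw [ι_aeval, ι_aeval, div_mul_cancel₀ _ (ι_ne (aeval_ne hc hs))]

theorem RE_surj (h : PP k) (hc : ∀ c, h ≠ C c) (x : KK k) (hx : x ∈ RE h) :
    ∃ (f : PP k) (γ : Polynomial k), γ ≠ 0 ∧
      x * ιK k (Polynomial.aeval h γ) = ιK k f := by
  unfold RE at hx
  induction hx using Algebra.adjoin_induction with
  | mem x hx =>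
    obtain ⟨i, rfl⟩ := hx
    refine ⟨X i, 1, one_ne_zero, ?_⟩
    rw [map_one, map_one, mul_one]
  | algebraMap r =>
    obtain ⟨a, b, hb, hab⟩ := adj_frac h hc r r.2
    exact ⟨_, b, hb, hab⟩
  | add x y hx hy ihx ihy =>
    obtain ⟨f, γ, hγ, hf⟩ := ihx
    obtain ⟨g, δ, hδ, hg⟩ := ihy
    refine ⟨f * Polynomial.aeval h δ + g * Polynomial.aeval h γ, γ * δ, mul_ne_zero hγ hδ, ?_⟩
    simp only [map_add, map_mul, ← hf, ← hg]
    ring
  | mul x y hx hy ihx ihy =>
    obtain ⟨f, γ, hγ, hf⟩ := ihx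
    obtain ⟨g, δ, hδ, hg⟩ := ihy
    refine ⟨f * g, γ * δ, mul_ne_zero hγ hδ, ?_⟩
    simp only [map_mul, ← hf, ← hg]
    ring

/-- the nonzero polynomials in `h` -/
def SS (h : PP k) (hc : ∀ c, h ≠ C c) : Submonoid (PP k) where
  carrier := {p | ∃ γ : Polynomial k, γ ≠ 0 ∧ p = Polynomial.aeval h γ}
  one_mem' := ⟨1, one_ne_zero, (map_one _).symm⟩
  mul_mem' := by
    rintro _ _ ⟨γ, hγ, rfl⟩ ⟨δ, hδ, rfl⟩
    exact ⟨γ * δ, mul_ne_zero hγ hδ, (map_mul _ _ _).symm⟩

theorem RE_ufd {k : Type*} [Field k] [CharZero k] (h : PP k) (hc : ∀ c, h ≠ C c) :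
    UniqueFactorizationMonoid (RE h) ∧
    ∀ x ∈ RE h, ∃ (f : PP k) (γ : Polynomial k), γ ≠ 0 ∧
      x * ιK k (Polynomial.aeval h γ) = ιK k f := by
  refine ⟨?_, RE_surj h hc⟩
  let φ : PP k →+* RE h := (ιK k : PP k →+* KK k).codRestrict (RE h).toSubring (ι_mem_RE h)
  have hφ : ∀ f, ((φ f : RE h) : KK k) = ιK k f := fun _ => rfl
  let _ : Algebra (PP k) (RE h) := φ.toAlgebra
  have hal : ∀ f, algebraMap (PP k) (RE h) f = φ f := fun _ => rfl
  have : IsLocalization (SS h hc) (RE h) := by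
    refine ⟨?_, ?_, ?_⟩
    · rintro ⟨_, γ, hγ, rfl⟩
      rw [hal]
      have h1 : (ιK k (Polynomial.aeval h γ)) ≠ 0 := ι_ne (aeval_ne hc hγ)
      have h2 : (ιK k (Polynomial.aeval h γ)) ∈ IntermediateField.adjoin k {ιK k h} := by
        rw [← ι_aeval]
        exact (IntermediateField.mem_adjoin_simple_iff _ _).2 ⟨γ, 1, by rw [map_one, div_one]⟩
      have h3 : (ιK k (Polynomial.aeval h γ))⁻¹ ∈ RE h :=
        (RE h).algebraMap_mem ⟨_, inv_mem h2⟩
      refine IsUnit.of_mul_eq_one ⟨_, h3⟩ ?_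
      apply Subtype.ext
      exact mul_inv_cancel₀ h1
    · rintro ⟨x, hx⟩
      obtain ⟨f, γ, hγ, hf⟩ := RE_surj h hc x hx
      exact ⟨(f, ⟨Polynomial.aeval h γ, γ, hγ, rfl⟩), Subtype.ext hf⟩
    · intro a b hab
      refine ⟨1, ?_⟩
      have h1 : ιK k a = ιK k b := congrArg Subtype.val hab
      rw [iR_inj h1]
  exact UniqueFactorizationMonoid.of_isLocalization (SS h hc) (RE h)

end

end Pool.Agent.H928R2.Pen
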