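import Pool.Agent.H928R2.PenKer
import Pool.Agent.H928R2.PenSemi
import Pool.Agent.H928R2.PenIrred
import Pool.Agent.H928R2.PenQuad
import Pool.Agent.H928R2.PenDescent
import Pool.Agent.H928R2.PenTsen
import Pool.Agent.H928R2.PenUFD
import Pool.Agent.H928R2.PenDarboux

/-!
# All fibres irreducible
-/

set_option autoImplicit false
set_option linter.unusedSectionVars false

open MvPolynomial Pool.Agent.H928R2.Inv

namespace Pool.Agent.H928R2.Pen

section
variable {k : Type*} [Field k] [IsAlgClosed k] [CharZero k]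

theorem prime_dvd_aeval {h p : PP k} (hp : Prime p) (γ : Polynomial k) (hγ : γ ≠ 0)
    (hd : p ∣ Polynomial.aeval h γ) : ∃ b, p ∣ h - C b := by
  have h1 := (IsAlgClosed.splits γ).eq_prod_roots
  rw [h1, map_mul, Polynomial.aeval_C] at hd
  rcases hp.dvd_or_dvd hd with h2 | h2
  · exact absurd (isUnit_of_dvd_C (Polynomial.leadingCoeff_ne_zero.2 hγ) h2) hp.not_isUnit
  · rw [map_multiset_prod, Multiset.map_map] at h2
    obtain ⟨b, hb, hpb⟩ := hp.exists_mem_multiset_dvd h2
    rw [Multiset.mem_map] at hb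
    obtain ⟨c, -, rfl⟩ := hb
    refine ⟨c, ?_⟩
    simpa using hpb

theorem eq_aeval_of_factors {h : PP k} (hpr : ∀ b, Prime (h - C b)) (f : PP k) (hf : f ≠ 0)
    (hall : ∀ p, Prime p → p ∣ f → ∃ b, p ∣ h - C b) :
    ∃ γ : Polynomial k, f = Polynomial.aeval h γ := by
  revert hf hall
  induction f using UniqueFactorizationMonoid.induction_on_prime with
  | h₁ => exact fun hf _ => absurd rfl hf
  | h₂ f hu =>
    intro _ _
    obtain ⟨c, hc, rfl⟩ := (isUnit_iff_C f).1 hu
    exact ⟨Polynomial.C c, by rw [Polynomial.aeval_C]; rfl⟩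
  | h₃ f p hf hp ih =>
    intro _ hall
    obtain ⟨γ, hγ⟩ := ih hf fun q hq hqf => hall q hq (hqf.mul_left p)
    obtain ⟨b, hb⟩ := hall p hp (dvd_mul_right p f)
    have h1 : Associated p (h - C b) := hp.associated_of_dvd (hpr b) hb
    obtain ⟨u, hu⟩ := h1.symm
    obtain ⟨c, hc, hcu⟩ := (isUnit_iff_C (u : PP k)).1 u.isUnit
    refine ⟨(Polynomial.X - Polynomial.C b) * Polynomial.C c * γ, ?_⟩
    rw [map_mul, map_mul, map_sub, Polynomial.aeval_X, Polynomial.aeval_C, Polynomial.aeval_C,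
      ← hγ, ← hu, hcu]
    rfl

theorem coe_mem_E (h : PP k) (γ : Polynomial k) :
    ιK k (Polynomial.aeval h γ) ∈ IntermediateField.adjoin k {ιK k h} := by
  rw [iota_aeval]
  exact IntermediateField.algebra_adjoin_le_adjoin k {ιK k h}
    (Polynomial.aeval_mem_adjoin_singleton k (ιK k h))

theorem aeval_ne_zero {h : PP k} (hc : ∀ c, h ≠ C c) {γ : Polynomial k} (hγ : γ ≠ 0) :
    Polynomial.aeval h γ ≠ 0 := by
  intro h0
  exact hγ (aeval_inj hc (h0.trans (map_zero _).symm))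

/-- the inclusion of the base field in the ring -/
theorem E_mem_RE {h : PP k} {a : KK k} (ha : a ∈ IntermediateField.adjoin k {ιK k h}) :
    a ∈ RE h := (RE h).algebraMap_mem (⟨a, ha⟩ : IntermediateField.adjoin k {ιK k h})

theorem poly_mem_RE (h : PP k) (p : PP k) : ιK k p ∈ RE h := by
  induction p using MvPolynomial.induction_on with
  | C a =>
    have h4 : ιK k (C a : PP k) = algebraMap k (KK k) a := rfl
    rw [h4]
    exact E_mem_RE (IntermediateField.algebraMap_mem _ a)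
  | add p q hp hq => rw [map_add]; exact add_mem hp hq
  | mul_X p i hp =>
    rw [map_mul]
    exact mul_mem hp (Algebra.subset_adjoin ⟨i, rfl⟩)

/-- representation of elements of the base field -/
theorem E_rep {h : PP k} (hc : ∀ c, h ≠ C c) {a : KK k}
    (ha : a ∈ IntermediateField.adjoin k {ιK k h}) :
    ∃ s t : Polynomial k, t ≠ 0 ∧ a * ιK k (Polynomial.aeval h t) =
      ιK k (Polynomial.aeval h s) := by
  obtain ⟨s, t, rfl⟩ := (IntermediateField.mem_adjoin_simple_iff k a).1 ha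
  by_cases ht : Polynomial.aeval (ιK k h) t = 0
  · refine ⟨0, 1, one_ne_zero, ?_⟩
    rw [ht, div_zero, zero_mul, map_zero, map_zero]
  · refine ⟨s, t, ?_, ?_⟩
    · rintro rfl
      exact ht (map_zero _)
    · rw [iota_aeval, iota_aeval, div_mul_cancel₀ _ ht]

/-- units are in the base field -/
theorem unit_mem {h : PP k} (hc : ∀ c, h ≠ C c) (hpr : ∀ b, Prime (h - C b)) (u v : KK k)
    (hu : u ∈ RE h) (hv : v ∈ RE h) (huv : u * v = 1) :
    u ∈ IntermediateField.adjoin k {ιK k h} := by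
  obtain ⟨f, γ, hγ, hf⟩ := (RE_ufd h hc).2 u hu
  obtain ⟨g, δ, hδ, hg⟩ := (RE_ufd h hc).2 v hv
  have h1 : f * g = Polynomial.aeval h (γ * δ) := by
    apply iR_inj (k := k) (σ := Fin 2)
    show ιK k _ = ιK k _
    rw [map_mul, ← hf, ← hg, map_mul, map_mul]
    linear_combination ιK k (Polynomial.aeval h γ) * ιK k (Polynomial.aeval h δ) * huv
  have hfg : f * g ≠ 0 := by
    rw [h1]
    exact aeval_ne_zero hc (mul_ne_zero hγ hδ)
  obtain ⟨ε, hε⟩ := eq_aeval_of_factors hpr f (left_ne_zero_of_mul hfg) fun p hp hpf =>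
    prime_dvd_aeval hp (γ * δ) (mul_ne_zero hγ hδ) (h1 ▸ hpf.mul_right g)
  have h2 : ιK k (Polynomial.aeval h γ) ≠ 0 := ι_ne (aeval_ne_zero hc hγ)
  have h3 : u = ιK k f / ιK k (Polynomial.aeval h γ) := by
    rw [← hf, mul_div_cancel_right₀ _ h2]
  rw [h3, hε]
  exact div_mem (coe_mem_E h ε) (coe_mem_E h γ)

/-- eigenvectors are in the base field -/
theorem eig_mem {A B h : PP k} (H : Fib A B h) (hpr : ∀ b, Prime (h - C b)) (u : KK k)
    (hu : u ∈ RE h) (hu0 : u ≠ 0) (a : KK k) (ha : a ∈ IntermediateField.adjoin k {ιK k h})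
    (hDu : DK A B u = a * u) : u ∈ IntermediateField.adjoin k {ιK k h} := by
  obtain ⟨f, γ, hγ, hf⟩ := (RE_ufd h H.hc).2 u hu
  obtain ⟨s, t, ht, hst⟩ := E_rep H.hc ha
  have h2 : ιK k (Polynomial.aeval h γ) ≠ 0 := ι_ne (aeval_ne_zero H.hc hγ)
  have hf0 : f ≠ 0 := by
    rintro rfl
    rw [map_zero] at hf
    rcases mul_eq_zero.1 hf with h3 | h3
    · exact hu0 h3
    · exact h2 h3
  have h3 : Polynomial.aeval h t * dd A B f = Polynomial.aeval h s * f := by
    apply iR_inj (k := k) (σ := Fin 2)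
    show ιK k _ = ιK k _
    rw [map_mul, map_mul, ← DK_coe, ← hf, Derivation.leibniz, hDu,
      DK_adjoin H.DKh _ (coe_mem_E h γ), ← hst]
    simp only [smul_eq_mul]
    ring
  have key : ∀ p, Prime p → p ∣ f → ∃ b, p ∣ h - C b := by
    intro p hp hpf
    by_contra hcon
    have hv : ∀ γ : Polynomial k, γ ≠ 0 → ¬ p ∣ Polynomial.aeval h γ := fun γ hγ hd =>
      hcon (prime_dvd_aeval hp γ hγ hd)
    apply darboux_vertical A B h p H.co H.Dh hp hv
    obtain ⟨m, f', hf', hm⟩ := WfDvdMonoid.max_power_factor hf0 hp.irreducible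
    have hm1 : m ≠ 0 := by
      rintro rfl
      rw [pow_zero, one_mul] at hm
      exact hf' (hm ▸ hpf)
    obtain ⟨n, rfl⟩ := Nat.exists_eq_succ_of_ne_zero hm1
    have h4 : p ^ n * (Polynomial.aeval h t * (C ((n + 1 : ℕ) : k) * (f' * dd A B p) +
        p * dd A B f')) = p ^ n * (p * (Polynomial.aeval h s * f')) := by
      have h5 : dd A B (p ^ (n + 1)) = C ((n + 1 : ℕ) : k) * (p ^ n * dd A B p) := by
        rw [Derivation.leibniz_pow, Nat.add_sub_cancel, nsmul_eq_mul, smul_eq_mul]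
        simp
      rw [hm, Nat.succ_eq_add_one, Derivation.leibniz, h5, smul_eq_mul, smul_eq_mul] at h3
      linear_combination h3
    have h5 := mul_left_cancel₀ (pow_ne_zero n hp.ne_zero) h4
    have h6 : p ∣ Polynomial.aeval h t * (C ((n + 1 : ℕ) : k) * (f' * dd A B p)) := by
      refine ⟨Polynomial.aeval h s * f' - Polynomial.aeval h t * dd A B f', ?_⟩
      linear_combination h5
    rcases hp.dvd_or_dvd h6 with h7 | h7
    · exact absurd h7 (hv t ht)
    rcases hp.dvd_or_dvd h7 with h8 | h8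
    · exact absurd (isUnit_of_dvd_C (Nat.cast_ne_zero.2 (Nat.succ_ne_zero n)) h8) hp.not_isUnit
    rcases hp.dvd_or_dvd h8 with h9 | h9
    · exact absurd h9 hf'
    · exact h9
  obtain ⟨ε, hε⟩ := eq_aeval_of_factors hpr f hf0 key
  have h4 : u = ιK k f / ιK k (Polynomial.aeval h γ) := by
    rw [← hf, mul_div_cancel_right₀ _ h2]
  rw [h4, hε]
  exact div_mem (coe_mem_E h ε) (coe_mem_E h γ)

theorem DK_RE {A B h : PP k} (H : Fib A B h) (x : KK k) (hx : x ∈ RE h) :
    DK A B x ∈ RE h := by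
  unfold RE at hx
  induction hx using Algebra.adjoin_induction with
  | mem x hx =>
    obtain ⟨i, rfl⟩ := hx
    rw [DK_coe]
    exact poly_mem_RE h _
  | algebraMap a =>
    have h1 : DK A B (algebraMap _ (KK k) a) = 0 := DK_adjoin H.DKh a a.2
    rw [h1]
    exact zero_mem _
  | add x y _ _ hx hy => rw [map_add]; exact add_mem hx hy
  | mul x y hx' hy' hx hy =>
    rw [Derivation.leibniz]
    exact add_mem (mul_mem hx' hy) (mul_mem hy' hx)

theorem phi_E (F : Fin 2 → PP k) (hJ : IsUnit (Pool.Agent.H922R2.jac F).det) (h : PP k)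
    (α β : k) (hh : aeval F h = C α * h + C β) (a : KK k)
    (ha : a ∈ IntermediateField.adjoin k {ιK k h}) :
    phiL F hJ a ∈ IntermediateField.adjoin k {ιK k h} := by
  induction ha using IntermediateField.adjoin_induction with
  | mem x hx =>
    rw [Set.mem_singleton_iff] at hx
    rw [hx, phiL_ι, hh, map_add, map_mul]
    exact add_mem (mul_mem (IntermediateField.algebraMap_mem _ α)
      (IntermediateField.mem_adjoin_simple_self k _)) (IntermediateField.algebraMap_mem _ β)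
  | algebraMap x =>
    rw [AlgHom.commutes]
    exact IntermediateField.algebraMap_mem _ x
  | add x y _ _ hx hy => rw [map_add]; exact add_mem hx hy
  | inv x _ hx => rw [map_inv₀]; exact inv_mem hx
  | mul x y _ _ hx hy => rw [map_mul]; exact mul_mem hx hy

theorem phi_E' (F : Fin 2 → PP k) (hJ : IsUnit (Pool.Agent.H922R2.jac F).det) (h : PP k)
    (α β : k) (hα : α ≠ 0) (hh : aeval F h = C α * h + C β) (a : KK k)
    (ha : a ∈ IntermediateField.adjoin k {ιK k h}) :
    ∃ b ∈ IntermediateField.adjoin k {ιK k h}, phiL F hJ b = a := by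
  induction ha using IntermediateField.adjoin_induction with
  | mem x hx =>
    rw [Set.mem_singleton_iff] at hx
    refine ⟨ιK k (C α⁻¹ * (h - C β)), ?_, ?_⟩
    · rw [map_mul, map_sub]
      exact mul_mem (IntermediateField.algebraMap_mem _ α⁻¹)
        (sub_mem (IntermediateField.mem_adjoin_simple_self k _)
          (IntermediateField.algebraMap_mem _ β))
    · have h1 : ∀ c : k, aeval F (C c : PP k) = C c := fun c => by rw [aeval_C]; rfl
      rw [hx, phiL_ι, map_mul, map_sub, h1, h1, hh]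
      congr 1
      rw [add_sub_cancel_right, ← mul_assoc, ← C_mul, inv_mul_cancel₀ hα, C_1, one_mul]
  | algebraMap x => exact ⟨_, IntermediateField.algebraMap_mem _ x, AlgHom.commutes _ x⟩
  | add x y _ _ hx hy =>
    obtain ⟨b, hb, rfl⟩ := hx
    obtain ⟨c, hc, rfl⟩ := hy
    exact ⟨b + c, add_mem hb hc, map_add _ _ _⟩
  | inv x _ hx =>
    obtain ⟨b, hb, rfl⟩ := hx
    exact ⟨b⁻¹, inv_mem hb, map_inv₀ _ _⟩
  | mul x y _ _ hx hy =>
    obtain ⟨b, hb, rfl⟩ := hx
    obtain ⟨c, hc, rfl⟩ := hy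
    exact ⟨b * c, mul_mem hb hc, map_mul _ _ _⟩

theorem phi_RE (F : Fin 2 → PP k) (hJ : IsUnit (Pool.Agent.H922R2.jac F).det) (h : PP k)
    (α β : k) (hh : aeval F h = C α * h + C β) (x : KK k) (hx : x ∈ RE h) :
    phiL F hJ x ∈ RE h := by
  unfold RE at hx
  induction hx using Algebra.adjoin_induction with
  | mem x hx =>
    obtain ⟨i, rfl⟩ := hx
    rw [phiL_ι]
    exact poly_mem_RE h _
  | algebraMap a => exact E_mem_RE (phi_E F hJ h α β hh a a.2)
  | add x y _ _ hx hy => rw [map_add]; exact add_mem hx hy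
  | mul x y _ _ hx hy => rw [map_mul]; exact mul_mem hx hy

end

/-- the abstract form -/
theorem surj_abs {E L : Type*} [Field E] [CharZero E] [Field L] [Algebra E L]
    (hE : AlgCl E L) (h1 : Tr1 E L)
    (Hfin : ∀ x : L, Transcendental E x → FiniteDimensional (IntermediateField.adjoin E {x}) L)
    (R : Subalgebra E L) (hU : UniqueFactorizationMonoid R) (hR : R.FG)
    (hRt : ∃ x ∈ R, Transcendental E x) (φ : L →+* L)
    (hφE : ∀ a : E, ∃ b : E, φ (algebraMap E L a) = algebraMap E L b)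
    (hφE' : ∀ a : E, ∃ b : E, φ (algebraMap E L b) = algebraMap E L a)
    (hφR : ∀ x ∈ R, φ x ∈ R) (D : Derivation E L L) (hDR : ∀ x ∈ R, D x ∈ R)
    (hker : ∀ x : L, D x = 0 → ∃ a : E, algebraMap E L a = x)
    (c : E) (hc : c ≠ 0)
    (hD : ∀ f, D (φ f) = algebraMap E L c * φ (D f))
    (hunit : ∀ u ∈ R, ∀ v ∈ R, u * v = 1 → ∃ a : E, algebraMap E L a = u)
    (heig : ∀ u ∈ R, u ≠ 0 → ∀ a : E, D u = algebraMap E L a * u → ∃ v ∈ R, u * v = 1)
    (tsen : ∀ a b : E, ∃ x y z : E, (x ≠ 0 ∨ y ≠ 0 ∨ z ≠ 0) ∧ x ^ 2 = a * y ^ 2 + b * z ^ 2) :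
    Function.Surjective φ := by
  by_contra hns
  obtain ⟨x₀, hx₀, hx₀T⟩ := hRt
  have hD0 : D ≠ 0 := by
    rintro rfl
    obtain ⟨a, rfl⟩ := hker x₀ rfl
    exact hx₀T (isAlgebraic_algebraMap a)
  have hlog := log_of_not_surj Hfin R hR φ hφE hφE' hφR D hD0 c hc hD hns
  obtain ⟨χ, g, hχ, hχ0, hgR, hg0, hχg⟩ := exists_irred hE R (SR_finite Hfin R hR)
    ⟨x₀, hx₀, hx₀T⟩ D hDR hlog (by
      intro x hx hDx
      obtain ⟨a, rfl⟩ := hker x hDx
      exact hx (isAlgebraic_algebraMap a))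
  obtain ⟨a, ha, hDg⟩ := quad_of_irred hE h1 D χ g hχ hχ0 hg0 hχg
  have hgT : Transcendental E g := by
    intro halg
    obtain ⟨b, rfl⟩ := hE g halg
    rw [Derivation.map_algebraMap, map_zero] at hDg
    rcases mul_eq_zero.1 hDg.symm with h1 | h1
    · exact ha ((map_eq_zero _).1 h1)
    · exact hg0 h1
  obtain ⟨O, hO, hgO⟩ := exists_place g hgT
  exact descent R hunit D hDR hker heig tsen O hO (hlog O ⟨hO, g, hgR, hgO⟩) g hgR hgO a ha hDg

section
variable {k : Type*} [Field k] [IsAlgClosed k] [CharZero k]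

/-- the case where all fibres are irreducible and reduced -/
theorem surj_case3 (F : Fin 2 → PP k)
    (hJ : IsUnit (Pool.Agent.H922R2.jac F).det) (A B h : PP k) (H : Fib A B h) (κ : k)
    (hκ : κ ≠ 0) (hcomm : ∀ f, dd A B (aeval F f) = C κ * aeval F (dd A B f))
    (α β : k) (hα : α ≠ 0) (hh : aeval F h = C α * h + C β)
    (hb : ∀ b, Prime (h - C b)) :
    Function.Surjective (phiL F hJ) := by
  have hT := H.transcK
  have hFG : (RE h).FG := Subalgebra.fg_def.2 ⟨_, Set.finite_range _, rfl⟩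
  have hRt : ∃ x ∈ RE h, Transcendental (IntermediateField.adjoin k {ιK k h}) x := by
    obtain ⟨i, hi⟩ := exists_tr hT
    exact ⟨_, poly_mem_RE h (X i), hi⟩
  have hφE : ∀ a : IntermediateField.adjoin k {ιK k h},
      ∃ b : IntermediateField.adjoin k {ιK k h},
      (phiL F hJ : KK k →+* KK k) (algebraMap _ (KK k) a) = algebraMap _ (KK k) b :=
    fun a => ⟨⟨_, phi_E F hJ h α β hh a a.2⟩, rfl⟩
  have hφE' : ∀ a : IntermediateField.adjoin k {ιK k h},
      ∃ b : IntermediateField.adjoin k {ιK k h},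
      (phiL F hJ : KK k →+* KK k) (algebraMap _ (KK k) b) = algebraMap _ (KK k) a := by
    intro a
    obtain ⟨b, hb, hb'⟩ := phi_E' F hJ h α β hα hh a a.2
    exact ⟨⟨b, hb⟩, hb'⟩
  have hker : ∀ x : KK k, DE A B _ H.DKh x = 0 →
      ∃ a : IntermediateField.adjoin k {ιK k h}, algebraMap _ (KK k) a = x := by
    intro x hx
    exact ⟨⟨x, (H.kerK x).1 hx⟩, rfl⟩
  have hc : algebraMap k (IntermediateField.adjoin k {ιK k h}) κ ≠ 0 :=
    (_root_.map_ne_zero _).2 hκ
  have hunit : ∀ u ∈ RE h, ∀ v ∈ RE h, u * v = 1 →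
      ∃ a : IntermediateField.adjoin k {ιK k h}, algebraMap _ (KK k) a = u := by
    intro u hu v hv huv
    exact ⟨⟨u, unit_mem H.hc hb u v hu hv huv⟩, rfl⟩
  have heig : ∀ u ∈ RE h, u ≠ 0 → ∀ a : IntermediateField.adjoin k {ιK k h},
      DE A B _ H.DKh u = algebraMap _ (KK k) a * u → ∃ v ∈ RE h, u * v = 1 := by
    intro u hu hu0 a hDu
    have h1 := eig_mem H hb u hu hu0 a a.2 hDu
    exact ⟨u⁻¹, E_mem_RE (inv_mem h1), mul_inv_cancel₀ hu0⟩
  have hD : ∀ f, DE A B _ H.DKh ((phiL F hJ : KK k →+* KK k) f) =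
      algebraMap (IntermediateField.adjoin k {ιK k h}) (KK k)
        (algebraMap k (IntermediateField.adjoin k {ιK k h}) κ) *
      (phiL F hJ : KK k →+* KK k) (DE A B _ H.DKh f) := fun f => commK F hJ A B κ hcomm f
  exact surj_abs H.algCl (tr1 hT) (hfin hT) (RE h) (RE_ufd h H.hc).1 hFG hRt
    (phiL F hJ : KK k →+* KK k) hφE hφE' (phi_RE F hJ h α β hh) (DE A B _ H.DKh) (DK_RE H)
    hker _ hc hD hunit heig (tsen _ hT)

end

end Pool.Agent.H928R2.Pen
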