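import Pool.Agent.H928R2.PenDer

/-!
# Prime powers go down
-/

set_option autoImplicit false

open MvPolynomial Pool.Agent.H928R2.Inv

namespace Pool.Agent.H928R2.Pen

theorem pow_dvd_down {k : Type*} [Field k] [CharZero k] (F : Fin 2 → PP k)
    (hJ : IsUnit (Pool.Agent.H922R2.jac F).det) (f q : PP k) (hf : f ≠ 0) (hq : Prime q)
    (m : ℕ) (h : q ^ (m + 1) ∣ aeval F f) : ∃ p, Prime p ∧ p ^ (m + 1) ∣ f := by
  have h1 : q ∣ aeval F f := (dvd_pow_self q (Nat.succ_ne_zero m)).trans h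
  obtain ⟨π, hπ, hπf, hqπ⟩ : ∃ π, Prime π ∧ π ∣ f ∧ q ∣ aeval F π := by
    clear h
    revert h1 hf
    induction f using UniqueFactorizationMonoid.induction_on_prime with
    | h₁ => intro h; exact absurd rfl h
    | h₂ x hx =>
      intro _ h
      exact absurd (isUnit_of_dvd_unit h (hx.map (aeval F : PP k →ₐ[k] PP k))) hq.not_isUnit
    | h₃ a p ha hp ih =>
      intro _ h
      rw [map_mul] at h
      rcases hq.dvd_or_dvd h with h | h
      · exact ⟨p, hp, Dvd.intro _ rfl, h⟩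
      · obtain ⟨π, h1, h2, h3⟩ := ih ha h
        exact ⟨π, h1, h2.mul_left p, h3⟩
  have hfin : FiniteMultiplicity π f := FiniteMultiplicity.of_prime_left hπ hf
  obtain ⟨f', hf', hnd⟩ := hfin.exists_eq_pow_mul_and_not_dvd
  set j := multiplicity π f
  have hf'0 : f' ≠ 0 := by rintro rfl; exact hnd (dvd_zero _)
  have hqf' : ¬ q ∣ aeval F f' := by
    intro h2
    obtain ⟨π', h3, h4, h5⟩ := Pool.Agent.H922R2.exists_prime_dvd F hJ q f' π hq h2 hqπ hf'0
    exact hnd ((h3.associated_of_dvd hπ h5).dvd'.trans h4)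
  obtain ⟨r, hr⟩ := hqπ
  have hqr : ¬ q ∣ r := by
    rintro ⟨s, hs⟩
    apply Pool.Agent.H922R2.not_sq_dvd F hJ π q hπ hq
    rw [hr, hs]
    exact ⟨s, by ring⟩
  have h2 : aeval F f = q ^ j * (r ^ j * aeval F f') := by
    conv_lhs => rw [hf']
    rw [map_mul, map_pow, hr, mul_pow, mul_assoc]
  have h3 : ¬ q ∣ r ^ j * aeval F f' := by
    intro h4
    rcases hq.dvd_or_dvd h4 with h5 | h5
    · exact hqr (hq.dvd_of_dvd_pow h5)
    · exact hqf' h5
  rw [h2] at h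
  have h4 : q ^ (m + 1) ∣ q ^ j := hq.pow_dvd_of_dvd_mul_right (m + 1) h3 h
  have h5 : m + 1 ≤ j := (pow_dvd_pow_iff hq.ne_zero hq.not_isUnit).1 h4
  refine ⟨π, hπ, (pow_dvd_pow π h5).trans ?_⟩
  conv_rhs => rw [hf']
  exact Dvd.intro _ rfl

end Pool.Agent.H928R2.Pen
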