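import Pool.Agent.H928R2.PenKer
import Pool.Agent.H928R2.PenPow
import Pool.Agent.H928R2.PenTsen
import Pool.Agent.H928R2.PenUnique
import Pool.Agent.H928R2.PenNonprime

set_option autoImplicit false

open MvPolynomial Pool.Agent.H928R2.Inv

namespace Pool.Agent.H928R2.Pen

/-- the fibre `h - b` is a nonunit -/
theorem PenDeg2.not_unit {k : Type*} [Field k] [CharZero k] {h : PP k} (hc : ∀ c, h ≠ C c)
    (b : k) : ¬ IsUnit (h - C b) := by
  intro hu
  obtain ⟨c, _, hc'⟩ := (isUnit_iff_C _).1 hu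
  apply hc (c + b)
  rw [C_add, ← hc']
  ring

theorem PenDeg2.exists_prime {k : Type*} [Field k] [CharZero k] {h : PP k} (hc : ∀ c, h ≠ C c)
    (b : k) : ∃ p : PP k, Prime p ∧ p ∣ h - C b := by
  obtain ⟨p, hp, hd⟩ := WfDvdMonoid.exists_irreducible_factor (PenDeg2.not_unit hc b)
    (sub_ne_zero.2 (hc b))
  exact ⟨p, UniqueFactorizationMonoid.irreducible_iff_prime.1 hp, hd⟩

theorem PenDeg2.le_totalDegree {k : Type*} [Field k] {q : PP k} (hq : Prime q) (m : ℕ) :
    ∀ r : PP k, r ≠ 0 → m ≤ (q ^ m * r).totalDegree := by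
  have hq1 : 1 ≤ q.totalDegree := by
    by_contra hcon
    have h0 : q.totalDegree = 0 := by omega
    rw [MvPolynomial.totalDegree_eq_zero_iff_eq_C] at h0
    apply hq.not_unit
    rw [h0]
    refine (isUnit_iff_ne_zero.2 ?_).map C
    intro hc
    rw [hc, C_0] at h0
    exact hq.ne_zero h0
  induction m with
  | zero => intro r _; exact Nat.zero_le _
  | succ m ih =>
    intro r hr
    have h1 : q ^ (m + 1) * r = q * (q ^ m * r) := by ring
    rw [h1, totalDegree_mul_of_isDomain hq.ne_zero (mul_ne_zero (pow_ne_zero _ hq.ne_zero) hr)]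
    have := ih r hr
    omega

theorem deg_two {k : Type*} [Field k] [IsAlgClosed k] [CharZero k] (F : Fin 2 → PP k)
    (hJ : IsUnit (Pool.Agent.H922R2.jac F).det) (A B h : PP k) (H : Fib A B h)
    (γ : Polynomial k) (hγ : aeval F h = Polynomial.aeval h γ) (hd : 2 ≤ γ.natDegree)
    (hcof : ∀ u l : PP k, u ≠ 0 → dd A B u = l * u → dd A B l = 0) : False := by
  classical
  -- (1) at most one fibre is not prime
  have huniq : ∀ b b' : k, ¬ Prime (h - C b) → ¬ Prime (h - C b') → b = b' := by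
    intro b b' hb hb'
    obtain ⟨p, hp, hpb⟩ := PenDeg2.exists_prime H.hc b
    obtain ⟨q, hq, hqb⟩ := PenDeg2.exists_prime H.hc b'
    obtain ⟨l, hl, hpl⟩ := darboux_of_nonprime A B h H b hb p hp hpb
    obtain ⟨m, hm, hqm⟩ := darboux_of_nonprime A B h H b' hb' q hq hqb
    exact fibre_unique A B h H (tr1 H.transcK) p q l m b b' hp hq hpb hqb hl hm hpl hqm
      (hcof p l hp.ne_zero hpl) (hcof q m hq.ne_zero hqm)
  have hφ : ∀ c : k, aeval F (h - C c) = Polynomial.aeval h (γ - Polynomial.C c) := by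
    intro c
    rw [map_sub, map_sub, hγ, Polynomial.aeval_C]
    congr 1
    exact (aeval F).commutes c
  -- (2) critical values
  have hsq : ∀ c : k, (Polynomial.derivative γ).eval c = 0 → ∀ q : PP k, q ∣ h - C c →
      q * q ∣ aeval F (h - C (γ.eval c)) := by
    intro c hc q hqc
    obtain ⟨δ, hδ⟩ : (Polynomial.X - Polynomial.C c) ^ 2 ∣ γ - Polynomial.C (γ.eval c) := by
      obtain ⟨δ, hδ⟩ : (Polynomial.X - Polynomial.C c) ∣ γ - Polynomial.C (γ.eval c) :=
        Polynomial.X_sub_C_dvd_sub_C_eval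
      have h1 := congrArg Polynomial.derivative hδ
      rw [Polynomial.derivative_sub, Polynomial.derivative_C, sub_zero,
        Polynomial.derivative_mul, Polynomial.derivative_sub, Polynomial.derivative_X,
        Polynomial.derivative_C, sub_zero, one_mul] at h1
      have h2 := congrArg (Polynomial.eval c) h1
      rw [hc, Polynomial.eval_add, Polynomial.eval_mul, Polynomial.eval_sub, Polynomial.eval_X,
        Polynomial.eval_C, sub_self, zero_mul, add_zero] at h2
      obtain ⟨ε, hε⟩ := Polynomial.dvd_iff_isRoot.2 h2.symm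
      exact ⟨ε, by rw [hδ, hε]; ring⟩
    rw [hφ, hδ, map_mul, map_pow, map_sub, Polynomial.aeval_X, Polynomial.aeval_C]
    refine Dvd.dvd.mul_right ?_ _
    rw [sq]
    exact mul_dvd_mul hqc hqc
  have hcrit : ∀ c : k, (Polynomial.derivative γ).eval c = 0 → ¬ Prime (h - C (γ.eval c)) := by
    intro c hc hprime
    obtain ⟨q, hq, hqc⟩ := PenDeg2.exists_prime H.hc c
    exact Pool.Agent.H922R2.not_sq_dvd F hJ (h - C (γ.eval c)) q hprime hq (hsq c hc q hqc)
  have hder : (Polynomial.derivative γ).degree ≠ 0 := by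
    rw [Polynomial.degree_derivative_eq γ (by omega)]
    intro h0
    have : γ.natDegree - 1 = 0 := by exact_mod_cast h0
    omega
  obtain ⟨c₀, hc₀⟩ := IsAlgClosed.exists_root _ hder
  set b₀ : k := γ.eval c₀ with hb₀
  have hb₀n : ¬ Prime (h - C b₀) := hcrit c₀ hc₀
  have hall : ∀ c, (Polynomial.derivative γ).eval c = 0 → γ.eval c = b₀ := fun c hc =>
    huniq _ _ (hcrit c hc) hb₀n
  -- (3) a prime square over `b₀`
  obtain ⟨p, hp, hp2⟩ : ∃ p : PP k, Prime p ∧ p ^ 2 ∣ h - C b₀ := by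
    obtain ⟨q, hq, hqc⟩ := PenDeg2.exists_prime H.hc c₀
    have h2 : q ^ (1 + 1) ∣ aeval F (h - C b₀) := by
      have := hsq c₀ hc₀ q hqc
      rwa [← sq] at this
    exact pow_dvd_down F hJ (h - C b₀) q (sub_ne_zero.2 (H.hc _)) hq 1 h2
  -- the fixed point
  have hfix : γ.eval b₀ = b₀ := by
    refine huniq _ _ (fun hprime => ?_) hb₀n
    apply Pool.Agent.H922R2.not_sq_dvd F hJ (h - C (γ.eval b₀)) p hprime hp
    rw [← sq, hφ]
    refine hp2.trans (uniq_dvd h b₀ _ ?_)
    rw [Polynomial.eval_sub, Polynomial.eval_C, sub_self]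
  -- (4)
  obtain ⟨a, ha, hγa⟩ := single_critical γ b₀ hd hall hfix
  set d := γ.natDegree with hd'
  set f : PP k := h - C b₀ with hf
  have hf0 : f ≠ 0 := sub_ne_zero.2 (H.hc _)
  have hφf : aeval F f = C a * f ^ d := by
    have h1 : γ - Polynomial.C b₀ = Polynomial.C a * (Polynomial.X - Polynomial.C b₀) ^ d := by
      conv_lhs => rw [hγa]
      ring
    rw [hf, hφ, h1, map_mul, map_pow, map_sub, Polynomial.aeval_X, Polynomial.aeval_C,
      Polynomial.aeval_C]
    rfl
  -- (5)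
  have hpow : ∀ m : ℕ, 1 ≤ m → ∃ q : PP k, Prime q ∧ q ^ m ∣ f := by
    intro m hm
    induction m, hm using Nat.le_induction with
    | base =>
      obtain ⟨q, hq, hqd⟩ := PenDeg2.exists_prime H.hc b₀
      exact ⟨q, hq, by rwa [pow_one]⟩
    | succ m hm ih =>
      obtain ⟨q, hq, hqm⟩ := ih
      refine pow_dvd_down F hJ f q hf0 hq m ?_
      rw [hφf]
      refine Dvd.dvd.mul_left ?_ _
      have h1 : (q ^ m) ^ d ∣ f ^ d := pow_dvd_pow_of_dvd hqm d
      refine Dvd.dvd.trans ?_ h1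
      rw [← pow_mul]
      apply pow_dvd_pow
      nlinarith
  obtain ⟨q, hq, r, hr⟩ := hpow (f.totalDegree + 1) (by omega)
  have hr0 : r ≠ 0 := by
    rintro rfl
    rw [mul_zero] at hr
    exact hf0 hr
  have h1 := PenDeg2.le_totalDegree hq (f.totalDegree + 1) r hr0
  rw [← hr] at h1
  omega

end Pool.Agent.H928R2.Pen
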