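import Pool.Agent.H928R2.Pen0

/-!
# Derivations of the polynomial ring in two variables
-/

set_option autoImplicit false
set_option linter.unusedSectionVars false

open MvPolynomial Pool.Agent.H928R2.Inv

namespace Pool.Agent.H928R2.Pen

section
variable {k : Type*} [Field k] [CharZero k]

/-- polynomials in two variables -/
abbrev PP (k : Type*) [Field k] : Type _ := MvPolynomial (Fin 2) k
/-- rational functions in two variables -/
abbrev KK (k : Type*) [Field k] : Type _ := RF k (Fin 2)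

/-- the inclusion -/
noncomputable abbrev ιK (k : Type*) [Field k] : PP k →ₐ[k] KK k := iR k (Fin 2)

/-- the derivation `A ∂_y - B ∂_x` of polynomials -/
noncomputable def dd (A B : PP k) : Derivation k (PP k) (PP k) := A • pderiv 1 - B • pderiv 0

theorem dd_apply (A B f : PP k) : dd A B f = A * pderiv 1 f - B * pderiv 0 f := rfl

/-- the derivation `A ∂_y - B ∂_x` of rational functions -/
noncomputable def DK (A B : PP k) : Derivation k (KK k) (KK k) :=
  ιK k A • dL 1 - ιK k B • dL 0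

theorem DK_apply (A B : PP k) (f : KK k) :
    DK A B f = ιK k A * dL 1 f - ιK k B * dL 0 f := rfl

theorem DK_coe (A B f : PP k) : DK A B (ιK k f) = ιK k (dd A B f) := by
  rw [DK_apply, dd_apply, map_sub, map_mul, map_mul]
  have h := dL_coe (k := k) (σ := Fin 2)
  show _ * dL 1 (algebraMap (PP k) (KK k) f) - _ * dL 0 (algebraMap (PP k) (KK k) f) = _
  rw [h, h]
  rfl

theorem dd_X0 (A B : PP k) : dd A B (X 0) = -B := by
  rw [dd_apply, pderiv_X_self, pderiv_X_of_ne (by decide)]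
  ring

theorem dd_X1 (A B : PP k) : dd A B (X 1) = A := by
  rw [dd_apply, pderiv_X_self, pderiv_X_of_ne (by decide)]
  ring

theorem eq_C_of_pderiv (f : PP k) (h0 : pderiv 0 f = 0) (h1 : pderiv 1 f = 0) :
    ∃ c, f = C c := by
  refine ⟨_, Pool.Agent.H922R2.eq_C_of_pderiv_eq_zero f fun i => ?_⟩
  fin_cases i
  · exact h0
  · exact h1

/-- reduced fractions -/
theorem exists_reduced (x : KK k) : ∃ P Q : PP k, IsRelPrime P Q ∧ Q ≠ 0 ∧
    x = ιK k P / ιK k Q := by
  obtain ⟨a, b, hb, rfl⟩ := IsFractionRing.div_surjective (A := PP k) x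
  have hb0 : b ≠ 0 := nonZeroDivisors.ne_zero hb
  obtain ⟨a', b', c', hco, ha, hb'⟩ := UniqueFactorizationMonoid.exists_reduced_factors' a b hb0
  have hc' : c' ≠ 0 := by
    rintro rfl
    rw [zero_mul] at hb'
    exact hb0 hb'.symm
  have hb'' : b' ≠ 0 := by
    rintro rfl
    rw [mul_zero] at hb'
    exact hb0 hb'.symm
  refine ⟨a', b', hco, hb'', ?_⟩
  rw [← ha, ← hb']
  show ιK k (c' * a') / ιK k (c' * b') = _
  rw [map_mul, map_mul, mul_div_mul_left]
  exact (map_ne_zero_iff _ iR_inj).2 hc'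

theorem ι_ne {a : PP k} (ha : a ≠ 0) : ιK k a ≠ 0 := (map_ne_zero_iff _ iR_inj).2 ha

theorem dL_ι (j : Fin 2) (p : PP k) : dL j (ιK k p) = ιK k (pderiv j p) := dL_coe j p

theorem const_of_dL (x : KK k) (h0 : dL 0 x = 0) (h1 : dL 1 x = 0) :
    ∃ c : k, x = algebraMap k (KK k) c := by
  obtain ⟨P, Q, hco, hQ, rfl⟩ := exists_reduced x
  have key : ∀ j : Fin 2, dL j (ιK k P / ιK k Q) = 0 → pderiv j Q = 0 ∧ pderiv j P = 0 := by
    intro j hj
    have h2 : (ιK k P / ιK k Q) * ιK k Q = ιK k P := div_mul_cancel₀ _ (ι_ne hQ)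
    have h3 := congrArg (dL j) h2
    rw [Derivation.leibniz, hj, smul_zero, add_zero, dL_ι, dL_ι, smul_eq_mul] at h3
    have h4 : P * pderiv j Q = Q * pderiv j P := by
      apply iR_inj (k := k) (σ := Fin 2)
      show ιK k _ = ιK k _
      rw [map_mul, map_mul, ← h3]
      have := ι_ne hQ
      field_simp
    have h5 : Q ∣ pderiv j Q := hco.symm.dvd_of_dvd_mul_left ⟨_, h4⟩
    have h6 : pderiv j Q = 0 := by
      by_contra hne
      obtain ⟨s, hs⟩ := h5
      have hs0 : s ≠ 0 := by rintro rfl; exact hne (by rw [hs, mul_zero])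
      have h7 := Pool.Agent.H922R2.totalDegree_pderiv_lt Q j hne
      rw [hs, totalDegree_mul_of_isDomain hQ hs0] at h7
      omega
    refine ⟨h6, ?_⟩
    rw [h6, mul_zero] at h4
    exact (mul_eq_zero.1 h4.symm).resolve_left hQ
  obtain ⟨c, hc⟩ := eq_C_of_pderiv P (key 0 h0).2 (key 1 h1).2
  obtain ⟨d, hd⟩ := eq_C_of_pderiv Q (key 0 h0).1 (key 1 h1).1
  refine ⟨c / d, ?_⟩
  rw [hc, hd, map_div₀]
  rfl

/-- the primitive derivation killing a rational function -/
theorem exists_prim (x : KK k) :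
    ∃ A B : PP k, IsRelPrime A B ∧ DK A B x = 0 := by
  obtain ⟨P, Q, hPQ, hQ, h⟩ : ∃ P Q : PP k, IsRelPrime P Q ∧ True ∧
      ιK k P * dL 1 x = ιK k Q * dL 0 x := by
    by_cases h1 : dL 1 x = 0
    · refine ⟨1, 0, isRelPrime_one_left, trivial, ?_⟩
      rw [h1, map_zero, zero_mul, mul_zero]
    · obtain ⟨P, Q, hPQ, hQ, h2⟩ := exists_reduced (dL 0 x / dL 1 x)
      refine ⟨P, Q, hPQ, trivial, ?_⟩
      rw [div_eq_div_iff h1 (ι_ne hQ)] at h2
      rw [← h2]
      ring
  exact ⟨P, Q, hPQ, by rw [DK_apply, h, sub_self]⟩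

theorem relprime_ne {A B : PP k} (h : IsRelPrime A B) : A ≠ 0 ∨ B ≠ 0 := by
  by_contra hcon
  push Not at hcon
  obtain ⟨rfl, rfl⟩ := hcon
  exact not_isUnit_zero (h (dvd_refl 0) (dvd_refl 0))

/-- proportional gradients -/
theorem exists_ratio {A B : PP k} (h : IsRelPrime A B) (x : KK k) (hx : DK A B x = 0) :
    ∃ r : KK k, dL 0 x = r * ιK k A ∧ dL 1 x = r * ιK k B := by
  rw [DK_apply, sub_eq_zero] at hx
  rcases relprime_ne h with hA | hB
  · refine ⟨dL 0 x / ιK k A, ?_, ?_⟩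
    · rw [div_mul_cancel₀ _ (ι_ne hA)]
    · have := ι_ne hA
      field_simp
      linear_combination hx
  · refine ⟨dL 1 x / ιK k B, ?_, ?_⟩
    · have := ι_ne hB
      field_simp
      linear_combination -hx
    · rw [div_mul_cancel₀ _ (ι_ne hB)]

theorem DK_zero_iff {A B : PP k} (f : PP k) : DK A B (ιK k f) = 0 ↔ dd A B f = 0 := by
  rw [DK_coe]
  exact map_eq_zero_iff _ iR_inj

/-- `D = A ∂_y - B ∂_x` is primitive and its kernel is `k(h)`, respectively `k[h]` on polynomials -/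
structure Fib (A B h : PP k) : Prop where
  co : IsRelPrime A B
  Dh : dd A B h = 0
  hc : ∀ c, h ≠ C c
  ker : ∀ f : PP k, dd A B f = 0 → ∃ γ : Polynomial k, f = Polynomial.aeval h γ
  kerK : ∀ x : KK k, DK A B x = 0 ↔ x ∈ IntermediateField.adjoin k {ιK k h}

theorem transc_of_nonconst (h : PP k) (hc : ∀ c, h ≠ C c) : Transcendental k h := by
  intro halg
  have hsep : (minpoly k h).Separable := (minpoly.irreducible halg.isIntegral).separable
  have h2 : Polynomial.aeval h (Polynomial.derivative (minpoly k h)) ≠ 0 :=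
    hsep.aeval_derivative_ne_zero (minpoly.aeval _ _)
  have h1 : ∀ i, pderiv i h = 0 := by
    intro i
    have h3 := congrArg (pderiv i) (minpoly.aeval k h)
    rw [Derivation.map_aeval, map_zero, smul_eq_mul] at h3
    exact (mul_eq_zero.1 h3).resolve_left h2
  obtain ⟨c, h4⟩ := eq_C_of_pderiv h (h1 0) (h1 1)
  exact hc c h4

theorem Fib.transc {A B h : PP k} (H : Fib A B h) : Transcendental k h :=
  transc_of_nonconst h H.hc

theorem dd_aeval {A B h : PP k} (Dh : dd A B h = 0) (γ : Polynomial k) :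
    dd A B (Polynomial.aeval h γ) = 0 := by
  rw [Derivation.map_aeval, Dh, smul_zero]

theorem aeval_inj {h : PP k} (hc : ∀ c, h ≠ C c) :
    Function.Injective (Polynomial.aeval h : Polynomial k →ₐ[k] PP k) :=
  transcendental_iff_injective.1 (transc_of_nonconst h hc)

/-- units are constants -/
theorem isUnit_iff_C (f : PP k) : IsUnit f ↔ ∃ c : k, c ≠ 0 ∧ f = C c := by
  constructor
  · intro h
    obtain ⟨c, hc, rfl⟩ := MvPolynomial.isUnit_iff_eq_C_of_isReduced.1 h
    exact ⟨c, hc.ne_zero, rfl⟩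
  · rintro ⟨c, hc, rfl⟩
    exact (isUnit_iff_ne_zero.2 hc).map C

theorem isUnit_of_dvd_C {f : PP k} {c : k} (hc : c ≠ 0) (h : f ∣ C c) : IsUnit f :=
  isUnit_of_dvd_unit h ((isUnit_iff_ne_zero.2 hc).map C)

/-- the ring `k(h)[x, y]` -/
noncomputable def RE (h : PP k) :
    Subalgebra (IntermediateField.adjoin k {ιK k h}) (KK k) :=
  Algebra.adjoin _ (Set.range fun i : Fin 2 => ιK k (X i))

end

end Pool.Agent.H928R2.Pen
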