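import Pool.Agent.H928R2.PenDer

/-! # Task P11 (helper153): eigenspace of a pencil without polynomial first integral -/

set_option autoImplicit false

open MvPolynomial Pool.Agent.H928R2.Inv

namespace Pool.Agent.H928R2.Pen

section
variable {k : Type*} [Field k] [CharZero k]

/-- homogenisation of `p` at `(P, Q)` in degree `n` -/
noncomputable def hom2 (P Q : PP k) (n : ℕ) (p : Polynomial k) : PP k :=
  ∑ i ∈ Finset.range (n + 1), C (p.coeff i) * P ^ i * Q ^ (n - i)

theorem ι_hom2 {P Q : PP k} (hQ : Q ≠ 0) (n : ℕ) (p : Polynomial k) (hp : p.natDegree ≤ n) :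
    ιK k (hom2 P Q n p) = ιK k Q ^ n * Polynomial.aeval (ιK k P / ιK k Q) p := by
  have hQ' := ι_ne hQ
  rw [hom2, map_sum, Polynomial.aeval_eq_sum_range' (Nat.lt_succ_of_le hp), Finset.mul_sum]
  apply Finset.sum_congr rfl
  intro i hi
  have hi' : i ≤ n := Nat.lt_succ_iff.1 (Finset.mem_range.1 hi)
  rw [map_mul, map_mul, map_pow, map_pow, Algebra.smul_def, div_pow]
  have h1 : ιK k (C (p.coeff i)) = algebraMap k (KK k) (p.coeff i) := by
    rw [← MvPolynomial.algebraMap_eq]
    exact (ιK k).commutes _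
  have h2 : ιK k Q ^ n = ιK k Q ^ (n - i) * ιK k Q ^ i := by
    rw [← pow_add, Nat.sub_add_cancel hi']
  rw [h1, h2]
  field_simp

theorem hom2_mod (P Q : PP k) (n : ℕ) (p : Polynomial k) :
    ∃ r, hom2 P Q n p = Q * r + C (p.coeff n) * P ^ n := by
  refine ⟨∑ i ∈ Finset.range n, C (p.coeff i) * P ^ i * Q ^ (n - i - 1), ?_⟩
  rw [hom2, Finset.sum_range_succ, Nat.sub_self, pow_zero, mul_one, Finset.mul_sum]
  congr 1
  apply Finset.sum_congr rfl
  intro i hi
  have hi' : i < n := Finset.mem_range.1 hi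
  have : n - i = (n - i - 1) + 1 := by omega
  rw [this, pow_succ, Nat.add_sub_cancel]
  ring

theorem hom2_relprime {P Q : PP k} (hPQ : IsRelPrime P Q) (hQ : Q ≠ 0) (n : ℕ)
    (a b : Polynomial k) (hab : IsCoprime a b) (ha : a.natDegree ≤ n) (hb : b.natDegree ≤ n)
    (hn : a.natDegree = n ∧ a ≠ 0 ∨ b.natDegree = n ∧ b ≠ 0) :
    IsRelPrime (hom2 P Q n a) (hom2 P Q n b) := by
  obtain ⟨u, v, huv⟩ := hab
  have hQ' := ι_ne hQ
  intro d hda hdb
  set m := max u.natDegree v.natDegree with hm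
  have hid : hom2 P Q m u * hom2 P Q n a + hom2 P Q m v * hom2 P Q n b = Q ^ (m + n) := by
    apply iR_inj (k := k) (σ := Fin 2)
    show ιK k _ = ιK k _
    rw [map_add, map_mul, map_mul, map_pow, ι_hom2 hQ m u (le_max_left _ _),
      ι_hom2 hQ m v (le_max_right _ _), ι_hom2 hQ n a ha, ι_hom2 hQ n b hb]
    have h1 := congrArg (Polynomial.aeval (ιK k P / ιK k Q)) huv
    rw [map_add, map_mul, map_mul, map_one] at h1
    linear_combination (ιK k Q ^ m * ιK k Q ^ n) * h1
  have hdQ : d ∣ Q ^ (m + n) := by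
    rw [← hid]
    exact dvd_add (Dvd.dvd.mul_left hda _) (Dvd.dvd.mul_left hdb _)
  have hd0 : d ≠ 0 := by
    rintro rfl
    exact pow_ne_zero _ hQ (zero_dvd_iff.1 hdQ)
  by_contra hu
  obtain ⟨π, hπ, hπd⟩ := WfDvdMonoid.exists_irreducible_factor hu hd0
  have hπp : Prime π := hπ.prime
  have hπQ : π ∣ Q := hπp.dvd_of_dvd_pow (hπd.trans hdQ)
  have key : ∀ p : Polynomial k, p.natDegree = n → p ≠ 0 → d ∣ hom2 P Q n p → False := by
    intro p hpn hp0 hdp
    obtain ⟨r, hr⟩ := hom2_mod P Q n p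
    have h1 : π ∣ C (p.coeff n) * P ^ n := by
      have h2 : π ∣ hom2 P Q n p := hπd.trans hdp
      rw [hr] at h2
      exact (dvd_add_right (Dvd.dvd.mul_right hπQ _)).1 h2
    have hc : p.coeff n ≠ 0 := by
      rw [← hpn]
      exact Polynomial.leadingCoeff_ne_zero.2 hp0
    rcases hπp.dvd_or_dvd h1 with h2 | h2
    · exact hπp.not_unit (isUnit_of_dvd_C hc h2)
    · exact hπp.not_unit (hPQ (hπp.dvd_of_dvd_pow h2) hπQ)
  rcases hn with ⟨h1, h2⟩ | ⟨h1, h2⟩
  · exact key a h1 h2 hda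
  · exact key b h1 h2 hdb

theorem dd_C (A B : PP k) (c : k) : dd A B (C c) = 0 := by
  rw [← MvPolynomial.algebraMap_eq]
  exact (dd A B).map_algebraMap c

theorem hom2_eig {A B P Q : PP k} (hQ : Q ≠ 0) (hy : DK A B (ιK k P / ιK k Q) = 0) (l : k)
    (hDQ : dd A B Q = C l * Q) (n : ℕ) (p : Polynomial k) (hp : p.natDegree ≤ n) :
    dd A B (hom2 P Q n p) = C (n * l) * hom2 P Q n p := by
  apply iR_inj (k := k) (σ := Fin 2)
  show ιK k _ = ιK k _
  rw [← DK_coe, map_mul, ι_hom2 hQ n p hp, Derivation.leibniz, Derivation.map_aeval, hy, smul_zero,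
    smul_zero, zero_add, Derivation.leibniz_pow, DK_coe, hDQ, map_mul, smul_eq_mul, smul_eq_mul,
    nsmul_eq_mul, map_mul C, map_mul (ιK k) (C (n : k))]
  have h1 : ιK k (C (n : k)) = (n : KK k) := by
    rw [map_natCast, map_natCast]
  rw [h1]
  rcases n with _ | n
  · simp
  · rw [Nat.add_sub_cancel, pow_succ]
    ring

/-- the eigenspace is spanned by `P` and `Q` -/
theorem eig_span (A B : PP k)
    (hker : ∀ f : PP k, dd A B f = 0 → ∃ c, f = C c) {P Q : PP k} (hPQ : IsRelPrime P Q)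
    (hQ : Q ≠ 0)
    (hy : ∀ x : KK k, DK A B x = 0 ↔ x ∈ IntermediateField.adjoin k {ιK k P / ιK k Q})
    {l : k} (hl : l ≠ 0) (hDQ : dd A B Q = C l * Q)
    (f : PP k) (hf : dd A B f = C l * f) : ∃ a b : k, f = C a * P + C b * Q := by
  by_cases hf0 : f = 0
  · exact ⟨0, 0, by simp [hf0]⟩
  have hQ' := ι_ne hQ
  have hf' := ι_ne hf0
  have hy0 : DK A B (ιK k P / ιK k Q) = 0 := (hy _).2 (IntermediateField.mem_adjoin_simple_self k _)
  have hx : DK A B (ιK k f / ιK k Q) = 0 := by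
    have h2 : (ιK k f / ιK k Q) * ιK k Q = ιK k f := div_mul_cancel₀ _ hQ'
    have h3 := congrArg (DK A B) h2
    rw [Derivation.leibniz, DK_coe, DK_coe, hf, hDQ, smul_eq_mul, smul_eq_mul, map_mul, map_mul] at h3
    have h4 : ιK k Q * DK A B (ιK k f / ιK k Q) = 0 := by
      have h5 : ιK k f / ιK k Q * (ιK k (C l) * ιK k Q) = ιK k (C l) * ιK k f := by
        field_simp
      rw [h5] at h3
      linear_combination h3
    exact (mul_eq_zero.1 h4).resolve_left hQ'
  have hmem := (hy _).1 hx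
  rw [IntermediateField.mem_adjoin_simple_iff] at hmem
  obtain ⟨r, s, hrs⟩ := hmem
  set y : KK k := ιK k P / ιK k Q with hydef
  have hxne : ιK k f / ιK k Q ≠ 0 := div_ne_zero hf' hQ'
  have hs0 : Polynomial.aeval y s ≠ 0 := by
    intro h
    rw [h, div_zero] at hrs
    exact hxne hrs
  have hsne : s ≠ 0 := by
    rintro rfl
    exact hs0 (map_zero _)
  -- make the fraction coprime
  obtain ⟨g, a, b, hga, hgb, hab⟩ : ∃ g a b : Polynomial k, r = g * a ∧ s = g * b ∧
      IsCoprime a b := by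
    classical
    obtain ⟨a, ha⟩ := EuclideanDomain.gcd_dvd_left r s
    obtain ⟨b, hb⟩ := EuclideanDomain.gcd_dvd_right r s
    have hg0 : EuclideanDomain.gcd r s ≠ 0 := fun h => hsne (EuclideanDomain.gcd_eq_zero_iff.1 h).2
    refine ⟨EuclideanDomain.gcd r s, a, b, ha, hb, EuclideanDomain.gcdA r s,
      EuclideanDomain.gcdB r s, ?_⟩
    have h1 := EuclideanDomain.gcd_eq_gcd_ab r s
    generalize EuclideanDomain.gcd r s = g at *
    generalize EuclideanDomain.gcdA r s = u at *
    generalize EuclideanDomain.gcdB r s = v at *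
    apply mul_left_cancel₀ hg0
    rw [ha, hb] at h1
    linear_combination -h1
  have hg0 : Polynomial.aeval y g ≠ 0 := by
    intro h
    rw [hgb, map_mul, h, zero_mul] at hs0
    exact hs0 rfl
  have hb0 : Polynomial.aeval y b ≠ 0 := by
    intro h
    rw [hgb, map_mul, h, mul_zero] at hs0
    exact hs0 rfl
  have hfrac : ιK k f * Polynomial.aeval y b = ιK k Q * Polynomial.aeval y a := by
    rw [hga, hgb, map_mul, map_mul, mul_div_mul_left _ _ hg0, div_eq_div_iff hQ' hb0] at hrs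
    rw [hrs]; ring
  have ha0 : Polynomial.aeval y a ≠ 0 := by
    intro h
    rw [h, mul_zero] at hfrac
    exact mul_ne_zero hf' hb0 hfrac
  have hane : a ≠ 0 := by rintro rfl; exact ha0 (map_zero _)
  have hbne : b ≠ 0 := by rintro rfl; exact hb0 (map_zero _)
  set n := max a.natDegree b.natDegree with hn
  have han : a.natDegree ≤ n := le_max_left _ _
  have hbn : b.natDegree ≤ n := le_max_right _ _
  have hor : a.natDegree = n ∧ a ≠ 0 ∨ b.natDegree = n ∧ b ≠ 0 := by
    rcases max_choice a.natDegree b.natDegree with h | h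
    · left; exact ⟨by rw [hn, h], hane⟩
    · right; exact ⟨by rw [hn, h], hbne⟩
  have hrp := hom2_relprime hPQ hQ n a b hab han hbn hor
  have hmain : f * hom2 P Q n b = Q * hom2 P Q n a := by
    apply iR_inj (k := k) (σ := Fin 2)
    show ιK k _ = ιK k _
    rw [map_mul, map_mul, ι_hom2 hQ n a han, ι_hom2 hQ n b hbn]
    linear_combination (ιK k Q ^ n) * hfrac
  have hdvd : hom2 P Q n b ∣ Q :=
    hrp.symm.dvd_of_dvd_mul_right (Dvd.intro_left f hmain)
  obtain ⟨w, hw⟩ := hdvd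
  have hbs0 : hom2 P Q n b ≠ 0 := by
    intro h
    rw [h, zero_mul] at hw
    exact hQ hw
  have hw0 : w ≠ 0 := by
    rintro rfl
    rw [mul_zero] at hw
    exact hQ hw
  have hDw : dd A B w = C ((1 - n) * l) * w := by
    have h1 := congrArg (dd A B) hw
    rw [Derivation.leibniz, hom2_eig hQ hy0 l hDQ n b hbn, hDQ, smul_eq_mul, smul_eq_mul] at h1
    apply mul_left_cancel₀ hbs0
    have h2 : hom2 P Q n b * dd A B w = C l * Q - w * (C (↑n * l) * hom2 P Q n b) := by
      rw [h1]; ring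
    rw [h2]
    have h3 : C l * Q = C l * (hom2 P Q n b * w) := by rw [← hw]
    rw [h3]
    simp only [map_mul, map_sub, map_one]
    ring
  have hQC : ∀ c : k, Q ≠ C c := by
    intro c hc
    rw [hc, dd_C] at hDQ
    have h1 : C (σ := Fin 2) l * C c = 0 := hDQ.symm
    rcases mul_eq_zero.1 h1 with h2 | h2
    · exact hl (C_injective _ _ (h2.trans (map_zero C).symm))
    · exact hQ (hc.trans h2)
  rcases n with _ | _ | n
  · -- constants
    have e : ∀ p : Polynomial k, hom2 P Q 0 p = C (p.coeff 0) := by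
      intro p; simp [hom2]
    rw [e, e] at hmain
    have hb00 : b.coeff 0 ≠ 0 := by
      intro h
      rw [e, h, map_zero] at hbs0
      exact hbs0 rfl
    refine ⟨0, a.coeff 0 / b.coeff 0, ?_⟩
    have h1 : C (σ := Fin 2) (b.coeff 0) ≠ 0 := by
      intro h
      exact hb00 (C_injective _ _ (h.trans (map_zero C).symm))
    apply mul_right_cancel₀ h1
    rw [hmain, map_zero, zero_mul, zero_add, mul_assoc, mul_comm Q (C (b.coeff 0)), ← mul_assoc,
      ← map_mul, div_mul_cancel₀ _ hb00, mul_comm]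
  · have h1 : dd A B w = 0 := by
      rw [hDw]; simp
    obtain ⟨c, rfl⟩ := hker w h1
    refine ⟨c * a.coeff 1, c * a.coeff 0, ?_⟩
    apply mul_right_cancel₀ hbs0
    rw [hmain]
    have h2 : hom2 P Q (0 + 1) a = C (a.coeff 0) * Q + C (a.coeff 1) * P := by
      simp [hom2, Finset.sum_range_succ]
    rw [h2]
    have h3 : Q * (C (a.coeff 0) * Q + C (a.coeff 1) * P)
        = (hom2 P Q (0 + 1) b * C c) * (C (a.coeff 0) * Q + C (a.coeff 1) * P) := by
      rw [← hw]
    rw [h3, map_mul, map_mul]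
    ring
  · exfalso
    have h1 : dd A B (w * Q ^ (n + 1)) = 0 := by
      rw [Derivation.leibniz, Derivation.leibniz_pow, hDw, hDQ, smul_eq_mul, smul_eq_mul,
        smul_eq_mul, nsmul_eq_mul, Nat.add_sub_cancel]
      have h2 : (C ((1 - ((n + 1 + 1 : ℕ) : k)) * l) : PP k) = (1 - ((n : PP k) + 1 + 1)) * C l := by
        rw [map_mul, map_sub, map_one, map_natCast]
        push_cast
        ring
      rw [h2]
      push_cast
      ring
    obtain ⟨c, hc⟩ := hker _ h1
    have hc0 : c ≠ 0 := by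
      rintro rfl
      rw [map_zero] at hc
      exact mul_ne_zero hw0 (pow_ne_zero _ hQ) hc
    have h2 : Q ∣ C c := by
      rw [← hc, pow_succ]
      exact ⟨w * Q ^ n, by ring⟩
    obtain ⟨d, _, hd⟩ := (isUnit_iff_C Q).1 (isUnit_of_dvd_C hc0 h2)
    exact hQC d hd

end

theorem eig_space {k : Type*} [Field k] [IsAlgClosed k] [CharZero k] (A B : PP k)
    (hker : ∀ f : PP k, dd A B f = 0 → ∃ c, f = C c) (y : KK k)
    (hy : ∀ x : KK k, DK A B x = 0 ↔ x ∈ IntermediateField.adjoin k {y})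
    (hyc : ∀ c : k, y ≠ algebraMap k (KK k) c)
    (hcof : ∀ u l : PP k, u ≠ 0 → dd A B u = l * u → ∃ c, l = C c)
    (F : Fin 2 → PP k) (hF : Function.Injective (aeval F : PP k →ₐ[k] PP k))
    (hcomm : ∀ f, dd A B (aeval F f) = aeval F (dd A B f)) :
    ∃ (s : PP k) (α : k), (∀ c, s ≠ C c) ∧ α ≠ 0 ∧ aeval F s = C α * s := by
  obtain ⟨P, Q, hPQ, hQ, rfl⟩ := exists_reduced y
  have hQ' := ι_ne hQ
  have hιC : ∀ c : k, ιK k (C c) = algebraMap k (KK k) c := by
    intro c
    rw [← MvPolynomial.algebraMap_eq]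
    exact (ιK k).commutes _
  have hP : P ≠ 0 := by
    rintro rfl
    apply hyc 0
    rw [map_zero, map_zero, zero_div]
  have hy0 : DK A B (ιK k P / ιK k Q) = 0 := (hy _).2 (IntermediateField.mem_adjoin_simple_self k _)
  have hrel : Q * dd A B P = P * dd A B Q := by
    have h2 : (ιK k P / ιK k Q) * ιK k Q = ιK k P := div_mul_cancel₀ _ hQ'
    have h3 := congrArg (DK A B) h2
    rw [Derivation.leibniz, hy0, smul_zero, add_zero, DK_coe, DK_coe, smul_eq_mul] at h3
    apply iR_inj (k := k) (σ := Fin 2)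
    show ιK k _ = ιK k _
    rw [map_mul, map_mul, ← h3]
    field_simp
  have hPd : P ∣ dd A B P := hPQ.dvd_of_dvd_mul_left ⟨_, hrel⟩
  have hQd : Q ∣ dd A B Q := hPQ.symm.dvd_of_dvd_mul_left ⟨_, hrel.symm⟩
  obtain ⟨l1, hl1⟩ := hPd
  obtain ⟨l2, hl2⟩ := hQd
  obtain ⟨l, rfl⟩ := hcof P l1 hP (by rw [hl1]; ring)
  obtain ⟨l', rfl⟩ := hcof Q l2 hQ (by rw [hl2]; ring)
  have hll : l = l' := by
    rw [hl1, hl2] at hrel
    have h1 : (Q * P) * (C l) = (Q * P) * (C l') := by
      linear_combination hrel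
    exact C_injective _ _ (mul_left_cancel₀ (mul_ne_zero hQ hP) h1)
  subst hll
  have hDP : dd A B P = C l * P := by rw [hl1]; ring
  have hDQ : dd A B Q = C l * Q := by rw [hl2]; ring
  have hl : l ≠ 0 := by
    rintro rfl
    rw [map_zero, zero_mul] at hDP hDQ
    obtain ⟨c, rfl⟩ := hker P hDP
    obtain ⟨d, rfl⟩ := hker Q hDQ
    apply hyc (c / d)
    rw [hιC, hιC, map_div₀]
  -- the eigenspace
  let V : Submodule k (PP k) :=
    { carrier := {f | dd A B f = C l * f}
      add_mem' := by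
        intro a b ha hb
        simp only [Set.mem_setOf_eq] at ha hb ⊢
        rw [map_add, ha, hb, mul_add]
      zero_mem' := by simp
      smul_mem' := by
        intro c a ha
        simp only [Set.mem_setOf_eq] at ha ⊢
        rw [Derivation.map_smul, ha, mul_smul_comm] }
  have hVmem : ∀ f, f ∈ V ↔ dd A B f = C l * f := fun f => Iff.rfl
  have hVle : V ≤ Submodule.span k {P, Q} := by
    intro f hf
    obtain ⟨a, b, rfl⟩ := eig_span A B hker hPQ hQ hy hl hDQ f ((hVmem f).1 hf)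
    rw [Submodule.mem_span_pair]
    exact ⟨a, b, by rw [MvPolynomial.smul_eq_C_mul, MvPolynomial.smul_eq_C_mul]⟩
  haveI : FiniteDimensional k (Submodule.span k {P, Q}) :=
    FiniteDimensional.span_of_finite k (Set.toFinite _)
  haveI : FiniteDimensional k V := Submodule.finiteDimensional_of_le hVle
  haveI : Nontrivial V := by
    refine ⟨⟨⟨P, hDP⟩, 0, ?_⟩⟩
    intro h
    exact hP (congrArg Subtype.val h)
  have hVF : ∀ f ∈ V, (aeval F : PP k →ₐ[k] PP k).toLinearMap f ∈ V := by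
    intro f hf
    rw [hVmem] at hf ⊢
    show dd A B (aeval F f) = C l * aeval F f
    rw [hcomm, hf, map_mul, aeval_C]
    rfl
  let φ : Module.End k V := (aeval F : PP k →ₐ[k] PP k).toLinearMap.restrict hVF
  obtain ⟨α, hα⟩ := Module.End.exists_eigenvalue φ
  obtain ⟨s, hs⟩ := hα.exists_hasEigenvector
  have hs0 : (s : PP k) ≠ 0 := by
    intro h
    exact hs.2 (Subtype.ext h)
  have hs1 : aeval F (s : PP k) = C α * (s : PP k) := by
    have h1 := congrArg Subtype.val hs.apply_eq_smul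
    rw [← MvPolynomial.smul_eq_C_mul]
    exact h1
  have hDs : dd A B (s : PP k) = C l * (s : PP k) := s.2
  refine ⟨s, α, ?_, ?_, hs1⟩
  · intro c hc
    rw [hc, dd_C] at hDs
    rcases mul_eq_zero.1 hDs.symm with h2 | h2
    · exact hl (C_injective _ _ (h2.trans (map_zero C).symm))
    · exact hs0 (hc.trans h2)
  · rintro rfl
    rw [map_zero, zero_mul] at hs1
    exact hs0 (hF (hs1.trans (map_zero _).symm))

end Pool.Agent.H928R2.Pen
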