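import Pool.Agent.H928R2.PenDer

/-!
# The foliation lemma
-/

set_option autoImplicit false
set_option linter.unusedSectionVars false

open MvPolynomial Pool.Agent.H928R2.Inv

namespace Pool.Agent.H928R2.Pen

section
variable {k : Type*} [Field k] [CharZero k] (F : Fin 2 → PP k)

theorem relprime_map (hJ : IsUnit (Pool.Agent.H922R2.jac F).det) {a b : PP k}
    (h : IsRelPrime a b) : IsRelPrime (aeval F a) (aeval F b) := by
  have hinj := Pool.Agent.H922R2.aeval_injective F hJ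
  apply WfDvdMonoid.isRelPrime_of_no_irreducible_factors
  · rintro ⟨ha, hb⟩
    rw [map_eq_zero_iff _ hinj] at ha hb
    rcases relprime_ne h with h1 | h1
    · exact h1 ha
    · exact h1 hb
  · intro z hz hza hzb
    have hzp : Prime z := hz.prime
    rcases relprime_ne h with h1 | h1
    · obtain ⟨π, hπ, h2, h3⟩ := Pool.Agent.H922R2.exists_prime_dvd F hJ z a b hzp hza hzb h1
      exact hπ.not_isUnit (h h2 h3)
    · obtain ⟨π, hπ, h2, h3⟩ := Pool.Agent.H922R2.exists_prime_dvd F hJ z b a hzp hzb hza h1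
      exact hπ.not_isUnit (h h3 h2)

theorem jac_det : (Pool.Agent.H922R2.jac F).det =
    pderiv 0 (F 0) * pderiv 1 (F 1) - pderiv 1 (F 0) * pderiv 0 (F 1) := by
  rw [Matrix.det_fin_two]
  rfl

theorem dd_aevalF (A B f : PP k) : dd A B (aeval F f) =
    (A * pderiv 1 (F 1) - B * pderiv 0 (F 1)) * aeval F (pderiv 1 f) -
    (B * pderiv 0 (F 0) - A * pderiv 1 (F 0)) * aeval F (pderiv 0 f) := by
  rw [Pool.Agent.H922R2.deriv_aeval, Fin.sum_univ_two, dd_apply, dd_apply]
  ring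

theorem assoc_pairs {a b c d : PP k} (h1 : IsRelPrime a b) (h2 : IsRelPrime c d)
    (h : a * d = b * c) : ∃ u : PP k, IsUnit u ∧ a = u * c ∧ b = u * d := by
  have hac : a ∣ c := h1.dvd_of_dvd_mul_left ⟨d, h.symm⟩
  have hca : c ∣ a := h2.dvd_of_dvd_mul_right ⟨b, by rw [h]; ring⟩
  by_cases ha : a = 0
  · subst ha
    have hc : c = 0 := zero_dvd_iff.1 hac
    subst hc
    have hb : IsUnit b := h1 (dvd_zero b) dvd_rfl
    have hd : IsUnit d := h2 (dvd_zero d) dvd_rfl
    obtain ⟨v, hv⟩ := hd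
    refine ⟨b * (v⁻¹ : (PP k)ˣ), hb.mul (Units.isUnit _), by ring, ?_⟩
    rw [← hv, mul_assoc, Units.inv_mul, mul_one]
  · obtain ⟨u, hu⟩ := (associated_of_dvd_dvd hca hac)
    refine ⟨u, u.isUnit, by rw [← hu]; ring, ?_⟩
    have hc : c ≠ 0 := by
      rintro rfl
      exact ha (by rw [← hu, zero_mul])
    have h3 : c * b = c * (u * d) := by
      rw [← mul_assoc, hu, h]
      ring
    exact mul_left_cancel₀ hc h3

theorem fol (hJ : IsUnit (Pool.Agent.H922R2.jac F).det) (A B : PP k) (hco : IsRelPrime A B)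
    (x : KK k) (hxc : ∀ c : k, x ≠ algebraMap k (KK k) c) (hx : DK A B x = 0)
    (hφx : DK A B (phiL F hJ x) = 0) :
    ∃ κ : k, κ ≠ 0 ∧ (∀ f, dd A B (aeval F f) = C κ * aeval F (dd A B f)) ∧
      A * pderiv 1 (F 1) - B * pderiv 0 (F 1) = C κ * aeval F A ∧
      B * pderiv 0 (F 0) - A * pderiv 1 (F 0) = C κ * aeval F B := by
  set A₁ := A * pderiv 1 (F 1) - B * pderiv 0 (F 1) with hA₁
  set B₁ := B * pderiv 0 (F 0) - A * pderiv 1 (F 0) with hB₁
  have hco₁ : IsRelPrime A₁ B₁ := by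
    intro z hzA hzB
    have h1 : z ∣ A * (Pool.Agent.H922R2.jac F).det := by
      have h2 : A * (Pool.Agent.H922R2.jac F).det = A₁ * pderiv 0 (F 0) + B₁ * pderiv 0 (F 1) := by
        rw [jac_det, hA₁, hB₁]; ring
      rw [h2]
      exact dvd_add (hzA.mul_right _) (hzB.mul_right _)
    have h2 : z ∣ B * (Pool.Agent.H922R2.jac F).det := by
      have h2 : B * (Pool.Agent.H922R2.jac F).det = A₁ * pderiv 1 (F 0) + B₁ * pderiv 1 (F 1) := by
        rw [jac_det, hA₁, hB₁]; ring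
      rw [h2]
      exact dvd_add (hzA.mul_right _) (hzB.mul_right _)
    exact hco ((hJ.dvd_mul_right).1 h1) ((hJ.dvd_mul_right).1 h2)
  obtain ⟨r, hr0, hr1⟩ := exists_ratio hco x hx
  have hr : r ≠ 0 := by
    rintro rfl
    rw [zero_mul] at hr0 hr1
    obtain ⟨c, hc⟩ := const_of_dL x hr0 hr1
    exact hxc c hc
  have hch := fun j : Fin 2 => chain F (phiL F hJ) (phiL_coe F hJ) j x
  have h0 : dL 0 (phiL F hJ x) = phiL F hJ r * (ιK k (aeval F A * pderiv 0 (F 0)) +
      ιK k (aeval F B * pderiv 0 (F 1))) := by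
    rw [hch 0, Fin.sum_univ_two, hr0, hr1, map_mul, map_mul, map_mul, map_mul]
    have h3 := phiL_coe F hJ A
    have h4 := phiL_coe F hJ B
    change phiL F hJ (ιK k A) = ιK k (aeval F A) at h3
    change phiL F hJ (ιK k B) = ιK k (aeval F B) at h4
    rw [h3, h4]
    change _ * ιK k (aeval F A) * ιK k (pderiv 0 (F 0)) +
      _ * ιK k (aeval F B) * ιK k (pderiv 0 (F 1)) = _
    ring
  have h1 : dL 1 (phiL F hJ x) = phiL F hJ r * (ιK k (aeval F A * pderiv 1 (F 0)) +
      ιK k (aeval F B * pderiv 1 (F 1))) := by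
    rw [hch 1, Fin.sum_univ_two, hr0, hr1, map_mul, map_mul, map_mul, map_mul]
    have h3 := phiL_coe F hJ A
    have h4 := phiL_coe F hJ B
    change phiL F hJ (ιK k A) = ιK k (aeval F A) at h3
    change phiL F hJ (ιK k B) = ιK k (aeval F B) at h4
    rw [h3, h4]
    change _ * ιK k (aeval F A) * ιK k (pderiv 1 (F 0)) +
      _ * ιK k (aeval F B) * ιK k (pderiv 1 (F 1)) = _
    ring
  have hφr : phiL F hJ r ≠ 0 := (map_ne_zero (phiL F hJ)).2 hr
  have h2 : A₁ * aeval F B = B₁ * aeval F A := by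
    apply iR_inj (k := k) (σ := Fin 2)
    show ιK k _ = ιK k _
    apply mul_left_cancel₀ hφr
    rw [DK_apply, h0, h1] at hφx
    have h5 : phiL F hJ r * ιK k (A₁ * aeval F B) - phiL F hJ r * ιK k (B₁ * aeval F A) = 0 := by
      rw [← hφx, hA₁, hB₁]
      simp only [map_mul, map_sub]
      ring
    linear_combination h5
  obtain ⟨u, hu, hu1, hu2⟩ := assoc_pairs hco₁ (relprime_map F hJ hco) h2
  obtain ⟨κ, hκ, rfl⟩ := (isUnit_iff_C u).1 hu
  refine ⟨κ, hκ, fun f => ?_, hu1, hu2⟩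
  rw [dd_aevalF, ← hA₁, ← hB₁, hu1, hu2, dd_apply, map_sub, map_mul, map_mul]
  ring

theorem pderiv_comm01 (f : PP k) : pderiv 0 (pderiv 1 f) = pderiv 1 (pderiv 0 f) := by
  have h : (⁅pderiv (R := k) (σ := Fin 2) 0, pderiv 1⁆ : Derivation k (PP k) (PP k)) = 0 := by
    apply MvPolynomial.derivation_ext
    intro i
    rw [Derivation.commutator_apply]
    fin_cases i <;> simp [pderiv_X]
  have h2 := DFunLike.congr_fun h f
  rw [Derivation.commutator_apply] at h2
  exact sub_eq_zero.1 h2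

/-- the divergence is a semi-invariant -/
theorem div_semi (hJ : IsUnit (Pool.Agent.H922R2.jac F).det) (A B : PP k) (κ : k) (hκ : κ ≠ 0)
    (h1 : A * pderiv 1 (F 1) - B * pderiv 0 (F 1) = C κ * aeval F A)
    (h2 : B * pderiv 0 (F 0) - A * pderiv 1 (F 0) = C κ * aeval F B) :
    C κ * aeval F (pderiv 1 A - pderiv 0 B) = pderiv 1 A - pderiv 0 B := by
  obtain ⟨δ, hδ, hdet⟩ := (isUnit_iff_C _).1 hJ
  have hA : C δ * A = C κ * (aeval F A * pderiv 0 (F 0) + aeval F B * pderiv 0 (F 1)) := by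
    rw [← hdet, jac_det]
    linear_combination pderiv 0 (F 0) * h1 + pderiv 0 (F 1) * h2
  have hB : C δ * B = C κ * (aeval F A * pderiv 1 (F 0) + aeval F B * pderiv 1 (F 1)) := by
    rw [← hdet, jac_det]
    linear_combination pderiv 1 (F 0) * h1 + pderiv 1 (F 1) * h2
  have hA' := congrArg (pderiv 1) hA
  have hB' := congrArg (pderiv 0) hB
  have hcm : ∀ f : PP k, pderiv 0 (pderiv 1 f) = pderiv 1 (pderiv 0 f) := pderiv_comm01
  have hdA : ∀ (j : Fin 2) (f : PP k), pderiv j (aeval F f) =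
      aeval F (pderiv 0 f) * pderiv j (F 0) + aeval F (pderiv 1 f) * pderiv j (F 1) := by
    intro j f
    rw [Pool.Agent.H922R2.deriv_aeval, Fin.sum_univ_two]
  simp only [Derivation.leibniz, map_add, smul_eq_mul, pderiv_C, mul_zero, add_zero, hcm, hdA]
    at hA' hB'
  have h3 : C δ * (C κ * aeval F (pderiv 1 A - pderiv 0 B)) = C δ * (pderiv 1 A - pderiv 0 B) := by
    have hd : C δ = pderiv 0 (F 0) * pderiv 1 (F 1) - pderiv 1 (F 0) * pderiv 0 (F 1) := by
      rw [← hdet, jac_det]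
    rw [map_sub]
    rw [mul_sub (C δ) (pderiv 1 A), hA', hB']
    rw [hd]
    ring
  exact mul_left_cancel₀ (by simpa using hδ) h3

end

end Pool.Agent.H928R2.Pen
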