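import Pool.Agent.H928R2.Pen0
import Pool.Agent.Helper460.Gordan

set_option autoImplicit false
set_option linter.unusedSectionVars false

open Polynomial IntermediateField Pool.Agent.H928R2.Inv

namespace Pool.Agent.H928R2.Pen

namespace GenAux

section Fields

variable {k K : Type*} [Field k] [Field K] [Algebra k K]

open scoped IntermediateField.algebraAdjoinAdjoin in
theorem alg_adj (S : Set K) (x : K) :
    IsAlgebraic (Algebra.adjoin k S) x ↔ IsAlgebraic (IntermediateField.adjoin k S) x :=
  IsFractionRing.isAlgebraic_iff (Algebra.adjoin k S) (IntermediateField.adjoin k S) K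

theorem mem_cl (S : Set K) (x : K) :
    x ∈ (AlgebraicIndependent.matroid k K).closure S ↔
      IsAlgebraic (IntermediateField.adjoin k S) x := by
  rw [AlgebraicIndependent.matroid_closure_eq, ← alg_adj]
  rfl

theorem alg_bot (x : K) (h : IsAlgebraic (IntermediateField.adjoin k (∅ : Set K)) x) :
    IsAlgebraic k x := by
  rw [IntermediateField.adjoin_empty] at h
  exact h.restrictScalars k

/-- exchange -/
theorem exchange (h₁ h g : K) (h1 : IsAlgebraic (IntermediateField.adjoin k {h₁}) h)
    (h2 : Transcendental k h) (h3 : IsAlgebraic (IntermediateField.adjoin k {h₁}) g) :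
    IsAlgebraic (Algebra.adjoin k {h}) g := by
  rw [alg_adj]
  rw [← mem_cl] at h1 h3 ⊢
  have h4 : h ∉ (AlgebraicIndependent.matroid k K).closure ∅ := by
    intro h5
    rw [mem_cl] at h5
    exact h2 (alg_bot h h5)
  have e1 : insert h₁ (∅ : Set K) = {h₁} := insert_empty_eq h₁
  have e2 : insert h (∅ : Set K) = {h} := insert_empty_eq h
  rw [← e1] at h1
  have h6 := (AlgebraicIndependent.matroid k K).mem_closure_insert h4 h1
  rw [e2] at h6
  exact (AlgebraicIndependent.matroid k K).closure_subset_closure_of_subset_closure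
    (Set.singleton_subset_iff.2 h6) h3

theorem alg_const [IsAlgClosed k] (x : K) (hx : IsAlgebraic k x) : ∃ c, algebraMap k K c = x :=
  RingHom.mem_range.mp (minpoly.mem_range_of_degree_eq_one k x
    (IsAlgClosed.degree_eq_one_of_irreducible k (minpoly.irreducible hx.isIntegral)))

end Fields

section Cl

open Pool.Agent.Helper460.Flow

variable {k R : Type*} [Field k] [CommRing R] [Algebra k R]

theorem cl_dvd_left (P Q : R) (β : k) (D : ℕ) (c : k[X]) (hD : c.natDegree ≤ D) :
    (P - algebraMap k R β * Q) ∣ cl P Q D c - algebraMap k R (c.eval β) * Q ^ D := by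
  rw [eval_eq_sum_range' (Nat.lt_succ_of_le hD), map_sum, Finset.sum_mul, cl,
    ← Finset.sum_sub_distrib]
  refine Finset.dvd_sum fun j hj => ?_
  have hj' : j ≤ D := Nat.lt_succ_iff.mp (Finset.mem_range.mp hj)
  have e : algebraMap k R (c.coeff j) * P ^ j * Q ^ (D - j)
      - algebraMap k R (c.coeff j * β ^ j) * Q ^ D =
      algebraMap k R (c.coeff j) * Q ^ (D - j) * (P ^ j - (algebraMap k R β * Q) ^ j) := by
    have : Q ^ D = Q ^ j * Q ^ (D - j) := by rw [← pow_add, Nat.add_sub_cancel' hj']
    rw [this, map_mul, map_pow]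
    ring
  rw [e]
  exact Dvd.dvd.mul_left (sub_dvd_pow_sub_pow _ _ _) _

theorem cl_dvd_right (P Q : R) (D : ℕ) (c : k[X]) :
    Q ∣ cl P Q D c - algebraMap k R (c.coeff D) * P ^ D := by
  rw [cl, Finset.sum_range_succ, Nat.sub_self, pow_zero, mul_one, add_sub_cancel_right]
  refine Finset.dvd_sum fun j hj => ?_
  have hj' : j < D := Finset.mem_range.mp hj
  exact Dvd.dvd.mul_left (dvd_pow_self Q (by omega)) _

end Cl

end GenAux

open GenAux Pool.Agent.Helper460.Flow

theorem reduced_rep {k : Type*} [Field k] (r s : k[X]) (hs : s ≠ 0) :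
    ∃ g r' s' : k[X], g ≠ 0 ∧ r = g * r' ∧ s = g * s' ∧ IsCoprime r' s' := by
  classical
  have hg : GCDMonoid.gcd r s ≠ 0 := gcd_ne_zero_of_right hs
  exact ⟨GCDMonoid.gcd r s, r / GCDMonoid.gcd r s, s / GCDMonoid.gcd r s, hg,
    (EuclideanDomain.mul_div_cancel' hg (gcd_dvd_left _ _)).symm,
    (EuclideanDomain.mul_div_cancel' hg (gcd_dvd_right _ _)).symm,
    isCoprime_div_gcd_div_gcd hs⟩

section Main

variable {k : Type*} [Field k] [IsAlgClosed k] [CharZero k] {n : ℕ} {K : Type*} [Field K]
  [Algebra (MvPolynomial (Fin n) k) K] [IsFractionRing (MvPolynomial (Fin n) k) K] [Algebra k K]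
  [IsScalarTower k (MvPolynomial (Fin n) k) K]

omit [IsAlgClosed k] [CharZero k] in
theorem iC (c : k) : algebraMap (MvPolynomial (Fin n) k) K (MvPolynomial.C c) =
    algebraMap k K c := by
  rw [← MvPolynomial.algebraMap_eq, ← IsScalarTower.algebraMap_apply k (MvPolynomial (Fin n) k) K]

omit [IsAlgClosed k] [CharZero k] in
theorem iInj : Function.Injective (algebraMap (MvPolynomial (Fin n) k) K) :=
  IsFractionRing.injective (MvPolynomial (Fin n) k) K

omit [CharZero k] in
/-- an element of the field as a reduced value -/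
theorem rep (p0 y : K) (hp0 : ∀ c : k, p0 ≠ algebraMap k K c)
    (hy : y ∈ IntermediateField.adjoin k {p0}) :
    ∃ a b : k[X], IsCoprime a b ∧ aeval p0 b ≠ 0 ∧ y * aeval p0 b = aeval p0 a := by
  have ht : Transcendental k p0 := by
    intro h
    obtain ⟨c, hc⟩ := alg_const p0 h
    exact hp0 c hc.symm
  obtain ⟨r, s, hrs⟩ := (IntermediateField.mem_adjoin_simple_iff k y).1 hy
  by_cases hs : s = 0
  · refine ⟨0, 1, isCoprime_zero_left.2 isUnit_one, by simp, ?_⟩
    rw [hrs, hs]
    simp
  · obtain ⟨g, r', s', hg, hr, hs', hco⟩ := reduced_rep r s hs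
    have hg0 : aeval p0 g ≠ 0 := fun h => hg ((transcendental_iff.1 ht) g h)
    have hs0 : aeval p0 s' ≠ 0 := by
      intro h
      apply hs
      rw [hs', (transcendental_iff.1 ht) s' h, mul_zero]
    refine ⟨r', s', hco, hs0, ?_⟩
    rw [hrs, hr, hs', map_mul, map_mul]
    field_simp

omit [IsAlgClosed k] [CharZero k] in
theorem isUnit_C (f : MvPolynomial (Fin n) k) (hf : IsUnit f) :
    ∃ c : k, c ≠ 0 ∧ f = MvPolynomial.C c := by
  obtain ⟨r, hr, h⟩ := MvPolynomial.isUnit_iff_eq_C_of_isReduced.1 hf
  exact ⟨r, hr.ne_zero, h⟩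

omit [CharZero k] in
/-- the generator can be chosen to be a polynomial -/
theorem exists_poly (h₁ : MvPolynomial (Fin n) k)
    (h1bot : ∀ c : k, h₁ ≠ MvPolynomial.C c) (p0 : K)
    (h1E : algebraMap (MvPolynomial (Fin n) k) K h₁ ∈ IntermediateField.adjoin k {p0})
    (hp0c : ∀ c : k, p0 ≠ algebraMap k K c) :
    ∃ h : MvPolynomial (Fin n) k, IntermediateField.adjoin k {p0} =
      IntermediateField.adjoin k {algebraMap (MvPolynomial (Fin n) k) K h} := by
  obtain ⟨P, ⟨Q, hQ⟩, hPQ, hmk⟩ :=
    IsFractionRing.exists_reduced_fraction (MvPolynomial (Fin n) k) (K := K) p0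
  simp only at hPQ
  have hQ0 : Q ≠ 0 := nonZeroDivisors.ne_zero hQ
  have hιQ : algebraMap (MvPolynomial (Fin n) k) K Q ≠ 0 := by
    rw [Ne, map_eq_zero_iff _ iInj]
    exact hQ0
  have hp0 : p0 = algebraMap (MvPolynomial (Fin n) k) K P /
      algebraMap (MvPolynomial (Fin n) k) K Q := by
    rw [← hmk, IsFractionRing.mk'_eq_div]
  obtain ⟨a, b, hab, hb0, hy⟩ := rep p0 _ hp0c h1E
  -- the identity in the polynomial ring
  have hid : ∀ D, a.natDegree ≤ D → b.natDegree ≤ D → h₁ * cl P Q D b = cl P Q D a := by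
    intro D hDa hDb
    apply iInj (K := K)
    have e1 := map_cl (IsScalarTower.toAlgHom k (MvPolynomial (Fin n) k) K) P Q D a hDa
      (by simpa using hιQ)
    have e2 := map_cl (IsScalarTower.toAlgHom k (MvPolynomial (Fin n) k) K) P Q D b hDb
      (by simpa using hιQ)
    simp only [IsScalarTower.coe_toAlgHom'] at e1 e2
    rw [map_mul, e1, e2, ← hp0, ← hy]
    ring
  -- a common prime factor is impossible
  have hno : ∀ π : MvPolynomial (Fin n) k, Prime π → π ∣ P → π ∣ Q → False :=
    fun π hπ h1 h2 => hπ.not_isUnit (hPQ h1 h2)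
  by_cases hb : b.degree = 0
  · -- `Q` is a unit
    have hbC : b = C (b.coeff 0) := eq_C_of_degree_eq_zero hb
    have hbn : b.natDegree = 0 := by rw [hbC, natDegree_C]
    have hbc : b.coeff 0 ≠ 0 := by
      intro h
      rw [hbC, h, C_0, degree_zero] at hb
      exact absurd hb (by simp)
    set d := a.natDegree with hd
    have hd1 : d ≠ 0 := by
      intro h0
      have haC : a = C (a.coeff 0) := eq_C_of_natDegree_eq_zero (by rw [← hd, h0])
      rw [haC, hbC, aeval_C, aeval_C] at hy
      apply h1bot (a.coeff 0 / b.coeff 0)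
      apply iInj (K := K)
      rw [iC, map_div₀, eq_div_iff (by simpa using hbc)]
      exact hy
    have hQu : IsUnit Q := by
      by_contra hQu
      obtain ⟨π, hπ, hπQ⟩ := WfDvdMonoid.exists_irreducible_factor hQu hQ0
      have hπp : Prime π := hπ.prime
      have h1 := hid d le_rfl (by omega)
      have h2 : Q ∣ cl P Q d b := by
        have := cl_dvd_right P Q d b
        rwa [coeff_eq_zero_of_natDegree_lt (by omega : b.natDegree < d), map_zero, zero_mul,
          sub_zero] at this
      have h3 : Q ∣ cl P Q d a := by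
        rw [← h1]
        exact Dvd.dvd.mul_left h2 _
      have h4 : Q ∣ algebraMap k (MvPolynomial (Fin n) k) (a.coeff d) * P ^ d :=
        (dvd_sub_right h3).1 (cl_dvd_right P Q d a)
      have h5 := hπp.dvd_or_dvd (hπQ.trans h4)
      rcases h5 with h5 | h5
      · have hu : IsUnit (algebraMap k (MvPolynomial (Fin n) k) (a.coeff d)) := by
          apply IsUnit.map
          rw [isUnit_iff_ne_zero]
          intro h6
          rw [hd, coeff_natDegree, leadingCoeff_eq_zero] at h6
          rw [hd, h6, natDegree_zero] at hd1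
          exact hd1 rfl
        exact hπp.not_isUnit (isUnit_of_dvd_unit h5 hu)
      · exact hno π hπp (hπp.dvd_of_dvd_pow h5) hπQ
    obtain ⟨c, hc, hQc⟩ := isUnit_C Q hQu
    have hcK : algebraMap k K c ≠ 0 := by simpa using hc
    refine ⟨P, le_antisymm ?_ ?_⟩
    · rw [IntermediateField.adjoin_simple_le_iff, hp0, hQc, iC]
      exact div_mem (IntermediateField.mem_adjoin_simple_self k _) (_root_.algebraMap_mem _ c)
    · rw [IntermediateField.adjoin_simple_le_iff]
      have : algebraMap (MvPolynomial (Fin n) k) K P = p0 * algebraMap k K c := by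
        rw [hp0, hQc, iC]
        field_simp
      rw [this]
      exact mul_mem (IntermediateField.mem_adjoin_simple_self k _) (_root_.algebraMap_mem _ c)
  · obtain ⟨β, hβ⟩ := IsAlgClosed.exists_root b hb
    rw [IsRoot.def] at hβ
    have haβ : a.eval β ≠ 0 := by
      intro h
      obtain ⟨u, v, huv⟩ := hab
      have := congrArg (eval β) huv
      rw [eval_add, eval_mul, eval_mul, h, hβ, mul_zero, mul_zero, add_zero, eval_one] at this
      exact zero_ne_one this
    have hne : P - algebraMap k (MvPolynomial (Fin n) k) β * Q ≠ 0 := by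
      intro h
      apply hp0c β
      rw [hp0, div_eq_iff hιQ, sub_eq_zero.1 h, map_mul,
        ← IsScalarTower.algebraMap_apply k (MvPolynomial (Fin n) k) K]
    have hu : IsUnit (P - algebraMap k (MvPolynomial (Fin n) k) β * Q) := by
      by_contra hu
      obtain ⟨π, hπ, hπd⟩ := WfDvdMonoid.exists_irreducible_factor hu hne
      have hπp : Prime π := hπ.prime
      set D := max a.natDegree b.natDegree with hD
      have h1 := hid D (le_max_left _ _) (le_max_right _ _)
      have h2 : π ∣ cl P Q D b := by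
        have := cl_dvd_left P Q β D b (le_max_right _ _)
        rw [hβ, map_zero, zero_mul, sub_zero] at this
        exact hπd.trans this
      have h3 : π ∣ cl P Q D a := by
        rw [← h1]
        exact Dvd.dvd.mul_left h2 _
      have h4 : π ∣ algebraMap k (MvPolynomial (Fin n) k) (a.eval β) * Q ^ D :=
        (dvd_sub_right h3).1 (hπd.trans (cl_dvd_left P Q β D a (le_max_left _ _)))
      have h6 : π ∣ Q := by
        rcases hπp.dvd_or_dvd h4 with h5 | h5
        · have hu : IsUnit (algebraMap k (MvPolynomial (Fin n) k) (a.eval β)) := by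
            apply IsUnit.map
            rwa [isUnit_iff_ne_zero]
          exact absurd (isUnit_of_dvd_unit h5 hu) hπp.not_isUnit
        · exact hπp.dvd_of_dvd_pow h5
      have h7 : π ∣ P := (dvd_sub_left (Dvd.dvd.mul_left h6 _)).1 hπd
      exact hno π hπp h7 h6
    obtain ⟨ε, hε, hPε⟩ := isUnit_C _ hu
    have hεK : algebraMap k K ε ≠ 0 := by simpa using hε
    have hP : algebraMap (MvPolynomial (Fin n) k) K P = algebraMap k K ε +
        algebraMap k K β * algebraMap (MvPolynomial (Fin n) k) K Q := by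
      rw [← iC (n := n) ε, ← hPε, map_sub, map_mul,
        ← IsScalarTower.algebraMap_apply k (MvPolynomial (Fin n) k) K]
      ring
    have hp0' : p0 = algebraMap k K β + algebraMap k K ε /
        algebraMap (MvPolynomial (Fin n) k) K Q := by
      rw [hp0, hP]
      field_simp
      ring
    refine ⟨Q, le_antisymm ?_ ?_⟩
    · rw [IntermediateField.adjoin_simple_le_iff, hp0']
      exact add_mem (_root_.algebraMap_mem _ β) (div_mem (_root_.algebraMap_mem _ ε)
        (IntermediateField.mem_adjoin_simple_self k _))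
    · rw [IntermediateField.adjoin_simple_le_iff]
      have hne2 : p0 - algebraMap k K β ≠ 0 := sub_ne_zero.2 (hp0c β)
      have : algebraMap (MvPolynomial (Fin n) k) K Q = algebraMap k K ε /
          (p0 - algebraMap k K β) := by
        rw [eq_div_iff hne2, hp0']
        field_simp
        ring
      rw [this]
      exact div_mem (_root_.algebraMap_mem _ ε) (sub_mem (IntermediateField.mem_adjoin_simple_self k _)
        (_root_.algebraMap_mem _ β))

omit [CharZero k] in
theorem adjoin_const (c : k) : IntermediateField.adjoin k {algebraMap k K c} = ⊥ := by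
  rw [IntermediateField.adjoin_simple_eq_bot_iff]
  exact IntermediateField.mem_bot.2 ⟨c, rfl⟩

theorem poly_gen_aux (h₁ : MvPolynomial (Fin n) k) (hh : ∀ c, h₁ ≠ MvPolynomial.C c) :
    ∃ h : MvPolynomial (Fin n) k, (∀ c, h ≠ MvPolynomial.C c) ∧
      (∀ x : K, IsAlgebraic
        (IntermediateField.adjoin k {algebraMap (MvPolynomial (Fin n) k) K h₁}) x ↔
        x ∈ IntermediateField.adjoin k {algebraMap (MvPolynomial (Fin n) k) K h}) ∧
      (∀ f : MvPolynomial (Fin n) k, algebraMap (MvPolynomial (Fin n) k) K f ∈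
        IntermediateField.adjoin k {algebraMap (MvPolynomial (Fin n) k) K h} →
        ∃ γ : k[X], f = aeval h γ) := by
  set ι := algebraMap (MvPolynomial (Fin n) k) K with hι
  let E : IntermediateField k K :=
    (algebraicClosure (IntermediateField.adjoin k {ι h₁}) K).restrictScalars k
  have hEmem : ∀ x : K, x ∈ E ↔ IsAlgebraic (IntermediateField.adjoin k {ι h₁}) x := by
    intro x
    exact mem_algebraicClosure_iff
  obtain ⟨p0, hp0⟩ := gordan_luroth (F := k) (n := n) (K := K) E (by
    intro h hhE hhT g hg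
    exact exchange (ι h₁) h g ((hEmem h).1 hhE) hhT ((hEmem g).1 hg))
  have h1E : ι h₁ ∈ IntermediateField.adjoin k {p0} := by
    rw [← hp0, hEmem]
    exact isAlgebraic_algebraMap
      (⟨ι h₁, IntermediateField.mem_adjoin_simple_self k _⟩ : IntermediateField.adjoin k {ι h₁})
  have h1bot : ι h₁ ∉ (⊥ : IntermediateField k K) := by
    intro h
    obtain ⟨c, hc⟩ := IntermediateField.mem_bot.1 h
    apply hh c
    apply iInj (K := K)
    rw [iC]
    exact hc.symm
  have hp0c : ∀ c : k, p0 ≠ algebraMap k K c := by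
    rintro c rfl
    apply h1bot
    rw [← adjoin_const (K := K) c]
    exact h1E
  obtain ⟨h, hh2⟩ := exists_poly h₁ hh p0 h1E hp0c
  have hnc : ∀ c, h ≠ MvPolynomial.C c := by
    rintro c rfl
    apply h1bot
    rw [← adjoin_const (K := K) c, ← iC (n := n), ← hh2]
    exact h1E
  refine ⟨h, hnc, fun x => ?_, fun f hf => ?_⟩
  · rw [← hEmem, hp0, hh2]
  · have hc : ∀ c : k, ι h ≠ algebraMap k K c := by
      intro c hc
      apply hnc c
      apply iInj (K := K)
      rw [iC]
      exact hc
    obtain ⟨a, b, ⟨u, v, huv⟩, hb0, hy⟩ := rep (ι h) _ hc hf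
    have hmap : ∀ q : k[X], aeval (ι h) q = ι (aeval h q) := by
      intro q
      rw [hι, ← IsScalarTower.toAlgHom_apply k (MvPolynomial (Fin n) k) K,
        ← IsScalarTower.toAlgHom_apply k (MvPolynomial (Fin n) k) K, aeval_algHom_apply]
    have hy2 : f * aeval h b = aeval h a := by
      apply iInj (K := K)
      rw [map_mul, ← hι, ← hmap, ← hmap]
      exact hy
    have hone : aeval h u * aeval h a + aeval h v * aeval h b = 1 := by
      rw [← map_mul, ← map_mul, ← map_add, huv, map_one]
    have hunit : IsUnit (aeval h b) := by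
      refine IsUnit.of_mul_eq_one (aeval h u * f + aeval h v) ?_
      rw [← hone, ← hy2]
      ring
    obtain ⟨c, hc0, hbc⟩ := isUnit_C _ hunit
    refine ⟨C c⁻¹ * a, ?_⟩
    rw [map_mul, aeval_C, ← hy2, hbc, MvPolynomial.algebraMap_eq]
    have : (MvPolynomial.C c⁻¹ * (f * MvPolynomial.C c) : MvPolynomial (Fin n) k) =
        f * (MvPolynomial.C (c⁻¹ * c)) := by
      rw [MvPolynomial.C_mul]
      ring
    rw [this, inv_mul_cancel₀ hc0, MvPolynomial.C_1, mul_one]

end Main

theorem poly_gen {k : Type*} [Field k] [IsAlgClosed k] [CharZero k]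
    (h₁ : MvPolynomial (Fin 2) k) (hh : ∀ c, h₁ ≠ MvPolynomial.C c) :
    ∃ h : MvPolynomial (Fin 2) k, (∀ c, h ≠ MvPolynomial.C c) ∧
      (∀ x : RF k (Fin 2), IsAlgebraic
        (IntermediateField.adjoin k {algebraMap (MvPolynomial (Fin 2) k) (RF k (Fin 2)) h₁}) x ↔
        x ∈ IntermediateField.adjoin k {algebraMap (MvPolynomial (Fin 2) k) (RF k (Fin 2)) h}) ∧
      (∀ f : MvPolynomial (Fin 2) k, algebraMap (MvPolynomial (Fin 2) k) (RF k (Fin 2)) f ∈
        IntermediateField.adjoin k {algebraMap (MvPolynomial (Fin 2) k) (RF k (Fin 2)) h} →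
        ∃ γ : k[X], f = aeval h γ) :=
  poly_gen_aux h₁ hh

end Pool.Agent.H928R2.Pen
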