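import Pool.Agent.H928R2.PenFol
import Pool.Agent.H928R2.PenGen

/-!
# The kernel of a primitive derivation
-/

set_option autoImplicit false
set_option linter.unusedSectionVars false

open MvPolynomial Pool.Agent.H928R2.Inv

namespace Pool.Agent.H928R2.Pen

section
variable {k : Type*} [Field k] [CharZero k]

/-- the Jacobian criterion -/
theorem jacK_ne (g : Fin 2 → KK k) (hg : AlgebraicIndependent k g) :
    (Matrix.of fun i j => dL j (g i)).det ≠ 0 := by
  intro h1
  have h2 := isTB _ hg
  have h3 := h2.isAlgebraic_field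
  obtain ⟨v, hv0, hv⟩ := Matrix.exists_mulVec_eq_zero_iff.2 h1
  let δ : Derivation k (KK k) (KK k) := ∑ j, v j • dL j
  have hδ : ∀ f, δ f = ∑ j, v j * dL j f := by
    intro f
    have h8 := congrFun (map_sum (Derivation.coeFnAddMonoidHom :
      Derivation k (KK k) (KK k) →+ (KK k → KK k)) (fun j => v j • dL j) Finset.univ) f
    rw [Finset.sum_apply] at h8
    exact h8
  have h4 : ∀ i, δ (g i) = 0 := by
    intro i
    rw [hδ]
    have := congrFun hv i
    rw [Matrix.mulVec, dotProduct, Pi.zero_apply] at this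
    rw [← this]
    refine Finset.sum_congr rfl fun j _ => ?_
    rw [Matrix.of_apply, mul_comm]
  have h5 : ∀ a ∈ IntermediateField.adjoin k (Set.range g), δ a = 0 := by
    intro a ha
    induction ha using IntermediateField.adjoin_induction with
    | mem x hx =>
      obtain ⟨i, rfl⟩ := hx
      exact h4 i
    | algebraMap x => exact δ.map_algebraMap x
    | add x y _ _ hx hy => rw [map_add, hx, hy, add_zero]
    | inv x _ hx => rw [Derivation.leibniz_inv, hx, smul_zero]
    | mul x y _ _ hx hy => rw [Derivation.leibniz, hx, hy, smul_zero, smul_zero, add_zero]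
  let δ' : Derivation (IntermediateField.adjoin k (Set.range g)) (KK k) (KK k) :=
    { toFun := δ
      map_add' := map_add δ
      map_smul' := by
        intro a y
        show δ ((a : KK k) * y) = (a : KK k) * δ y
        rw [Derivation.leibniz, h5 a a.2, smul_zero, add_zero, smul_eq_mul]
      map_one_eq_zero' := δ.map_one_eq_zero
      leibniz' := δ.leibniz }
  have h6 : ∀ y, δ y = 0 := by
    intro y
    show δ' y = 0
    have hy : IsAlgebraic (IntermediateField.adjoin k (Set.range g)) y := h3.isAlgebraic y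
    have hsep : (minpoly (IntermediateField.adjoin k (Set.range g)) y).Separable :=
      (minpoly.irreducible hy.isIntegral).separable
    have h1 := congrArg δ' (minpoly.aeval (IntermediateField.adjoin k (Set.range g)) y)
    rw [Derivation.map_aeval, map_zero, smul_eq_mul] at h1
    rcases mul_eq_zero.1 h1 with h2 | h2
    · exact absurd h2 (hsep.aeval_derivative_ne_zero (minpoly.aeval _ _))
    · exact h2
  apply hv0
  funext j
  have h7 := h6 (algebraMap (PP k) (KK k) (X j))
  rw [hδ] at h7
  rw [Finset.sum_eq_single j] at h7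
  · rw [dL_coe, pderiv_X_self, map_one, mul_one] at h7
    exact h7
  · intro l _ hl
    rw [dL_coe, pderiv_X_of_ne hl.symm, map_zero, mul_zero]
  · simp

theorem hset (y : KK k) : (fun _ : Fin 2 => y) '' {1}ᶜ = {y} := by
  ext z
  constructor
  · rintro ⟨i, _, rfl⟩
    rfl
  · rintro rfl
    exact ⟨0, by simp, rfl⟩

theorem hind {y : KK k} (hy : Transcendental k y) :
    AlgebraicIndependent k (fun j : {j : Fin 2 // j ≠ 1} => (fun _ : Fin 2 => y) j) := by
  have : Unique {j : Fin 2 // j ≠ 1} :=
    { default := ⟨0, by decide⟩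
      uniq := by
        rintro ⟨j, hj⟩
        apply Subtype.ext
        show j = 0
        fin_cases j
        · rfl
        · exact absurd rfl hj }
  exact (algebraicIndependent_unique_type_iff).2 hy

theorem tr1 {y : KK k} (hy : Transcendental k y) :
    Tr1 (IntermediateField.adjoin k {y}) (KK k) := by
  have h := alg_of 1 (fun _ => y) (hind hy)
  rw [hset] at h
  exact h

theorem hfin {y : KK k} (hy : Transcendental k y) (x : KK k)
    (hx : Transcendental (IntermediateField.adjoin k {y}) x) :
    FiniteDimensional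
      (IntermediateField.adjoin (IntermediateField.adjoin k {y}) {x}) (KK k) := by
  have h := Hfin 1 (fun _ => y) (hind hy)
  rw [hset] at h
  exact h x hx

theorem exists_tr {y : KK k} (hy : Transcendental k y) :
    ∃ i : Fin 2, Transcendental (IntermediateField.adjoin k {y}) (ιK k (X i)) := by
  have h := exists_transc 1 (fun _ => y) (hind hy)
  rw [hset] at h
  exact h

theorem indep_pair {y x : KK k} (hy : Transcendental k y)
    (hx : Transcendental (IntermediateField.adjoin k {y}) x) :
    AlgebraicIndependent k (![y, x] : Fin 2 → KK k) := by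
  have h := indep_update 1 (fun _ => y) (hind hy) x
    (transc_down _ x (by rw [hset]; exact hx))
  convert h using 1
  funext i
  fin_cases i
  · simp
  · simp

theorem transcK_of_nonconst (x : KK k) (hx : ∀ c : k, x ≠ algebraMap k (KK k) c) :
    Transcendental k x := by
  intro halg
  have hsep : (minpoly k x).Separable := (minpoly.irreducible halg.isIntegral).separable
  have h2 : Polynomial.aeval x (Polynomial.derivative (minpoly k x)) ≠ 0 :=
    hsep.aeval_derivative_ne_zero (minpoly.aeval _ _)
  have h1 : ∀ i : Fin 2, dL i x = 0 := by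
    intro i
    have h3 := congrArg (dL i) (minpoly.aeval k x)
    rw [Derivation.map_aeval, map_zero, smul_eq_mul] at h3
    exact (mul_eq_zero.1 h3).resolve_left h2
  obtain ⟨c, h4⟩ := const_of_dL x (h1 0) (h1 1)
  exact hx c h4

theorem DK_adjoin {A B : PP k} {y : KK k} (hDy : DK A B y = 0) (a : KK k)
    (ha : a ∈ IntermediateField.adjoin k {y}) : DK A B a = 0 := by
  induction ha using IntermediateField.adjoin_induction with
  | mem x hx =>
    rw [Set.mem_singleton_iff] at hx
    rw [hx]
    exact hDy
  | algebraMap x => exact (DK A B).map_algebraMap x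
  | add x y _ _ hx hy => rw [map_add, hx, hy, add_zero]
  | inv x _ hx => rw [Derivation.leibniz_inv, hx, smul_zero]
  | mul x y _ _ hx hy => rw [Derivation.leibniz, hx, hy, smul_zero, smul_zero, add_zero]

/-- the derivation over `k(y)` -/
noncomputable def DE (A B : PP k) (y : KK k) (hDy : DK A B y = 0) :
    Derivation (IntermediateField.adjoin k {y}) (KK k) (KK k) where
  toFun := DK A B
  map_add' := map_add (DK A B)
  map_smul' := by
    intro a z
    show DK A B ((a : KK k) * z) = (a : KK k) * DK A B z
    rw [Derivation.leibniz, DK_adjoin hDy a a.2, smul_zero, add_zero, smul_eq_mul]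
  map_one_eq_zero' := (DK A B).map_one_eq_zero
  leibniz' := (DK A B).leibniz

theorem DE_apply (A B : PP k) (y : KK k) (hDy : DK A B y = 0) (f : KK k) :
    DE A B y hDy f = DK A B f := rfl

theorem alg_of_DK {A B : PP k} (hco : IsRelPrime A B) {y : KK k} (hy : Transcendental k y)
    (hDy : DK A B y = 0) (x : KK k) (hx : DK A B x = 0) :
    IsAlgebraic (IntermediateField.adjoin k {y}) x := by
  by_contra hcon
  have h1 := indep_pair hy hcon
  have h2 := jacK_ne _ h1
  apply h2
  rw [Matrix.det_fin_two]
  show dL 0 y * dL 1 x - dL 1 y * dL 0 x = 0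
  rw [DK_apply, sub_eq_zero] at hDy hx
  rcases relprime_ne hco with h3 | h3
  · apply mul_left_cancel₀ (ι_ne h3)
    linear_combination dL 0 y * hx - dL 0 x * hDy
  · apply mul_left_cancel₀ (ι_ne h3)
    linear_combination dL 1 y * hx - dL 1 x * hDy

theorem DK_of_alg {A B : PP k} {y : KK k} (hDy : DK A B y = 0) (x : KK k)
    (hx : IsAlgebraic (IntermediateField.adjoin k {y}) x) : DK A B x = 0 := by
  have hsep : (minpoly (IntermediateField.adjoin k {y}) x).Separable :=
    (minpoly.irreducible hx.isIntegral).separable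
  have h1 := congrArg (DE A B y hDy) (minpoly.aeval (IntermediateField.adjoin k {y}) x)
  rw [Derivation.map_aeval, map_zero, smul_eq_mul] at h1
  rcases mul_eq_zero.1 h1 with h2 | h2
  · exact absurd h2 (hsep.aeval_derivative_ne_zero (minpoly.aeval _ _))
  · exact h2

theorem DE_ne_zero {A B : PP k} (hco : IsRelPrime A B) (y : KK k) (hDy : DK A B y = 0) :
    DE A B y hDy ≠ 0 := by
  intro h0
  have h1 : ∀ f : PP k, dd A B f = 0 := by
    intro f
    rw [← DK_zero_iff, ← DE_apply A B y hDy, h0]
    rfl
  have h2 := h1 (X 0)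
  have h3 := h1 (X 1)
  rw [dd_X0, neg_eq_zero] at h2
  rw [dd_X1] at h3
  rcases relprime_ne hco with h | h
  · exact h h3
  · exact h h2

theorem ne_C_iff (h : PP k) : (∀ c, h ≠ C c) ↔ ∀ c : k, ιK k h ≠ algebraMap k (KK k) c := by
  constructor
  · intro hc c hcon
    apply hc c
    apply iR_inj (k := k) (σ := Fin 2)
    exact hcon
  · intro hc c hcon
    exact hc c (congrArg (ιK k) hcon)

theorem exists_Fib [IsAlgClosed k] {A B : PP k} (hco : IsRelPrime A B) (h₁ : PP k)
    (hc : ∀ c, h₁ ≠ C c) (hD : dd A B h₁ = 0) : ∃ h, Fib A B h := by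
  obtain ⟨h, h1, h2, h3⟩ := poly_gen h₁ hc
  have hy : Transcendental k (ιK k h₁) := transcK_of_nonconst _ ((ne_C_iff h₁).1 hc)
  have hDy : DK A B (ιK k h₁) = 0 := (DK_zero_iff h₁).2 hD
  have key : ∀ x : KK k, DK A B x = 0 ↔ x ∈ IntermediateField.adjoin k {ιK k h} := by
    intro x
    have h4 : DK A B x = 0 ↔ IsAlgebraic (IntermediateField.adjoin k {ιK k h₁}) x :=
      ⟨fun hx => alg_of_DK hco hy hDy x hx, fun hx => DK_of_alg hDy x hx⟩
    exact h4.trans (h2 x)
  refine ⟨h, hco, ?_, h1, ?_, key⟩
  · rw [← DK_zero_iff, key]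
    exact IntermediateField.mem_adjoin_simple_self k _
  · intro f hf
    apply h3
    have h4 := (DK_zero_iff f).2 hf
    rw [key] at h4
    exact h4

theorem Fib.DKh {A B h : PP k} (H : Fib A B h) : DK A B (ιK k h) = 0 :=
  (DK_zero_iff h).2 H.Dh

theorem Fib.transcK {A B h : PP k} (H : Fib A B h) : Transcendental k (ιK k h) :=
  transcK_of_nonconst _ ((ne_C_iff h).1 H.hc)

theorem Fib.algCl {A B h : PP k} (H : Fib A B h) :
    AlgCl (IntermediateField.adjoin k {ιK k h}) (KK k) := by
  intro x hx
  have h1 := DK_of_alg H.DKh x hx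
  rw [H.kerK] at h1
  exact ⟨⟨x, h1⟩, rfl⟩

/-- a polynomial in `h` whose image in `KK` -/
theorem iota_aeval (h : PP k) (γ : Polynomial k) :
    ιK k (Polynomial.aeval h γ) = Polynomial.aeval (ιK k h) γ := by
  rw [Polynomial.aeval_algHom_apply]

end

section
variable {k : Type*} [Field k] [CharZero k] (F : Fin 2 → PP k)

theorem phiL_ι (hJ : IsUnit (Pool.Agent.H922R2.jac F).det) (p : PP k) :
    phiL F hJ (ιK k p) = ιK k (aeval F p) := phiL_coe F hJ p

/-- extension of the commutation rule to rational functions -/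
theorem commK (hJ : IsUnit (Pool.Agent.H922R2.jac F).det) (A B : PP k) (κ : k)
    (hcomm : ∀ f, dd A B (aeval F f) = C κ * aeval F (dd A B f)) (x : KK k) :
    DK A B (phiL F hJ x) = algebraMap k (KK k) κ * phiL F hJ (DK A B x) := by
  have h0 : ∀ f : PP k, DK A B (phiL F hJ (ιK k f)) =
      algebraMap k (KK k) κ * phiL F hJ (DK A B (ιK k f)) := by
    intro f
    rw [phiL_ι, DK_coe, hcomm, DK_coe, phiL_ι, map_mul]
    rfl
  obtain ⟨P, Q, -, hQ, rfl⟩ := exists_reduced x
  have h1 : (ιK k P / ιK k Q) * ιK k Q = ιK k P := div_mul_cancel₀ _ (ι_ne hQ)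
  have h2 := h0 P
  rw [← h1, map_mul, Derivation.leibniz, h0 Q, Derivation.leibniz, map_add] at h2
  simp only [smul_eq_mul, map_mul] at h2
  have h3 : phiL F hJ (ιK k Q) ≠ 0 := (map_ne_zero (phiL F hJ)).2 (ι_ne hQ)
  apply mul_left_cancel₀ h3
  linear_combination h2

end

end Pool.Agent.H928R2.Pen
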