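import Pool.Agent.H928R2.PenDer

/-!
# The polynomial Poincaré lemma in two variables
-/

set_option autoImplicit false

open MvPolynomial Pool.Agent.H928R2.Inv

namespace Pool.Agent.H928R2.Pen

section
variable {k : Type*} [Field k]

/-- integration with respect to the variable `i` -/
noncomputable def intg (k : Type*) [Field k] (i : Fin 2) : PP k →ₗ[k] PP k :=
  (basisMonomials (Fin 2) k).constr k
    (fun m => monomial (m + Finsupp.single i 1) (1 / ((m i : k) + 1)))

theorem intg_monomial (i : Fin 2) (m : Fin 2 →₀ ℕ) (c : k) :
    intg k i (monomial m c) = monomial (m + Finsupp.single i 1) (c / ((m i : k) + 1)) := by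
  have h : (monomial m c : PP k) = c • basisMonomials (Fin 2) k m := by
    rw [coe_basisMonomials, smul_monomial, smul_eq_mul, mul_one]
  rw [h, map_smul, intg, Module.Basis.constr_basis, smul_monomial, smul_eq_mul, mul_one_div]

theorem pderiv_intg [CharZero k] (i : Fin 2) (p : PP k) : pderiv i (intg k i p) = p := by
  induction p using MvPolynomial.induction_on' with
  | monomial m c =>
    rw [intg_monomial, pderiv_monomial]
    have h : ((m i : k) + 1) ≠ 0 := by exact_mod_cast Nat.succ_ne_zero (m i)
    congr 1
    · rw [add_tsub_cancel_right]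
    · rw [Finsupp.add_apply, Finsupp.single_eq_same]
      push_cast
      field_simp
  | add p q hp hq => rw [map_add, map_add, hp, hq]

theorem pderiv_intg_of_ne {i j : Fin 2} (hij : i ≠ j) (p : PP k) :
    pderiv j (intg k i p) = intg k i (pderiv j p) := by
  induction p using MvPolynomial.induction_on' with
  | monomial m c =>
    rw [intg_monomial, pderiv_monomial, pderiv_monomial, intg_monomial]
    by_cases hm : m j = 0
    · have h1 : (m + Finsupp.single i 1 : Fin 2 →₀ ℕ) j = 0 := by
        rw [Finsupp.add_apply, Finsupp.single_eq_of_ne (Ne.symm hij), hm, add_zero]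
      rw [h1, hm, Nat.cast_zero, mul_zero, mul_zero, zero_div, map_zero, map_zero]
    · have hexp : m + Finsupp.single i 1 - Finsupp.single j 1 =
          m - Finsupp.single j 1 + Finsupp.single i 1 := by
        refine Finsupp.ext fun l => ?_
        rw [Finsupp.tsub_apply, Finsupp.add_apply, Finsupp.add_apply, Finsupp.tsub_apply]
        by_cases hl : l = j
        · subst hl
          rw [Finsupp.single_eq_same, Finsupp.single_eq_of_ne (Ne.symm hij)]
          omega
        · rw [Finsupp.single_eq_of_ne hl]
          omega
      rw [hexp]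
      congr 1
      · rw [Finsupp.tsub_apply, Finsupp.add_apply, Finsupp.single_eq_of_ne (Ne.symm hij),
          Finsupp.single_eq_of_ne hij]
        rw [add_zero, tsub_zero]
        ring
  | add p q hp hq => rw [map_add, map_add, map_add, map_add, hp, hq]

theorem poincare {k : Type*} [Field k] [CharZero k] (A B : PP k)
    (h : pderiv 1 A = pderiv 0 B) : ∃ f : PP k, pderiv 0 f = A ∧ pderiv 1 f = B := by
  refine ⟨intg k 0 A + intg k 1 (B - pderiv 1 (intg k 0 A)), ?_, ?_⟩
  · rw [map_add, pderiv_intg, pderiv_intg_of_ne (by decide), map_sub,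
      pderiv_intg_of_ne (by decide), pderiv_intg, h, sub_self, map_zero, add_zero]
  · rw [map_add, pderiv_intg]
    ring

end

end Pool.Agent.H928R2.Pen
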