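import Pool.Agent.H928R2.PenDer

set_option autoImplicit false

open MvPolynomial Pool.Agent.H928R2.Inv

namespace Pool.Agent.H928R2.Pen

theorem dd_totalDegree_le {k : Type*} [Field k] [CharZero k] (A B u : PP k) :
    (dd A B u).totalDegree ≤ max A.totalDegree B.totalDegree + u.totalDegree := by
  have hp : ∀ j : Fin 2, (pderiv j u).totalDegree ≤ u.totalDegree := by
    intro j
    by_cases h : pderiv j u = 0
    · rw [h, totalDegree_zero]
      exact Nat.zero_le _
    · exact (Pool.Agent.H922R2.totalDegree_pderiv_lt u j h).le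
  rw [dd_apply]
  refine (totalDegree_sub _ _).trans (max_le ?_ ?_)
  · refine (totalDegree_mul _ _).trans ?_
    exact add_le_add (le_max_left _ _) (hp 1)
  · refine (totalDegree_mul _ _).trans ?_
    exact add_le_add (le_max_right _ _) (hp 0)

theorem cofactor_degree {k : Type*} [Field k] [CharZero k] (A B u l : PP k) (hu : u ≠ 0)
    (hul : dd A B u = l * u) : l.totalDegree ≤ max A.totalDegree B.totalDegree := by
  by_cases hl : l = 0
  · rw [hl, totalDegree_zero]
    exact Nat.zero_le _
  · have h1 := dd_totalDegree_le A B u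
    rw [hul, totalDegree_mul_of_isDomain hl hu] at h1
    omega

theorem semi_inv {k : Type*} [Field k] [IsAlgClosed k] [CharZero k] (F : Fin 2 → PP k)
    (hF : Function.Injective (aeval F : PP k →ₐ[k] PP k)) (A B : PP k) (κ : k) (hκ : κ ≠ 0)
    (hcomm : ∀ f, dd A B (aeval F f) = C κ * aeval F (dd A B f)) (u l : PP k) (hu : u ≠ 0)
    (hul : dd A B u = l * u) (hl : ∀ c, l ≠ C c) :
    ∃ (s : PP k) (α β : k), (∀ c, s ≠ C c) ∧ α ≠ 0 ∧ aeval F s = C α * s + C β := by
  set Λ : Set (PP k) := {l | ∃ u : PP k, u ≠ 0 ∧ dd A B u = l * u} with hΛ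
  set M : Submodule k (PP k) := Submodule.span k (Λ ∪ {1}) with hM
  have hlM : l ∈ M := Submodule.subset_span (Or.inl ⟨u, hu, hul⟩)
  have h1M : (1 : PP k) ∈ M := Submodule.subset_span (Or.inr rfl)
  -- finite dimension
  have hfin : M ≤ restrictTotalDegree (Fin 2) k (max A.totalDegree B.totalDegree) := by
    rw [hM, Submodule.span_le]
    rintro x (⟨v, hv, hx⟩ | hx)
    · rw [SetLike.mem_coe, mem_restrictTotalDegree]
      exact cofactor_degree A B v x hv hx
    · rw [Set.mem_singleton_iff] at hx
      rw [hx, SetLike.mem_coe, mem_restrictTotalDegree, totalDegree_one]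
      exact Nat.zero_le _
  have hMfin : FiniteDimensional k M :=
    Submodule.finiteDimensional_of_le hfin
  -- stability
  have hstab : ∀ x ∈ M, (aeval F x : PP k) ∈ M := by
    intro x hx
    induction hx using Submodule.span_induction with
    | mem x hx =>
      rcases hx with ⟨v, hv, hx⟩ | hx
      · have h1 : C κ * aeval F x ∈ Λ := by
          refine ⟨aeval F v, ?_, ?_⟩
          · intro h
            apply hv
            apply hF
            rw [h, map_zero]
          · rw [hcomm, hx, map_mul]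
            ring
        have h2 : (aeval F x : PP k) = κ⁻¹ • (C κ * aeval F x) := by
          rw [← smul_eq_C_mul, smul_smul, inv_mul_cancel₀ hκ, one_smul]
        rw [h2]
        exact M.smul_mem _ (Submodule.subset_span (Or.inl h1))
      · rw [Set.mem_singleton_iff] at hx
        rw [hx, map_one]
        exact h1M
    | zero => rw [map_zero]; exact M.zero_mem
    | add x y _ _ hx hy => rw [map_add]; exact M.add_mem hx hy
    | smul c x _ hx => rw [map_smul]; exact M.smul_mem _ hx
  let φ : M →ₗ[k] M := ((aeval F : PP k →ₐ[k] PP k).toLinearMap).restrict hstab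
  have hφ : ∀ x : M, ((φ x : M) : PP k) = aeval F (x : PP k) := fun x => rfl
  let p : Submodule k M := Submodule.span k {(⟨1, h1M⟩ : M)}
  have hp : p ≤ p.comap φ := by
    rw [Submodule.span_le]
    rintro x hx
    rw [Set.mem_singleton_iff] at hx
    subst hx
    rw [SetLike.mem_coe, Submodule.mem_comap]
    have : φ ⟨1, h1M⟩ = ⟨1, h1M⟩ := by
      apply Subtype.ext
      rw [hφ]
      simp
    rw [this]
    exact Submodule.subset_span rfl
  have hmem : ∀ x : M, x ∈ p ↔ ∃ c : k, (x : PP k) = C c := by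
    intro x
    rw [Submodule.mem_span_singleton]
    constructor
    · rintro ⟨c, rfl⟩
      exact ⟨c, by simp [smul_eq_C_mul]⟩
    · rintro ⟨c, hc⟩
      refine ⟨c, ?_⟩
      apply Subtype.ext
      rw [hc]
      simp [smul_eq_C_mul]
  have hnt : Nontrivial (M ⧸ p) := by
    rw [Submodule.Quotient.nontrivial_iff]
    intro h
    have : (⟨l, hlM⟩ : M) ∈ p := by rw [h]; trivial
    obtain ⟨c, hc⟩ := (hmem _).1 this
    exact hl c hc
  obtain ⟨α, hα⟩ := Module.End.exists_eigenvalue (p.mapQ p φ hp : Module.End k (M ⧸ p))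
  obtain ⟨v, hv⟩ := hα.exists_hasEigenvector
  obtain ⟨s, rfl⟩ := p.mkQ_surjective v
  have h3 : (p.mapQ p φ hp) (p.mkQ s) = α • p.mkQ s := hv.apply_eq_smul
  have hs0 : ∀ c, (s : PP k) ≠ C c := by
    intro c hc
    apply hv.2
    rw [Submodule.mkQ_apply, Submodule.Quotient.mk_eq_zero]
    exact (hmem s).2 ⟨c, hc⟩
  have h4 : φ s - α • s ∈ p := by
    rw [← Submodule.Quotient.mk_eq_zero, Submodule.Quotient.mk_sub, Submodule.Quotient.mk_smul]
    rw [Submodule.mkQ_apply, Submodule.mapQ_apply] at h3
    exact sub_eq_zero.2 h3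
  obtain ⟨β, hβ⟩ := (hmem _).1 h4
  have h5 : (aeval F (s : PP k) : PP k) = C α * (s : PP k) + C β := by
    have h6 : ((φ s - α • s : M) : PP k) = aeval F (s : PP k) - α • (s : PP k) := rfl
    rw [h6, smul_eq_C_mul] at hβ
    rw [← hβ]
    ring
  refine ⟨s, α, β, hs0, ?_, h5⟩
  rintro rfl
  apply hs0 β
  apply hF
  rw [h5]
  simp

end Pool.Agent.H928R2.Pen
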