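import Pool.Agent.H928R2.PenCase1
import Pool.Agent.H928R2.PenCase2
import Pool.Agent.H928R2.PenCase3
import Pool.Agent.H928R2.PenDeg2
import Pool.Agent.H928R2.PenSemiInv
import Pool.Agent.H928R2.PenPoinc
import Pool.Agent.H928R2.PenEig
import Pool.Agent.H928R2.PenBase

/-!
# Plane Keller maps preserving a pencil of curves
-/

set_option autoImplicit false
set_option linter.unusedSectionVars false

open MvPolynomial Pool.Agent.H928R2.Inv

namespace Pool.Agent.H928R2.Pen

section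
variable {k : Type*} [Field k] [IsAlgClosed k] [CharZero k] (F : Fin 2 → PP k)

theorem aevalF_C (c : k) : aeval F (C c : PP k) = C c := by
  rw [aeval_C]; rfl

theorem aevalF_nonconst (hJ : IsUnit (Pool.Agent.H922R2.jac F).det) (h : PP k)
    (hc : ∀ c, h ≠ C c) : ∀ c, aeval F h ≠ C c := by
  intro c hcon
  apply hc c
  apply Pool.Agent.H922R2.aeval_injective F hJ
  rw [hcon, aevalF_C]

theorem exists_gamma (hJ : IsUnit (Pool.Agent.H922R2.jac F).det) {A B h : PP k}
    (H : Fib A B h) (κ : k)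
    (hcomm : ∀ f, dd A B (aeval F f) = C κ * aeval F (dd A B f)) :
    ∃ γ : Polynomial k, aeval F h = Polynomial.aeval h γ ∧ 1 ≤ γ.natDegree := by
  have h1 : dd A B (aeval F h) = 0 := by rw [hcomm, H.Dh, map_zero, mul_zero]
  obtain ⟨γ, hγ⟩ := H.ker _ h1
  refine ⟨γ, hγ, ?_⟩
  by_contra hcon
  have h2 : γ.natDegree = 0 := by omega
  obtain ⟨c, rfl⟩ := Polynomial.natDegree_eq_zero.1 h2
  apply aevalF_nonconst F hJ h H.hc c
  rw [hγ, Polynomial.aeval_C]
  rfl

theorem linear_of_natDegree_one {h : PP k} (γ : Polynomial k) (hd : γ.natDegree = 1) :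
    ∃ α β : k, α ≠ 0 ∧ Polynomial.aeval h γ = C α * h + C β := by
  refine ⟨γ.coeff 1, γ.coeff 0, ?_, ?_⟩
  · intro h0
    have : γ.leadingCoeff = 0 := by rw [Polynomial.leadingCoeff, hd, h0]
    rw [Polynomial.leadingCoeff_eq_zero] at this
    rw [this] at hd
    simp at hd
  · conv_lhs => rw [Polynomial.eq_X_add_C_of_natDegree_le_one hd.le]
    simp only [map_add, map_mul, Polynomial.aeval_C, Polynomial.aeval_X]
    rfl

/-- the linear case -/
theorem surj_linear (hJ : IsUnit (Pool.Agent.H922R2.jac F).det) (A B h : PP k) (H : Fib A B h)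
    (κ : k) (hκ : κ ≠ 0) (hcomm : ∀ f, dd A B (aeval F f) = C κ * aeval F (dd A B f))
    (α β : k) (hα : α ≠ 0) (hh : aeval F h = C α * h + C β) :
    Function.Surjective (phiL F hJ) := by
  by_cases hcof : ∀ u l : PP k, u ≠ 0 → dd A B u = l * u → dd A B l = 0
  · by_cases hb : ∀ b, Prime (h - C b)
    · exact surj_case3 F hJ A B h H κ hκ hcomm α β hα hh hb
    · push Not at hb
      obtain ⟨b, hb⟩ := hb
      exact surj_case2 F hJ A B h H κ hκ hcomm α β hα hh hcof b hb
  · push Not at hcof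
    obtain ⟨u, l, hu, hul, hl⟩ := hcof
    exact surj_case1 F hJ A B h H κ hκ hcomm α β hα hh u l hu hul hl

/-- a Keller map with a semi-invariant polynomial is birational -/
theorem p1 (hJ : IsUnit (Pool.Agent.H922R2.jac F).det) (h₁ : PP k) (hc : ∀ c, h₁ ≠ C c)
    (α β : k) (hα : α ≠ 0) (hh : aeval F h₁ = C α * h₁ + C β) :
    Function.Surjective (phiL F hJ) := by
  obtain ⟨A, B, hco, hD⟩ := exists_prim (ιK k h₁)
  have hD1 : dd A B h₁ = 0 := (DK_zero_iff h₁).1 hD
  obtain ⟨h, H⟩ := exists_Fib hco h₁ hc hD1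
  obtain ⟨κ, hκ, hcomm, -, -⟩ := fol F hJ A B hco (ιK k h₁) ((ne_C_iff h₁).1 hc) hD (by
    rw [phiL_ι, DK_zero_iff, hh, map_add, Derivation.leibniz, hD1, smul_zero, zero_add]
    have h1 : ∀ c : k, dd A B (C c) = 0 := fun c => (dd A B).map_algebraMap c
    rw [h1, h1, smul_zero, zero_add])
  obtain ⟨δ, hδ⟩ := H.ker h₁ hD1
  obtain ⟨γ, hγ, hγd⟩ := exists_gamma F hJ H κ hcomm
  have hcomp : δ.comp γ = Polynomial.C α * δ + Polynomial.C β := by
    apply aeval_inj H.hc
    show Polynomial.aeval h (δ.comp γ) = Polynomial.aeval h (Polynomial.C α * δ + Polynomial.C β)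
    rw [Polynomial.aeval_comp, ← hγ, map_add, map_mul, Polynomial.aeval_C, Polynomial.aeval_C,
      ← hδ]
    change _ = C α * h₁ + C β
    rw [← hh, hδ]
    rw [Polynomial.aeval_algHom_apply]
  have hδd : 1 ≤ δ.natDegree := by
    by_contra hcon
    have h2 : δ.natDegree = 0 := by omega
    obtain ⟨c, rfl⟩ := Polynomial.natDegree_eq_zero.1 h2
    apply hc c
    rw [hδ, Polynomial.aeval_C]
    rfl
  have hdeg := congrArg Polynomial.natDegree hcomp
  rw [Polynomial.natDegree_comp, Polynomial.natDegree_add_C, Polynomial.natDegree_C_mul hα]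
    at hdeg
  have h1 : γ.natDegree = 1 := by
    have h3 : δ.natDegree * γ.natDegree = δ.natDegree * 1 := by rw [hdeg, mul_one]
    exact Nat.eq_of_mul_eq_mul_left (by omega) h3
  obtain ⟨α', β', hα', hh'⟩ := linear_of_natDegree_one (h := h) γ h1
  exact surj_linear F hJ A B h H κ hκ hcomm α' β' hα' (hγ.trans hh')

/-- the case of a fibration -/
theorem caseA (hJ : IsUnit (Pool.Agent.H922R2.jac F).det) (A B h : PP k) (H : Fib A B h)
    (κ : k) (hκ : κ ≠ 0) (hcomm : ∀ f, dd A B (aeval F f) = C κ * aeval F (dd A B f)) :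
    Function.Surjective (phiL F hJ) := by
  obtain ⟨γ, hγ, hγd⟩ := exists_gamma F hJ H κ hcomm
  by_cases h1 : γ.natDegree = 1
  · obtain ⟨α', β', hα', hh'⟩ := linear_of_natDegree_one (h := h) γ h1
    exact p1 F hJ h H.hc α' β' hα' (hγ.trans hh')
  · by_cases hcof : ∀ u l : PP k, u ≠ 0 → dd A B u = l * u → ∃ c, l = C c
    · exfalso
      refine deg_two F hJ A B h H γ hγ (by omega) fun u l hu hul => ?_
      obtain ⟨c, rfl⟩ := hcof u l hu hul
      exact (dd A B).map_algebraMap c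
    · push Not at hcof
      obtain ⟨u, l, hu, hul, hl⟩ := hcof
      obtain ⟨s, α, β, hs, hα, hsF⟩ := semi_inv F (Pool.Agent.H922R2.aeval_injective F hJ) A B κ hκ
        hcomm u l hu hul hl
      exact p1 F hJ s hs α β hα hsF

theorem exists_y {A B : PP k} (hco : IsRelPrime A B) (x : KK k)
    (hxc : ∀ c : k, x ≠ algebraMap k (KK k) c) (hx : DK A B x = 0) :
    ∃ y : KK k, (∀ z : KK k, DK A B z = 0 ↔ z ∈ IntermediateField.adjoin k {y}) ∧
      ∀ c : k, y ≠ algebraMap k (KK k) c := by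
  have hxT := transcK_of_nonconst x hxc
  let E : IntermediateField k (KK k) :=
    (algebraicClosure (IntermediateField.adjoin k {x}) (KK k)).restrictScalars k
  have hEmem : ∀ z : KK k, z ∈ E ↔ IsAlgebraic (IntermediateField.adjoin k {x}) z := by
    intro z
    exact mem_algebraicClosure_iff
  obtain ⟨y, hy⟩ := Pool.Agent.Helper460.Flow.gordan_luroth (F := k) (n := 2) (K := KK k) E (by
    intro h hhE hhT g hg
    exact GenAux.exchange x h g ((hEmem h).1 hhE) hhT ((hEmem g).1 hg))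
  refine ⟨y, fun z => ?_, ?_⟩
  · rw [← hy, hEmem]
    exact ⟨fun hz => alg_of_DK hco hxT hx z hz, fun hz => DK_of_alg hx z hz⟩
  · rintro c rfl
    have h1 : x ∈ E := by
      rw [hEmem]
      exact isAlgebraic_algebraMap
        (⟨x, IntermediateField.mem_adjoin_simple_self k _⟩ : IntermediateField.adjoin k {x})
    rw [hy, IntermediateField.adjoin_simple_eq_bot_iff.2
      (IntermediateField.mem_bot.2 ⟨c, rfl⟩)] at h1
    obtain ⟨d, hd⟩ := IntermediateField.mem_bot.1 h1
    exact hxc d hd.symm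

/-- the case without polynomial first integral -/
theorem caseB (hJ : IsUnit (Pool.Agent.H922R2.jac F).det) (A B : PP k) (hco : IsRelPrime A B)
    (hker : ∀ f : PP k, dd A B f = 0 → ∃ c, f = C c) (x : KK k)
    (hxc : ∀ c : k, x ≠ algebraMap k (KK k) c) (hx : DK A B x = 0)
    (κ : k) (hκ : κ ≠ 0) (hcomm : ∀ f, dd A B (aeval F f) = C κ * aeval F (dd A B f))
    (h1 : A * pderiv 1 (F 1) - B * pderiv 0 (F 1) = C κ * aeval F A)
    (h2 : B * pderiv 0 (F 0) - A * pderiv 1 (F 0) = C κ * aeval F B) :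
    Function.Surjective (phiL F hJ) := by
  have hdiv := div_semi F hJ A B κ hκ h1 h2
  by_cases hζ : ∀ c, pderiv 1 A - pderiv 0 B ≠ C c
  · refine p1 F hJ (pderiv 1 A - pderiv 0 B) hζ κ⁻¹ 0 (inv_ne_zero hκ) ?_
    rw [C_0, add_zero, eq_comm]
    calc C κ⁻¹ * (pderiv 1 A - pderiv 0 B) = C κ⁻¹ * (C κ * aeval F (pderiv 1 A - pderiv 0 B)) := by
          rw [hdiv]
      _ = aeval F (pderiv 1 A - pderiv 0 B) := by
          rw [← mul_assoc, ← C_mul, inv_mul_cancel₀ hκ, C_1, one_mul]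
  push Not at hζ
  obtain ⟨z, hz⟩ := hζ
  by_cases hz0 : z = 0
  · exfalso
    rw [hz0, C_0, sub_eq_zero] at hz
    obtain ⟨f, hf0, hf1⟩ := poincare A B hz
    obtain ⟨c, hc⟩ := hker f (by rw [dd_apply, hf0, hf1]; ring)
    rw [hc, pderiv_C] at hf0 hf1
    rcases relprime_ne hco with h | h
    · exact h hf0.symm
    · exact h hf1.symm
  have hκ1 : κ = 1 := by
    rw [hz, aevalF_C, ← C_mul] at hdiv
    have h3 := C_injective _ _ hdiv
    exact mul_right_cancel₀ hz0 (by rw [h3, one_mul])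
  by_cases hcof : ∀ u l : PP k, u ≠ 0 → dd A B u = l * u → ∃ c, l = C c
  · obtain ⟨y, hy, hyc⟩ := exists_y hco x hxc hx
    obtain ⟨s, α, hs, hα, hsF⟩ := eig_space A B hker y hy hyc hcof F
      (Pool.Agent.H922R2.aeval_injective F hJ) (by
        intro f
        rw [hcomm, hκ1, C_1, one_mul])
    exact p1 F hJ s hs α 0 hα (by rw [hsF, C_0, add_zero])
  · push Not at hcof
    obtain ⟨u, l, hu, hul, hl⟩ := hcof
    obtain ⟨s, α, β, hs, hα, hsF⟩ := semi_inv F (Pool.Agent.H922R2.aeval_injective F hJ) A B κ hκ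
      hcomm u l hu hul hl
    exact p1 F hJ s hs α β hα hsF

theorem pencil_surj (hJ : IsUnit (Pool.Agent.H922R2.jac F).det) (x : KK k)
    (hxc : ∀ c : k, x ≠ algebraMap k (KK k) c)
    (hpres : phiL F hJ x ∈ IntermediateField.adjoin k {x}) :
    Function.Surjective (phiL F hJ) := by
  obtain ⟨A, B, hco, hD⟩ := exists_prim x
  obtain ⟨κ, hκ, hcomm, h1, h2⟩ := fol F hJ A B hco x hxc hD (DK_adjoin hD _ hpres)
  by_cases hker : ∀ f : PP k, dd A B f = 0 → ∃ c, f = C c
  · exact caseB F hJ A B hco hker x hxc hD κ hκ hcomm h1 h2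
  · push Not at hker
    obtain ⟨f, hf, hfc⟩ := hker
    obtain ⟨h, H⟩ := exists_Fib hco f hfc hf
    exact caseA F hJ A B h H κ hκ hcomm

end

section
variable {k : Type*} [Field k] [CharZero k]

theorem pencil_closed [IsAlgClosed k] (F : Fin 2 → PP k)
    (hJ : IsUnit (Matrix.of fun i j => pderiv j (F i)).det) (P Q : PP k)
    (hnc : ∀ c : k, ιK k P / ιK k Q ≠ algebraMap k (KK k) c)
    (hpres : ιK k (aeval F P) / ιK k (aeval F Q) ∈
      IntermediateField.adjoin k {ιK k P / ιK k Q}) :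
    ∃ G : Fin 2 → PP k, ∀ i, aeval F (G i) = X i := by
  have hJ' : IsUnit (Pool.Agent.H922R2.jac F).det := hJ
  have h1 : Function.Surjective (phiL F hJ') := by
    apply pencil_surj F hJ' (ιK k P / ιK k Q) hnc
    rw [map_div₀, phiL_ι, phiL_ι]
    exact hpres
  obtain ⟨G, hG, -⟩ := inverse_of_surj F hJ' h1
  exact ⟨G, hG⟩

/-- a plane Keller map preserving a pencil of curves is an automorphism -/
theorem pencil (F : Fin 2 → PP k)
    (hJ : IsUnit (Matrix.of fun i j => pderiv j (F i)).det) (P Q : PP k) (hQ : Q ≠ 0)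
    (hnc : ∀ c : k, ιK k P / ιK k Q ≠ algebraMap k (KK k) c)
    (hpres : ιK k (aeval F P) / ιK k (aeval F Q) ∈
      IntermediateField.adjoin k {ιK k P / ιK k Q}) :
    ∃ G : Fin 2 → PP k, (∀ i, aeval F (G i) = X i) ∧ ∀ i, aeval G (F i) = X i := by
  have : CharZero (AlgebraicClosure k) :=
    charZero_of_injective_algebraMap (algebraMap k (AlgebraicClosure k)).injective
  obtain ⟨G, hG⟩ := base_change F hJ P Q hQ hnc hpres (AlgebraicClosure k)
    (fun F' hJ' P' Q' _ hnc' hpres' => pencil_closed F' hJ' P' Q' hnc' hpres')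
  refine ⟨G, hG, fun i => ?_⟩
  apply Pool.Agent.H922R2.aeval_injective F hJ
  rw [aeval_X]
  have h1 : (aeval F : PP k →ₐ[k] PP k).comp (aeval G) = AlgHom.id k (PP k) := by
    apply MvPolynomial.algHom_ext
    intro j
    rw [AlgHom.comp_apply, aeval_X, hG]
    rfl
  exact congrArg (fun f => f (F i)) h1

end

end Pool.Agent.H928R2.Pen
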