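import Mathlib

set_option autoImplicit false

/-! Univariate core of the three-pieces theorem. -/

namespace Pool.Agent.H928R2.Three

open Polynomial

/-- simultaneous roots. -/
theorem pow_solve {K : Type*} [Field K] [IsAlgClosed K] {g β γ : ℕ} (hg : 0 < g)
    (hco : Nat.Coprime β γ) (u1 u2 : K) (h1 : u1 ≠ 0) (h2 : u2 ≠ 0) (h : u1 ^ γ = u2 ^ β) :
    ∃ x : K, x ≠ 0 ∧ x ^ (g * β) = u1 ∧ x ^ (g * γ) = u2 := by
  have hb : (1 : ℤ) = β * Nat.gcdA β γ + γ * Nat.gcdB β γ := by
    have := Nat.gcd_eq_gcd_ab β γ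
    rw [hco.gcd_eq_one] at this
    exact_mod_cast this
  set i := Nat.gcdA β γ
  set j := Nat.gcdB β γ
  obtain ⟨x, hx⟩ := IsAlgClosed.exists_pow_nat_eq (u1 ^ i * u2 ^ j) hg
  have hz : u1 ^ (γ : ℤ) = u2 ^ (β : ℤ) := by
    rw [zpow_natCast, zpow_natCast]; exact h
  have hy0 : u1 ^ i * u2 ^ j ≠ 0 := mul_ne_zero (zpow_ne_zero _ h1) (zpow_ne_zero _ h2)
  refine ⟨x, ?_, ?_, ?_⟩
  · rintro rfl
    rw [zero_pow hg.ne'] at hx
    exact hy0 hx.symm
  · rw [pow_mul, hx, mul_pow, ← zpow_natCast (u1 ^ i), ← zpow_natCast (u2 ^ j), ← zpow_mul,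
      ← zpow_mul, mul_comm j, zpow_mul u2, ← hz, ← zpow_mul, ← zpow_add₀ h1]
    rw [show i * (β : ℤ) + (γ : ℤ) * j = 1 by rw [hb]; ring, zpow_one]
  · rw [pow_mul, hx, mul_pow, ← zpow_natCast (u1 ^ i), ← zpow_natCast (u2 ^ j), ← zpow_mul,
      ← zpow_mul, mul_comm i, zpow_mul u1, hz, ← zpow_mul, ← zpow_add₀ h2]
    rw [show (β : ℤ) * i + j * (γ : ℤ) = 1 by rw [hb]; ring, zpow_one]

section
variable {K : Type*} [Field K] [IsAlgClosed K]

/-- the numerical solution of the two critical equations. -/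
theorem crit_solve {g β δ : ℕ} (hg : 0 < g)
    (hco : Nat.Coprime β (β + δ)) (A A' B B' : K) (cA cB : K)
    (hA' : A' ≠ 0) (hB' : B' ≠ 0) (D : K) (hD : D = cA * A * B' - cB * A' * B) (hD0 : D ≠ 0)
    (h : A' ^ β * D ^ δ = (-B') ^ (β + δ)) :
    ∃ x : K, x ≠ 0 ∧ A' * x ^ (g * β) + x ^ (g * (β + δ)) * B' = 0 ∧
      1 + cA * x ^ (g * β) * A + cB * x ^ (g * (β + δ)) * B = 0 := by
  obtain ⟨x, hx0, hx1, hx2⟩ := pow_solve hg hco (-B' / D) (A' / D)
    (div_ne_zero (neg_ne_zero.2 hB') hD0) (div_ne_zero hA' hD0) (by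
      rw [div_pow, div_pow, ← h, pow_add, div_eq_div_iff (mul_ne_zero (pow_ne_zero _ hD0)
        (pow_ne_zero _ hD0)) (pow_ne_zero _ hD0)]
      ring)
  refine ⟨x, hx0, ?_, ?_⟩
  · rw [hx1, hx2]; field_simp; ring
  · rw [hx1, hx2]
    have : 1 + cA * (-B' / D) * A + cB * (A' / D) * B = (D - (cA * A * B' - cB * A' * B)) / D := by
      field_simp; ring
    rw [this, ← hD, sub_self, zero_div]

end

section
variable {K : Type*} [Field K]

theorem coeff_mul_two (f g : K[X]) (p q : ℕ) (hf : f.natDegree ≤ p + 1) (hg : g.natDegree ≤ q + 1) :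
    (f * g).coeff (p + (q + 1)) = f.coeff (p + 1) * g.coeff q + f.coeff p * g.coeff (q + 1) := by
  have hdec : f = C (f.coeff (p + 1)) * X ^ (p + 1) + (f - C (f.coeff (p + 1)) * X ^ (p + 1)) := by
    ring
  have hf' : (f - C (f.coeff (p + 1)) * X ^ (p + 1)).natDegree ≤ p := by
    rw [natDegree_le_iff_coeff_eq_zero]
    intro N hN
    rw [coeff_sub, coeff_C_mul, coeff_X_pow]
    by_cases h : N = p + 1
    · subst h; simp
    · rw [if_neg h, mul_zero, sub_zero]
      exact coeff_eq_zero_of_natDegree_lt (by omega)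
  have h1 : (f * g).coeff (p + (q + 1)) = (C (f.coeff (p + 1)) * X ^ (p + 1) * g).coeff (p + (q + 1)) +
      ((f - C (f.coeff (p + 1)) * X ^ (p + 1)) * g).coeff (p + (q + 1)) := by
    rw [← coeff_add, ← add_mul, ← hdec]
  rw [h1, coeff_mul_add_eq_of_natDegree_le hf' hg]
  congr 1
  · rw [mul_assoc, coeff_C_mul, show p + (q + 1) = q + (p + 1) by ring, coeff_X_pow_mul]
  · rw [coeff_sub, coeff_C_mul, coeff_X_pow, if_neg (by omega), mul_zero, sub_zero]

end

section
variable {K : Type*} [Field K]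

/-- a critical point of `X + x^(a+1) A(z) + x^(b+1) B(z)` in the chart `x ≠ 0`. -/
def Crit (a b : ℕ) (A B : K[X]) : Prop :=
  ∃ z x : K, x ≠ 0 ∧ (derivative A).eval z * x ^ a + x ^ b * (derivative B).eval z = 0 ∧
    1 + ((a : K) + 1) * x ^ a * A.eval z + ((b : K) + 1) * x ^ b * B.eval z = 0

/-- a critical point on the line `x = 0`. -/
def CritInf (a b : ℕ) (A B : K[X]) : Prop :=
  ∃ y : K, y ≠ 0 ∧ (((a : K) + 1) * A.coeff (a + 1)) * y ^ a +
      y ^ b * (((b : K) + 1) * B.coeff (b + 1)) = 0 ∧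
    1 + 1 * y ^ a * A.coeff a + 1 * y ^ b * B.coeff b = 0

variable [IsAlgClosed K] [CharZero K]

theorem step1 {a b : ℕ} (ha : 0 < a) (hab : a < b) {A B : K[X]}
    (hi : ∀ z, A.eval z ≠ 0 ∨ B.eval z ≠ 0) (hno : ¬ Crit a b A B) (z : K) :
    (derivative A).eval z ≠ 0 ∨ (derivative B).eval z ≠ 0 := by
  by_contra hcon
  push Not at hcon
  obtain ⟨hA, hB⟩ := hcon
  set h : K[X] := 1 + C (((a : K) + 1) * A.eval z) * X ^ a + C (((b : K) + 1) * B.eval z) * X ^ b
    with hh
  have hev : ∀ x, h.eval x = 1 + ((a : K) + 1) * x ^ a * A.eval z +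
      ((b : K) + 1) * x ^ b * B.eval z := by
    intro x
    simp only [hh, eval_add, eval_one, eval_mul, eval_C, eval_pow, eval_X]
    ring
  have ha1 : ((a : K) + 1) ≠ 0 := by exact_mod_cast (by omega : a + 1 ≠ 0)
  have hb1 : ((b : K) + 1) ≠ 0 := by exact_mod_cast (by omega : b + 1 ≠ 0)
  have hca : h.coeff a = ((a : K) + 1) * A.eval z := by
    have e1 : ¬ (a = 0) := by omega
    have e2 : ¬ (a = b) := by omega
    simp only [hh, coeff_add, coeff_one, coeff_C_mul, coeff_X_pow, if_neg e1, if_neg e2, if_true]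
    ring
  have hcb : h.coeff b = ((b : K) + 1) * B.eval z := by
    have e1 : ¬ (b = 0) := by omega
    have e2 : ¬ (b = a) := by omega
    simp only [hh, coeff_add, coeff_one, coeff_C_mul, coeff_X_pow, if_neg e1, if_neg e2, if_true]
    ring
  have hdeg : h.degree ≠ 0 := by
    intro h0
    have h1 := eq_C_of_degree_eq_zero h0
    have h2 : h.coeff a = 0 := by rw [h1, coeff_C, if_neg (by omega)]
    have h3 : h.coeff b = 0 := by rw [h1, coeff_C, if_neg (by omega)]
    rcases hi z with h4 | h4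
    · exact mul_ne_zero ha1 h4 (hca ▸ h2)
    · exact mul_ne_zero hb1 h4 (hcb ▸ h3)
  obtain ⟨x, hx⟩ := IsAlgClosed.exists_root h hdeg
  rw [IsRoot.def, hev] at hx
  apply hno
  refine ⟨z, x, ?_, by rw [hA, hB]; ring, hx⟩
  rintro rfl
  rw [zero_pow ha.ne', zero_pow (by omega : b ≠ 0)] at hx
  simp at hx

theorem step3 {g β δ : ℕ} (hg : 0 < g) (hβ : 0 < β) (hδ : 0 < δ)
    (hco : Nat.Coprime β (β + δ)) {A B T S V : K[X]}
    (hi : ∀ z, A.eval z ≠ 0 ∨ B.eval z ≠ 0) (hno : ¬ Crit (g * β) (g * (β + δ)) A B)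
    (hB : B = T * S) (hB' : derivative B = T * V) (hSV : IsCoprime S V) (hB0 : B ≠ 0) (z : K) :
    (derivative A ^ β * (C (((g * β : ℕ) : K) + 1) * A * V -
      C (((g * (β + δ) : ℕ) : K) + 1) * derivative A * S) ^ δ -
      (-1) ^ (β + δ) * T ^ β * V ^ (β + δ)).eval z ≠ 0 := by
  intro hW
  have hgβ : 0 < g * β := Nat.mul_pos hg hβ
  have hab : g * β < g * (β + δ) := Nat.mul_lt_mul_of_pos_left (by omega) hg
  have h1 := step1 hgβ hab hi hno
  set cA : K := ((g * β : ℕ) : K) + 1 with hcA
  set cB : K := ((g * (β + δ) : ℕ) : K) + 1 with hcB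
  have hcA0 : cA ≠ 0 := by rw [hcA]; exact_mod_cast (by omega : g * β + 1 ≠ 0)
  have hcB0 : cB ≠ 0 := by rw [hcB]; exact_mod_cast (by omega : g * (β + δ) + 1 ≠ 0)
  simp only [eval_sub, eval_mul, eval_pow, eval_C, eval_neg, eval_one] at hW
  have hBz : B.eval z = T.eval z * S.eval z := by rw [hB, eval_mul]
  have hB'z : (derivative B).eval z = T.eval z * V.eval z := by rw [hB', eval_mul]
  set D1 : K := cA * A.eval z * V.eval z - cB * (derivative A).eval z * S.eval z with hD1
  by_cases hV : V.eval z = 0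
  · -- `V z = 0`
    have hA' : (derivative A).eval z ≠ 0 := by
      rcases h1 z with h | h
      · exact h
      · exact absurd (by rw [hB'z, hV, mul_zero]) h
    rw [hV, zero_pow (by omega : β + δ ≠ 0), mul_zero, sub_zero] at hW
    have hD : D1 = 0 := by
      rcases mul_eq_zero.1 hW with h | h
      · exact absurd (pow_eq_zero_iff (by omega) |>.1 h) hA'
      · exact pow_eq_zero_iff (by omega) |>.1 h
    rw [hD1, hV, mul_zero, zero_sub, neg_eq_zero] at hD
    have hS : S.eval z = 0 := by
      rcases mul_eq_zero.1 hD with h | h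
      · rcases mul_eq_zero.1 h with h | h
        · exact absurd h hcB0
        · exact absurd h hA'
      · exact h
    obtain ⟨u, v, huv⟩ := hSV
    have := congrArg (eval z) huv
    rw [eval_add, eval_mul, eval_mul, hS, hV] at this
    simp at this
  by_cases hT : T.eval z = 0
  · have hA' : (derivative A).eval z ≠ 0 := by
      rcases h1 z with h | h
      · exact h
      · exact absurd (by rw [hB'z, hT, zero_mul]) h
    have hA : A.eval z ≠ 0 := by
      rcases hi z with h | h
      · exact h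
      · exact absurd (by rw [hBz, hT, zero_mul]) h
    rw [hT, zero_pow (by omega : β ≠ 0), mul_zero, zero_mul, sub_zero] at hW
    have hD : D1 = 0 := by
      rcases mul_eq_zero.1 hW with h | h
      · exact absurd (pow_eq_zero_iff (by omega) |>.1 h) hA'
      · exact pow_eq_zero_iff (by omega) |>.1 h
    -- `S z = 0` by multiplicities
    have hT0 : T ≠ 0 := by rintro rfl; exact hB0 (by rw [hB, zero_mul])
    have hS0 : S ≠ 0 := by rintro rfl; exact hB0 (by rw [hB, mul_zero])
    have hV0 : V ≠ 0 := by rintro rfl; exact hV (by simp)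
    have hroot : B.IsRoot z := by rw [IsRoot.def, hBz, hT, zero_mul]
    have h2 := derivative_rootMultiplicity_of_root hroot
    have hBp : 0 < rootMultiplicity z B := (rootMultiplicity_pos hB0).2 hroot
    rw [hB', rootMultiplicity_mul (mul_ne_zero hT0 hV0)] at h2
    have h3 : rootMultiplicity z V = 0 := by
      rw [rootMultiplicity_eq_zero_iff]
      intro h; exact absurd h hV
    have h4 : rootMultiplicity z B = rootMultiplicity z T + rootMultiplicity z S := by
      conv_lhs => rw [hB]
      exact rootMultiplicity_mul (mul_ne_zero hT0 hS0)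
    have hS : S.eval z = 0 := by
      have h5 : 0 < rootMultiplicity z S := by omega
      exact ((rootMultiplicity_pos hS0).1 h5)
    rw [hD1, hS, mul_zero, sub_zero] at hD
    exact mul_ne_zero (mul_ne_zero hcA0 hA) hV hD
  · have hB'0 : (derivative B).eval z ≠ 0 := by rw [hB'z]; exact mul_ne_zero hT hV
    have hne : (-1 : K) ^ (β + δ) * T.eval z ^ β * V.eval z ^ (β + δ) ≠ 0 :=
      mul_ne_zero (mul_ne_zero (pow_ne_zero _ (by simp)) (pow_ne_zero _ hT)) (pow_ne_zero _ hV)
    have hW' : (derivative A).eval z ^ β * D1 ^ δ =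
        (-1 : K) ^ (β + δ) * T.eval z ^ β * V.eval z ^ (β + δ) := sub_eq_zero.1 hW
    have hA' : (derivative A).eval z ≠ 0 := by
      intro h
      rw [h, zero_pow (by omega : β ≠ 0), zero_mul] at hW'
      exact hne hW'.symm
    have hD10 : D1 ≠ 0 := by
      intro h
      rw [h, zero_pow (by omega : δ ≠ 0), mul_zero] at hW'
      exact hne hW'.symm
    obtain ⟨x, hx0, hx1, hx2⟩ := crit_solve (β := β) (δ := δ) hg hco (A.eval z)
      ((derivative A).eval z) (B.eval z) ((derivative B).eval z) cA cB hA' hB'0 (T.eval z * D1)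
      (by rw [hD1, hBz, hB'z]; ring) (mul_ne_zero hT hD10) (by
        rw [mul_pow, hB'z]
        calc (derivative A).eval z ^ β * (T.eval z ^ δ * D1 ^ δ)
            = T.eval z ^ δ * ((derivative A).eval z ^ β * D1 ^ δ) := by ring
          _ = (-(T.eval z * V.eval z)) ^ (β + δ) := by
            rw [hW', neg_pow (T.eval z * V.eval z), mul_pow (T.eval z), pow_add (T.eval z)]
            ring)
    exact hno ⟨z, x, hx0, hx1, hx2⟩

/-- The univariate core: `X + x^(a+1) A(z) + x^(b+1) B(z)` has a critical point. -/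
theorem core {m a b : ℕ} (hm : 0 < m) (ha : 0 < a) (hab : a < b) {A B : K[X]}
    (hmA : m * A.natDegree ≤ a + 1) (hmB : m * B.natDegree ≤ b + 1)
    (hi : ∀ z, A.eval z ≠ 0 ∨ B.eval z ≠ 0)
    (hiii : (2 ≤ A.natDegree ∧ m * A.natDegree = a + 1) ∨
      (2 ≤ B.natDegree ∧ m * B.natDegree = b + 1))
    (hno : ¬ Crit a b A B) : m = 1 ∧ CritInf a b A B := by
  classical
  have h1 := step1 ha hab hi hno
  -- nonvanishing derivatives
  have hrt : ∀ f : K[X], 2 ≤ f.natDegree → ∃ z, (derivative f).eval z = 0 := by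
    intro f hf
    have h2 : (derivative f).natDegree = f.natDegree - 1 := natDegree_derivative f
    have h3 : (derivative f).degree ≠ 0 := by
      intro h
      have := natDegree_eq_zero_iff_degree_le_zero.2 h.le
      omega
    exact IsAlgClosed.exists_root _ h3
  have hA'0 : derivative A ≠ 0 := by
    intro h
    have h2 : A.natDegree = 0 := by
      exact derivative_eq_zero.1 h
    rcases hiii with ⟨h3, -⟩ | ⟨h3, -⟩
    · omega
    · obtain ⟨z, hz⟩ := hrt B h3
      rcases h1 z with h4 | h4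
      · exact h4 (by rw [h, eval_zero])
      · exact h4 hz
  have hB'0 : derivative B ≠ 0 := by
    intro h
    have h2 : B.natDegree = 0 := derivative_eq_zero.1 h
    rcases hiii with ⟨h3, -⟩ | ⟨h3, -⟩
    · obtain ⟨z, hz⟩ := hrt A h3
      rcases h1 z with h4 | h4
      · exact h4 hz
      · exact h4 (by rw [h, eval_zero])
    · omega
  have hA0 : A ≠ 0 := by rintro rfl; simp at hA'0
  have hB0 : B ≠ 0 := by rintro rfl; simp at hB'0
  have hnA : (derivative A).natDegree = A.natDegree - 1 := natDegree_derivative A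
  have hnB : (derivative B).natDegree = B.natDegree - 1 := natDegree_derivative B
  have hA1 : 1 ≤ A.natDegree := by
    by_contra h
    have h2 : A.natDegree = 0 := by omega
    rw [eq_C_of_natDegree_eq_zero h2] at hA'0
    simp at hA'0
  have hB1 : 1 ≤ B.natDegree := by
    by_contra h
    have h2 : B.natDegree = 0 := by omega
    rw [eq_C_of_natDegree_eq_zero h2] at hB'0
    simp at hB'0
  -- gcd data
  obtain ⟨g, β, γ, hg, hco, haβ, hbγ⟩ : ∃ g β γ : ℕ, 0 < g ∧ Nat.Coprime β γ ∧ a = g * β ∧ b = g * γ := by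
    refine ⟨Nat.gcd a b, a / Nat.gcd a b, b / Nat.gcd a b, Nat.gcd_pos_of_pos_left _ ha,
      Nat.coprime_div_gcd_div_gcd (Nat.gcd_pos_of_pos_left _ ha), ?_, ?_⟩
    · rw [Nat.mul_div_cancel' (Nat.gcd_dvd_left _ _)]
    · rw [Nat.mul_div_cancel' (Nat.gcd_dvd_right _ _)]
  have hβ : 0 < β := by
    rcases Nat.eq_zero_or_pos β with h | h
    · rw [h, mul_zero] at haβ; omega
    · exact h
  obtain ⟨δ, hδ, rfl⟩ : ∃ δ, 0 < δ ∧ γ = β + δ := by
    have : β < γ := by
      by_contra h
      push Not at h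
      have := Nat.mul_le_mul_left g h
      omega
    exact ⟨γ - β, by omega, by omega⟩
  subst haβ hbγ
  obtain ⟨T, S, V, hB, hB', hSV⟩ : ∃ T S V : K[X], B = T * S ∧ derivative B = T * V ∧ IsCoprime S V := by
    obtain ⟨S, hS⟩ := EuclideanDomain.gcd_dvd_left B (derivative B)
    obtain ⟨V, hV⟩ := EuclideanDomain.gcd_dvd_right B (derivative B)
    set T := EuclideanDomain.gcd B (derivative B) with hT
    have hT0 : T ≠ 0 := by
      intro h
      rw [h, zero_mul] at hS
      exact hB0 hS
    refine ⟨T, S, V, hS, hV, ?_⟩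
    have h2 := EuclideanDomain.gcd_eq_gcd_ab B (derivative B)
    rw [← hT] at h2
    refine ⟨EuclideanDomain.gcdA B (derivative B), EuclideanDomain.gcdB B (derivative B), ?_⟩
    apply mul_left_cancel₀ hT0
    calc T * (EuclideanDomain.gcdA B (derivative B) * S + EuclideanDomain.gcdB B (derivative B) * V)
        = (T * S) * EuclideanDomain.gcdA B (derivative B) +
          (T * V) * EuclideanDomain.gcdB B (derivative B) := by ring
      _ = T * 1 := by rw [← hS, ← hV, mul_one]; exact h2.symm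
  have h3 := step3 hg hβ hδ hco hi hno hB hB' hSV hB0
  set cA : K := ((g * β : ℕ) : K) + 1 with hcA
  set cB : K := ((g * (β + δ) : ℕ) : K) + 1 with hcB
  set D1 : K[X] := C cA * A * V - C cB * derivative A * S with hD1
  set D : K[X] := T * D1 with hD
  have hDe : D = C cA * A * derivative B - C cB * derivative A * B := by
    rw [hD, hD1, hB', mul_sub]
    conv_rhs => rw [hB]
    ring
  set R1 : K[X] := derivative A ^ β * D1 ^ δ with hR1
  set R2 : K[X] := (-1) ^ (β + δ) * T ^ β * V ^ (β + δ) with hR2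
  have hT0 : T ≠ 0 := by rintro rfl; exact hB0 (by rw [hB, zero_mul])
  have hV0 : V ≠ 0 := by rintro rfl; exact hB'0 (by rw [hB', mul_zero])
  have hW0 : (R1 - R2).natDegree = 0 := by
    by_contra h
    have h4 : (R1 - R2).degree ≠ 0 := by
      intro h5
      exact h (natDegree_eq_zero_iff_degree_le_zero.2 h5.le)
    obtain ⟨z, hz⟩ := IsAlgClosed.exists_root _ h4
    exact h3 z hz
  have hR2d : R2.natDegree = β * T.natDegree + (β + δ) * V.natDegree := by
    rw [hR2, natDegree_mul (mul_ne_zero (pow_ne_zero _ (by simp)) (pow_ne_zero _ hT0))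
      (pow_ne_zero _ hV0), natDegree_mul (pow_ne_zero _ (by simp)) (pow_ne_zero _ hT0),
      natDegree_pow, natDegree_pow, natDegree_pow, natDegree_neg, natDegree_one]
    ring
  have hTV : T.natDegree + V.natDegree = B.natDegree - 1 := by
    rw [← hnB, hB', natDegree_mul hT0 hV0]
  have hDle : D.natDegree ≤ A.natDegree + B.natDegree - 1 := by
    rw [hDe]
    refine (natDegree_sub_le _ _).trans (max_le ?_ ?_)
    · refine (natDegree_mul_le).trans ?_
      have := natDegree_C_mul_le cA A
      omega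
    · refine (natDegree_mul_le).trans ?_
      have := natDegree_C_mul_le cB (derivative A)
      omega
  have hDtop : D.coeff (A.natDegree + B.natDegree - 1) =
      (cA * B.natDegree - cB * A.natDegree) * (A.leadingCoeff * B.leadingCoeff) := by
    obtain ⟨p, hp⟩ : ∃ p, A.natDegree = p + 1 := ⟨A.natDegree - 1, by omega⟩
    obtain ⟨q, hq⟩ : ∃ q, B.natDegree = q + 1 := ⟨B.natDegree - 1, by omega⟩
    rw [hDe, coeff_sub, mul_assoc, coeff_C_mul, mul_assoc (C cB), coeff_C_mul]
    rw [show A.natDegree + B.natDegree - 1 = A.natDegree + q by omega,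
      coeff_mul_add_eq_of_natDegree_le le_rfl (by omega : (derivative B).natDegree ≤ q)]
    rw [show A.natDegree + q = p + B.natDegree by omega,
      coeff_mul_add_eq_of_natDegree_le (by omega : (derivative A).natDegree ≤ p) le_rfl,
      coeff_derivative, coeff_derivative, ← hq, ← hp]
    rw [leadingCoeff, leadingCoeff, hp, hq]
    push_cast
    ring
  have hcAn : cA = ((g * β + 1 : ℕ) : K) := by rw [hcA]; push_cast; ring
  have hcBn : cB = ((g * (β + δ) + 1 : ℕ) : K) := by rw [hcB]; push_cast; ring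
  have hlA : A.leadingCoeff ≠ 0 := leadingCoeff_ne_zero.2 hA0
  have hlB : B.leadingCoeff ≠ 0 := leadingCoeff_ne_zero.2 hB0
  have hDtop' : D.coeff (A.natDegree + B.natDegree - 1) = 0 →
      (g * β + 1) * B.natDegree = (g * (β + δ) + 1) * A.natDegree := by
    intro h
    rw [hDtop, mul_eq_zero] at h
    rcases h with h | h
    · rw [hcAn, hcBn, sub_eq_zero] at h
      exact_mod_cast h
    · exact absurd h (mul_ne_zero hlA hlB)
  have hgδ : 0 < g * δ := Nat.mul_pos hg hδ
  have hgm : g * (β + δ) = g * β + g * δ := mul_add _ _ _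
  have hR1d : D1 ≠ 0 → R1.natDegree = β * (A.natDegree - 1) + δ * D1.natDegree := by
    intro h
    rw [hR1, natDegree_mul (pow_ne_zero _ hA'0) (pow_ne_zero _ h), natDegree_pow, natDegree_pow, hnA]
  have hR1e : R1 = (R1 - R2) + R2 := by ring
  have hR2ne : R2 ≠ 0 := mul_ne_zero (mul_ne_zero (pow_ne_zero _ (by simp)) (pow_ne_zero _ hT0))
    (pow_ne_zero _ hV0)
  by_cases hN : R2.natDegree = 0
  · exfalso
    rw [hR2d] at hN
    have h5 : T.natDegree = 0 := by
      rcases Nat.eq_zero_or_pos T.natDegree with h | h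
      · exact h
      · have := Nat.mul_pos hβ h; omega
    have h6 : V.natDegree = 0 := by
      rcases Nat.eq_zero_or_pos V.natDegree with h | h
      · exact h
      · have := Nat.mul_pos (by omega : 0 < β + δ) h; omega
    have h7 : B.natDegree = 1 := by omega
    by_cases hD10 : D1 = 0
    · have h8 := hDtop' (by rw [hD, hD10, mul_zero, coeff_zero])
      rw [h7, mul_one, hgm] at h8
      have : (g * β + g * δ + 1) * 1 ≤ (g * β + g * δ + 1) * A.natDegree := Nat.mul_le_mul_left _ hA1
      omega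
    · have h8 : R1.natDegree ≤ 0 := by
        rw [hR1e]
        refine (natDegree_add_le _ _).trans (max_le hW0.le ?_)
        rw [hR2d]; omega
      rw [hR1d hD10] at h8
      have h9 : A.natDegree = 1 := by
        rcases Nat.eq_zero_or_pos (A.natDegree - 1) with h | h
        · omega
        · have := Nat.mul_pos hβ h; omega
      rcases hiii with ⟨h, -⟩ | ⟨h, -⟩ <;> omega
  -- now the degree of `R2` is positive
  have hcN : R1.coeff R2.natDegree = R2.leadingCoeff := by
    have h5 : (R1 - R2).coeff R2.natDegree = 0 := coeff_eq_zero_of_natDegree_lt (by omega)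
    rw [coeff_sub, sub_eq_zero] at h5
    exact h5
  have hR1N : R1.natDegree = R2.natDegree := by
    apply le_antisymm
    · rw [hR1e]
      exact (natDegree_add_le _ _).trans (max_le (by omega) le_rfl)
    · apply le_natDegree_of_ne_zero
      rw [hcN]
      exact leadingCoeff_ne_zero.2 hR2ne
  have hR1ne : R1 ≠ 0 := by
    intro h
    rw [h, natDegree_zero] at hR1N
    exact hN hR1N.symm
  have hD1ne : D1 ≠ 0 := by
    intro h
    apply hR1ne
    rw [hR1, h, zero_pow (by omega : δ ≠ 0), mul_zero]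
  have hDne : D ≠ 0 := mul_ne_zero hT0 hD1ne
  have hDd : D.natDegree = T.natDegree + D1.natDegree := by rw [hD, natDegree_mul hT0 hD1ne]
  have hE1 : β * (A.natDegree - 1) + δ * D.natDegree = (β + δ) * (B.natDegree - 1) := by
    rw [hR1d hD1ne, hR2d] at hR1N
    rw [hDd, ← hTV]
    calc β * (A.natDegree - 1) + δ * (T.natDegree + D1.natDegree)
        = (β * (A.natDegree - 1) + δ * D1.natDegree) + δ * T.natDegree := by ring
      _ = _ := by rw [hR1N]; ring
  have hE2 : (derivative A).leadingCoeff ^ β * D.leadingCoeff ^ δ =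
      (-(derivative B).leadingCoeff) ^ (β + δ) := by
    have h5 : R1.leadingCoeff = R2.leadingCoeff := by rw [← hcN, leadingCoeff, hR1N]
    rw [hR1, hR2, leadingCoeff_mul, leadingCoeff_mul, leadingCoeff_mul, leadingCoeff_pow,
      leadingCoeff_pow, leadingCoeff_pow, leadingCoeff_pow, leadingCoeff_pow, leadingCoeff_neg,
      leadingCoeff_one] at h5
    rw [hD, hB', leadingCoeff_mul, leadingCoeff_mul, mul_pow]
    calc (derivative A).leadingCoeff ^ β * (T.leadingCoeff ^ δ * D1.leadingCoeff ^ δ)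
        = T.leadingCoeff ^ δ * ((derivative A).leadingCoeff ^ β * D1.leadingCoeff ^ δ) := by ring
      _ = _ := by
        rw [h5, neg_pow (T.leadingCoeff * V.leadingCoeff), mul_pow, pow_add T.leadingCoeff]
        ring
  obtain ⟨p, hp⟩ : ∃ p, A.natDegree = p + 1 := ⟨A.natDegree - 1, by omega⟩
  obtain ⟨q, hq⟩ : ∃ q, B.natDegree = q + 1 := ⟨B.natDegree - 1, by omega⟩
  have hkey : (g * β + 1) * B.natDegree = (g * (β + δ) + 1) * A.natDegree := by
    by_contra hne
    have h5 : D.natDegree = A.natDegree + B.natDegree - 1 := by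
      apply le_antisymm hDle
      apply le_natDegree_of_ne_zero
      intro h
      exact hne (hDtop' h)
    rw [h5, hp, hq] at hE1
    simp only [Nat.add_sub_cancel] at hE1
    have h6 : p + 1 + (q + 1) - 1 = p + q + 1 := by omega
    rw [h6] at hE1
    -- `(β+δ) * nA = β * nB`
    have h7 : (β + δ) * (p + 1) = β * (q + 1) := by
      zify at hE1 ⊢
      linear_combination hE1
    have h8 : (g * (β + δ)) * (m * (p + 1)) = (g * β) * (m * (q + 1)) := by
      calc (g * (β + δ)) * (m * (p + 1)) = g * m * ((β + δ) * (p + 1)) := by ring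
        _ = _ := by rw [h7]; ring
    rw [hp] at hmA hiii hne
    rw [hq] at hmB hiii hne
    rcases hiii with ⟨-, h9⟩ | ⟨-, h9⟩
    · rw [h9] at h8
      have h10 : (g * β) * (m * (q + 1)) ≤ (g * β) * (g * (β + δ) + 1) := Nat.mul_le_mul_left _ hmB
      rw [← h8] at h10
      have h11 : g * (β + δ) * (g * β + 1) = (g * β) * (g * (β + δ)) + g * (β + δ) := by ring
      have h12 : g * β * (g * (β + δ) + 1) = (g * β) * (g * (β + δ)) + g * β := by ring
      omega
    · rw [h9] at h8
      by_cases h11 : m * (p + 1) = g * β + 1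
      · rw [h11] at h8
        have h12 : g * (β + δ) * (g * β + 1) = (g * β) * (g * (β + δ)) + g * (β + δ) := by ring
        have h13 : g * β * (g * (β + δ) + 1) = (g * β) * (g * (β + δ)) + g * β := by ring
        omega
      · have h12 : m * (p + 1) ≤ g * β := by omega
        have h13 : (g * (β + δ)) * (m * (p + 1)) ≤ (g * (β + δ)) * (g * β) :=
          Nat.mul_le_mul_left _ h12
        rw [h8] at h13
        have h14 : g * β * (g * (β + δ) + 1) = (g * (β + δ)) * (g * β) + g * β := by ring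
        omega
  have hboth : m * A.natDegree = g * β + 1 ∧ m * B.natDegree = g * (β + δ) + 1 := by
    rcases hiii with ⟨-, h9⟩ | ⟨-, h9⟩
    · refine ⟨h9, ?_⟩
      have h10 : A.natDegree * (m * B.natDegree) = A.natDegree * (g * (β + δ) + 1) := by
        calc A.natDegree * (m * B.natDegree) = (m * A.natDegree) * B.natDegree := by ring
          _ = _ := by rw [h9, hkey]; ring
      exact Nat.eq_of_mul_eq_mul_left hA1 h10
    · refine ⟨?_, h9⟩
      have h10 : B.natDegree * (m * A.natDegree) = B.natDegree * (g * β + 1) := by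
        calc B.natDegree * (m * A.natDegree) = (m * B.natDegree) * A.natDegree := by ring
          _ = _ := by rw [h9, ← hkey]; ring
      exact Nat.eq_of_mul_eq_mul_left hB1 h10
  obtain ⟨hb1, hb2⟩ := hboth
  have hDlt : D.natDegree + 1 ≤ p + q + 1 := by
    have h5 : D.coeff (A.natDegree + B.natDegree - 1) = 0 := by
      rw [hDtop, hcAn, hcBn]
      have : (((g * β + 1 : ℕ) : K) * (B.natDegree : K) - ((g * (β + δ) + 1 : ℕ) : K) * (A.natDegree : K)) = 0 := by
        rw [sub_eq_zero]
        exact_mod_cast hkey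
      rw [this, zero_mul]
    have h6 : D.natDegree ≠ A.natDegree + B.natDegree - 1 := by
      intro h
      rw [← h] at h5
      exact leadingCoeff_ne_zero.2 hDne h5
    omega
  have hmD : m * D.natDegree + m = g * β + g * (β + δ) + 1 := by
    rw [hp, hq] at hE1
    simp only [Nat.add_sub_cancel] at hE1
    rw [hp] at hb1
    rw [hq] at hb2
    have h6 : g * δ * (m * D.natDegree + m) = g * δ * (g * β + g * (β + δ) + 1) := by
      zify at hE1 hb1 hb2 ⊢
      linear_combination (g : ℤ) * m * hE1 - g * β * hb1 + g * (β + δ) * hb2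
    exact Nat.eq_of_mul_eq_mul_left hgδ h6
  have hm1 : m = 1 := by
    rw [hp] at hb1
    rw [hq] at hb2
    have h5 : m * (D.natDegree + 1) ≤ m * (p + q + 1) := Nat.mul_le_mul_left _ hDlt
    have h6 : m * (D.natDegree + 1) = m * D.natDegree + m := by ring
    have h7 : m * (p + q + 1) + m = m * (p + 1) + m * (q + 1) := by ring
    rw [h6, hmD] at h5
    omega
  refine ⟨hm1, ?_⟩
  subst hm1
  rw [one_mul] at hb1 hb2 hmD
  have hDn : D.natDegree = g * β + g * (β + δ) := by omega
  obtain ⟨a', ha'⟩ : ∃ a', g * β = a' + 1 := ⟨g * β - 1, by omega⟩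
  obtain ⟨b', hb'⟩ : ∃ b', g * (β + δ) = b' + 1 := ⟨g * (β + δ) - 1, by omega⟩
  have hlD : D.leadingCoeff = 1 * A.coeff (g * β) * (cB * B.coeff (g * (β + δ) + 1)) -
      1 * (cA * A.coeff (g * β + 1)) * B.coeff (g * (β + δ)) := by
    have e1 : (A * derivative B).coeff (g * β + g * (β + δ)) =
        A.coeff (g * β + 1) * (derivative B).coeff b' + A.coeff (g * β) * (derivative B).coeff (b' + 1) := by
      rw [hb']
      exact coeff_mul_two A (derivative B) (g * β) b' hb1.le (by omega)
    have e2 : (derivative A * B).coeff (g * β + g * (β + δ)) =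
        B.coeff (g * (β + δ) + 1) * (derivative A).coeff a' +
          B.coeff (g * (β + δ)) * (derivative A).coeff (a' + 1) := by
      rw [mul_comm (derivative A), add_comm (g * β)]
      conv_lhs => rw [ha']
      exact coeff_mul_two B (derivative A) (g * (β + δ)) a' hb2.le (by omega)
    rw [leadingCoeff, hDn, hDe, coeff_sub, mul_assoc, coeff_C_mul, mul_assoc (C cB), coeff_C_mul,
      e1, e2, coeff_derivative, coeff_derivative, coeff_derivative, coeff_derivative, ← hb', ← ha']
    have e3 : ((b' : K) + 1) = ((g * (β + δ) : ℕ) : K) := by rw [hb']; push_cast; ring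
    have e4 : ((a' : K) + 1) = ((g * β : ℕ) : K) := by rw [ha']; push_cast; ring
    rw [e3, e4, ← hcA, ← hcB]
    rw [show ((g * (β + δ) : ℕ) : K) = cB - 1 by rw [hcB]; ring,
      show ((g * β : ℕ) : K) = cA - 1 by rw [hcA]; ring]
    ring
  have hlA' : (derivative A).leadingCoeff = cA * A.coeff (g * β + 1) := by
    rw [leadingCoeff, hnA, hb1, Nat.add_sub_cancel]
    conv_lhs => rw [ha', coeff_derivative]
    rw [← ha', hcA, ha']
    push_cast
    ring
  have hlB' : (derivative B).leadingCoeff = cB * B.coeff (g * (β + δ) + 1) := by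
    rw [leadingCoeff, hnB, hb2, Nat.add_sub_cancel]
    conv_lhs => rw [hb', coeff_derivative]
    rw [← hb', hcB, hb']
    push_cast
    ring
  obtain ⟨y, hy0, hy1, hy2⟩ := crit_solve (β := β) (δ := δ) hg hco (A.coeff (g * β))
    (cA * A.coeff (g * β + 1)) (B.coeff (g * (β + δ))) (cB * B.coeff (g * (β + δ) + 1)) 1 1
    (by rw [← hlA']; exact leadingCoeff_ne_zero.2 hA'0)
    (by rw [← hlB']; exact leadingCoeff_ne_zero.2 hB'0) D.leadingCoeff hlD
    (leadingCoeff_ne_zero.2 hDne) (by rw [← hlA', ← hlB']; exact hE2)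
  exact ⟨y, hy0, hy1, hy2⟩

end

end Pool.Agent.H928R2.Three
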