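import Mathlib
import Pool.Agent.H928R2.ThreeCore
import Pool.Agent.H938R2.JC.TwoPieces
import Pool.Agent.H922R2.K24

set_option autoImplicit false

open MvPolynomial Pool.Agent.H938R2.JC

namespace Pool.Agent.H928R2.Three

section
variable {k : Type*} [Field k]

/-- the chart `(t, s) ↦ (t, s t^m)`. -/
theorem chart {m n : ℕ} {P : MvPolynomial (Fin 2) k}
    (hP : ∀ s, coeff s P ≠ 0 → s 0 + m * s 1 = n) {R : Type*} [CommRing R] [Algebra k R] (t s : R) :
    aeval ![t, s * t ^ m] P = t ^ n * Polynomial.aeval s (dh P) := by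
  conv_lhs => rw [P.as_sum]
  conv_rhs => rw [P.as_sum]
  rw [map_sum, map_sum, map_sum, Finset.mul_sum]
  apply Finset.sum_congr rfl
  intro u hu
  have h1 := hP u (mem_support_iff.1 hu)
  rw [aeval_monomial, Finsupp.prod_fintype _ _ (by simp), Fin.prod_univ_two, dh_monomial,
    Polynomial.aeval_monomial]
  simp only [Matrix.cons_val_zero, Matrix.cons_val_one]
  rw [← h1, pow_add, pow_mul, mul_pow]
  ring

/-- the other chart `(t, s) ↦ (s t, t)` at `s = 0` (standard weights). -/
theorem eval_pderiv_zero {a : ℕ} {P : MvPolynomial (Fin 2) k}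
    (hP : ∀ s, coeff s P ≠ 0 → s 0 + 1 * s 1 = a + 1) (y : k) :
    eval ![0, y] (pderiv 0 P) = coeff (e 1 a) P * y ^ a := by
  classical
  conv_lhs => rw [P.as_sum]
  rw [map_sum, map_sum, Finset.sum_eq_single (e 1 a)]
  · rw [pderiv_monomial, eval_monomial, Finsupp.prod_fintype _ _ (by simp), Fin.prod_univ_two]
    simp [e]
  · intro s hs hne
    have h1 := hP s (mem_support_iff.1 hs)
    rw [pderiv_monomial, eval_monomial, Finsupp.prod_fintype _ _ (by simp), Fin.prod_univ_two]
    simp only [Finsupp.coe_tsub, Pi.sub_apply, Finsupp.single_eq_same, Matrix.cons_val_zero]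
    rcases Nat.lt_trichotomy (s 0) 1 with h | h | h
    · have : s 0 = 0 := by omega
      rw [this]; simp
    · exfalso
      apply hne
      rw [eq_e s, e_inj]
      omega
    · rw [zero_pow (by omega : s 0 - 1 ≠ 0)]
      simp
  · intro h
    rw [mem_support_iff, not_not] at h
    rw [h]; simp

theorem eval_pderiv_one {a : ℕ} {P : MvPolynomial (Fin 2) k}
    (hP : ∀ s, coeff s P ≠ 0 → s 0 + 1 * s 1 = a + 1) (y : k) :
    eval ![0, y] (pderiv 1 P) = ((a : k) + 1) * coeff (e 0 (a + 1)) P * y ^ a := by
  classical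
  conv_lhs => rw [P.as_sum]
  rw [map_sum, map_sum, Finset.sum_eq_single (e 0 (a + 1))]
  · rw [pderiv_monomial, eval_monomial, Finsupp.prod_fintype _ _ (by simp), Fin.prod_univ_two]
    simp only [e, Finsupp.single_zero, zero_add, Finsupp.coe_tsub, Pi.sub_apply,
      Finsupp.single_eq_same, Nat.add_sub_cancel, Matrix.cons_val_one, Nat.cast_add, Nat.cast_one]
    simp
    left
    ring
  · intro s hs hne
    have h1 := hP s (mem_support_iff.1 hs)
    rw [pderiv_monomial, eval_monomial, Finsupp.prod_fintype _ _ (by simp), Fin.prod_univ_two]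
    simp only [Finsupp.coe_tsub, Pi.sub_apply, Matrix.cons_val_zero]
    have h2 : s 0 ≠ 0 := by
      intro h
      apply hne
      rw [eq_e s, e_inj]
      omega
    have h3 : s 0 - (Finsupp.single (1 : Fin 2) 1) 0 ≠ 0 := by simpa using h2
    rw [zero_pow h3]
    simp
  · intro h
    rw [mem_support_iff, not_not] at h
    rw [h]; simp

theorem natDegree_dh {m n : ℕ} (hn : 0 < n) {P : MvPolynomial (Fin 2) k}
    (hP : ∀ s, coeff s P ≠ 0 → s 0 + m * s 1 = n) : m * (dh P).natDegree ≤ n := by
  by_cases h0 : dh P = 0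
  · rw [h0]; simp
  obtain ⟨i, hi⟩ := dh_coeff_exists (dh P).natDegree (Polynomial.leadingCoeff_ne_zero.2 h0)
  have := hP _ hi
  rw [e_zero, e_one] at this
  omega

theorem dh_coeff' {m n : ℕ} {P : MvPolynomial (Fin 2) k}
    (hP : ∀ s, coeff s P ≠ 0 → s 0 + m * s 1 = n) (s : Fin 2 →₀ ℕ) (hs : s 0 + m * s 1 = n) :
    (dh P).coeff (s 1) = coeff s P := by
  have h1 : IsWeightedHomogeneous ![1, m] P n := by
    intro u hu
    rw [weight_eq]
    simp only [Matrix.cons_val_zero, Matrix.cons_val_one]
    rw [← hP u hu]; ring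
  apply dh_coeff (w := ![1, m]) (D := n) (by simp) h1
  simp only [Matrix.cons_val_zero, Matrix.cons_val_one]
  rw [← hs]; ring

end

section
variable {k : Type*} [Field k] [IsAlgClosed k] [CharZero k]

theorem closed {f g : MvPolynomial (Fin 2) k} {c : k} (hJ : J f g = C c) (hc : c ≠ 0)
    {m a b : ℕ} (hm : 0 < m) (ha : 0 < a) (hab : a < b) (c0 : k) (P Q : MvPolynomial (Fin 2) k)
    (hP : ∀ s, coeff s P ≠ 0 → s 0 + m * s 1 = a + 1)
    (hQ : ∀ s, coeff s Q ≠ 0 → s 0 + m * s 1 = b + 1)
    (hf : f = C c0 + X 0 + P + Q) : Good f g := by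
  classical
  by_contra hgood
  -- the line `x = 0`
  have hline : ∃ i, 2 ≤ i ∧ coeff (e 0 i) f ≠ 0 := by
    by_contra hcon
    push Not at hcon
    exact hgood (line' hJ hc hcon)
  -- no common zero
  have hi : ∀ z, (dh P).eval z ≠ 0 ∨ (dh Q).eval z ≠ 0 := by
    intro z
    by_contra hcon
    push Not at hcon
    obtain ⟨hPz, hQz⟩ := hcon
    apply hgood
    have hqi : ∀ r : MvPolynomial (Fin 2) k, aeval ![X 0, r] (C z * X 0 ^ m) =
        (C z * X 0 ^ m : MvPolynomial (Fin 2) k) := by
      intro r
      simp [MvPolynomial.algebraMap_eq]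
    set σ := triY (C z * X 0 ^ m : MvPolynomial (Fin 2) k) (hqi _) (hqi _) with hσ
    have hσa : ∀ r : MvPolynomial (Fin 2) k, σ r = aeval ![X 0, X 1 + C z * X 0 ^ m] r := fun r => rfl
    apply Good.of_equiv σ
    apply line (c := c) _ hc
    · intro i hi2
      rw [← ev_coeff, hσa]
      have h1 : ∀ r : MvPolynomial (Fin 2) k, ev (aeval ![X 0, X 1 + C z * X 0 ^ m] r) =
          aeval ![Polynomial.X, Polynomial.C z * Polynomial.X ^ m] r := by
        intro r
        have : (ev : MvPolynomial (Fin 2) k →ₐ[k] Polynomial k).comp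
            (aeval ![X 0, X 1 + C z * X 0 ^ m]) =
            aeval ![Polynomial.X, Polynomial.C z * Polynomial.X ^ m] := by
          apply MvPolynomial.algHom_ext
          intro j
          fin_cases j
          · simp [ev]
          · simp [ev]
        exact DFunLike.congr_fun this r
      rw [h1, hf, map_add, map_add, map_add, chart hP, chart hQ]
      have h2 : ∀ p : Polynomial k, Polynomial.aeval (Polynomial.C z) p = Polynomial.C (p.eval z) := by
        intro p
        rw [Polynomial.aeval_def, Polynomial.algebraMap_eq, Polynomial.eval₂_at_apply]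
      rw [h2, h2, hPz, hQz]
      simp only [map_zero, mul_zero, add_zero, aeval_X, Matrix.cons_val_zero]
      rw [algHom_C, Polynomial.algebraMap_eq, Polynomial.coeff_add, Polynomial.coeff_C,
        Polynomial.coeff_X, if_neg (by omega), if_neg (by omega), add_zero]
    · rw [hσa, hσa, J_aeval, hJ]
      have h2 : J (![X 0, X 1 + C z * X 0 ^ m] 0) (![X 0, X 1 + C z * X 0 ^ m] 1 :
          MvPolynomial (Fin 2) k) = 1 := by
        simp only [Matrix.cons_val_zero, Matrix.cons_val_one]
        unfold J
        rw [pderiv_X_self, pderiv_X_of_ne (by decide), map_add, pderiv_X_self, map_add]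
        have h3 : pderiv 1 (C z * X 0 ^ m : MvPolynomial (Fin 2) k) = 0 := by
          rw [Derivation.leibniz, pderiv_C, Derivation.leibniz_pow, pderiv_X_of_ne (by decide)]
          simp
        rw [h3]; ring
      rw [h2, mul_one, algHom_C, MvPolynomial.algebraMap_eq]
  -- condition at infinity
  have hiii : (2 ≤ (dh P).natDegree ∧ m * (dh P).natDegree = a + 1) ∨
      (2 ≤ (dh Q).natDegree ∧ m * (dh Q).natDegree = b + 1) := by
    obtain ⟨i, hi2, hi3⟩ := hline
    have key : ∀ (n : ℕ) (R : MvPolynomial (Fin 2) k), 0 < n →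
        (∀ s, coeff s R ≠ 0 → s 0 + m * s 1 = n) → coeff (e 0 i) R ≠ 0 →
        2 ≤ (dh R).natDegree ∧ m * (dh R).natDegree = n := by
      intro n R hn hR hne
      have h1 := hR _ hne
      have h2 := dh_coeff' hR (e 0 i) h1
      rw [e_zero, e_one] at h1
      rw [e_one] at h2
      rw [← h2] at hne
      have h3 := Polynomial.le_natDegree_of_ne_zero hne
      have h4 := natDegree_dh hn hR
      have h5 := Nat.mul_le_mul_left m h3
      refine ⟨by omega, by omega⟩
    by_cases h1 : coeff (e 0 i) P = 0
    · right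
      apply key _ _ (by omega) hQ
      intro h2
      apply hi3
      rw [hf, coeff_add, coeff_add, coeff_add, h1, h2, coeff_C, coeff_X', if_neg, if_neg]
      · ring
      · intro h; have := DFunLike.congr_fun h 0; simp [e] at this
      · intro h; have := DFunLike.congr_fun h 1; simp [e] at this; omega
    · left
      exact key _ _ (by omega) hP h1
  -- no critical point in the main chart
  have hno : ¬ Crit a b (dh P) (dh Q) := by
    rintro ⟨z, x, hx0, hx1, hx2⟩
    set u : Fin 2 → MvPolynomial (Fin 2) k := ![X 0, X 1 * X 0 ^ m] with hu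
    have h1 := J_aeval u f g
    rw [hJ, algHom_C, MvPolynomial.algebraMap_eq] at h1
    have h2 : J (u 0) (u 1) = X 0 ^ m := by
      simp only [hu, Matrix.cons_val_zero, Matrix.cons_val_one]
      unfold J
      rw [pderiv_X_self, pderiv_X_of_ne (by decide), Derivation.leibniz, pderiv_X_self,
        Derivation.leibniz_pow, pderiv_X_of_ne (by decide)]
      simp
    rw [h2] at h1
    have h3 : aeval u f = C c0 + X 0 + X 0 ^ (a + 1) * Polynomial.aeval (X 1) (dh P) +
        X 0 ^ (b + 1) * Polynomial.aeval (X 1) (dh Q) := by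
      rw [hf, map_add, map_add, map_add, hu, chart hP, chart hQ, algHom_C,
        MvPolynomial.algebraMap_eq, aeval_X]
      simp
    have h4 := congrArg (eval ![x, z]) h1
    have hpe : ∀ p : Polynomial k, eval ![x, z] (Polynomial.aeval (X 1 : MvPolynomial (Fin 2) k) p) =
        p.eval z := by
      intro p
      have := Polynomial.hom_eval₂ p (algebraMap k (MvPolynomial (Fin 2) k)) (eval ![x, z])
        (X 1 : MvPolynomial (Fin 2) k)
      rw [Polynomial.aeval_def, this]
      have h5 : (eval ![x, z]).comp (algebraMap k (MvPolynomial (Fin 2) k)) = RingHom.id k := by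
        ext r
        simp
      rw [h5]
      simp [Polynomial.eval₂_eq_eval_map]
    have hd0 : ∀ p : Polynomial k, pderiv 0 (Polynomial.aeval (X 1 : MvPolynomial (Fin 2) k) p) = 0 := by
      intro p
      rw [Derivation.map_aeval, pderiv_X_of_ne (by decide), smul_zero]
    have hd1 : ∀ p : Polynomial k, pderiv 1 (Polynomial.aeval (X 1 : MvPolynomial (Fin 2) k) p) =
        Polynomial.aeval (X 1) (Polynomial.derivative p) := by
      intro p
      rw [Derivation.map_aeval, pderiv_X_self, smul_eq_mul, mul_one]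
    have e0 : eval ![x, z] (pderiv 0 (aeval u f)) = 0 := by
      rw [h3]
      simp only [map_add, Derivation.leibniz, Derivation.leibniz_pow, hd0, pderiv_C, pderiv_X_self,
        smul_eq_mul, mul_one, mul_zero, zero_add, Nat.add_sub_cancel, nsmul_eq_mul, map_mul, hpe,
        map_natCast, map_pow, eval_X, Matrix.cons_val_zero, map_one, map_zero]
      push_cast
      linear_combination hx2
    have e1 : eval ![x, z] (pderiv 1 (aeval u f)) = 0 := by
      rw [h3]
      have hX : pderiv 1 (X 0 : MvPolynomial (Fin 2) k) = 0 := pderiv_X_of_ne (by decide)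
      simp only [map_add, Derivation.leibniz, Derivation.leibniz_pow, hd1, pderiv_C, hX,
        smul_eq_mul, mul_one, mul_zero, zero_add, add_zero, Nat.add_sub_cancel, nsmul_eq_mul,
        map_mul, hpe, map_natCast, map_pow, eval_X, Matrix.cons_val_zero, map_one, map_zero]
      linear_combination x * hx1
    unfold J at h4
    rw [map_sub, map_mul, map_mul, e0, e1, map_mul, map_pow, eval_C, eval_X] at h4
    simp only [zero_mul, sub_zero, Matrix.cons_val_zero] at h4
    exact mul_ne_zero hc (pow_ne_zero _ hx0) h4.symm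
  obtain ⟨rfl, y, hy0, hy1, hy2⟩ := core hm ha hab (natDegree_dh (by omega) hP)
    (natDegree_dh (by omega) hQ) hi hiii hno
  -- the critical point on `x = 0`
  have h1 := congrArg (eval ![0, y]) hJ
  have q1 := dh_coeff' hP (e 0 (a + 1)) (by simp)
  have q2 := dh_coeff' hQ (e 0 (b + 1)) (by simp)
  have q3 := dh_coeff' hP (e 1 a) (by simp [add_comm])
  have q4 := dh_coeff' hQ (e 1 b) (by simp [add_comm])
  rw [e_one] at q1 q2 q3 q4
  have e0 : eval ![0, y] (pderiv 0 f) = 0 := by
    have h5 : pderiv 0 f = 1 + pderiv 0 P + pderiv 0 Q := by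
      rw [hf, map_add, map_add, map_add, pderiv_C, pderiv_X_self, zero_add]
    rw [h5, map_add, map_add, eval_pderiv_zero hP, eval_pderiv_zero hQ, ← q3, ← q4, map_one]
    linear_combination hy2
  have e1 : eval ![0, y] (pderiv 1 f) = 0 := by
    have h5 : pderiv 1 f = pderiv 1 P + pderiv 1 Q := by
      rw [hf, map_add, map_add, map_add, pderiv_C, pderiv_X_of_ne (by decide), zero_add, zero_add]
    rw [h5, map_add, eval_pderiv_one hP, eval_pderiv_one hQ, ← q1, ← q2]
    linear_combination hy1
  unfold J at h1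
  rw [map_sub, map_mul, map_mul, e0, e1, eval_C] at h1
  apply hc
  rw [← h1]; ring

end

section
variable {k : Type*} [Field k] [CharZero k]

/-- descent from the algebraic closure. -/
theorem good_descent {f g : MvPolynomial (Fin 2) k}
    (h : Good (H922R2.mE k (AlgebraicClosure k) (Fin 2) f)
      (H922R2.mE k (AlgebraicClosure k) (Fin 2) g)) : Good f g := by
  have hr : ∀ {L : Type _} [Field L] (u v : MvPolynomial (Fin 2) L), Set.range ![u, v] = {u, v} := by
    intro L _ u v
    ext x
    simp only [Set.mem_range, Fin.exists_fin_two, Matrix.cons_val_zero, Matrix.cons_val_one,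
      Set.mem_insert_iff, Set.mem_singleton_iff]
    rw [eq_comm (a := u), eq_comm (a := v)]
  have h1 : H922R2.SS (fun i => H922R2.mE k (AlgebraicClosure k) (Fin 2) (![f, g] i)) = ⊤ := by
    have e1 : (fun i => H922R2.mE k (AlgebraicClosure k) (Fin 2) (![f, g] i)) =
        ![H922R2.mE k (AlgebraicClosure k) (Fin 2) f, H922R2.mE k (AlgebraicClosure k) (Fin 2) g] := by
      ext i : 1
      fin_cases i <;> rfl
    rw [e1]
    unfold Good at h
    rw [← hr, Algebra.adjoin_range_eq_range_aeval] at h
    exact h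
  have h2 := H922R2.SS_descent (E := AlgebraicClosure k) ![f, g] h1
  unfold Good
  rw [← hr, Algebra.adjoin_range_eq_range_aeval]
  exact h2

/-- normalised form over any field. -/
theorem normal {f g : MvPolynomial (Fin 2) k} {c : k} (hJ : J f g = C c) (hc : c ≠ 0)
    {m a b : ℕ} (hm : 0 < m) (ha : 0 < a) (hab : a < b) (c0 : k) (P Q : MvPolynomial (Fin 2) k)
    (hP : ∀ s, coeff s P ≠ 0 → s 0 + m * s 1 = a + 1)
    (hQ : ∀ s, coeff s Q ≠ 0 → s 0 + m * s 1 = b + 1)
    (hf : f = C c0 + X 0 + P + Q) : Good f g := by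
  have : CharZero (AlgebraicClosure k) :=
    charZero_of_injective_algebraMap (algebraMap k (AlgebraicClosure k)).injective
  apply good_descent
  have hpd : ∀ (j : Fin 2) (p : MvPolynomial (Fin 2) k),
      pderiv j (H922R2.mE k (AlgebraicClosure k) (Fin 2) p) =
      H922R2.mE k (AlgebraicClosure k) (Fin 2) (pderiv j p) := by
    intro j p
    rw [H922R2.mE, pderiv_map]
  have hco : ∀ (s : Fin 2 →₀ ℕ) (p : MvPolynomial (Fin 2) k),
      coeff s (H922R2.mE k (AlgebraicClosure k) (Fin 2) p) ≠ 0 → coeff s p ≠ 0 := by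
    intro s p h h0
    apply h
    rw [H922R2.mE, coeff_map, h0, map_zero]
  apply closed (c := algebraMap k (AlgebraicClosure k) c) _ _ hm ha hab
    (algebraMap k (AlgebraicClosure k) c0) (H922R2.mE k (AlgebraicClosure k) (Fin 2) P)
    (H922R2.mE k (AlgebraicClosure k) (Fin 2) Q) (fun s hs => hP s (hco s P hs))
    (fun s hs => hQ s (hco s Q hs))
  · rw [hf, H922R2.mE]
    simp
  · unfold J
    rw [hpd, hpd, hpd, hpd, ← map_mul, ← map_mul, ← map_sub]
    have h2 := congrArg (H922R2.mE k (AlgebraicClosure k) (Fin 2)) hJ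
    unfold J at h2
    rw [h2, H922R2.mE, map_C]
  · exact (map_ne_zero _).2 hc

/-- three pieces, `x` present. -/
theorem withX {f g : MvPolynomial (Fin 2) k} {c : k} (hJ : J f g = C c) (hc : c ≠ 0)
    {m a b : ℕ} (hm : 0 < m) (ha : 0 < a) (hab : a < b) (hx : coeff (e 1 0) f ≠ 0)
    (hf : ∀ s, coeff s f ≠ 0 → s ≠ 0 → s 0 + m * s 1 = 1 ∨ s 0 + m * s 1 = a + 1 ∨
      s 0 + m * s 1 = b + 1) : Good f g := by
  classical
  -- the linear form of weight one
  set α := coeff (e 1 0) f with hα
  set β : k := if m = 1 then coeff (e 0 1) f else 0 with hβ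
  set w : Fin 2 → ℕ := ![1, m] with hw
  set P := weightedHomogeneousComponent w (a + 1) f with hPdef
  set Q := weightedHomogeneousComponent w (b + 1) f with hQdef
  have hwt : ∀ s : Fin 2 →₀ ℕ, Finsupp.weight w s = s 0 + m * s 1 := by
    intro s
    rw [weight_eq]
    simp only [hw, Matrix.cons_val_zero, Matrix.cons_val_one]
    ring
  have hX0 : (X 0 : MvPolynomial (Fin 2) k) = monomial (e 1 0) 1 := by rw [X]; simp [e]
  have hX1 : (X 1 : MvPolynomial (Fin 2) k) = monomial (e 0 1) 1 := by rw [X]; simp [e]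
  have hdec : f = C (coeff 0 f) + (C α * X 0 + C β * X 1) + P + Q := by
    ext s
    rw [coeff_add, coeff_add, coeff_add, coeff_add, coeff_C, coeff_C_mul, coeff_C_mul, hX0, hX1,
      coeff_monomial, coeff_monomial, hPdef, hQdef, coeff_weightedHomogeneousComponent,
      coeff_weightedHomogeneousComponent, hwt]
    by_cases h0 : s = 0
    · subst h0
      have n1 : ¬ (e 1 0 = 0) := by intro h; have := DFunLike.congr_fun h 0; simp at this
      have n2 : ¬ (e 0 1 = 0) := by intro h; have := DFunLike.congr_fun h 1; simp at this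
      simp [n1, n2]
    by_cases h1 : s = e 1 0
    · subst h1
      have n1 : ¬ ((0 : Fin 2 →₀ ℕ) = e 1 0) := fun h => h0 h.symm
      have n2 : ¬ (e 0 1 = e 1 0) := by rw [e_inj]; omega
      rw [if_neg n1, if_pos rfl, if_neg n2, if_neg (by simp; omega), if_neg (by simp; omega)]
      simp [hα]
    by_cases h2 : s = e 0 1
    · subst h2
      have n1 : ¬ ((0 : Fin 2 →₀ ℕ) = e 0 1) := fun h => h0 h.symm
      have n2 : ¬ (e 1 0 = e 0 1) := by rw [e_inj]; omega
      rw [if_neg n1, if_neg n2, if_pos rfl]
      simp only [e_zero, e_one, mul_one, zero_add, mul_zero, hβ]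
      by_cases hm1 : m = 1
      · rw [if_pos hm1, if_neg (by omega), if_neg (by omega)]; ring
      · rw [if_neg hm1]
        by_cases h3 : coeff (e 0 1) f = 0
        · rw [h3]; simp
        · rcases hf _ h3 h0 with h4 | h4 | h4
          · simp only [e_zero, e_one, mul_one, zero_add] at h4; exact absurd h4 hm1
          · simp only [e_zero, e_one, mul_one, zero_add] at h4
            rw [if_pos h4, if_neg (by omega)]; ring
          · simp only [e_zero, e_one, mul_one, zero_add] at h4
            rw [if_neg (by omega), if_pos h4]; ring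
    · rw [if_neg (fun h => h0 h.symm), if_neg (fun h => h1 h.symm), if_neg (fun h => h2 h.symm)]
      by_cases h3 : coeff s f = 0
      · rw [h3]; simp
      · rcases hf s h3 h0 with h4 | h4 | h4
        · exfalso
          rcases Nat.eq_zero_or_pos (s 1) with h5 | h5
          · apply h1
            rw [eq_e s, e_inj]
            rw [h5, mul_zero] at h4
            exact ⟨h4, h5⟩
          · apply h2
            rw [eq_e s, e_inj]
            have h6 : 1 * 1 ≤ m * s 1 := Nat.mul_le_mul hm h5
            have h7 : m * s 1 = 1 := by omega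
            have h8 := Nat.eq_one_of_mul_eq_one_left h7
            exact ⟨by omega, h8⟩
        · rw [if_pos h4, if_neg (by omega)]; ring
        · rw [if_neg (by omega), if_pos h4]; ring
  have hPw : IsWeightedHomogeneous w P (a + 1) := weightedHomogeneousComponent_isWeightedHomogeneous _ _
  have hQw : IsWeightedHomogeneous w Q (b + 1) := weightedHomogeneousComponent_isWeightedHomogeneous _ _
  have hCβ : ∀ u v : MvPolynomial (Fin 2) k, aeval ![u, X 1] (C β * X 1) = (C β * X 1 : MvPolynomial (Fin 2) k) := by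
    intro u v
    simp [MvPolynomial.algebraMap_eq]
  set σ := triX α hx (C β * X 1) (hCβ _ 0) (hCβ _ 0) with hσ
  set u : Fin 2 → MvPolynomial (Fin 2) k := ![C α⁻¹ * (X 0 - C β * X 1), X 1] with hu
  have hσa : ∀ r : MvPolynomial (Fin 2) k, σ r = aeval u r := fun r => rfl
  have huw : ∀ i, IsWeightedHomogeneous w (u i) (w i) := by
    intro i
    fin_cases i
    · simp only [hu, hw, Fin.zero_eta, Matrix.cons_val_zero]
      have h1 : IsWeightedHomogeneous w (X 0 : MvPolynomial (Fin 2) k) 1 := by
        have := isWeightedHomogeneous_X k w 0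
        simpa [hw] using this
      have h2 : IsWeightedHomogeneous w (C β * X 1 : MvPolynomial (Fin 2) k) 1 := by
        by_cases hm1 : m = 1
        · have h3 := (isWeightedHomogeneous_C w β).mul (isWeightedHomogeneous_X k w 1)
          simpa [hw, hm1] using h3
        · rw [hβ, if_neg hm1, C_0, zero_mul]
          exact isWeightedHomogeneous_zero k w 1
      have h4 : IsWeightedHomogeneous w (X 0 - C β * X 1 : MvPolynomial (Fin 2) k) 1 := by
        rw [← mem_weightedHomogeneousSubmodule] at h1 h2 ⊢
        exact Submodule.sub_mem _ h1 h2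
      have h5 := (isWeightedHomogeneous_C w α⁻¹).mul h4
      simpa using h5
    · simp only [hu, Fin.mk_one, Matrix.cons_val_one]
      exact isWeightedHomogeneous_X k w 1
  have hJu : J (u 0) (u 1) = C α⁻¹ := by
    simp only [hu, Matrix.cons_val_zero, Matrix.cons_val_one]
    unfold J
    rw [pderiv_X_self, pderiv_X_of_ne (by decide : (1 : Fin 2) ≠ 0), Derivation.leibniz, pderiv_C, map_sub,
      pderiv_X_self, Derivation.leibniz, pderiv_C, pderiv_X_of_ne (by decide : (1 : Fin 2) ≠ 0)]
    simp
  apply Good.of_equiv σ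
  apply normal (c := c * α⁻¹) _ (mul_ne_zero hc (inv_ne_zero hx)) hm ha hab (coeff 0 f) (aeval u P)
    (aeval u Q)
  · intro s hs
    have := aeval_wh hPw u huw hs
    rwa [hwt] at this
  · intro s hs
    have := aeval_wh hQw u huw hs
    rwa [hwt] at this
  · rw [hσa]
    conv_lhs => rw [hdec]
    rw [map_add, map_add, map_add, map_add, map_mul, map_mul, algHom_C, algHom_C, algHom_C, aeval_X,
      aeval_X]
    simp only [hu, Matrix.cons_val_zero, Matrix.cons_val_one, MvPolynomial.algebraMap_eq]
    rw [← mul_assoc, ← C_mul, mul_inv_cancel₀ hx, C_1]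
    ring
  · rw [hσa, hσa, J_aeval, hJ, hJu, algHom_C, MvPolynomial.algebraMap_eq, ← C_mul]

/-- three pieces, arbitrary weights values. -/
theorem withX' {f g : MvPolynomial (Fin 2) k} {c : k} (hJ : J f g = C c) (hc : c ≠ 0)
    {m : ℕ} (a b : ℕ) (hm : 0 < m) (hx : coeff (e 1 0) f ≠ 0)
    (hf : ∀ s, coeff s f ≠ 0 → s ≠ 0 → s 0 + m * s 1 = 1 ∨ s 0 + m * s 1 = a ∨
      s 0 + m * s 1 = b) : Good f g := by
  have hpos : ∀ s : Fin 2 →₀ ℕ, s ≠ 0 → 0 < s 0 + m * s 1 := by
    intro s hs
    by_contra hcon
    apply hs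
    rw [eq_e s]
    have h1 : s 0 = 0 := by omega
    have h2 : m * s 1 = 0 := by omega
    rcases Nat.mul_eq_zero.1 h2 with h3 | h3
    · omega
    · rw [h1, h3]; simp [e]
  -- reorder
  obtain ⟨a', b', ha', hab', h⟩ : ∃ a' b', 0 < a' ∧ a' < b' ∧
      ∀ n : ℕ, 0 < n → (n = 1 ∨ n = a ∨ n = b) → (n = 1 ∨ n = a' + 1 ∨ n = b' + 1) := by
    rcases Nat.lt_trichotomy a b with h | h | h
    · by_cases h2 : 2 ≤ a
      · exact ⟨a - 1, b - 1, by omega, by omega, by omega⟩
      · by_cases h3 : 2 ≤ b
        · exact ⟨b - 1, b, by omega, by omega, by omega⟩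
        · exact ⟨1, 2, by omega, by omega, by omega⟩
    · by_cases h3 : 2 ≤ b
      · exact ⟨b - 1, b, by omega, by omega, by omega⟩
      · exact ⟨1, 2, by omega, by omega, by omega⟩
    · by_cases h2 : 2 ≤ b
      · exact ⟨b - 1, a - 1, by omega, by omega, by omega⟩
      · by_cases h3 : 2 ≤ a
        · exact ⟨a - 1, a, by omega, by omega, by omega⟩
        · exact ⟨1, 2, by omega, by omega, by omega⟩
  exact withX hJ hc hm ha' hab' hx (fun s hs hs0 => h _ (hpos s hs0) (hf s hs hs0))

/-- **Three pieces.** -/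
theorem three_pieces {f g : MvPolynomial (Fin 2) k} {c : k} (hJ : J f g = C c) (hc : c ≠ 0)
    {m : ℕ} (a b : ℕ) (hm : 0 < m) (hx : m = 1 ∨ coeff (e 1 0) f ≠ 0)
    (hf : ∀ s, coeff s f ≠ 0 → s ≠ 0 → s 0 + m * s 1 = 1 ∨ s 0 + m * s 1 = a ∨
      s 0 + m * s 1 = b) : Good f g := by
  by_cases hx0 : coeff (e 1 0) f = 0
  · rcases hx with rfl | hx
    · -- swap
      apply Good.of_equiv sw
      apply withX' (c := -c) (m := 1) _ (neg_ne_zero.2 hc) a b one_pos
      · rw [coeff_sw]
        intro h01
        -- then the Jacobian vanishes at the origin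
        have h1 := congrArg (coeff 0) hJ
        apply hc
        unfold J at h1
        rw [coeff_C, if_pos rfl] at h1
        have hz : ∀ (i : Fin 2), coeff 0 (pderiv i f) = 0 := by
          intro i
          rw [coeff_pderiv]
          fin_cases i
          · have : (0 : Fin 2 →₀ ℕ) + Finsupp.single 0 1 = e 1 0 := by simp [e]
            simp only [Fin.zero_eta]
            rw [this, hx0, zero_mul]
          · have : (0 : Fin 2 →₀ ℕ) + Finsupp.single 1 1 = e 0 1 := by simp [e]
            simp only [Fin.mk_one]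
            rw [this, h01, zero_mul]
        rw [← constantCoeff_eq] at h1
        rw [map_sub, map_mul, map_mul, constantCoeff_eq, hz, hz] at h1
        rw [← h1]; ring
      · intro s hs hs0
        have h2 : coeff (e (s 1) (s 0)) f ≠ 0 := by
          rw [eq_e s, coeff_sw] at hs
          simpa using hs
        have h3 : e (s 1) (s 0) ≠ 0 := by
          intro h
          apply hs0
          have h4 := DFunLike.congr_fun h 0
          have h5 := DFunLike.congr_fun h 1
          rw [eq_e s]
          simp at h4 h5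
          rw [h4, h5]; simp [e]
        have h6 := hf _ h2 h3
        rw [e_zero, e_one] at h6
        omega
      · rw [J_sw, hJ]
        simp [sw]
    · exact absurd hx0 hx
  · exact withX' hJ hc a b hm hx0 hf

end

end Pool.Agent.H928R2.Three
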