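import Pool.Agent.H928R2.PenBase

set_option autoImplicit false
set_option linter.unusedSectionVars false

open MvPolynomial Pool.Agent.H928R2.Inv Pool.Agent.H928R2.Pen

namespace Pool.Agent.H928R2.Tri

/-- automorphisms of the base field act on `K(x, y)` -/
theorem exists_act {k : Type*} [Field k] [CharZero k]
    (σ : AlgebraicClosure k ≃ₐ[k] AlgebraicClosure k) :
    ∃ A : KK (AlgebraicClosure k) →+* KK (AlgebraicClosure k),
      (∀ b : PP (AlgebraicClosure k), A (ιK (AlgebraicClosure k) b) =
        ιK (AlgebraicClosure k)
          (MvPolynomial.map (σ : AlgebraicClosure k →+* AlgebraicClosure k) b)) ∧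
      ∀ z : KK k, A (frM k (AlgebraicClosure k) z) = frM k (AlgebraicClosure k) z := by
  have hσ : Function.Injective (σ : AlgebraicClosure k →+* AlgebraicClosure k) := σ.injective
  have hinj : Function.Injective ((algebraMap (PP (AlgebraicClosure k)) (KK (AlgebraicClosure k))).comp
      (MvPolynomial.map (σ : AlgebraicClosure k →+* AlgebraicClosure k))) :=
    (IsFractionRing.injective (PP (AlgebraicClosure k)) (KK (AlgebraicClosure k))).comp
      (MvPolynomial.map_injective _ hσ)
  let A : KK (AlgebraicClosure k) →+* KK (AlgebraicClosure k) :=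
    IsFractionRing.lift (A := PP (AlgebraicClosure k)) (K := KK (AlgebraicClosure k))
      (L := KK (AlgebraicClosure k)) hinj
  have hA : ∀ b : PP (AlgebraicClosure k), A (ιK (AlgebraicClosure k) b) =
        ιK (AlgebraicClosure k)
          (MvPolynomial.map (σ : AlgebraicClosure k →+* AlgebraicClosure k) b) := by
    intro b
    have h : A (algebraMap (PP (AlgebraicClosure k)) (KK (AlgebraicClosure k)) b) =
      ((algebraMap (PP (AlgebraicClosure k)) (KK (AlgebraicClosure k))).comp
      (MvPolynomial.map (σ : AlgebraicClosure k →+* AlgebraicClosure k))) b :=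
      IsFractionRing.lift_algebraMap hinj b
    exact h
  have hp : ∀ p : PP k, A (frM k (AlgebraicClosure k) (ιK k p)) =
      frM k (AlgebraicClosure k) (ιK k p) := by
    intro p
    rw [frM_ι, hA]
    congr 1
    unfold Pool.Agent.H922R2.mE
    rw [MvPolynomial.map_map]
    have hc : ((σ : AlgebraicClosure k →+* AlgebraicClosure k).comp
        (algebraMap k (AlgebraicClosure k))) = algebraMap k (AlgebraicClosure k) := by
      apply RingHom.ext
      intro c
      exact σ.commutes c
    rw [hc]
  refine ⟨A, hA, fun z => ?_⟩
  obtain ⟨a, b, hb, rfl⟩ := IsFractionRing.div_surjective (A := PP k) z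
  have ha := hp a
  have hb' := hp b
  have e1 : ∀ p : PP k, algebraMap (PP k) (KK k) p = ιK k p := fun p => rfl
  rw [e1, e1, map_div₀, map_div₀, ha, hb']

end Pool.Agent.H928R2.Tri
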