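import Pool.Agent.H928R2.TriCon
import Pool.Agent.H928R2.PenUFD

/-!
# Jacobian pairs with at most three places at infinity: basic facts
-/

set_option autoImplicit false
set_option linter.unusedSectionVars false

open MvPolynomial Pool.Agent.H928R2.Inv Pool.Agent.H928R2.Pen

namespace Pool.Agent.H928R2.Tri

section
variable {k : Type*} [Field k] [CharZero k]

theorem nonconst_of {f g : PP k} (hJ : br f g = 1) : ∀ c, f ≠ C c := by
  rintro c rfl
  rw [br_C_left] at hJ
  exact zero_ne_one hJ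

theorem dd_br (f h : PP k) : dd (pderiv 0 f) (pderiv 1 f) h = br f h := rfl

theorem D2_ι (f h : PP k) : D2 f (ιK k h) = ιK k (br f h) := DK_coe _ _ _

theorem D1_ι (g h : PP k) : D1 g (ιK k h) = ιK k (br h g) := by
  have h1 : dd (-pderiv 0 g) (-pderiv 1 g) h = br h g := by
    rw [dd_apply]
    unfold br
    ring
  rw [← h1]
  exact DK_coe _ _ _

theorem relprime_of {f g : PP k} (hJ : br f g = 1) : IsRelPrime (pderiv 0 f) (pderiv 1 f) := by
  intro d h0 h1
  apply isUnit_of_dvd_one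
  rw [← hJ]
  unfold br
  exact dvd_sub (h0.mul_right _) (h1.mul_right _)

theorem transc_f {f g : PP k} (hJ : br f g = 1) : Transcendental k (ιK k f) :=
  transcK_of_nonconst _ ((ne_C_iff f).1 (nonconst_of hJ))

theorem br_aeval_left (h g : PP k) (γ : Polynomial k) :
    br (Polynomial.aeval h γ) g = Polynomial.aeval h (Polynomial.derivative γ) * br h g := by
  have h1 : ∀ i, pderiv (R := k) i (Polynomial.aeval h γ) =
      Polynomial.aeval h (Polynomial.derivative γ) * pderiv i h := by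
    intro i
    rw [Derivation.map_aeval, smul_eq_mul]
  unfold br
  rw [h1, h1]
  ring

theorem fib_f [IsAlgClosed k] {f g : PP k} (hJ : br f g = 1) :
    Fib (pderiv 0 f) (pderiv 1 f) f := by
  have hf0 : dd (pderiv 0 f) (pderiv 1 f) f = 0 := br_self f
  obtain ⟨h, H⟩ := exists_Fib (relprime_of hJ) f (nonconst_of hJ) hf0
  obtain ⟨γ, hγ⟩ := H.ker f hf0
  have h1 : Polynomial.aeval h (Polynomial.derivative γ) * br h g = 1 := by
    rw [← br_aeval_left, ← hγ, hJ]
  obtain ⟨c, hc, hc'⟩ := (isUnit_iff_C _).1 (IsUnit.of_mul_eq_one _ h1)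
  have h2 : Polynomial.derivative γ = Polynomial.C c := by
    apply aeval_inj H.hc
    rw [hc', Polynomial.aeval_C]
    rfl
  have h3 : γ = Polynomial.C c * Polynomial.X + Polynomial.C (γ.coeff 0) := by
    ext n
    rcases n with _ | n
    · simp
    · have h4 := congrArg (fun p => p.coeff n) h2
      simp only [Polynomial.coeff_derivative, Polynomial.coeff_C] at h4
      rw [Polynomial.coeff_add, Polynomial.coeff_C_mul, Polynomial.coeff_X, Polynomial.coeff_C]
      have hn : ((n : k) + 1) ≠ 0 := Nat.cast_add_one_ne_zero n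
      rcases n with _ | n
      · simp at h4 ⊢
        exact h4
      · rw [if_neg (by omega)] at h4
        rw [if_neg (by omega), if_neg (by omega)]
        have h5 := (mul_eq_zero.1 h4).resolve_right (by exact_mod_cast hn)
        rw [h5]
        ring
  have hfh : f = C c * h + C (γ.coeff 0) := by
    rw [hγ, h3]
    simp only [map_add, map_mul, Polynomial.aeval_C, Polynomial.aeval_X]
    simp
  have hadj : IntermediateField.adjoin k {ιK k f} = IntermediateField.adjoin k {ιK k h} := by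
    have hιf : ιK k f = algebraMap k (KK k) c * ιK k h + algebraMap k (KK k) (γ.coeff 0) := by
      rw [hfh, map_add, map_mul]
      rfl
    apply le_antisymm
    · rw [IntermediateField.adjoin_simple_le_iff, hιf]
      exact add_mem (mul_mem (IntermediateField.algebraMap_mem _ _)
        (IntermediateField.mem_adjoin_simple_self k _)) (IntermediateField.algebraMap_mem _ _)
    · rw [IntermediateField.adjoin_simple_le_iff]
      have hc0 : algebraMap k (KK k) c ≠ 0 := (map_ne_zero _).2 hc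
      have h6 : ιK k h = (ιK k f - algebraMap k (KK k) (γ.coeff 0)) * (algebraMap k (KK k) c)⁻¹ := by
        rw [hιf]
        field_simp
        ring
      rw [h6]
      exact mul_mem (sub_mem (IntermediateField.mem_adjoin_simple_self k _)
        (IntermediateField.algebraMap_mem _ _)) (inv_mem (IntermediateField.algebraMap_mem _ _))
  refine ⟨relprime_of hJ, hf0, nonconst_of hJ, ?_, ?_⟩
  · intro u hu
    obtain ⟨δ, hδ⟩ := H.ker u hu
    refine ⟨δ.comp (Polynomial.C c⁻¹ * (Polynomial.X - Polynomial.C (γ.coeff 0))), ?_⟩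
    have h7 : Polynomial.aeval f (Polynomial.C c⁻¹ * (Polynomial.X - Polynomial.C (γ.coeff 0))) =
        h := by
      simp only [map_mul, map_sub, Polynomial.aeval_C, Polynomial.aeval_X]
      rw [hfh]
      change C c⁻¹ * (C c * h + C (γ.coeff 0) - C (γ.coeff 0)) = h
      rw [add_sub_cancel_right, ← mul_assoc, ← C_mul, inv_mul_cancel₀ hc, C_1, one_mul]
    rw [Polynomial.aeval_comp, h7, hδ]
  · intro x
    rw [H.kerK, hadj]

theorem algCl_f [IsAlgClosed k] {f g : PP k} (hJ : br f g = 1) : AlgCl (EF f) (KK k) :=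
  (fib_f hJ).algCl

theorem D2_ker [IsAlgClosed k] {f g : PP k} (hJ : br f g = 1) (x : KK k) :
    D2 f x = 0 ↔ x ∈ EF f := (fib_f hJ).kerK x

theorem D2_alg [IsAlgClosed k] {f g : PP k} (hJ : br f g = 1) (a : EF f) :
    D2 f (algebraMap (EF f) (KK k) a) = 0 := (D2_ker hJ _).2 a.2

theorem D2_g {f g : PP k} (hJ : br f g = 1) : D2 f (ιK k g) = 1 := by
  rw [D2_ι, hJ, map_one]

theorem D2_f (f : PP k) : D2 f (ιK k f) = 0 := by
  rw [D2_ι, br_self, map_zero]

theorem D1_f {f g : PP k} (hJ : br f g = 1) : D1 g (ιK k f) = 1 := by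
  rw [D1_ι, hJ, map_one]

theorem D1_g (g : PP k) : D1 g (ιK k g) = 0 := by
  rw [D1_ι, br_self, map_zero]

theorem D1_ev {f g : PP k} (hJ : br f g = 1) (γ : Polynomial k) :
    D1 g (ev f γ) = ev f (Polynomial.derivative γ) := by
  rw [ev_apply, D1_ι, br_aeval_left, hJ, mul_one]
  rfl

/-- a derivation whose value at `f` is in `k(f)` preserves `k(f)` -/
theorem der_EF (D : Derivation k (KK k) (KK k)) (f : PP k) (h : D (ιK k f) ∈ EF f) (x : KK k)
    (hx : x ∈ EF f) : D x ∈ EF f := by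
  induction hx using IntermediateField.adjoin_induction with
  | mem x hx =>
    rw [Set.mem_singleton_iff] at hx
    rw [hx]
    exact h
  | algebraMap x => rw [D.map_algebraMap]; exact zero_mem _
  | add x y _ _ hx hy => rw [map_add]; exact add_mem hx hy
  | inv x hx' hx =>
    rw [Derivation.leibniz_inv, smul_eq_mul]
    exact mul_mem (neg_mem (pow_mem (inv_mem hx') 2)) hx
  | mul x y hx' hy' hx hy =>
    rw [Derivation.leibniz, smul_eq_mul, smul_eq_mul]
    exact add_mem (mul_mem hx' hy) (mul_mem hy' hx)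

theorem D1_EF {f g : PP k} (hJ : br f g = 1) (a : EF f) :
    ∃ b : EF f, D1 g (algebraMap (EF f) (KK k) a) = algebraMap (EF f) (KK k) b :=
  ⟨⟨_, der_EF _ f (by rw [D1_f hJ]; exact one_mem _) _ a.2⟩, rfl⟩

theorem ev_inj {f g : PP k} (hJ : br f g = 1) : Function.Injective (ev f) := by
  intro a b hab
  exact aeval_inj (nonconst_of hJ) (iR_inj hab)

theorem ev_ne {f g : PP k} (hJ : br f g = 1) {γ : Polynomial k} (hγ : γ ≠ 0) : ev f γ ≠ 0 :=
  fun h => hγ (ev_inj hJ (h.trans (map_zero _).symm))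

theorem mem_EF_iff {f g : PP k} (hJ : br f g = 1) (x : KK k) :
    x ∈ EF f ↔ ∃ a b : Polynomial k, b ≠ 0 ∧ x = ev f a / ev f b := by
  constructor
  · intro hx
    obtain ⟨a, b, hb, h⟩ := adj_frac f (nonconst_of hJ) x hx
    refine ⟨a, b, hb, ?_⟩
    rw [eq_div_iff (ev_ne hJ hb)]
    exact h
  · rintro ⟨a, b, _, rfl⟩
    exact div_mem (ev_mem f a) (ev_mem f b)

/-- constants of `D1` in `k(f)` -/
theorem D1_const {f g : PP k} (hJ : br f g = 1) (x : KK k) (h : D1 g x = 0)
    (h2 : D2 f x = 0) : ∃ c : k, x = algebraMap k (KK k) c := by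
  -- both partial derivatives vanish
  have e1 : D2 f x = ιK k (pderiv 0 f) * dL 1 x - ιK k (pderiv 1 f) * dL 0 x := DK_apply _ _ _
  have e2 : D1 g x = ιK k (-pderiv 0 g) * dL 1 x - ιK k (-pderiv 1 g) * dL 0 x := DK_apply _ _ _
  rw [h2] at e1
  rw [h] at e2
  have hJ' : ιK k (pderiv 0 f) * ιK k (pderiv 1 g) - ιK k (pderiv 1 f) * ιK k (pderiv 0 g) = 1 := by
    rw [← map_mul, ← map_mul, ← map_sub, ← map_one (ιK k), ← hJ]
    rfl
  rw [map_neg, map_neg] at e2
  apply const_of_dL
  · linear_combination (-(dL 0 x)) * hJ' - ιK k (pderiv 0 g) * e1 - ιK k (pderiv 0 f) * e2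
  · linear_combination (-(dL 1 x)) * hJ' - ιK k (pderiv 1 g) * e1 - ιK k (pderiv 1 f) * e2

/-- a derivation preserving polynomials and `k(f)` preserves `k(f)[x,y]` -/
theorem der_RE (D : Derivation k (KK k) (KK k)) (f : PP k)
    (hD : ∀ p : PP k, D (ιK k p) ∈ RE f) (hE : ∀ x ∈ EF f, D x ∈ EF f) (x : KK k)
    (hx : x ∈ RE f) : D x ∈ RE f := by
  induction hx using Algebra.adjoin_induction with
  | mem x hx =>
    obtain ⟨i, rfl⟩ := hx
    exact hD _
  | algebraMap a =>
    exact (RE f).algebraMap_mem ⟨_, hE _ a.2⟩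
  | add x y _ _ hx hy => rw [map_add]; exact add_mem hx hy
  | mul x y hx' hy' hx hy =>
    rw [Derivation.leibniz, smul_eq_mul, smul_eq_mul]
    exact add_mem (mul_mem hx' hy) (mul_mem hy' hx)

theorem EF_RE (f : PP k) {x : KK k} (hx : x ∈ EF f) : x ∈ RE f :=
  (RE f).algebraMap_mem ⟨x, hx⟩

theorem D1_RE {f g : PP k} (hJ : br f g = 1) (x : KK k) (hx : x ∈ RE f) : D1 g x ∈ RE f := by
  refine der_RE _ f (fun p => ?_) (fun x hx => ?_) x hx
  · rw [D1_ι]
    exact ι_mem_RE _ _
  · exact der_EF _ f (by rw [D1_f hJ]; exact one_mem _) x hx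

theorem D2_RE (f : PP k) (x : KK k) (hx : x ∈ RE f) : D2 f x ∈ RE f := by
  refine der_RE _ f (fun p => ?_) (fun x hx => ?_) x hx
  · rw [D2_ι]
    exact ι_mem_RE _ _
  · exact der_EF _ f (by rw [D2_f]; exact zero_mem _) x hx

theorem hfrac_f (f : PP k) (z : KK k) : ∃ r ∈ RE f, ∃ s ∈ RE f, s ≠ 0 ∧ z * s = r := by
  obtain ⟨P, Q, _, hQ, hz⟩ := exists_reduced z
  exact ⟨ιK k P, ι_mem_RE _ _, ιK k Q, ι_mem_RE _ _, ι_ne hQ, by
    rw [hz, div_mul_cancel₀ _ (ι_ne hQ)]⟩

theorem transc_g [IsAlgClosed k] {f g : PP k} (hJ : br f g = 1) :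
    Transcendental (EF f) (ιK k g) := by
  intro h
  obtain ⟨a, ha⟩ := algCl_f hJ _ h
  have h1 := D2_alg hJ a
  rw [ha, D2_g hJ] at h1
  exact one_ne_zero h1

theorem hfin_f {f g : PP k} (hJ : br f g = 1) (x : KK k) (hx : Transcendental (EF f) x) :
    FiniteDimensional (IntermediateField.adjoin (EF f) {x}) (KK k) :=
  hfin (transc_f hJ) x hx

theorem SR_fin {f g : PP k} (hJ : br f g = 1) : (SR (RE f)).Finite := by
  have hR : (RE f).FG := by
    refine ⟨(Set.finite_range fun i : Fin 2 => ιK k (X i)).toFinset, ?_⟩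
    rw [Set.Finite.coe_toFinset]
    rfl
  have hH : ∀ x : KK k, Transcendental (EF f) x →
      FiniteDimensional (IntermediateField.adjoin (EF f) {x}) (KK k) := hfin_f hJ
  exact SR_finite hH (RE f) hR

/-- a place at infinity: a transcendental generator with a pole -/
theorem SR_pole {f : PP k} {O : ValuationSubring (KK k)}
    (hO : O ∈ SR (RE f)) : ∃ x : KK k, x ∈ RE f ∧ x ∉ O ∧ Transcendental (EF f) x := by
  obtain ⟨hE, x, hx, hxO⟩ := hO
  exact ⟨x, hx, hxO, fun h => hxO (algebraic_mem hE h)⟩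

theorem SR_unif {f g : PP k} (hJ : br f g = 1) {O : ValuationSubring (KK k)}
    (hO : O ∈ SR (RE f)) : ∃ t, IsUnif O t := by
  obtain ⟨x, -, hxO, hx⟩ := SR_pole hO
  exact ((places x hx (hfin_f hJ x hx)).2 O hO.1 hxO).1

theorem SR_resfin {f g : PP k} (hJ : br f g = 1) {O : ValuationSubring (KK k)}
    (hO : O ∈ SR (RE f)) : ∃ n : ℕ, ∀ (m : ℕ) (u : Fin m → KK k), (∀ i, u i ∈ O) →
      (∀ a : Fin m → EF f, ∑ i, algebraMap (EF f) (KK k) (a i) * u i ∈ O.nonunits → a = 0) →
        m ≤ n := by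
  obtain ⟨x, -, hxO, hx⟩ := SR_pole hO
  have hx0 : x ≠ 0 := fun h => hxO (by rw [h]; exact O.zero_mem)
  have hxi : Transcendental (EF f) x⁻¹ := fun h => hx (by simpa using h.inv)
  refine res_fin O hO.1 x⁻¹ (inv_ne_zero hx0) ?_ (hfin_f hJ _ hxi)
  rw [ValuationSubring.mem_nonunits_iff_or]
  right
  rw [inv_inv]
  exact hxO

theorem SR_resalg {f g : PP k} (hJ : br f g = 1) {O : ValuationSubring (KK k)}
    (hO : O ∈ SR (RE f)) (z : KK k) (hz : z ∈ O) :
    ∃ P : Polynomial (EF f), P ≠ 0 ∧ Polynomial.aeval z P ∈ O.nonunits := by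
  obtain ⟨x, -, hxO, hx⟩ := SR_pole hO
  have hx0 : x ≠ 0 := fun h => hxO (by rw [h]; exact O.zero_mem)
  refine res_alg (tr1 (transc_f hJ)) O hO.1 x⁻¹ (inv_ne_zero hx0) ?_ z hz
  rw [ValuationSubring.mem_nonunits_iff_or]
  right
  rw [inv_inv]
  exact hxO

end

end Pool.Agent.H928R2.Tri
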