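import Pool.Agent.H928R2.TriDef

/-!
# A derivation preserving the constants has bounded poles on a place
-/

set_option autoImplicit false

open Polynomial Pool.Agent.H928R2.Inv

namespace Pool.Agent.H928R2.Tri

open IsDedekindDomain IntermediateField

/-- a derivation of `L` preserving `E` has bounded poles on a valuation ring of `L / E` -/
theorem bdd {E L : Type*} [Field E] [CharZero E] [Field L] [Algebra E L] (x : L)
    (hx : Transcendental E x) (hfin : FiniteDimensional (IntermediateField.adjoin E {x}) L)
    (O : ValuationSubring L) (hE : ∀ a : E, algebraMap E L a ∈ O) (hxO : x ∉ O)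
    (D : Derivation ℤ L L) (hDE : ∀ a : E, ∃ b : E, D (algebraMap E L a) = algebraMap E L b) :
    ∃ M : ℕ, ∀ f ∈ O, (x⁻¹) ^ M * D f ∈ O := by
  have hx0 : x ≠ 0 := fun h => hx (by rw [h]; exact isAlgebraic_zero)
  obtain ⟨t, ht⟩ : ∃ t : L, t = x⁻¹ := ⟨_, rfl⟩
  have htt : Transcendental E t := by
    rw [ht]
    exact fun h => hx (by simpa using h.inv)
  have ht0 : t ≠ 0 := by rw [ht]; exact inv_ne_zero hx0
  have hadj : IntermediateField.adjoin E {t} = IntermediateField.adjoin E {x} := by
    apply le_antisymm
    · rw [IntermediateField.adjoin_simple_le_iff, ht]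
      exact inv_mem (IntermediateField.mem_adjoin_simple_self E x)
    · rw [IntermediateField.adjoin_simple_le_iff]
      have h1 : x = t⁻¹ := by rw [ht, inv_inv]
      rw [h1]
      exact inv_mem (IntermediateField.mem_adjoin_simple_self E t)
  rw [← hadj] at hfin
  rw [← ht]
  let algT : Algebra E[X] L := (aeval t : E[X] →ₐ[E] L).toRingHom.toAlgebra
  have halgT : ∀ p : E[X], algebraMap E[X] L p = aeval t p := fun _ => rfl
  let e := RatFunc.algEquivOfTranscendental t htt
  let algR : Algebra (RatFunc E) L :=
    ((algebraMap (IntermediateField.adjoin E {t}) L).comp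
      (e.toRingEquiv : RatFunc E →+* IntermediateField.adjoin E {t})).toAlgebra
  have halgR : ∀ p : RatFunc E, algebraMap (RatFunc E) L p = (e p : L) := fun _ => rfl
  have : IsScalarTower E[X] (RatFunc E) L := IsScalarTower.of_algebraMap_eq (by
    intro p
    rw [halgR, halgT]
    show _ = ((RatFunc.algEquivOfTranscendental t htt) (algebraMap E[X] (RatFunc E) p) : L)
    rw [RatFunc.algEquivOfTranscendental_algebraMap]
    exact aeval_algebraMap_apply L (AdjoinSimple.gen E t) p)
  have : FiniteDimensional (RatFunc E) L :=
    Module.Finite.of_equiv_equiv (A₁ := IntermediateField.adjoin E {t}) (B₁ := L)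
      e.symm.toRingEquiv (RingEquiv.refl L) (by
        ext z
        show ((e (e.symm z) : IntermediateField.adjoin E {t}) : L) = z
        rw [AlgEquiv.apply_symm_apply])
  have : CharZero (RatFunc E) := charZero_of_injective_algebraMap
    (FaithfulSMul.algebraMap_injective E (RatFunc E))
  have hded : IsDedekindDomain (integralClosure E[X] L) :=
    integralClosure.isDedekindDomain E[X] (RatFunc E) L
  have hfrac : IsFractionRing (integralClosure E[X] L) L :=
    integralClosure.isFractionRing_of_finite_extension (RatFunc E) L
  have hfinB : Module.Finite E[X] (integralClosure E[X] L) :=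
    IsIntegralClosure.finite E[X] (RatFunc E) L (integralClosure E[X] L)
  -- the ring `B` lies in every place
  have hEX : ∀ O : ValuationSubring L, (∀ a : E, algebraMap E L a ∈ O) → x ∉ O →
      ∀ p : E[X], algebraMap E[X] L p ∈ O := by
    intro O hE hxO p
    have htO : t ∈ O := by
      rw [ht]
      exact (O.mem_or_inv_mem x).resolve_left hxO
    rw [halgT, aeval_eq_sum_range]
    refine sum_mem fun i _ => ?_
    rw [Algebra.smul_def]
    exact O.mul_mem _ _ (hE _) (pow_mem htO i)
  have hB : ∀ O : ValuationSubring L, (∀ a : E, algebraMap E L a ∈ O) → x ∉ O →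
      ∀ b : integralClosure E[X] L, algebraMap (integralClosure E[X] L) L b ∈ O := by
    intro O hE hxO b
    let g : E[X] →+* O := (algebraMap E[X] L).codRestrict O.toSubring (hEX O hE hxO)
    obtain ⟨p, hp, hpb⟩ : IsIntegral E[X] (b : L) := b.2
    have h1 : IsIntegral O (b : L) := by
      refine ⟨p.map g, hp.map g, ?_⟩
      rw [eval₂_map]
      exact hpb
    obtain ⟨y, hy⟩ := IsIntegrallyClosed.isIntegral_iff.1 h1
    show (b : L) ∈ O
    rw [← hy]
    exact y.2
  have hb0 : (algebraMap E[X] (integralClosure E[X] L) X) ≠ 0 := by
    intro h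
    have h1 := congrArg (algebraMap (integralClosure E[X] L) L) h
    rw [map_zero, ← IsScalarTower.algebraMap_apply, halgT, aeval_X] at h1
    exact ht0 h1
  have hb0L : algebraMap (integralClosure E[X] L) L (algebraMap E[X] (integralClosure E[X] L) X) =
      t := by
    rw [← IsScalarTower.algebraMap_apply, halgT, aeval_X]
  have htn : ∀ O : ValuationSubring L, x ∉ O → t ∈ O.nonunits := by
    intro O hxO
    rw [ValuationSubring.mem_nonunits_iff_or]
    right
    rw [ht, inv_inv]
    exact hxO
  · obtain ⟨v, hv, -⟩ := exists_prime O (hB O hE hxO) _ hb0 (by rw [hb0L]; exact htn O hxO)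
    have hunif : ∃ t, IsUnif O t := by
      rw [hv]
      exact exists_unif v
    · obtain ⟨π, hπ⟩ := hunif
      have htinv : t⁻¹ ∉ O := by rw [ht, inv_inv]; exact hxO
      have htO : t ∈ O := by
        rw [ht]
        exact (O.mem_or_inv_mem x).resolve_left hxO
      obtain ⟨s, hs⟩ := hfinB.fg_top
      have hbd : ∃ M : ℕ, t ^ M * D t ∈ O ∧ ∀ y ∈ s, t ^ M * D (y : L) ∈ O := by
        choose m hm using fun y : L => hπ.exists_pow ht0 htinv (D y)
        refine ⟨max (m t) (s.sup fun y => m (y : L)), ?_, fun y hy => ?_⟩
        · exact hm t _ (le_max_left _ _)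
        · exact hm y _ (le_trans (Finset.le_sup (f := fun y : integralClosure E[X] L => m (y : L)) hy)
            (le_max_right _ _))
      obtain ⟨M, hMt, hMs⟩ := hbd
      have hDp : ∀ p : E[X], t ^ M * D (aeval t p) ∈ O := by
        intro p
        induction p using Polynomial.induction_on' with
        | add p q hp hq =>
          rw [map_add, map_add, mul_add]
          exact O.add_mem _ _ hp hq
        | monomial n a =>
          obtain ⟨a', ha'⟩ := hDE a
          rw [aeval_monomial, Derivation.leibniz, Derivation.leibniz_pow, ha', smul_eq_mul,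
            smul_eq_mul, smul_eq_mul, nsmul_eq_mul]
          have h2 : t ^ M * (algebraMap E L a * ((n : L) * (t ^ (n - 1) * D t)) +
              t ^ n * algebraMap E L a') =
            algebraMap E L a * ((n : L) * (t ^ (n - 1) * (t ^ M * D t))) +
              t ^ M * (t ^ n * algebraMap E L a') := by
            ring
          rw [h2]
          exact O.add_mem _ _ (O.mul_mem _ _ (hE a) (O.mul_mem _ _ (natCast_mem O n)
            (O.mul_mem _ _ (pow_mem htO _) hMt)))
            (O.mul_mem _ _ (pow_mem htO _) (O.mul_mem _ _ (pow_mem htO _) (hE a')))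
      have hDb : ∀ b : integralClosure E[X] L, t ^ M * D (b : L) ∈ O := by
        intro b
        have hb : b ∈ Submodule.span E[X] (s : Set (integralClosure E[X] L)) := by
          rw [hs]; exact Submodule.mem_top
        induction hb using Submodule.span_induction with
        | mem y hy => exact hMs y hy
        | zero =>
          rw [ZeroMemClass.coe_zero, map_zero, mul_zero]
          exact O.zero_mem
        | add y z _ _ hy hz =>
          have h1 : ((y + z : integralClosure E[X] L) : L) = (y : L) + z := rfl
          rw [h1, map_add, mul_add]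
          exact O.add_mem _ _ hy hz
        | smul p y _ hy =>
          have h1 : ((p • y : integralClosure E[X] L) : L) = aeval t p * (y : L) := rfl
          rw [h1, Derivation.leibniz, smul_eq_mul, smul_eq_mul]
          have h2 : t ^ M * (aeval t p * D (y : L) + (y : L) * D (aeval t p)) =
            aeval t p * (t ^ M * D (y : L)) + (y : L) * (t ^ M * D (aeval t p)) := by
            ring
          rw [h2]
          exact O.add_mem _ _ (O.mul_mem _ _ (hEX O hE hxO p) hy)
            (O.mul_mem _ _ (hB O hE hxO y) (hDp p))
      refine ⟨M, fun f hf => ?_⟩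
      rw [hv] at hf
      obtain ⟨a, b, hb, rfl⟩ := hf
      have hbinv : (algebraMap (integralClosure E[X] L) L b)⁻¹ ∈ O := by
        rw [hv]
        exact ⟨1, b, hb, by rw [map_one, one_mul]⟩
      have hb00 : algebraMap (integralClosure E[X] L) L b ≠ 0 := by
        intro h
        have h2 : b = 0 := (IsFractionRing.injective (integralClosure E[X] L) L)
          (by rw [h, map_zero])
        exact hb (by rw [h2]; exact v.asIdeal.zero_mem)
      set f := algebraMap (integralClosure E[X] L) L a *
        (algebraMap (integralClosure E[X] L) L b)⁻¹ with hfdef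
      have hfO : f ∈ O := O.mul_mem _ _ (hB O hE hxO a) hbinv
      have h3 : D f = (D (a : L) - f * D (b : L)) *
          (algebraMap (integralClosure E[X] L) L b)⁻¹ := by
        have h4 : f * (algebraMap (integralClosure E[X] L) L b) = (a : L) := by
          rw [hfdef, inv_mul_cancel_right₀ hb00]
          rfl
        have h5 := congrArg D h4
        rw [Derivation.leibniz, smul_eq_mul, smul_eq_mul] at h5
        rw [eq_mul_inv_iff_mul_eq₀ hb00, ← h5]
        have h6 : D (algebraMap (integralClosure E[X] L) L b) = D (b : L) := rfl
        rw [h6]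
        ring
      show t ^ M * D f ∈ O
      have h7 : t ^ M * D f = (t ^ M * D (a : L) - f * (t ^ M * D (b : L))) *
          (algebraMap (integralClosure E[X] L) L b)⁻¹ := by
        rw [h3]; ring
      rw [h7]
      exact O.mul_mem _ _ (sub_mem (hDb a) (O.mul_mem _ _ hfO (hDb b))) hbinv

end Pool.Agent.H928R2.Tri
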