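import Mathlib

set_option autoImplicit false

namespace Pool.Agent.H928R2.Tri

theorem trace_comm {F L : Type*} [Field F] [Field L] [Algebra F L] [FiniteDimensional F L]
    (D : Derivation ℤ L L) (D' : Derivation ℤ F F)
    (h : ∀ a : F, D (algebraMap F L a) = algebraMap F L (D' a)) (x : L) :
    Algebra.trace F L (D x) = D' (Algebra.trace F L x) := by
  classical
  let b := Module.finBasis F L
  let M : Matrix (Fin (Module.finrank F L)) (Fin (Module.finrank F L)) F :=
    Matrix.of fun i j => b.repr (x * b j) i
  let N : Matrix (Fin (Module.finrank F L)) (Fin (Module.finrank F L)) F :=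
    Matrix.of fun i j => b.repr (D (b j)) i
  have hsmul : ∀ (a : F) (y : L), D (a • y) = a • D y + D' a • y := by
    intro a y
    rw [Algebra.smul_def, Derivation.leibniz, h, smul_eq_mul, smul_eq_mul, Algebra.smul_def,
      Algebra.smul_def]
    ring
  have key : ∀ k j, b.repr (D x * b j) k = D' (M k j) + ((N * M) k j - (M * N) k j) := by
    intro k j
    have h1 : x * b j = ∑ i, M i j • b i := (b.sum_repr (x * b j)).symm
    have h2 : D (x * b j) = x * D (b j) + D x * b j := by
      rw [Derivation.leibniz, smul_eq_mul, smul_eq_mul]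
      ring
    have h3 : D (x * b j) = ∑ i, (M i j • D (b i) + D' (M i j) • b i) := by
      rw [h1, map_sum]
      exact Finset.sum_congr rfl fun i _ => hsmul _ _
    have h4 : x * D (b j) = ∑ l, N l j • (x * b l) := by
      have : D (b j) = ∑ l, N l j • b l := (b.sum_repr (D (b j))).symm
      rw [this, Finset.mul_sum]
      refine Finset.sum_congr rfl fun l _ => ?_
      rw [mul_smul_comm]
    have h5 : D x * b j = ∑ i, (M i j • D (b i) + D' (M i j) • b i) - ∑ l, N l j • (x * b l) := by
      rw [← h3, ← h4, h2]
      ring
    rw [h5, map_sub, map_sum, map_sum, Finsupp.sub_apply, Finsupp.finsetSum_apply,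
      Finsupp.finsetSum_apply]
    simp only [map_add, map_smul, Finsupp.add_apply, Finsupp.smul_apply, smul_eq_mul,
      Finset.sum_add_distrib]
    have h6 : ∑ i, M i j * (b.repr (D (b i))) k = (N * M) k j := by
      rw [Matrix.mul_apply]
      refine Finset.sum_congr rfl fun i _ => ?_
      rw [mul_comm]
      rfl
    have h7 : ∑ i, D' (M i j) * (b.repr (b i)) k = D' (M k j) := by
      rw [Finset.sum_eq_single k]
      · rw [b.repr_self, Finsupp.single_eq_same, mul_one]
      · intro i _ hik
        rw [b.repr_self, Finsupp.single_eq_of_ne (Ne.symm hik), mul_zero]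
      · intro hk
        exact absurd (Finset.mem_univ k) hk
    have h8 : ∑ l, N l j * (b.repr (x * b l)) k = (M * N) k j := by
      rw [Matrix.mul_apply]
      refine Finset.sum_congr rfl fun l _ => ?_
      rw [mul_comm]
      rfl
    rw [h6, h7, h8]
    ring
  have ht : ∀ y : L, Algebra.trace F L y = ∑ k, b.repr (y * b k) k := by
    intro y
    rw [Algebra.trace_eq_matrix_trace b, Matrix.trace]
    refine Finset.sum_congr rfl fun k _ => ?_
    rw [Matrix.diag_apply, Algebra.leftMulMatrix_eq_repr_mul]
  rw [ht, ht, Finset.sum_congr rfl fun k _ => key k k, Finset.sum_add_distrib, map_sum,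
    Finset.sum_sub_distrib]
  have h9 : ∑ k, (N * M) k k = ∑ k, (M * N) k k := Matrix.trace_mul_comm N M
  rw [h9, sub_self, add_zero]
  rfl

end Pool.Agent.H928R2.Tri
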