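import Pool.Agent.H928R2.TriExp
import Pool.Agent.H928R2.TriTrace

set_option autoImplicit false

open Polynomial Pool.Agent.H928R2.Inv

namespace Pool.Agent.H928R2.Tri

/-- the restriction of a derivation to a subfield which it preserves -/
theorem exists_restrict {E L : Type*} [Field E] [Field L] [Algebra E L]
    (F : IntermediateField E L) (D : Derivation ℤ L L) (f : F → F) (hf : ∀ x : F, (f x : L) = D x) :
    ∃ D' : Derivation ℤ F F, ∀ x, D' x = f x := by
  have hadd : ∀ x y : F, f (x + y) = f x + f y := by
    intro x y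
    apply Subtype.ext
    rw [hf]
    push_cast
    rw [map_add, hf, hf]
  refine ⟨Derivation.mk' ((AddMonoidHom.mk' f hadd).toIntLinearMap) ?_, fun x => rfl⟩
  intro x y
  apply Subtype.ext
  show ((f (x * y) : F) : L) = ((x • f y + y • f x : F) : L)
  rw [hf]
  push_cast
  rw [Derivation.leibniz, smul_eq_mul, smul_eq_mul]
  simp only [smul_eq_mul]
  push_cast
  rw [hf, hf]

/-- the linear form given by a coefficient of the trace, with its behaviour under derivations -/
theorem exists_coeff_form {E L : Type*} [Field E] [CharZero E] [Field L] [Algebra E L] (g : L)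
    (hg : Transcendental E g) (hfin : FiniteDimensional (IntermediateField.adjoin E {g}) L) :
    ∃ ι : IntermediateField.adjoin E {g} →+* LaurentSeries E,
      (∀ a : E, ι (algebraMap E (IntermediateField.adjoin E {g}) a) = HahnSeries.C a) ∧
      ι (IntermediateField.AdjoinSimple.gen E g) = HahnSeries.single (-1) 1 ∧
      (∀ (D : Derivation ℤ L L) (δ : E → E) (η θ : E),
        (∀ a, D (algebraMap E L a) = algebraMap E L (δ a)) →
        D g = algebraMap E L η * g + algebraMap E L θ →
        ∀ (x : L) (n : ℤ),
          (ι (Algebra.trace (IntermediateField.adjoin E {g}) L (D x))).coeff n =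
            δ ((ι (Algebra.trace (IntermediateField.adjoin E {g}) L x)).coeff n) -
            n * η * (ι (Algebra.trace (IntermediateField.adjoin E {g}) L x)).coeff n -
            (n - 1) * θ * (ι (Algebra.trace (IntermediateField.adjoin E {g}) L x)).coeff (n - 1)) ∧
      ∀ n : ℤ, ∃ ρ : L →ₗ[E] E, ∀ x, ρ x =
        (ι (Algebra.trace (IntermediateField.adjoin E {g}) L x)).coeff n := by
  obtain ⟨ι, h1, h2, h3⟩ := exists_exp g hg
  refine ⟨ι, h1, h2, ?_, ?_⟩
  · intro D δ η θ hD hDg x n
    choose f hf hfc using h3 D δ η θ hD hDg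
    obtain ⟨D', hD'⟩ := exists_restrict (IntermediateField.adjoin E {g}) D f hf
    have h := trace_comm D D' (fun a => by
      rw [hD' a]
      exact (hf a).symm) x
    rw [h, hD']
    exact hfc _ n
  · intro n
    refine ⟨{ toFun := fun x => (ι (Algebra.trace (IntermediateField.adjoin E {g}) L x)).coeff n
              map_add' := fun x y => by rw [map_add, map_add, HahnSeries.coeff_add]
              map_smul' := fun a x => ?_ }, fun x => rfl⟩
    have e : a • x = (algebraMap E (IntermediateField.adjoin E {g}) a) • x := by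
      rw [algebraMap_smul]
    rw [e, map_smul, smul_eq_mul, map_mul, h1, HahnSeries.C_mul_eq_smul]
    rfl

theorem exists_c0 {E L : Type*} [Field E] [CharZero E] [Field L] [Algebra E L] (g : L)
    (hg : Transcendental E g) (hfin : FiniteDimensional (IntermediateField.adjoin E {g}) L) :
    ∃ c : L →ₗ[E] E, c 1 = 1 ∧ ∀ (D : Derivation ℤ L L) (η : E),
      (∀ a : E, ∃ b : E, D (algebraMap E L a) = algebraMap E L b) →
      D g = algebraMap E L η * g → ∀ x, algebraMap E L (c (D x)) = D (algebraMap E L (c x)) := by
  obtain ⟨ι, h1, h2, h3, h4⟩ := exists_coeff_form g hg hfin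
  obtain ⟨ρ, hρ⟩ := h4 0
  set n := Module.finrank (IntermediateField.adjoin E {g}) L with hn
  have hn0 : (n : E) ≠ 0 := by
    have : 0 < n := Module.finrank_pos
    exact_mod_cast this.ne'
  refine ⟨(n : E)⁻¹ • ρ, ?_, ?_⟩
  · rw [LinearMap.smul_apply, hρ]
    have e1 : Algebra.trace (IntermediateField.adjoin E {g}) L 1 =
        algebraMap E (IntermediateField.adjoin E {g}) (n : E) := by
      have := Algebra.trace_algebraMap (R := IntermediateField.adjoin E {g}) (S := L) 1
      rw [map_one] at this
      rw [this, ← hn, nsmul_eq_mul, mul_one, map_natCast]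
    rw [e1, h1, HahnSeries.C_apply, HahnSeries.coeff_single_same, smul_eq_mul,
      inv_mul_cancel₀ hn0]
  · intro D η hDE hDg x
    choose δ hδ using hDE
    have h5 := h3 D δ η 0 hδ (by rw [map_zero, add_zero]; exact hDg) x 0
    rw [Int.cast_zero, zero_mul, zero_mul, sub_zero, mul_zero, zero_mul, sub_zero] at h5
    rw [LinearMap.smul_apply, LinearMap.smul_apply, hρ, hρ, h5, smul_eq_mul, smul_eq_mul, map_mul,
      map_mul, ← hδ, Derivation.leibniz, map_inv₀, map_natCast]
    have e2 : D ((n : L)⁻¹) = 0 := by
      rw [Derivation.leibniz_inv, Derivation.map_natCast, smul_zero]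
    rw [e2, smul_zero, add_zero, smul_eq_mul]

end Pool.Agent.H928R2.Tri
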