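import Pool.Agent.H928R2.TriQ

/-!
# A place with a finite value of `g`: the constants of the derivation are the coefficients
-/

set_option autoImplicit false
set_option linter.unusedSectionVars false

open MvPolynomial Pool.Agent.H928R2.Inv Pool.Agent.H928R2.Pen

namespace Pool.Agent.H928R2.Tri

/-- a place with a finite value of `g` -/
theorem caseM1 {E M : Type*} [Field E] [CharZero E] [Field M] [CharZero M] [Algebra E M] (g : M)
    (hg : Transcendental E g)
    (hfin : FiniteDimensional (IntermediateField.adjoin E {g}) M)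
    (D : Derivation ℤ M M) (hDE : ∀ a : E, D (algebraMap E M a) = 0) (hDg : D g = g)
    (hker : ∀ x : M, D x = 0 → ∃ a : E, algebraMap E M a = x)
    (R : Subalgebra E M) (hDR : ∀ x ∈ R, D x ∈ R)
    (t : ValuationSubring M → M) (ht : ∀ O ∈ SR R, IsUnif O (t O))
    (hVfin : ∀ N, Module.Finite E (Pen.P1.VN R t N))
    (hVN : ∀ x ∈ R, ∃ N, x ∈ Pen.P1.VN R t N)
    (hlog : ∀ O ∈ SR R, LogAt O D)
    (O : ValuationSubring M) (hO : O ∈ SR R) (hgO : g ∉ O)
    (hres : ∀ f ∈ O, ∃ P : Polynomial E, P ≠ 0 ∧ Polynomial.aeval f P ∈ O.nonunits)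
    (O1 : ValuationSubring M) (hO1 : O1 ∈ SR R) (hg1 : g ∈ O1) :
    ∃ y ∈ R, ∃ a n : ℕ, 0 < a ∧ 0 < n ∧ ∃ e : E, e ≠ 0 ∧
      y ^ n * g ^ a = algebraMap E M e := by
  obtain ⟨c, hc1, hc⟩ := exists_c0 g hg hfin
  have hcD := hc D 1 (fun a => ⟨0, by rw [hDE, map_zero]⟩) (by rw [map_one, one_mul, hDg])
  have hVV : ∀ N, ∀ y ∈ Pen.P1.VN R t N, D y ∈ Pen.P1.VN R t N :=
    fun N y hy => log_VN R t ht D hDR hlog N y hy
  obtain ⟨x, hx, hxO⟩ := hO1.2
  obtain ⟨N, hN⟩ := hVN x hx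
  have hspan := span_of_exists D c hc1 hcD (Set.range (fun q : ℚ => (q : E)))
    (fun W hW hW0 hWD => exists_eig O hO.1 (t O) (ht O hO) hres D hDE (hlog O hO) g hgO hDg
      W hW hW0 hWD) (Pen.P1.VN R t N) (hVfin N) (hVV N)
  obtain ⟨z, hzV, hzO, q, hq⟩ : ∃ z ∈ Pen.P1.VN R t N, z ∉ O1 ∧
      ∃ q : ℚ, D z = algebraMap E M (q : E) * z := by
    by_contra hcon
    push Not at hcon
    apply hxO
    have h1 : Submodule.span E {z | z ∈ Pen.P1.VN R t N ∧
        ∃ μ ∈ Set.range (fun q : ℚ => (q : E)), D z = algebraMap E M μ * z} ≤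
        Pen.P1.MO O1 hO1.1 := by
      rw [Submodule.span_le]
      rintro z ⟨hz, _, ⟨q, rfl⟩, hμ⟩
      by_contra hzO
      exact hcon z hz hzO q hμ
    exact h1 (hspan hN)
  have hz0 : z ≠ 0 := fun h => hzO (by rw [h]; exact O1.zero_mem)
  have hg0 : g ≠ 0 := fun h => hgO (by rw [h]; exact O.zero_mem)
  have hn : 0 < q.den := q.pos
  have hqM : ((q.den : ℕ) : M) * (q : M) = ((q.num : ℤ) : M) := by
    have h1 : (q.den : ℚ) * q = q.num := by
      rw [mul_comm]
      exact Rat.mul_den_eq_num q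
    exact_mod_cast congrArg (fun r : ℚ => (r : M)) h1
  have hw : D (z ^ (q.den : ℤ) * g ^ (-q.num)) = 0 := by
    rw [D.leibniz, tri_leibniz_zpow D z hz0, tri_leibniz_zpow D g hg0, hDg, div_self hg0, hq,
      mul_div_assoc, div_self hz0, map_ratCast, smul_eq_mul, smul_eq_mul,
      Int.cast_natCast, Int.cast_neg]
    linear_combination (z ^ (q.den : ℤ) * g ^ (-q.num)) * hqM
  obtain ⟨e, he⟩ := hker _ hw
  have he0 : e ≠ 0 := by
    rintro rfl
    rw [map_zero] at he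
    exact mul_ne_zero (zpow_ne_zero _ hz0) (zpow_ne_zero _ hg0) he.symm
  have hznot : z ^ q.den ∉ O1 := by
    intro h1
    rcases O1.mem_or_inv_mem z with h3 | h3
    · exact hzO h3
    · apply hzO
      obtain ⟨m, hm⟩ : ∃ m, q.den = m + 1 := ⟨q.den - 1, by omega⟩
      rw [hm] at h1
      have h4 : z = z ^ (m + 1) * z⁻¹ ^ m := by
        rw [pow_succ, inv_pow]
        field_simp
      rw [h4]
      exact mul_mem h1 (pow_mem h3 m)
  rcases lt_or_ge q.num 0 with hm | hm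
  · obtain ⟨a, ha⟩ : ∃ a : ℕ, -q.num = (a : ℤ) := ⟨(-q.num).toNat, by omega⟩
    refine ⟨z, hzV.1, a, q.den, by omega, hn, e, he0, ?_⟩
    rw [he, ha, zpow_natCast, zpow_natCast]
  · exfalso
    apply hznot
    obtain ⟨a, ha⟩ : ∃ a : ℕ, q.num = (a : ℤ) := ⟨q.num.toNat, by omega⟩
    have h1 : z ^ q.den = algebraMap E M e * g ^ a := by
      rw [he, ha, zpow_neg, zpow_natCast, zpow_natCast, mul_assoc, inv_mul_cancel₀
        (pow_ne_zero _ hg0), mul_one]
    rw [h1]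
    exact mul_mem (hO1.1 e) (pow_mem hg1 a)

end Pool.Agent.H928R2.Tri
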