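import Pool.Agent.H928R2.TriQ

/-!
# All places have a pole: the ring is a polynomial ring
-/

set_option autoImplicit false
set_option linter.unusedSectionVars false

open MvPolynomial Pool.Agent.H928R2.Inv Pool.Agent.H928R2.Pen

namespace Pool.Agent.H928R2.Tri

theorem caseN_prim {E : Type*} [Field E] [CharZero E] (p : Polynomial E) :
    ∃ q : Polynomial E, Polynomial.derivative q = p := by
  induction p using Polynomial.induction_on' with
  | add p q hp hq =>
    obtain ⟨a, ha⟩ := hp
    obtain ⟨b, hb⟩ := hq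
    exact ⟨a + b, by rw [Polynomial.derivative_add, ha, hb]⟩
  | monomial n a =>
    refine ⟨Polynomial.monomial (n + 1) (a / ((n : E) + 1)), ?_⟩
    rw [Polynomial.derivative_monomial]
    have h : ((n : E) + 1) ≠ 0 := by
      exact_mod_cast Nat.succ_ne_zero n
    simp only [Nat.add_sub_cancel]
    congr 1
    push_cast
    field_simp

/-- logarithmic derivatives are small -/
theorem caseN_small {E M : Type*} [Field E] [Field M] [Algebra E M] (g : M)
    (D : Derivation ℤ M M) (t : M) (O : ValuationSubring M) (ht : IsUnif O t)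
    (hlog : LogAt O (g • D)) (hpole : g ∉ O) (z : M) (hz : z ≠ 0) : D z / z ∈ O.nonunits := by
  have h1 := tri_logdiv (E := E) O t ht (g • D) hlog z hz
  have hg0 : g ≠ 0 := fun h => hpole (by rw [h]; exact O.zero_mem)
  have h2 : g⁻¹ ∈ O.nonunits := by
    rw [ValuationSubring.mem_nonunits_iff_or]
    right
    rw [inv_inv]
    exact hpole
  have h3 : D z / z = g⁻¹ * ((g • D) z / z) := by
    rw [Derivation.smul_apply, smul_eq_mul]
    field_simp
  rw [h3]
  exact nonunits_mul h2 h1

/-- all places have a pole of `g` -/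
theorem caseN {E M : Type*} [Field E] [CharZero E] [Field M] [CharZero M] [Algebra E M] (g : M)
    (hfin : FiniteDimensional (IntermediateField.adjoin E {g}) M)
    (D : Derivation ℤ M M) (hDE : ∀ a : E, D (algebraMap E M a) = 0) (hDg : D g = 1)
    (hker : ∀ x : M, D x = 0 → ∃ a : E, algebraMap E M a = x)
    (R : Subalgebra E M) (hgR : g ∈ R)
    (hR : ∀ x : M, (∃ p : Polynomial M, p.Monic ∧ (∀ i, p.coeff i ∈ R.toSubring) ∧
      p.eval x = 0) → x ∈ R.toSubring)
    (hDR : ∀ x ∈ R, D x ∈ R) (t : ValuationSubring M → M) (ht : ∀ O ∈ SR R, IsUnif O (t O))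
    (hVfin : ∀ N, Module.Finite E (Pen.P1.VN R t N))
    (hVN : ∀ x ∈ R, ∃ N, x ∈ Pen.P1.VN R t N)
    (hlog : ∀ O ∈ SR R, LogAt O (g • D)) (hpole : ∀ O ∈ SR R, g ∉ O)
    (O : ValuationSubring M) (hO : O ∈ SR R) :
    ∀ x : M, x ∈ IntermediateField.adjoin E {g} := by
  -- step 1
  have h1 : ∀ W : Submodule E M, Module.Finite E W → W ≠ ⊥ → (∀ x ∈ W, D x ∈ W) →
      ∃ z ∈ W, z ≠ 0 ∧ D z = 0 := by
    intro W hW hW0 hWD
    obtain ⟨z, hz, hz0, hmax⟩ := exists_max_order O hO.1 (t O) (ht O hO) W hW hW0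
    exact ⟨z, hz, hz0, hmax _ (hWD z hz)
      (caseN_small (E := E) g D (t O) O (ht O hO) (hlog O hO) (hpole O hO) z hz0)⟩
  -- step 2
  have h2 : ∀ (n : ℕ) (V : Submodule E M), Module.Finite E V → (∀ x ∈ V, D x ∈ V) →
      Module.finrank E V = n → ∀ v ∈ V, v ∈ (Polynomial.aeval g : Polynomial E →ₐ[E] M).range := by
    intro n
    induction n using Nat.strong_induction_on with
    | _ n ih =>
    intro V hV hVD hn v hv
    by_cases hV0 : V = ⊥
    · rw [hV0, Submodule.mem_bot] at hv
      rw [hv]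
      exact zero_mem _
    obtain ⟨z, hz, hz0, hDz⟩ := h1 V hV hV0 hVD
    let φ : V →ₗ[E] M := ((triD D hDE : Derivation E M M) : M →ₗ[E] M).domRestrict V
    have hφ : ∀ x : V, φ x = D x := fun _ => rfl
    have hrn := LinearMap.finrank_range_add_finrank_ker φ
    have hker0 : 0 < Module.finrank E (LinearMap.ker φ) := by
      refine (Module.finrank_pos_iff_exists_ne_zero (R := E) (M := LinearMap.ker φ)).mpr ?_
      refine ⟨⟨⟨z, hz⟩, ?_⟩, ?_⟩
      · rw [LinearMap.mem_ker, hφ]
        exact hDz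
      · intro h
        apply hz0
        have := congrArg (fun y : LinearMap.ker φ => ((y : V) : M)) h
        exact this
    have hlt : Module.finrank E (LinearMap.range φ) < n := by omega
    have hW := ih _ hlt (LinearMap.range φ) inferInstance (by
      rintro x ⟨y, rfl⟩
      rw [hφ]
      exact ⟨⟨D y, hVD _ y.2⟩, rfl⟩) rfl (D v) ⟨⟨v, hv⟩, rfl⟩
    obtain ⟨p, hp⟩ := hW
    obtain ⟨q, hq⟩ := caseN_prim p
    have hp' : Polynomial.aeval g p = D v := hp
    have h3 : D (Polynomial.aeval g q) = D v := by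
      have h4 := Derivation.map_aeval (triD D hDE) q g
      rw [hq, hp'] at h4
      have h5 : triD D hDE g = 1 := hDg
      rw [h5, smul_eq_mul, mul_one] at h4
      exact h4
    obtain ⟨a, ha⟩ := hker (v - Polynomial.aeval g q) (by rw [map_sub, h3, sub_self])
    have h6 : v = algebraMap E M a + Polynomial.aeval g q := by rw [ha]; ring
    rw [h6]
    exact add_mem (Subalgebra.algebraMap_mem _ a) ⟨q, rfl⟩
  -- step 3
  have h3 : ∀ x ∈ R, x ∈ (Polynomial.aeval g : Polynomial E →ₐ[E] M).range := by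
    intro x hx
    obtain ⟨N, hN⟩ := hVN x hx
    refine h2 _ (Pen.P1.VN R t N) (hVfin N) ?_ rfl x hN
    intro y hy
    have h4 := log_VN R t ht (g • D) (fun z hz => R.mul_mem hgR (hDR z hz)) hlog N y hy
    refine ⟨hDR y hy.1, fun O' hO' => ?_⟩
    have hg0 : g ≠ 0 := fun h => hpole O' hO' (by rw [h]; exact O'.zero_mem)
    have hgi : g⁻¹ ∈ O' := (O'.mem_or_inv_mem g).resolve_left (hpole O' hO')
    have h5 : t O' ^ N * D y = g⁻¹ * (t O' ^ N * (g • D) y) := by
      rw [Derivation.smul_apply, smul_eq_mul]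
      field_simp
    rw [h5]
    exact O'.mul_mem _ _ hgi (h4.2 O' hO')
  -- step 4
  intro x
  have hAR : ∀ y ∈ Algebra.adjoin E {g}, y ∈ R := by
    intro y hy
    exact (Algebra.adjoin_le (by simpa using hgR) : Algebra.adjoin E {g} ≤ R) hy
  have hK : IsAlgebraic (IntermediateField.adjoin E {g}) x := Algebra.IsAlgebraic.isAlgebraic x
  have hAlg : IsAlgebraic (Algebra.adjoin E {g}) x := by
    open IntermediateField.algebraAdjoinAdjoin in
    exact (IsFractionRing.isAlgebraic_iff (Algebra.adjoin E {g})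
      (IntermediateField.adjoin E {g}) M).mpr hK
  obtain ⟨y, hy0, hyi⟩ := hAlg.exists_integral_multiple
  obtain ⟨p, hp, hpe⟩ := hyi
  have hmem : y • x ∈ R.toSubring := by
    refine hR _ ⟨p.map (algebraMap (Algebra.adjoin E {g}) M), hp.map _, ?_, ?_⟩
    · intro i
      rw [Polynomial.coeff_map]
      exact hAR _ (p.coeff i).2
    · rw [Polynomial.eval_map]
      exact hpe
  have hmem2 : y • x ∈ (Polynomial.aeval g : Polynomial E →ₐ[E] M).range := h3 _ hmem
  have hle : (Polynomial.aeval g : Polynomial E →ₐ[E] M).range ≤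
      (IntermediateField.adjoin E {g}).toSubalgebra := by
    rw [← Algebra.adjoin_singleton_eq_range_aeval]
    exact IntermediateField.algebra_adjoin_le_adjoin E {g}
  have hmem3 : (y : M) * x ∈ IntermediateField.adjoin E {g} := hle hmem2
  have hy1 : (y : M) ∈ IntermediateField.adjoin E {g} :=
    IntermediateField.algebra_adjoin_le_adjoin E {g} y.2
  have hy2 : (y : M) ≠ 0 := fun h => hy0 (Subtype.ext h)
  have hx : x = (y : M) * x / (y : M) := by field_simp
  rw [hx]
  exact div_mem hmem3 hy1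

end Pool.Agent.H928R2.Tri
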