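import Pool.Agent.H928R2.TriDef
import Pool.Agent.H928R2.FolDef

/-!
# Jacobian pairs with at most three places at infinity: concrete definitions
-/

set_option autoImplicit false
set_option linter.unusedSectionVars false

open MvPolynomial Pool.Agent.H928R2.Inv Pool.Agent.H928R2.Pen

namespace Pool.Agent.H928R2.Tri

/-- a derivation as a derivation over the integers -/
noncomputable def toZ {k L : Type*} [Field k] [Field L] [Algebra k L] (D : Derivation k L L) :
    Derivation ℤ L L := D.restrictScalars ℤ

theorem toZ_apply {k L : Type*} [Field k] [Field L] [Algebra k L] (D : Derivation k L L) (x : L) :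
    toZ D x = D x := rfl

section
variable {k : Type*} [Field k] [CharZero k]

/-- the field `k(f)` -/
noncomputable abbrev EF (f : PP k) : IntermediateField k (KK k) :=
  IntermediateField.adjoin k {ιK k f}

/-- polynomials in `f` -/
noncomputable def ev (f : PP k) : Polynomial k →+* KK k :=
  ((ιK k : PP k →ₐ[k] KK k) : PP k →+* KK k).comp
    ((Polynomial.aeval f : Polynomial k →ₐ[k] PP k) : Polynomial k →+* PP k)

theorem ev_apply (f : PP k) (γ : Polynomial k) : ev f γ = ιK k (Polynomial.aeval f γ) := rfl

theorem ev_eq (f : PP k) (γ : Polynomial k) : ev f γ = Polynomial.aeval (ιK k f) γ := by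
  rw [ev_apply, Polynomial.aeval_algHom_apply]

theorem ev_mem (f : PP k) (γ : Polynomial k) : ev f γ ∈ EF f := by
  rw [ev_eq]
  have h1 : Polynomial.aeval (ιK k f) γ =
      ((Polynomial.aeval (⟨ιK k f, IntermediateField.mem_adjoin_simple_self k _⟩ : EF f) γ : EF f) :
        KK k) := by
    rw [← IntermediateField.coe_val, ← Polynomial.aeval_algHom_apply]
    rfl
  rw [h1]
  exact SetLike.coe_mem _

/-- the derivation `J(f, ·)` -/
noncomputable def D2 (f : PP k) : Derivation k (KK k) (KK k) := DK (pderiv 0 f) (pderiv 1 f)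

/-- the derivation `J(·, g)` -/
noncomputable def D1 (g : PP k) : Derivation k (KK k) (KK k) := DK (-pderiv 0 g) (-pderiv 1 g)

/-- the derivation `D` with `D f = 2`, `D g = (P'(f)/P(f)) g` -/
noncomputable def DT (f g : PP k) (P : Polynomial k) : Derivation k (KK k) (KK k) :=
  (2 : KK k) • D1 g + (ev f (Polynomial.derivative P) / ev f P * ιK k g) • D2 f

/-- the constant `g² / P(f)` -/
noncomputable def jj (f g : PP k) (P : Polynomial k) : KK k := ιK k g ^ 2 / ev f P

/-- the situation of the main case -/
structure Core (f g : PP k) (P : Polynomial k) (O : ValuationSubring (KK k)) : Prop where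
  hJ : br f g = 1
  hP : P ≠ 0
  mem : O ∈ SR (RE f)
  pole : ιK k g ∉ O
  res : ∀ z ∈ O, ∃ a : EF f, z - algebraMap (EF f) (KK k) a ∈ O.nonunits
  fin : ∀ O' ∈ SR (RE f), O' ≠ O → ιK k g ∈ O' ∧ ιK k g ^ 2 - ev f P ∈ O'.nonunits

end

end Pool.Agent.H928R2.Tri
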