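import Pool.Agent.H928R2.TriDef

/-! # Darboux elements and a nonconstant first integral (helper594) -/

set_option autoImplicit false

open Polynomial Pool.Agent.H928R2.Inv

namespace Pool.Agent.H928R2.Tri

namespace TC

theorem nonunits_sub {L : Type*} [Field L] {O : ValuationSubring L} {a b : L}
    (ha : a ∈ O.nonunits) (hb : b ∈ O.nonunits) : a - b ∈ O.nonunits := by
  rw [ValuationSubring.mem_nonunits_iff] at ha hb ⊢
  exact (O.valuation.map_sub a b).trans_lt (max_lt ha hb)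

theorem zpow_mem' {L : Type*} [Field L] {O : ValuationSubring L} {u : L} (hu : u ∈ O)
    (hui : u⁻¹ ∈ O) (n : ℤ) : u ^ n ∈ O := by
  rcases Int.eq_nat_or_neg n with ⟨k, rfl | rfl⟩
  · rw [zpow_natCast]; exact pow_mem hu k
  · rw [zpow_neg, zpow_natCast, ← inv_pow]; exact pow_mem hui k

theorem D_zpow_const {L : Type*} [Field L] (D : Derivation ℤ L L) {j : L} (hj : D j = 0)
    (n : ℤ) : D (j ^ n) = 0 := by
  rcases Int.eq_nat_or_neg n with ⟨k, rfl | rfl⟩
  · rw [zpow_natCast, D.leibniz_pow, hj]; simp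
  · rw [zpow_neg, zpow_natCast, D.leibniz_inv, D.leibniz_pow, hj]; simp

theorem D_div {L : Type*} [Field L] (D : Derivation ℤ L L) (a b : L) (hb : b ≠ 0) :
    D (a / b) = (b * D a - a * D b) / b ^ 2 := by
  rw [div_eq_mul_inv, D.leibniz, D.leibniz_inv]
  simp only [smul_eq_mul]
  field_simp
  ring

end TC

open TC in
theorem darboux_const {E L : Type*} [Field E] [CharZero E] [Field L] [Algebra E L]
    (O : ValuationSubring L) (hE : ∀ a : E, algebraMap E L a ∈ O) (t : L) (ht : IsUnif O t)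
    (hres : ∀ z ∈ O, ∃ a : E, z - algebraMap E L a ∈ O.nonunits)
    (D : Derivation ℤ L L) (hDE : ∀ a : E, ∃ b : E, D (algebraMap E L a) = algebraMap E L b)
    (hlog : LogAt O D) (j : L) (hj : D j = 0) (hjO : j ∉ O) :
    ∃ M : ℕ, 0 < M ∧ ∀ z : L, z ≠ 0 → (∃ μ : E, D z = algebraMap E L μ * z) →
      ∃ s : E, s ≠ 0 ∧ D (z ^ M / algebraMap E L s) = 0 := by
  have hj0 : j ≠ 0 := by
    rintro rfl
    exact hjO O.zero_mem
  obtain ⟨k, u0, hu0, hu0i, hjk⟩ := ht.fac j hj0
  have hk : k < 0 := by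
    by_contra hcon
    apply hjO
    rw [hjk]
    exact mem_of_unit_mul hu0 ht.mem _ (by omega)
  obtain ⟨M, hM⟩ : ∃ M : ℕ, (M : ℤ) = -k := ⟨(-k).toNat, Int.toNat_of_nonneg (by omega)⟩
  refine ⟨M, by omega, fun z hz hμ => ?_⟩
  obtain ⟨μ, hμ⟩ := hμ
  obtain ⟨n, u1, hu1, hu1i, hzn⟩ := ht.fac z hz
  have hu00 : u0 ≠ 0 := by
    rintro rfl
    exact hj0 (by rw [hjk, zero_mul])
  have hu10 : u1 ≠ 0 := by
    rintro rfl
    exact hz (by rw [hzn, zero_mul])
  set ψ := z ^ M * j ^ n with hψ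
  have hψ0 : ψ ≠ 0 := mul_ne_zero (pow_ne_zero _ hz) (zpow_ne_zero _ hj0)
  have hψu : ψ = u1 ^ M * u0 ^ n := by
    have e1 : (t ^ n) ^ M * (t ^ k) ^ n = 1 := by
      rw [← zpow_natCast, ← zpow_mul, ← zpow_mul, ← zpow_add₀ ht.ne, hM]
      have : n * -k + k * n = 0 := by ring
      rw [this, zpow_zero]
    calc ψ = (u1 ^ M * u0 ^ n) * ((t ^ n) ^ M * (t ^ k) ^ n) := by
          rw [hψ]
          nth_rewrite 1 [hzn]
          rw [hjk, mul_pow, mul_zpow]
          ring
      _ = u1 ^ M * u0 ^ n := by rw [e1, mul_one]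
  have hψO : ψ ∈ O := by
    rw [hψu]
    exact O.mul_mem _ _ (pow_mem hu1 M) (zpow_mem' hu0 hu0i n)
  have hψi : ψ⁻¹ ∈ O := by
    rw [hψu, mul_inv, ← inv_pow, ← zpow_neg]
    exact O.mul_mem _ _ (pow_mem hu1i M) (zpow_mem' hu0 hu0i (-n))
  have hDj := D_zpow_const D hj n
  have hDz : D (z ^ M) = (M : L) * algebraMap E L μ * z ^ M := by
    rw [D.leibniz_pow, hμ]
    have hM0 : M = (M - 1) + 1 := by omega
    simp only [smul_eq_mul, nsmul_eq_mul]
    conv_rhs => rw [hM0]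
    rw [pow_succ]
    rw [← hM0]
    ring
  have hDψ : D ψ = (M : L) * algebraMap E L μ * ψ := by
    rw [hψ, D.leibniz, hDj, hDz]
    simp only [smul_eq_mul]
    ring
  obtain ⟨s, hs⟩ := hres ψ hψO
  have hs0 : s ≠ 0 := by
    rintro rfl
    rw [map_zero, sub_zero] at hs
    exact notMem_nonunits_of_inv hψ0 hψi hs
  obtain ⟨b, hb⟩ := hDE s
  have h1 : D (ψ - algebraMap E L s) ∈ O.nonunits := hlog.non _ hs
  rw [map_sub, hDψ, hb] at h1
  have h2 : (ψ - algebraMap E L s) * algebraMap E L ((M : E) * μ) ∈ O.nonunits :=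
    nonunits_mul hs (hE _)
  have h3 := nonunits_sub h1 h2
  have h4 : (M : L) * algebraMap E L μ * ψ - algebraMap E L b -
      (ψ - algebraMap E L s) * algebraMap E L ((M : E) * μ) =
      algebraMap E L ((M : E) * μ * s - b) := by
    simp only [map_sub, map_mul, map_natCast]
    ring
  rw [h4] at h3
  have h5 : (M : E) * μ * s - b = 0 := by
    by_contra hne
    exact const_notMem_nonunits hE hne h3
  have h6 : D (algebraMap E L s) = (M : L) * algebraMap E L μ * algebraMap E L s := by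
    rw [hb, ← sub_eq_zero.1 h5]
    simp only [map_mul, map_natCast]
  have hsL : algebraMap E L s ≠ 0 := (map_ne_zero (algebraMap E L)).2 hs0
  refine ⟨s, hs0, ?_⟩
  rw [D_div D _ _ hsL, hDz, h6]
  have : algebraMap E L s * ((M : L) * algebraMap E L μ * z ^ M) -
      z ^ M * ((M : L) * algebraMap E L μ * algebraMap E L s) = 0 := by ring
  rw [this, zero_div]

end Pool.Agent.H928R2.Tri
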