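import Pool.Agent.H928R2.TriCon

set_option autoImplicit false
set_option linter.unusedSectionVars false

open MvPolynomial Pool.Agent.H928R2.Inv Pool.Agent.H928R2.Pen

namespace Pool.Agent.H928R2.Tri

theorem TriNormal_add {L : Type*} [Field L] {O : ValuationSubring L} {x y : L}
    (hx : x ∈ O.nonunits) (hy : y ∈ O.nonunits) : x + y ∈ O.nonunits := by
  rw [ValuationSubring.mem_nonunits_iff] at hx hy ⊢
  exact Valuation.map_add_lt _ hx hy

theorem TriNormal_neg {L : Type*} [Field L] {O : ValuationSubring L} {x : L}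
    (hx : x ∈ O.nonunits) : -x ∈ O.nonunits := by
  rw [ValuationSubring.mem_nonunits_iff] at hx ⊢
  rwa [Valuation.map_neg]

theorem TriNormal_one {L : Type*} [Field L] {O : ValuationSubring L} : (1 : L) ∉ O.nonunits :=
  notMem_nonunits_of_inv one_ne_zero (by rw [inv_one]; exact O.one_mem)

/-- first step: a generator with a pole -/
theorem TriNormal_gen {k : Type*} [Field k]
    {E : Type*} [Field E] {L : Type*} [Field L] [Algebra k E] [Algebra E L]
    [Algebra k L] [IsScalarTower k E L]
    (D : Derivation ℤ L L) (hEk : ∀ e : E, D (algebraMap E L e) = 0 → ∃ c : k, algebraMap k E c = e)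
    (y : L) (hy : ∀ z : L, D z = 0 ↔ z ∈ IntermediateField.adjoin k {y})
    (hyc : ∀ c : k, y ≠ algebraMap k L c)
    (O : ValuationSubring L) (hE : ∀ a : E, algebraMap E L a ∈ O)
    (hres : ∀ z ∈ O, ∃ a : E, z - algebraMap E L a ∈ O.nonunits) (hlog : LogAt O D)
    (hDE : ∀ a : E, ∃ b : E, D (algebraMap E L a) = algebraMap E L b) :
    ∃ φ : L, IntermediateField.adjoin k {φ} = IntermediateField.adjoin k {y} ∧ φ ∉ O := by
  by_cases hyO : y ∈ O
  swap
  · exact ⟨y, rfl, hyO⟩
  obtain ⟨e, he⟩ := hres y hyO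
  have hDy : D y = 0 := (hy y).2 (IntermediateField.mem_adjoin_simple_self k y)
  obtain ⟨b, hb⟩ := hDE e
  have h1 : algebraMap E L b ∈ O.nonunits := by
    have h2 := hlog.non _ he
    rw [map_sub, hDy, zero_sub, hb] at h2
    have h3 := TriNormal_neg h2
    rwa [neg_neg] at h3
  have hb0 : b = 0 := by
    by_contra hcon
    exact const_notMem_nonunits hE hcon h1
  rw [hb0, map_zero] at hb
  obtain ⟨c, hc⟩ := hEk e hb
  have hce : algebraMap E L e = algebraMap k L c := by
    rw [← hc, ← IsScalarTower.algebraMap_apply]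
  rw [hce] at he
  have hne : y - algebraMap k L c ≠ 0 := sub_ne_zero.2 (hyc c)
  refine ⟨(y - algebraMap k L c)⁻¹, ?_, fun h => notMem_nonunits_of_inv hne h he⟩
  apply le_antisymm
  · rw [IntermediateField.adjoin_simple_le_iff]
    exact inv_mem (sub_mem (IntermediateField.mem_adjoin_simple_self k y)
      (IntermediateField.algebraMap_mem _ c))
  · rw [IntermediateField.adjoin_simple_le_iff]
    have h3 : y = ((y - algebraMap k L c)⁻¹)⁻¹ + algebraMap k L c := by
      rw [inv_inv]; ring
    have h4 : ((y - algebraMap k L c)⁻¹)⁻¹ + algebraMap k L c ∈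
        IntermediateField.adjoin k {(y - algebraMap k L c)⁻¹} :=
      add_mem (inv_mem (IntermediateField.mem_adjoin_simple_self k _))
        (IntermediateField.algebraMap_mem _ c)
    rwa [← h3] at h4

theorem normal_phi {k : Type*} [Field k] [CharZero k] [IsAlgClosed k]
    {E : Type*} [Field E] [CharZero E] {L : Type*} [Field L] [Algebra k E] [Algebra E L]
    [Algebra k L] [IsScalarTower k E L] (hcl : AlgCl E L)
    (D : Derivation ℤ L L) (hEk : ∀ e : E, D (algebraMap E L e) = 0 → ∃ c : k, algebraMap k E c = e)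
    (y : L) (hy : ∀ z : L, D z = 0 ↔ z ∈ IntermediateField.adjoin k {y})
    (hyc : ∀ c : k, y ≠ algebraMap k L c)
    (O : ValuationSubring L) (hE : ∀ a : E, algebraMap E L a ∈ O)
    (hres : ∀ z ∈ O, ∃ a : E, z - algebraMap E L a ∈ O.nonunits) (hlog : LogAt O D)
    (hDE : ∀ a : E, ∃ b : E, D (algebraMap E L a) = algebraMap E L b)
    (j : L) (hDj : D j = 0)
    (hjuniq : ∀ O' : ValuationSubring L, (∀ a : E, algebraMap E L a ∈ O') → j ∉ O' → O' = O)
    (hjO : j ∉ O) :
    ∃ φ : L, (∀ z : L, D z = 0 ↔ z ∈ IntermediateField.adjoin k {φ}) ∧ φ ∉ O ∧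
      ∃ Q : Polynomial k, 0 < Q.natDegree ∧ Polynomial.aeval φ Q = j := by
  classical
  obtain ⟨φ, hφ, hφO⟩ := TriNormal_gen D hEk y hy hyc O hE hres hlog hDE
  have hk : ∀ O' : ValuationSubring L, (∀ a : E, algebraMap E L a ∈ O') →
      ∀ a : k, algebraMap k L a ∈ O' := by
    intro O' h a
    rw [IsScalarTower.algebraMap_apply k E L]
    exact h _
  have htE : Transcendental E φ := fun h => hφO (algebraic_mem hE h)
  have htk : Transcendental k φ := fun h => hφO (algebraic_mem (hk O hE) h)
  refine ⟨φ, fun z => by rw [hy, hφ], hφO, ?_⟩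
  have hj0 : j ≠ 0 := by
    rintro rfl
    exact hjO O.zero_mem
  have hjm : j ∈ IntermediateField.adjoin k {φ} := by
    rw [hφ]
    exact (hy j).1 hDj
  obtain ⟨r, s, hrs⟩ := (IntermediateField.mem_adjoin_simple_iff k j).1 hjm
  have hs : s ≠ 0 := by
    rintro rfl
    rw [map_zero, div_zero] at hrs
    exact hj0 hrs
  obtain ⟨g, a, b, hg, hr, hs', hco⟩ := reduced_rep r s hs
  have hg0 : Polynomial.aeval φ g ≠ 0 := fun h => hg ((transcendental_iff.1 htk) g h)
  have hb0' : b ≠ 0 := by
    rintro rfl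
    exact hs (by rw [hs', mul_zero])
  have hb0 : Polynomial.aeval φ b ≠ 0 := fun h => hb0' ((transcendental_iff.1 htk) b h)
  have hjab : j * Polynomial.aeval φ b = Polynomial.aeval φ a := by
    rw [hrs, hr, hs', map_mul, map_mul]
    field_simp
  have hdeg : b.natDegree = 0 := by
    by_contra hcon
    obtain ⟨β, hβ⟩ := IsAlgClosed.exists_root b (fun h => hcon (Polynomial.natDegree_eq_of_degree_eq_some h))
    have htb : Transcendental E (φ - algebraMap k L β) := by
      intro h
      apply htE
      have h1 : IsAlgebraic E (algebraMap k L β) := by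
        rw [IsScalarTower.algebraMap_apply k E L]
        exact isAlgebraic_algebraMap _
      have h2 := h.add h1
      rwa [sub_add_cancel] at h2
    have hti : Transcendental E (φ - algebraMap k L β)⁻¹ := by
      intro h
      apply htb
      have h1 := h.inv
      rwa [inv_inv] at h1
    obtain ⟨O', hO'E, hO'⟩ := exists_place _ hti
    have hnu : φ - algebraMap k L β ∈ O'.nonunits := by
      rw [ValuationSubring.mem_nonunits_iff_or]
      exact Or.inr hO'
    have hkO' := hk O' hO'E
    have hφO' : φ ∈ O' := by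
      have := O'.add_mem _ _ (nonunits_mem hnu) (hkO' β)
      rwa [sub_add_cancel] at this
    have hbnu : Polynomial.aeval φ b ∈ O'.nonunits := by
      obtain ⟨b', hb'⟩ := Polynomial.dvd_iff_isRoot.2 hβ
      rw [hb', map_mul, map_sub, Polynomial.aeval_X, Polynomial.aeval_C]
      exact nonunits_mul hnu (aeval_mem hkO' hφO' b')
    have hjO' : j ∉ O' := by
      intro hj
      have hanu : Polynomial.aeval φ a ∈ O'.nonunits := by
        rw [← hjab, mul_comm]
        exact nonunits_mul hbnu hj
      obtain ⟨u, v, huv⟩ := hco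
      have h1 := congrArg (Polynomial.aeval φ) huv
      rw [map_add, map_mul, map_mul, map_one] at h1
      apply TriNormal_one (O := O')
      rw [← h1]
      apply TriNormal_add
      · rw [mul_comm]; exact nonunits_mul hanu (aeval_mem hkO' hφO' u)
      · rw [mul_comm]; exact nonunits_mul hbnu (aeval_mem hkO' hφO' v)
    have := hjuniq O' hO'E hjO'
    rw [this] at hφO'
    exact hφO hφO'
  rw [Polynomial.eq_C_of_natDegree_eq_zero hdeg] at hb0' hjab
  set c0 := b.coeff 0 with hc0
  have hc0' : c0 ≠ 0 := fun h => hb0' (by rw [h, map_zero])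
  have hQ : Polynomial.aeval φ (Polynomial.C c0⁻¹ * a) = j := by
    rw [map_mul, Polynomial.aeval_C, ← hjab, Polynomial.aeval_C, map_inv₀]
    have : algebraMap k L c0 ≠ 0 := (map_ne_zero (algebraMap k L)).2 hc0'
    field_simp
  refine ⟨Polynomial.C c0⁻¹ * a, ?_, hQ⟩
  by_contra hcon
  have h0 : (Polynomial.C c0⁻¹ * a).natDegree = 0 := by omega
  rw [Polynomial.eq_C_of_natDegree_eq_zero h0, Polynomial.aeval_C] at hQ
  apply hjO
  rw [← hQ]
  exact hk O hE _

end Pool.Agent.H928R2.Tri
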