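import Pool.Agent.H928R2.TriCon

/-!
# The field of constants of a derivation with a nonconstant constant
-/

set_option autoImplicit false
set_option linter.unusedSectionVars false

open MvPolynomial Pool.Agent.H928R2.Inv Pool.Agent.H928R2.Pen

namespace Pool.Agent.H928R2.Tri

theorem der_eq {k : Type*} [Field k] [CharZero k]
    (D : Derivation k (KK k) (KK k)) (z : KK k) :
    D z = D (ιK k (X 0)) * dL 0 z + D (ιK k (X 1)) * dL 1 z := by
  have hpoly : ∀ p : PP k, D (ιK k p) =
      D (ιK k (X 0)) * dL 0 (ιK k p) + D (ιK k (X 1)) * dL 1 (ιK k p) := by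
    intro p
    induction p using MvPolynomial.induction_on with
    | C a =>
      have h1 : ιK k (C a) = algebraMap k (KK k) a := AlgHom.commutes (ιK k) a
      rw [h1, Derivation.map_algebraMap, Derivation.map_algebraMap, Derivation.map_algebraMap,
        mul_zero, mul_zero, add_zero]
    | add p q hp hq =>
      rw [map_add, map_add, map_add, map_add, hp, hq]
      ring
    | mul_X p i hp =>
      rw [map_mul, Derivation.leibniz, Derivation.leibniz, Derivation.leibniz, hp]
      simp only [smul_eq_mul]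
      have h01 : dL (k := k) (0 : Fin 2) (ιK k (X 0)) = 1 := by
        rw [dL_ι, pderiv_X_self, map_one]
      have h11 : dL (k := k) (1 : Fin 2) (ιK k (X 1)) = 1 := by
        rw [dL_ι, pderiv_X_self, map_one]
      have h00 : dL (k := k) (0 : Fin 2) (ιK k (X 1)) = 0 := by
        rw [dL_ι, pderiv_X_of_ne (by decide), map_zero]
      have h10 : dL (k := k) (1 : Fin 2) (ιK k (X 0)) = 0 := by
        rw [dL_ι, pderiv_X_of_ne (by decide), map_zero]
      have hi : i = 0 ∨ i = 1 := by fin_cases i <;> simp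
      rcases hi with rfl | rfl
      · rw [h01, h10]
        ring
      · rw [h00, h11]
        ring
  obtain ⟨P, Q, -, hQ, rfl⟩ := exists_reduced z
  have hq := ι_ne hQ
  have h1 : (ιK k P / ιK k Q) * ιK k Q = ιK k P := div_mul_cancel₀ _ hq
  have e0 := congrArg D h1
  have e1 := congrArg (dL (k := k) (0 : Fin 2)) h1
  have e2 := congrArg (dL (k := k) (1 : Fin 2)) h1
  rw [Derivation.leibniz] at e0 e1 e2
  simp only [smul_eq_mul] at e0 e1 e2
  rw [hpoly P, hpoly Q] at e0
  apply mul_left_cancel₀ hq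
  linear_combination e0 - D (ιK k (X 0)) * e1 - D (ιK k (X 1)) * e2

theorem exists_phi {k : Type*} [Field k] [CharZero k] [IsAlgClosed k]
    (D : Derivation k (KK k) (KK k)) (hD : D ≠ 0) (j : KK k)
    (hj : ∀ c : k, j ≠ algebraMap k (KK k) c) (hDj : D j = 0) :
    ∃ y : KK k, (∀ z : KK k, D z = 0 ↔ z ∈ IntermediateField.adjoin k {y}) ∧
      ∀ c : k, y ≠ algebraMap k (KK k) c := by
  obtain ⟨A, B, hco, hAB⟩ := exists_prim j
  obtain ⟨y, hy, hyc⟩ := exists_y hco j hj hAB
  refine ⟨y, fun z => ?_, hyc⟩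
  rw [← hy]
  obtain ⟨r, hr0, hr1⟩ := exists_ratio hco j hAB
  have hr : r ≠ 0 := by
    rintro rfl
    rw [zero_mul] at hr0 hr1
    obtain ⟨c, hc⟩ := const_of_dL j hr0 hr1
    exact hj c hc
  have h1 := der_eq D j
  rw [hDj, hr0, hr1] at h1
  have h2 : D (ιK k (X 0)) * ιK k A + D (ιK k (X 1)) * ιK k B = 0 := by
    apply mul_left_cancel₀ hr
    rw [mul_zero]
    linear_combination -h1
  have hne : ¬ (D (ιK k (X 0)) = 0 ∧ D (ιK k (X 1)) = 0) := by
    rintro ⟨h3, h4⟩
    apply hD
    ext w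
    rw [der_eq D w, h3, h4, zero_mul, zero_mul, add_zero]
    rfl
  have key : ∃ s : KK k, s ≠ 0 ∧ D (ιK k (X 0)) = s * (-ιK k B) ∧ D (ιK k (X 1)) = s * ιK k A := by
    rcases relprime_ne hco with hA | hB
    · have ha := ι_ne hA
      have e1 : D (ιK k (X 1)) = D (ιK k (X 1)) / ιK k A * ιK k A := (div_mul_cancel₀ _ ha).symm
      have e0 : D (ιK k (X 0)) = D (ιK k (X 1)) / ιK k A * (-ιK k B) := by
        field_simp
        linear_combination h2
      refine ⟨D (ιK k (X 1)) / ιK k A, ?_, e0, e1⟩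
      intro hs
      rw [hs, zero_mul] at e0 e1
      exact hne ⟨e0, e1⟩
    · have hb := ι_ne hB
      have e0 : D (ιK k (X 0)) = (-(D (ιK k (X 0)) / ιK k B)) * (-ιK k B) := by
        field_simp
      have e1 : D (ιK k (X 1)) = (-(D (ιK k (X 0)) / ιK k B)) * ιK k A := by
        field_simp
        linear_combination h2
      refine ⟨-(D (ιK k (X 0)) / ιK k B), ?_, e0, e1⟩
      intro hs
      rw [hs, zero_mul] at e0 e1
      exact hne ⟨e0, e1⟩
  obtain ⟨s, hs, e0, e1⟩ := key
  have h3 : D z = s * DK A B z := by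
    rw [der_eq D z, DK_apply, e0, e1]
    ring
  rw [h3, mul_eq_zero]
  exact ⟨fun h => h.resolve_left hs, Or.inr⟩

end Pool.Agent.H928R2.Tri
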