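import Pool.Agent.H928R2.TriCon
import Pool.Agent.H928R2.PenUFD

/-! Task H18 (helper477): a reducible fibre. -/

set_option autoImplicit false
set_option linter.unusedSectionVars false

open MvPolynomial Pool.Agent.H928R2.Inv Pool.Agent.H928R2.Pen

namespace Pool.Agent.H928R2.Tri

namespace TriRed

variable {k : Type*} [Field k] [CharZero k]

theorem sq_dvd (p r g : PP k) : p ∣ br (p * p * r) g := by
  unfold br
  simp only [Derivation.leibniz, smul_eq_mul]
  exact ⟨(2 * r * pderiv 0 p + p * pderiv 0 r) * pderiv 1 g -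
    (2 * r * pderiv 1 p + p * pderiv 1 r) * pderiv 0 g, by ring⟩

theorem br_sub_C (f g : PP k) (c : k) : br (f - C c) g = br f g := by
  unfold br
  simp only [map_sub, pderiv_C, sub_zero]

theorem not_sq {f g : PP k} (hJ : br f g = 1) (c : k) {p r : PP k} (hp : Prime p)
    (h : f - C c = p * p * r) : False := by
  have h1 := sq_dvd p r g
  rw [← h, br_sub_C, hJ] at h1
  exact hp.not_unit (isUnit_of_dvd_one h1)

theorem not_unit {h : PP k} (hc : ∀ c, h ≠ C c) (b : k) : ¬ IsUnit (h - C b) := by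
  intro hu
  obtain ⟨c, _, hc'⟩ := (isUnit_iff_C _).1 hu
  apply hc (c + b)
  rw [C_add, ← hc']
  ring

theorem exists_prime {s : PP k} (hs : ¬ IsUnit s) (h0 : s ≠ 0) : ∃ p : PP k, Prime p ∧ p ∣ s := by
  obtain ⟨p, hp, hd⟩ := WfDvdMonoid.exists_irreducible_factor hs h0
  exact ⟨p, UniqueFactorizationMonoid.irreducible_iff_prime.1 hp, hd⟩

/-- if all the fibres are irreducible, divisors of polynomials in `f` are polynomials in `f` -/
theorem divisors [IsAlgClosed k] {f : PP k} (hall : ∀ c, Prime (f - C c)) (n : ℕ) :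
    ∀ (δ : Polynomial k), δ ≠ 0 → δ.natDegree = n → ∀ b : PP k, b ∣ Polynomial.aeval f δ →
      ∃ ε : Polynomial k, b = Polynomial.aeval f ε := by
  induction n with
  | zero =>
    intro δ hδ hn b hb
    obtain ⟨a, rfl⟩ := Polynomial.natDegree_eq_zero.1 hn
    have ha : a ≠ 0 := by
      rintro rfl
      exact hδ (map_zero _)
    rw [Polynomial.aeval_C] at hb
    obtain ⟨c, -, hc⟩ := (isUnit_iff_C _).1 (isUnit_of_dvd_C ha hb)
    refine ⟨Polynomial.C c, ?_⟩
    rw [Polynomial.aeval_C]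
    exact hc
  | succ n ih =>
    intro δ hδ hn b hb
    obtain ⟨r, hr⟩ := IsAlgClosed.exists_root δ (by
      rw [Polynomial.degree_eq_natDegree hδ, hn]
      exact_mod_cast Nat.succ_ne_zero n)
    obtain ⟨δ', rfl⟩ := Polynomial.dvd_iff_isRoot.2 hr
    have hδ' : δ' ≠ 0 := right_ne_zero_of_mul hδ
    have hn' : δ'.natDegree = n := by
      rw [Polynomial.natDegree_mul (Polynomial.X_sub_C_ne_zero r) hδ',
        Polynomial.natDegree_X_sub_C] at hn
      omega
    have e1 : Polynomial.aeval f ((Polynomial.X - Polynomial.C r) * δ') =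
        (f - C r) * Polynomial.aeval f δ' := by
      rw [map_mul, map_sub, Polynomial.aeval_X, Polynomial.aeval_C]
      rfl
    rw [e1] at hb
    by_cases hP : (f - C r) ∣ b
    · obtain ⟨b1, rfl⟩ := hP
      have hb1 : b1 ∣ Polynomial.aeval f δ' := (mul_dvd_mul_iff_left (hall r).ne_zero).1 hb
      obtain ⟨ε, hε⟩ := ih δ' hδ' hn' b1 hb1
      refine ⟨(Polynomial.X - Polynomial.C r) * ε, ?_⟩
      rw [hε, map_mul, map_sub, Polynomial.aeval_X, Polynomial.aeval_C]
      rfl
    · obtain ⟨d, hd⟩ := hb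
      have h1 : (f - C r) ∣ b * d := ⟨_, hd.symm⟩
      rcases (hall r).dvd_or_dvd h1 with h2 | ⟨d', rfl⟩
      · exact absurd h2 hP
      · apply ih δ' hδ' hn' b
        refine ⟨d', ?_⟩
        apply mul_left_cancel₀ (hall r).ne_zero
        rw [hd]
        ring

end TriRed

open TriRed

theorem reducible_fibre {k : Type*} [Field k] [CharZero k] [IsAlgClosed k] (f g : PP k)
    (hJ : br f g = 1) (U : KK k) (hU : U ∈ RE f) (hU' : U⁻¹ ∈ RE f) (hU0 : U ≠ 0)
    (hUE : U ∉ EF f) :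
    ∃ (c : k) (p q s : PP k), Prime p ∧ Prime q ∧ f - C c = p * q * s ∧ ¬ p ∣ q * s ∧
      ¬ q ∣ p * s := by
  have hc : ∀ c, f ≠ C c := by
    rintro c rfl
    rw [br_C_left] at hJ
    exact zero_ne_one hJ
  have hex : ∃ c, ¬ Prime (f - C c) := by
    by_contra hcon
    push Not at hcon
    obtain ⟨b, γ, hγ, hb⟩ := (RE_ufd f hc).2 U hU
    obtain ⟨b', γ', hγ', hb'⟩ := (RE_ufd f hc).2 U⁻¹ hU'
    have h1 : b * b' = Polynomial.aeval f (γ * γ') := by
      apply iR_inj (k := k) (σ := Fin 2)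
      show ιK k (b * b') = ιK k (Polynomial.aeval f (γ * γ'))
      rw [map_mul, ← hb, ← hb', map_mul, map_mul]
      field_simp
    obtain ⟨ε, hε⟩ := divisors hcon _ (γ * γ') (mul_ne_zero hγ hγ') rfl b ⟨b', h1.symm⟩
    apply hUE
    have h2 : U = ev f ε / ev f γ := by
      rw [eq_div_iff]
      · rw [ev_apply, ev_apply, hb, hε]
      · rw [ev_apply]
        exact ι_ne (aeval_ne hc hγ)
    rw [h2]
    exact div_mem (ev_mem f ε) (ev_mem f γ)
  obtain ⟨c, hcp⟩ := hex
  have hF0 : f - C c ≠ 0 := sub_ne_zero.2 (hc c)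
  obtain ⟨p, hp, ⟨s', hs'⟩⟩ := exists_prime (not_unit hc c) hF0
  have hs0 : s' ≠ 0 := by
    rintro rfl
    rw [mul_zero] at hs'
    exact hF0 hs'
  have hsu : ¬ IsUnit s' := by
    intro hu
    apply hcp
    rw [hs']
    exact (associated_mul_unit_right p s' hu).prime hp
  obtain ⟨q, hq, ⟨s, hs⟩⟩ := exists_prime hsu hs0
  refine ⟨c, p, q, s, hp, hq, by rw [hs', hs, mul_assoc], ?_, ?_⟩
  · rintro ⟨r, hr⟩
    apply not_sq hJ c hp (r := r)
    rw [hs', hs, hr, mul_assoc]
  · rintro ⟨r, hr⟩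
    apply not_sq hJ c hq (r := r)
    rw [hs', hs, mul_assoc, ← hr]
    ring

end Pool.Agent.H928R2.Tri
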