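import Pool.Agent.H928R2.TriVal

/-!
# Two primes in a fibre
-/

set_option autoImplicit false
set_option linter.unusedSectionVars false

open MvPolynomial Pool.Agent.H928R2.Inv Pool.Agent.H928R2.Pen

namespace Pool.Agent.H928R2.Tri

section
variable {k : Type*} [Field k] [CharZero k]

/-- a common divisor divides the bracket -/
theorem two_dvd_br {p F G : PP k} (hF : p ∣ F) (hG : p ∣ G) : p ∣ br F G := by
  obtain ⟨A, rfl⟩ := hF
  obtain ⟨B, rfl⟩ := hG
  refine ⟨p * (pderiv 0 A * pderiv 1 B - pderiv 1 A * pderiv 0 B) +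
    (pderiv 0 A * B * pderiv 1 p + A * pderiv 0 p * pderiv 1 B - pderiv 1 A * B * pderiv 0 p -
      A * pderiv 1 p * pderiv 0 B), ?_⟩
  unfold br
  simp only [Derivation.leibniz, smul_eq_mul]
  ring

theorem two_br_sub (f g : PP k) (c β : k) : br (f - C c) (g - C β) = br f g := by
  unfold br
  simp only [map_sub, pderiv_C, sub_zero]

theorem two_not_dvd {f g p : PP k} (hJ : br f g = 1) {c : k} (hp : Prime p) (hpf : p ∣ f - C c)
    (β : k) : ¬ p ∣ g - C β := by
  intro h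
  have h1 := two_dvd_br hpf h
  rw [two_br_sub, hJ] at h1
  exact hp.not_isUnit (isUnit_of_dvd_one h1)

theorem two_nonconst {f g : PP k} (hJ : br f g = 1) (c : k) : f ≠ C c := by
  rintro rfl
  rw [br_C_left] at hJ
  exact zero_ne_one hJ

/-- the valuation of a polynomial value -/
theorem two_val_aeval [IsAlgClosed k] {L Γ₀ : Type*} [Field L] [Algebra k L]
    [LinearOrderedCommGroupWithZero Γ₀] (v : Valuation L Γ₀)
    (hk : ∀ a : k, a ≠ 0 → v (algebraMap k L a) = 1) (φ : L) (t : Γ₀)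
    (ht : ∀ a : k, v (φ - algebraMap k L a) = t) :
    ∀ (m : ℕ) (S : Polynomial k), S ≠ 0 → S.natDegree = m → v (Polynomial.aeval φ S) = t ^ m := by
  intro m
  induction m with
  | zero =>
    intro S hS hd
    obtain ⟨a, rfl⟩ := Polynomial.natDegree_eq_zero.1 hd
    rw [Polynomial.aeval_C, pow_zero]
    exact hk a (fun h => hS (by rw [h, Polynomial.C_0]))
  | succ m ih =>
    intro S hS hd
    have hdeg : S.degree ≠ 0 := by
      intro h
      rw [Polynomial.natDegree_eq_of_degree_eq_some h] at hd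
      exact absurd hd.symm (Nat.succ_ne_zero m)
    obtain ⟨a, ha⟩ := IsAlgClosed.exists_root S hdeg
    obtain ⟨S', rfl⟩ := Polynomial.dvd_iff_isRoot.2 ha
    have hS' : S' ≠ 0 := right_ne_zero_of_mul hS
    rw [Polynomial.natDegree_mul (Polynomial.X_sub_C_ne_zero a) hS', Polynomial.natDegree_X_sub_C,
      add_comm] at hd
    rw [map_mul, map_sub, Polynomial.aeval_X, Polynomial.aeval_C, map_mul, ht,
      ih S' hS' (Nat.succ_injective hd), pow_succ, mul_comm]

/-- a polynomial value of an element of a valuation ring that contains the constants -/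
theorem two_aeval_le {L Γ₀ : Type*} [Field L] [Algebra k L]
    [LinearOrderedCommGroupWithZero Γ₀] (v : Valuation L Γ₀)
    (hk : ∀ a : k, v (algebraMap k L a) ≤ 1) (φ : L) (hφ : v φ ≤ 1) (S : Polynomial k) :
    v (Polynomial.aeval φ S) ≤ 1 := by
  rw [Polynomial.aeval_eq_sum_range]
  refine Valuation.map_sum_le _ fun i _ => ?_
  rw [Algebra.smul_def, map_mul, map_pow]
  exact mul_le_one' (hk _) (pow_le_one' hφ i)

variable {f g : PP k} {c : k} {p : PP k} {O : ValuationSubring (KK k)}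

theorem two_vU (hO : ∀ b : PP k, ιK k b ∈ O) (hOp : ∀ b : PP k, ιK k b ∈ O.nonunits ↔ p ∣ b)
    {b : PP k} (hb : ¬ p ∣ b) : O.valuation (ιK k b) = 1 := by
  refine le_antisymm ((O.valuation_le_one_iff _).2 (hO b)) (not_lt.1 fun h => hb ?_)
  exact (hOp b).1 ((ValuationSubring.mem_nonunits_iff O).2 h)

theorem two_C (a : k) : algebraMap k (KK k) a = ιK k (C a) := by
  rw [← MvPolynomial.algebraMap_eq, AlgHom.commutes]

theorem two_vC (hp : Prime p) (hO : ∀ b : PP k, ιK k b ∈ O)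
    (hOp : ∀ b : PP k, ιK k b ∈ O.nonunits ↔ p ∣ b) (a : k) (ha : a ≠ 0) :
    O.valuation (algebraMap k (KK k) a) = 1 := by
  rw [two_C]
  exact two_vU hO hOp fun h => hp.not_isUnit (isUnit_of_dvd_C ha h)

theorem two_vC_le (hO : ∀ b : PP k, ιK k b ∈ O) (a : k) :
    O.valuation (algebraMap k (KK k) a) ≤ 1 := by
  rw [two_C]
  exact (O.valuation_le_one_iff _).2 (hO _)

theorem two_vg (hJ : br f g = 1) (hp : Prime p) (hpf : p ∣ f - C c)
    (hO : ∀ b : PP k, ιK k b ∈ O) (hOp : ∀ b : PP k, ιK k b ∈ O.nonunits ↔ p ∣ b) :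
    O.valuation (ιK k g) = 1 := by
  refine two_vU hO hOp ?_
  have h := two_not_dvd hJ hp hpf 0
  rwa [C_0, sub_zero] at h

theorem two_jj_gt (hJ : br f g = 1) (hp : Prime p) (hpf : p ∣ f - C c)
    (hO : ∀ b : PP k, ιK k b ∈ O) (hOp : ∀ b : PP k, ιK k b ∈ O.nonunits ↔ p ∣ b)
    {P : Polynomial k} (hP : P ≠ 0) (hc : P.eval c = 0) : 1 < O.valuation (jj f g P) := by
  have h1 : O.valuation (ev f P) < 1 := by
    rw [ev_apply]
    refine (ValuationSubring.mem_nonunits_iff O).1 ((hOp _).2 ?_)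
    obtain ⟨P', rfl⟩ := Polynomial.dvd_iff_isRoot.2 hc
    rw [map_mul, map_sub, Polynomial.aeval_X, Polynomial.aeval_C, MvPolynomial.algebraMap_eq]
    exact hpf.mul_right _
  have h2 : ev f P ≠ 0 := ι_ne (aeval_ne (two_nonconst hJ) hP)
  have h3 : 0 < O.valuation (ev f P) := zero_lt_iff.2 ((O.valuation.ne_zero_iff).2 h2)
  unfold jj
  rw [map_div₀, map_pow, two_vg hJ hp hpf hO hOp, one_pow, one_div]
  exact (one_lt_inv₀ h3).2 h1

theorem two_jj_one [IsAlgClosed k] (hJ : br f g = 1) (hp : Prime p) (hpf : p ∣ f - C c)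
    (hO : ∀ b : PP k, ιK k b ∈ O) (hOp : ∀ b : PP k, ιK k b ∈ O.nonunits ↔ p ∣ b)
    {P : Polynomial k} (hP : P ≠ 0) (hc : P.eval c ≠ 0) (b : k) :
    O.valuation (jj f g P - algebraMap k (KK k) b) = 1 := by
  have h2 : ev f P ≠ 0 := ι_ne (aeval_ne (two_nonconst hJ) hP)
  have h1 : O.valuation (ev f P) = 1 := by
    rw [ev_apply]
    refine two_vU hO hOp (aeval_not_dvd hp hpf fun h => hc ?_)
    exact Polynomial.dvd_iff_isRoot.1 h
  have h3 : jj f g P - algebraMap k (KK k) b =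
      ιK k (g ^ 2 - C b * Polynomial.aeval f P) / ev f P := by
    unfold jj
    rw [two_C, map_sub, map_mul, map_pow, ← ev_apply]
    field_simp
  rw [h3, map_div₀, h1, div_one]
  refine two_vU hO hOp fun h => ?_
  obtain ⟨β, hβ⟩ := IsAlgClosed.exists_pow_nat_eq (b * P.eval c) (n := 2) (by norm_num)
  obtain ⟨d, hd⟩ : (Polynomial.X - Polynomial.C c) ∣ P - Polynomial.C (P.eval c) :=
    Polynomial.X_sub_C_dvd_sub_C_eval
  have h4 := congrArg (Polynomial.aeval f) hd
  rw [map_sub, map_mul, map_sub, Polynomial.aeval_X, Polynomial.aeval_C, Polynomial.aeval_C,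
    MvPolynomial.algebraMap_eq] at h4
  have h5 : p ∣ (g - C β) * (g - C (-β)) := by
    have h6 : (g - C β) * (g - C (-β)) = (g ^ 2 - C b * Polynomial.aeval f P) +
        (f - C c) * (C b * Polynomial.aeval f d) := by
      have h7 : (C β * C β : PP k) = C b * C (P.eval c) := by
        rw [← C_mul, ← C_mul, ← hβ, sq]
      have h8 : (C (-β) : PP k) = - C β := by rw [map_neg]
      have h9 : (g - C β) * (g - C (-β)) = g ^ 2 - C β * C β := by
        rw [h8]
        ring
      rw [h9, h7]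
      have h10 : Polynomial.aeval f P = C (P.eval c) + (f - C c) * Polynomial.aeval f d := by
        rw [← h4]
        ring
      rw [h10]
      ring
    rw [h6]
    exact dvd_add h (hpf.mul_right _)
  rcases hp.dvd_or_dvd h5 with h6 | h6
  · exact two_not_dvd hJ hp hpf β h6
  · exact two_not_dvd hJ hp hpf (-β) h6

theorem two_case1 [IsAlgClosed k] (hJ : br f g = 1) (hp : Prime p) (hpf : p ∣ f - C c)
    (hO : ∀ b : PP k, ιK k b ∈ O) (hOp : ∀ b : PP k, ιK k b ∈ O.nonunits ↔ p ∣ b)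
    {P : Polynomial k} (hP : P ≠ 0) (hc : P.eval c = 0) {φ : KK k} {Q : Polynomial k}
    (hQ : 0 < Q.natDegree) (hQj : Polynomial.aeval φ Q = jj f g P) {R1 R2 : Polynomial k}
    (h1 : R1 ≠ 0) (h2 : R2 ≠ 0) {z : KK k}
    (hz : z * Polynomial.aeval φ R2 = Polynomial.aeval φ R1) :
    O.valuation (z ^ Q.natDegree * jj f g P ^ ((R2.natDegree : ℤ) - R1.natDegree)) = 1 := by
  have hgt := two_jj_gt hJ hp hpf hO hOp hP hc
  have hφ : 1 < O.valuation φ := by
    by_contra hle
    rw [← hQj] at hgt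
    exact absurd (two_aeval_le O.valuation (two_vC_le hO) φ (not_lt.1 hle) Q) (not_le.2 hgt)
  have ht : ∀ a : k, O.valuation (φ - algebraMap k (KK k) a) = O.valuation φ := fun a =>
    Valuation.map_sub_eq_of_lt_left _ (lt_of_le_of_lt (two_vC_le hO a) hφ)
  have hQ0 : Q ≠ 0 := by
    rintro rfl
    simp at hQ
  have hv := two_val_aeval O.valuation (two_vC hp hO hOp) φ _ ht
  have e1 := hv _ R1 h1 rfl
  have e2 := hv _ R2 h2 rfl
  have e3 := hv _ Q hQ0 rfl
  rw [← hz, map_mul, e2] at e1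
  rw [hQj] at e3
  have hne : O.valuation φ ≠ 0 := (lt_trans zero_lt_one hφ).ne'
  rw [map_mul, map_pow, map_zpow₀, e3]
  generalize O.valuation φ = t at e1 hne
  generalize O.valuation z = u at e1
  rw [zpow_sub₀ (pow_ne_zero _ hne), zpow_natCast, zpow_natCast, ← pow_mul, mul_comm Q.natDegree,
    pow_mul, ← mul_div_assoc, ← mul_pow, e1, ← pow_mul, ← pow_mul, mul_comm Q.natDegree,
    div_self (pow_ne_zero _ hne)]

theorem two_case2 [IsAlgClosed k] (hJ : br f g = 1) (hp : Prime p) (hpf : p ∣ f - C c)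
    (hO : ∀ b : PP k, ιK k b ∈ O) (hOp : ∀ b : PP k, ιK k b ∈ O.nonunits ↔ p ∣ b)
    {P : Polynomial k} (hP : P ≠ 0) (hc : P.eval c ≠ 0) {φ : KK k} {Q : Polynomial k}
    (hQ : 0 < Q.natDegree) (hQj : Polynomial.aeval φ Q = jj f g P) {R1 R2 : Polynomial k}
    (h1 : R1 ≠ 0) (h2 : R2 ≠ 0) {z : KK k}
    (hz : z * Polynomial.aeval φ R2 = Polynomial.aeval φ R1) :
    O.valuation z = 1 := by
  have hj := two_jj_one hJ hp hpf hO hOp hP hc
  have hQ0 : Q ≠ 0 := by
    rintro rfl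
    simp at hQ
  have hφ : O.valuation φ ≤ 1 := by
    by_contra hle
    rw [not_le] at hle
    have ht : ∀ a : k, O.valuation (φ - algebraMap k (KK k) a) = O.valuation φ := fun a =>
      Valuation.map_sub_eq_of_lt_left _ (lt_of_le_of_lt (two_vC_le hO a) hle)
    have e3 := two_val_aeval O.valuation (two_vC hp hO hOp) φ _ ht _ Q hQ0 rfl
    have h0 := hj 0
    rw [map_zero, sub_zero, ← hQj, e3] at h0
    exact (one_lt_pow₀ hle hQ.ne').ne' h0
  have ht : ∀ a : k, O.valuation (φ - algebraMap k (KK k) a) = 1 := by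
    intro a
    refine le_antisymm (O.valuation.map_sub_le hφ (two_vC_le hO a)) (not_lt.1 fun hlt => ?_)
    obtain ⟨d, hd⟩ : (Polynomial.X - Polynomial.C a) ∣ Q - Polynomial.C (Q.eval a) :=
      Polynomial.X_sub_C_dvd_sub_C_eval
    have h4 := congrArg (Polynomial.aeval φ) hd
    rw [map_sub, map_mul, map_sub, Polynomial.aeval_X, Polynomial.aeval_C, Polynomial.aeval_C,
      hQj] at h4
    have h5 := hj (Q.eval a)
    rw [h4, map_mul] at h5
    have h6 := two_aeval_le O.valuation (two_vC_le hO) φ hφ d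
    exact (mul_lt_one_of_lt_of_le hlt h6).ne h5
  have hv := two_val_aeval O.valuation (two_vC hp hO hOp) φ _ ht
  have e1 := hv _ R1 h1 rfl
  have e2 := hv _ R2 h2 rfl
  rw [← hz, map_mul, e2, one_pow, mul_one, one_pow] at e1
  exact e1

end

theorem two_primes {k : Type*} [Field k] [CharZero k] [IsAlgClosed k] (f g : PP k)
    (hJ : br f g = 1) (P : Polynomial k) (hP : P ≠ 0) (φ : KK k) (Q : Polynomial k)
    (hQ : 0 < Q.natDegree) (hQj : Polynomial.aeval φ Q = jj f g P)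
    (c : k) (p q s : PP k) (hp : Prime p) (hq : Prime q) (hf : f - C c = p * q * s)
    (hpq : ¬ p ∣ q * s) (hqp : ¬ q ∣ p * s) (n : ℕ) (hn : 0 < n) (e : KK k) (he : e ∈ EF f)
    (he0 : e ≠ 0) (h : ιK k p ^ n / e ∈ IntermediateField.adjoin k {φ}) : False := by
  obtain ⟨O, hO, hOp⟩ := exists_val p hp
  obtain ⟨O', hO', hOq⟩ := exists_val q hq
  have hpf : p ∣ f - C c := ⟨q * s, by rw [hf]; ring⟩
  have hqf : q ∣ f - C c := ⟨p * s, by rw [hf]; ring⟩
  have hfc := two_nonconst hJ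
  have hφc : ∀ a : k, φ ≠ algebraMap k (KK k) a := by
    rintro a rfl
    rw [Polynomial.aeval_algebraMap_apply] at hQj
    by_cases hc : P.eval c = 0
    · have h1 := two_jj_gt hJ hp hpf hO hOp hP hc
      rw [← hQj] at h1
      exact absurd (two_vC_le hO _) (not_le.2 h1)
    · have h1 := two_jj_one hJ hp hpf hO hOp hP hc (Polynomial.aeval a Q)
      rw [← hQj, sub_self, map_zero] at h1
      exact zero_ne_one h1
  have hz0 : ιK k p ^ n / e ≠ 0 := div_ne_zero (pow_ne_zero _ (ι_ne hp.ne_zero)) he0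
  obtain ⟨R1, R2, -, hR2, hz⟩ := rep φ _ hφc h
  have h2 : R2 ≠ 0 := by
    rintro rfl
    exact hR2 (map_zero _)
  have h1 : R1 ≠ 0 := by
    rintro rfl
    rw [map_zero] at hz
    exact mul_ne_zero hz0 hR2 hz
  have hev : ev f P ≠ 0 := ι_ne (aeval_ne hfc hP)
  have mem1 : ∀ (U : ValuationSubring (KK k)) {x : KK k}, U.valuation x = 1 → x ∈ U := by
    intro U x hx
    exact (U.valuation_le_one_iff x).1 hx.le
  have mem2 : ∀ (U : ValuationSubring (KK k)) {x : KK k}, U.valuation x = 1 → x⁻¹ ∈ U := by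
    intro U x hx
    refine (U.valuation_le_one_iff _).1 ?_
    rw [map_inv₀, hx, inv_one]
  by_cases hc : P.eval c = 0
  · have a1 := two_case1 hJ hp hpf hO hOp hP hc hQ hQj h1 h2 hz
    have a2 := two_case1 hJ hq hqf hO' hOq hP hc hQ hQj h1 h2 hz
    have b1 := two_vg hJ hp hpf hO hOp
    have b2 := two_vg hJ hq hqf hO' hOq
    have hg0 : ιK k g ≠ 0 := by
      intro h0
      rw [h0, map_zero] at b1
      exact zero_ne_one b1
    generalize hD : ((R2.natDegree : ℤ) - R1.natDegree) = D at a1 a2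
    have key : (ιK k p ^ n / e) ^ Q.natDegree * jj f g P ^ D =
        ιK k p ^ (n * Q.natDegree) * (e⁻¹ ^ Q.natDegree * (ev f P)⁻¹ ^ D) *
          (ιK k g ^ 2) ^ D := by
      unfold jj
      rw [div_eq_mul_inv, div_eq_mul_inv, mul_pow, mul_zpow, pow_mul]
      ring
    rw [key] at a1 a2
    have c1 : O.valuation ((ιK k g ^ 2) ^ D) = 1 := by
      rw [map_zpow₀, map_pow, b1, one_pow, one_zpow]
    have c2 : O'.valuation ((ιK k g ^ 2) ^ D) = 1 := by
      rw [map_zpow₀, map_pow, b2, one_pow, one_zpow]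
    exact no_unit_pow f c hfc p q s hp hq hf hpq hqp O O' hO hOp hO' hOq (n * Q.natDegree)
      (Nat.mul_pos hn hQ) _ _
      (mul_mem (pow_mem (inv_mem he) _) (zpow_mem (inv_mem (ev_mem f P)) _))
      (mul_ne_zero (pow_ne_zero _ (inv_ne_zero he0)) (zpow_ne_zero _ (inv_ne_zero hev)))
      (zpow_ne_zero _ (pow_ne_zero _ hg0)) (mem1 O c1) (mem2 O c1) (mem1 O' c2) (mem2 O' c2)
      (mem1 O a1) (mem2 O a1) (mem1 O' a2) (mem2 O' a2)
  · have a1 := two_case2 hJ hp hpf hO hOp hP hc hQ hQj h1 h2 hz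
    have a2 := two_case2 hJ hq hqf hO' hOq hP hc hQ hQj h1 h2 hz
    have key : ιK k p ^ n / e = ιK k p ^ n * e⁻¹ * 1 := by
      rw [mul_one, div_eq_mul_inv]
    rw [key] at a1 a2
    exact no_unit_pow f c hfc p q s hp hq hf hpq hqp O O' hO hOp hO' hOq n hn e⁻¹ 1
      (inv_mem he) (inv_ne_zero he0) one_ne_zero (one_mem _) (by rw [inv_one]; exact one_mem _)
      (one_mem _) (by rw [inv_one]; exact one_mem _)
      (mem1 O a1) (mem2 O a1) (mem1 O' a2) (mem2 O' a2)

end Pool.Agent.H928R2.Tri
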