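import Pool.Agent.H928R2.TriCon

set_option autoImplicit false
set_option linter.unusedSectionVars false

open MvPolynomial Pool.Agent.H928R2.Inv Pool.Agent.H928R2.Pen

namespace Pool.Agent.H928R2.Tri

theorem root_mem {k : Type*} [Field k] {L : Type*} [Field L] [Algebra k L]
    (R : Subring L) (hkR : ∀ c : k, algebraMap k L c ∈ R)
    (hint : ∀ x : L, (∃ p : Polynomial L, p.Monic ∧ (∀ i, p.coeff i ∈ R) ∧ p.eval x = 0) → x ∈ R)
    (φ j : L) (Q : Polynomial k) (hQ : 0 < Q.natDegree) (hQj : Polynomial.aeval φ Q = j)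
    (hjR : j ∈ R) : φ ∈ R := by
  have hQ0 : Q ≠ 0 := by
    rintro rfl
    simp at hQ
  have hlc : Q.leadingCoeff ≠ 0 := Polynomial.leadingCoeff_ne_zero.2 hQ0
  apply hint
  refine ⟨(Q.map (algebraMap k L) - Polynomial.C j) *
    Polynomial.C (algebraMap k L (Q.leadingCoeff)⁻¹), ?_, ?_, ?_⟩
  · apply Polynomial.monic_mul_C_of_leadingCoeff_mul_eq_one
    rw [Polynomial.leadingCoeff_sub_of_degree_lt, Polynomial.leadingCoeff_map, ← map_mul,
      mul_inv_cancel₀ hlc, map_one]
    refine lt_of_le_of_lt Polynomial.degree_C_le ?_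
    rw [Polynomial.degree_map]
    exact Polynomial.natDegree_pos_iff_degree_pos.1 hQ
  · intro i
    rw [Polynomial.coeff_mul_C, Polynomial.coeff_sub, Polynomial.coeff_map, Polynomial.coeff_C]
    refine R.mul_mem (R.sub_mem (hkR _) ?_) (hkR _)
    split_ifs
    · exact hjR
    · exact R.zero_mem
  · rw [Polynomial.eval_mul, Polynomial.eval_sub, Polynomial.eval_C, Polynomial.eval_map,
      ← Polynomial.aeval_def, hQj, sub_self, zero_mul]

theorem val_int {L : Type*} [Field L] (O : ValuationSubring L) (x : L)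
    (h : ∃ p : Polynomial L, p.Monic ∧ (∀ i, p.coeff i ∈ O.toSubring) ∧ p.eval x = 0) :
    x ∈ O.toSubring := by
  obtain ⟨p, hp, hc, he⟩ := h
  have hsub : (↑p.coeffs : Set L) ⊆ O.toSubring := by
    intro c hc'
    rw [Finset.mem_coe, Polynomial.mem_coeffs_iff] at hc'
    obtain ⟨n, _, rfl⟩ := hc'
    exact hc n
  have h1 : IsIntegral O x := by
    refine ⟨p.toSubring O.toSubring hsub, (Polynomial.monic_toSubring p _ hsub).2 hp, ?_⟩
    have h2 := Polynomial.map_toSubring p O.toSubring hsub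
    have h3 : Polynomial.eval₂ (O.toSubring.subtype) x (p.toSubring O.toSubring hsub) = 0 := by
      rw [← Polynomial.eval_map, h2]
      exact he
    exact h3
  obtain ⟨y, hy⟩ := IsIntegrallyClosed.isIntegral_iff.1 h1
  show x ∈ O
  rw [← hy]
  exact y.2

theorem aeval_mem {k : Type*} [Field k] {L : Type*} [Field L] [Algebra k L]
    (R : Subring L) (hkR : ∀ c : k, algebraMap k L c ∈ R) (φ : L) (hφ : φ ∈ R)
    (p : Polynomial k) : Polynomial.aeval φ p ∈ R := by
  rw [Polynomial.aeval_eq_sum_range]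
  refine R.sum_mem fun i _ => ?_
  rw [Algebra.smul_def]
  exact R.mul_mem (hkR _) (R.pow_mem hφ _)

theorem exists_unit {k : Type*} [Field k] {L : Type*} [Field L] [Algebra k L]
    (R : Subring L) (hkR : ∀ c : k, algebraMap k L c ∈ R)
    (hint : ∀ x : L, (∃ p : Polynomial L, p.Monic ∧ (∀ i, p.coeff i ∈ R) ∧ p.eval x = 0) → x ∈ R)
    (φ j : L) (Q : Polynomial k) (hQ : 0 < Q.natDegree) (hQj : Polynomial.aeval φ Q = j)
    (hjR : j ∈ R) (hφ : ∀ c : k, φ ≠ algebraMap k L c) (hφt : Transcendental k φ)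
    (O1 : ValuationSubring L) (hkO : ∀ c : k, algebraMap k L c ∈ O1) (hjO : j ∈ O1)
    (z : L) (hzR : z ∈ R) (hzO : z ∉ O1) (hz : z ∈ IntermediateField.adjoin k {φ}) :
    ∃ U ∈ R, U⁻¹ ∈ R ∧ U ≠ 0 ∧ U ∈ O1.nonunits := by
  have hφR : φ ∈ R := root_mem R hkR hint φ j Q hQ hQj hjR
  have hφO : φ ∈ O1.toSubring :=
    root_mem O1.toSubring hkO (fun x hx => val_int O1 x hx) φ j Q hQ hQj hjO
  obtain ⟨r, s, hrs⟩ := (IntermediateField.mem_adjoin_simple_iff k z).1 hz
  have hs : s ≠ 0 := by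
    rintro rfl
    apply hzO
    rw [hrs, map_zero, div_zero]
    exact O1.zero_mem
  obtain ⟨g, r', s', hg, hr, hs', hco⟩ := reduced_rep r s hs
  have hg0 : Polynomial.aeval φ g ≠ 0 := fun h => hg ((transcendental_iff.1 hφt) g h)
  have hs0 : Polynomial.aeval φ s' ≠ 0 := by
    intro h
    apply hs
    rw [hs', (transcendental_iff.1 hφt) s' h, mul_zero]
  have hz1 : z * Polynomial.aeval φ s' = Polynomial.aeval φ r' := by
    rw [hrs, hr, hs', map_mul, map_mul]
    field_simp
  refine ⟨Polynomial.aeval φ s', aeval_mem R hkR φ hφR s', ?_, hs0, ?_⟩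
  · obtain ⟨a, b, hab⟩ := hco
    have h1 : Polynomial.aeval φ a * Polynomial.aeval φ r' +
        Polynomial.aeval φ b * Polynomial.aeval φ s' = 1 := by
      rw [← map_mul, ← map_mul, ← map_add, hab, map_one]
    have h2 : (Polynomial.aeval φ s')⁻¹ =
        Polynomial.aeval φ a * z + Polynomial.aeval φ b := by
      symm
      apply eq_inv_of_mul_eq_one_left
      rw [← h1, ← hz1]
      ring
    rw [h2]
    exact R.add_mem (R.mul_mem (aeval_mem R hkR φ hφR a) hzR) (aeval_mem R hkR φ hφR b)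
  · by_contra hU
    have h1 : Polynomial.aeval φ s' ∈ O1 := aeval_mem O1.toSubring hkO φ hφO s'
    have h2 : Polynomial.aeval φ r' ∈ O1 := aeval_mem O1.toSubring hkO φ hφO r'
    have h3 : (Polynomial.aeval φ s')⁻¹ ∈ O1 := by
      rw [ValuationSubring.mem_nonunits_iff, not_lt] at hU
      rw [← O1.valuation_le_one_iff, map_inv₀]
      exact inv_le_one_of_one_le₀ hU
    apply hzO
    have h4 : z = Polynomial.aeval φ r' * (Polynomial.aeval φ s')⁻¹ := by
      rw [← hz1]
      field_simp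
    rw [h4]
    exact O1.mul_mem _ _ h2 h3

end Pool.Agent.H928R2.Tri
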