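import Pool.Agent.H928R2.TriEq
import Pool.Agent.H928R2.TriConst
import Pool.Agent.H928R2.TriPhi
import Pool.Agent.H928R2.TriNormal
import Pool.Agent.H928R2.TriUnit
import Pool.Agent.H928R2.TriRed
import Pool.Agent.H928R2.TriTwo

/-!
# Jacobian pairs: the main case is impossible
-/

set_option autoImplicit false
set_option linter.unusedSectionVars false

open MvPolynomial Pool.Agent.H928R2.Inv Pool.Agent.H928R2.Pen

namespace Pool.Agent.H928R2.Tri

section
variable {k : Type*} [Field k] [CharZero k]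

/-- `k(f)[x, y]` is integrally closed -/
theorem RE_int (f : PP k) (hc : ∀ c, f ≠ C c) (x : KK k)
    (h : ∃ p : Polynomial (KK k), p.Monic ∧ (∀ i, p.coeff i ∈ (RE f).toSubring) ∧ p.eval x = 0) :
    x ∈ (RE f).toSubring := by
  obtain ⟨p, hp, hpc, hpx⟩ := h
  have hU := (RE_ufd f hc).1
  have hfr : IsFractionRing (RE f) (KK k) := by
    apply IsFractionRing.of_field
    intro z
    obtain ⟨r, hr, s, hs, hs0, hz⟩ := hfrac_f f z
    refine ⟨⟨r, hr⟩, ⟨s, hs⟩, ?_⟩
    show z = r / s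
    rw [eq_div_iff hs0]
    exact hz
  have h1 : IsIntegral (RE f) x := by
    have hl : p ∈ Polynomial.lifts (algebraMap (RE f) (KK k)) := by
      rw [Polynomial.lifts_iff_coeff_lifts]
      intro i
      exact ⟨⟨p.coeff i, hpc i⟩, rfl⟩
    obtain ⟨q, hq, -, hqm⟩ := Polynomial.lifts_and_degree_eq_and_monic hl hp
    refine ⟨q, hqm, ?_⟩
    rw [← Polynomial.eval_map, hq]
    exact hpx
  have hic : IsIntegrallyClosed (RE f) := UniqueFactorizationMonoid.instIsIntegrallyClosed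
  obtain ⟨y, hy⟩ := (IsIntegrallyClosed.isIntegral_iff (R := RE f) (K := KK k)).1 h1
  show x ∈ RE f
  rw [← hy]
  exact y.2

variable {f g : PP k} {P : Polynomial k}

theorem DT_apply (x : KK k) : DT f g P x =
    2 * D1 g x + (ev f (Polynomial.derivative P) / ev f P * ιK k g) * D2 f x := rfl

theorem DT_f (hJ : br f g = 1) : DT f g P (ιK k f) = 2 := by
  rw [DT_apply, D1_f hJ, D2_f]
  ring

theorem DT_g (hJ : br f g = 1) :
    DT f g P (ιK k g) = ev f (Polynomial.derivative P) / ev f P * ιK k g := by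
  rw [DT_apply, D1_g, D2_g hJ]
  ring

theorem DT_EF (hJ : br f g = 1) (x : KK k) (hx : x ∈ EF f) : DT f g P x ∈ EF f := by
  apply der_EF _ f _ x hx
  rw [DT_f hJ]
  exact ofNat_mem _ 2

theorem DT_ev [IsAlgClosed k] (hJ : br f g = 1) (γ : Polynomial k) :
    DT f g P (ev f γ) = 2 * ev f (Polynomial.derivative γ) := by
  rw [DT_apply, D1_ev hJ, (D2_ker hJ _).2 (ev_mem f γ)]
  ring

theorem DT_jj [IsAlgClosed k] (hJ : br f g = 1) (hP : P ≠ 0) : DT f g P (jj f g P) = 0 := by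
  have hP0 : ev f P ≠ 0 := ev_ne hJ hP
  unfold jj
  rw [Derivation.leibniz_div, Derivation.leibniz_pow, DT_g hJ, DT_ev hJ]
  simp only [smul_eq_mul, nsmul_eq_mul]
  field_simp
  ring

theorem DT_const [IsAlgClosed k] (hJ : br f g = 1) (x : KK k) (hx : x ∈ EF f)
    (h : DT f g P x = 0) : ∃ c : k, x = algebraMap k (KK k) c := by
  have h2 : D2 f x = 0 := (D2_ker hJ x).2 hx
  refine D1_const hJ x ?_ h2
  rw [DT_apply, h2, mul_zero, add_zero] at h
  exact (mul_eq_zero.1 h).resolve_left two_ne_zero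

theorem DT_RE (hJ : br f g = 1) (x : KK k) (hx : x ∈ RE f) : DT f g P x ∈ RE f := by
  rw [DT_apply]
  refine add_mem (mul_mem (ofNat_mem _ 2) (D1_RE hJ x hx)) (mul_mem (mul_mem ?_ (ι_mem_RE _ _))
    (D2_RE f x hx))
  exact EF_RE f (div_mem (ev_mem f _) (ev_mem f _))

theorem DT_ne (hJ : br f g = 1) : DT f g P ≠ 0 := by
  intro h
  have h1 := DT_f (P := P) hJ
  rw [h] at h1
  exact two_ne_zero h1.symm

theorem Core.log [IsAlgClosed k] {O : ValuationSubring (KK k)} (C : Core f g P O)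
    (O' : ValuationSubring (KK k)) (hO' : O' ∈ SR (RE f)) : LogAt O' (toZ (DT f g P)) := by
  have hJ := C.hJ
  have hG0 : ιK k g ≠ 0 := fun h => C.pole (by rw [h]; exact O.zero_mem)
  have hDf : DT f g P (ιK k f) ∈ EF f := DT_EF hJ _ (IntermediateField.mem_adjoin_simple_self k _)
  have hc : ev f (Polynomial.derivative P) / ev f P ∈ O' :=
    hO'.1 ⟨_, div_mem (ev_mem f _) (ev_mem f _)⟩
  by_cases h : O' = O
  · subst h
    refine log_SR f g hJ _ hDf O' hO' (ιK k g)⁻¹ (-(ev f (Polynomial.derivative P) / ev f P))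
      (inv_ne_zero hG0) ?_ (neg_mem hc) ?_
    · rw [ValuationSubring.mem_nonunits_iff_or]
      right
      rw [inv_inv]
      exact C.pole
    · rw [Derivation.leibniz_inv, DT_g hJ, smul_eq_mul]
      field_simp
  · obtain ⟨h1, h2⟩ := C.fin O' hO' h
    have hP0 : ev f P ≠ 0 := ev_ne hJ C.hP
    refine log_SR f g hJ _ hDf O' hO' (ιK k g ^ 2 - ev f P)
      (2 * (ev f (Polynomial.derivative P) / ev f P)) ?_ h2
      (mul_mem (ofNat_mem _ 2) hc) ?_
    · intro h3
      apply C.pole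
      have h4 : IsAlgebraic (EF f) (ιK k g) := by
        refine ⟨Polynomial.X ^ 2 - Polynomial.C (⟨ev f P, ev_mem f P⟩ : EF f), ?_, ?_⟩
        · exact Polynomial.X_pow_sub_C_ne_zero (by norm_num) _
        · simp only [map_sub, map_pow, Polynomial.aeval_X, Polynomial.aeval_C]
          exact h3
      exact absurd h4 (transc_g hJ)
    · rw [map_sub, Derivation.leibniz_pow, DT_g hJ, DT_ev hJ]
      simp only [smul_eq_mul, nsmul_eq_mul]
      field_simp
      ring

theorem Core.jj_pole [IsAlgClosed k] {O : ValuationSubring (KK k)} (C : Core f g P O)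
    (O' : ValuationSubring (KK k)) (hE : ∀ a : EF f, algebraMap (EF f) (KK k) a ∈ O') :
    jj f g P ∉ O' ↔ ιK k g ∉ O' := by
  have hJ := C.hJ
  have hP0 : ev f P ≠ 0 := ev_ne hJ C.hP
  rw [not_iff_not]
  constructor
  · intro h
    have h1 : ιK k g ^ 2 ∈ O' := by
      have h2 : ιK k g ^ 2 = jj f g P * ev f P := by
        unfold jj
        rw [div_mul_cancel₀ _ hP0]
      rw [h2]
      exact mul_mem h (hE ⟨_, ev_mem f P⟩)
    rcases O'.mem_or_inv_mem (ιK k g) with h3 | h3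
    · exact h3
    · have hG0 : ιK k g ≠ 0 := fun h => C.pole (by rw [h]; exact O.zero_mem)
      have h4 : ιK k g = ιK k g ^ 2 * (ιK k g)⁻¹ := by
        field_simp
      rw [h4]
      exact mul_mem h1 h3
  · intro h
    unfold jj
    rw [div_eq_mul_inv]
    exact mul_mem (pow_mem h 2) (hE ⟨_, inv_mem (ev_mem f P)⟩)

end

section
variable {k : Type*} [Field k] [CharZero k] [IsAlgClosed k]

/-- Darboux elements span -/
theorem Core.span {f g : PP k} {P : Polynomial k} {O : ValuationSubring (KK k)}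
    (C : Core f g P O) (x : KK k) (hx : x ∈ RE f) :
    x ∈ Submodule.span (EF f) {z : KK k | z ∈ RE f ∧ ∃ μ : EF f,
      toZ (DT f g P) z = algebraMap (EF f) (KK k) μ * z} := by
  have hJ := C.hJ
  obtain ⟨t, ht⟩ := exists_t hJ
  have hcfin := hfin_f hJ (ιK k g) (transc_g hJ)
  obtain ⟨c, hc1, hc⟩ := exists_c0 (ιK k g) (transc_g hJ) hcfin
  have hDE : ∀ a : EF f, ∃ b : EF f, toZ (DT f g P) (algebraMap (EF f) (KK k) a) =
      algebraMap (EF f) (KK k) b := fun a => ⟨⟨_, DT_EF hJ _ a.2⟩, rfl⟩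
  have hcD := hc (toZ (DT f g P))
    ⟨ev f (Polynomial.derivative P) / ev f P, div_mem (ev_mem f _) (ev_mem f _)⟩ hDE (DT_g hJ)
  obtain ⟨N, hN⟩ := exists_VN (RE f) (SR_fin hJ) t ht x hx
  have hfin : Module.Finite (EF f) (Pen.P1.VN (RE f) t N) :=
    Pen.P1.VN_finite (algCl_f hJ) (RE f) (SR_fin hJ) t ht (fun O' hO' => SR_resfin hJ hO') N
  have h1 := span_of_exists (toZ (DT f g P)) c hc1 hcD Set.univ
    (fun W hW hW0 hWD => by
      obtain ⟨z, hz, hz0, μ, hμ⟩ := exists_darboux O C.mem.1 (t O) (ht O C.mem) C.res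
        (toZ (DT f g P)) (C.log O C.mem) W hW hW0 hWD
      exact ⟨z, hz, hz0, μ, trivial, hμ⟩)
    (Pen.P1.VN (RE f) t N) hfin (fun y hy => log_VN (RE f) t ht (toZ (DT f g P))
      (fun x hx => DT_RE hJ x hx) C.log N y hy)
  refine Submodule.span_mono ?_ (h1 hN)
  rintro z ⟨hz, μ, -, hμ⟩
  exact ⟨hz.1, μ, hμ⟩

/-- the main case is impossible -/
theorem Core.false {f g : PP k} {P : Polynomial k} {O : ValuationSubring (KK k)}
    (C : Core f g P O) (O1 : ValuationSubring (KK k)) (hO1 : O1 ∈ SR (RE f)) (hne : O1 ≠ O) :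
    False := by
  have hJ := C.hJ
  have hP0 : ev f P ≠ 0 := ev_ne hJ C.hP
  obtain ⟨t, ht⟩ := exists_t hJ
  have hDE : ∀ a : EF f, ∃ b : EF f, toZ (DT f g P) (algebraMap (EF f) (KK k) a) =
      algebraMap (EF f) (KK k) b := fun a => ⟨⟨_, DT_EF hJ _ a.2⟩, rfl⟩
  have hjO : jj f g P ∉ O := (C.jj_pole O C.mem.1).2 C.pole
  have hjD : toZ (DT f g P) (jj f g P) = 0 := DT_jj hJ C.hP
  have hkE : ∀ (O' : ValuationSubring (KK k)), (∀ a : EF f, algebraMap (EF f) (KK k) a ∈ O') →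
      ∀ c : k, algebraMap k (KK k) c ∈ O' := fun O' h c =>
    h ⟨_, IntermediateField.algebraMap_mem _ c⟩
  -- a Darboux element with a pole at `O1`
  obtain ⟨z, hzR, hzO, μ, hμ⟩ : ∃ z ∈ RE f, z ∉ O1 ∧ ∃ μ : EF f,
      toZ (DT f g P) z = algebraMap (EF f) (KK k) μ * z := by
    obtain ⟨x, hx, hxO⟩ := hO1.2
    by_contra hcon
    push Not at hcon
    apply hxO
    have h1 : Submodule.span (EF f) {z : KK k | z ∈ RE f ∧ ∃ μ : EF f,
        toZ (DT f g P) z = algebraMap (EF f) (KK k) μ * z} ≤ Pen.P1.MO O1 hO1.1 := by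
      rw [Submodule.span_le]
      rintro z ⟨hz, μ, hμ⟩
      by_contra hzO
      exact hcon z hz hzO μ hμ
    exact h1 (C.span x hx)
  have hz0 : z ≠ 0 := fun h => hzO (by rw [h]; exact O1.zero_mem)
  obtain ⟨M, hM, hconst⟩ := darboux_const O C.mem.1 (t O) (ht O C.mem) C.res
    (toZ (DT f g P)) hDE (C.log O C.mem) (jj f g P) hjD hjO
  -- the field of constants
  have hjc : ∀ c : k, jj f g P ≠ algebraMap k (KK k) c := by
    intro c hc
    exact hjO (by rw [hc]; exact hkE O C.mem.1 c)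
  obtain ⟨y, hy, hyc⟩ := exists_phi (DT f g P) (DT_ne hJ) (jj f g P) hjc (DT_jj hJ C.hP)
  obtain ⟨φ, hφ, hφO, Q, hQ, hQj⟩ := normal_phi (k := k) (E := EF f) (L := KK k) (algCl_f hJ)
    (toZ (DT f g P)) (fun e he => by
      obtain ⟨c, hc⟩ := DT_const hJ (e : KK k) e.2 he
      exact ⟨c, Subtype.ext hc.symm⟩) y hy hyc O C.mem.1 C.res (C.log O C.mem) hDE
    (jj f g P) hjD (fun O' hE' hj' => by
      by_contra hne'
      have h1 : ιK k g ∉ O' := (C.jj_pole O' hE').1 hj'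
      have h2 : O' ∈ SR (RE f) := ⟨hE', ιK k g, ι_mem_RE _ _, h1⟩
      exact h1 (C.fin O' h2 hne').1) hjO
  have hφc : ∀ c : k, φ ≠ algebraMap k (KK k) c := by
    intro c hc
    exact hφO (by rw [hc]; exact hkE O C.mem.1 c)
  have hφt : Transcendental k φ := transcK_of_nonconst φ hφc
  -- a unit
  have hconst' : ∀ w : KK k, w ≠ 0 → (∃ μ : EF f, toZ (DT f g P) w =
      algebraMap (EF f) (KK k) μ * w) → ∃ s : KK k, s ∈ EF f ∧ s ≠ 0 ∧
        w ^ M / s ∈ IntermediateField.adjoin k {φ} := by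
    intro w hw hμ
    obtain ⟨s, hs, h⟩ := hconst w hw hμ
    exact ⟨s, s.2, fun h => hs (Subtype.ext h), (hφ _).1 h⟩
  obtain ⟨s, hsE, hs0, hzs⟩ := hconst' z hz0 ⟨μ, hμ⟩
  have hjR : jj f g P ∈ (RE f).toSubring := by
    show ιK k g ^ 2 / ev f P ∈ RE f
    rw [div_eq_mul_inv]
    exact mul_mem (pow_mem (ι_mem_RE _ _) 2) (EF_RE f (inv_mem (ev_mem f P)))
  have hO1g := (C.fin O1 hO1 hne).1
  have hjO1 : jj f g P ∈ O1 := by
    by_contra h
    exact (C.jj_pole O1 hO1.1).1 h hO1g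
  obtain ⟨U, hU, hU', hU0, hUO⟩ := exists_unit (k := k) (RE f).toSubring
    (fun c => EF_RE f (IntermediateField.algebraMap_mem _ c)) (RE_int f (nonconst_of hJ)) φ
    (jj f g P) Q hQ hQj hjR hφc hφt O1 (hkE O1 hO1.1) hjO1 (z ^ M / s) (by
      show z ^ M / s ∈ RE f
      rw [div_eq_mul_inv]
      exact mul_mem (pow_mem hzR M) (EF_RE f (inv_mem hsE))) (by
      intro h
      have h1 : z ^ M ∈ O1 := by
        have h2 : z ^ M = z ^ M / s * s := by rw [div_mul_cancel₀ _ hs0]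
        rw [h2]
        exact mul_mem h (hO1.1 ⟨s, hsE⟩)
      rcases O1.mem_or_inv_mem z with h3 | h3
      · exact hzO h3
      · apply hzO
        obtain ⟨m, rfl⟩ : ∃ m, M = m + 1 := ⟨M - 1, by omega⟩
        have h4 : z = z ^ (m + 1) * z⁻¹ ^ m := by
          rw [pow_succ, inv_pow]
          field_simp
        rw [h4]
        exact mul_mem h1 (pow_mem h3 m)) hzs
  have hUE : U ∉ EF f := by
    intro h
    have h1 : (⟨U, h⟩ : EF f) ≠ 0 := fun h2 => hU0 (congrArg Subtype.val h2)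
    exact const_notMem_nonunits hO1.1 h1 hUO
  obtain ⟨c, p, q, s', hp, hq, hf, hpq, hqp⟩ := reducible_fibre f g hJ U hU hU' hU0 hUE
  -- `p` is a unit of `RE f`
  have hp0 : ιK k p ≠ 0 := ι_ne hp.ne_zero
  have hfc : ιK k (f - MvPolynomial.C c) ∈ EF f := by
    rw [map_sub]
    exact sub_mem (IntermediateField.mem_adjoin_simple_self k _)
      (IntermediateField.algebraMap_mem _ c)
  have hpinv : (ιK k p)⁻¹ ∈ RE f := by
    have hq0 : ιK k (q * s') ≠ 0 := by
      apply ι_ne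
      intro h
      exact hpq (by rw [h]; exact dvd_zero _)
    have h1 : (ιK k p)⁻¹ = ιK k (q * s') * (ιK k (f - MvPolynomial.C c))⁻¹ := by
      rw [hf, mul_assoc, map_mul (ιK k) p (q * s'), mul_inv, mul_comm (ιK k p)⁻¹, ← mul_assoc,
        mul_inv_cancel₀ hq0, one_mul]
    rw [h1]
    exact mul_mem (ι_mem_RE _ _) (EF_RE f (inv_mem hfc))
  have hμp : ∃ μ : EF f, toZ (DT f g P) (ιK k p) = algebraMap (EF f) (KK k) μ * ιK k p := by
    have h1 : toZ (DT f g P) (ιK k p) / ιK k p ∈ Pen.P1.VN (RE f) t 0 := by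
      refine ⟨?_, fun O' hO' => ?_⟩
      · rw [div_eq_mul_inv]
        exact mul_mem (DT_RE hJ _ (ι_mem_RE _ _)) hpinv
      · rw [pow_zero, one_mul]
        exact log_div (C.log O' hO') (ht O' hO') _ hp0
    obtain ⟨a, ha⟩ := Pen.P1.VN_zero (algCl_f hJ) (RE f) t h1
    refine ⟨a, ?_⟩
    rw [ha, div_mul_cancel₀ _ hp0]
  obtain ⟨e, heE, he0, hpe⟩ := hconst' (ιK k p) hp0 hμp
  exact two_primes f g hJ P C.hP φ Q hQ hQj c p q s' hp hq hf hpq hqp M hM e heE he0 hpe

end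

end Pool.Agent.H928R2.Tri
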