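import Pool.Agent.H928R2.PenIrred

/-!
# Definitions for the theorem on Jacobian pairs with at most three places at infinity
-/

set_option autoImplicit false

open Polynomial Pool.Agent.H928R2.Inv

namespace Pool.Agent.H928R2.Tri

/-- the derivation `D` preserves the valuation ring `O` and its maximal ideal -/
structure LogAt {L : Type*} [Field L] (O : ValuationSubring L) (D : Derivation ℤ L L) : Prop where
  mem : ∀ z ∈ O, D z ∈ O
  non : ∀ z ∈ O.nonunits, D z ∈ O.nonunits

end Pool.Agent.H928R2.Tri
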