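import Pool.Agent.H928R2.TriN

/-!
# Descent of constants with poles along a finite extension
-/

set_option autoImplicit false
set_option linter.unusedSectionVars false

open MvPolynomial Pool.Agent.H928R2.Inv Pool.Agent.H928R2.Pen

namespace Pool.Agent.H928R2.Tri

theorem descend_int {L : Type*} [Field L] (O : ValuationSubring L) (x : L)
    (h : ∃ p : Polynomial L, p.Monic ∧ (∀ i, p.coeff i ∈ O) ∧ p.eval x = 0) : x ∈ O := by
  obtain ⟨p, hp, hc, he⟩ := h
  have hsub : (↑p.coeffs : Set L) ⊆ O.toSubring := by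
    intro c hc'
    rw [Finset.mem_coe, Polynomial.mem_coeffs_iff] at hc'
    obtain ⟨n, _, rfl⟩ := hc'
    exact hc n
  have h1 : IsIntegral O x := by
    refine ⟨p.toSubring O.toSubring hsub, (Polynomial.monic_toSubring p _ hsub).2 hp, ?_⟩
    have h2 := Polynomial.map_toSubring p O.toSubring hsub
    have h3 : Polynomial.eval₂ (O.toSubring.subtype) x (p.toSubring O.toSubring hsub) = 0 := by
      rw [← Polynomial.eval_map, h2]
      exact he
    exact h3
  obtain ⟨y, hy⟩ := IsIntegrallyClosed.isIntegral_iff.1 h1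
  rw [← hy]
  exact y.2

theorem descend {L L' : Type*} [Field L] [CharZero L] [Field L'] [Algebra L L']
    [FiniteDimensional L L'] (R : Subring L)
    (hR : ∀ x : L, (∃ p : Polynomial L, p.Monic ∧ (∀ i, p.coeff i ∈ R) ∧ p.eval x = 0) → x ∈ R)
    (D : Derivation ℤ L L) (D' : Derivation ℤ L' L')
    (hD : ∀ x, D' (algebraMap L L' x) = algebraMap L L' (D x))
    (O : ValuationSubring L) (O' : ValuationSubring L')
    (hO : ∀ z : L, algebraMap L L' z ∈ O' ↔ z ∈ O) (ρ : L') (hρD : D' ρ = 0)
    (hρR : ∃ p : Polynomial L, p.Monic ∧ (∀ i, p.coeff i ∈ R) ∧ Polynomial.aeval ρ p = 0)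
    (hρO : ρ ∉ O') : ∃ ρ₀ ∈ R, D ρ₀ = 0 ∧ ρ₀ ∉ O := by
  obtain ⟨p, hp, hpR, hpρ⟩ := hρR
  have hsub : (↑p.coeffs : Set L) ⊆ R := by
    intro c hc'
    rw [Finset.mem_coe, Polynomial.mem_coeffs_iff] at hc'
    obtain ⟨n, _, rfl⟩ := hc'
    exact hpR n
  have hp'm : (p.toSubring R hsub).Monic := (Polynomial.monic_toSubring p _ hsub).2 hp
  have hp' : (p.toSubring R hsub).map (algebraMap R L) = p := Polynomial.map_toSubring p R hsub
  have hint : IsIntegral L ρ := Algebra.IsIntegral.isIntegral ρ
  have hqm : (minpoly L ρ).Monic := minpoly.monic hint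
  have hq0 : Polynomial.aeval ρ (minpoly L ρ) = 0 := minpoly.aeval L ρ
  have hdvd : minpoly L ρ ∣ (p.toSubring R hsub).map (algebraMap R L) := by
    rw [hp']
    exact minpoly.dvd L ρ hpρ
  have hqR : ∀ i, (minpoly L ρ).coeff i ∈ R := by
    intro i
    obtain ⟨s, hs, hs'⟩ := Polynomial.isIntegral_coeff_of_dvd _ (minpoly L ρ) hp'm hqm hdvd i
    refine hR _ ⟨s.map (algebraMap R L), hs.map _, fun i => ?_, ?_⟩
    · rw [Polynomial.coeff_map]
      exact (s.coeff i).2
    · rw [Polynomial.eval_map]
      exact hs'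
  have hqD : ∀ i, D ((minpoly L ρ).coeff i) = 0 := by
    have hdeg : ∀ r : Polynomial L, Polynomial.aeval ρ r = 0 →
        r.degree < (minpoly L ρ).degree → r = 0 := by
      intro r hr hr'
      by_contra hr0
      exact absurd (minpoly.degree_le_of_ne_zero L ρ hr0 hr) (not_le.2 hr')
    obtain ⟨q, hq⟩ : ∃ q, q = minpoly L ρ := ⟨_, rfl⟩
    rw [← hq] at hqm hq0 hdeg ⊢
    have hr0 : Polynomial.aeval ρ (∑ i ∈ Finset.range q.natDegree,
        Polynomial.monomial i (D (q.coeff i))) = 0 := by
      have h1 := congrArg D' hq0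
      rw [Polynomial.aeval_eq_sum_range, map_sum, map_zero, Finset.sum_range_succ] at h1
      have h2 : ∀ i, D' (q.coeff i • ρ ^ i) = algebraMap L L' (D (q.coeff i)) * ρ ^ i := by
        intro i
        rw [Algebra.smul_def, Derivation.leibniz, Derivation.leibniz_pow, hρD, hD]
        simp only [smul_eq_mul]
        ring
      rw [h2, Polynomial.Monic.coeff_natDegree hqm, Derivation.map_one_eq_zero, map_zero,
        zero_mul, add_zero] at h1
      rw [map_sum, ← h1]
      refine Finset.sum_congr rfl fun i _ => ?_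
      rw [h2, Polynomial.aeval_monomial]
    have hr1 : (∑ i ∈ Finset.range q.natDegree,
        Polynomial.monomial i (D (q.coeff i))) = 0 := by
      apply hdeg _ hr0
      rw [Polynomial.degree_eq_natDegree hqm.ne_zero]
      refine lt_of_le_of_lt (Polynomial.degree_sum_le _ _) ?_
      rw [Finset.sup_lt_iff (WithBot.bot_lt_coe _)]
      intro i hi
      refine lt_of_le_of_lt (Polynomial.degree_monomial_le _ _) ?_
      exact_mod_cast Finset.mem_range.1 hi
    intro i
    rcases lt_trichotomy i q.natDegree with h | h | h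
    · have h1 := congrArg (fun r => Polynomial.coeff r i) hr1
      simp only [Polynomial.finsetSum_coeff, Polynomial.coeff_monomial, Polynomial.coeff_zero,
        Finset.sum_ite_eq', Finset.mem_range, h, if_true] at h1
      exact h1
    · rw [h, Polynomial.Monic.coeff_natDegree hqm, Derivation.map_one_eq_zero]
    · rw [Polynomial.coeff_eq_zero_of_natDegree_lt h, map_zero]
  by_contra hcon
  push Not at hcon
  apply hρO
  refine descend_int O' ρ ⟨(minpoly L ρ).map (algebraMap L L'), hqm.map _, fun i => ?_, ?_⟩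
  · rw [Polynomial.coeff_map]
    exact (hO _).2 (hcon _ (hqR i) (hqD i))
  · rw [Polynomial.eval_map, ← Polynomial.aeval_def, hq0]

end Pool.Agent.H928R2.Tri
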