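import Pool.Agent.H928R2.TriDef

set_option autoImplicit false

open Polynomial Pool.Agent.H928R2.Inv

namespace Pool.Agent.H928R2.Tri

theorem trace_detect {E L : Type*} [Field E] [CharZero E] [Field L] [Algebra E L] (g : L)
    (hg : Transcendental E g) (hfin : FiniteDimensional (IntermediateField.adjoin E {g}) L)
    (R : Subalgebra E L) (hgR : g ∈ R) (hfrac : ∀ z : L, ∃ r ∈ R, ∃ s ∈ R, s ≠ 0 ∧ z * s = r)
    (O : ValuationSubring L) (hE : ∀ a : E, algebraMap E L a ∈ O) (t : L) (ht : IsUnif O t)
    (hgO : g ∈ O) (b : L) (hb : b ∈ R) (hbO : b ∉ O) :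
    ∃ h ∈ R, algebraMap (IntermediateField.adjoin E {g}) L
      (Algebra.trace (IntermediateField.adjoin E {g}) L h) ∉ O := by
  classical
  by_contra hcon
  push Not at hcon
  have hb0 : b ≠ 0 := fun h => hbO (by rw [h]; exact O.zero_mem)
  have hchar : CharZero (IntermediateField.adjoin E {g}) :=
    charZero_of_injective_algebraMap (algebraMap E (IntermediateField.adjoin E {g})).injective
  have hspan : (⊤ : Submodule (IntermediateField.adjoin E {g}) L) ≤
      Submodule.span (IntermediateField.adjoin E {g}) (R : Set L) := by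
    have h1 : Subalgebra.toSubmodule (Algebra.adjoin (IntermediateField.adjoin E {g}) (R : Set L)) =
        Submodule.span (IntermediateField.adjoin E {g}) (R : Set L) := by
      rw [Algebra.adjoin_eq_span]
      congr 1
      exact congrArg (fun s : Submonoid L => (s : Set L)) (Submonoid.closure_eq R.toSubmonoid)
    rw [← h1]
    intro z _
    obtain ⟨r, hr, s, hs, hs0, hz⟩ := hfrac z
    have hsA : s ∈ Algebra.adjoin (IntermediateField.adjoin E {g}) (R : Set L) :=
      Algebra.subset_adjoin hs
    have hrA : r ∈ Algebra.adjoin (IntermediateField.adjoin E {g}) (R : Set L) :=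
      Algebra.subset_adjoin hr
    have hinv := Subalgebra.inv_mem_of_algebraic
      (Algebra.adjoin (IntermediateField.adjoin E {g}) (R : Set L)) (x := ⟨s, hsA⟩)
      (Algebra.IsAlgebraic.isAlgebraic s)
    have hz' : z = r * s⁻¹ := by rw [← hz, mul_assoc, mul_inv_cancel₀ hs0, mul_one]
    rw [Subalgebra.mem_toSubmodule, hz']
    exact mul_mem hrA hinv
  set B := Module.Basis.ofSpan hspan with hBdef
  have hB : ∀ i, B i ∈ R := fun i => Module.Basis.ofSpan_subset hspan ⟨i, rfl⟩
  have := Module.Finite.finite_basis B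
  have := Fintype.ofFinite (((linearIndepOn_empty (IntermediateField.adjoin E {g}) id).extend
    (Set.empty_subset (R : Set L))))
  set B' := B.traceDual with hB'
  have hy : ∀ y : L, y = ∑ i, algebraMap (IntermediateField.adjoin E {g}) L
      (Algebra.trace (IntermediateField.adjoin E {g}) L (y * B i)) * B' i := by
    intro y
    conv_lhs => rw [← B'.sum_repr y]
    refine Finset.sum_congr rfl fun i _ => ?_
    rw [Algebra.smul_def, hB', Module.Basis.traceDual_repr_apply, Algebra.traceForm_apply]
  have hm : ∀ i, ∃ m : ℕ, ∀ n ≥ m, (b⁻¹) ^ n * B' i ∈ O := fun i =>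
    IsUnif.exists_pow ht (inv_ne_zero hb0) (by rw [inv_inv]; exact hbO) (B' i)
  choose m hm using hm
  set n := ∑ i, m i with hn
  have hle : ∀ i, m i ≤ n := fun i =>
    Finset.single_le_sum (f := m) (fun _ _ => Nat.zero_le _) (Finset.mem_univ i)
  apply hbO
  have hbn : b = (b⁻¹) ^ n * b ^ (n + 1) := by
    rw [pow_succ, ← mul_assoc, ← mul_pow, inv_mul_cancel₀ hb0, one_pow, one_mul]
  rw [hbn, hy (b ^ (n + 1)), Finset.mul_sum]
  refine sum_mem fun i _ => ?_
  have e : b⁻¹ ^ n * (algebraMap (IntermediateField.adjoin E {g}) L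
      (Algebra.trace (IntermediateField.adjoin E {g}) L (b ^ (n + 1) * B i)) * B' i) =
      algebraMap (IntermediateField.adjoin E {g}) L
      (Algebra.trace (IntermediateField.adjoin E {g}) L (b ^ (n + 1) * B i)) *
        (b⁻¹ ^ n * B' i) := by ring
  rw [e]
  exact O.mul_mem _ _ (hcon _ (mul_mem (pow_mem hb _) (hB i))) (hm i n (hle i))

end Pool.Agent.H928R2.Tri
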