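import Pool.Agent.H928R2.TriCon
import Pool.Agent.H928R2.PenPoinc
import Pool.Agent.H928R2.PenFol

set_option autoImplicit false
set_option linter.unusedSectionVars false

open MvPolynomial Pool.Agent.H928R2.Inv Pool.Agent.H928R2.Pen

namespace Pool.Agent.H928R2.Tri

theorem exact_div {k : Type*} [Field k] [CharZero k] (f g : PP k) (hJ : br f g = 1) (h : PP k) :
    ∃ h1 h2 : PP k, h = br h1 g + br f h2 := by
  refine ⟨pderiv 0 f * intg k 0 h, pderiv 0 g * intg k 0 h, ?_⟩
  have e1 : pderiv 0 (br f g) = 0 := by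
    rw [hJ, Derivation.map_one_eq_zero]
  have e2 : pderiv 0 (intg k 0 h) = h := pderiv_intg 0 h
  unfold br at *
  simp only [Derivation.leibniz, map_sub, smul_eq_mul] at e1 ⊢
  rw [pderiv_comm01 f, pderiv_comm01 g] at e1
  rw [e2]
  linear_combination (-h) * hJ - (intg k 0 h) * e1

end Pool.Agent.H928R2.Tri
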