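import Pool.Agent.H928R2.TriDef

/-! # A field generated by one eigenvector (helper594) -/

set_option autoImplicit false

open Polynomial Pool.Agent.H928R2.Inv

namespace Pool.Agent.H928R2.Tri

namespace TG

theorem zpow_mem' {L : Type*} [Field L] {O : ValuationSubring L} {u : L} (hu : u ∈ O)
    (hui : u⁻¹ ∈ O) (n : ℤ) : u ^ n ∈ O := by
  rcases Int.eq_nat_or_neg n with ⟨k, rfl | rfl⟩
  · rw [zpow_natCast]; exact pow_mem hu k
  · rw [zpow_neg, zpow_natCast, ← inv_pow]; exact pow_mem hui k

theorem D_pow {L : Type*} [Field L] (D : Derivation ℤ L L) {z c : L} (hz : D z = c * z)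
    (k : ℕ) : D (z ^ k) = ((k : L) * c) * z ^ k := by
  induction k with
  | zero => simp
  | succ k ih =>
    rw [pow_succ, D.leibniz, ih, hz]
    simp only [smul_eq_mul]
    push_cast
    ring

theorem D_zpow {L : Type*} [Field L] (D : Derivation ℤ L L) {z c : L} (hz : D z = c * z)
    (hz0 : z ≠ 0) (n : ℤ) : D (z ^ n) = ((n : L) * c) * z ^ n := by
  rcases Int.eq_nat_or_neg n with ⟨k, rfl | rfl⟩
  · rw [zpow_natCast, D_pow D hz]; simp
  · rw [zpow_neg, zpow_natCast, D.leibniz_inv, D_pow D hz]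
    simp only [smul_eq_mul]
    have := pow_ne_zero k hz0
    push_cast
    field_simp

theorem small {E L : Type*} [Field E] [CharZero E] [Field L] [Algebra E L]
    (O : ValuationSubring L) (hE : ∀ a : E, algebraMap E L a ∈ O)
    (hres : ∀ f ∈ O, ∃ P : E[X], P ≠ 0 ∧ aeval f P ∈ O.nonunits)
    (D : Derivation ℤ L L) (hDE : ∀ a : E, D (algebraMap E L a) = 0) (h : LogAt O D)
    (z : L) (hz : z ∈ O) : D z ∈ O.nonunits := by
  obtain ⟨P, hP1, hP2⟩ := exists_sep_poly O hE z (hres z hz)
  have hsm : ∀ (a : E) (x : L), D (a • x) = a • D x := by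
    intro a x
    rw [Algebra.smul_def, D.leibniz, hDE, smul_zero, add_zero, smul_eq_mul, Algebra.smul_def]
  let D' : Derivation E L L :=
    Derivation.mk' { toFun := D, map_add' := map_add D, map_smul' := hsm } (fun a b => by
      show D (a * b) = a • D b + b • D a
      exact D.leibniz a b)
  have hD' : ∀ x, D' x = D x := fun x => rfl
  have h1 : D (aeval z P) = aeval z (derivative P) * D z := by
    have := D'.map_aeval P z
    rw [hD', hD', smul_eq_mul] at this
    exact this
  have h2 : D (aeval z P) ∈ O.nonunits := h.non _ hP1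
  have h3 := inv_mem_of_notMem_nonunits hP2
  have h4 : aeval z (derivative P) ≠ 0 := by
    intro h0
    rw [h0] at hP2
    exact hP2 (zero_nonunits O)
  have h5 : D z = D (aeval z P) * (aeval z (derivative P))⁻¹ := by
    rw [h1]; field_simp
  rw [h5]
  exact nonunits_mul h2 h3

end TG

open TG in
theorem gen_of_eig {E L : Type*} [Field E] [CharZero E] [Field L] [Algebra E L]
    (O : ValuationSubring L) (hE : ∀ a : E, algebraMap E L a ∈ O) (t : L) (ht : IsUnif O t)
    (hres : ∀ f ∈ O, ∃ P : E[X], P ≠ 0 ∧ aeval f P ∈ O.nonunits)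
    (D : Derivation ℤ L L) (hDE : ∀ a : E, D (algebraMap E L a) = 0) (hlog : LogAt O D)
    (hker : ∀ x : L, D x = 0 → ∃ a : E, algebraMap E L a = x)
    (u : L) (huO : u ∉ O) (hDu : D u = u)
    (R : Subalgebra E L) (hfrac : ∀ z : L, ∃ r ∈ R, ∃ s ∈ R, s ≠ 0 ∧ z * s = r)
    (hspan : ∀ x ∈ R, x ∈ Submodule.span E
      {z : L | ∃ μ ∈ Set.range (fun q : ℚ => (q : E)), D z = algebraMap E L μ * z}) :
    ∃ t0 : L, IntermediateField.adjoin E {t0} = ⊤ := by
  have hu0 : u ≠ 0 := by
    rintro rfl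
    exact huO O.zero_mem
  obtain ⟨k, u1, hu1, hu1i, huk⟩ := ht.fac u hu0
  have hk : k < 0 := by
    by_contra hcon
    apply huO
    rw [huk]
    exact mem_of_unit_mul hu1 ht.mem _ (by omega)
  obtain ⟨m, hm⟩ : ∃ m : ℕ, (m : ℤ) = -k := ⟨(-k).toNat, Int.toNat_of_nonneg (by omega)⟩
  have hm0 : 0 < m := by omega
  have hcast : ∀ q : ℚ, algebraMap E L (q : E) = (q : L) := by
    intro q
    exact map_ratCast (algebraMap E L) q
  haveI : CharZero L := charZero_of_injective_algebraMap (algebraMap E L).injective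
  -- step 1
  have step1 : ∀ (q : ℚ) (z : L), z ≠ 0 → D z = (q : L) * z → ∃ a : ℤ, q = a / m := by
    intro q z hz hq
    obtain ⟨n, u2, hu2, hu2i, hzn⟩ := ht.fac z hz
    have hu10 : u1 ≠ 0 := by
      rintro rfl
      exact hu0 (by rw [huk, zero_mul])
    have hu20 : u2 ≠ 0 := by
      rintro rfl
      exact hz (by rw [hzn, zero_mul])
    set y := z ^ m * u ^ n with hy
    have hy0 : y ≠ 0 := mul_ne_zero (pow_ne_zero _ hz) (zpow_ne_zero _ hu0)
    have hyu : y = u2 ^ m * u1 ^ n := by
      have e1 : (t ^ n) ^ m * (t ^ k) ^ n = 1 := by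
        rw [← zpow_natCast, ← zpow_mul, ← zpow_mul, ← zpow_add₀ ht.ne, hm]
        have : n * -k + k * n = 0 := by ring
        rw [this, zpow_zero]
      calc y = (u2 ^ m * u1 ^ n) * ((t ^ n) ^ m * (t ^ k) ^ n) := by
            rw [hy]
            nth_rewrite 1 [hzn]
            rw [huk, mul_pow, mul_zpow]
            ring
        _ = u2 ^ m * u1 ^ n := by rw [e1, mul_one]
    have hyO : y ∈ O := by
      rw [hyu]
      exact O.mul_mem _ _ (pow_mem hu2 m) (zpow_mem' hu1 hu1i n)
    have hyi : y⁻¹ ∈ O := by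
      rw [hyu, mul_inv, ← inv_pow, ← zpow_neg]
      exact O.mul_mem _ _ (pow_mem hu2i m) (zpow_mem' hu1 hu1i (-n))
    have hDy : D y = ((m : L) * q + n) * y := by
      have hDu' : D u = (1 : L) * u := by rw [one_mul, hDu]
      rw [hy, D.leibniz, D_pow D hq, D_zpow D hDu' hu0]
      simp only [smul_eq_mul]
      ring
    have h1 := small O hE hres D hDE hlog y hyO
    rw [hDy] at h1
    have h2 : ((m : L) * q + n) * y * y⁻¹ ∈ O.nonunits := nonunits_mul h1 hyi
    rw [mul_assoc, mul_inv_cancel₀ hy0, mul_one] at h2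
    have h3 : ((m : L) * q + n) = algebraMap E L ((m : E) * (q : E) + (n : E)) := by
      simp only [map_add, map_mul, map_natCast, map_intCast, hcast]
    rw [h3] at h2
    have h4 : (m : E) * (q : E) + (n : E) = 0 := by
      by_contra hne
      exact const_notMem_nonunits hE hne h2
    have h5 : (m : ℚ) * q + n = 0 := by
      have : (((m : ℚ) * q + n : ℚ) : E) = 0 := by push_cast; exact h4
      exact_mod_cast this
    refine ⟨-n, ?_⟩
    have hm' : (m : ℚ) ≠ 0 := by exact_mod_cast hm0.ne'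
    rw [eq_div_iff hm']
    push_cast
    linarith
  -- step 2
  have hmL : (m : L) ≠ 0 := by exact_mod_cast hm0.ne'
  let A : AddSubgroup ℤ :=
    { carrier := {a | ∃ z : L, z ≠ 0 ∧ D z = ((a : L) / m) * z}
      add_mem' := by
        rintro a b ⟨z, hz, hz'⟩ ⟨w, hw, hw'⟩
        refine ⟨z * w, mul_ne_zero hz hw, ?_⟩
        rw [D.leibniz, hz', hw']
        simp only [smul_eq_mul]
        push_cast
        ring
      zero_mem' := ⟨1, one_ne_zero, by simp⟩
      neg_mem' := by
        rintro a ⟨z, hz, hz'⟩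
        refine ⟨z⁻¹, inv_ne_zero hz, ?_⟩
        rw [D.leibniz_inv, hz']
        simp only [smul_eq_mul]
        push_cast
        field_simp }
  obtain ⟨g, hg⟩ := Int.subgroup_cyclic A
  have hgA : g ∈ A := by
    rw [hg]
    exact AddSubgroup.subset_closure rfl
  obtain ⟨t0, ht0, hDt0⟩ := hgA
  refine ⟨t0, ?_⟩
  -- step 3
  have step3 : ∀ z : L, (∃ μ ∈ Set.range (fun q : ℚ => (q : E)), D z = algebraMap E L μ * z) →
      z ∈ IntermediateField.adjoin E {t0} := by
    rintro z ⟨μ, ⟨q, rfl⟩, hz⟩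
    simp only [hcast] at hz
    by_cases hz0 : z = 0
    · rw [hz0]; exact zero_mem _
    obtain ⟨a, ha⟩ := step1 q z hz0 hz
    have haA : a ∈ A := by
      refine ⟨z, hz0, ?_⟩
      rw [hz, ha]
      push_cast
      rfl
    rw [hg, AddSubgroup.mem_closure_singleton] at haA
    obtain ⟨j, hj⟩ := haA
    have h1 : D (z * t0 ^ (-j)) = 0 := by
      rw [D.leibniz, D_zpow D hDt0 ht0, hz, ha, ← hj]
      simp only [smul_eq_mul, zsmul_eq_mul]
      push_cast
      field_simp
      ring
    obtain ⟨e, he⟩ := hker _ h1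
    have h2 : z = algebraMap E L e * t0 ^ j := by
      rw [he, mul_assoc, ← zpow_add₀ ht0, neg_add_cancel, zpow_zero, mul_one]
    rw [h2]
    exact mul_mem (IntermediateField.algebraMap_mem _ e)
      (zpow_mem (IntermediateField.mem_adjoin_simple_self E t0) j)
  have hR : ∀ x ∈ R, x ∈ IntermediateField.adjoin E {t0} := by
    intro x hx
    have h1 := hspan x hx
    have h2 : Submodule.span E
      {z : L | ∃ μ ∈ Set.range (fun q : ℚ => (q : E)), D z = algebraMap E L μ * z} ≤
        Subalgebra.toSubmodule (IntermediateField.adjoin E {t0}).toSubalgebra := by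
      rw [Submodule.span_le]
      intro z hz
      exact step3 z hz
    exact h2 h1
  rw [eq_top_iff]
  intro z _
  obtain ⟨r, hr, s, hs, hs0, hzs⟩ := hfrac z
  have : z = r / s := by
    rw [eq_div_iff hs0, hzs]
  rw [this]
  exact div_mem (hR r hr) (hR s hs)

end Pool.Agent.H928R2.Tri
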