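import Pool.Agent.H928R2.TriDef

/-!
# Elements of maximal order and eigenvectors at a place
-/

set_option autoImplicit false

open Polynomial Pool.Agent.H928R2.Inv

namespace Pool.Agent.H928R2.Tri

/-- the elements of `W` of order greater than the order of `z` -/
def triW {E L : Type*} [Field E] [Field L] [Algebra E L]
    (O : ValuationSubring L) (hE : ∀ a : E, algebraMap E L a ∈ O)
    (W : Submodule E L) (z : L) : Submodule E W where
  carrier := {y | (y : L) / z ∈ O.nonunits}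
  add_mem' := by
    intro a b ha hb
    simp only [Set.mem_ofPred_eq, ValuationSubring.mem_nonunits_iff] at ha hb ⊢
    rw [Submodule.coe_add, add_div]
    exact Valuation.map_add_lt _ ha hb
  zero_mem' := by
    simp only [Set.mem_ofPred_eq]
    rw [Submodule.coe_zero, zero_div]
    exact zero_nonunits O
  smul_mem' := by
    intro c a ha
    simp only [Set.mem_ofPred_eq] at ha ⊢
    rw [Submodule.coe_smul, Algebra.smul_def, mul_div_assoc, mul_comm]
    exact nonunits_mul ha (hE c)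

/-- a nonzero finite dimensional space has an element of maximal order at a place -/
theorem exists_max_order {E L : Type*} [Field E] [Field L] [Algebra E L]
    (O : ValuationSubring L) (hE : ∀ a : E, algebraMap E L a ∈ O) (t : L) (ht : IsUnif O t)
    (W : Submodule E L) (hW : Module.Finite E W) (hW0 : W ≠ ⊥) :
    ∃ z ∈ W, z ≠ 0 ∧ ∀ y ∈ W, y / z ∈ O.nonunits → y = 0 := by
  obtain ⟨w, hw, hw0⟩ := (Submodule.ne_bot_iff W).1 hW0
  let S : Set (Submodule E W) := {N | ∃ z ∈ W, z ≠ 0 ∧ N = triW O hE W z}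
  have hS : S.Nonempty := ⟨_, w, hw, hw0, rfl⟩
  obtain ⟨N, ⟨z, hz, hz0, rfl⟩, hmin⟩ := IsArtinian.set_has_minimal S hS
  refine ⟨z, hz, hz0, fun y hy hyz => ?_⟩
  by_contra hy0
  refine hmin (triW O hE W y) ⟨y, hy, hy0, rfl⟩ ?_
  rw [SetLike.lt_iff_le_and_exists]
  refine ⟨fun x hx => ?_, ⟨y, hy⟩, hyz, fun h => ?_⟩
  · have hx' : (x : L) / y ∈ O.nonunits := hx
    show (x : L) / z ∈ O.nonunits
    have h1 : (x : L) / z = (x : L) / y * (y / z) := by
      field_simp
    rw [h1]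
    exact nonunits_mul hx' (nonunits_mem hyz)
  · have h' : y / y ∈ O.nonunits := h
    rw [div_self hy0] at h'
    exact notMem_nonunits_of_inv one_ne_zero (by rw [inv_one]; exact O.one_mem) h'

theorem tri_leibniz_zpow {L : Type*} [Field L] (D : Derivation ℤ L L) (a : L) (ha : a ≠ 0)
    (n : ℤ) : D (a ^ n) = a ^ n * ((n : L) * (D a / a)) := by
  rw [Derivation.leibniz_zpow]
  simp only [smul_eq_mul, zsmul_eq_mul]
  rw [zpow_sub_one₀ ha]
  field_simp

theorem tri_logdiv {E L : Type*} [Field E] [Field L] [Algebra E L]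
    (O : ValuationSubring L) (t : L) (ht : IsUnif O t)
    (D : Derivation ℤ L L) (hlog : LogAt O D) (z : L) (hz0 : z ≠ 0) : D z / z ∈ O := by
  obtain ⟨j, u, hu, hui, h1⟩ := ht.fac z hz0
  have hu0 : u ≠ 0 := by
    rintro rfl
    rw [zero_mul] at h1
    exact hz0 h1
  obtain ⟨g, hg, hDt⟩ := ht.pow_of_nonunit (hlog.non t ht.nonunit)
  have h2 : D z = z * ((j : L) * g + u⁻¹ * D u) := by
    rw [h1, Derivation.leibniz, tri_leibniz_zpow D t ht.ne, hDt]
    simp only [smul_eq_mul]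
    have := ht.ne
    field_simp
  have h3 : D z / z = (j : L) * g + u⁻¹ * D u := by
    rw [h2]
    field_simp
  rw [h3]
  exact O.add_mem _ _ (O.mul_mem _ _ (intCast_mem O j) hg) (O.mul_mem _ _ hui (hlog.mem u hu))

theorem exists_darboux {E L : Type*} [Field E] [CharZero E] [Field L] [Algebra E L]
    (O : ValuationSubring L) (hE : ∀ a : E, algebraMap E L a ∈ O) (t : L) (ht : IsUnif O t)
    (hres : ∀ z ∈ O, ∃ a : E, z - algebraMap E L a ∈ O.nonunits)
    (D : Derivation ℤ L L) (hlog : LogAt O D)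
    (W : Submodule E L) (hW : Module.Finite E W) (hW0 : W ≠ ⊥) (hWD : ∀ x ∈ W, D x ∈ W) :
    ∃ z ∈ W, z ≠ 0 ∧ ∃ μ : E, D z = algebraMap E L μ * z := by
  obtain ⟨z, hz, hz0, hmax⟩ := exists_max_order O hE t ht W hW hW0
  obtain ⟨μ, hμ⟩ := hres _ (tri_logdiv (E := E) O t ht D hlog z hz0)
  refine ⟨z, hz, hz0, μ, ?_⟩
  have h1 := hmax (D z - μ • z) (W.sub_mem (hWD z hz) (W.smul_mem μ hz)) (by
    have h2 : (D z - μ • z) / z = D z / z - algebraMap E L μ := by
      rw [Algebra.smul_def]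
      field_simp
    rw [h2]
    exact hμ)
  rw [Algebra.smul_def] at h1
  exact sub_eq_zero.1 h1

/-- `D` as an `E`-derivation -/
def triD {E L : Type*} [Field E] [Field L] [Algebra E L]
    (D : Derivation ℤ L L) (hDE : ∀ a : E, D (algebraMap E L a) = 0) : Derivation E L L :=
  Derivation.mk'
    { toFun := fun x => D x
      map_add' := fun x y => map_add D x y
      map_smul' := fun c x => by
        rw [Algebra.smul_def, Derivation.leibniz, hDE, smul_zero, add_zero, RingHom.id_apply,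
          smul_eq_mul, ← Algebra.smul_def] }
    (fun a b => D.leibniz a b)

theorem tri_small {E L : Type*} [Field E] [CharZero E] [Field L] [Algebra E L]
    (O : ValuationSubring L) (hE : ∀ a : E, algebraMap E L a ∈ O)
    (hres : ∀ f ∈ O, ∃ P : E[X], P ≠ 0 ∧ aeval f P ∈ O.nonunits)
    (D : Derivation ℤ L L) (hDE : ∀ a : E, D (algebraMap E L a) = 0) (hlog : LogAt O D)
    (f : L) (hf : f ∈ O) : D f ∈ O.nonunits := by
  obtain ⟨P, hP1, hP2⟩ := exists_sep_poly O hE f (hres f hf)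
  have h1 : D (aeval f P) = aeval f (derivative P) * D f := by
    have h2 := Derivation.map_aeval (triD D hDE) P f
    exact h2
  have hP0 : aeval f (derivative P) ≠ 0 := by
    intro h0
    rw [h0] at hP2
    exact hP2 (zero_nonunits O)
  have h3 : D f = D (aeval f P) * (aeval f (derivative P))⁻¹ := by
    rw [h1]
    field_simp
  rw [h3]
  exact nonunits_mul (hlog.non _ hP1) (inv_mem_of_notMem_nonunits hP2)

theorem exists_eig {E L : Type*} [Field E] [CharZero E] [Field L] [Algebra E L]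
    (O : ValuationSubring L) (hE : ∀ a : E, algebraMap E L a ∈ O) (t : L) (ht : IsUnif O t)
    (hres : ∀ f ∈ O, ∃ P : E[X], P ≠ 0 ∧ aeval f P ∈ O.nonunits)
    (D : Derivation ℤ L L) (hDE : ∀ a : E, D (algebraMap E L a) = 0) (hlog : LogAt O D)
    (u : L) (huO : u ∉ O) (hDu : D u = u)
    (W : Submodule E L) (hW : Module.Finite E W) (hW0 : W ≠ ⊥) (hWD : ∀ x ∈ W, D x ∈ W) :
    ∃ z ∈ W, z ≠ 0 ∧ ∃ μ ∈ Set.range (fun q : ℚ => (q : E)), D z = algebraMap E L μ * z := by
  have hCL : CharZero L := charZero_of_injective_algebraMap (algebraMap E L).injective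
  obtain ⟨z, hz, hz0, hmax⟩ := exists_max_order O hE t ht W hW hW0
  have hu0 : u ≠ 0 := by
    rintro rfl
    exact huO O.zero_mem
  obtain ⟨j, u1, hu1, hu1i, hju⟩ := ht.fac u hu0
  obtain ⟨n, u2, hu2, hu2i, hnz⟩ := ht.fac z hz0
  have hj : j < 0 := by
    by_contra hcon
    apply huO
    rw [hju]
    exact mem_of_unit_mul hu1 ht.mem j (by omega)
  have hu10 : u1 ≠ 0 := by
    rintro rfl
    rw [zero_mul] at hju
    exact hu0 hju
  have hu20 : u2 ≠ 0 := by
    rintro rfl
    rw [zero_mul] at hnz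
    exact hz0 hnz
  -- the unit y0
  have hzp : ∀ (a : L), a ∈ O → a⁻¹ ∈ O → ∀ k : ℤ, a ^ k ∈ O := by
    intro a ha hai k
    rcases le_total 0 k with hk | hk
    · obtain ⟨l, rfl⟩ := Int.eq_ofNat_of_zero_le hk
      rw [zpow_natCast]
      exact pow_mem ha l
    · obtain ⟨l, hl⟩ := Int.eq_ofNat_of_zero_le (Int.neg_nonneg_of_nonpos hk)
      have : k = -(l : ℤ) := by omega
      rw [this, zpow_neg, zpow_natCast, ← inv_pow]
      exact pow_mem hai l
  have hy : z ^ (-j) * u ^ n = u2 ^ (-j) * u1 ^ n := by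
    rw [hnz, hju, mul_zpow, mul_zpow, ← zpow_mul, ← zpow_mul]
    have h1 : t ^ (n * -j) * t ^ (j * n) = 1 := by
      rw [← zpow_add₀ ht.ne, show n * -j + j * n = 0 by ring, zpow_zero]
    calc u2 ^ (-j) * t ^ (n * -j) * (u1 ^ n * t ^ (j * n))
        = u2 ^ (-j) * u1 ^ n * (t ^ (n * -j) * t ^ (j * n)) := by ring
      _ = u2 ^ (-j) * u1 ^ n := by rw [h1, mul_one]
  have hyO : z ^ (-j) * u ^ n ∈ O := by
    rw [hy]
    exact O.mul_mem _ _ (hzp _ hu2 hu2i _) (hzp _ hu1 hu1i _)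
  have hyi : (z ^ (-j) * u ^ n)⁻¹ ∈ O := by
    rw [hy, mul_inv, ← inv_zpow, ← inv_zpow]
    exact O.mul_mem _ _ (hzp _ hu2i (by rw [inv_inv]; exact hu2) _)
      (hzp _ hu1i (by rw [inv_inv]; exact hu1) _)
  have hy0 : z ^ (-j) * u ^ n ≠ 0 := mul_ne_zero (zpow_ne_zero _ hz0) (zpow_ne_zero _ hu0)
  have hDy := tri_small O hE hres D hDE hlog _ hyO
  have hDy2 : D (z ^ (-j) * u ^ n) =
      (z ^ (-j) * u ^ n) * (((-j : ℤ) : L) * (D z / z) + (n : L)) := by
    rw [Derivation.leibniz, tri_leibniz_zpow D z hz0, tri_leibniz_zpow D u hu0, hDu, div_self hu0]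
    simp only [smul_eq_mul]
    ring
  have h4 : ((-j : ℤ) : L) * (D z / z) + (n : L) ∈ O.nonunits := by
    have h5 : ((-j : ℤ) : L) * (D z / z) + (n : L) =
        D (z ^ (-j) * u ^ n) * (z ^ (-j) * u ^ n)⁻¹ := by
      rw [hDy2, mul_comm (z ^ (-j) * u ^ n), mul_assoc, mul_inv_cancel₀ hy0, mul_one]
    rw [h5]
    exact nonunits_mul hDy hyi
  have hjL : ((-j : ℤ) : L) ≠ 0 := by
    rw [Int.cast_ne_zero]
    omega
  have hjE : ((-j : ℤ) : E) ≠ 0 := by
    rw [Int.cast_ne_zero]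
    omega
  let q : ℚ := -((n : ℚ) / ((-j : ℤ) : ℚ))
  have hq : algebraMap E L (q : E) = -((n : L) / ((-j : ℤ) : L)) := by
    have h6 : (q : E) = -((n : E) / ((-j : ℤ) : E)) := by
      simp only [q]
      push_cast
      rfl
    rw [h6, map_neg, map_div₀, map_intCast, map_intCast]
  refine ⟨z, hz, hz0, (q : E), ⟨q, rfl⟩, ?_⟩
  have h1 := hmax (D z - (q : E) • z) (W.sub_mem (hWD z hz) (W.smul_mem _ hz)) (by
    have h2 : (D z - (q : E) • z) / z =
        (((-j : ℤ) : L) * (D z / z) + (n : L)) * algebraMap E L (((-j : ℤ) : E)⁻¹) := by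
      rw [Algebra.smul_def, hq, map_inv₀, map_intCast]
      field_simp
      ring
    rw [h2]
    exact nonunits_mul h4 (hE _))
  rw [Algebra.smul_def] at h1
  exact sub_eq_zero.1 h1

end Pool.Agent.H928R2.Tri
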