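import Pool.Agent.H928R2.TriDef

set_option autoImplicit false

open Polynomial Pool.Agent.H928R2.Inv

namespace Pool.Agent.H928R2.Tri

theorem span_of_exists {E L : Type*} [Field E] [Field L] [Algebra E L]
    (D : Derivation ℤ L L) (c : L →ₗ[E] E) (hc1 : c 1 = 1)
    (hcD : ∀ x, algebraMap E L (c (D x)) = D (algebraMap E L (c x)))
    (Λ : Set E)
    (hex : ∀ W : Submodule E L, Module.Finite E W → W ≠ ⊥ → (∀ x ∈ W, D x ∈ W) →
      ∃ z ∈ W, z ≠ 0 ∧ ∃ μ ∈ Λ, D z = algebraMap E L μ * z)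
    (V : Submodule E L) (hfV : Module.Finite E V) (hV : ∀ x ∈ V, D x ∈ V) :
    V ≤ Submodule.span E {z | z ∈ V ∧ ∃ μ ∈ Λ, D z = algebraMap E L μ * z} := by
  obtain ⟨n, hn⟩ : ∃ n, Module.finrank E V = n := ⟨_, rfl⟩
  induction n using Nat.strong_induction_on generalizing V with
  | _ n ih =>
  by_cases hbot : V = ⊥
  · rw [hbot]; exact bot_le
  obtain ⟨z, hzV, hz0, μ, hμ, hDz⟩ := hex V hfV hbot hV
  set φ : L →ₗ[E] E := c.comp (LinearMap.mulRight E z⁻¹) with hφ
  have hφy : ∀ y, φ y = c (y * z⁻¹) := fun y => rfl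
  have hφz : φ z = 1 := by rw [hφy, mul_inv_cancel₀ hz0, hc1]
  set V' : Submodule E L := V ⊓ LinearMap.ker φ with hV'
  have hle : V' ≤ V := inf_le_left
  have hfV' : Module.Finite E V' := Submodule.finiteDimensional_of_le hle
  have hzV' : z ∉ V' := by
    intro h
    have h2 : φ z = 0 := (Submodule.mem_inf.1 h).2
    rw [hφz] at h2
    exact one_ne_zero h2
  have hltV : V' < V := lt_of_le_of_ne hle fun h => hzV' (h ▸ hzV)
  have hlt : Module.finrank E V' < n := by
    rw [← hn]; exact Submodule.finrank_lt_finrank_of_lt hltV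
  have hV'D : ∀ y ∈ V', D y ∈ V' := by
    intro y hy
    obtain ⟨hy1, hy2⟩ := Submodule.mem_inf.1 hy
    refine Submodule.mem_inf.2 ⟨hV y hy1, ?_⟩
    rw [LinearMap.mem_ker] at hy2 ⊢
    rw [hφy] at hy2 ⊢
    have e1 : D y = (y * z⁻¹) * (algebraMap E L μ * z) + z * D (y * z⁻¹) := by
      have h1 : y = (y * z⁻¹) * z := by rw [mul_assoc, inv_mul_cancel₀ hz0, mul_one]
      conv_lhs => rw [h1]
      rw [Derivation.leibniz, hDz, smul_eq_mul, smul_eq_mul]
    have e2 : D y * z⁻¹ = μ • (y * z⁻¹) + D (y * z⁻¹) := by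
      rw [e1, Algebra.smul_def, add_mul]
      congr 1
      · rw [mul_assoc, mul_assoc (algebraMap E L μ), mul_inv_cancel₀ hz0, mul_one, mul_comm]
      · rw [mul_comm z, mul_assoc, mul_inv_cancel₀ hz0, mul_one]
    rw [e2, map_add, map_smul, hy2, smul_zero, zero_add]
    have h3 := hcD (y * z⁻¹)
    rw [hy2, map_zero, map_zero] at h3
    exact (map_eq_zero_iff (algebraMap E L) (algebraMap E L).injective).1 h3
  have hind := ih _ hlt V' hfV' hV'D rfl
  intro y hy
  have e : y = φ y • z + (y - φ y • z) := by abel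
  rw [e]
  refine Submodule.add_mem _ (Submodule.smul_mem _ _ (Submodule.subset_span ⟨hzV, μ, hμ, hDz⟩)) ?_
  have hmem : y - φ y • z ∈ V' := by
    refine Submodule.mem_inf.2 ⟨Submodule.sub_mem _ hy (Submodule.smul_mem _ _ hzV), ?_⟩
    rw [LinearMap.mem_ker, map_sub, map_smul, hφz, smul_eq_mul, mul_one, sub_self]
  refine Submodule.span_mono ?_ (hind hmem)
  rintro w ⟨hw, hw2⟩
  exact ⟨hle hw, hw2⟩

end Pool.Agent.H928R2.Tri
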