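import Pool.Agent.H928R2.TriLogSR
import Pool.Agent.H928R2.TriC0
import Pool.Agent.H928R2.TriSpan
import Pool.Agent.H928R2.TriMax
import Pool.Agent.H928R2.TriGen
import Pool.Agent.H922R2.R16

/-!
# Jacobian pairs: the case where all finite values at infinity agree
-/

set_option autoImplicit false
set_option linter.unusedSectionVars false

open MvPolynomial Pool.Agent.H928R2.Inv Pool.Agent.H928R2.Pen

namespace Pool.Agent.H928R2.Tri

section abs
variable {E L : Type*} [Field E] [Field L] [Algebra E L]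

/-- every element of `R` lies in some `VN` -/
theorem exists_VN (R : Subalgebra E L) (hS : (SR R).Finite) (t : ValuationSubring L → L)
    (ht : ∀ O ∈ SR R, IsUnif O (t O)) (x : L) (hx : x ∈ R) : ∃ N, x ∈ Pen.P1.VN R t N := by
  classical
  have h1 : ∀ O ∈ SR R, ∃ N : ℕ, ∀ n, N ≤ n → t O ^ n * x ∈ O := by
    intro O hO
    have hu := ht O hO
    rcases eq_or_ne x 0 with rfl | hx0
    · exact ⟨0, fun n _ => by rw [mul_zero]; exact O.zero_mem⟩
    · obtain ⟨j, u, hu1, -, hxu⟩ := hu.fac x hx0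
      refine ⟨(-j).toNat, fun n hn => ?_⟩
      have h2 : t O ^ n * x = u * t O ^ ((n : ℤ) + j) := by
        rw [hxu, zpow_add₀ hu.ne, zpow_natCast]
        ring
      rw [h2]
      exact mem_of_unit_mul hu1 hu.mem _ (by omega)
  choose! N hN using h1
  refine ⟨hS.toFinset.sup N, hx, fun O hO => ?_⟩
  exact hN O hO _ (Finset.le_sup (f := N) (hS.mem_toFinset.2 hO))

end abs

section
variable {k : Type*} [Field k] [CharZero k] [IsAlgClosed k]

/-- uniformizers -/
theorem exists_t {f g : PP k} (hJ : br f g = 1) :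
    ∃ t : ValuationSubring (KK k) → KK k, ∀ O ∈ SR (RE f), IsUnif O (t O) := by
  have h : ∀ O : ValuationSubring (KK k), ∃ t, O ∈ SR (RE f) → IsUnif O t := by
    intro O
    by_cases hO : O ∈ SR (RE f)
    · obtain ⟨t, ht⟩ := SR_unif hJ hO
      exact ⟨t, fun _ => ht⟩
    · exact ⟨0, fun h => absurd h hO⟩
  choose t ht using h
  exact ⟨t, ht⟩

theorem exists_pole {f g : PP k} (hJ : br f g = 1) : ∃ O ∈ SR (RE f), ιK k g ∉ O := by
  obtain ⟨O, hE, hO⟩ := exists_place (ιK k g) (transc_g hJ)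
  exact ⟨O, ⟨hE, ιK k g, ι_mem_RE _ _, hO⟩, hO⟩

theorem gen_of_equal (f g : PP k) (hJ : br f g = 1) (a : EF f)
    (ha : ∀ O' ∈ SR (RE f), ιK k g ∉ O' ∨
      ιK k g - algebraMap (EF f) (KK k) a ∈ O'.nonunits) :
    ∃ T : KK k, IntermediateField.adjoin k {ιK k f, T} = ⊤ := by
  obtain ⟨O, hO, hgO⟩ := exists_pole hJ
  obtain ⟨t, ht⟩ := exists_t hJ
  set u : KK k := ιK k g - algebraMap (EF f) (KK k) a with hu
  have huT : Transcendental (EF f) u := by
    intro h
    apply transc_g hJ
    have h1 : ιK k g = u + algebraMap (EF f) (KK k) a := by rw [hu]; ring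
    rw [h1]
    exact h.add (isAlgebraic_algebraMap a)
  have hu0 : u ≠ 0 := fun h => huT (by rw [h]; exact isAlgebraic_zero)
  have hD2u : D2 f u = 1 := by
    rw [hu, map_sub, D2_g hJ, D2_alg hJ, sub_zero]
  let D : Derivation k (KK k) (KK k) := u • D2 f
  have hD : ∀ x, D x = u * D2 f x := fun _ => rfl
  have hDu : D u = u := by rw [hD, hD2u, mul_one]
  have hDE : ∀ b : EF f, toZ D (algebraMap (EF f) (KK k) b) = 0 := by
    intro b
    rw [toZ_apply, hD, D2_alg hJ, mul_zero]
  have hDf : D (ιK k f) ∈ EF f := by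
    rw [hD, D2_f, mul_zero]
    exact zero_mem _
  have huR : u ∈ RE f := sub_mem (ι_mem_RE _ _) ((RE f).algebraMap_mem a)
  have huO : ∀ O' ∈ SR (RE f), ιK k g ∉ O' → u ∉ O' := by
    intro O' hO' hg hu'
    apply hg
    have h1 : ιK k g = u + algebraMap (EF f) (KK k) a := by rw [hu]; ring
    rw [h1]
    exact O'.add_mem _ _ hu' (hO'.1 a)
  have hlog : ∀ O' ∈ SR (RE f), LogAt O' (toZ D) := by
    intro O' hO'
    rcases ha O' hO' with h | h
    · refine log_SR f g hJ D hDf O' hO' u⁻¹ (-1) (inv_ne_zero hu0) ?_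
        (neg_mem (O'.one_mem)) ?_
      · rw [ValuationSubring.mem_nonunits_iff_or]
        right
        rw [inv_inv]
        exact huO O' hO' h
      · rw [Derivation.leibniz_inv, hDu, smul_eq_mul]
        field_simp
    · exact log_SR f g hJ D hDf O' hO' u 1 hu0 h O'.one_mem (by rw [hDu, one_mul])
  have hDR : ∀ x ∈ RE f, toZ D x ∈ RE f := by
    intro x hx
    rw [toZ_apply, hD]
    exact mul_mem huR (D2_RE f x hx)
  obtain ⟨c, hc1, hc⟩ := exists_c0 u huT (hfin_f hJ u huT)
  have hcD := hc (toZ D) 1 (fun b => ⟨0, by rw [hDE, map_zero]⟩) (by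
    rw [map_one, one_mul, toZ_apply, hDu])
  have hspan : ∀ x ∈ RE f, x ∈ Submodule.span (EF f)
      {z : KK k | ∃ μ ∈ Set.range (fun q : ℚ => (q : EF f)),
        toZ D z = algebraMap (EF f) (KK k) μ * z} := by
    intro x hx
    obtain ⟨N, hN⟩ := exists_VN (RE f) (SR_fin hJ) t ht x hx
    have hfin : Module.Finite (EF f) (Pen.P1.VN (RE f) t N) :=
      Pen.P1.VN_finite (algCl_f hJ) (RE f) (SR_fin hJ) t ht (fun O' hO' => SR_resfin hJ hO') N
    have h1 := span_of_exists (toZ D) c hc1 hcD (Set.range (fun q : ℚ => (q : EF f)))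
      (fun W hW hW0 hWD => exists_eig O hO.1 (t O) (ht O hO) (fun z hz => SR_resalg hJ hO z hz)
        (toZ D) hDE (hlog O hO) u (huO O hO hgO) (by rw [toZ_apply, hDu]) W hW hW0 hWD)
      (Pen.P1.VN (RE f) t N) hfin (fun y hy => log_VN (RE f) t ht (toZ D) hDR hlog N y hy)
    exact Submodule.span_mono (fun z hz => hz.2) (h1 hN)
  obtain ⟨T, hT⟩ := gen_of_eig O hO.1 (t O) (ht O hO) (fun z hz => SR_resalg hJ hO z hz)
    (toZ D) hDE (hlog O hO) (fun x hx => by
      rw [toZ_apply, hD] at hx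
      have h2 := (mul_eq_zero.1 hx).resolve_left hu0
      exact ⟨⟨x, (D2_ker hJ x).1 h2⟩, rfl⟩) u (huO O hO hgO) (by rw [toZ_apply, hDu])
    (RE f) (hfrac_f f) hspan
  refine ⟨T, ?_⟩
  rw [eq_top_iff]
  intro x _
  have hx : x ∈ IntermediateField.adjoin (EF f) {T} := by rw [hT]; trivial
  have hEFle : ∀ y ∈ EF f, y ∈ IntermediateField.adjoin k {ιK k f, T} := by
    intro y hy
    have h3 : EF f ≤ IntermediateField.adjoin k {ιK k f, T} := by
      rw [IntermediateField.adjoin_simple_le_iff]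
      exact IntermediateField.subset_adjoin _ _ (by simp)
    exact h3 hy
  induction hx using IntermediateField.adjoin_induction with
  | mem x hx =>
    rw [Set.mem_singleton_iff] at hx
    rw [hx]
    exact IntermediateField.subset_adjoin _ _ (by simp)
  | algebraMap x => exact hEFle _ x.2
  | add x y _ _ hx hy => exact add_mem (hx trivial) (hy trivial)
  | inv x _ hx => exact inv_mem (hx trivial)
  | mul x y _ _ hx hy => exact mul_mem (hx trivial) (hy trivial)

end

end Pool.Agent.H928R2.Tri
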