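import Pool.Agent.H928R2.TriCon

/-!
# Exact modules of rational functions in `f` consist of polynomials (task H13, helper61)
-/

set_option autoImplicit false
set_option linter.unusedSectionVars false

namespace Pool.Agent.H928R2.Tri

section
open Polynomial

/-- abstract version: a module of exact elements of `k(t)` consists of polynomials -/
theorem exact_abs {k L : Type*} [Field k] [CharZero k] [IsAlgClosed k] [Field L]
    (D : L → L) (hL : ∀ x y : L, D (x * y) = x * D y + y * D x)
    (e : Polynomial k →+* L) (he : Function.Injective e)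
    (hD : ∀ γ : Polynomial k, D (e γ) = e (derivative γ)) (N : Set L)
    (hN : ∀ n ∈ N, ∀ γ : Polynomial k, e γ * n ∈ N)
    (hfr : ∀ n ∈ N, ∃ a b : Polynomial k, b ≠ 0 ∧ n = e a / e b)
    (hex : ∀ n ∈ N, ∃ a b : Polynomial k, b ≠ 0 ∧ D (e a / e b) = n) :
    ∀ n ∈ N, ∃ γ : Polynomial k, n = e γ := by
  classical
  have hne : ∀ {p : Polynomial k}, p ≠ 0 → e p ≠ 0 := fun hp => (map_ne_zero_iff e he).2 hp
  -- reduction to coprime fractions
  have hred : ∀ a b : Polynomial k, b ≠ 0 → ∃ a' b' : Polynomial k, b' ≠ 0 ∧ IsCoprime a' b' ∧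
      e a / e b = e a' / e b' := by
    intro a b hb
    obtain ⟨a', b', c', hco, ha, hb'⟩ := UniqueFactorizationMonoid.exists_reduced_factors' a b hb
    have hc' : c' ≠ 0 := by
      rintro rfl
      rw [zero_mul] at hb'
      exact hb hb'.symm
    have hb'' : b' ≠ 0 := by
      rintro rfl
      rw [mul_zero] at hb'
      exact hb hb'.symm
    refine ⟨a', b', hb'', hco.isCoprime, ?_⟩
    rw [← ha, ← hb', map_mul, map_mul, mul_div_mul_left _ _ (hne hc')]
  intro n hn
  obtain ⟨a0, b0, hb0, rfl⟩ := hfr n hn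
  obtain ⟨a, b, hb, hab, hn2⟩ := hred a0 b0 hb0
  rw [hn2] at hn ⊢
  by_cases hdeg : b.degree = 0
  · -- constant denominator
    have h1 := Polynomial.eq_C_of_degree_eq_zero hdeg
    have h2 : b.coeff 0 ≠ 0 := by
      intro h
      rw [h, map_zero] at h1
      exact hb h1
    refine ⟨a * C (b.coeff 0)⁻¹, ?_⟩
    rw [div_eq_iff (hne hb), ← map_mul]
    congr 1
    conv_rhs => rw [h1]
    rw [mul_assoc, ← C_mul, coeff_C_zero, inv_mul_cancel₀ h2, C_1, mul_one]
  · exfalso
    obtain ⟨c, hc⟩ := IsAlgClosed.exists_root b hdeg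
    obtain ⟨b1, hb1⟩ := Polynomial.dvd_iff_isRoot.2 hc
    have hX : (X - C c : Polynomial k) ≠ 0 := X_sub_C_ne_zero c
    have hb10 : b1 ≠ 0 := by
      rintro rfl
      rw [mul_zero] at hb1
      exact hb hb1
    have hac : a.eval c ≠ 0 := by
      intro h
      obtain ⟨u, v, huv⟩ := hab
      have h3 := congrArg (eval c) huv
      rw [eval_add, eval_mul, eval_mul, h, hc.eq_zero, eval_one] at h3
      simp at h3
    have hn3 := hN _ hn b1
    have h4 : e b1 * (e a / e b) = e a / e (X - C c) := by
      rw [hb1, map_mul]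
      have := hne hb10
      have := hne hX
      field_simp
    rw [h4] at hn3
    obtain ⟨u0, v0, hv0, huv0⟩ := hex _ hn3
    obtain ⟨u, v, hv, huv, h5⟩ := hred u0 v0 hv0
    rw [h5] at huv0
    -- the quotient rule
    have h6 : D (e u / e v) * e v ^ 2 = e (derivative u) * e v - e u * e (derivative v) := by
      have h7 : D (e u / e v * e v) = D (e u) := by
        rw [div_mul_cancel₀ _ (hne hv)]
      rw [hL, hD, hD] at h7
      have h8 : e v * D (e u / e v) = e (derivative u) - e u / e v * e (derivative v) := by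
        rw [← h7]; ring
      have := hne hv
      calc D (e u / e v) * e v ^ 2 = (e v * D (e u / e v)) * e v := by ring
        _ = (e (derivative u) - e u / e v * e (derivative v)) * e v := by rw [h8]
        _ = _ := by field_simp
    have h9 : a * v ^ 2 = (X - C c) * (derivative u * v - u * derivative v) := by
      apply he
      rw [huv0] at h6
      have h61 : e (derivative u * v - u * derivative v) =
          e (derivative u) * e v - e u * e (derivative v) := by
        rw [map_sub, map_mul, map_mul]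
      rw [map_mul, map_mul, map_pow, h61, ← h6]
      have := hne hX
      field_simp
    have hvc : v.eval c = 0 := by
      have h10 := congrArg (eval c) h9
      simp only [eval_mul, eval_pow, eval_sub, eval_X, eval_C, sub_self, zero_mul] at h10
      rcases mul_eq_zero.1 h10 with h | h
      · exact absurd h hac
      · exact pow_eq_zero_iff (two_ne_zero) |>.1 h
    have huc : u.eval c ≠ 0 := by
      intro h
      obtain ⟨p, q, hpq⟩ := huv
      have h3 := congrArg (eval c) hpq
      rw [eval_add, eval_mul, eval_mul, h, hvc, eval_one] at h3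
      simp at h3
    obtain ⟨v1, hv1, hnd⟩ := Polynomial.exists_eq_pow_rootMultiplicity_mul_and_not_dvd v hv c
    have hm : 0 < rootMultiplicity c v := (Polynomial.rootMultiplicity_pos hv).2 hvc
    obtain ⟨m, hm'⟩ := Nat.exists_eq_succ_of_ne_zero hm.ne'
    rw [hm'] at hv1
    have hv1c : v1.eval c ≠ 0 := by
      intro h
      exact hnd (Polynomial.dvd_iff_isRoot.2 h)
    have hder : derivative v = C ((m : k) + 1) * (X - C c) ^ m * v1 + (X - C c) ^ (m + 1) *
        derivative v1 := by
      rw [hv1, derivative_mul, Nat.succ_eq_add_one, derivative_X_sub_C_pow]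
      simp
    have h11 : (X - C c) ^ (m + 1) * (a * (X - C c) ^ (m + 1) * v1 ^ 2) = (X - C c) ^ (m + 1) *
        ((X - C c) * (derivative u * v1 - u * derivative v1) - C ((m : k) + 1) * u * v1) := by
      calc (X - C c) ^ (m + 1) * (a * (X - C c) ^ (m + 1) * v1 ^ 2)
          = a * v ^ 2 := by rw [hv1, Nat.succ_eq_add_one]; ring
        _ = (X - C c) * (derivative u * v - u * derivative v) := h9
        _ = _ := by rw [hder, hv1, Nat.succ_eq_add_one]; ring
    have h12 := mul_left_cancel₀ (pow_ne_zero _ hX) h11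
    have h13 := congrArg (eval c) h12
    simp only [eval_mul, eval_pow, eval_sub, eval_X, eval_C, sub_self, zero_mul, mul_zero,
      zero_pow (Nat.succ_ne_zero m), zero_sub] at h13
    have h14 : ((m : k) + 1) ≠ 0 := by exact_mod_cast Nat.succ_ne_zero m
    have h15 : ((m : k) + 1) * eval c u * eval c v1 ≠ 0 := mul_ne_zero (mul_ne_zero h14 huc) hv1c
    exact h15 (neg_eq_zero.1 h13.symm)

end

open MvPolynomial Pool.Agent.H928R2.Inv Pool.Agent.H928R2.Pen

theorem exact_poly {k : Type*} [Field k] [CharZero k] [IsAlgClosed k] (f g : PP k)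
    (hJ : br f g = 1) (N : Set (KK k)) (hNE : ∀ n ∈ N, n ∈ EF f)
    (hN : ∀ n ∈ N, ∀ γ : Polynomial k, ev f γ * n ∈ N)
    (hex : ∀ n ∈ N, ∃ m ∈ EF f, D1 g m = n) :
    ∀ n ∈ N, ∃ γ : Polynomial k, n = ev f γ := by
  have hc : ∀ c, f ≠ C c := by
    rintro c rfl
    rw [br_C_left] at hJ
    exact zero_ne_one hJ
  have hinj : Function.Injective (ev f) := by
    intro a b hab
    rw [ev_apply, ev_apply] at hab
    exact aeval_inj hc (iR_inj hab)
  have hD1 : D1 g (ιK k f) = 1 := by
    unfold D1
    rw [DK_coe, dd_apply]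
    have h1 : -pderiv 0 g * pderiv 1 f - -pderiv 1 g * pderiv 0 f = br f g := by
      unfold br
      ring
    rw [h1, hJ, map_one]
  have hDe : ∀ γ : Polynomial k, D1 g (ev f γ) = ev f (Polynomial.derivative γ) := by
    intro γ
    rw [ev_eq, ev_eq, Derivation.map_aeval, hD1, smul_eq_mul, mul_one]
  have hfrac : ∀ n ∈ EF f, ∃ a b : Polynomial k, b ≠ 0 ∧ n = ev f a / ev f b := by
    intro n hn
    obtain ⟨a, b, hb, hab⟩ := adj_frac f hc n hn
    refine ⟨a, b, hb, ?_⟩
    rw [eq_div_iff ((map_ne_zero_iff _ hinj).2 hb)]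
    exact hab
  refine exact_abs (fun x => D1 g x) (fun x y => ?_) (ev f) hinj hDe N hN
    (fun n hn => hfrac n (hNE n hn)) ?_
  · show D1 g (x * y) = x * D1 g y + y * D1 g x
    rw [Derivation.leibniz, smul_eq_mul, smul_eq_mul]
  intro n hn
  obtain ⟨m, hm, hmn⟩ := hex n hn
  obtain ⟨a, b, hb, hab⟩ := hfrac m hm
  exact ⟨a, b, hb, by rw [← hab]; exact hmn⟩

end Pool.Agent.H928R2.Tri
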