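import Pool.Agent.H928R2.TriDef

/-!
Task H4 of helper928 (Jacobian conjecture, pencil project): expansion in the inverse of a
transcendental generator (helper747).
-/

set_option autoImplicit false

open Polynomial Pool.Agent.H928R2.Inv

namespace Pool.Agent.H928R2.Tri

open scoped RatFunc in
theorem exp_coe_C {E : Type*} [Field E] (a : E) :
    algebraMap (RatFunc E) (LaurentSeries E) (algebraMap E (RatFunc E) a) = HahnSeries.C a := by
  rw [IsScalarTower.algebraMap_apply E E[X] (RatFunc E),
    ← IsScalarTower.algebraMap_apply E[X] (RatFunc E) (LaurentSeries E)]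
  simp

theorem exp_htr (E : Type*) [Field E] : Transcendental E (RatFunc.X⁻¹ : RatFunc E) := by
  intro h
  exact RatFunc.transcendental_X (K := E) (IsAlgebraic.inv_iff.mp h)

open scoped RatFunc in
/-- the embedding with `g ↦ X⁻¹` -/
noncomputable def expIota {E L : Type*} [Field E] [Field L] [Algebra E L] (g : L)
    (hg : Transcendental E g) : IntermediateField.adjoin E {g} →+* LaurentSeries E :=
  (algebraMap (RatFunc E) (LaurentSeries E)).comp
    ((((IntermediateField.val _).comp (RatFunc.algEquivOfTranscendental (RatFunc.X⁻¹ : RatFunc E)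
      (exp_htr E)).toAlgHom).comp
      (RatFunc.algEquivOfTranscendental g hg).symm.toAlgHom).toRingHom)

open scoped RatFunc in
theorem expIota_C {E L : Type*} [Field E] [Field L] [Algebra E L] (g : L)
    (hg : Transcendental E g) (a : E) :
    expIota g hg (algebraMap E (IntermediateField.adjoin E {g}) a) = HahnSeries.C a := by
  rw [← exp_coe_C]
  unfold expIota
  rw [RingHom.comp_apply]
  congr 1
  exact AlgHom.commutes _ a

open scoped RatFunc in
theorem expIota_g {E L : Type*} [Field E] [Field L] [Algebra E L] (g : L)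
    (hg : Transcendental E g) :
    expIota g hg (IntermediateField.AdjoinSimple.gen E g) = HahnSeries.single (-1) 1 := by
  unfold expIota
  rw [RingHom.comp_apply]
  have h1 : ((((IntermediateField.val _).comp
      (RatFunc.algEquivOfTranscendental (RatFunc.X⁻¹ : RatFunc E) (exp_htr E)).toAlgHom).comp
      (RatFunc.algEquivOfTranscendental g hg).symm.toAlgHom).toRingHom)
      (IntermediateField.AdjoinSimple.gen E g) = (RatFunc.X⁻¹ : RatFunc E) := by
    have h2 := RatFunc.algEquivOfTranscendental_symm_gen g hg
    have h3 := RatFunc.algEquivOfTranscendental_X (RatFunc.X⁻¹ : RatFunc E) (exp_htr E)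
    exact (congrArg (fun z => ((RatFunc.algEquivOfTranscendental (RatFunc.X⁻¹ : RatFunc E)
      (exp_htr E) z : _) : RatFunc E)) h2).trans h3
  rw [h1, map_inv₀, RatFunc.coe_X, HahnSeries.inv_single, inv_one]

/-- coefficientwise operator -/
noncomputable def tOp {E : Type*} [Field E] (A : ℤ → E →+ E) (x : LaurentSeries E) :
    LaurentSeries E where
  coeff n := A n (x.coeff n)
  isPWO_support' := x.isPWO_support.mono (fun n hn h => hn (by
    show A n (x.coeff n) = 0
    rw [show x.coeff n = 0 from h, map_zero]))

theorem tOp_coeff {E : Type*} [Field E] (A : ℤ → E →+ E) (x : LaurentSeries E) (n : ℤ) :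
    (tOp A x).coeff n = A n (x.coeff n) := rfl

theorem tOp_add {E : Type*} [Field E] (A : ℤ → E →+ E) (x y : LaurentSeries E) :
    tOp A (x + y) = tOp A x + tOp A y := by
  ext n
  rw [HahnSeries.coeff_add, tOp_coeff, tOp_coeff, tOp_coeff, HahnSeries.coeff_add, map_add]

theorem tOp_supp {E : Type*} [Field E] (A : ℤ → E →+ E) (x : LaurentSeries E) :
    (tOp A x).support ⊆ x.support := by
  intro n hn h
  apply hn
  show A n (x.coeff n) = 0
  rw [show x.coeff n = 0 from h, map_zero]

theorem tOp_mul {E : Type*} [Field E] (A : ℤ → E →+ E)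
    (hA : ∀ i j a b, A (i + j) (a * b) = A i a * b + a * A j b) (x y : LaurentSeries E) :
    tOp A (x * y) = tOp A x * y + x * tOp A y := by
  ext n
  rw [HahnSeries.coeff_add, tOp_coeff, HahnSeries.coeff_mul, map_sum,
    HahnSeries.coeff_mul_left' x.isPWO_support (tOp_supp A x),
    HahnSeries.coeff_mul_right' y.isPWO_support (tOp_supp A y), ← Finset.sum_add_distrib]
  refine Finset.sum_congr rfl fun ij hij => ?_
  have hn : ij.1 + ij.2 = n := by
    simpa using (Finset.mem_antidiagonal.mp hij).2.2
  rw [← hn, hA, tOp_coeff, tOp_coeff]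

theorem tOp_single {E : Type*} [Field E] (A : ℤ → E →+ E) (i : ℤ) (a : E) :
    tOp A (HahnSeries.single i a) = HahnSeries.single i (A i a) := by
  classical
  ext n
  rw [tOp_coeff]
  by_cases h : n = i
  · subst h
    rw [HahnSeries.coeff_single_same, HahnSeries.coeff_single_same]
  · rw [HahnSeries.coeff_single_of_ne h, HahnSeries.coeff_single_of_ne h, map_zero]

theorem exists_exp {E L : Type*} [Field E] [CharZero E] [Field L] [Algebra E L] (g : L)
    (hg : Transcendental E g) :
    ∃ ι : IntermediateField.adjoin E {g} →+* LaurentSeries E,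
      (∀ a : E, ι (algebraMap E (IntermediateField.adjoin E {g}) a) = HahnSeries.C a) ∧
      ι (IntermediateField.AdjoinSimple.gen E g) = HahnSeries.single (-1) 1 ∧
      ∀ (D : Derivation ℤ L L) (δ : E → E) (η θ : E),
        (∀ a, D (algebraMap E L a) = algebraMap E L (δ a)) →
        D g = algebraMap E L η * g + algebraMap E L θ →
        ∀ x : IntermediateField.adjoin E {g}, ∃ y : IntermediateField.adjoin E {g},
          (y : L) = D x ∧ ∀ n : ℤ, (ι y).coeff n = δ ((ι x).coeff n) - n * η * (ι x).coeff n
            - (n - 1) * θ * (ι x).coeff (n - 1) := by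
  refine ⟨expIota g hg, expIota_C g hg, expIota_g g hg, ?_⟩
  intro D δ η θ hδ hη
  have hinj : Function.Injective (algebraMap E L) := (algebraMap E L).injective
  have hadd : ∀ a b, δ (a + b) = δ a + δ b := by
    intro a b
    apply hinj
    rw [map_add, ← hδ, ← hδ, ← hδ, map_add, map_add]
  have hmul : ∀ a b, δ (a * b) = δ a * b + a * δ b := by
    intro a b
    apply hinj
    rw [map_add, map_mul, map_mul, ← hδ, ← hδ, ← hδ, map_mul, Derivation.leibniz]
    simp only [smul_eq_mul]
    ring
  have h0 : δ 0 = 0 := by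
    have := hadd 0 0
    rw [add_zero] at this
    linear_combination -this
  have h1 : δ 1 = 0 := by
    have := hmul 1 1
    rw [mul_one, mul_one, one_mul] at this
    linear_combination -this
  let A : ℤ → E →+ E := fun n =>
    { toFun := fun a => δ a - n * η * a
      map_zero' := by rw [h0, mul_zero, sub_zero]
      map_add' := by intro a b; rw [hadd]; ring }
  let B : ℤ → E →+ E := fun n =>
    { toFun := fun a => -(n * θ * a)
      map_zero' := by rw [mul_zero, neg_zero]
      map_add' := by intro a b; ring }
  have hAv : ∀ n a, A n a = δ a - n * η * a := fun _ _ => rfl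
  have hBv : ∀ n a, B n a = -(n * θ * a) := fun _ _ => rfl
  have hA : ∀ i j a b, A (i + j) (a * b) = A i a * b + a * A j b := by
    intro i j a b
    rw [hAv, hAv, hAv, hmul]
    push_cast
    ring
  have hB : ∀ i j a b, B (i + j) (a * b) = B i a * b + a * B j b := by
    intro i j a b
    rw [hBv, hBv, hBv]
    push_cast
    ring
  set T : LaurentSeries E := HahnSeries.single 1 1 with hT
  let Δ : LaurentSeries E → LaurentSeries E := fun x => tOp A x + T * tOp B x
  have hΔ : ∀ x, Δ x = tOp A x + T * tOp B x := fun _ => rfl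
  have hΔadd : ∀ x y, Δ (x + y) = Δ x + Δ y := by
    intro x y
    rw [hΔ, hΔ, hΔ, tOp_add, tOp_add]
    ring
  have hΔmul : ∀ x y, Δ (x * y) = Δ x * y + x * Δ y := by
    intro x y
    rw [hΔ, hΔ, hΔ, tOp_mul A hA, tOp_mul B hB]
    ring
  have hΔ1 : Δ 1 = 0 := by
    have := hΔmul 1 1
    rw [mul_one, mul_one, one_mul] at this
    linear_combination -this
  have hΔcoeff : ∀ (x : LaurentSeries E) (n : ℤ), (Δ x).coeff n =
      δ (x.coeff n) - n * η * x.coeff n - (n - 1) * θ * x.coeff (n - 1) := by
    intro x n
    rw [hΔ, HahnSeries.coeff_add, hT, HahnSeries.coeff_single_mul, tOp_coeff, tOp_coeff, hAv, hBv]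
    push_cast
    ring
  have hΔC : ∀ a, Δ (HahnSeries.C a) = HahnSeries.C (δ a) := by
    intro a
    rw [hΔ, HahnSeries.C_apply, tOp_single, tOp_single, hAv, hBv, HahnSeries.C_apply]
    simp
  have hΔg : Δ (HahnSeries.single (-1) 1) =
      HahnSeries.C η * HahnSeries.single (-1) 1 + HahnSeries.C θ := by
    rw [hΔ, hT, tOp_single, tOp_single, hAv, hBv, h1, HahnSeries.C_apply, HahnSeries.C_apply,
      HahnSeries.single_mul_single, HahnSeries.single_mul_single]
    simp
  have key : ∀ (x : L) (hx : x ∈ IntermediateField.adjoin E {g}),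
      ∃ y : IntermediateField.adjoin E {g}, (y : L) = D x ∧
        expIota g hg y = Δ (expIota g hg ⟨x, hx⟩) := by
    intro x hx
    induction hx using IntermediateField.adjoin_induction with
    | mem x hx =>
      rw [Set.mem_singleton_iff] at hx
      subst hx
      refine ⟨algebraMap E _ η * IntermediateField.AdjoinSimple.gen E x + algebraMap E _ θ, ?_, ?_⟩
      · rw [hη]
        rfl
      · rw [map_add, map_mul, expIota_C, expIota_C, expIota_g, ← hΔg, ← expIota_g x hg]
        rfl
    | algebraMap a =>
      refine ⟨algebraMap E _ (δ a), ?_, ?_⟩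
      · rw [hδ]
        rfl
      · rw [expIota_C, ← hΔC, ← expIota_C g hg]
        rfl
    | add x y hx hy ihx ihy =>
      obtain ⟨x', hx1, hx2⟩ := ihx
      obtain ⟨y', hy1, hy2⟩ := ihy
      refine ⟨x' + y', ?_, ?_⟩
      · rw [map_add, ← hx1, ← hy1]
        rfl
      · rw [map_add, hx2, hy2, ← hΔadd, ← map_add]
        rfl
    | mul x y hx hy ihx ihy =>
      obtain ⟨x', hx1, hx2⟩ := ihx
      obtain ⟨y', hy1, hy2⟩ := ihy
      refine ⟨x' * ⟨y, hy⟩ + ⟨x, hx⟩ * y', ?_, ?_⟩
      · rw [Derivation.leibniz, ← hx1, ← hy1]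
        show (x' : L) * y + x * (y' : L) = x • (y' : L) + y • (x' : L)
        simp only [smul_eq_mul]
        ring
      · rw [map_add, map_mul, map_mul, hx2, hy2, ← hΔmul, ← map_mul]
        rfl
    | inv x hx ihx =>
      obtain ⟨x', hx1, hx2⟩ := ihx
      by_cases hx0 : x = 0
      · subst hx0
        refine ⟨0, ?_, ?_⟩
        · rw [inv_zero, map_zero]
          rfl
        · rw [map_zero]
          have e1 : (⟨(0 : L)⁻¹, inv_mem hx⟩ : IntermediateField.adjoin E {g}) = 0 := by
            apply Subtype.ext
            show (0 : L)⁻¹ = 0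
            exact inv_zero
          have e2 : Δ 0 = 0 := by
            have := hΔadd 0 0
            rw [add_zero] at this
            linear_combination -this
          rw [e1, map_zero, e2]
      · refine ⟨-(⟨x, hx⟩ : IntermediateField.adjoin E {g})⁻¹ ^ 2 * x', ?_, ?_⟩
        · rw [Derivation.leibniz_inv, ← hx1]
          rfl
        · have e1 : (⟨x⁻¹, inv_mem hx⟩ : IntermediateField.adjoin E {g}) =
              (⟨x, hx⟩ : IntermediateField.adjoin E {g})⁻¹ := rfl
          rw [e1, map_mul, map_neg, map_pow, map_inv₀, hx2]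
          set u : LaurentSeries E := expIota g hg ⟨x, hx⟩ with hu
          have hu0 : u ≠ 0 := by
            rw [hu]
            intro h
            apply hx0
            have := (expIota g hg).injective (h.trans (map_zero _).symm)
            exact congrArg Subtype.val this
          have e2 := hΔmul u u⁻¹
          rw [mul_inv_cancel₀ hu0, hΔ1] at e2
          have e3 : Δ u⁻¹ = -(u⁻¹ * (Δ u * u⁻¹)) := by
            have e4 : u * Δ u⁻¹ = -(Δ u * u⁻¹) := by linear_combination -e2
            calc Δ u⁻¹ = u⁻¹ * (u * Δ u⁻¹) := by rw [← mul_assoc, inv_mul_cancel₀ hu0, one_mul]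
              _ = _ := by rw [e4, mul_neg]
          rw [e3]
          ring
  intro x
  obtain ⟨y, hy1, hy2⟩ := key x x.2
  refine ⟨y, hy1, fun n => ?_⟩
  rw [hy2, hΔcoeff]

end Pool.Agent.H928R2.Tri
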