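import Pool.Agent.H928R2.TriN
import Pool.Agent.H928R2.PenQuad

/-!
# Extending derivations and valuation rings to a finite extension
-/

set_option autoImplicit false
set_option linter.unusedSectionVars false

open MvPolynomial Pool.Agent.H928R2.Inv Pool.Agent.H928R2.Pen

namespace Pool.Agent.H928R2.Tri

theorem ext_der {L L' : Type*} [Field L] [CharZero L] [Field L'] [Algebra L L']
    [FiniteDimensional L L'] (D : Derivation ℤ L L) :
    ∃ D' : Derivation ℤ L' L', ∀ x, D' (algebraMap L L' x) = algebraMap L L' (D x) := by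
  let i1 : Differential L := ⟨D⟩
  let i2 : Differential L' := Differential.differentialFiniteDimensional L L'
  have i3 : DifferentialAlgebra L L' := Differential.differentialAlgebraFiniteDimensional
  exact ⟨Differential.deriv, fun x => i3.deriv_algebraMap x⟩

theorem der_alg {E L' : Type*} [Field E] [CharZero E] [Field L'] [Algebra E L']
    (E' : IntermediateField E L') (halg : ∀ a ∈ E', IsAlgebraic E a) (D' : Derivation ℤ L' L')
    (hDE : ∀ a : E, ∃ b : E, D' (algebraMap E L' a) = algebraMap E L' b) (a : E') :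
    ∃ b : E', D' (algebraMap E' L' a) = algebraMap E' L' b := by
  obtain ⟨x, hx⟩ := a
  show ∃ b : E', D' x = b
  have hint : IsIntegral E x := (halg x hx).isIntegral
  obtain ⟨p, hp⟩ : ∃ p, p = minpoly E x := ⟨_, rfl⟩
  have hp0 : Polynomial.aeval x p = 0 := by rw [hp]; exact minpoly.aeval E x
  have hsep : Polynomial.aeval x (Polynomial.derivative p) ≠ 0 := by
    intro h0
    have h1 := minpoly.dvd E x h0
    rw [← hp] at h1
    have hirr : Irreducible p := by rw [hp]; exact minpoly.irreducible hint
    have h2 : p.Separable := hirr.separable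
    have h3 : Polynomial.derivative p ≠ 0 := by
      intro h
      have h4 : p.natDegree = 0 := Polynomial.derivative_eq_zero.1 h
      have h5 := hirr.natDegree_pos
      omega
    have h6 := Polynomial.natDegree_le_of_dvd h1 h3
    have h7 := Polynomial.natDegree_derivative_lt (p := p) (by have := hirr.natDegree_pos; omega)
    omega
  choose c hc using hDE
  -- derivative of a polynomial expression
  have key : ∀ q : Polynomial E, ∃ r ∈ E', D' (Polynomial.aeval x q) =
      r + Polynomial.aeval x (Polynomial.derivative q) * D' x := by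
    intro q
    induction q using Polynomial.induction_on' with
    | add p q hp hq =>
      obtain ⟨r, hr, hr'⟩ := hp
      obtain ⟨s, hs, hs'⟩ := hq
      refine ⟨r + s, add_mem hr hs, ?_⟩
      rw [map_add, map_add, hr', hs', map_add, map_add]
      ring
    | monomial n a =>
      refine ⟨algebraMap E L' (c a) * x ^ n, mul_mem (IntermediateField.algebraMap_mem _ _)
        (pow_mem hx n), ?_⟩
      rw [Polynomial.aeval_monomial, Derivation.leibniz, Derivation.leibniz_pow, hc,
        Polynomial.derivative_monomial, Polynomial.aeval_monomial]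
      simp only [smul_eq_mul, nsmul_eq_mul, map_mul, map_natCast]
      ring
  obtain ⟨r, hr, hr'⟩ := key p
  rw [hp0, map_zero] at hr'
  have h8 : D' x = -r / Polynomial.aeval x (Polynomial.derivative p) := by
    rw [eq_div_iff hsep]
    linear_combination (-1 : L') * hr'
  have h9 : Polynomial.aeval x (Polynomial.derivative p) ∈ E' := by
    have : Polynomial.aeval x (Polynomial.derivative p) =
        ((Polynomial.aeval (⟨x, hx⟩ : E') (Polynomial.derivative p) : E') : L') := by
      rw [← IntermediateField.coe_val, ← Polynomial.aeval_algHom_apply]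
      rfl
    rw [this]
    exact SetLike.coe_mem _
  exact ⟨⟨_, div_mem (neg_mem hr) h9⟩, h8⟩

theorem ext_val {L L' : Type*} [Field L] [Field L'] [Algebra L L'] (O : ValuationSubring L) :
    ∃ O' : ValuationSubring L', ∀ z : L, algebraMap L L' z ∈ O' ↔ z ∈ O := by
  obtain ⟨φ, hφ⟩ : ∃ φ : L →+* L', φ = algebraMap L L' := ⟨_, rfl⟩
  rw [← hφ]
  let A : Subring L' := O.toSubring.map φ
  let e : O →+* A := (φ.comp O.subtype).codRestrict A (fun x => ⟨x, x.2, rfl⟩)
  have he : Function.Surjective e := by
    rintro ⟨y, x, hx, rfl⟩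
    exact ⟨⟨x, hx⟩, rfl⟩
  let I : Ideal A := (IsLocalRing.maximalIdeal O).map e
  have hker : RingHom.ker e ≤ IsLocalRing.maximalIdeal O := by
    intro x hx
    rw [RingHom.mem_ker] at hx
    have h1 : φ (x : L) = 0 := congrArg Subtype.val hx
    have h2 : (x : L) = 0 := by
      rw [map_eq_zero] at h1
      exact h1
    have h3 : x = 0 := Subtype.ext h2
    rw [h3]
    exact Ideal.zero_mem _
  have hI : I ≠ ⊤ := by
    intro h
    have h1 : (1 : A) ∈ (IsLocalRing.maximalIdeal O).map e := by
      show (1 : A) ∈ I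
      rw [h]; exact Submodule.mem_top
    rw [Ideal.mem_map_iff_of_surjective e he] at h1
    obtain ⟨x, hx, hx1⟩ := h1
    have h2 : x - 1 ∈ IsLocalRing.maximalIdeal O := hker (by
      rw [RingHom.mem_ker, map_sub, hx1, map_one, sub_self])
    have h3 : (1 : O) ∈ IsLocalRing.maximalIdeal O := by
      have := Ideal.sub_mem _ hx h2
      rwa [sub_sub_cancel] at this
    exact (Ideal.ne_top_iff_one _).1 (IsLocalRing.maximalIdeal.isMaximal O).ne_top h3
  obtain ⟨B, hAB, hIB⟩ := Ideal.image_subset_nonunits_valuationSubring I hI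
  have hmem : ∀ f ∈ O, φ f ∈ B := fun f hf => hAB ⟨f, hf, rfl⟩
  refine ⟨B, fun f => ⟨fun h => ?_, hmem f⟩⟩
  by_contra hf
  have hf0 : f ≠ 0 := by
    rintro rfl
    exact hf O.zero_mem
  have h1 : f⁻¹ ∈ O.nonunits := by
    rw [ValuationSubring.mem_nonunits_iff_or, inv_inv]
    exact Or.inr hf
  have h2 : (⟨f⁻¹, nonunits_mem h1⟩ : O) ∈ IsLocalRing.maximalIdeal O := by
    rw [← ValuationSubring.coe_mem_nonunits_iff]
    exact h1
  have h3 : φ f⁻¹ ∈ B.nonunits := hIB ⟨e ⟨f⁻¹, nonunits_mem h1⟩, Ideal.mem_map_of_mem e h2, rfl⟩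
  refine notMem_nonunits_of_inv ?_ ?_ h3
  · exact (map_ne_zero φ).2 (inv_ne_zero hf0)
  · rw [← map_inv₀, inv_inv]
    exact h

end Pool.Agent.H928R2.Tri
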