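import Pool.Agent.H928R2.PenBase

set_option autoImplicit false
set_option linter.unusedSectionVars false

open MvPolynomial Pool.Agent.H928R2.Inv Pool.Agent.H928R2.Pen

namespace Pool.Agent.H928R2.Tri

namespace FieldD

open Pool.Agent.H922R2

/-- the invariant: all coefficient functionals lead to elements of `M` -/
def Q {k : Type*} [Field k] (K : Type*) [Field K] [Algebra k K] (M : IntermediateField k (KK k))
    (x : KK K) : Prop :=
  ∃ q : PP k, q ≠ 0 ∧ ∃ P : PP K, x * ιK K (mE k K (Fin 2) q) = ιK K P ∧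
    ∀ ρ : K →ₗ[k] k, ιK k (rr ρ P) / ιK k q ∈ M

variable {k : Type*} [Field k] [CharZero k] {K : Type*} [Field K] [CharZero K] [Algebra k K]
  {M : IntermediateField k (KK k)}

theorem rr_zero (ρ : K →ₗ[k] k) : rr ρ (0 : PP K) = 0 := by
  ext m
  rw [coeff_rr, coeff_zero, coeff_zero, map_zero]

theorem Q_zero : Q K M 0 := by
  refine ⟨1, one_ne_zero, 0, by simp, fun ρ => ?_⟩
  rw [rr_zero]
  simp

theorem Q_add {x y : KK K} (hx : Q K M x) (hy : Q K M y) : Q K M (x + y) := by
  obtain ⟨q, hq, P, hP, hρ⟩ := hx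
  obtain ⟨q', hq', P', hP', hρ'⟩ := hy
  refine ⟨q * q', mul_ne_zero hq hq', mE k K (Fin 2) q' * P + mE k K (Fin 2) q * P', ?_, ?_⟩
  · rw [map_mul, map_mul, map_add, map_mul, map_mul, ← hP, ← hP']
    ring
  · intro ρ
    rw [rr_add, rr_mul, rr_mul, map_add, map_mul, map_mul, map_mul]
    have h1 : ιK k q ≠ 0 := (map_ne_zero_iff _ iR_inj).2 hq
    have h2 : ιK k q' ≠ 0 := (map_ne_zero_iff _ iR_inj).2 hq'
    have h3 : (ιK k q' * ιK k (rr ρ P) + ιK k q * ιK k (rr ρ P')) / (ιK k q * ιK k q') =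
        ιK k (rr ρ P) / ιK k q + ιK k (rr ρ P') / ιK k q' := by
      field_simp
    rw [h3]
    exact add_mem (hρ ρ) (hρ' ρ)

theorem Q_const (c : K) : Q K M (algebraMap K (KK K) c) := by
  refine ⟨1, one_ne_zero, C c, ?_, ?_⟩
  · rw [map_one, map_one, mul_one, ← MvPolynomial.algebraMap_eq, AlgHom.commutes]
  · intro ρ
    rw [rr_C, map_one, div_one, ← MvPolynomial.algebraMap_eq, AlgHom.commutes]
    exact M.algebraMap_mem _

theorem exists_div (z : KK k) : ∃ a b : PP k, b ≠ 0 ∧ z = ιK k a / ιK k b := by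
  obtain ⟨a, b, hb, h⟩ := IsFractionRing.div_surjective (A := PP k) z
  exact ⟨a, b, nonZeroDivisors.ne_zero hb, h.symm⟩

theorem Q_mul {x : KK K} (hx : Q K M x) (m : KK k) (hm : m ∈ M) : Q K M (frM k K m * x) := by
  obtain ⟨q, hq, P, hP, hρ⟩ := hx
  obtain ⟨a, b, hb, h⟩ := exists_div m
  have hb1 : ιK K (mE k K (Fin 2) b) ≠ 0 :=
    (map_ne_zero_iff _ iR_inj).2 ((map_ne_zero_iff _ mE_inj).2 hb)
  refine ⟨q * b, mul_ne_zero hq hb, mE k K (Fin 2) a * P, ?_, ?_⟩
  · rw [map_mul, map_mul, map_mul, ← hP, h, map_div₀, frM_ι, frM_ι]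
    field_simp
  · intro ρ
    rw [rr_mul, map_mul, map_mul]
    have h3 : ιK k a * ιK k (rr ρ P) / (ιK k q * ιK k b) =
        (ιK k a / ιK k b) * (ιK k (rr ρ P) / ιK k q) := by
      rw [div_mul_div_comm, mul_comm (ιK k q)]
    rw [h3, ← h]
    exact mul_mem hm (hρ ρ)

theorem final (z : KK k) (hz : Q K M (frM k K z)) : z ∈ M := by
  obtain ⟨ρ, hρ⟩ := LinearMap.exists_leftInverse_of_injective (Algebra.linearMap k K)
    (LinearMap.ker_eq_bot.2 (algebraMap k K).injective)
  have hρ1 : ∀ c : k, ρ (algebraMap k K c) = c := fun c => by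
    have := LinearMap.congr_fun hρ c
    simpa using this
  have hρE : ∀ p : PP k, rr ρ (mE k K (Fin 2) p) = p := by
    intro p
    ext m
    rw [coeff_rr, mE, coeff_map, hρ1]
  obtain ⟨q, hq, P, hP, hM⟩ := hz
  obtain ⟨a, b, hb, h⟩ := exists_div z
  have hb1 : ιK K (mE k K (Fin 2) b) ≠ 0 :=
    (map_ne_zero_iff _ iR_inj).2 ((map_ne_zero_iff _ mE_inj).2 hb)
  rw [h, map_div₀, frM_ι, frM_ι, div_mul_eq_mul_div, div_eq_iff hb1, ← map_mul, ← map_mul,
    ← map_mul] at hP
  have h1 := congrArg (rr ρ) (iR_inj hP)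
  rw [hρE, mul_comm P, rr_mul] at h1
  have h2 := hM ρ
  have hq1 : ιK k q ≠ 0 := (map_ne_zero_iff _ iR_inj).2 hq
  have hb2 : ιK k b ≠ 0 := (map_ne_zero_iff _ iR_inj).2 hb
  have h3 : z = ιK k (rr ρ P) / ιK k q := by
    rw [h, div_eq_div_iff hb2 hq1, ← map_mul, h1, map_mul]
    ring
  rw [h3]
  exact h2

end FieldD

/-- intermediate fields descend -/
theorem field_descent {k : Type*} [Field k] [CharZero k] (M : IntermediateField k (KK k))
    (z : KK k)
    (hz : frM k (AlgebraicClosure k) z ∈ IntermediateField.adjoin (AlgebraicClosure k)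
      ((frM k (AlgebraicClosure k)) '' (M : Set (KK k)))) : z ∈ M := by
  apply FieldD.final (K := AlgebraicClosure k)
  letI algM : Algebra M (KK (AlgebraicClosure k)) :=
    ((frM k (AlgebraicClosure k)).comp (algebraMap M (KK k))).toAlgebra
  have hmap : ∀ m : M, algebraMap M (KK (AlgebraicClosure k)) m =
    frM k (AlgebraicClosure k) (m : KK k) := fun _ => rfl
  set S : Set (KK (AlgebraicClosure k)) :=
    Set.range (algebraMap (AlgebraicClosure k) (KK (AlgebraicClosure k))) with hS
  have halg : ∀ x ∈ S, IsAlgebraic M x := by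
    rintro _ ⟨c, rfl⟩
    obtain ⟨p, hp0, hp⟩ := AlgebraicClosure.isAlgebraic k |>.isAlgebraic c
    refine ⟨p.map (algebraMap k M), (Polynomial.map_ne_zero_iff (algebraMap k M).injective).2 hp0, ?_⟩
    rw [Polynomial.aeval_def, Polynomial.eval₂_map]
    have h1 : (algebraMap M (KK (AlgebraicClosure k))).comp (algebraMap k M) =
        (algebraMap (AlgebraicClosure k) (KK (AlgebraicClosure k))).comp
          (algebraMap k (AlgebraicClosure k)) := by
      ext c
      exact frM_const k (AlgebraicClosure k) c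
    rw [h1, ← Polynomial.hom_eval₂]
    rw [Polynomial.aeval_def] at hp
    rw [hp, map_zero]
  have hA := IntermediateField.adjoin_toSubalgebra_of_isAlgebraic halg
  -- membership in the field generated over `M` by the constants
  have hzA : frM k (AlgebraicClosure k) z ∈ IntermediateField.adjoin M S := by
    let L' : IntermediateField (AlgebraicClosure k) (KK (AlgebraicClosure k)) :=
      (IntermediateField.adjoin M S).toSubfield.toIntermediateField
        (fun c => IntermediateField.subset_adjoin M S ⟨c, rfl⟩)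
    have hle : IntermediateField.adjoin (AlgebraicClosure k)
        ((frM k (AlgebraicClosure k)) '' (M : Set (KK k))) ≤ L' := by
      rw [IntermediateField.adjoin_le_iff]
      rintro _ ⟨m, hm, rfl⟩
      exact (IntermediateField.adjoin M S).algebraMap_mem ⟨m, hm⟩
    exact hle hz
  have hzA' : frM k (AlgebraicClosure k) z ∈ Algebra.adjoin M S := by
    rw [← hA]
    exact hzA
  have hcl : (Submonoid.closure S : Set (KK (AlgebraicClosure k))) ⊆ S := by
    intro x hx
    induction hx using Submonoid.closure_induction with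
    | mem x hx => exact hx
    | one => exact ⟨1, map_one _⟩
    | mul x y _ _ hx hy =>
      obtain ⟨a, rfl⟩ := hx
      obtain ⟨b, rfl⟩ := hy
      exact ⟨a * b, map_mul _ _ _⟩
  have hspan : frM k (AlgebraicClosure k) z ∈ Submodule.span M S := by
    rw [← Subalgebra.mem_toSubmodule, Algebra.adjoin_eq_span] at hzA'
    exact Submodule.span_mono hcl hzA'
  generalize frM k (AlgebraicClosure k) z = x at hspan
  induction hspan using Submodule.span_induction with
  | mem x hx =>
    obtain ⟨c, rfl⟩ := hx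
    exact FieldD.Q_const c
  | zero => exact FieldD.Q_zero
  | add x y _ _ hx hy => exact FieldD.Q_add hx hy
  | smul m x _ hx =>
    rw [Algebra.smul_def, hmap]
    exact FieldD.Q_mul hx _ m.2

end Pool.Agent.H928R2.Tri
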