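import Pool.Agent.H928R2.TriN
import Pool.Agent.H928R2.TriUnit

set_option autoImplicit false
set_option linter.unusedSectionVars false

open MvPolynomial Pool.Agent.H928R2.Inv Pool.Agent.H928R2.Pen

namespace Pool.Agent.H928R2.Tri

section Final

variable {k : Type*} [Field k]

/-- a common factor of two polynomials divides their bracket -/
theorem dvd_br {p u v : PP k} (hu : p ∣ u) (hv : p ∣ v) : p ∣ br u v := by
  obtain ⟨a, rfl⟩ := hu
  obtain ⟨b, rfl⟩ := hv
  refine ⟨b * br a p + a * br p b + p * br a b, ?_⟩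
  have h1 : br (p * a) (p * b) = p * br (p * a) b + b * br (p * a) p := br_mul_right _ _ _
  have h2 : br (p * a) b = -(br b (p * a)) := br_swap _ _
  have h3 : br (p * a) p = -(br p (p * a)) := br_swap _ _
  have h4 : br b (p * a) = p * br b a + a * br b p := br_mul_right _ _ _
  have h5 : br p (p * a) = p * br p a + a * br p p := br_mul_right _ _ _
  have h6 : br b a = -(br a b) := br_swap _ _
  have h7 : br b p = -(br p b) := br_swap _ _
  have h8 : br p a = -(br a p) := br_swap _ _
  rw [h1, h2, h3, h4, h5, h6, h7, h8, br_self]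
  ring

/-- `P(f)` and `g` are relatively prime -/
theorem relprime_ev [IsAlgClosed k] {f g : PP k} (hJ : br f g = 1) {P : Polynomial k}
    (hP : P ≠ 0) : IsRelPrime (Polynomial.aeval f P) g := by
  intro d hd1 hd2
  by_contra hdu
  have hd0 : d ≠ 0 := by
    rintro rfl
    rw [zero_dvd_iff] at hd2
    rw [hd2] at hJ
    have : br f (0 : PP k) = 0 := by
      have := br_C_right f (0 : k)
      rwa [C_0] at this
    rw [this] at hJ
    exact zero_ne_one hJ
  obtain ⟨p, hp, hpd⟩ := WfDvdMonoid.exists_irreducible_factor hdu hd0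
  have hpp : Prime p := hp.prime
  have hpg : p ∣ g := hpd.trans hd2
  have hpP : p ∣ Polynomial.aeval f P := hpd.trans hd1
  have hspl := (IsAlgClosed.splits P).eq_prod_roots
  rw [hspl, map_mul, Polynomial.aeval_C] at hpP
  rcases hpp.dvd_or_dvd hpP with h1 | h1
  · have hu : IsUnit (algebraMap k (PP k) P.leadingCoeff) :=
      (isUnit_iff_ne_zero.2 (Polynomial.leadingCoeff_ne_zero.2 hP)).map _
    exact hpp.not_isUnit (isUnit_of_dvd_unit h1 hu)
  · rw [map_multiset_prod, Multiset.map_map] at h1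
    obtain ⟨c, -, hc⟩ := hpp.exists_mem_multiset_map_dvd h1
    have e1 : ((Polynomial.aeval f : Polynomial k →ₐ[k] PP k) ∘ fun a =>
        Polynomial.X - Polynomial.C a) c = f - C c := by
      rw [Function.comp_apply, map_sub, Polynomial.aeval_X, Polynomial.aeval_C,
        MvPolynomial.algebraMap_eq]
    rw [e1] at hc
    have h2 : br (f - C c) g = 1 := by
      rw [← hJ]
      unfold br
      rw [map_sub, map_sub, pderiv_C, pderiv_C, sub_zero, sub_zero]
    have h3 := dvd_br hc hpg
    rw [h2] at h3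
    exact hpp.not_isUnit (isUnit_of_dvd_one h3)

variable [CharZero k] [IsAlgClosed k]

theorem aeval_mem_of_pole (O : ValuationSubring (KK k))
    (hkO : ∀ c : k, algebraMap k (KK k) c ∈ O) {φ : KK k} (hφ : φ ∉ O) (a : Polynomial k)
    (ha : Polynomial.aeval φ a ∈ O) : ∃ c, a = Polynomial.C c := by
  by_contra hcon
  have hd : 0 < a.natDegree := by
    by_contra h0
    exact hcon ⟨_, Polynomial.eq_C_of_natDegree_eq_zero (by omega)⟩
  exact hφ (root_mem O.toSubring hkO (fun x hx => val_int O x hx) φ _ a hd rfl ha)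

/-- `g ^ n / P(f)` is not a constant -/
theorem jn_ne_const {f g : PP k} (hJ : br f g = 1) (c : k) {n : ℕ}
    (hn : 0 < n) (h : ιK k g ^ n = algebraMap k (KK k) c) : False := by
  obtain ⟨m, rfl⟩ : ∃ m, n = m + 1 := ⟨n - 1, by omega⟩
  have h1 : D2 f (ιK k g ^ (m + 1)) = 0 := by
    rw [h, Derivation.map_algebraMap]
  rw [Derivation.leibniz_pow, D2_g hJ, Nat.add_sub_cancel, smul_eq_mul, mul_one, nsmul_eq_mul] at h1
  have h2 : ιK k g ^ m = 0 := (mul_eq_zero.1 h1).resolve_left (Nat.cast_ne_zero.2 (by omega))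
  have hm : m ≠ 0 := by
    rintro rfl
    rw [pow_zero] at h2
    exact one_ne_zero h2
  have h3 : ιK k g = 0 := (pow_eq_zero_iff hm).1 h2
  have h4 := D2_g hJ
  rw [h3, map_zero] at h4
  exact zero_ne_one h4

theorem final_contra {k : Type*} [Field k] [CharZero k] [IsAlgClosed k] (f g : PP k)
    (hJ : br f g = 1) (P : Polynomial k) (hP : P ≠ 0) (n : ℕ) (hn : 0 < n) (h : PP k)
    (hD : DN f g P n (ιK k h) = 0) (O : ValuationSubring (KK k))
    (hkO : ∀ c : k, algebraMap k (KK k) c ∈ O) (hhO : ιK k h ∉ O) (hjO : jn f g P n ∈ O)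
    (hjh : jn f g P n ∈ IntermediateField.adjoin k {ιK k h}) : False := by
  have hc : ∀ c : k, ιK k h ≠ algebraMap k (KK k) c := by
    intro c hc
    exact hhO (by rw [hc]; exact hkO c)
  have hc' : ∀ c, h ≠ C c := (ne_C_iff h).2 hc
  have hmap : ∀ q : Polynomial k, Polynomial.aeval (ιK k h) q = ιK k (Polynomial.aeval h q) :=
    fun q => Polynomial.aeval_algHom_apply (ιK k) h q
  obtain ⟨a, b, hab, hb0, hy⟩ := rep (ιK k h) (jn f g P n) hc hjh
  have hP0 : ev f P ≠ 0 := ev_ne hJ hP
  -- the identity in the polynomial ring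
  have hid : g ^ n * Polynomial.aeval h b = Polynomial.aeval f P * Polynomial.aeval h a := by
    apply iR_inj (k := k) (σ := Fin 2)
    have e1 : ιK k g ^ n * ιK k (Polynomial.aeval h b) = ev f P * ιK k (Polynomial.aeval h a) := by
      rw [← hmap, ← hmap, ← hy]
      unfold jn
      field_simp
    rw [map_mul, map_mul, map_pow]
    exact e1
  have hone : ∃ u v : PP k, u * Polynomial.aeval h a + v * Polynomial.aeval h b = 1 := by
    obtain ⟨u, v, huv⟩ := hab
    exact ⟨Polynomial.aeval h u, Polynomial.aeval h v, by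
      rw [← map_mul, ← map_mul, ← map_add, huv, map_one]⟩
  have hco : IsCoprime (Polynomial.aeval h a) (Polynomial.aeval h b) := hone
  have h1 : Polynomial.aeval f P ∣ Polynomial.aeval h b := by
    have h2 : IsRelPrime (Polynomial.aeval f P) (g ^ n) := (relprime_ev hJ hP).pow_right
    exact h2.dvd_of_dvd_mul_left ⟨_, hid⟩
  have h2 : Polynomial.aeval h b ∣ Polynomial.aeval f P := by
    apply hco.symm.dvd_of_dvd_mul_right
    exact ⟨g ^ n, by rw [← hid, mul_comm]⟩
  obtain ⟨u, hu⟩ := associated_of_dvd_dvd h1 h2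
  obtain ⟨c, hc0, hcu⟩ := (isUnit_iff_C _).1 u.isUnit
  rw [hcu] at hu
  -- apply the derivation
  have h3 : DN f g P n (ιK k (Polynomial.aeval h b)) = 0 := by
    rw [← hmap, Derivation.map_aeval, hD, smul_zero]
  rw [← hu, map_mul, ← ev_apply] at h3
  have h4 : ιK k (C c) = algebraMap k (KK k) c := (ιK k).commutes c
  rw [h4, Derivation.leibniz, Derivation.map_algebraMap, smul_zero, zero_add, smul_eq_mul,
    DN_ev hJ] at h3
  have h5 : ev f (Polynomial.derivative P) = 0 := by
    have h6 := (mul_eq_zero.1 h3).resolve_left ((map_ne_zero _).2 hc0)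
    exact (mul_eq_zero.1 h6).resolve_left (Nat.cast_ne_zero.2 (by omega))
  have h6 : Polynomial.derivative P = 0 := by
    by_contra hne
    exact ev_ne hJ hne h5
  have h7 := Polynomial.derivative_eq_zero.1 h6
  have h8 := Polynomial.eq_C_of_natDegree_eq_zero h7
  set p0 := P.coeff 0 with hp0
  have hb : b = Polynomial.C (p0 * c) := by
    apply aeval_inj hc'
    rw [← hu, h8, Polynomial.aeval_C, Polynomial.aeval_C, MvPolynomial.algebraMap_eq, C_mul]
  have hb1 : Polynomial.aeval (ιK k h) b = algebraMap k (KK k) (p0 * c) := by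
    rw [hb, Polynomial.aeval_C]
  obtain ⟨a0, ha0⟩ := aeval_mem_of_pole O hkO hhO a (by
    rw [← hy, hb1]
    exact O.mul_mem _ _ hjO (hkO _))
  have hpc : p0 * c ≠ 0 := by
    intro h0
    rw [hb1, h0, map_zero] at hb0
    exact hb0 rfl
  have hp00 : p0 ≠ 0 := left_ne_zero_of_mul hpc
  rw [hb1, ha0, Polynomial.aeval_C] at hy
  have hev : ev f P = algebraMap k (KK k) p0 := by
    rw [h8, ev_eq, Polynomial.aeval_C]
  have hk : ∀ x : k, x ≠ 0 → algebraMap k (KK k) x ≠ 0 := fun x hx => (map_ne_zero _).2 hx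
  have hg : ιK k g ^ n = algebraMap k (KK k) (a0 * c⁻¹) := by
    unfold jn at hy
    rw [hev, map_mul] at hy
    rw [map_mul, map_inv₀]
    have q1 := hk _ hp00
    have q2 := hk _ hc0
    field_simp at hy ⊢
    linear_combination hy
  exact jn_ne_const hJ _ hn hg

end Final

end Pool.Agent.H928R2.Tri
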