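import Pool.Agent.H928R2.TriMainQ

set_option autoImplicit false
set_option linter.unusedSectionVars false

open MvPolynomial Pool.Agent.H928R2.Inv Pool.Agent.H928R2.Pen

namespace Pool.Agent.H928R2.Tri

theorem TriFixed_descend {k : Type*} [Field k] [CharZero k]
    (b : PP (AlgebraicClosure k))
    (h : ∀ σ : AlgebraicClosure k ≃ₐ[k] AlgebraicClosure k,
      MvPolynomial.map (σ : AlgebraicClosure k →+* AlgebraicClosure k) b = b) :
    ∃ b0 : PP k, Pool.Agent.H922R2.mE k (AlgebraicClosure k) (Fin 2) b0 = b := by
  have h1 : ∀ m, ∃ c : k, algebraMap k (AlgebraicClosure k) c = coeff m b := by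
    intro m
    have h2 : coeff m b ∈ Set.range (algebraMap k (AlgebraicClosure k)) := by
      rw [InfiniteGalois.mem_range_algebraMap_iff_fixed]
      intro σ
      have h3 := congrArg (coeff m) (h σ)
      rw [coeff_map] at h3
      exact h3
    exact h2
  choose c hc using h1
  refine ⟨∑ m ∈ b.support, monomial m (c m), ?_⟩
  unfold Pool.Agent.H922R2.mE
  rw [map_sum]
  conv_rhs => rw [b.as_sum]
  apply Finset.sum_congr rfl
  intro m _
  rw [map_monomial, hc]

/-- subspaces of `K[x, y]` stable under the Galois group of `K / k` are defined over `k` -/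
theorem span_fixed {k : Type*} [Field k] [CharZero k]
    (V : Submodule (AlgebraicClosure k) (PP (AlgebraicClosure k)))
    (hV : ∀ σ : AlgebraicClosure k ≃ₐ[k] AlgebraicClosure k, ∀ b ∈ V,
      MvPolynomial.map (σ : AlgebraicClosure k →+* AlgebraicClosure k) b ∈ V) :
    V ≤ Submodule.span (AlgebraicClosure k)
      {b | b ∈ V ∧ ∃ b0 : PP k,
        Pool.Agent.H922R2.mE k (AlgebraicClosure k) (Fin 2) b0 = b} := by
  classical
  set W := Submodule.span (AlgebraicClosure k)
      {b | b ∈ V ∧ ∃ b0 : PP k,
        Pool.Agent.H922R2.mE k (AlgebraicClosure k) (Fin 2) b0 = b} with hW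
  have main : ∀ n : ℕ, ∀ x ∈ V, x.support.card = n → x ∈ W := by
    intro n
    induction n using Nat.strong_induction_on with
    | _ n ih =>
      intro x hx hn
      by_cases hx0 : x = 0
      · rw [hx0]; exact zero_mem _
      have hex : ∃ N : ℕ, ∃ b ∈ V, b ≠ 0 ∧ b.support ⊆ x.support ∧ b.support.card = N :=
        ⟨_, x, hx, hx0, Finset.Subset.refl _, rfl⟩
      obtain ⟨b, hb, hb0, hbs, hbN⟩ := Nat.find_spec hex
      have hmin : ∀ d ∈ V, d ≠ 0 → d.support ⊆ x.support → ¬ d.support.card < b.support.card := by
        intro d hd hd0 hds hlt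
        rw [hbN] at hlt
        exact Nat.find_min hex hlt ⟨d, hd, hd0, hds, rfl⟩
      obtain ⟨m0, hm0⟩ : ∃ m0, coeff m0 b ≠ 0 := by
        by_contra hcon
        push Not at hcon
        exact hb0 (MvPolynomial.ext _ _ (fun m => by rw [hcon m, coeff_zero]))
      set b' := (coeff m0 b)⁻¹ • b with hb'
      have hb'V : b' ∈ V := V.smul_mem _ hb
      have hb'1 : coeff m0 b' = 1 := by
        rw [hb', coeff_smul, smul_eq_mul, inv_mul_cancel₀ hm0]
      have hb's : b'.support ⊆ b.support := by
        intro m hm
        rw [mem_support_iff] at hm ⊢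
        intro h0
        apply hm
        rw [hb', coeff_smul, h0, smul_zero]
      have hm0b : m0 ∈ b.support := mem_support_iff.2 hm0
      have hm0x : m0 ∈ x.support := hbs hm0b
      have hfix : ∀ σ : AlgebraicClosure k ≃ₐ[k] AlgebraicClosure k,
          MvPolynomial.map (σ : AlgebraicClosure k →+* AlgebraicClosure k) b' = b' := by
        intro σ
        by_contra hne
        have hdV : MvPolynomial.map (σ : AlgebraicClosure k →+* AlgebraicClosure k) b' - b' ∈ V :=
          V.sub_mem (hV σ b' hb'V) hb'V
        have hd0 : MvPolynomial.map (σ : AlgebraicClosure k →+* AlgebraicClosure k) b' - b' ≠ 0 :=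
          sub_ne_zero.2 hne
        have hds : (MvPolynomial.map (σ : AlgebraicClosure k →+* AlgebraicClosure k) b' -
            b').support ⊆ b.support.erase m0 := by
          intro m hm
          rw [mem_support_iff, coeff_sub, coeff_map] at hm
          rw [Finset.mem_erase]
          constructor
          · intro h0
            apply hm
            rw [h0, hb'1, map_one, sub_self]
          · apply hb's
            rw [mem_support_iff]
            intro h0
            apply hm
            rw [h0, map_zero, sub_self]
        refine hmin _ hdV hd0 (hds.trans ((Finset.erase_subset _ _).trans hbs)) ?_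
        refine lt_of_le_of_lt (Finset.card_le_card hds) ?_
        exact Finset.card_erase_lt_of_mem hm0b
      have hb'W : b' ∈ W := Submodule.subset_span ⟨hb'V, TriFixed_descend b' hfix⟩
      have hx'V : x - (coeff m0 x) • b' ∈ V := V.sub_mem hx (V.smul_mem _ hb'V)
      have hx's : (x - (coeff m0 x) • b').support ⊆ x.support.erase m0 := by
        intro m hm
        rw [mem_support_iff, coeff_sub, coeff_smul] at hm
        rw [Finset.mem_erase]
        constructor
        · intro h0
          apply hm
          rw [h0, hb'1, smul_eq_mul, mul_one, sub_self]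
        · rw [mem_support_iff]
          intro h0
          apply hm
          have h1 : coeff m b' = 0 := by
            by_contra h2
            have h3 : m ∈ x.support := hbs (hb's (mem_support_iff.2 h2))
            exact (mem_support_iff.1 h3) h0
          rw [h0, h1, smul_zero, sub_zero]
      have hlt : (x - (coeff m0 x) • b').support.card < n := by
        rw [← hn]
        exact lt_of_le_of_lt (Finset.card_le_card hx's) (Finset.card_erase_lt_of_mem hm0x)
      have hx'W := ih _ hlt _ hx'V rfl
      have : x = (x - (coeff m0 x) • b') + (coeff m0 x) • b' := by rw [sub_add_cancel]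
      rw [this]
      exact W.add_mem hx'W (W.smul_mem _ hb'W)
  intro x hx
  exact main _ x hx rfl

end Pool.Agent.H928R2.Tri
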