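import Pool.Agent.H928R2.TriC0

set_option autoImplicit false

open Polynomial Pool.Agent.H928R2.Inv

namespace Pool.Agent.H928R2.Tri

section fatou
variable {E : Type*} [Field E]

/-- the action of a polynomial on a sequence -/
noncomputable def act (s : ℕ → E) (i : ℕ) : E[X] →ₗ[E] E :=
  Polynomial.lsum fun l => LinearMap.toSpanSingleton E E (s (i + l))

theorem act_monomial (s : ℕ → E) (i l : ℕ) (a : E) : act s i (monomial l a) = a * s (i + l) := by
  unfold act
  rw [Polynomial.lsum_apply, Polynomial.sum_monomial_index]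
  · rfl
  · simp

theorem act_eq (s : ℕ → E) (i : ℕ) (p : E[X]) :
    act s i p = ∑ l ∈ Finset.range (p.natDegree + 1), p.coeff l * s (i + l) := by
  unfold act
  rw [Polynomial.lsum_apply, Polynomial.sum_over_range]
  · rfl
  · simp

theorem act_comm (s : ℕ → E) (p q : E[X]) (i : ℕ) :
    act (fun j => act s j p) i q = act (fun j => act s j q) i p := by
  rw [act_eq, act_eq]
  have h1 : ∀ l, q.coeff l * act s (i + l) p =
      ∑ k ∈ Finset.range (p.natDegree + 1), q.coeff l * (p.coeff k * s (i + l + k)) := by
    intro l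
    rw [act_eq, Finset.mul_sum]
  have h2 : ∀ k, p.coeff k * act s (i + k) q =
      ∑ l ∈ Finset.range (q.natDegree + 1), p.coeff k * (q.coeff l * s (i + k + l)) := by
    intro k
    rw [act_eq, Finset.mul_sum]
  rw [Finset.sum_congr rfl fun l _ => h1 l, Finset.sum_congr rfl fun k _ => h2 k, Finset.sum_comm]
  refine Finset.sum_congr rfl fun k _ => Finset.sum_congr rfl fun l _ => ?_
  rw [add_right_comm i l k]
  ring

/-- Fatou's lemma for linear recurrences over a noetherian ring -/
theorem fatou (S : Subring E) (hS : IsNoetherianRing S) (s : ℕ → E) (hs : ∀ i, s i ∈ S)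
    (v : E[X]) (hv : v ≠ 0) (hrec : ∀ i, act s i v = 0) :
    ∃ m : S[X], m.Monic ∧ ∀ i, act s i (m.map S.subtype) = 0 := by
  set d := v.natDegree with hd
  set w : ℕ → (Fin d → S) := fun i j => ⟨s (i + j), hs _⟩ with hw
  have hmono : Monotone fun n : ℕ => Submodule.span S (Set.range fun i : Fin n => w i) := by
    intro n n' hn
    apply Submodule.span_mono
    rintro _ ⟨i, rfl⟩
    exact ⟨⟨i, lt_of_lt_of_le i.2 hn⟩, rfl⟩
  obtain ⟨n, hn⟩ := (monotone_stabilizes_iff_noetherian (R := S) (M := Fin d → S)).2
    inferInstance ⟨_, hmono⟩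
  have hn1 : Submodule.span S (Set.range fun i : Fin n => w i) =
      Submodule.span S (Set.range fun i : Fin (n + 1) => w i) := hn (n + 1) (Nat.le_succ n)
  have hmem : w n ∈ Submodule.span S (Set.range fun i : Fin n => w i) := by
    rw [hn1]
    exact Submodule.subset_span ⟨Fin.last n, rfl⟩
  rw [Submodule.mem_span_range_iff_exists_fun] at hmem
  obtain ⟨c, hc⟩ := hmem
  set m0 : S[X] := ∑ i : Fin n, monomial (i : ℕ) (c i) with hm0
  have hdeg : m0.degree < n := by
    rw [Polynomial.degree_lt_iff_coeff_zero]
    intro k hk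
    rw [hm0, Polynomial.finsetSum_coeff]
    refine Finset.sum_eq_zero fun i _ => ?_
    rw [Polynomial.coeff_monomial, if_neg]
    have := i.2
    omega
  refine ⟨X ^ n - m0, Polynomial.monic_X_pow_sub hdeg, ?_⟩
  set m := (X ^ n - m0).map S.subtype with hm
  have hact : ∀ i, act s i m = s (i + n) - ∑ k : Fin n, (c k : E) * s (i + k) := by
    intro i
    rw [hm, Polynomial.map_sub, map_sub, Polynomial.map_pow, Polynomial.map_X,
      ← Polynomial.monomial_one_right_eq_X_pow, act_monomial, one_mul, hm0, Polynomial.map_sum,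
      map_sum]
    congr 1
    refine Finset.sum_congr rfl fun k _ => ?_
    rw [Polynomial.map_monomial, act_monomial]
    rfl
  have hsmall : ∀ i < d, act s i m = 0 := by
    intro i hi
    rw [hact]
    have h1 := congrArg (fun z : S => (z : E)) (congrFun hc ⟨i, hi⟩)
    simp only [Finset.sum_apply, Pi.smul_apply, smul_eq_mul, hw] at h1
    push_cast at h1
    rw [add_comm i n, ← h1, sub_eq_zero]
    refine Finset.sum_congr rfl fun k _ => ?_
    rw [add_comm i]
  have hv' : ∀ i, act (fun j => act s j m) i v = 0 := by
    intro i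
    rw [act_comm, act_eq]
    refine Finset.sum_eq_zero fun l _ => ?_
    rw [hrec, mul_zero]
  intro i
  induction i using Nat.strong_induction_on with
  | _ i ih =>
    rcases lt_or_ge i d with h | h
    · exact hsmall i h
    · have h1 := hv' (i - d)
      rw [act_eq, Finset.sum_range_succ, Finset.sum_eq_zero, zero_add] at h1
      · rw [← hd, Nat.sub_add_cancel h] at h1
        have h2 : v.coeff d ≠ 0 := by
          rw [hd]
          exact Polynomial.leadingCoeff_ne_zero.2 hv
        exact (mul_eq_zero.1 h1).resolve_left h2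
      · intro l hl
        rw [Finset.mem_range] at hl
        have h3 : i - d + l < i := by omega
        show v.coeff l * act s (i - d + l) m = 0
        rw [ih _ h3, mul_zero]

end fatou

section exp
variable {E L : Type*} [Field E] [Field L] [Algebra E L] {g : L}
  (ι : IntermediateField.adjoin E {g} →+* LaurentSeries E)
  (h1 : ∀ a : E, ι (algebraMap E (IntermediateField.adjoin E {g}) a) = HahnSeries.C a)
  (h2 : ι (IntermediateField.AdjoinSimple.gen E g) = HahnSeries.single (-1) 1)

include h1 h2 in
theorem exp_monomial (l : ℕ) (a : E) :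
    ι (aeval (IntermediateField.AdjoinSimple.gen E g) (monomial l a)) =
      HahnSeries.single (-(l : ℤ)) a := by
  rw [aeval_monomial, map_mul, map_pow, h1, h2, HahnSeries.single_pow, one_pow, HahnSeries.C_apply,
    HahnSeries.single_mul_single, mul_one, zero_add, nsmul_eq_mul, mul_neg, mul_one]

include h1 h2 in
theorem coeff_exp_mul (p : E[X]) (y : IntermediateField.adjoin E {g}) (i : ℕ) :
    (ι (aeval (IntermediateField.AdjoinSimple.gen E g) p * y)).coeff (1 + (i : ℤ)) =
      act (fun j => (ι y).coeff (1 + (j : ℤ))) i p := by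
  induction p using Polynomial.induction_on' with
  | add p q hp hq => rw [map_add, add_mul, map_add, HahnSeries.coeff_add, hp, hq, map_add]
  | monomial l a =>
    rw [map_mul, exp_monomial ι h1 h2, HahnSeries.coeff_single_mul, act_monomial]
    congr 2
    push_cast
    ring

include h1 h2 in
/-- an element without negative powers at infinity is a polynomial -/
theorem exists_poly (y : IntermediateField.adjoin E {g})
    (hy : ∀ i : ℕ, (ι y).coeff (1 + (i : ℤ)) = 0) :
    ∃ q : E[X], y = aeval (IntermediateField.AdjoinSimple.gen E g) q := by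
  set N := (ι y).order.natAbs with hN
  refine ⟨∑ j ∈ Finset.range (N + 1), monomial j ((ι y).coeff (-(j : ℤ))), ?_⟩
  apply ι.injective
  rw [map_sum, map_sum]
  simp only [exp_monomial ι h1 h2]
  ext k
  rw [HahnSeries.coeff_sum]
  simp only [HahnSeries.coeff_single]
  rcases lt_or_ge 0 k with hk | hk
  · have e : k = 1 + ((k - 1).toNat : ℤ) := by omega
    have h3 := hy (k - 1).toNat
    rw [← e] at h3
    rw [h3, Finset.sum_eq_zero]
    intro j _
    rw [if_neg]
    omega
  · by_cases hkN : -k ≤ N
    · rw [Finset.sum_eq_single (-k).toNat]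
      · have e : -(((-k).toNat : ℕ) : ℤ) = k := by omega
        rw [e, if_pos rfl]
      · intro j _ hj
        rw [if_neg]
        omega
      · intro h
        exfalso
        apply h
        rw [Finset.mem_range]
        omega
    · rw [HahnSeries.coeff_eq_zero_of_lt_order (by omega), Finset.sum_eq_zero]
      intro j hj
      rw [Finset.mem_range] at hj
      rw [if_neg]
      omega

end exp

theorem exists_rho {E L : Type*} [Field E] [CharZero E] [Field L] [Algebra E L] (g : L)
    (hg : Transcendental E g) (hfin : FiniteDimensional (IntermediateField.adjoin E {g}) L) :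
    ∃ ρ : L →ₗ[E] E,
      (∀ D : Derivation ℤ L L, (∀ a : E, D (algebraMap E L a) = 0) → D g = 1 →
        ∀ x, ρ (D x) = 0) ∧
      (∀ D : Derivation ℤ L L, (∀ a : E, ∃ b : E, D (algebraMap E L a) = algebraMap E L b) →
        D g = 0 → ∀ x, algebraMap E L (ρ (D x)) = D (algebraMap E L (ρ x))) ∧
      (∀ S : Subring E, IsNoetherianRing S → ∀ x : L, (∀ i : ℕ, ρ (g ^ i * x) ∈ S) →
        ∃ m : S[X], m.Monic ∧ ∃ q : E[X], aeval g (m.map S.subtype) *
          algebraMap (IntermediateField.adjoin E {g}) L
            (Algebra.trace (IntermediateField.adjoin E {g}) L x) = aeval g q) := by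
  obtain ⟨ι, h1, h2, h3, h4⟩ := exists_coeff_form g hg hfin
  obtain ⟨ρ, hρ⟩ := h4 1
  refine ⟨ρ, ?_, ?_, ?_⟩
  · intro D hDE hDg x
    have h5 := h3 D (fun _ => 0) 0 1 (fun a => by rw [hDE a, map_zero])
      (by rw [map_zero, zero_mul, map_one, zero_add]; exact hDg) x 1
    rw [hρ, h5]
    simp
  · intro D hDE hDg x
    choose δ hδ using hDE
    have h5 := h3 D δ 0 0 hδ (by rw [map_zero, zero_mul, zero_add]; exact hDg) x 1
    rw [mul_zero, zero_mul, mul_zero, zero_mul, sub_zero, sub_zero] at h5
    rw [hρ, hρ, h5, hδ]
  · intro S hS x hx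
    set r := Algebra.trace (IntermediateField.adjoin E {g}) L x with hr
    have hgen : algebraMap (IntermediateField.adjoin E {g}) L
        (IntermediateField.AdjoinSimple.gen E g) = g := rfl
    have hcoe : ∀ p : E[X], algebraMap (IntermediateField.adjoin E {g}) L
        (aeval (IntermediateField.AdjoinSimple.gen E g) p) = aeval g p := by
      intro p
      rw [← Polynomial.aeval_algebraMap_apply, hgen]
    have hs : ∀ i : ℕ, (ι r).coeff (1 + (i : ℤ)) ∈ S := by
      intro i
      have h5 := hx i
      rw [hρ] at h5
      have e1 : g ^ i * x = (IntermediateField.AdjoinSimple.gen E g) ^ i • x := by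
        rw [Algebra.smul_def, map_pow, hgen]
      rw [e1, map_smul, smul_eq_mul, ← hr] at h5
      have h6 := coeff_exp_mul ι h1 h2 (X ^ i) r 0
      rw [map_pow, aeval_X, ← Polynomial.monomial_one_right_eq_X_pow, act_monomial, one_mul,
        Nat.cast_zero, add_zero, zero_add] at h6
      rw [h6] at h5
      exact h5
    obtain ⟨u, v, huv⟩ := (IntermediateField.mem_adjoin_simple_iff E (r : L)).1 r.2
    by_cases hv : aeval g v = 0
    · refine ⟨1, monic_one, 0, ?_⟩
      have hr0 : algebraMap (IntermediateField.adjoin E {g}) L r = 0 := by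
        show (r : L) = 0
        rw [huv, hv, div_zero]
      rw [hr0, mul_zero, map_zero]
    · have hv0 : v ≠ 0 := fun h => hv (by rw [h, map_zero])
      have hvr : aeval (IntermediateField.AdjoinSimple.gen E g) v * r =
          aeval (IntermediateField.AdjoinSimple.gen E g) u := by
        apply (algebraMap (IntermediateField.adjoin E {g}) L).injective
        rw [map_mul, hcoe, hcoe]
        show aeval g v * (r : L) = aeval g u
        rw [huv, mul_div_cancel₀ _ hv]
      have hrec : ∀ i, act (fun j => (ι r).coeff (1 + (j : ℤ))) i v = 0 := by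
        intro i
        rw [← coeff_exp_mul ι h1 h2 v r i, hvr]
        have h6 := coeff_exp_mul ι h1 h2 u 1 i
        rw [mul_one] at h6
        rw [h6, act_eq]
        refine Finset.sum_eq_zero fun l _ => ?_
        rw [map_one, HahnSeries.coeff_one, if_neg, mul_zero]
        push_cast
        omega
      obtain ⟨m, hm, hm2⟩ := fatou S hS _ hs v hv0 hrec
      refine ⟨m, hm, ?_⟩
      obtain ⟨q, hq⟩ := exists_poly ι h1 h2
        (aeval (IntermediateField.AdjoinSimple.gen E g) (m.map S.subtype) * r)
        (fun i => by rw [coeff_exp_mul ι h1 h2, hm2])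
      refine ⟨q, ?_⟩
      rw [← hcoe, ← hcoe, ← map_mul, hq]

end Pool.Agent.H928R2.Tri
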