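import Pool.Agent.H928R2.TriBase
import Pool.Agent.H928R2.TriRho
import Pool.Agent.H928R2.TriDetect
import Pool.Agent.H928R2.TriDiv
import Pool.Agent.H928R2.TriExact

/-!
# Integrality of `g` over `k[f]` at the places at infinity where `g` is finite (helper379)
-/

set_option autoImplicit false
set_option linter.unusedSectionVars false

open MvPolynomial Pool.Agent.H928R2.Inv Pool.Agent.H928R2.Pen

namespace Pool.Agent.H928R2.Tri

section
variable {k : Type*} [Field k] [CharZero k]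

/-- `ev f` with values in `k(f)` -/
noncomputable def tiφ (f : PP k) : Polynomial k →+* EF f :=
  RingHom.codRestrict (ev f) (EF f) (ev_mem f)

theorem tiφ_coe (f : PP k) (γ : Polynomial k) :
    algebraMap (EF f) (KK k) (tiφ f γ) = ev f γ := rfl

end

/-- `exists_rho` for two derivations over `k` -/
theorem ti_rho {k E L : Type*} [Field k] [Field E] [CharZero E] [Field L] [Algebra k L]
    [Algebra E L] (g : L) (hg : Transcendental E g)
    (hfin : FiniteDimensional (IntermediateField.adjoin E {g}) L) (A B : Derivation k L L)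
    (hB : ∀ a : E, B (algebraMap E L a) = 0) (hBg : B g = 1)
    (hA : ∀ a : E, ∃ b : E, A (algebraMap E L a) = algebraMap E L b) (hAg : A g = 0) :
    ∃ ρ : L →ₗ[E] E, (∀ x, ρ (B x) = 0) ∧
      (∀ x, algebraMap E L (ρ (A x)) = A (algebraMap E L (ρ x))) ∧
      (∀ S : Subring E, IsNoetherianRing S → ∀ x : L, (∀ i : ℕ, ρ (g ^ i * x) ∈ S) →
        ∃ m : Polynomial S, m.Monic ∧ ∃ q : Polynomial E,
          Polynomial.aeval g (m.map S.subtype) *
            algebraMap (IntermediateField.adjoin E {g}) L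
              (Algebra.trace (IntermediateField.adjoin E {g}) L x) = Polynomial.aeval g q) := by
  obtain ⟨ρ, hρ1, hρ2, hρ3⟩ := exists_rho g hg hfin
  exact ⟨ρ, fun x => hρ1 (toZ B) hB hBg x, fun x => hρ2 (toZ A) hA hAg x, hρ3⟩

theorem ti_val {k : Type*} [Field k] [CharZero k] [IsAlgClosed k] (f g : PP k)
    (hJ : br f g = 1) (ρ : KK k →ₗ[EF f] EF f)
    (hρ1 : ∀ x, ρ (D2 f x) = 0)
    (hρ2 : ∀ x, algebraMap (EF f) (KK k) (ρ (D1 g x)) = D1 g (algebraMap (EF f) (KK k) (ρ x)))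
    (p : PP k) :
    ∃ δ : Polynomial k, algebraMap (EF f) (KK k) (ρ (ιK k p)) = ev f δ := by
  refine exact_poly f g hJ {n | ∃ p : PP k, n = algebraMap (EF f) (KK k) (ρ (ιK k p))} ?_ ?_ ?_ _
    ⟨p, rfl⟩
  · rintro n ⟨p, rfl⟩
    exact (ρ (ιK k p)).2
  · rintro n ⟨p, rfl⟩ δ
    refine ⟨Polynomial.aeval f δ * p, ?_⟩
    have e1 : ιK k (Polynomial.aeval f δ * p) = (tiφ f δ) • ιK k p := by
      rw [Algebra.smul_def, tiφ_coe, map_mul, ev_apply]
    have e2 : ρ ((tiφ f δ) • ιK k p) = (tiφ f δ) * ρ (ιK k p) := ρ.map_smul _ _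
    rw [e1, e2, map_mul, tiφ_coe]
  · rintro n ⟨p, rfl⟩
    obtain ⟨p1, p2, hp⟩ := exact_div f g hJ p
    refine ⟨algebraMap (EF f) (KK k) (ρ (ιK k p1)), (ρ (ιK k p1)).2, ?_⟩
    have e1 : ιK k p = D1 g (ιK k p1) + D2 f (ιK k p2) := by
      rw [D1_ι, D2_ι, ← map_add, ← hp]
    rw [e1, ρ.map_add, hρ1, add_zero, hρ2]

theorem integral_res {k : Type*} [Field k] [CharZero k] [IsAlgClosed k] (f g : PP k)
    (hJ : br f g = 1) (O : ValuationSubring (KK k)) (hO : O ∈ SR (RE f)) (hgO : ιK k g ∈ O) :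
    ∃ m : Polynomial (Polynomial k), m.Monic ∧ m.eval₂ (ev f) (ιK k g) ∈ O.nonunits := by
  have hg := transc_g hJ
  have hfin := hfin_f hJ _ hg
  obtain ⟨t, ht⟩ := SR_unif hJ hO
  obtain ⟨hE, b, hb, hbO⟩ := hO
  obtain ⟨h0, hh0, hTr0⟩ := trace_detect (ιK k g) hg hfin (RE f) (ι_mem_RE f g) (hfrac_f f) O hE t ht
    hgO b hb hbO
  obtain ⟨h, γ, hγ, hh⟩ := RE_surj f (nonconst_of hJ) h0 hh0
  obtain ⟨ρ, hρ1, hρ2, hρ3⟩ := ti_rho (ιK k g) hg hfin (D1 g) (D2 f) (D2_alg hJ) (D2_g hJ)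
    (D1_EF hJ) (D1_g g)
  -- the values of `ρ` on polynomials are polynomials in `f`
  have hval : ∀ p : PP k, ∃ δ : Polynomial k, ρ (ιK k p) = tiφ f δ := by
    intro p
    obtain ⟨δ, hδ⟩ := ti_val f g hJ ρ hρ1 hρ2 p
    exact ⟨δ, (algebraMap (EF f) (KK k)).injective (hδ.trans (tiφ_coe f δ).symm)⟩
  obtain ⟨m, hm, q, hq⟩ := hρ3 (tiφ f).range inferInstance (ιK k h) (by
    intro i
    obtain ⟨δ, hδ⟩ := hval (g ^ i * h)
    rw [← map_pow, ← map_mul, hδ]
    exact ⟨δ, rfl⟩)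
  -- the trace of `h` is not in `O`
  have hevne : ev f γ ≠ 0 := ev_ne hJ hγ
  have hinv : (ev f γ)⁻¹ ∈ O := by
    have := hE (tiφ f γ)⁻¹
    rwa [map_inv₀, tiφ_coe] at this
  set F := IntermediateField.adjoin (EF f) {ιK k g} with hF
  have hTr : algebraMap F (KK k) (Algebra.trace F (KK k) (ιK k h)) =
      ev f γ * algebraMap F (KK k) (Algebra.trace F (KK k) h0) := by
    have e1 : ιK k h = (algebraMap (EF f) F (tiφ f γ)) • h0 := by
      rw [Algebra.smul_def, ← IsScalarTower.algebraMap_apply (EF f) F (KK k), tiφ_coe, ← hh, mul_comm]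
      rfl
    rw [e1, map_smul, smul_eq_mul, map_mul, ← IsScalarTower.algebraMap_apply (EF f) F (KK k), tiφ_coe]
  have hTrO : algebraMap F (KK k) (Algebra.trace F (KK k) (ιK k h)) ∉ O := by
    intro hcon
    apply hTr0
    rw [hTr] at hcon
    have := O.mul_mem _ _ hinv hcon
    rwa [← mul_assoc, inv_mul_cancel₀ hevne, one_mul] at this
  have hqO : Polynomial.aeval (ιK k g) q ∈ O := by
    rw [Polynomial.aeval_eq_sum_range]
    refine sum_mem fun i _ => ?_
    rw [Algebra.smul_def]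
    exact O.mul_mem _ _ (hE _) (pow_mem hgO i)
  have hM : Polynomial.aeval (ιK k g) (m.map (tiφ f).range.subtype) ∈ O.nonunits := by
    rw [ValuationSubring.mem_nonunits_iff_or]
    by_cases hM0 : Polynomial.aeval (ιK k g) (m.map (tiφ f).range.subtype) = 0
    · exact Or.inl hM0
    · right
      intro hcon
      apply hTrO
      have := O.mul_mem _ _ hcon hqO
      rwa [← hq, ← mul_assoc, inv_mul_cancel₀ hM0, one_mul] at this
  -- lift `m`
  obtain ⟨m', hm', -, hmon⟩ := Polynomial.lifts_and_degree_eq_and_monic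
    (f := (tiφ f).rangeRestrict) (p := m) (by
      rw [Polynomial.lifts_iff_coeff_lifts]
      intro n
      exact (tiφ f).rangeRestrict_surjective _) hm
  refine ⟨m', hmon, ?_⟩
  have e1 : m'.eval₂ (ev f) (ιK k g) = Polynomial.aeval (ιK k g) (m.map (tiφ f).range.subtype) := by
    rw [← hm', Polynomial.map_map, Polynomial.aeval_def, Polynomial.eval₂_map]
    rfl
  rw [e1]
  exact hM

end Pool.Agent.H928R2.Tri
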