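import Pool.Agent.H928R2.TriBase

set_option autoImplicit false
set_option linter.unusedSectionVars false

open MvPolynomial Pool.Agent.H928R2.Inv Pool.Agent.H928R2.Pen

namespace Pool.Agent.H928R2.Tri

section quad
variable {k : Type*} [Field k] [CharZero k]

/-- `ev` with values in `k(f)` -/
noncomputable def quadE (f : PP k) : Polynomial k →+* EF f :=
  (ev f).codRestrict (EF f).toSubring (fun γ => ev_mem f γ)

theorem quadE_coe (f : PP k) (γ : Polynomial k) : ((quadE f γ : EF f) : KK k) = ev f γ := rfl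

theorem quadE_inj {f g : PP k} (hJ : br f g = 1) : Function.Injective (quadE f) := by
  intro a b h
  apply ev_inj hJ
  rw [← quadE_coe, ← quadE_coe, h]

theorem quad_frac {f g : PP k} (hJ : br f g = 1) :
    letI : Algebra (Polynomial k) (EF f) := (quadE f).toAlgebra
    IsFractionRing (Polynomial k) (EF f) := by
  let _ : Algebra (Polynomial k) (EF f) := (quadE f).toAlgebra
  have hal : ∀ γ : Polynomial k, algebraMap (Polynomial k) (EF f) γ = quadE f γ := fun _ => rfl
  refine (isLocalization_iff _ _).2 ⟨?_, ?_, ?_⟩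
  · rintro ⟨y, hy⟩
    rw [hal]
    refine IsUnit.mk0 _ ?_
    intro h
    exact nonZeroDivisors.ne_zero hy (quadE_inj hJ (h.trans (map_zero _).symm))
  · intro z
    obtain ⟨a, b, hb, h⟩ := (mem_EF_iff hJ (z : KK k)).1 z.2
    refine ⟨(a, ⟨b, mem_nonZeroDivisors_of_ne_zero hb⟩), ?_⟩
    rw [hal, hal]
    apply Subtype.ext
    show (z : KK k) * ev f b = ev f a
    rw [h, div_mul_cancel₀ _ (ev_ne hJ hb)]
  · intro x y h
    exact ⟨1, by rw [quadE_inj hJ h]⟩

/-- integral elements of `k(f)` are polynomials in `f` -/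
theorem quad_int {f g : PP k} (hJ : br f g = 1) (a : EF f) (m : Polynomial (Polynomial k))
    (hm : m.Monic) (h0 : m.eval₂ (quadE f) a = 0) : ∃ γ, a = quadE f γ := by
  let _ : Algebra (Polynomial k) (EF f) := (quadE f).toAlgebra
  have := quad_frac hJ
  have h1 : IsIntegral (Polynomial k) a := ⟨m, hm, h0⟩
  obtain ⟨γ, hγ⟩ := IsIntegrallyClosed.algebraMap_eq_of_integral h1
  exact ⟨γ, hγ.symm⟩

/-- monic divisors of monic polynomials with coefficients in `k[f]` -/
theorem quad_dvd {f g : PP k} (hJ : br f g = 1) (q : Polynomial (EF f)) (hq : q.Monic)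
    (m : Polynomial (Polynomial k)) (hm : m.Monic) (h : q ∣ m.map (quadE f)) :
    ∃ q' : Polynomial (Polynomial k), q = q'.map (quadE f) := by
  let _ : Algebra (Polynomial k) (EF f) := (quadE f).toAlgebra
  have := quad_frac hJ
  obtain ⟨q', hq'⟩ := IsIntegrallyClosed.eq_map_mul_C_of_dvd (EF f) hm h
  refine ⟨q', ?_⟩
  rw [hq.leadingCoeff, map_one, mul_one] at hq'
  exact hq'.symm

theorem quad_nu_add {L : Type*} [Field L] {O : ValuationSubring L} {x y : L}
    (hx : x ∈ O.nonunits) (hy : y ∈ O.nonunits) : x + y ∈ O.nonunits := by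
  rw [ValuationSubring.mem_nonunits_iff] at hx hy ⊢
  exact O.valuation.map_add_lt hx hy

theorem quad_nu_neg {L : Type*} [Field L] {O : ValuationSubring L} {x : L}
    (hx : x ∈ O.nonunits) : -x ∈ O.nonunits := by
  rw [ValuationSubring.mem_nonunits_iff] at hx ⊢
  rwa [Valuation.map_neg]

theorem quad_nu_mul' {L : Type*} [Field L] {O : ValuationSubring L} {t g : L}
    (ht : t ∈ O) (hg : g ∈ O.nonunits) : t * g ∈ O.nonunits := by
  rw [mul_comm]
  exact nonunits_mul hg ht

/-- differences of values of a polynomial -/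
theorem quad_sub {L R : Type*} [Field L] [CommRing R] (φ : R →+* L) {O : ValuationSubring L}
    (hφ : ∀ r, φ r ∈ O) {x y : L} (hx : x ∈ O) (hy : y ∈ O) (hxy : x - y ∈ O.nonunits)
    (m : Polynomial R) : m.eval₂ φ x - m.eval₂ φ y ∈ O.nonunits := by
  have hpow : ∀ n : ℕ, x ^ n - y ^ n ∈ O.nonunits := by
    intro n
    induction n with
    | zero => rw [pow_zero, pow_zero, sub_self]; exact zero_nonunits O
    | succ n ih =>
      have e : x ^ (n + 1) - y ^ (n + 1) = x ^ n * (x - y) + y * (x ^ n - y ^ n) := by ring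
      rw [e]
      exact quad_nu_add (quad_nu_mul' (pow_mem hx n) hxy) (quad_nu_mul' hy ih)
  induction m using Polynomial.induction_on' with
  | add p q hp hq =>
    rw [Polynomial.eval₂_add, Polynomial.eval₂_add]
    have e : p.eval₂ φ x + q.eval₂ φ x - (p.eval₂ φ y + q.eval₂ φ y) =
        (p.eval₂ φ x - p.eval₂ φ y) + (q.eval₂ φ x - q.eval₂ φ y) := by ring
    rw [e]
    exact quad_nu_add hp hq
  | monomial n r =>
    rw [Polynomial.eval₂_monomial, Polynomial.eval₂_monomial, ← mul_sub]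
    exact quad_nu_mul' (hφ r) (hpow n)

theorem quad_core {f g : PP k} (hJ : br f g = 1) {O : ValuationSubring (KK k)}
    (hO : O ∈ SR (RE f)) (hg : ιK k g ∉ O)
    (hres : ∀ z ∈ O, ∃ a : EF f, z - algebraMap (EF f) (KK k) a ∈ O.nonunits)
    (c1 c0 : EF f)
    (hfin : ∀ O' ∈ SR (RE f), O' ≠ O → ιK k g ∈ O' ∧
      ιK k g ^ 2 + algebraMap (EF f) (KK k) c1 * ιK k g + algebraMap (EF f) (KK k) c0
        ∈ O'.nonunits) (h P : Polynomial k) (hP : P ≠ 0)
    (e1 : 2 * ev f h = (c1 : KK k)) (e0 : ev f h ^ 2 - ev f P = (c0 : KK k)) :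
    Core f (g + Polynomial.aeval f h) P O := by
  have hmem : ∀ O' ∈ SR (RE f), ∀ γ : Polynomial k, ev f γ ∈ O' := by
    intro O' hO' γ
    exact hO'.1 ⟨_, ev_mem f γ⟩
  have hι : ιK k (g + Polynomial.aeval f h) = ιK k g + ev f h := by
    rw [map_add, ev_apply]
  refine ⟨?_, hP, hO, ?_, hres, ?_⟩
  · rw [br_add_right, hJ, br_swap, br_aeval_left, br_self, mul_zero, neg_zero, add_zero]
  · rw [hι]
    intro h1
    apply hg
    have h2 := sub_mem h1 (hmem O hO h)
    rwa [add_sub_cancel_right] at h2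
  · intro O' hO' hne
    obtain ⟨h1, h2⟩ := hfin O' hO' hne
    refine ⟨?_, ?_⟩
    · rw [hι]
      exact add_mem h1 (hmem O' hO' h)
    · rw [hι]
      have e2 : (ιK k g + ev f h) ^ 2 - ev f P =
          ιK k g ^ 2 + algebraMap (EF f) (KK k) c1 * ιK k g + algebraMap (EF f) (KK k) c0 := by
        have e3 : algebraMap (EF f) (KK k) c1 = (c1 : KK k) := rfl
        have e4 : algebraMap (EF f) (KK k) c0 = (c0 : KK k) := rfl
        rw [e3, e4, ← e1, ← e0]
        ring
      rw [e2]
      exact h2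

/-- integrality criterion -/
theorem quad_crit {f g : PP k} (hJ : br f g = 1)
    (hint : ∀ O' ∈ SR (RE f), ιK k g ∈ O' →
      ∃ m : Polynomial (Polynomial k), m.Monic ∧ m.eval₂ (ev f) (ιK k g) ∈ O'.nonunits)
    (a : EF f) (O' : ValuationSubring (KK k)) (hO' : O' ∈ SR (RE f))
    (ha : ιK k g - algebraMap (EF f) (KK k) a ∈ O'.nonunits) : ∃ γ, a = quadE f γ := by
  have haO : algebraMap (EF f) (KK k) a ∈ O' := hO'.1 a
  have hgO : ιK k g ∈ O' := by
    have := add_mem (nonunits_mem ha) haO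
    rwa [sub_add_cancel] at this
  obtain ⟨m, hm, hmg⟩ := hint O' hO' hgO
  have h1 := quad_sub (ev f) (fun γ => hO'.1 ⟨_, ev_mem f γ⟩) hgO haO ha m
  have h2 : m.eval₂ (ev f) (algebraMap (EF f) (KK k) a) ∈ O'.nonunits := by
    have := quad_nu_add hmg (quad_nu_neg h1)
    have e : m.eval₂ (ev f) (ιK k g) + -(m.eval₂ (ev f) (ιK k g) -
        m.eval₂ (ev f) (algebraMap (EF f) (KK k) a)) =
        m.eval₂ (ev f) (algebraMap (EF f) (KK k) a) := by ring
    rwa [e] at this
  have h3 : m.eval₂ (ev f) (algebraMap (EF f) (KK k) a) =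
      algebraMap (EF f) (KK k) (m.eval₂ (quadE f) a) := by
    rw [Polynomial.hom_eval₂]
    rfl
  rw [h3] at h2
  refine quad_int hJ a m hm ?_
  by_contra hne
  exact const_notMem_nonunits hO'.1 hne h2

end quad

theorem reduce_quad {k : Type*} [Field k] [CharZero k] [IsAlgClosed k] (f g : PP k)
    (hJ : br f g = 1) (O : ValuationSubring (KK k)) (hO : O ∈ SR (RE f)) (hg : ιK k g ∉ O)
    (hres : ∀ z ∈ O, ∃ a : EF f, z - algebraMap (EF f) (KK k) a ∈ O.nonunits)
    (c1 c0 : EF f)
    (hfin : ∀ O' ∈ SR (RE f), O' ≠ O → ιK k g ∈ O' ∧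
      ιK k g ^ 2 + algebraMap (EF f) (KK k) c1 * ιK k g + algebraMap (EF f) (KK k) c0
        ∈ O'.nonunits)
    (hint : ∀ O' ∈ SR (RE f), ιK k g ∈ O' →
      ∃ m : Polynomial (Polynomial k), m.Monic ∧ m.eval₂ (ev f) (ιK k g) ∈ O'.nonunits) :
    (∃ a : EF f, ∀ O' ∈ SR (RE f), ιK k g ∉ O' ∨
      ιK k g - algebraMap (EF f) (KK k) a ∈ O'.nonunits) ∨
    ∃ h P : Polynomial k, Core f (g + Polynomial.aeval f h) P O ∧
      ∃ O1 ∈ SR (RE f), O1 ≠ O := by
  by_cases hall : ∀ O' ∈ SR (RE f), O' = O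
  · left
    refine ⟨0, fun O' hO' => Or.inl ?_⟩
    rw [hall O' hO']
    exact hg
  push Not at hall
  obtain ⟨O1, hO1, hne1⟩ := hall
  have hcoe : ∀ a : EF f, algebraMap (EF f) (KK k) a = (a : KK k) := fun _ => rfl
  by_cases hroot : ∃ a : EF f, a ^ 2 + c1 * a + c0 = 0
  · -- case A
    obtain ⟨a, ha⟩ := hroot
    set b : EF f := -c1 - a with hb
    have hc1 : c1 = -(a + b) := by rw [hb]; ring
    have hc0 : c0 = a * b := by rw [hb]; linear_combination ha
    have hq : ∀ x : KK k, x ^ 2 + algebraMap (EF f) (KK k) c1 * x + algebraMap (EF f) (KK k) c0 =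
        (x - algebraMap (EF f) (KK k) a) * (x - algebraMap (EF f) (KK k) b) := by
      intro x
      rw [hc1, hc0, map_neg, map_add, map_mul]
      ring
    have hor : ∀ O' ∈ SR (RE f), O' ≠ O → ιK k g - algebraMap (EF f) (KK k) a ∈ O'.nonunits ∨
        ιK k g - algebraMap (EF f) (KK k) b ∈ O'.nonunits := by
      intro O' hO' hne
      obtain ⟨h1, h2⟩ := hfin O' hO' hne
      rw [hq] at h2
      by_cases h3 : ιK k g - algebraMap (EF f) (KK k) a ∈ O'.nonunits
      · exact Or.inl h3
      · right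
        have h4 := inv_mem_of_notMem_nonunits h3
        have h5 := quad_nu_mul' h4 h2
        have h6 : ιK k g - algebraMap (EF f) (KK k) a ≠ 0 := by
          intro h
          rw [h] at h3
          exact h3 (zero_nonunits _)
        rwa [inv_mul_cancel_left₀ h6] at h5
    by_cases hA : ∀ O' ∈ SR (RE f), O' ≠ O → ιK k g - algebraMap (EF f) (KK k) a ∈ O'.nonunits
    · left
      refine ⟨a, fun O' hO' => ?_⟩
      by_cases h : O' = O
      · left; rw [h]; exact hg
      · exact Or.inr (hA O' hO' h)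
    by_cases hB : ∀ O' ∈ SR (RE f), O' ≠ O → ιK k g - algebraMap (EF f) (KK k) b ∈ O'.nonunits
    · left
      refine ⟨b, fun O' hO' => ?_⟩
      by_cases h : O' = O
      · left; rw [h]; exact hg
      · exact Or.inr (hB O' hO' h)
    push Not at hA hB
    obtain ⟨Ob, hOb, hOb1, hOb2⟩ := hA
    obtain ⟨Oa, hOa, hOa1, hOa2⟩ := hB
    have hOb3 := (hor Ob hOb hOb1).resolve_left hOb2
    have hOa3 := (hor Oa hOa hOa1).resolve_right hOa2
    obtain ⟨β, hβ⟩ := quad_crit hJ hint b Ob hOb hOb3
    obtain ⟨α, hα⟩ := quad_crit hJ hint a Oa hOa hOa3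
    have hab : a ≠ b := by
      intro h
      rw [h] at hOa3
      exact hOa2 hOa3
    right
    have hev : ∀ c : k, ev f (Polynomial.C c) = algebraMap k (KK k) c := by
      intro c
      rw [ev_eq, Polynomial.aeval_C]
    refine ⟨Polynomial.C (-(1 / 2)) * (α + β), Polynomial.C (1 / 4) * (α - β) ^ 2, ?_, O1, hO1,
      hne1⟩
    have hαβ : α - β ≠ 0 := by
      intro h
      apply hab
      rw [hα, hβ, sub_eq_zero.1 h]
    have hev2 : ev f (Polynomial.C (-(1 / 2))) = -(1 / 2) := by
      rw [hev, map_neg, map_div₀, map_one, map_ofNat]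
    have hev4 : ev f (Polynomial.C (1 / 4)) = 1 / 4 := by
      rw [hev, map_div₀, map_one, map_ofNat]
    refine quad_core hJ hO hg hres c1 c0 hfin _ _ ?_ ?_ ?_
    · refine mul_ne_zero ?_ (pow_ne_zero _ hαβ)
      rw [Polynomial.C_ne_zero]
      norm_num
    · rw [hc1, hα, hβ, map_mul, map_add, hev2]
      push_cast
      rw [quadE_coe, quadE_coe]
      ring
    · rw [hc0, hα, hβ, map_mul, map_mul, map_pow, map_add, map_sub, hev2, hev4]
      push_cast
      rw [quadE_coe, quadE_coe]
      ring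
  · -- case B
    right
    set q : Polynomial (EF f) := Polynomial.X ^ 2 + (Polynomial.C c1 * Polynomial.X +
      Polynomial.C c0) with hqdef
    have hdeg : (Polynomial.C c1 * Polynomial.X + Polynomial.C c0).degree < ((2 : ℕ) : WithBot ℕ) :=
      lt_of_le_of_lt Polynomial.degree_linear_le (by norm_num)
    have hqm : q.Monic := Polynomial.monic_X_pow_add hdeg
    have hqn : q.natDegree = 2 := by
      rw [hqdef]
      compute_degree!
    have hirr : Irreducible q := by
      rw [hqm.irreducible_iff_roots_eq_zero_of_degree_le_three (by omega) (by omega)]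
      rw [Multiset.eq_zero_iff_forall_notMem]
      intro a ha
      rw [Polynomial.mem_roots hqm.ne_zero, Polynomial.IsRoot.def] at ha
      apply hroot
      refine ⟨a, ?_⟩
      rw [← ha, hqdef]
      simp only [Polynomial.eval_add, Polynomial.eval_pow, Polynomial.eval_X, Polynomial.eval_mul,
        Polynomial.eval_C]
      ring
    obtain ⟨hgO1, hqO1⟩ := hfin O1 hO1 hne1
    obtain ⟨m, hm, hmg⟩ := hint O1 hO1 hgO1
    have hmE : Polynomial.aeval (ιK k g) (m.map (quadE f)) = m.eval₂ (ev f) (ιK k g) := by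
      rw [Polynomial.aeval_def, Polynomial.eval₂_map]
      rfl
    have hqE : Polynomial.aeval (ιK k g) q = ιK k g ^ 2 +
        algebraMap (EF f) (KK k) c1 * ιK k g + algebraMap (EF f) (KK k) c0 := by
      rw [hqdef]
      simp only [map_add, map_mul, map_pow, Polynomial.aeval_X, Polynomial.aeval_C]
      ring
    have hdvd : q ∣ m.map (quadE f) := by
      by_contra hnd
      have hcop : IsCoprime q (m.map (quadE f)) := (hirr.coprime_iff_not_dvd).2 hnd
      obtain ⟨u, v, huv⟩ := hcop
      have h1 := congrArg (Polynomial.aeval (ιK k g)) huv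
      rw [map_add, map_mul, map_mul, map_one, hmE, hqE] at h1
      have h2 : (1 : KK k) ∈ O1.nonunits := by
        rw [← h1]
        exact quad_nu_add (quad_nu_mul' (aeval_mem hO1.1 hgO1 u) hqO1)
          (quad_nu_mul' (aeval_mem hO1.1 hgO1 v) hmg)
      have h3 : algebraMap (EF f) (KK k) 1 ∉ O1.nonunits :=
        const_notMem_nonunits hO1.1 one_ne_zero
      rw [map_one] at h3
      exact h3 h2
    obtain ⟨q', hq'⟩ := quad_dvd hJ q hqm m hm hdvd
    have hc1 : c1 = quadE f (q'.coeff 1) := by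
      have h1 := congrArg (fun p => p.coeff 1) hq'
      simp only [Polynomial.coeff_map] at h1
      rw [← h1, hqdef]
      simp [Polynomial.coeff_X_pow, Polynomial.coeff_C]
    have hc0 : c0 = quadE f (q'.coeff 0) := by
      have h1 := congrArg (fun p => p.coeff 0) hq'
      simp only [Polynomial.coeff_map] at h1
      rw [← h1, hqdef]
      simp
    set γ1 := q'.coeff 1 with hγ1
    set γ0 := q'.coeff 0 with hγ0
    have hev : ∀ c : k, ev f (Polynomial.C c) = algebraMap k (KK k) c := by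
      intro c
      rw [ev_eq, Polynomial.aeval_C]
    have hev2 : ev f (Polynomial.C (1 / 2)) = 1 / 2 := by
      rw [hev, map_div₀, map_one, map_ofNat]
    have hev4 : ev f (Polynomial.C (1 / 4)) = 1 / 4 := by
      rw [hev, map_div₀, map_one, map_ofNat]
    refine ⟨Polynomial.C (1 / 2) * γ1, Polynomial.C (1 / 4) * γ1 ^ 2 - γ0, ?_, O1, hO1, hne1⟩
    refine quad_core hJ hO hg hres c1 c0 hfin _ _ ?_ ?_ ?_
    · intro hP
      apply hroot
      refine ⟨quadE f (Polynomial.C (-(1 / 2)) * γ1), ?_⟩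
      rw [hc1, hc0, ← map_pow, ← map_mul, ← map_add, ← map_add]
      have h5 : (Polynomial.C (-(1 / 2)) * γ1) ^ 2 + γ1 * (Polynomial.C (-(1 / 2)) * γ1) + γ0 = 0 := by
        have h6 : (Polynomial.C (1 / 2) : Polynomial k) * Polynomial.C (1 / 2) =
            Polynomial.C (1 / 4) := by
          rw [← Polynomial.C_mul]
          norm_num
        have h7 : (Polynomial.C (1 / 2) : Polynomial k) = 2 * Polynomial.C (1 / 4) := by
          have : (2 : Polynomial k) = Polynomial.C 2 := rfl
          rw [this, ← Polynomial.C_mul]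
          norm_num
        rw [Polynomial.C_neg]
        linear_combination (γ1 ^ 2) * h6 - hP - γ1 ^ 2 * h7
      rw [h5, map_zero]
    · rw [hc1, map_mul, hev2, quadE_coe]
      ring
    · rw [hc0, map_sub, map_mul, map_mul, map_pow, hev2, hev4, quadE_coe]
      ring

end Pool.Agent.H928R2.Tri
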