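import Pool.Agent.H928R2.TriN
import Pool.Agent.H928R2.TriQuad

set_option autoImplicit false
set_option linter.unusedSectionVars false

open MvPolynomial Pool.Agent.H928R2.Inv Pool.Agent.H928R2.Pen

namespace Pool.Agent.H928R2.Tri

theorem quad2_core {k : Type*} [Field k] [CharZero k] {f g : PP k}
    (c1 c0 : EF f)
    (hfin : ∀ O ∈ SR (RE f), ιK k g ∈ O →
      ιK k g ^ 2 + algebraMap (EF f) (KK k) c1 * ιK k g + algebraMap (EF f) (KK k) c0
        ∈ O.nonunits) (h P : Polynomial k)
    (e1 : 2 * ev f h = (c1 : KK k)) (e0 : ev f h ^ 2 - ev f P = (c0 : KK k)) :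
    ∀ O ∈ SR (RE f), ιK k g ∉ O ∨
      ιK k (g + Polynomial.aeval f h) ^ 2 - ev f P ∈ O.nonunits := by
  intro O hO
  by_cases hg : ιK k g ∈ O
  · right
    have hι : ιK k (g + Polynomial.aeval f h) = ιK k g + ev f h := by
      rw [map_add, ev_apply]
    rw [hι]
    have e2 : (ιK k g + ev f h) ^ 2 - ev f P =
        ιK k g ^ 2 + algebraMap (EF f) (KK k) c1 * ιK k g + algebraMap (EF f) (KK k) c0 := by
      have e3 : algebraMap (EF f) (KK k) c1 = (c1 : KK k) := rfl
      have e4 : algebraMap (EF f) (KK k) c0 = (c0 : KK k) := rfl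
      rw [e3, e4, ← e1, ← e0]
      ring
    rw [e2]
    exact hfin O hO hg
  · exact Or.inl hg

theorem reduce_quad' {k : Type*} [Field k] [CharZero k] [IsAlgClosed k] (f g : PP k)
    (hJ : br f g = 1) (c1 c0 : EF f)
    (hfin : ∀ O ∈ SR (RE f), ιK k g ∈ O →
      ιK k g ^ 2 + algebraMap (EF f) (KK k) c1 * ιK k g + algebraMap (EF f) (KK k) c0
        ∈ O.nonunits)
    (hint : ∀ O ∈ SR (RE f), ιK k g ∈ O →
      ∃ m : Polynomial (Polynomial k), m.Monic ∧ m.eval₂ (ev f) (ιK k g) ∈ O.nonunits) :
    (∃ a : EF f, ∀ O ∈ SR (RE f), ιK k g ∉ O ∨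
      ιK k g - algebraMap (EF f) (KK k) a ∈ O.nonunits) ∨
    ∃ h P : Polynomial k, P ≠ 0 ∧ ∀ O ∈ SR (RE f), ιK k g ∉ O ∨
      ιK k (g + Polynomial.aeval f h) ^ 2 - ev f P ∈ O.nonunits := by
  by_cases hall : ∀ O' ∈ SR (RE f), ιK k g ∉ O'
  · left
    exact ⟨0, fun O' hO' => Or.inl (hall O' hO')⟩
  push Not at hall
  obtain ⟨O1, hO1, hne1⟩ := hall
  by_cases hroot : ∃ a : EF f, a ^ 2 + c1 * a + c0 = 0
  · -- case A
    obtain ⟨a, ha⟩ := hroot
    set b : EF f := -c1 - a with hb
    have hc1 : c1 = -(a + b) := by rw [hb]; ring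
    have hc0 : c0 = a * b := by rw [hb]; linear_combination ha
    have hq : ∀ x : KK k, x ^ 2 + algebraMap (EF f) (KK k) c1 * x + algebraMap (EF f) (KK k) c0 =
        (x - algebraMap (EF f) (KK k) a) * (x - algebraMap (EF f) (KK k) b) := by
      intro x
      rw [hc1, hc0, map_neg, map_add, map_mul]
      ring
    have hor : ∀ O' ∈ SR (RE f), ιK k g ∈ O' → ιK k g - algebraMap (EF f) (KK k) a ∈ O'.nonunits ∨
        ιK k g - algebraMap (EF f) (KK k) b ∈ O'.nonunits := by
      intro O' hO' hne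
      have h2 := hfin O' hO' hne
      rw [hq] at h2
      by_cases h3 : ιK k g - algebraMap (EF f) (KK k) a ∈ O'.nonunits
      · exact Or.inl h3
      · right
        have h4 := inv_mem_of_notMem_nonunits h3
        have h5 := quad_nu_mul' h4 h2
        have h6 : ιK k g - algebraMap (EF f) (KK k) a ≠ 0 := by
          intro h
          rw [h] at h3
          exact h3 (zero_nonunits _)
        rwa [inv_mul_cancel_left₀ h6] at h5
    by_cases hA : ∀ O' ∈ SR (RE f), ιK k g ∈ O' → ιK k g - algebraMap (EF f) (KK k) a ∈ O'.nonunits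
    · left
      refine ⟨a, fun O' hO' => ?_⟩
      by_cases h : ιK k g ∈ O'
      · exact Or.inr (hA O' hO' h)
      · exact Or.inl h
    by_cases hB : ∀ O' ∈ SR (RE f), ιK k g ∈ O' → ιK k g - algebraMap (EF f) (KK k) b ∈ O'.nonunits
    · left
      refine ⟨b, fun O' hO' => ?_⟩
      by_cases h : ιK k g ∈ O'
      · exact Or.inr (hB O' hO' h)
      · exact Or.inl h
    push Not at hA hB
    obtain ⟨Ob, hOb, hOb1, hOb2⟩ := hA
    obtain ⟨Oa, hOa, hOa1, hOa2⟩ := hB
    have hOb3 := (hor Ob hOb hOb1).resolve_left hOb2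
    have hOa3 := (hor Oa hOa hOa1).resolve_right hOa2
    obtain ⟨β, hβ⟩ := quad_crit hJ hint b Ob hOb hOb3
    obtain ⟨α, hα⟩ := quad_crit hJ hint a Oa hOa hOa3
    have hab : a ≠ b := by
      intro h
      rw [h] at hOa3
      exact hOa2 hOa3
    right
    have hev : ∀ c : k, ev f (Polynomial.C c) = algebraMap k (KK k) c := by
      intro c
      rw [ev_eq, Polynomial.aeval_C]
    have hαβ : α - β ≠ 0 := by
      intro h
      apply hab
      rw [hα, hβ, sub_eq_zero.1 h]
    have hev2 : ev f (Polynomial.C (-(1 / 2))) = -(1 / 2) := by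
      rw [hev, map_neg, map_div₀, map_one, map_ofNat]
    have hev4 : ev f (Polynomial.C (1 / 4)) = 1 / 4 := by
      rw [hev, map_div₀, map_one, map_ofNat]
    refine ⟨Polynomial.C (-(1 / 2)) * (α + β), Polynomial.C (1 / 4) * (α - β) ^ 2, ?_, ?_⟩
    · refine mul_ne_zero ?_ (pow_ne_zero _ hαβ)
      rw [Polynomial.C_ne_zero]
      norm_num
    · refine quad2_core c1 c0 hfin _ _ ?_ ?_
      · rw [hc1, hα, hβ, map_mul, map_add, hev2]
        push_cast
        rw [quadE_coe, quadE_coe]
        ring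
      · rw [hc0, hα, hβ, map_mul, map_mul, map_pow, map_add, map_sub, hev2, hev4]
        push_cast
        rw [quadE_coe, quadE_coe]
        ring
  · -- case B
    right
    set q : Polynomial (EF f) := Polynomial.X ^ 2 + (Polynomial.C c1 * Polynomial.X +
      Polynomial.C c0) with hqdef
    have hdeg : (Polynomial.C c1 * Polynomial.X + Polynomial.C c0).degree < ((2 : ℕ) : WithBot ℕ) :=
      lt_of_le_of_lt Polynomial.degree_linear_le (by norm_num)
    have hqm : q.Monic := Polynomial.monic_X_pow_add hdeg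
    have hqn : q.natDegree = 2 := by
      rw [hqdef]
      compute_degree!
    have hirr : Irreducible q := by
      rw [hqm.irreducible_iff_roots_eq_zero_of_degree_le_three (by omega) (by omega)]
      rw [Multiset.eq_zero_iff_forall_notMem]
      intro a ha
      rw [Polynomial.mem_roots hqm.ne_zero, Polynomial.IsRoot.def] at ha
      apply hroot
      refine ⟨a, ?_⟩
      rw [← ha, hqdef]
      simp only [Polynomial.eval_add, Polynomial.eval_pow, Polynomial.eval_X, Polynomial.eval_mul,
        Polynomial.eval_C]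
      ring
    have hqO1 := hfin O1 hO1 hne1
    obtain ⟨m, hm, hmg⟩ := hint O1 hO1 hne1
    have hmE : Polynomial.aeval (ιK k g) (m.map (quadE f)) = m.eval₂ (ev f) (ιK k g) := by
      rw [Polynomial.aeval_def, Polynomial.eval₂_map]
      rfl
    have hqE : Polynomial.aeval (ιK k g) q = ιK k g ^ 2 +
        algebraMap (EF f) (KK k) c1 * ιK k g + algebraMap (EF f) (KK k) c0 := by
      rw [hqdef]
      simp only [map_add, map_mul, map_pow, Polynomial.aeval_X, Polynomial.aeval_C]
      ring
    have hdvd : q ∣ m.map (quadE f) := by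
      by_contra hnd
      have hcop : IsCoprime q (m.map (quadE f)) := (hirr.coprime_iff_not_dvd).2 hnd
      obtain ⟨u, v, huv⟩ := hcop
      have h1 := congrArg (Polynomial.aeval (ιK k g)) huv
      rw [map_add, map_mul, map_mul, map_one, hmE, hqE] at h1
      have h2 : (1 : KK k) ∈ O1.nonunits := by
        rw [← h1]
        exact quad_nu_add (quad_nu_mul' (aeval_mem hO1.1 hne1 u) hqO1)
          (quad_nu_mul' (aeval_mem hO1.1 hne1 v) hmg)
      have h3 : algebraMap (EF f) (KK k) 1 ∉ O1.nonunits :=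
        const_notMem_nonunits hO1.1 one_ne_zero
      rw [map_one] at h3
      exact h3 h2
    obtain ⟨q', hq'⟩ := quad_dvd hJ q hqm m hm hdvd
    have hc1 : c1 = quadE f (q'.coeff 1) := by
      have h1 := congrArg (fun p => p.coeff 1) hq'
      simp only [Polynomial.coeff_map] at h1
      rw [← h1, hqdef]
      simp [Polynomial.coeff_X_pow, Polynomial.coeff_C]
    have hc0 : c0 = quadE f (q'.coeff 0) := by
      have h1 := congrArg (fun p => p.coeff 0) hq'
      simp only [Polynomial.coeff_map] at h1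
      rw [← h1, hqdef]
      simp
    set γ1 := q'.coeff 1 with hγ1
    set γ0 := q'.coeff 0 with hγ0
    have hev : ∀ c : k, ev f (Polynomial.C c) = algebraMap k (KK k) c := by
      intro c
      rw [ev_eq, Polynomial.aeval_C]
    have hev2 : ev f (Polynomial.C (1 / 2)) = 1 / 2 := by
      rw [hev, map_div₀, map_one, map_ofNat]
    have hev4 : ev f (Polynomial.C (1 / 4)) = 1 / 4 := by
      rw [hev, map_div₀, map_one, map_ofNat]
    refine ⟨Polynomial.C (1 / 2) * γ1, Polynomial.C (1 / 4) * γ1 ^ 2 - γ0, ?_, ?_⟩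
    · intro hP
      apply hroot
      refine ⟨quadE f (Polynomial.C (-(1 / 2)) * γ1), ?_⟩
      rw [hc1, hc0, ← map_pow, ← map_mul, ← map_add, ← map_add]
      have h5 : (Polynomial.C (-(1 / 2)) * γ1) ^ 2 + γ1 * (Polynomial.C (-(1 / 2)) * γ1) + γ0 = 0 := by
        have h6 : (Polynomial.C (1 / 2) : Polynomial k) * Polynomial.C (1 / 2) =
            Polynomial.C (1 / 4) := by
          rw [← Polynomial.C_mul]
          norm_num
        have h7 : (Polynomial.C (1 / 2) : Polynomial k) = 2 * Polynomial.C (1 / 4) := by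
          have : (2 : Polynomial k) = Polynomial.C 2 := rfl
          rw [this, ← Polynomial.C_mul]
          norm_num
        rw [Polynomial.C_neg]
        linear_combination (γ1 ^ 2) * h6 - hP - γ1 ^ 2 * h7
      rw [h5, map_zero]
    · refine quad2_core c1 c0 hfin _ _ ?_ ?_
      · rw [hc1, map_mul, hev2, quadE_coe]
        ring
      · rw [hc0, map_sub, map_mul, map_mul, map_pow, hev2, hev4, quadE_coe]
        ring

end Pool.Agent.H928R2.Tri
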