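import Pool.Agent.H928R2.TriQ
import Pool.Agent.H928R2.TriQuad2
import Pool.Agent.H928R2.TriInt

/-!
# Jacobian pairs: the two kinds of curves
-/

set_option autoImplicit false
set_option linter.unusedSectionVars false

open MvPolynomial Pool.Agent.H928R2.Inv Pool.Agent.H928R2.Pen

namespace Pool.Agent.H928R2.Tri

section
variable {k : Type*} [Field k] [CharZero k] [IsAlgClosed k] {f g : PP k}

/-- the unit element of a valuation ring containing `E` -/
theorem unit_mul {O : ValuationSubring (KK k)} (hE : ∀ a : EF f, algebraMap (EF f) (KK k) a ∈ O)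
    {e z : KK k} (he : e ∈ EF f) (he0 : e ≠ 0) (h : e * z ∈ O.nonunits) : z ∈ O.nonunits := by
  have h1 : z = e⁻¹ * (e * z) := by field_simp
  rw [h1, ValuationSubring.mem_nonunits_iff, map_mul]
  have h2 : O.valuation e⁻¹ ≤ 1 := (O.valuation_le_one_iff _).2 (hE ⟨_, inv_mem he⟩)
  exact lt_of_le_of_lt (mul_le_of_le_one_left' h2) (O.mem_nonunits_iff.1 h)

/-- curves of degree at most two -/
theorem gen_a (hJ : br f g = 1) (q2 q1 q0 : Polynomial k) (hq : q2 ≠ 0 ∨ q1 ≠ 0 ∨ q0 ≠ 0)
    (h : ∀ O ∈ SR (RE f), ιK k g ∈ O →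
      ev f q2 * ιK k g ^ 2 + ev f q1 * ιK k g + ev f q0 ∈ O.nonunits) :
    ∃ T : KK k, IntermediateField.adjoin k {ιK k f, T} = ⊤ := by
  by_cases h2 : q2 = 0
  · by_cases h1 : q1 = 0
    · have h0 : q0 ≠ 0 := by
        rcases hq with h | h | h
        · exact absurd h2 h
        · exact absurd h1 h
        · exact h
      refine gen_of_equal f g hJ 0 fun O hO => Or.inl fun hg => ?_
      have h3 := h O hO hg
      rw [h2, h1, map_zero, zero_mul, zero_mul, zero_add, zero_add] at h3
      have h4 := unit_mul hO.1 (ev_mem f q0) (ev_ne hJ h0) (z := 1) (by rwa [mul_one])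
      rw [ValuationSubring.mem_nonunits_iff, map_one] at h4
      exact lt_irrefl _ h4
    · refine gen_of_equal f g hJ ⟨-ev f q0 / ev f q1, div_mem (neg_mem (ev_mem f _)) (ev_mem f _)⟩
        fun O hO => ?_
      by_cases hg : ιK k g ∈ O
      · right
        have h3 := h O hO hg
        rw [h2, map_zero, zero_mul, zero_add] at h3
        refine unit_mul hO.1 (ev_mem f q1) (ev_ne hJ h1) ?_
        have h4 : ev f q1 * (ιK k g - -ev f q0 / ev f q1) = ev f q1 * ιK k g + ev f q0 := by
          have h5 := ev_ne hJ h1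
          field_simp
          ring
        show ev f q1 * (ιK k g - -ev f q0 / ev f q1) ∈ O.nonunits
        rw [h4]
        exact h3
      · exact Or.inl hg
  · have hq2 := ev_ne hJ h2
    have hfin : ∀ O ∈ SR (RE f), ιK k g ∈ O →
        ιK k g ^ 2 + algebraMap (EF f) (KK k) ⟨ev f q1 / ev f q2, div_mem (ev_mem f _) (ev_mem f _)⟩ *
          ιK k g + algebraMap (EF f) (KK k) ⟨ev f q0 / ev f q2, div_mem (ev_mem f _) (ev_mem f _)⟩
          ∈ O.nonunits := by
      intro O hO hg
      refine unit_mul hO.1 (ev_mem f q2) hq2 ?_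
      have h4 : ev f q2 * (ιK k g ^ 2 + ev f q1 / ev f q2 * ιK k g + ev f q0 / ev f q2) =
          ev f q2 * ιK k g ^ 2 + ev f q1 * ιK k g + ev f q0 := by
        field_simp
      show ev f q2 * (ιK k g ^ 2 + ev f q1 / ev f q2 * ιK k g + ev f q0 / ev f q2) ∈ O.nonunits
      rw [h4]
      exact h O hO hg
    rcases reduce_quad' f g hJ _ _ hfin (fun O hO hg => integral_res f g hJ O hO hg) with
      ⟨a, ha⟩ | ⟨r, P, hP, hr⟩
    · exact gen_of_equal f g hJ a ha
    · have hJ' : br f (g + Polynomial.aeval f r) = 1 := by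
        have h5 : br f (Polynomial.aeval f r) = 0 := by
          rw [← dd_br]
          exact dd_aeval (by rw [dd_apply]; ring) r
        rw [← dd_br, map_add, dd_br, dd_br, hJ, h5, add_zero]
      have hP0 := ev_ne hJ hP
      refine gen_of_curve f (g + Polynomial.aeval f r) hJ' P hP 2 two_pos fun O hO => ?_
      rcases hr O hO with h6 | h6
      · left
        intro h7
        apply h6
        have h8 : ιK k g = ιK k (g + Polynomial.aeval f r) - ev f r := by
          rw [map_add, ev_apply]
          ring
        rw [h8]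
        exact sub_mem h7 (hO.1 ⟨_, ev_mem f r⟩)
      · right
        refine ⟨1, ?_⟩
        refine unit_mul hO.1 (ev_mem f P) hP0 ?_
        have h9 : ev f P * (jn f (g + Polynomial.aeval f r) P 2 - algebraMap k (KK k) 1) =
            ιK k (g + Polynomial.aeval f r) ^ 2 - ev f P := by
          rw [map_one, mul_sub, mul_one]
          unfold jn
          rw [mul_div_cancel₀ _ hP0]
        rw [h9]
        exact h6

/-- unions of members of a pencil -/
theorem gen_b (hJ : br f g = 1) (P : Polynomial k) (hP : P ≠ 0) (n : ℕ) (hn : 0 < n)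
    (w : Polynomial k) (hw : w ≠ 0)
    (h : ∀ O ∈ SR (RE f), ιK k g ∈ O → Polynomial.aeval (jn f g P n) w ∈ O.nonunits) :
    ∃ T : KK k, IntermediateField.adjoin k {ιK k f, T} = ⊤ := by
  refine gen_of_curve f g hJ P hP n hn fun O hO => ?_
  by_cases hg : ιK k g ∈ O
  · right
    have h1 := h O hO hg
    by_contra hcon
    push Not at hcon
    have hkO : ∀ c : k, algebraMap k (KK k) c ∈ O := fun c =>
      hO.1 ⟨_, IntermediateField.algebraMap_mem _ c⟩
    have key : ∀ s : Multiset k, O.valuation (Polynomial.aeval (jn f g P n)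
        (s.map fun a => Polynomial.X - Polynomial.C a).prod) ≥ 1 := by
      intro s
      induction s using Multiset.induction_on with
      | empty => simp
      | cons a s ih =>
        rw [Multiset.map_cons, Multiset.prod_cons, map_mul, map_mul, map_sub, Polynomial.aeval_X,
          Polynomial.aeval_C]
        have h2 := hcon a
        rw [ValuationSubring.mem_nonunits_iff, not_lt] at h2
        exact one_le_mul h2 ih
    have hs := IsAlgClosed.splits w
    rw [hs.eq_prod_roots, map_mul, Polynomial.aeval_C, ValuationSubring.mem_nonunits_iff,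
      map_mul] at h1
    have h2 := key w.roots
    have hl : w.leadingCoeff ≠ 0 := Polynomial.leadingCoeff_ne_zero.2 hw
    have h3 : O.valuation (algebraMap k (KK k) w.leadingCoeff) ≥ 1 := by
      have h4 : O.valuation (algebraMap k (KK k) (w.leadingCoeff)⁻¹) ≤ 1 :=
        (O.valuation_le_one_iff _).2 (hkO _)
      rw [map_inv₀, map_inv₀] at h4
      have h5 : O.valuation (algebraMap k (KK k) w.leadingCoeff) ≠ 0 := by
        rw [(Valuation.ne_zero_iff _)]
        exact (map_ne_zero _).2 hl
      exact (inv_le_one₀ (zero_lt_iff.2 h5)).1 h4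
    exact absurd h1 (not_lt.2 (one_le_mul h3 h2))
  · exact Or.inl hg

end

end Pool.Agent.H928R2.Tri
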