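import Pool.Agent.H928R2.TriMainQ

set_option autoImplicit false
set_option linter.unusedSectionVars false

open MvPolynomial Pool.Agent.H928R2.Inv Pool.Agent.H928R2.Pen

namespace Pool.Agent.H928R2.Tri

section conc
variable {E L : Type*} [Field E] [CharZero E] [Field L] [Algebra E L]

theorem TriGood_frac (t : L) (htt : Transcendental E t)
    (hfin : FiniteDimensional (IntermediateField.adjoin E {t}) L) (O : ValuationSubring L)
    (hE : ∀ a : E, algebraMap E L a ∈ O) (htO : t ∈ O) (z : L) (hz : z ∈ O) :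
    ∃ r s : L, (∃ p : Polynomial L, p.Monic ∧ (∀ i, p.coeff i ∈ Algebra.adjoin E {t}) ∧
        p.eval r = 0) ∧
      (∃ p : Polynomial L, p.Monic ∧ (∀ i, p.coeff i ∈ Algebra.adjoin E {t}) ∧ p.eval s = 0) ∧
      s ∉ O.nonunits ∧ z * s = r := by
  let algT : Algebra (Polynomial E) L :=
    (Polynomial.aeval t : Polynomial E →ₐ[E] L).toRingHom.toAlgebra
  have halgT : ∀ p : Polynomial E, algebraMap (Polynomial E) L p = Polynomial.aeval t p :=
    fun _ => rfl
  let e := RatFunc.algEquivOfTranscendental t htt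
  let algR : Algebra (RatFunc E) L :=
    ((algebraMap (IntermediateField.adjoin E {t}) L).comp
      (e.toRingEquiv : RatFunc E →+* IntermediateField.adjoin E {t})).toAlgebra
  have halgR : ∀ p : RatFunc E, algebraMap (RatFunc E) L p = (e p : L) := fun _ => rfl
  have : IsScalarTower (Polynomial E) (RatFunc E) L := IsScalarTower.of_algebraMap_eq (by
    intro p
    rw [halgR, halgT]
    show _ = ((RatFunc.algEquivOfTranscendental t htt)
      (algebraMap (Polynomial E) (RatFunc E) p) : L)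
    rw [RatFunc.algEquivOfTranscendental_algebraMap]
    exact Polynomial.aeval_algebraMap_apply L (IntermediateField.AdjoinSimple.gen E t) p)
  have : FiniteDimensional (RatFunc E) L :=
    Module.Finite.of_equiv_equiv (A₁ := IntermediateField.adjoin E {t}) (B₁ := L)
      e.symm.toRingEquiv (RingEquiv.refl L) (by
        ext z
        show ((e (e.symm z) : IntermediateField.adjoin E {t}) : L) = z
        rw [AlgEquiv.apply_symm_apply])
  have : CharZero (RatFunc E) := charZero_of_injective_algebraMap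
    (FaithfulSMul.algebraMap_injective E (RatFunc E))
  have hded : IsDedekindDomain (integralClosure (Polynomial E) L) :=
    integralClosure.isDedekindDomain (Polynomial E) (RatFunc E) L
  have hfrac : IsFractionRing (integralClosure (Polynomial E) L) L :=
    integralClosure.isFractionRing_of_finite_extension (RatFunc E) L
  have hEX : ∀ p : Polynomial E, algebraMap (Polynomial E) L p ∈ O := by
    intro p
    rw [halgT, Polynomial.aeval_eq_sum_range]
    refine sum_mem fun i _ => ?_
    rw [Algebra.smul_def]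
    exact O.mul_mem _ _ (hE _) (pow_mem htO i)
  have hB : ∀ b : integralClosure (Polynomial E) L,
      algebraMap (integralClosure (Polynomial E) L) L b ∈ O := by
    intro b
    let g : Polynomial E →+* O := (algebraMap (Polynomial E) L).codRestrict O.toSubring hEX
    obtain ⟨p, hp, hpb⟩ : IsIntegral (Polynomial E) (b : L) := b.2
    have h1 : IsIntegral O (b : L) := by
      refine ⟨p.map g, hp.map g, ?_⟩
      rw [Polynomial.eval₂_map]
      exact hpb
    obtain ⟨y, hy⟩ := IsIntegrallyClosed.isIntegral_iff.1 h1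
    show (b : L) ∈ O
    rw [← hy]
    exact y.2
  have hint : ∀ b : integralClosure (Polynomial E) L, ∃ p : Polynomial L, p.Monic ∧
      (∀ i, p.coeff i ∈ Algebra.adjoin E {t}) ∧
      p.eval (algebraMap (integralClosure (Polynomial E) L) L b) = 0 := by
    intro b
    obtain ⟨p, hp, hpb⟩ : IsIntegral (Polynomial E) (b : L) := b.2
    refine ⟨p.map (algebraMap (Polynomial E) L), hp.map _, fun i => ?_, ?_⟩
    · rw [Polynomial.coeff_map, halgT]
      exact Polynomial.aeval_mem_adjoin_singleton E t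
    · rw [Polynomial.eval_map]
      exact hpb
  by_cases hex : ∃ b₀ : integralClosure (Polynomial E) L, b₀ ≠ 0 ∧
      algebraMap (integralClosure (Polynomial E) L) L b₀ ∈ O.nonunits
  · obtain ⟨b₀, hb₀, hb₀O⟩ := hex
    obtain ⟨v, hv, -⟩ := exists_prime O hB b₀ hb₀ hb₀O
    have hz' := hz
    rw [hv] at hz'
    obtain ⟨a, s, hs, hzs⟩ := hz'
    have hs0 : algebraMap (integralClosure (Polynomial E) L) L s ≠ 0 := by
      intro h
      apply hs
      have h2 : s = 0 := (IsFractionRing.injective (integralClosure (Polynomial E) L) L)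
        (by rw [h, map_zero])
      rw [h2]
      exact zero_mem _
    have hsi : (algebraMap (integralClosure (Polynomial E) L) L s)⁻¹ ∈ O := by
      rw [hv]
      exact ⟨1, s, hs, by rw [map_one, one_mul]⟩
    refine ⟨algebraMap _ L a, algebraMap _ L s, hint a, hint s, ?_, ?_⟩
    · rw [ValuationSubring.mem_nonunits_iff_or]
      push Not
      exact ⟨hs0, hsi⟩
    · rw [hzs, mul_assoc, inv_mul_cancel₀ hs0, mul_one]
  · obtain ⟨a, s, hs, hzs⟩ := IsFractionRing.div_surjective
      (A := integralClosure (Polynomial E) L) (K := L) z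
    have hs0 : s ≠ 0 := nonZeroDivisors.ne_zero hs
    have hs0' : algebraMap (integralClosure (Polynomial E) L) L s ≠ 0 := by
      intro h
      exact hs0 ((IsFractionRing.injective (integralClosure (Polynomial E) L) L)
        (by rw [h, map_zero]))
    refine ⟨algebraMap _ L a, algebraMap _ L s, hint a, hint s, ?_, ?_⟩
    · intro h
      exact hex ⟨s, hs0, h⟩
    · rw [← hzs, div_mul_cancel₀ _ hs0']

end conc

section
variable {k : Type*} [Field k] [CharZero k]

theorem TriGood_aeval (f g : PP k) (γ : Polynomial k) :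
    Polynomial.aeval f γ ∈ Algebra.adjoin k ({f, g} : Set (PP k)) := by
  rw [Polynomial.aeval_eq_sum_range]
  refine sum_mem fun i _ => ?_
  apply Subalgebra.smul_mem
  exact pow_mem (Algebra.subset_adjoin (by simp)) i

theorem TriGood_clear {f g : PP k} (hJ : br f g = 1) (c : KK k)
    (hc : c ∈ Algebra.adjoin (EF f) {ιK k g}) :
    ∃ γ : Polynomial k, γ ≠ 0 ∧ ∃ s ∈ Algebra.adjoin k ({f, g} : Set (PP k)),
      ev f γ * c = ιK k s := by
  induction hc using Algebra.adjoin_induction with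
  | mem x hx =>
    rw [Set.mem_singleton_iff] at hx
    exact ⟨1, one_ne_zero, g, Algebra.subset_adjoin (by simp), by rw [map_one, one_mul, hx]⟩
  | algebraMap a =>
    obtain ⟨p, q, hq, h⟩ := (mem_EF_iff hJ _).1 a.2
    refine ⟨q, hq, Polynomial.aeval f p, TriGood_aeval f g p, ?_⟩
    show ev f q * (a : KK k) = _
    rw [h, mul_div_cancel₀ _ (ev_ne hJ hq)]
    rfl
  | add x y _ _ hx hy =>
    obtain ⟨γ, hγ, s, hs, h1⟩ := hx
    obtain ⟨δ, hδ, u, hu, h2⟩ := hy
    refine ⟨γ * δ, mul_ne_zero hγ hδ, Polynomial.aeval f δ * s + Polynomial.aeval f γ * u,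
      add_mem (mul_mem (TriGood_aeval f g δ) hs) (mul_mem (TriGood_aeval f g γ) hu), ?_⟩
    rw [map_add, map_mul, map_mul, map_mul, ← h1, ← h2, ← ev_apply, ← ev_apply]
    ring
  | mul x y _ _ hx hy =>
    obtain ⟨γ, hγ, s, hs, h1⟩ := hx
    obtain ⟨δ, hδ, u, hu, h2⟩ := hy
    refine ⟨γ * δ, mul_ne_zero hγ hδ, s * u, mul_mem hs hu, ?_⟩
    rw [map_mul, map_mul, ← h1, ← h2]
    ring

theorem TriGood_clear_poly {f g : PP k} (hJ : br f g = 1) (p : Polynomial (KK k))
    (hp : ∀ i, p.coeff i ∈ Algebra.adjoin (EF f) {ιK k g}) :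
    ∃ γ : Polynomial k, γ ≠ 0 ∧ ∀ i, ∃ s ∈ Algebra.adjoin k ({f, g} : Set (PP k)),
      ev f γ * p.coeff i = ιK k s := by
  have h1 : ∀ n : ℕ, ∃ γ : Polynomial k, γ ≠ 0 ∧ ∀ i < n,
      ∃ s ∈ Algebra.adjoin k ({f, g} : Set (PP k)), ev f γ * p.coeff i = ιK k s := by
    intro n
    induction n with
    | zero => exact ⟨1, one_ne_zero, fun i hi => absurd hi (Nat.not_lt_zero i)⟩
    | succ n ih =>
      obtain ⟨γ, hγ, h⟩ := ih
      obtain ⟨δ, hδ, s, hs, h2⟩ := TriGood_clear hJ _ (hp n)
      refine ⟨γ * δ, mul_ne_zero hγ hδ, fun i hi => ?_⟩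
      rcases Nat.lt_succ_iff_lt_or_eq.1 hi with h3 | h3
      · obtain ⟨u, hu, h4⟩ := h i h3
        refine ⟨Polynomial.aeval f δ * u, mul_mem (TriGood_aeval f g δ) hu, ?_⟩
        rw [map_mul, map_mul, ← h4, ← ev_apply]
        ring
      · subst h3
        refine ⟨Polynomial.aeval f γ * s, mul_mem (TriGood_aeval f g γ) hs, ?_⟩
        rw [map_mul, map_mul, ← h2, ← ev_apply]
        ring
  obtain ⟨γ, hγ, h⟩ := h1 (p.natDegree + 1)
  refine ⟨γ, hγ, fun i => ?_⟩
  by_cases hi : i < p.natDegree + 1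
  · exact h i hi
  · refine ⟨0, zero_mem _, ?_⟩
    rw [Polynomial.coeff_eq_zero_of_natDegree_lt (by omega), mul_zero, map_zero]

theorem TriGood_int {f g : PP k} (hJ : br f g = 1) (r : KK k) (p : Polynomial (KK k))
    (hp : p.Monic) (hpc : ∀ i, p.coeff i ∈ Algebra.adjoin (EF f) {ιK k g})
    (hpr : p.eval r = 0) :
    ∃ γ : Polynomial k, γ ≠ 0 ∧ ∀ γ' : Polynomial k, ∃ b : PP k,
      IsIntegral (Algebra.adjoin k {f, g}) b ∧ ιK k b = ev f (γ * γ') * r := by
  obtain ⟨γ, hγ, h⟩ := TriGood_clear_poly hJ p hpc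
  refine ⟨γ, hγ, fun γ' => ?_⟩
  let S := Algebra.adjoin k ({f, g} : Set (PP k))
  let φ : S →+* KK k := ((ιK k : PP k →ₐ[k] KK k) : PP k →+* KK k).comp (algebraMap S (PP k))
  set δ := ev f (γ * γ') with hδ
  have hq : (p.scaleRoots δ).Monic := (Polynomial.monic_scaleRoots_iff δ).2 hp
  have hδS : Polynomial.aeval f (γ * γ') ∈ S := TriGood_aeval f g _
  have hl : p.scaleRoots δ ∈ Polynomial.lifts φ := by
    rw [Polynomial.lifts_iff_coeff_lifts]
    intro i
    rw [Polynomial.coeff_scaleRoots]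
    rcases lt_trichotomy i p.natDegree with hi | hi | hi
    · obtain ⟨s, hs, h1⟩ := h i
      refine ⟨⟨Polynomial.aeval f γ' * s * Polynomial.aeval f (γ * γ') ^ (p.natDegree - i - 1),
        mul_mem (mul_mem (TriGood_aeval f g γ') hs) (pow_mem hδS _)⟩, ?_⟩
      show ιK k (Polynomial.aeval f γ' * s * Polynomial.aeval f (γ * γ') ^ (p.natDegree - i - 1)) =
        _
      rw [map_mul, map_mul, map_pow, ← h1, ← ev_apply, ← ev_apply, ← hδ]
      have h2 : p.natDegree - i = (p.natDegree - i - 1) + 1 := by omega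
      conv_rhs => rw [h2, pow_succ]
      rw [hδ, map_mul]
      ring
    · refine ⟨1, ?_⟩
      rw [map_one, hi, Nat.sub_self, pow_zero, mul_one]
      exact hp.coeff_natDegree.symm
    · refine ⟨0, ?_⟩
      rw [map_zero, Polynomial.coeff_eq_zero_of_natDegree_lt hi, zero_mul]
  obtain ⟨q, hq1, -, hq2⟩ := Polynomial.lifts_and_degree_eq_and_monic hl hq
  have hev : (p.scaleRoots δ).eval (δ * r) = 0 := by
    have h1 := Polynomial.scaleRoots_eval₂_eq_zero (RingHom.id (KK k)) (p := p) (r := r) (s := δ)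
      (by rw [Polynomial.eval₂_id]; exact hpr)
    rw [Polynomial.eval₂_id] at h1
    exact h1
  have hint : IsIntegral (PP k) (δ * r) := by
    refine ⟨q.map (algebraMap S (PP k)), hq2.map _, ?_⟩
    rw [← Polynomial.eval_map, Polynomial.map_map]
    have h1 : q.map ((algebraMap (PP k) (KK k)).comp (algebraMap S (PP k))) = p.scaleRoots δ := hq1
    rw [h1]
    exact hev
  obtain ⟨b, hb⟩ := IsIntegrallyClosed.isIntegral_iff.1 hint
  refine ⟨b, ⟨q, hq2, ?_⟩, hb⟩
  apply iR_inj (k := k) (σ := Fin 2)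
  rw [map_zero]
  have h1 : iR k (Fin 2) (Polynomial.eval₂ (algebraMap S (PP k)) b q) =
      Polynomial.eval₂ φ (ιK k b) q :=
    Polynomial.hom_eval₂ q (algebraMap S (PP k)) ((ιK k : PP k →ₐ[k] KK k) : PP k →+* KK k) b
  have hb' : ιK k b = δ * r := hb
  rw [h1, ← Polynomial.eval_map, hq1, hb']
  exact hev

end

/-- at an unramified place the derivation is regular -/
theorem good_of {k : Type*} [Field k] [CharZero k] [IsAlgClosed k] (f g : PP k)
    (hJ : br f g = 1) (M : IntermediateField (EF f) (KK k)) (hgM : ιK k g ∈ M) (w : PP k)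
    (D : Derivation k (KK k) (KK k))
    (hD : ∀ b : PP k, ιK k b ∈ M → IsIntegral (Algebra.adjoin k {f, g}) b →
      ∃ (N : ℕ) (c : PP k), IsIntegral (Algebra.adjoin k {f, g}) c ∧
        ιK k w ^ N * D (ιK k b) = ιK k c)
    (O : ValuationSubring (KK k)) (hE : ∀ a : EF f, algebraMap (EF f) (KK k) a ∈ O)
    (hg : ιK k g ∈ O) (hw : ιK k w ∈ O) (hwn : ιK k w ∉ O.nonunits) (z : KK k) (hzM : z ∈ M)
    (hz : z ∈ O) : D z ∈ O := by
  -- the field `M`
  let t : M := ⟨ιK k g, hgM⟩
  have htM : (algebraMap M (KK k)) t = ιK k g := rfl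
  have htt : Transcendental (EF f) t := by
    intro h
    apply transc_g hJ
    have := h.algebraMap (A := KK k)
    exact this
  have hfin1 : FiniteDimensional (IntermediateField.adjoin (EF f) {ιK k g}) (KK k) :=
    hfin_f hJ _ (transc_g hJ)
  have hlift : IntermediateField.lift (IntermediateField.adjoin (EF f) {t}) =
      IntermediateField.adjoin (EF f) {ιK k g} :=
    IntermediateField.lift_adjoin_simple (EF f) M t
  rw [← hlift] at hfin1
  have hfin2 : FiniteDimensional (IntermediateField.adjoin (EF f) {t}) (KK k) :=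
    Module.Finite.of_equiv_equiv
      (A₁ := IntermediateField.lift (IntermediateField.adjoin (EF f) {t})) (B₁ := KK k)
      (IntermediateField.liftAlgEquiv (IntermediateField.adjoin (EF f) {t})).symm.toRingEquiv
      (RingEquiv.refl (KK k)) (by
        ext z
        obtain ⟨y, rfl⟩ := (IntermediateField.liftAlgEquiv
          (IntermediateField.adjoin (EF f) {t})).surjective z
        show (algebraMap _ (KK k)) ((IntermediateField.liftAlgEquiv
          (IntermediateField.adjoin (EF f) {t})).symm (IntermediateField.liftAlgEquiv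
          (IntermediateField.adjoin (EF f) {t}) y)) = _
        rw [AlgEquiv.symm_apply_apply]
        rfl)
  have hfin3 : FiniteDimensional (IntermediateField.adjoin (EF f) {t}) M :=
    FiniteDimensional.left _ M (KK k)
  obtain ⟨r, s, ⟨p, hp, hpc, hpr⟩, ⟨q, hq, hqc, hqs⟩, hsn, hzs⟩ := TriGood_frac t htt hfin3
    (O.comap (algebraMap M (KK k))) (fun a => hE a) hg ⟨z, hzM⟩ hz
  have hmap : ∀ c : M, c ∈ Algebra.adjoin (EF f) {t} →
      algebraMap M (KK k) c ∈ Algebra.adjoin (EF f) {ιK k g} := by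
    intro c hc
    have h1 : algebraMap M (KK k) c ∈ (Algebra.adjoin (EF f) {t}).map
        (IsScalarTower.toAlgHom (EF f) M (KK k)) := ⟨c, hc, rfl⟩
    rw [AlgHom.map_adjoin_singleton] at h1
    exact h1
  obtain ⟨γ, hγ, h1⟩ := TriGood_int hJ (algebraMap M (KK k) r) (p.map (algebraMap M (KK k)))
    (hp.map _) (fun i => by rw [Polynomial.coeff_map]; exact hmap _ (hpc i))
    (by rw [Polynomial.eval_map, Polynomial.eval₂_at_apply, hpr, map_zero])
  obtain ⟨δ, hδ, h2⟩ := TriGood_int hJ (algebraMap M (KK k) s) (q.map (algebraMap M (KK k)))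
    (hq.map _) (fun i => by rw [Polynomial.coeff_map]; exact hmap _ (hqc i))
    (by rw [Polynomial.eval_map, Polynomial.eval₂_at_apply, hqs, map_zero])
  obtain ⟨b1, hb1, hb1'⟩ := h1 δ
  obtain ⟨b2, hb2, hb2'⟩ := h2 γ
  rw [mul_comm δ γ] at hb2'
  have hγδ : ev f (γ * δ) ∈ EF f := ev_mem f _
  have hγδ0 : ev f (γ * δ) ≠ 0 := ev_ne hJ (mul_ne_zero hγ hδ)
  have hEM : ∀ x ∈ EF f, x ∈ M := fun x hx => M.algebraMap_mem ⟨x, hx⟩
  -- integral elements are in `O`
  have hS : ∀ s ∈ Algebra.adjoin k ({f, g} : Set (PP k)),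
      ((ιK k : PP k →ₐ[k] KK k) : PP k →+* KK k) s ∈ O := by
    intro s hs
    induction hs using Algebra.adjoin_induction with
    | mem x hx =>
      rcases hx with rfl | hx
      · exact hE ⟨ιK k x, IntermediateField.mem_adjoin_simple_self k _⟩
      · rw [Set.mem_singleton_iff] at hx
        rw [hx]; exact hg
    | algebraMap c =>
      have h3 : ((ιK k : PP k →ₐ[k] KK k) : PP k →+* KK k) (algebraMap k (PP k) c) =
          algebraMap k (KK k) c := (ιK k : PP k →ₐ[k] KK k).commutes c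
      rw [h3]
      exact hE ⟨_, (EF f).algebraMap_mem c⟩
    | add x y _ _ hx hy => rw [map_add]; exact O.add_mem _ _ hx hy
    | mul x y _ _ hx hy => rw [map_mul]; exact O.mul_mem _ _ hx hy
  have hintO : ∀ c : PP k, IsIntegral (Algebra.adjoin k {f, g}) c → ιK k c ∈ O := fun c hc =>
    mem_of_int (Algebra.adjoin k {f, g}) ((ιK k : PP k →ₐ[k] KK k) : PP k →+* KK k) O hS c hc
  rw [ValuationSubring.mem_nonunits_iff_or] at hwn
  push Not at hwn
  have hDO : ∀ b : PP k, ιK k b ∈ M → IsIntegral (Algebra.adjoin k {f, g}) b →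
      D (ιK k b) ∈ O := by
    intro b hbM hb
    obtain ⟨N, c, hc, h3⟩ := hD b hbM hb
    have h4 : D (ιK k b) = (ιK k w)⁻¹ ^ N * ιK k c := by
      rw [← h3, ← mul_assoc, ← mul_pow, inv_mul_cancel₀ hwn.1, one_pow, one_mul]
    rw [h4]
    exact O.mul_mem _ _ (pow_mem hwn.2 N) (hintO c hc)
  have hb1M : ιK k b1 ∈ M := by
    rw [hb1']; exact mul_mem (hEM _ hγδ) r.2
  have hb2M : ιK k b2 ∈ M := by
    rw [hb2']; exact mul_mem (hEM _ hγδ) s.2
  have hsn' : (algebraMap M (KK k) s) ≠ 0 ∧ (algebraMap M (KK k) s)⁻¹ ∈ O := by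
    rw [ValuationSubring.mem_nonunits_iff_or] at hsn
    push Not at hsn
    refine ⟨fun h => hsn.1 ((algebraMap M (KK k)).injective (by rw [h, map_zero])), ?_⟩
    have := hsn.2
    rw [ValuationSubring.mem_comap, map_inv₀] at this
    exact this
  have hb20 : ιK k b2 ≠ 0 := by
    rw [hb2']; exact mul_ne_zero hγδ0 hsn'.1
  have hb2i : (ιK k b2)⁻¹ ∈ O := by
    rw [hb2', mul_inv]
    exact O.mul_mem _ _ (hE ⟨_, inv_mem hγδ⟩) hsn'.2
  have hzb : z * ιK k b2 = ιK k b1 := by
    have h3 : z * algebraMap M (KK k) s = algebraMap M (KK k) r := by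
      rw [← hzs, map_mul]; rfl
    rw [hb1', hb2', ← h3]
    ring
  have hDz : D z = (D (ιK k b1) - z * D (ιK k b2)) * (ιK k b2)⁻¹ := by
    have h3 : D (z * ιK k b2) = z * D (ιK k b2) + ιK k b2 * D z := by
      rw [Derivation.leibniz, smul_eq_mul, smul_eq_mul]
    rw [hzb] at h3
    rw [h3]
    field_simp
    ring
  rw [hDz]
  exact O.mul_mem _ _ (sub_mem (hDO b1 hb1M hb1) (O.mul_mem _ _ hz (hDO b2 hb2M hb2))) hb2i

end Pool.Agent.H928R2.Tri
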