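import Pool.Agent.H928R2.TriMainQ

set_option autoImplicit false
set_option linter.unusedSectionVars false
set_option linter.style.haveILetI false

open MvPolynomial Pool.Agent.H928R2.Inv Pool.Agent.H928R2.Pen

namespace Pool.Agent.H928R2.Tri

/-- integrality over a subring of a ring containing only integral elements -/
theorem isIntegralElem_of_subring {S B : Type*} [CommRing S] [CommRing B] (φ : S →+* B)
    {T : Type*} [CommRing T] (ψ : T →+* B) (hT : ∀ t : T, φ.IsIntegralElem (ψ t)) (x : B)
    (hx : ψ.IsIntegralElem x) : φ.IsIntegralElem x := by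
  letI : Algebra S B := φ.toAlgebra
  obtain ⟨P, hP, hPx⟩ := hx
  let θ : T →+* integralClosure S B := ψ.codRestrict (integralClosure S B) (fun t => hT t)
  have h1 : IsIntegral (integralClosure S B) x := by
    refine ⟨P.map θ, hP.map θ, ?_⟩
    rw [Polynomial.eval₂_map]
    exact hPx
  exact isIntegral_trans (R := S) (A := integralClosure S B) x h1

/-- integrality descends -/
theorem int_descent {k : Type*} [Field k] [CharZero k] (F : Fin 2 → PP k) (b : PP k)
    (hb : IsIntegral (Algebra.adjoin (AlgebraicClosure k)
      (Set.range fun i => Pool.Agent.H922R2.mE k (AlgebraicClosure k) (Fin 2) (F i)))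
      (Pool.Agent.H922R2.mE k (AlgebraicClosure k) (Fin 2) b)) :
    IsIntegral (Algebra.adjoin k (Set.range F)) b := by
  set K := AlgebraicClosure k with hK
  set e := Pool.Agent.H922R2.mE k K (Fin 2) with he
  set S := Algebra.adjoin k (Set.range F) with hS
  let φ : S →+* PP K := e.comp (algebraMap S (PP k))
  have hC : ∀ c : k, e (C c) = C (algebraMap k K c) := by
    intro c
    rw [he, Pool.Agent.H922R2.mE, map_C]
  have hT : ∀ t ∈ Algebra.adjoin K (Set.range fun i => e (F i)), φ.IsIntegralElem t := by
    intro t ht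
    induction ht using Algebra.adjoin_induction with
    | mem x hx =>
      obtain ⟨i, rfl⟩ := hx
      exact φ.isIntegralElem_map (x := ⟨F i, Algebra.subset_adjoin ⟨i, rfl⟩⟩)
    | algebraMap c =>
      obtain ⟨p, hp, hpc⟩ := (AlgebraicClosure.isAlgebraic k).isIntegral.isIntegral c
      refine ⟨p.map (algebraMap k S), hp.map _, ?_⟩
      rw [Polynomial.eval₂_map]
      have h1 : φ.comp (algebraMap k S) = (C : K →+* PP K).comp (algebraMap k K) := by
        ext1 c
        exact hC c
      rw [h1, MvPolynomial.algebraMap_eq, ← Polynomial.hom_eval₂, hpc, map_zero]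
    | add x y _ _ hx hy => exact hx.add φ hy
    | mul x y _ _ hx hy => exact hx.mul φ hy
  have h2 : φ.IsIntegralElem (e b) :=
    isIntegralElem_of_subring φ (algebraMap (Algebra.adjoin K (Set.range fun i => e (F i))) (PP K))
      (fun t => hT _ t.2) (e b) hb
  obtain ⟨p, hp, hpb⟩ := h2
  refine ⟨p, hp, ?_⟩
  apply Pool.Agent.H922R2.mE_inj (k := k) (E := K)
  rw [map_zero, ← he, Polynomial.hom_eval₂]
  exact hpb

end Pool.Agent.H928R2.Tri
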