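import Pool.Agent.H928R2.TriN

/-!
# Places of `k(φ)`
-/

set_option autoImplicit false
set_option linter.unusedSectionVars false

open MvPolynomial Pool.Agent.H928R2.Inv Pool.Agent.H928R2.Pen

namespace Pool.Agent.H928R2.Tri

theorem pole_phi {k L : Type*} [Field k] [IsAlgClosed k] [Field L] [Algebra k L] (y : L)
    (hy : ∀ c : k, y ≠ algebraMap k L c) (O : ValuationSubring L)
    (hk : ∀ c : k, algebraMap k L c ∈ O) (w : L) (hw : w ∈ IntermediateField.adjoin k {y})
    (hw0 : w ≠ 0) (hwO : w ∈ O.nonunits) :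
    ∃ φ : L, IntermediateField.adjoin k {φ} = IntermediateField.adjoin k {y} ∧ φ ∉ O := by
  by_cases hyO : y ∉ O
  · exact ⟨y, rfl, hyO⟩
  rw [not_not] at hyO
  rw [IntermediateField.mem_adjoin_simple_iff] at hw
  obtain ⟨a, b, rfl⟩ := hw
  have hb0 : Polynomial.aeval y b ≠ 0 := by
    intro h
    apply hw0
    rw [h, div_zero]
  have hmem : ∀ b : Polynomial k, Polynomial.aeval y b ∈ O := by
    intro b
    induction b using Polynomial.induction_on' with
    | add p q hp hq => rw [map_add]; exact O.add_mem _ _ hp hq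
    | monomial n c =>
      rw [Polynomial.aeval_monomial]
      exact O.mul_mem _ _ (hk c) (pow_mem hyO n)
  have hvc : ∀ c : k, c ≠ 0 → O.valuation (algebraMap k L c) = 1 := by
    intro c hc
    have hc0 : algebraMap k L c ≠ 0 := (_root_.map_ne_zero _).2 hc
    refine le_antisymm ((O.valuation_le_one_iff _).2 (hk c)) ?_
    have h1 := (O.valuation_le_one_iff _).2 (hk c⁻¹)
    rw [map_inv₀, map_inv₀] at h1
    exact (inv_le_one₀ (zero_lt_iff.2 ((O.valuation.ne_zero_iff).2 hc0))).1 h1
  have ha0 : a ≠ 0 := by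
    rintro rfl
    apply hw0
    rw [map_zero, zero_div]
  have haN : O.valuation (Polynomial.aeval y a) < 1 := by
    have h1 := (ValuationSubring.mem_nonunits_iff O).1 hwO
    have h2 : Polynomial.aeval y a =
        Polynomial.aeval y a / Polynomial.aeval y b * Polynomial.aeval y b := by
      rw [div_mul_cancel₀ _ hb0]
    rw [h2, map_mul]
    exact mul_lt_one_of_lt_of_le h1 ((O.valuation_le_one_iff _).2 (hmem b))
  obtain ⟨c, hc⟩ : ∃ c : k, y - algebraMap k L c ∈ O.nonunits := by
    by_contra hcon
    push Not at hcon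
    have h1 : ∀ s : Multiset k,
        O.valuation (Polynomial.aeval y
          (s.map (fun c => (Polynomial.X - Polynomial.C c : Polynomial k))).prod) = 1 := by
      intro s
      induction s using Multiset.induction_on with
      | empty => simp
      | cons c s ih =>
        rw [Multiset.map_cons, Multiset.prod_cons, map_mul, map_mul, ih, mul_one, map_sub,
          Polynomial.aeval_X, Polynomial.aeval_C]
        refine le_antisymm ((O.valuation_le_one_iff _).2 (sub_mem hyO (hk c)))
          (not_lt.1 fun h => hcon c ?_)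
        exact (ValuationSubring.mem_nonunits_iff O).2 h
    have h2 := (IsAlgClosed.splits a).eq_prod_roots
    have h3 : O.valuation (Polynomial.aeval y a) = 1 := by
      rw [h2, map_mul, map_mul, h1, mul_one, Polynomial.aeval_C]
      exact hvc _ (Polynomial.leadingCoeff_ne_zero.2 ha0)
    rw [h3] at haN
    exact lt_irrefl _ haN
  have hyc : y - algebraMap k L c ≠ 0 := sub_ne_zero.2 (hy c)
  refine ⟨(y - algebraMap k L c)⁻¹, le_antisymm ?_ ?_, ?_⟩
  · rw [IntermediateField.adjoin_simple_le_iff]
    exact inv_mem (sub_mem (IntermediateField.mem_adjoin_simple_self k _)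
      (IntermediateField.algebraMap_mem _ _))
  · rw [IntermediateField.adjoin_simple_le_iff]
    have h1 : y = ((y - algebraMap k L c)⁻¹)⁻¹ + algebraMap k L c := by
      rw [inv_inv, sub_add_cancel]
    have h2 : ((y - algebraMap k L c)⁻¹)⁻¹ + algebraMap k L c ∈
        IntermediateField.adjoin k {(y - algebraMap k L c)⁻¹} :=
      add_mem (inv_mem (IntermediateField.mem_adjoin_simple_self k _))
        (IntermediateField.algebraMap_mem _ _)
    rwa [← h1] at h2
  · rw [ValuationSubring.mem_nonunits_iff_or] at hc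
    exact hc.resolve_left hyc

/-- the value of a polynomial at a pole -/
theorem val_aeval {k L : Type*} [Field k] [Field L] [Algebra k L] (φ : L)
    (O : ValuationSubring L) (hk : ∀ c : k, algebraMap k L c ∈ O) (hφ : φ ∉ O)
    (a : Polynomial k) (ha : a ≠ 0) :
    O.valuation (Polynomial.aeval φ a) = O.valuation φ ^ a.natDegree := by
  have hv1 : 1 < O.valuation φ := by
    by_contra h
    exact hφ ((O.valuation_le_one_iff _).1 (not_lt.1 h))
  have hle : ∀ a : Polynomial k,
      O.valuation (Polynomial.aeval φ a) ≤ O.valuation φ ^ a.natDegree := by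
    intro a
    rw [Polynomial.aeval_eq_sum_range]
    refine Valuation.map_sum_le _ fun i hi => ?_
    rw [Algebra.smul_def, map_mul, map_pow]
    have h1 : O.valuation φ ^ i ≤ O.valuation φ ^ a.natDegree :=
      pow_le_pow_right₀ hv1.le (Nat.lt_succ_iff.1 (Finset.mem_range.1 hi))
    calc O.valuation (algebraMap k L (a.coeff i)) * O.valuation φ ^ i
        ≤ 1 * O.valuation φ ^ a.natDegree :=
          mul_le_mul' ((O.valuation_le_one_iff _).2 (hk _)) h1
      _ = _ := one_mul _
  have hvc : ∀ c : k, c ≠ 0 → O.valuation (algebraMap k L c) = 1 := by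
    intro c hc
    have hc0 : algebraMap k L c ≠ 0 := (_root_.map_ne_zero _).2 hc
    refine le_antisymm ((O.valuation_le_one_iff _).2 (hk c)) ?_
    have h1 := (O.valuation_le_one_iff _).2 (hk c⁻¹)
    rw [map_inv₀, map_inv₀] at h1
    exact (inv_le_one₀ (zero_lt_iff.2 ((O.valuation.ne_zero_iff).2 hc0))).1 h1
  have h1 : Polynomial.aeval φ a = Polynomial.aeval φ a.eraseLead +
      algebraMap k L a.leadingCoeff * φ ^ a.natDegree := by
    conv_lhs => rw [← Polynomial.eraseLead_add_C_mul_X_pow a]
    rw [map_add, map_mul, Polynomial.aeval_C, map_pow, Polynomial.aeval_X]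
  have h2 : O.valuation (algebraMap k L a.leadingCoeff * φ ^ a.natDegree) =
      O.valuation φ ^ a.natDegree := by
    rw [map_mul, map_pow, hvc _ (Polynomial.leadingCoeff_ne_zero.2 ha), one_mul]
  rcases Polynomial.eraseLead_natDegree_lt_or_eraseLead_eq_zero a with h3 | h3
  · have h4 : O.valuation (Polynomial.aeval φ a.eraseLead) <
        O.valuation (algebraMap k L a.leadingCoeff * φ ^ a.natDegree) := by
      rw [h2]
      exact lt_of_le_of_lt (hle _) (pow_lt_pow_right₀ hv1 h3)
    rw [h1, Valuation.map_add_eq_of_lt_right _ h4, h2]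
  · rw [h1, h3, map_zero, zero_add, h2]

theorem same_place {k L : Type*} [Field k] [Field L] [Algebra k L] (φ : L)
    (O O' : ValuationSubring L) (hk : ∀ c : k, algebraMap k L c ∈ O)
    (hk' : ∀ c : k, algebraMap k L c ∈ O') (hφ : φ ∉ O) (hφ' : φ ∉ O') (x : L)
    (hx : x ∈ IntermediateField.adjoin k {φ}) : x ∈ O ↔ x ∈ O' := by
  rw [IntermediateField.mem_adjoin_simple_iff] at hx
  obtain ⟨a, b, rfl⟩ := hx
  by_cases ha : a = 0
  · rw [ha, map_zero, zero_div]
    exact ⟨fun _ => O'.zero_mem, fun _ => O.zero_mem⟩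
  by_cases hb : b = 0
  · rw [hb, map_zero, div_zero]
    exact ⟨fun _ => O'.zero_mem, fun _ => O.zero_mem⟩
  have key : ∀ A : ValuationSubring L, (∀ c : k, algebraMap k L c ∈ A) → φ ∉ A →
      (Polynomial.aeval φ a / Polynomial.aeval φ b ∈ A ↔ a.natDegree ≤ b.natDegree) := by
    intro A hA hφA
    have hv1 : 1 < A.valuation φ := by
      by_contra h
      exact hφA ((A.valuation_le_one_iff _).1 (not_lt.1 h))
    have hpos : 0 < A.valuation φ ^ b.natDegree := pow_pos (lt_trans zero_lt_one hv1) _
    rw [← A.valuation_le_one_iff, map_div₀, val_aeval φ A hA hφA a ha, val_aeval φ A hA hφA b hb,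
      div_le_one₀ hpos, pow_le_pow_iff_right₀ hv1]
  rw [key O hk hφ, key O' hk' hφ']

end Pool.Agent.H928R2.Tri
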