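import Pool.Agent.H928R2.TriCon

/-!
# Valuation rings centred at a prime
-/

set_option autoImplicit false
set_option linter.unusedSectionVars false

open MvPolynomial Pool.Agent.H928R2.Inv Pool.Agent.H928R2.Pen

namespace Pool.Agent.H928R2.Tri

/-- the localization at a prime `p`, as a valuation ring -/
noncomputable def valP {k : Type*} [Field k] [CharZero k] (p : PP k) (hp : Prime p) :
    ValuationSubring (KK k) where
  carrier := {x | ∃ a b : PP k, ¬ p ∣ b ∧ x * ιK k b = ιK k a}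
  mul_mem' := by
    rintro x y ⟨a, b, hb, hx⟩ ⟨a', b', hb', hy⟩
    refine ⟨a * a', b * b', fun h => (hp.dvd_or_dvd h).elim hb hb', ?_⟩
    rw [map_mul, map_mul, ← hx, ← hy]
    ring
  one_mem' := ⟨1, 1, fun h => hp.not_isUnit (isUnit_of_dvd_one h), by rw [one_mul]⟩
  add_mem' := by
    rintro x y ⟨a, b, hb, hx⟩ ⟨a', b', hb', hy⟩
    refine ⟨a * b' + a' * b, b * b', fun h => (hp.dvd_or_dvd h).elim hb hb', ?_⟩
    rw [map_mul, map_add, map_mul, map_mul, ← hx, ← hy]
    ring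
  zero_mem' := ⟨0, 1, fun h => hp.not_isUnit (isUnit_of_dvd_one h), by rw [zero_mul, map_zero]⟩
  neg_mem' := by
    rintro x ⟨a, b, hb, hx⟩
    refine ⟨-a, b, hb, ?_⟩
    rw [map_neg, ← hx]
    ring
  mem_or_inv_mem' := by
    intro x
    obtain ⟨P, Q, hco, hQ, rfl⟩ := exists_reduced x
    by_cases h : p ∣ Q
    · right
      have hP : ¬ p ∣ P := fun h' => hp.not_isUnit (hco h' h)
      have hP0 : P ≠ 0 := by
        rintro rfl
        exact hP (dvd_zero _)
      refine ⟨Q, P, hP, ?_⟩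
      rw [inv_div, div_mul_cancel₀ _ (ι_ne hP0)]
    · left
      exact ⟨P, Q, h, div_mul_cancel₀ _ (ι_ne hQ)⟩

/-- a valuation ring centred at a prime -/
theorem exists_val {k : Type*} [Field k] [CharZero k] (p : PP k) (hp : Prime p) :
    ∃ O : ValuationSubring (KK k), (∀ b : PP k, ιK k b ∈ O) ∧
      ∀ b : PP k, ιK k b ∈ O.nonunits ↔ p ∣ b := by
  have hp1 : ¬ p ∣ 1 := fun h => hp.not_isUnit (isUnit_of_dvd_one h)
  refine ⟨valP p hp, fun b => ⟨b, 1, hp1, by rw [map_one, mul_one]⟩, fun b => ?_⟩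
  rw [ValuationSubring.mem_nonunits_iff_or]
  constructor
  · rintro (h | h)
    · have h0 : b = 0 := by
        by_contra hb
        exact ι_ne hb h
      rw [h0]
      exact dvd_zero _
    · by_contra hb
      apply h
      have hb0 : b ≠ 0 := by
        rintro rfl
        exact hb (dvd_zero _)
      exact ⟨1, b, hb, by rw [inv_mul_cancel₀ (ι_ne hb0), map_one]⟩
  · intro h
    by_cases hb0 : b = 0
    · left
      rw [hb0, map_zero]
    · right
      rintro ⟨a, d, hd, had⟩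
      apply hd
      have h1 : ιK k d = ιK k (b * a) := by
        rw [map_mul, ← had, mul_inv_cancel_left₀ (ι_ne hb0)]
      rw [iR_inj h1]
      exact h.mul_right a

/-- an element that is a unit of the valuation ring has value one -/
theorem val_one {L : Type*} [Field L] (O : ValuationSubring L) {w : L} (h0 : w ≠ 0) (h : w ∈ O)
    (hi : w⁻¹ ∈ O) : O.valuation w = 1 := by
  refine le_antisymm ((O.valuation_le_one_iff w).2 h) ?_
  have h1 := (O.valuation_le_one_iff _).2 hi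
  rw [map_inv₀] at h1
  exact (inv_le_one₀ (zero_lt_iff.2 ((O.valuation.ne_zero_iff).2 h0))).1 h1

theorem aeval_not_dvd {k : Type*} [Field k] [CharZero k] {f p : PP k} {c : k} (hp : Prime p)
    (hf : p ∣ f - C c) {a : Polynomial k} (ha : ¬ (Polynomial.X - Polynomial.C c) ∣ a) :
    ¬ p ∣ Polynomial.aeval f a := by
  intro h
  have h1 : (Polynomial.X - Polynomial.C c) ∣ a - Polynomial.C (a.eval c) :=
    Polynomial.X_sub_C_dvd_sub_C_eval
  obtain ⟨d, hd⟩ := h1
  have h2 := congrArg (Polynomial.aeval f) hd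
  rw [map_sub, map_mul, map_sub, Polynomial.aeval_X, Polynomial.aeval_C, Polynomial.aeval_C,
    MvPolynomial.algebraMap_eq] at h2
  have h3 : p ∣ C (a.eval c) := by
    have h4 : (C (a.eval c) : PP k) = Polynomial.aeval f a - (f - C c) * Polynomial.aeval f d := by
      rw [← h2]
      ring
    rw [h4]
    exact dvd_sub h (hf.mul_right _)
  by_cases h5 : a.eval c = 0
  · exact ha (Polynomial.dvd_iff_isRoot.2 h5)
  · exact hp.not_isUnit (isUnit_of_dvd_C h5 h3)

theorem no_unit_pow {k : Type*} [Field k] [CharZero k] [IsAlgClosed k] (f : PP k) (c : k)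
    (hfc : ∀ c, f ≠ C c)
    (p q s : PP k) (hp : Prime p) (hq : Prime q) (hf : f - C c = p * q * s) (hpq : ¬ p ∣ q * s)
    (hqp : ¬ q ∣ p * s) (O O' : ValuationSubring (KK k))
    (hO : ∀ b : PP k, ιK k b ∈ O) (hOp : ∀ b : PP k, ιK k b ∈ O.nonunits ↔ p ∣ b)
    (hO' : ∀ b : PP k, ιK k b ∈ O') (hOq : ∀ b : PP k, ιK k b ∈ O'.nonunits ↔ q ∣ b)
    (n : ℕ) (hn : 0 < n) (e w : KK k) (he : e ∈ EF f) (he0 : e ≠ 0) (hw0 : w ≠ 0)
    (hw : w ∈ O) (hwi : w⁻¹ ∈ O) (hw' : w ∈ O') (hwi' : w⁻¹ ∈ O')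
    (h1 : ιK k p ^ n * e * w ∈ O) (h2 : (ιK k p ^ n * e * w)⁻¹ ∈ O)
    (h3 : ιK k p ^ n * e * w ∈ O') (h4 : (ιK k p ^ n * e * w)⁻¹ ∈ O') : False := by
  have hp0 : ιK k p ≠ 0 := ι_ne hp.ne_zero
  have hz0 : ιK k p ^ n * e * w ≠ 0 := mul_ne_zero (mul_ne_zero (pow_ne_zero _ hp0) he0) hw0
  -- values
  have vU : ∀ b : PP k, ¬ p ∣ b → O.valuation (ιK k b) = 1 := by
    intro b hb
    refine le_antisymm ((O.valuation_le_one_iff _).2 (hO b)) (not_lt.1 fun h => hb ?_)
    exact (hOp b).1 ((ValuationSubring.mem_nonunits_iff O).2 h)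
  have vU' : ∀ b : PP k, ¬ q ∣ b → O'.valuation (ιK k b) = 1 := by
    intro b hb
    refine le_antisymm ((O'.valuation_le_one_iff _).2 (hO' b)) (not_lt.1 fun h => hb ?_)
    exact (hOq b).1 ((ValuationSubring.mem_nonunits_iff O').2 h)
  have vN : ∀ b : PP k, p ∣ b → O.valuation (ιK k b) < 1 := fun b hb =>
    (ValuationSubring.mem_nonunits_iff O).1 ((hOp b).2 hb)
  have vN' : ∀ b : PP k, q ∣ b → O'.valuation (ιK k b) < 1 := fun b hb =>
    (ValuationSubring.mem_nonunits_iff O').1 ((hOq b).2 hb)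
  have vz := val_one O hz0 h1 h2
  have vz' := val_one O' hz0 h3 h4
  have vw := val_one O hw0 hw hwi
  have vw' := val_one O' hw0 hw' hwi'
  rw [map_mul, map_mul, map_pow, vw, mul_one] at vz
  rw [map_mul, map_mul, map_pow, vw', mul_one, vU' p (fun h => hqp (h.mul_right s)), one_pow,
    one_mul] at vz'
  -- representation of `e`
  obtain ⟨a, b, hb, hab⟩ := adj_frac f hfc e he
  have ha : a ≠ 0 := by
    rintro rfl
    rw [map_zero, map_zero] at hab
    exact mul_ne_zero he0 (ι_ne (aeval_ne hfc hb)) hab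
  obtain ⟨a1, ha1, ha2⟩ := Polynomial.exists_eq_pow_rootMultiplicity_mul_and_not_dvd a ha c
  obtain ⟨b1, hb1, hb2⟩ := Polynomial.exists_eq_pow_rootMultiplicity_mul_and_not_dvd b hb c
  generalize a.rootMultiplicity c = m1 at ha1
  generalize b.rootMultiplicity c = m2 at hb1
  have hpf : p ∣ f - C c := ⟨q * s, by rw [hf]; ring⟩
  have hqf : q ∣ f - C c := ⟨p * s, by rw [hf]; ring⟩
  have e1 : ∀ (m : ℕ) (d : Polynomial k), ιK k (Polynomial.aeval f
      ((Polynomial.X - Polynomial.C c) ^ m * d)) =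
      ιK k (f - C c) ^ m * ιK k (Polynomial.aeval f d) := by
    intro m d
    rw [map_mul, map_pow, map_sub, Polynomial.aeval_X, Polynomial.aeval_C,
      MvPolynomial.algebraMap_eq, map_mul, map_pow]
  rw [ha1, hb1, e1, e1] at hab
  have v1 := congrArg O.valuation hab
  have v2 := congrArg O'.valuation hab
  rw [map_mul, map_mul, map_mul, map_pow, map_pow, vU _ (aeval_not_dvd hp hpf ha2),
    vU _ (aeval_not_dvd hp hpf hb2), mul_one, mul_one] at v1
  rw [map_mul, map_mul, map_mul, map_pow, map_pow, vU' _ (aeval_not_dvd hq hqf ha2),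
    vU' _ (aeval_not_dvd hq hqf hb2), mul_one, mul_one, vz', one_mul] at v2
  have hu0 : ιK k (f - C c) ≠ 0 := ι_ne (sub_ne_zero.2 (hfc c))
  have hinj : m2 = m1 := by
    have hlt := vN' _ hqf
    have hpos : 0 < O'.valuation (ιK k (f - C c)) := zero_lt_iff.2 ((O'.valuation.ne_zero_iff).2 hu0)
    rcases lt_trichotomy m2 m1 with h | h | h
    · exact absurd v2 (pow_lt_pow_right_of_lt_one₀ hpos hlt h).ne'
    · exact h
    · exact absurd v2 (pow_lt_pow_right_of_lt_one₀ hpos hlt h).ne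
  rw [hinj] at v1
  have hne : O.valuation (ιK k (f - C c)) ^ m1 ≠ 0 := pow_ne_zero _ ((O.valuation.ne_zero_iff).2 hu0)
  have v3 : O.valuation e = 1 := mul_right_cancel₀ hne (by rw [v1, one_mul])
  rw [v3, mul_one] at vz
  exact (pow_lt_one₀ zero_le (vN p dvd_rfl) hn.ne').ne vz

end Pool.Agent.H928R2.Tri
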