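import Pool.Agent.H928R2.TriN
import Pool.Agent.H928R2.TriVal
import Pool.Agent.H928R2.TriPole

/-!
# The constant with a pole is a polynomial
-/

set_option autoImplicit false
set_option linter.unusedSectionVars false

open MvPolynomial Pool.Agent.H928R2.Inv Pool.Agent.H928R2.Pen

namespace Pool.Agent.H928R2.Tri

section
variable {k : Type*} [Field k] [CharZero k]

/-- the derivation `DN` cleared of its denominator -/
noncomputable def Dt (f g : PP k) (P : Polynomial k) (n : ℕ) : Derivation k (PP k) (PP k) :=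
  ((n : PP k) * Polynomial.aeval f P) • dd (-pderiv 0 g) (-pderiv 1 g) +
    (Polynomial.aeval f (Polynomial.derivative P) * g) • dd (pderiv 0 f) (pderiv 1 f)

theorem Dt_apply (f g : PP k) (P : Polynomial k) (n : ℕ) (h : PP k) : Dt f g P n h =
    n * Polynomial.aeval f P * br h g +
      Polynomial.aeval f (Polynomial.derivative P) * g * br f h := by
  have h1 : dd (-pderiv 0 g) (-pderiv 1 g) h = br h g := by
    rw [dd_apply]
    unfold br
    ring
  show (n : PP k) * Polynomial.aeval f P * dd (-pderiv 0 g) (-pderiv 1 g) h +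
    Polynomial.aeval f (Polynomial.derivative P) * g * dd (pderiv 0 f) (pderiv 1 f) h = _
  rw [h1, dd_br]

theorem DN_Dt {f g : PP k} (hJ : br f g = 1) {P : Polynomial k} (hP : P ≠ 0) (n : ℕ) (h : PP k) :
    DN f g P n (ιK k h) * ev f P = ιK k (Dt f g P n h) := by
  have hP0 : ev f P ≠ 0 := ev_ne hJ hP
  rw [DN_apply, D1_ι, D2_ι, Dt_apply, map_add, map_mul, map_mul, map_mul, map_mul, map_natCast,
    ← ev_apply, ← ev_apply]
  field_simp

theorem br_dvd (p s t : PP k) : p ∣ br (p * s) (p * t) := by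
  refine ⟨p * (pderiv 0 s * pderiv 1 t - pderiv 1 s * pderiv 0 t) +
    t * (pderiv 0 s * pderiv 1 p - pderiv 1 s * pderiv 0 p) +
    s * (pderiv 0 p * pderiv 1 t - pderiv 1 p * pderiv 0 t), ?_⟩
  unfold br
  rw [Derivation.leibniz, Derivation.leibniz, Derivation.leibniz, Derivation.leibniz]
  simp only [smul_eq_mul]
  ring

theorem dvd_fib [IsAlgClosed k] {f p : PP k} (hp : Prime p) {γ : Polynomial k} (hγ : γ ≠ 0)
    (h : p ∣ Polynomial.aeval f γ) : ∃ c : k, p ∣ f - C c := by
  have h1 := (IsAlgClosed.splits γ).eq_prod_roots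
  rw [h1, map_mul, Polynomial.aeval_C] at h
  rcases hp.dvd_or_dvd h with h2 | h2
  · exact absurd (isUnit_of_dvd_C (Polynomial.leadingCoeff_ne_zero.2 hγ) h2) hp.not_isUnit
  · rw [map_multiset_prod, Multiset.map_map] at h2
    obtain ⟨c, _, hc⟩ := hp.exists_mem_multiset_map_dvd h2
    refine ⟨c, ?_⟩
    rw [Function.comp_apply, map_sub, Polynomial.aeval_X, Polynomial.aeval_C] at hc
    exact hc

end

theorem phi_poly {k : Type*} [Field k] [CharZero k] [IsAlgClosed k] (f g : PP k)
    (hJ : br f g = 1) (P : Polynomial k) (hP : P ≠ 0) (n : ℕ) (hn : 0 < n) (φ : KK k)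
    (hφD : DN f g P n φ = 0) (O : ValuationSubring (KK k))
    (hkO : ∀ c : k, algebraMap k (KK k) c ∈ O) (hφO : φ ∉ O) (hjO : jn f g P n ∈ O)
    (hjφ : jn f g P n ∈ IntermediateField.adjoin k {φ}) (ρ : KK k) (hρR : ρ ∈ RE f)
    (hρφ : ρ ∈ IntermediateField.adjoin k {φ}) (hρO : ρ ∉ O) : ∃ h : PP k, φ = ιK k h := by
  obtain ⟨a, b, hco, hb, hφ⟩ := exists_reduced φ
  by_cases hbu : IsUnit b
  · obtain ⟨c, hc⟩ := hbu.exists_right_inv
    refine ⟨a * c, ?_⟩
    have h1 : ιK k b * ιK k c = 1 := by rw [← map_mul, hc, map_one]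
    rw [hφ, map_mul, div_eq_iff (ι_ne hb)]
    linear_combination (-ιK k a) * h1
  exfalso
  obtain ⟨p, hpi, hpb⟩ := WfDvdMonoid.exists_irreducible_factor hbu hb
  have hp : Prime p := UniqueFactorizationMonoid.irreducible_iff_prime.1 hpi
  have hpa : ¬ p ∣ a := fun h => hp.not_isUnit (hco h hpb)
  obtain ⟨Op, hOp, hOpn⟩ := exists_val p hp
  have hinv : ∀ c : PP k, ¬ p ∣ c → (ιK k c)⁻¹ ∈ Op := by
    intro c hc
    by_contra h
    exact hc ((hOpn c).1 ((ValuationSubring.mem_nonunits_iff_or Op).2 (Or.inr h)))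
  have hmn : ∀ x y : KK k, x ∈ Op → y ∈ Op.nonunits → x * y ∈ Op.nonunits := by
    intro x y hx hy
    rw [ValuationSubring.mem_nonunits_iff] at hy ⊢
    rw [mul_comm, map_mul]
    exact mul_lt_one_of_lt_of_le hy ((Op.valuation_le_one_iff _).2 hx)
  have hφOp : φ ∉ Op := by
    intro h
    apply hpa
    rw [← hOpn]
    have h1 : ιK k a = φ * ιK k b := by rw [hφ, div_mul_cancel₀ _ (ι_ne hb)]
    rw [h1]
    exact hmn _ _ h ((hOpn b).2 hpb)
  have hkOp : ∀ c : k, algebraMap k (KK k) c ∈ Op := fun c => by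
    have h1 : ιK k (C c) = algebraMap k (KK k) c := (ιK k).commutes c
    rw [← h1]
    exact hOp _
  have same := same_place φ Op O hkOp hkO hφOp hφO
  by_cases hex : ∃ γ : Polynomial k, γ ≠ 0 ∧ p ∣ Polynomial.aeval f γ
  · obtain ⟨γ, hγ, hpγ⟩ := hex
    obtain ⟨c, s, hs⟩ := dvd_fib hp hγ hpγ
    have hpc : p ∣ f - C c := ⟨s, hs⟩
    by_cases hPc : (Polynomial.X - Polynomial.C c) ∣ P
    · -- `p` divides `P(f)`
      obtain ⟨P', hP'⟩ := hPc
      have hpP : p ∣ Polynomial.aeval f P := by
        rw [hP', map_mul, map_sub, Polynomial.aeval_X, Polynomial.aeval_C]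
        exact hpc.mul_right _
      have hpg : ¬ p ∣ g := by
        rintro ⟨t, ht⟩
        have h1 : br (f - C c) g = 1 := by
          rw [← hJ]
          unfold br
          rw [map_sub, map_sub, pderiv_C, pderiv_C]
          ring
        rw [hs, ht] at h1
        exact hp.not_isUnit (isUnit_of_dvd_one (h1 ▸ br_dvd p s t))
      have h2 : jn f g P n ∈ Op := (same _ hjφ).2 hjO
      have h3 : ιK k (g ^ n) = jn f g P n * ιK k (Polynomial.aeval f P) := by
        rw [map_pow]
        unfold jn
        rw [← ev_apply, div_mul_cancel₀ _ (ev_ne hJ hP)]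
      have h4 : p ∣ g ^ n := by
        rw [← hOpn, h3]
        exact hmn _ _ h2 ((hOpn _).2 hpP)
      exact hpg (hp.dvd_of_dvd_pow h4)
    · have hpP : ¬ p ∣ Polynomial.aeval f P := aeval_not_dvd hp hpc hPc
      have hDab : a * Dt f g P n b = b * Dt f g P n a := by
        have h1 : φ * ιK k b = ιK k a := by rw [hφ, div_mul_cancel₀ _ (ι_ne hb)]
        have h2 := congrArg (DN f g P n) h1
        rw [Derivation.leibniz, hφD, smul_zero, add_zero, smul_eq_mul] at h2
        apply iR_inj (k := k) (σ := Fin 2)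
        show ιK k _ = ιK k _
        rw [map_mul, map_mul, ← DN_Dt hJ hP, ← DN_Dt hJ hP, ← h2, ← h1]
        ring
      have hbD : b ∣ Dt f g P n b := by
        have h1 : b ∣ a * Dt f g P n b := by
          rw [hDab]
          exact dvd_mul_right b _
        exact hco.symm.dvd_of_dvd_mul_left h1
      have hpD : p ∣ Dt f g P n p := by
        obtain ⟨m, b', hb', hbm⟩ := WfDvdMonoid.max_power_factor hb hpi
        obtain ⟨m', rfl⟩ : ∃ m', m = m' + 1 := by
          cases m with
          | zero =>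
            rw [pow_zero, one_mul] at hbm
            rw [hbm] at hpb
            exact absurd hpb hb'
          | succ m' => exact ⟨m', rfl⟩
        have h1 : Dt f g P n b = p ^ (m' + 1) * Dt f g P n b' +
            b' * (((m' + 1 : ℕ) : PP k) * p ^ m' * Dt f g P n p) := by
          rw [hbm, Derivation.leibniz, Derivation.leibniz_pow]
          simp only [smul_eq_mul, nsmul_eq_mul, Nat.add_sub_cancel]
          ring
        have h2 : p ^ (m' + 1) ∣ b' * (((m' + 1 : ℕ) : PP k) * p ^ m' * Dt f g P n p) := by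
          have h3 : p ^ (m' + 1) ∣ Dt f g P n b := by
            refine dvd_trans ?_ hbD
            rw [hbm]
            exact dvd_mul_right _ _
          rw [h1] at h3
          exact (dvd_add_right (dvd_mul_right _ _)).1 h3
        have h4 : p ^ m' * p ∣ p ^ m' * (b' * (((m' + 1 : ℕ) : PP k) * Dt f g P n p)) := by
          have h5 : p ^ m' * (b' * (((m' + 1 : ℕ) : PP k) * Dt f g P n p)) =
              b' * (((m' + 1 : ℕ) : PP k) * p ^ m' * Dt f g P n p) := by ring
          rw [h5, ← pow_succ]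
          exact h2
        have h6 := (mul_dvd_mul_iff_left (pow_ne_zero m' hp.ne_zero)).1 h4
        rcases hp.dvd_or_dvd h6 with h7 | h7
        · exact absurd h7 hb'
        · rcases hp.dvd_or_dvd h7 with h8 | h8
          · exfalso
            have h9 : ((m' + 1 : ℕ) : PP k) = C (((m' + 1 : ℕ) : k)) := (map_natCast C _).symm
            rw [h9] at h8
            exact hp.not_isUnit (isUnit_of_dvd_C (Nat.cast_ne_zero.2 (Nat.succ_ne_zero m')) h8)
          · exact h8
      have h10 : p ∣ Dt f g P n (f - C c) := by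
        rw [hs, Derivation.leibniz, smul_eq_mul, smul_eq_mul]
        exact dvd_add (dvd_mul_right _ _) (hpD.mul_left _)
      rw [Dt_apply] at h10
      have h11 : br (f - C c) g = 1 := by
        rw [← hJ]
        unfold br
        rw [map_sub, map_sub, pderiv_C, pderiv_C]
        ring
      have h12 : br f (f - C c) = 0 := by
        unfold br
        rw [map_sub, map_sub, pderiv_C, pderiv_C]
        ring
      rw [h11, h12, mul_zero, add_zero, mul_one] at h10
      rcases hp.dvd_or_dvd h10 with h13 | h13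
      · have h9 : ((n : ℕ) : PP k) = C ((n : k)) := (map_natCast C _).symm
        rw [h9] at h13
        exact hp.not_isUnit (isUnit_of_dvd_C (Nat.cast_ne_zero.2 (by omega)) h13)
      · exact hpP h13
  · push Not at hex
    obtain ⟨F, γ, hγ, hF⟩ := RE_surj f (nonconst_of hJ) ρ hρR
    have h1 : ρ = ιK k F * (ιK k (Polynomial.aeval f γ))⁻¹ := by
      rw [← hF, mul_inv_cancel_right₀]
      exact ev_ne hJ hγ
    have h2 : ρ ∈ Op := by
      rw [h1]
      exact mul_mem (hOp F) (hinv _ (hex γ hγ))
    exact hρO ((same _ hρφ).1 h2)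

end Pool.Agent.H928R2.Tri
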