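import Pool.Agent.H928R2.TriRhoEx
import Pool.Agent.H928R2.TriCore
import Pool.Agent.H928R2.TriPole
import Pool.Agent.H928R2.TriPoly
import Pool.Agent.H928R2.TriFinal

/-!
# Jacobian pairs: finite values at infinity on a weighted homogeneous curve
-/

set_option autoImplicit false
set_option linter.unusedSectionVars false

open MvPolynomial Pool.Agent.H928R2.Inv Pool.Agent.H928R2.Pen

namespace Pool.Agent.H928R2.Tri

section
variable {k : Type*} [Field k] [CharZero k] [IsAlgClosed k] {f g : PP k} {P : Polynomial k} {n : ℕ}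

theorem jn_trans (hJ : br f g = 1) (hP : P ≠ 0) (hn : 0 < n) : Transcendental (EF f) (jn f g P n) := by
  intro h
  apply transc_g hJ
  have hP0 : ev f P ≠ 0 := ev_ne hJ hP
  have h1 : ιK k g ^ n = jn f g P n * algebraMap (EF f) (KK k) ⟨ev f P, ev_mem f P⟩ := by
    show ιK k g ^ n = ιK k g ^ n / ev f P * ev f P
    rw [div_mul_cancel₀ _ hP0]
  have h2 : IsAlgebraic (EF f) (ιK k g ^ n) := by
    rw [h1]
    exact h.mul (isAlgebraic_algebraMap _)
  exact IsAlgebraic.of_pow hn h2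

theorem jn_pole (hJ : br f g = 1) (hP : P ≠ 0) (hn : 0 < n)
    (O' : ValuationSubring (KK k)) (hE : ∀ a : EF f, algebraMap (EF f) (KK k) a ∈ O') :
    jn f g P n ∉ O' ↔ ιK k g ∉ O' := by
  have hP0 : ev f P ≠ 0 := ev_ne hJ hP
  rw [not_iff_not]
  constructor
  · intro h
    have h1 : ιK k g ^ n ∈ O' := by
      have h2 : ιK k g ^ n = jn f g P n * ev f P := by
        unfold jn
        rw [div_mul_cancel₀ _ hP0]
      rw [h2]
      exact mul_mem h (hE ⟨_, ev_mem f P⟩)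
    rcases O'.mem_or_inv_mem (ιK k g) with h3 | h3
    · exact h3
    · by_cases hG0 : ιK k g = 0
      · rw [hG0]; exact O'.zero_mem
      obtain ⟨m, rfl⟩ : ∃ m, n = m + 1 := ⟨n - 1, by omega⟩
      have h4 : ιK k g = ιK k g ^ (m + 1) * (ιK k g)⁻¹ ^ m := by
        rw [pow_succ, inv_pow]
        field_simp
      rw [h4]
      exact mul_mem h1 (pow_mem h3 m)
  · intro h
    unfold jn
    rw [div_eq_mul_inv]
    exact mul_mem (pow_mem h n) (hE ⟨_, inv_mem (ev_mem f P)⟩)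

theorem DN_log (hJ : br f g = 1) (hP : P ≠ 0) (hn : 0 < n) (O' : ValuationSubring (KK k))
    (hO' : O' ∈ SR (RE f)) (h : ιK k g ∉ O' ∨
      ∃ c : k, jn f g P n - algebraMap k (KK k) c ∈ O'.nonunits) :
    LogAt O' (toZ (DN f g P n)) := by
  have hDf : DN f g P n (ιK k f) ∈ EF f := DN_EF hJ _ (IntermediateField.mem_adjoin_simple_self k _)
  have hc : ev f (Polynomial.derivative P) / ev f P ∈ O' :=
    hO'.1 ⟨_, div_mem (ev_mem f _) (ev_mem f _)⟩
  rcases h with h | ⟨c, h⟩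
  · have hG0 : ιK k g ≠ 0 := fun h1 => h (by rw [h1]; exact O'.zero_mem)
    refine log_SR f g hJ _ hDf O' hO' (ιK k g)⁻¹ (-(ev f (Polynomial.derivative P) / ev f P))
      (inv_ne_zero hG0) ?_ (neg_mem hc) ?_
    · rw [ValuationSubring.mem_nonunits_iff_or]
      right
      rw [inv_inv]
      exact h
    · rw [Derivation.leibniz_inv, DN_g hJ, smul_eq_mul]
      field_simp
  · refine log_SR f g hJ _ hDf O' hO' _ 0 ?_ h O'.zero_mem ?_
    · intro h1
      apply jn_trans hJ hP hn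
      rw [sub_eq_zero.1 h1, IsScalarTower.algebraMap_apply k (EF f) (KK k)]
      exact isAlgebraic_algebraMap _
    · rw [map_sub, DN_jn hJ hP hn, Derivation.map_algebraMap, sub_zero, zero_mul]

/-- no place at infinity of the generic fibre of `f` has a finite value of `g` -/
theorem all_poles (f g : PP k) (hJ : br f g = 1) (P : Polynomial k) (hP : P ≠ 0) (n : ℕ)
    (hn : 0 < n) (h : ∀ O ∈ SR (RE f), ιK k g ∉ O ∨
      ∃ c : k, jn f g P n - algebraMap k (KK k) c ∈ O.nonunits) :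
    ∀ O ∈ SR (RE f), ιK k g ∉ O := by
  intro O1 hO1 hg1
  obtain ⟨c, hc⟩ := (h O1 hO1).resolve_left (fun h => h hg1)
  obtain ⟨O, hO, hgO⟩ := exists_pole hJ
  obtain ⟨t, ht⟩ := exists_t hJ
  have hkE : ∀ (O' : ValuationSubring (KK k)), (∀ a : EF f, algebraMap (EF f) (KK k) a ∈ O') →
      ∀ c : k, algebraMap k (KK k) c ∈ O' := fun O' h c =>
    h ⟨_, IntermediateField.algebraMap_mem _ c⟩
  have hDE : ∀ a : EF f, ∃ b : EF f, toZ (DN f g P n) (algebraMap (EF f) (KK k) a) =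
      algebraMap (EF f) (KK k) b := fun a => ⟨⟨_, DN_EF hJ _ a.2⟩, rfl⟩
  have hjO : jn f g P n ∉ O := (jn_pole hJ hP hn O hO.1).2 hgO
  have hjO1 : jn f g P n ∈ O1 := by
    by_contra h1
    exact (jn_pole hJ hP hn O1 hO1.1).1 h1 hg1
  obtain ⟨ρ, hρR, hρD, hρO⟩ := rho_ex (algCl_f hJ) (ιK k g) (transc_g hJ)
    (hfin_f hJ _ (transc_g hJ)) (toZ (DN f g P n)) hDE
    ⟨ev f (Polynomial.derivative P) / ev f P, div_mem (ev_mem f _) (ev_mem f _)⟩ (DN_g hJ)
    (RE f) (RE_int f (nonconst_of hJ)) (fun x hx => DN_RE hJ x hx) t ht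
    (fun N => Pen.P1.VN_finite (algCl_f hJ) (RE f) (SR_fin hJ) t ht
      (fun O' hO' => SR_resfin hJ hO') N)
    (fun x hx => exists_VN (RE f) (SR_fin hJ) t ht x hx)
    (fun O' hO' => DN_log hJ hP hn O' hO' (h O' hO')) (jn f g P n) (DN_jn hJ hP hn) O hO.1 hgO
    hjO O1 hO1
  have hjc : ∀ c : k, jn f g P n ≠ algebraMap k (KK k) c := by
    intro c hc
    exact hjO (by rw [hc]; exact hkE O hO.1 c)
  obtain ⟨y, hy, hyc⟩ := exists_phi (DN f g P n) (DN_ne hJ hn) (jn f g P n) hjc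
    (DN_jn hJ hP hn)
  have hwD : DN f g P n (jn f g P n - algebraMap k (KK k) c) = 0 := by
    rw [map_sub, DN_jn hJ hP hn, Derivation.map_algebraMap, sub_zero]
  have hw0 : jn f g P n - algebraMap k (KK k) c ≠ 0 := fun h1 => hjc c (sub_eq_zero.1 h1)
  obtain ⟨φ, hφy, hφO⟩ := pole_phi y hyc O1 (hkE O1 hO1.1) _ ((hy _).1 hwD) hw0 hc
  have hker : ∀ z : KK k, DN f g P n z = 0 → z ∈ IntermediateField.adjoin k {φ} := by
    intro z hz
    rw [hφy]
    exact (hy z).1 hz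
  have hφD : DN f g P n φ = 0 := by
    rw [hy, ← hφy]
    exact IntermediateField.mem_adjoin_simple_self _ _
  obtain ⟨q, hq⟩ := phi_poly f g hJ P hP n hn φ hφD O1 (hkE O1 hO1.1) hφO hjO1
    (hker _ (DN_jn hJ hP hn)) ρ hρR (hker ρ hρD) hρO
  subst hq
  exact final_contra f g hJ P hP n hn q hφD O1 (hkE O1 hO1.1) hφO hjO1
    (hker _ (DN_jn hJ hP hn))

/-- the generic fibre of `f` is rational -/
theorem gen_of_curve (f g : PP k) (hJ : br f g = 1) (P : Polynomial k) (hP : P ≠ 0) (n : ℕ)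
    (hn : 0 < n) (h : ∀ O ∈ SR (RE f), ιK k g ∉ O ∨
      ∃ c : k, jn f g P n - algebraMap k (KK k) c ∈ O.nonunits) :
    ∃ T : KK k, IntermediateField.adjoin k {ιK k f, T} = ⊤ :=
  gen_of_equal f g hJ 0 fun O hO => Or.inl (all_poles f g hJ P hP n hn h O hO)

end

end Pool.Agent.H928R2.Tri
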