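import Pool.Agent.H928R2.TriMin
import Pool.Agent.H928R2.TriQ
import Pool.Agent.H928R2.TriQuad
import Pool.Agent.H928R2.TriInt

/-!
# Jacobian pairs: invariance under a linear vector field
-/

set_option autoImplicit false
set_option linter.unusedSectionVars false

open MvPolynomial Pool.Agent.H928R2.Inv Pool.Agent.H928R2.Pen

namespace Pool.Agent.H928R2.Tri

section
variable {k : Type*} [Field k] [CharZero k]

/-- the derivation with `f ↦ 1`, `g ↦ η g + θ` -/
noncomputable def DL (f g : PP k) (η θ : EF f) : Derivation k (KK k) (KK k) :=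
  D1 g + ((η : KK k) * ιK k g + (θ : KK k)) • D2 f

variable {f g : PP k} {η θ : EF f}

theorem DL_apply (x : KK k) : DL f g η θ x =
    D1 g x + ((η : KK k) * ιK k g + (θ : KK k)) * D2 f x := rfl

theorem DL_f (hJ : br f g = 1) : DL f g η θ (ιK k f) = 1 := by
  rw [DL_apply, D1_f hJ, D2_f]
  ring

theorem DL_g (hJ : br f g = 1) : DL f g η θ (ιK k g) = (η : KK k) * ιK k g + (θ : KK k) := by
  rw [DL_apply, D1_g, D2_g hJ]
  ring

theorem DL_EF (hJ : br f g = 1) (x : KK k) (hx : x ∈ EF f) : DL f g η θ x ∈ EF f := by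
  apply der_EF _ f _ x hx
  rw [DL_f hJ]
  exact one_mem _

theorem DL_ev [IsAlgClosed k] (hJ : br f g = 1) (γ : Polynomial k) :
    DL f g η θ (ev f γ) = ev f (Polynomial.derivative γ) := by
  rw [DL_apply, D1_ev hJ, (D2_ker hJ _).2 (ev_mem f γ)]
  ring

theorem DL_const [IsAlgClosed k] (hJ : br f g = 1) (x : KK k) (hx : x ∈ EF f)
    (h : DL f g η θ x = 0) : ∃ c : k, x = algebraMap k (KK k) c := by
  have h2 : D2 f x = 0 := (D2_ker hJ x).2 hx
  refine D1_const hJ x ?_ h2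
  rwa [DL_apply, h2, mul_zero, add_zero] at h

theorem br_shift (hJ : br f g = 1) (h : Polynomial k) : br f (g - Polynomial.aeval f h) = 1 := by
  have h5 : br f (Polynomial.aeval f h) = 0 := by
    rw [← dd_br]
    exact dd_aeval (by rw [dd_apply]; ring) h
  rw [← dd_br, map_sub, dd_br, dd_br, hJ, h5, sub_zero]

end

section
variable {k : Type*} [Field k] [CharZero k] [IsAlgClosed k]

/-- the minimal polynomial of the value of `g` at a place has coefficients in `k[f]` -/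
theorem exists_min_int (f g : PP k) (hJ : br f g = 1) (O : ValuationSubring (KK k))
    (hO : O ∈ SR (RE f)) (hg : ιK k g ∈ O) :
    ∃ μ : Polynomial (EF f), μ.Monic ∧ 0 < μ.natDegree ∧
      Polynomial.aeval (ιK k g) μ ∈ O.nonunits ∧
      (∀ ν : Polynomial (EF f), Polynomial.aeval (ιK k g) ν ∈ O.nonunits → μ ∣ ν) ∧
      ∀ i, ∃ γ : Polynomial k, μ.coeff i = quadE f γ := by
  obtain ⟨μ, h1, h2, h3, h4⟩ := exists_min O hO.1 (ιK k g) hg (SR_resalg hJ hO _ hg)
  obtain ⟨m, hm, hmg⟩ := integral_res f g hJ O hO hg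
  have h5 : Polynomial.aeval (ιK k g) (m.map (quadE f)) = m.eval₂ (ev f) (ιK k g) := by
    rw [Polynomial.aeval_def, Polynomial.eval₂_map]
    rfl
  obtain ⟨q, hq⟩ := quad_dvd hJ μ h1 m hm (h4 _ (by rw [h5]; exact hmg))
  refine ⟨μ, h1, h2, h3, h4, fun i => ⟨q.coeff i, ?_⟩⟩
  rw [hq, Polynomial.coeff_map]

/-- the action of `DL` on the minimal polynomial of a value -/
theorem min_lin (f g g1 : PP k) (hJ : br f g = 1) (η θ θ1 : EF f) (O : ValuationSubring (KK k))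
    (hO : O ∈ SR (RE f)) (hlog : LogAt O (toZ (DL f g η θ)))
    (hg1 : DL f g η θ (ιK k g1) = (η : KK k) * ιK k g1 + (θ1 : KK k))
    (μ : Polynomial (EF f)) (hμ : μ.Monic) (hμz : Polynomial.aeval (ιK k g1) μ ∈ O.nonunits)
    (hmin : ∀ ν : Polynomial (EF f), Polynomial.aeval (ιK k g1) ν ∈ O.nonunits → μ ∣ ν) (i : ℕ)
    (γ : Polynomial k) (hγ : μ.coeff i = quadE f γ) :
    ev f (Polynomial.derivative γ) = (μ.natDegree - i) * (η : KK k) * ev f γ -
      (i + 1) * (θ1 : KK k) * (μ.coeff (i + 1) : KK k) := by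
  have hδ : ∃ δ : EF f → EF f, ∀ a : EF f, toZ (DL f g η θ) (algebraMap (EF f) (KK k) a) =
      algebraMap (EF f) (KK k) (δ a) :=
    ⟨fun a => ⟨DL f g η θ a, DL_EF hJ _ a.2⟩, fun a => rfl⟩
  obtain ⟨δ, hδ⟩ := hδ
  have e1 := min_der O (toZ (DL f g η θ)) hlog δ hδ (ιK k g1) η θ1 hg1 hO.1 μ hμ hμz hmin i
  have e2 := hδ (μ.coeff i)
  rw [e1, hγ, toZ_apply] at e2
  have e3 : algebraMap (EF f) (KK k) (quadE f γ) = ev f γ := rfl
  rw [e3, DL_ev hJ] at e2
  rw [e2, map_sub, map_mul, map_mul, map_mul, map_mul, map_sub, map_add, map_natCast, map_natCast,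
    map_one, e3]
  rfl

/-- an invariant section -/
theorem exists_section (f g : PP k) (hJ : br f g = 1) (η θ : EF f) (O : ValuationSubring (KK k))
    (hO : O ∈ SR (RE f)) (hg : ιK k g ∈ O) (hlog : LogAt O (toZ (DL f g η θ))) :
    ∃ h : Polynomial k, ev f (Polynomial.derivative h) = (η : KK k) * ev f h + (θ : KK k) := by
  obtain ⟨μ, m1, m2, m3, m4, m5⟩ := exists_min_int f g hJ O hO hg
  obtain ⟨d, hd⟩ : ∃ d, μ.natDegree = d + 1 := ⟨μ.natDegree - 1, by omega⟩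
  obtain ⟨γ, hγ⟩ := m5 d
  have e2 := min_lin f g g hJ η θ θ O hO hlog (DL_g hJ) μ m1 m3 m4 d γ hγ
  rw [← hd, m1.coeff_natDegree, hd] at e2
  have hd0 : ((d + 1 : ℕ) : k) ≠ 0 := Nat.cast_ne_zero.2 (Nat.succ_ne_zero d)
  refine ⟨Polynomial.C (-((d + 1 : ℕ) : k)⁻¹) * γ, ?_⟩
  have hevC : ∀ c : k, ev f (Polynomial.C c) = algebraMap k (KK k) c := fun c => by
    rw [ev_eq, Polynomial.aeval_C]
  have e5 : algebraMap k (KK k) (-((d + 1 : ℕ) : k)⁻¹) * ((d + 1 : ℕ) : KK k) = -1 := by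
    rw [← map_natCast (algebraMap k (KK k)), ← map_mul, neg_mul, inv_mul_cancel₀ hd0, map_neg,
      map_one]
  have e6 : ((1 : EF f) : KK k) = 1 := rfl
  rw [Polynomial.derivative_C_mul, map_mul, map_mul, e2, hevC, e6]
  push_cast at e5 ⊢
  linear_combination (-(θ : KK k)) * e5

/-- an invariant pencil -/
theorem exists_pencil (f g g' : PP k) (hJ : br f g = 1) (hJ' : br f g' = 1) (η θ : EF f)
    (O : ValuationSubring (KK k)) (hO : O ∈ SR (RE f)) (hg : ιK k g' ∈ O)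
    (hgn : ιK k g' ∉ O.nonunits) (hlog : LogAt O (toZ (DL f g η θ)))
    (hg' : DL f g η θ (ιK k g') = (η : KK k) * ιK k g') :
    ∃ (m : ℕ) (P : Polynomial k), P ≠ 0 ∧
      ev f (Polynomial.derivative P) = ((m + 1 : ℕ) : KK k) * (η : KK k) * ev f P := by
  obtain ⟨μ', n1, n2, n3, n4, n5⟩ := exists_min_int f g' hJ' O hO hg
  obtain ⟨P, hP⟩ := n5 0
  obtain ⟨m, hm⟩ : ∃ m, μ'.natDegree = m + 1 := ⟨μ'.natDegree - 1, by omega⟩
  refine ⟨m, P, ?_, ?_⟩
  · rintro rfl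
    have h1 : μ'.coeff 0 = 0 := by rw [hP, map_zero]
    obtain ⟨q, hq⟩ := Polynomial.X_dvd_iff.2 h1
    have hq0 : q ≠ 0 := by
      rintro rfl
      rw [mul_zero] at hq
      exact n1.ne_zero hq
    rw [hq, map_mul, Polynomial.aeval_X] at n3
    rcases nu_prime n3 with h | h
    · exact hgn h
    · have h2 := Polynomial.natDegree_le_of_dvd (n4 _ h) hq0
      rw [hq, Polynomial.natDegree_mul Polynomial.X_ne_zero hq0, Polynomial.natDegree_X] at h2
      omega
  · have e7 := min_lin f g g' hJ η θ 0 O hO hlog (by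
      rw [hg']
      simp) μ' n1 n3 n4 0 P hP
    rw [e7, hm]
    have e6 : ((0 : EF f) : KK k) = 0 := rfl
    rw [e6]
    push_cast
    ring

/-- the generic fibre of `f` is rational -/
theorem gen_lin (f g : PP k) (hJ : br f g = 1) (η θ : EF f)
    (hlog : ∀ O ∈ SR (RE f), ιK k g ∈ O → LogAt O (toZ (DL f g η θ))) :
    ∃ T : KK k, IntermediateField.adjoin k {ιK k f, T} = ⊤ := by
  by_cases hfin : ∃ O1 ∈ SR (RE f), ιK k g ∈ O1
  swap
  · push Not at hfin
    exact gen_of_equal f g hJ 0 fun O hO => Or.inl (hfin O hO)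
  obtain ⟨O1, hO1, hg1⟩ := hfin
  obtain ⟨h0, e4⟩ := exists_section f g hJ η θ O1 hO1 hg1 (hlog O1 hO1 hg1)
  obtain ⟨g', hg'⟩ : ∃ g' : PP k, g' = g - Polynomial.aeval f h0 := ⟨_, rfl⟩
  have hJ' : br f g' = 1 := by rw [hg']; exact br_shift hJ h0
  have hgg : ιK k g' = ιK k g - ev f h0 := by rw [hg', map_sub, ev_apply]
  have hDg' : DL f g η θ (ιK k g') = (η : KK k) * ιK k g' := by
    rw [hgg, map_sub, DL_g hJ, DL_ev hJ, e4]
    ring
  have hgO : ∀ O ∈ SR (RE f), (ιK k g' ∈ O ↔ ιK k g ∈ O) := by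
    intro O hO
    have h1 : ev f h0 ∈ O := hO.1 ⟨_, ev_mem f h0⟩
    constructor
    · intro h
      have h2 : ιK k g = ιK k g' + ev f h0 := by rw [hgg]; ring
      rw [h2]
      exact add_mem h h1
    · intro h
      rw [hgg]
      exact sub_mem h h1
  by_cases hall : ∀ O ∈ SR (RE f), ιK k g ∈ O → ιK k g' ∈ O.nonunits
  · refine gen_of_equal f g hJ ⟨ev f h0, ev_mem f h0⟩ fun O hO => ?_
    by_cases h : ιK k g ∈ O
    · right
      have h1 := hall O hO h
      rw [hgg] at h1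
      exact h1
    · exact Or.inl h
  push Not at hall
  obtain ⟨O2, hO2, hg2, hg2'⟩ := hall
  obtain ⟨m, P, hP0, e6⟩ := exists_pencil f g g' hJ hJ' η θ O2 hO2 ((hgO O2 hO2).2 hg2) hg2'
    (hlog O2 hO2 hg2) hDg'
  have hPe : ev f P ≠ 0 := ev_ne hJ hP0
  have hDj : DL f g η θ (jn f g' P (m + 1)) = 0 := by
    unfold jn
    rw [Derivation.leibniz_div, Derivation.leibniz_pow, hDg', DL_ev hJ, e6]
    simp only [smul_eq_mul, nsmul_eq_mul, Nat.add_sub_cancel]
    ring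
  refine gen_of_curve f g' hJ' P hP0 (m + 1) (Nat.succ_pos m) fun O hO => ?_
  by_cases hg3 : ιK k g' ∈ O
  · right
    have hjO : jn f g' P (m + 1) ∈ O := by
      by_contra h
      exact (jn_pole hJ' hP0 (Nat.succ_pos m) O hO.1).1 h hg3
    exact const_res O hO.1 (toZ (DL f g η θ)) (hlog O hO ((hgO O hO).1 hg3))
      (fun a => ⟨⟨DL f g η θ a, DL_EF hJ _ a.2⟩, rfl⟩) (fun a ha => by
        obtain ⟨c, hc⟩ := DL_const hJ (a : KK k) a.2 ha
        exact ⟨c, Subtype.ext hc.symm⟩) _ hjO hDj (SR_resalg hJ hO _ hjO)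
  · exact Or.inl hg3

end

end Pool.Agent.H928R2.Tri
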