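import Pool.Agent.H928R2.TriDef

/-!
# Derivations that preserve a place (task H2, helper409)
-/

set_option autoImplicit false

open Polynomial Pool.Agent.H928R2.Inv

namespace Pool.Agent.H928R2.Tri

namespace H2

theorem nonunits_sub {L : Type*} [Field L] {O : ValuationSubring L} {x y : L}
    (hx : x ∈ O.nonunits) (hy : y ∈ O.nonunits) : x - y ∈ O.nonunits := by
  rw [ValuationSubring.mem_nonunits_iff] at hx hy ⊢
  exact lt_of_le_of_lt (O.valuation.map_sub x y) (max_lt hx hy)

theorem nonunits_add {L : Type*} [Field L] {O : ValuationSubring L} {x y : L}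
    (hx : x ∈ O.nonunits) (hy : y ∈ O.nonunits) : x + y ∈ O.nonunits := by
  rw [ValuationSubring.mem_nonunits_iff] at hx hy ⊢
  exact lt_of_le_of_lt (O.valuation.map_add x y) (max_lt hx hy)

/-- cancelling a unit -/
theorem cancel {L : Type*} [Field L] {O : ValuationSubring L} {a b : L} (ha : a ∉ O.nonunits)
    (h : a * b ∈ O.nonunits) : b ∈ O.nonunits := by
  have ha0 : a ≠ 0 := by
    rintro rfl
    exact ha (zero_nonunits O)
  have h1 : b = (a * b) * a⁻¹ := by field_simp
  rw [h1]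
  exact nonunits_mul h (inv_mem_of_notMem_nonunits ha)

/-- the derivative of the value of a polynomial -/
theorem D_aeval {E L : Type*} [Field E] [Field L] [Algebra E L] (D : Derivation ℤ L L) (f : L)
    (S : AddSubgroup L) (hS : ∀ (a : E) (n : ℕ), D (algebraMap E L a) * f ^ n ∈ S) (P : E[X]) :
    ∃ r ∈ S, D (aeval f P) = aeval f (derivative P) * D f + r := by
  induction P using Polynomial.induction_on' with
  | add p q hp hq =>
    obtain ⟨r, hr, h1⟩ := hp
    obtain ⟨s, hs, h2⟩ := hq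
    refine ⟨r + s, S.add_mem hr hs, ?_⟩
    rw [map_add, map_add, h1, h2, derivative_add, map_add]
    ring
  | monomial n a =>
    refine ⟨D (algebraMap E L a) * f ^ n, hS a n, ?_⟩
    rw [derivative_monomial, aeval_monomial, aeval_monomial, Derivation.leibniz,
      Derivation.leibniz_pow, map_mul, map_natCast]
    simp only [smul_eq_mul, nsmul_eq_mul]
    ring

end H2

open H2

theorem log_of {E L : Type*} [Field E] [CharZero E] [Field L] [Algebra E L]
    (O : ValuationSubring L) (hE : ∀ a : E, algebraMap E L a ∈ O) (t : L) (ht : IsUnif O t)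
    (hres : ∀ f ∈ O, ∃ P : E[X], P ≠ 0 ∧ aeval f P ∈ O.nonunits)
    (D : Derivation ℤ L L) (hDE : ∀ a : E, ∃ b : E, D (algebraMap E L a) = algebraMap E L b)
    (x : L) (hx0 : x ≠ 0) (hbd : ∃ M : ℕ, ∀ f ∈ O, (x⁻¹) ^ M * D f ∈ O)
    (u w : L) (hu0 : u ≠ 0) (hu : u ∈ O.nonunits) (hw : w ∈ O) (hDu : D u = w * u) :
    LogAt O D := by
  -- a power of `t` bounds the denominators
  have hbd2 : ∃ M : ℕ, ∀ f ∈ O, t ^ M * D f ∈ O := by
    obtain ⟨M, hM⟩ := hbd
    obtain ⟨m, hm⟩ := ht.exists_pow ht.ne ht.inv ((x⁻¹ ^ M)⁻¹)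
    refine ⟨m, fun f hf => ?_⟩
    have h1 : t ^ m * D f = (t ^ m * ((x⁻¹ ^ M)⁻¹)) * (x⁻¹ ^ M * D f) := by
      have h2 : (x⁻¹ ^ M) ≠ 0 := pow_ne_zero _ (inv_ne_zero hx0)
      field_simp
    rw [h1]
    exact O.mul_mem _ _ (hm m le_rfl) (hM f hf)
  -- the derivative of the uniformizer
  have key2 : ∀ m : ℕ, (∀ f ∈ O, t ^ m * D f ∈ O) → t ^ m * D t ∈ O.nonunits := by
    intro m hm
    obtain ⟨j, v, hv, hvi, h1⟩ := ht.fac u hu0
    have hj : 1 ≤ j := by
      by_contra hcon
      refine notMem_nonunits_of_inv hu0 ?_ hu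
      rw [h1, mul_inv, ← zpow_neg]
      exact mem_of_unit_mul hvi ht.mem _ (by omega)
    obtain ⟨n, rfl⟩ : ∃ n : ℕ, j = ((n + 1 : ℕ) : ℤ) := ⟨(j - 1).toNat, by omega⟩
    rw [zpow_natCast] at h1
    have hv0 : v ≠ 0 := by
      rintro rfl
      rw [zero_mul] at h1
      exact hu0 h1
    have h2 := hDu
    rw [h1, Derivation.leibniz, Derivation.leibniz_pow] at h2
    simp only [smul_eq_mul, nsmul_eq_mul, Nat.add_sub_cancel] at h2
    have ht0 := ht.ne
    have h3 : (((n + 1 : ℕ) : L) * v) * (t ^ m * D t) = t * (t ^ m * w * v - t ^ m * D v) := by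
      have h4 : t ^ n * ((((n + 1 : ℕ) : L) * v) * (t ^ m * D t)) =
          t ^ n * (t * (t ^ m * w * v - t ^ m * D v)) := by
        linear_combination t ^ m * h2
      exact mul_left_cancel₀ (pow_ne_zero n ht0) h4
    have h5 : (((n + 1 : ℕ) : L) * v) ∉ O.nonunits := by
      intro h6
      have h7 : ((n + 1 : ℕ) : L) ∈ O.nonunits := by
        have h8 := nonunits_mul h6 hvi
        rwa [mul_assoc, mul_inv_cancel₀ hv0, mul_one] at h8
      have h9 : ((n + 1 : ℕ) : L) = algebraMap E L ((n + 1 : ℕ) : E) := by rw [map_natCast]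
      rw [h9] at h7
      exact const_notMem_nonunits hE (by exact_mod_cast Nat.succ_ne_zero n) h7
    apply cancel h5
    rw [h3]
    refine nonunits_mul ht.nonunit (O.sub_mem ?_ (hm v hv))
    exact O.mul_mem _ _ (O.mul_mem _ _ (pow_mem ht.mem m) hw) hv
  -- descent
  obtain ⟨M, hM⟩ := hbd2
  have key : ∀ M : ℕ, (∀ f ∈ O, t ^ M * D f ∈ O) → ∀ f ∈ O, D f ∈ O := by
    intro M
    induction M with
    | zero =>
      intro h f hf
      have h1 := h f hf
      rwa [pow_zero, one_mul] at h1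
    | succ M ih =>
      intro h
      apply ih
      intro f hf
      have hDt := key2 (M + 1) h
      obtain ⟨P, hP1, hP2⟩ := exists_sep_poly O hE f (hres f hf)
      obtain ⟨g, hg, hPg⟩ := ht.pow_of_nonunit hP1
      obtain ⟨r, hr, h1⟩ := D_aeval (E := E) D f O.toSubring.toAddSubgroup (fun a n => by
        obtain ⟨b, hb⟩ := hDE a
        rw [hb]
        exact O.mul_mem _ _ (hE b) (pow_mem hf n)) P
      rw [hPg, Derivation.leibniz] at h1
      simp only [smul_eq_mul] at h1
      have hr' : r ∈ O := hr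
      have h2 : t ^ (M + 1) * D f ∈ O.nonunits := by
        apply cancel hP2
        have h3 : aeval f (derivative P) * (t ^ (M + 1) * D f) =
            t * (t ^ (M + 1) * D g) + (t ^ (M + 1) * D t) * g - t * (t ^ M * r) := by
          linear_combination -t ^ (M + 1) * h1
        rw [h3]
        refine nonunits_sub (nonunits_add (nonunits_mul ht.nonunit (h g hg))
          (nonunits_mul hDt hg)) (nonunits_mul ht.nonunit (O.mul_mem _ _ (pow_mem ht.mem M) hr'))
      obtain ⟨g', hg', h4⟩ := ht.pow_of_nonunit h2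
      have h5 : t ^ M * D f = g' := by
        apply mul_left_cancel₀ ht.ne
        rw [← h4]; ring
      rw [h5]
      exact hg'
  have hO := key M hM
  have hDt : D t ∈ O.nonunits := by
    have := key2 0 (fun f hf => by rw [pow_zero, one_mul]; exact hO f hf)
    rwa [pow_zero, one_mul] at this
  refine ⟨hO, fun z hz => ?_⟩
  obtain ⟨g, hg, rfl⟩ := ht.pow_of_nonunit hz
  rw [Derivation.leibniz]
  simp only [smul_eq_mul]
  refine nonunits_add (nonunits_mul ht.nonunit (hO g hg)) ?_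
  rw [mul_comm]
  exact nonunits_mul hDt hg

/-- the case of an `E`-linear derivation -/
theorem log_small {E L : Type*} [Field E] [CharZero E] [Field L] [Algebra E L]
    (O : ValuationSubring L) (hE : ∀ a : E, algebraMap E L a ∈ O)
    (hres : ∀ f ∈ O, ∃ P : E[X], P ≠ 0 ∧ aeval f P ∈ O.nonunits)
    (D : Derivation ℤ L L) (hDE : ∀ a : E, D (algebraMap E L a) = 0) (h : LogAt O D)
    (z : L) (hz : z ∈ O) : D z ∈ O.nonunits := by
  obtain ⟨P, hP1, hP2⟩ := exists_sep_poly O hE z (hres z hz)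
  obtain ⟨r, hr, h1⟩ := D_aeval (E := E) D z ⊥ (fun a n => by
    rw [hDE, zero_mul]
    exact AddSubgroup.zero_mem _) P
  rw [AddSubgroup.mem_bot] at hr
  rw [hr, add_zero] at h1
  apply cancel hP2
  rw [← h1]
  exact h.non _ hP1

theorem log_div {L : Type*} [Field L] {O : ValuationSubring L} {D : Derivation ℤ L L}
    (h : LogAt O D) {t : L} (ht : IsUnif O t) (z : L) (hz : z ≠ 0) : D z / z ∈ O := by
  obtain ⟨j, v, hv, hvi, h1⟩ := ht.fac z hz
  have hv0 : v ≠ 0 := by
    rintro rfl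
    rw [zero_mul] at h1
    exact hz h1
  obtain ⟨g, hg, h2⟩ := ht.pow_of_nonunit (h.non t ht.nonunit)
  have h3 : D z / z = D v * v⁻¹ + (j : L) * g := by
    rw [h1, Derivation.leibniz, Derivation.leibniz_zpow, h2]
    simp only [smul_eq_mul, zsmul_eq_mul]
    rw [zpow_sub_one₀ ht.ne]
    have ht0 := ht.ne
    have h4 : t ^ j ≠ 0 := zpow_ne_zero _ ht0
    field_simp
    ring
  rw [h3]
  exact O.add_mem _ _ (O.mul_mem _ _ (h.mem v hv) hvi)
    (O.mul_mem _ _ (intCast_mem O.toSubring j) hg)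

theorem log_VN {E L : Type*} [Field E] [Field L] [Algebra E L] (R : Subalgebra E L)
    (t : ValuationSubring L → L) (ht : ∀ O ∈ SR R, IsUnif O (t O)) (D : Derivation ℤ L L)
    (hDR : ∀ x ∈ R, D x ∈ R) (hlog : ∀ O ∈ SR R, LogAt O D) (N : ℕ) (f : L)
    (hf : f ∈ Pen.P1.VN R t N) : D f ∈ Pen.P1.VN R t N := by
  refine ⟨hDR f hf.1, fun O hO => ?_⟩
  by_cases h0 : f = 0
  · rw [h0, map_zero, mul_zero]
    exact O.zero_mem
  · have h1 : t O ^ N * D f = (t O ^ N * f) * (D f / f) := by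
      field_simp
    rw [h1]
    exact O.mul_mem _ _ (hf.2 O hO) (log_div (hlog O hO) (ht O hO) f h0)

end Pool.Agent.H928R2.Tri
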