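import Pool.Agent.H928R2.TriBase
import Pool.Agent.H928R2.TriBdd
import Pool.Agent.H928R2.TriLog

set_option autoImplicit false
set_option linter.unusedSectionVars false

open MvPolynomial Pool.Agent.H928R2.Inv Pool.Agent.H928R2.Pen

namespace Pool.Agent.H928R2.Tri

theorem log_SR {k : Type*} [Field k] [CharZero k] [IsAlgClosed k] (f g : PP k)
    (hJ : br f g = 1) (D : Derivation k (KK k) (KK k)) (hDf : D (ιK k f) ∈ EF f)
    (O : ValuationSubring (KK k)) (hO : O ∈ SR (RE f)) (u w : KK k) (hu0 : u ≠ 0)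
    (hu : u ∈ O.nonunits) (hw : w ∈ O) (hDu : D u = w * u) : LogAt O (toZ D) := by
  obtain ⟨x, -, hxO, hx⟩ := SR_pole hO
  obtain ⟨t, ht⟩ := SR_unif hJ hO
  have hx0 : x ≠ 0 := fun h => hxO (by rw [h]; exact O.zero_mem)
  have hDE : ∀ a : EF f, ∃ b : EF f,
      toZ D (algebraMap (EF f) (KK k) a) = algebraMap (EF f) (KK k) b :=
    fun a => ⟨⟨_, der_EF D f hDf _ a.2⟩, rfl⟩
  exact log_of O hO.1 t ht (SR_resalg hJ hO) (toZ D) hDE x hx0
    (bdd x hx (hfin_f hJ x hx) O hO.1 hxO (toZ D) hDE) u w hu0 hu hw hDu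

end Pool.Agent.H928R2.Tri
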