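import Pool.Agent.H928R2.TriLin

/-!
# Intermediate fields: restricting derivations and places
-/

set_option autoImplicit false
set_option linter.unusedSectionVars false

open MvPolynomial Pool.Agent.H928R2.Inv Pool.Agent.H928R2.Pen

namespace Pool.Agent.H928R2.Tri

section fin
variable {E L : Type*} [Field E] [Field L] [Algebra E L] (M : IntermediateField E L)

theorem M_fin (x : M) (hfin : FiniteDimensional (IntermediateField.adjoin E {(x : L)}) L) :
    FiniteDimensional (IntermediateField.adjoin E {x}) M := by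
  have hl : IntermediateField.lift (IntermediateField.adjoin E {x}) =
      IntermediateField.adjoin E {(x : L)} := IntermediateField.lift_adjoin_simple E M x
  have h : ∀ y ∈ IntermediateField.adjoin E {x},
      (y : L) ∈ IntermediateField.adjoin E {(x : L)} := by
    intro y hy
    rw [← hl]
    exact ⟨y, hy, rfl⟩
  let F := IntermediateField.adjoin E {x}
  let F' := IntermediateField.adjoin E {(x : L)}
  let ψ : F →+* F' :=
    { toFun := fun y => ⟨(y : M), h y y.2⟩
      map_one' := Subtype.ext (by simp)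
      map_mul' := fun x y => Subtype.ext (by simp)
      map_zero' := Subtype.ext (by simp)
      map_add' := fun x y => Subtype.ext (by simp) }
  let _ : Algebra F F' := ψ.toAlgebra
  have hsurj : Function.Surjective (Algebra.linearMap F F') := by
    rintro ⟨y, hy⟩
    have hy' : y ∈ IntermediateField.lift (IntermediateField.adjoin E {x}) := by
      rw [hl]
      exact hy
    obtain ⟨z, hz, hzy⟩ := hy'
    exact ⟨⟨z, hz⟩, Subtype.ext hzy⟩
  have : Module.Finite F F' := Module.Finite.of_surjective (Algebra.linearMap F F') hsurj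
  have : IsScalarTower F F' L := IsScalarTower.of_algebraMap_eq (fun _ => rfl)
  have : FiniteDimensional F' L := hfin
  have : Module.Finite F L := Module.Finite.trans F' L
  have hF : IsScalarTower F M L := IsScalarTower.of_algebraMap_eq (fun _ => rfl)
  exact Module.Finite.of_injective (IsScalarTower.toAlgHom F M L).toLinearMap
    (algebraMap M L).injective

theorem adjoin_der (g : L) (D : Derivation ℤ L L)
    (hDE : ∀ a : E, ∃ b : E, D (algebraMap E L a) = algebraMap E L b)
    (hDg : D g ∈ IntermediateField.adjoin E {g}) (x : L)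
    (hx : x ∈ IntermediateField.adjoin E {g}) : D x ∈ IntermediateField.adjoin E {g} := by
  induction hx using IntermediateField.adjoin_induction with
  | mem x hx =>
    rw [Set.mem_singleton_iff] at hx
    rw [hx]
    exact hDg
  | algebraMap x =>
    obtain ⟨b, hb⟩ := hDE x
    rw [hb]
    exact IntermediateField.algebraMap_mem _ _
  | add x y _ _ hx hy => rw [map_add]; exact add_mem hx hy
  | inv x hx hx' =>
    rw [Derivation.leibniz_inv]
    exact mul_mem (neg_mem (pow_mem (inv_mem hx) 2)) hx'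
  | mul x y hx hy hx' hy' =>
    rw [Derivation.leibniz]
    exact add_mem (mul_mem hx hy') (mul_mem hy hx')

/-- a derivation of `L` preserving `E` and `E(g)` restricts to intermediate fields -/
theorem M_der [CharZero E] (g : L) (hg : g ∈ M)
    (halg : Algebra.IsAlgebraic (IntermediateField.adjoin E {g}) L) (D : Derivation ℤ L L)
    (hDE : ∀ a : E, ∃ b : E, D (algebraMap E L a) = algebraMap E L b)
    (hDg : D g ∈ IntermediateField.adjoin E {g}) :
    ∃ D' : Derivation ℤ M M, ∀ x, (D' x : L) = D x := by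
  have h0 : IntermediateField.adjoin E {g} ≤ M := by
    rw [IntermediateField.adjoin_simple_le_iff]
    exact hg
  have hc : CharZero (IntermediateField.adjoin E {g}) :=
    charZero_of_injective_algebraMap (algebraMap E (IntermediateField.adjoin E {g})).injective
  have h1 : ∀ a : M, ∃ b : M, D a = b := by
    intro a
    obtain ⟨b, hb⟩ := der_alg (IntermediateField.extendScalars h0)
      (fun a _ => halg.isAlgebraic a) D (fun a => ⟨⟨D a, adjoin_der g D hDE hDg a a.2⟩, rfl⟩)
      ⟨a, a.2⟩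
    exact ⟨⟨b, b.2⟩, hb⟩
  choose φ hφ using h1
  obtain ⟨D', hD'⟩ := exists_restrict M D φ (fun x => (hφ x).symm)
  exact ⟨D', fun x => by rw [hD', ← hφ]⟩

/-- a logarithmic derivation restricts to a logarithmic derivation -/
theorem M_log (O' : ValuationSubring L) (O : ValuationSubring M)
    (hO : ∀ z : M, (z : L) ∈ O' ↔ z ∈ O) (D : Derivation ℤ L L) (D' : Derivation ℤ M M)
    (hD : ∀ x, (D' x : L) = D x) (h : LogAt O' D) : LogAt O D' := by
  have hn : ∀ z : M, (z : L) ∈ O'.nonunits ↔ z ∈ O.nonunits := by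
    intro z
    rw [ValuationSubring.mem_nonunits_iff_or, ValuationSubring.mem_nonunits_iff_or, ← hO]
    have h1 : ((z⁻¹ : M) : L) = (z : L)⁻¹ := rfl
    rw [h1]
    have h2 : (z : L) = 0 ↔ z = 0 := by
      constructor
      · intro h
        exact Subtype.ext h
      · intro h
        rw [h]
        rfl
    rw [h2]
  refine ⟨fun z hz => ?_, fun z hz => ?_⟩
  · rw [← hO, hD]
    exact h.mem _ ((hO z).2 hz)
  · rw [← hn, hD]
    exact h.non _ ((hn z).2 hz)

theorem M_nonunit (O' : ValuationSubring L) (O : ValuationSubring M)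
    (hO : ∀ z : M, (z : L) ∈ O' ↔ z ∈ O) (z : M) : (z : L) ∈ O'.nonunits ↔ z ∈ O.nonunits := by
  rw [ValuationSubring.mem_nonunits_iff_or, ValuationSubring.mem_nonunits_iff_or, ← hO]
  have h1 : ((z⁻¹ : M) : L) = (z : L)⁻¹ := rfl
  rw [h1]
  have h2 : (z : L) = 0 ↔ z = 0 := by
    constructor
    · intro h
      exact Subtype.ext h
    · intro h
      rw [h]
      rfl
  rw [h2]

end fin

section
variable {k : Type*} [Field k] [CharZero k]

/-- the derivations `D1 g`, `D2 f` are regular on `M` at `O` -/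
def Good (f g : PP k) (M : IntermediateField (EF f) (KK k)) (O : ValuationSubring (KK k)) :
    Prop := ∀ z ∈ M, z ∈ O → D1 g z ∈ O ∧ D2 f z ∈ O

/-- the elements of `M` finite on the affine curve and at the good places -/
def RM (f g : PP k) (M : IntermediateField (EF f) (KK k)) : Subalgebra (EF f) M where
  carrier := {z | (z : KK k) ∈ RE f ∧ ∀ O ∈ SR (RE f), ιK k g ∈ O → Good f g M O →
    (z : KK k) ∈ O}
  mul_mem' := fun ha hb => ⟨mul_mem ha.1 hb.1, fun O hO h1 h2 =>
    mul_mem (ha.2 O hO h1 h2) (hb.2 O hO h1 h2)⟩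
  add_mem' := fun ha hb => ⟨add_mem ha.1 hb.1, fun O hO h1 h2 =>
    add_mem (ha.2 O hO h1 h2) (hb.2 O hO h1 h2)⟩
  algebraMap_mem' := fun a => ⟨(RE f).algebraMap_mem a, fun _ hO _ _ => hO.1 a⟩

theorem mem_RM {f g : PP k} {M : IntermediateField (EF f) (KK k)} {z : M} :
    z ∈ RM f g M ↔ (z : KK k) ∈ RE f ∧ ∀ O ∈ SR (RE f), ιK k g ∈ O → Good f g M O →
      (z : KK k) ∈ O := Iff.rfl

variable [IsAlgClosed k] {f g : PP k} {M : IntermediateField (EF f) (KK k)}

theorem RM_int (hJ : br f g = 1) (x : M)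
    (h : ∃ p : Polynomial M, p.Monic ∧ (∀ i, p.coeff i ∈ (RM f g M).toSubring) ∧
      p.eval x = 0) : x ∈ (RM f g M).toSubring := by
  obtain ⟨p, hp, hc, hx⟩ := h
  have hx' : (p.map (algebraMap M (KK k))).eval (x : KK k) = 0 := by
    have h1 : (p.map (algebraMap M (KK k))).eval (algebraMap M (KK k) x) =
        algebraMap M (KK k) (p.eval x) := by
      rw [Polynomial.eval_map, Polynomial.eval₂_at_apply]
    rw [hx, map_zero] at h1
    exact h1
  refine ⟨?_, fun O hO hg hgood => ?_⟩
  · refine RE_int f (nonconst_of hJ) (x : KK k) ⟨p.map (algebraMap M (KK k)), hp.map _,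
      fun i => ?_, hx'⟩
    rw [Polynomial.coeff_map]
    exact (hc i).1
  · refine val_int O (x : KK k) ⟨p.map (algebraMap M (KK k)), hp.map _, fun i => ?_, hx'⟩
    rw [Polynomial.coeff_map]
    exact (hc i).2 O hO hg hgood

theorem RM_comb (hJ : br f g = 1) (α β : KK k) (hα : ∃ a ∈ RM f g M, (a : KK k) = α)
    (hβ : ∃ a ∈ RM f g M, (a : KK k) = β) (x : M) (hx : x ∈ RM f g M) (y : M)
    (hy : (y : KK k) = α * D1 g (x : KK k) + β * D2 f (x : KK k)) : y ∈ RM f g M := by
  obtain ⟨a, ha, rfl⟩ := hα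
  obtain ⟨b, hb, rfl⟩ := hβ
  rw [mem_RM] at *
  rw [hy]
  refine ⟨add_mem (mul_mem ha.1 (D1_RE hJ _ hx.1)) (mul_mem hb.1 (D2_RE f _ hx.1)),
    fun O hO h1 h2 => ?_⟩
  have h3 := h2 (x : KK k) x.2 (hx.2 O hO h1 h2)
  exact add_mem (mul_mem (ha.2 O hO h1 h2) h3.1) (mul_mem (hb.2 O hO h1 h2) h3.2)

theorem RM_EF (a : EF f) : ∃ b ∈ RM f g M, (b : KK k) = (a : KK k) :=
  ⟨algebraMap (EF f) M a, (RM f g M).algebraMap_mem a, rfl⟩

theorem g_RM (hg : ιK k g ∈ M) : (⟨ιK k g, hg⟩ : M) ∈ RM f g M :=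
  ⟨by
    have h1 : ∀ p : PP k, ιK k p ∈ RE f := by
      intro p
      induction p using MvPolynomial.induction_on with
      | C c =>
        rw [← MvPolynomial.algebraMap_eq, AlgHom.commutes]
        exact (RE f).algebraMap_mem ⟨_, IntermediateField.algebraMap_mem _ c⟩
      | add p q hp hq => rw [map_add]; exact add_mem hp hq
      | mul_X p i hp =>
        rw [map_mul]
        exact mul_mem hp (Algebra.subset_adjoin ⟨i, rfl⟩)
    exact h1 g, fun _ _ h _ => h⟩

theorem SR_RM {O : ValuationSubring M} (hO : O ∈ SR (RM f g M)) :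
    ∃ O' ∈ SR (RE f), (∀ z : M, (z : KK k) ∈ O' ↔ z ∈ O) ∧
      (ιK k g ∈ O' → ¬ Good f g M O') := by
  obtain ⟨O', hO'⟩ := ext_val (L' := KK k) O
  obtain ⟨hE, x, hx, hxO⟩ := hO
  have hS : O' ∈ SR (RE f) := ⟨fun a => (hO' (algebraMap (EF f) M a)).2 (hE a), x, hx.1,
    fun h => hxO ((hO' x).1 h)⟩
  exact ⟨O', hS, hO', fun hg hgood => hxO ((hO' x).1 (hx.2 O' hS hg hgood))⟩

theorem SR_RM_fin (hJ : br f g = 1) : (SR (RM f g M)).Finite := by
  refine ((SR_fin hJ).image (fun O : ValuationSubring (KK k) => O.comap (algebraMap M (KK k)))).subset ?_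
  intro O hO
  obtain ⟨O', h1, h2, -⟩ := SR_RM hO
  refine ⟨O', h1, ?_⟩
  ext z
  rw [ValuationSubring.mem_comap]
  exact h2 z

theorem M_transc {x : M} (hx : Transcendental (EF f) x) : Transcendental (EF f) (x : KK k) := by
  intro h
  exact hx ((isAlgebraic_algebraMap_iff (algebraMap M (KK k)).injective).1 h)

theorem M_hfin (hJ : br f g = 1) {x : M} (hx : Transcendental (EF f) x) :
    FiniteDimensional (IntermediateField.adjoin (EF f) {x}) M :=
  M_fin M x (hfin_f hJ _ (M_transc hx))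

theorem SR_RM_unif (hJ : br f g = 1) {O : ValuationSubring M} (hO : O ∈ SR (RM f g M)) :
    ∃ t, IsUnif O t := by
  obtain ⟨hE, x, hx, hxO⟩ := hO
  have hxt : Transcendental (EF f) x := fun h => hxO (algebraic_mem hE h)
  exact ((places x hxt (M_hfin hJ hxt)).2 O hE hxO).1

theorem SR_RM_resfin (hJ : br f g = 1) {O : ValuationSubring M} (hO : O ∈ SR (RM f g M)) :
    ∃ n : ℕ, ∀ (m : ℕ) (u : Fin m → M), (∀ i, u i ∈ O) →
      (∀ a : Fin m → EF f, ∑ i, algebraMap (EF f) M (a i) * u i ∈ O.nonunits → a = 0) →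
        m ≤ n := by
  obtain ⟨O', h1, h2, -⟩ := SR_RM hO
  obtain ⟨n, hn⟩ := SR_resfin hJ h1
  refine ⟨n, fun m u hu h => hn m (fun i => (u i : KK k)) (fun i => (h2 _).2 (hu i)) fun a ha => ?_⟩
  apply h a
  rw [← M_nonunit M O' O h2]
  have h3 : ((∑ i, algebraMap (EF f) M (a i) * u i : M) : KK k) =
      ∑ i, algebraMap (EF f) (KK k) (a i) * (u i : KK k) := by
    rw [← IntermediateField.algebraMap_apply, map_sum]
    refine Finset.sum_congr rfl fun i _ => ?_
    rw [map_mul, ← IsScalarTower.algebraMap_apply]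
    rfl
  rw [h3]
  exact ha

theorem SR_RM_resalg (hJ : br f g = 1) {O : ValuationSubring M} (hO : O ∈ SR (RM f g M)) (z : M)
    (hz : z ∈ O) : ∃ P : Polynomial (EF f), P ≠ 0 ∧ Polynomial.aeval z P ∈ O.nonunits := by
  obtain ⟨O', h1, h2, -⟩ := SR_RM hO
  obtain ⟨P, hP, hz'⟩ := SR_resalg hJ h1 (z : KK k) ((h2 z).2 hz)
  refine ⟨P, hP, ?_⟩
  rw [← M_nonunit M O' O h2]
  have h3 : ((Polynomial.aeval z P : M) : KK k) = Polynomial.aeval (z : KK k) P := by
    have h4 := Polynomial.aeval_algebraMap_apply (KK k) z P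
    exact h4.symm
  rw [h3]
  exact hz'

theorem algCl_M (hJ : br f g = 1) : AlgCl (EF f) M := by
  intro x hx
  obtain ⟨a, ha⟩ := algCl_f hJ (x : KK k) (hx.algebraMap)
  exact ⟨a, Subtype.ext ha⟩

theorem M_t (hJ : br f g = 1) : ∃ t : ValuationSubring M → M, ∀ O ∈ SR (RM f g M),
    IsUnif O (t O) := by
  classical
  have h : ∀ O : ValuationSubring M, ∃ t, O ∈ SR (RM f g M) → IsUnif O t := by
    intro O
    by_cases hO : O ∈ SR (RM f g M)
    · obtain ⟨t, ht⟩ := SR_RM_unif hJ hO
      exact ⟨t, fun _ => ht⟩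
    · exact ⟨0, fun h => absurd h hO⟩
  choose t ht using h
  exact ⟨t, fun O hO => ht O hO⟩

end

end Pool.Agent.H928R2.Tri
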