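import Pool.Agent.H928R2.TriM0
import Pool.Agent.H928R2.TriCaseN
import Pool.Agent.H928R2.TriCaseM
import Pool.Agent.H928R2.TriVal

/-!
# Intermediate fields: the theorem at the level of places
-/

set_option autoImplicit false
set_option linter.unusedSectionVars false

open MvPolynomial Pool.Agent.H928R2.Inv Pool.Agent.H928R2.Pen

namespace Pool.Agent.H928R2.Tri

section
variable {k : Type*} [Field k] [CharZero k]

theorem br_ev0 (f : PP k) (h : Polynomial k) : br f (Polynomial.aeval f h) = 0 := by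
  rw [← dd_br]
  exact dd_aeval (by rw [dd_apply]; ring) h

theorem br_ev1 (f : PP k) (h : Polynomial k) (b : PP k) : br b (Polynomial.aeval f h) =
    -(Polynomial.aeval f (Polynomial.derivative h) * br f b) := by
  have h1 := br_aeval_left f b h
  have h2 : br b (Polynomial.aeval f h) = - br (Polynomial.aeval f h) b := by
    unfold br
    ring
  rw [h2, h1]

theorem D1_shift {f g : PP k} (h0 : Polynomial k) (x : KK k) :
    D1 (g - Polynomial.aeval f h0) x = D1 g x + ev f (Polynomial.derivative h0) * D2 f x := by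
  have key : ∀ b : PP k, D1 (g - Polynomial.aeval f h0) (ιK k b) =
      D1 g (ιK k b) + ev f (Polynomial.derivative h0) * D2 f (ιK k b) := by
    intro b
    rw [D1_ι, D1_ι, D2_ι, ev_apply, ← map_mul, ← map_add]
    congr 1
    have h1 : br b (g - Polynomial.aeval f h0) = br b g - br b (Polynomial.aeval f h0) := by
      rw [← dd_br, ← dd_br, ← dd_br, map_sub]
    rw [h1, br_ev1]
    ring
  have e1 := der_eq (D1 (g - Polynomial.aeval f h0)) x
  have e2 := der_eq (D1 g) x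
  have e3 := der_eq (D2 f) x
  rw [e1, e2, e3, key, key]
  ring

variable [IsAlgClosed k] {f g : PP k}

/-- a unit at infinity -/
theorem unit_contra (hJ : br f g = 1) (y : KK k) (hy : y ∈ RE f) (n a : ℕ) (ha : 0 < a)
    (e : KK k) (he : e ∈ EF f) (he0 : e ≠ 0) (h : y ^ n * ιK k g ^ a = e) : False := by
  have hgC : ∀ c, g ≠ C c := by
    rintro c rfl
    rw [← dd_br, ← MvPolynomial.algebraMap_eq, Derivation.map_algebraMap] at hJ
    exact zero_ne_one hJ
  have hg0 : g ≠ 0 := by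
    rintro rfl
    exact hgC 0 (map_zero C).symm
  have hgu : ¬ IsUnit g := by
    intro hu
    obtain ⟨c, -, hc⟩ := MvPolynomial.isUnit_iff_eq_C_of_isReduced.1 hu
    exact hgC c hc
  obtain ⟨p, hp, hpg⟩ := WfDvdMonoid.exists_irreducible_factor hgu hg0
  have hp' : Prime p := UniqueFactorizationMonoid.irreducible_iff_prime.1 hp
  obtain ⟨O, hO, hOp⟩ := exists_val p hp'
  have hev : ∀ γ : Polynomial k, γ ≠ 0 → ev f γ ∉ O.nonunits := by
    intro γ hγ h1
    rw [ev_apply, hOp] at h1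
    exact hp.not_isUnit (relprime_ev hJ hγ h1 hpg)
  have hinv : ∀ z : KK k, z ≠ 0 → z ∉ O.nonunits → z⁻¹ ∈ O := by
    intro z hz hzn
    by_contra h1
    exact hzn (by rw [ValuationSubring.mem_nonunits_iff_or]; exact Or.inr h1)
  have hE : ∀ z ∈ EF f, z ∈ O := by
    intro z hz
    obtain ⟨a, b, hb, rfl⟩ := (mem_EF_iff hJ z).1 hz
    rw [div_eq_mul_inv]
    exact mul_mem (by rw [ev_apply]; exact hO _) (hinv _ (ev_ne hJ hb) (hev b hb))
  have hRE : ∀ z ∈ RE f, z ∈ O := by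
    intro z hz
    have h1 : RE f ≤ toSA O (fun a : EF f => hE a a.2) := by
      apply Algebra.adjoin_le
      rintro _ ⟨i, rfl⟩
      exact hO _
    exact h1 hz
  have hgn : ιK k g ∈ O.nonunits := (hOp g).2 hpg
  have h2 : e ∈ O.nonunits := by
    rw [← h]
    obtain ⟨m, rfl⟩ : ∃ m, a = m + 1 := ⟨a - 1, by omega⟩
    rw [pow_succ, ← mul_assoc]
    exact nu_mul (mul_mem (pow_mem (hRE y hy) n) (pow_mem (hO g) m)) hgn
  have h3 : e⁻¹ ∈ O := hE _ (inv_mem he)
  have h4 : (1 : KK k) ∈ O.nonunits := by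
    have h5 : (1 : KK k) = e⁻¹ * e := by field_simp
    rw [h5]
    exact nu_mul h3 h2
  exact nu_one O h4

theorem contra_rho {P : Polynomial k} {n : ℕ} (hJ : br f g = 1) (hP : P ≠ 0) (hn : 0 < n)
    (O1 : ValuationSubring (KK k)) (hE : ∀ a : EF f, algebraMap (EF f) (KK k) a ∈ O1) (c : k)
    (hc : jn f g P n - algebraMap k (KK k) c ∈ O1.nonunits) (ρ : KK k) (hρR : ρ ∈ RE f)
    (hρD : DN f g P n ρ = 0) (hρO : ρ ∉ O1) : False := by
  obtain ⟨O, hO, hgO⟩ := exists_pole hJ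
  have hkE : ∀ (O' : ValuationSubring (KK k)), (∀ a : EF f, algebraMap (EF f) (KK k) a ∈ O') →
      ∀ c : k, algebraMap k (KK k) c ∈ O' := fun O' h c =>
    h ⟨_, IntermediateField.algebraMap_mem _ c⟩
  have hjO : jn f g P n ∉ O := (jn_pole hJ hP hn O hO.1).2 hgO
  have hjO1 : jn f g P n ∈ O1 := by
    have h1 : jn f g P n = (jn f g P n - algebraMap k (KK k) c) + algebraMap k (KK k) c := by ring
    rw [h1]
    exact add_mem (nonunits_mem hc) (hkE O1 hE c)
  have hjc : ∀ c : k, jn f g P n ≠ algebraMap k (KK k) c := by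
    intro c hc
    exact hjO (by rw [hc]; exact hkE O hO.1 c)
  obtain ⟨y, hy, hyc⟩ := exists_phi (DN f g P n) (DN_ne hJ hn) (jn f g P n) hjc
    (DN_jn hJ hP hn)
  have hwD : DN f g P n (jn f g P n - algebraMap k (KK k) c) = 0 := by
    rw [map_sub, DN_jn hJ hP hn, Derivation.map_algebraMap, sub_zero]
  have hw0 : jn f g P n - algebraMap k (KK k) c ≠ 0 := fun h1 => hjc c (sub_eq_zero.1 h1)
  obtain ⟨φ, hφy, hφO⟩ := pole_phi y hyc O1 (hkE O1 hE) _ ((hy _).1 hwD) hw0 hc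
  have hker : ∀ z : KK k, DN f g P n z = 0 → z ∈ IntermediateField.adjoin k {φ} := by
    intro z hz
    rw [hφy]
    exact (hy z).1 hz
  have hφD : DN f g P n φ = 0 := by
    rw [hy, ← hφy]
    exact IntermediateField.mem_adjoin_simple_self _ _
  obtain ⟨q, hq⟩ := phi_poly f g hJ P hP n hn φ hφD O1 (hkE O1 hE) hφO hjO1
    (hker _ (DN_jn hJ hP hn)) ρ hρR (hker ρ hρD) hρO
  subst hq
  exact final_contra f g hJ P hP n hn q hφD O1 (hkE O1 hE) hφO hjO1
    (hker _ (DN_jn hJ hP hn))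

variable {M : IntermediateField (EF f) (KK k)}

theorem exists_DM (hJ : br f g = 1) (hgM : ιK k g ∈ M) (D : Derivation k (KK k) (KK k))
    (hDf : D (ιK k f) ∈ EF f)
    (hDg : D (ιK k g) ∈ IntermediateField.adjoin (EF f) {ιK k g}) :
    ∃ D' : Derivation ℤ M M, ∀ x, (D' x : KK k) = D x := by
  have hfin := hfin_f hJ _ (transc_g hJ)
  exact M_der M (ιK k g) hgM (Algebra.IsAlgebraic.of_finite _ _) (toZ D)
    (fun a => ⟨⟨D a, der_EF D f hDf a a.2⟩, rfl⟩) hDg

theorem EF_M (a : KK k) (ha : a ∈ EF f) : a ∈ M := by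
  have h := M.algebraMap_mem (⟨a, ha⟩ : EF f)
  exact h

/-- logarithmic behaviour of `g * D2 f` -/
theorem log_gD2 (hJ : br f g = 1) (O : ValuationSubring (KK k)) (hO : O ∈ SR (RE f))
    (h : ιK k g ∉ O ∨ ιK k g ∈ O.nonunits) : LogAt O (toZ (ιK k g • D2 f)) := by
  have hg0 : ιK k g ≠ 0 := by
    intro h1
    have h2 := transc_g hJ
    rw [h1] at h2
    exact h2 isAlgebraic_zero
  have hD : ∀ x, (ιK k g • D2 f) x = ιK k g * D2 f x := fun _ => rfl
  rcases h with h | h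
  · refine log_SR f g hJ _ (by rw [hD, D2_f, mul_zero]; exact zero_mem _) O hO (ιK k g)⁻¹ (-1)
      (inv_ne_zero hg0) ?_ (neg_mem O.one_mem) ?_
    · rw [ValuationSubring.mem_nonunits_iff_or]
      right
      rw [inv_inv]
      exact h
    · rw [Derivation.leibniz_inv, hD, D2_g hJ, smul_eq_mul]
      field_simp
  · refine log_SR f g hJ _ (by rw [hD, D2_f, mul_zero]; exact zero_mem _) O hO (ιK k g) 1
      hg0 h O.one_mem ?_
    rw [hD, D2_g hJ]
    ring

theorem exists_O (hJ : br f g = 1) (hgM : ιK k g ∈ M) : ∃ O ∈ SR (RM f g M),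
    (⟨ιK k g, hgM⟩ : M) ∉ O := by
  obtain ⟨O', hO', hg⟩ := exists_pole hJ
  refine ⟨O'.comap (algebraMap M (KK k)), ⟨fun a => ?_, ⟨ιK k g, hgM⟩, g_RM hgM, ?_⟩, ?_⟩
  · rw [ValuationSubring.mem_comap]
    exact hO'.1 a
  · rw [ValuationSubring.mem_comap]
    exact hg
  · rw [ValuationSubring.mem_comap]
    exact hg

/-- all finite values are equal: contradiction -/
theorem M_caseA (hJ : br f g = 1) (hgM : ιK k g ∈ M) (h0 : Polynomial k)
    (hall : ∀ O ∈ SR (RE f), ιK k g ∈ O → ¬ Good f g M O →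
      ιK k g - ev f h0 ∈ O.nonunits)
    (O1 : ValuationSubring M) (hO1 : O1 ∈ SR (RM f g M))
    (hg1 : (⟨ιK k g, hgM⟩ : M) ∈ O1) : False := by
  obtain ⟨g', hg'⟩ : ∃ g' : PP k, g' = g - Polynomial.aeval f h0 := ⟨_, rfl⟩
  have hJ' : br f g' = 1 := by rw [hg']; exact br_shift hJ h0
  have hgg : ιK k g' = ιK k g - ev f h0 := by rw [hg', map_sub, ev_apply]
  have hevM : ev f h0 ∈ M := EF_M _ (ev_mem f h0)
  have hg'M : ιK k g' ∈ M := by rw [hgg]; exact sub_mem hgM hevM
  have hgO' : ∀ O : ValuationSubring (KK k), (∀ a : EF f, algebraMap (EF f) (KK k) a ∈ O) →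
      (ιK k g' ∈ O ↔ ιK k g ∈ O) := by
    intro O hO
    have h1 : ev f h0 ∈ O := hO ⟨_, ev_mem f h0⟩
    constructor
    · intro h
      have h2 : ιK k g = ιK k g' + ev f h0 := by rw [hgg]; ring
      rw [h2]
      exact add_mem h h1
    · intro h
      rw [hgg]
      exact sub_mem h h1
  have hgO : ∀ O : ValuationSubring M, (∀ a : EF f, algebraMap (EF f) M a ∈ O) →
      ((⟨ιK k g', hg'M⟩ : M) ∈ O ↔ (⟨ιK k g, hgM⟩ : M) ∈ O) := by
    intro O hO
    have h1 : (⟨ev f h0, hevM⟩ : M) ∈ O := hO ⟨_, ev_mem f h0⟩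
    have h2 : (⟨ιK k g', hg'M⟩ : M) = ⟨ιK k g, hgM⟩ - ⟨ev f h0, hevM⟩ := Subtype.ext hgg
    constructor
    · intro h
      have h3 : (⟨ιK k g, hgM⟩ : M) = ⟨ιK k g', hg'M⟩ + ⟨ev f h0, hevM⟩ := by
        rw [h2]; ring
      rw [h3]
      exact add_mem h h1
    · intro h
      rw [h2]
      exact sub_mem h h1
  obtain ⟨O, hO, hgOn⟩ := exists_O hJ hgM
  obtain ⟨t, ht⟩ := M_t (M := M) hJ
  have hDapp : ∀ x, (ιK k g' • D2 f) x = ιK k g' * D2 f x := fun _ => rfl
  obtain ⟨D', hD'⟩ := exists_DM hJ hgM (ιK k g' • D2 f)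
    (by rw [hDapp, D2_f, mul_zero]; exact zero_mem _)
    (by
      rw [hDapp, D2_g hJ, mul_one, hgg]
      refine sub_mem (IntermediateField.mem_adjoin_simple_self _ _) ?_
      exact (IntermediateField.adjoin (EF f) {ιK k g}).algebraMap_mem ⟨_, ev_mem f h0⟩)
  have hg'R : (⟨ιK k g', hg'M⟩ : M) ∈ RM f g M := by
    have h2 : (⟨ιK k g', hg'M⟩ : M) = ⟨ιK k g, hgM⟩ -
        algebraMap (EF f) M ⟨ev f h0, ev_mem f h0⟩ := Subtype.ext hgg
    rw [h2]
    exact sub_mem (g_RM hgM) ((RM f g M).algebraMap_mem _)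
  have htr : Transcendental (EF f) (⟨ιK k g', hg'M⟩ : M) := by
    intro h
    apply transc_g hJ'
    exact (isAlgebraic_algebraMap_iff (algebraMap M (KK k)).injective).2 h
  obtain ⟨y, hyR, a, n, ha, hn, e, he, hye⟩ := caseM1 (⟨ιK k g', hg'M⟩ : M) htr (M_hfin hJ htr) D'
    (fun a => Subtype.ext (by
      rw [hD', hDapp]
      have h1 := D2_alg hJ a
      have h2 : ((algebraMap (EF f) M a : M) : KK k) = algebraMap (EF f) (KK k) a := rfl
      rw [h2, h1, mul_zero]
      rfl))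
    (Subtype.ext (by
      rw [hD', hDapp]
      show ιK k g' * D2 f (ιK k g') = ιK k g'
      rw [D2_g hJ', mul_one]))
    (fun x hx => by
      have h1 := hD' x
      rw [hx, hDapp] at h1
      have h2 : D2 f (x : KK k) = 0 := by
        rcases mul_eq_zero.1 h1.symm with h3 | h3
        · exfalso
          apply transc_g hJ'
          rw [h3]
          exact isAlgebraic_zero
        · exact h3
      exact ⟨⟨x, (D2_ker hJ _).1 h2⟩, Subtype.ext rfl⟩)
    (RM f g M)
    (fun x hx => RM_comb hJ 0 (ιK k g') ⟨0, zero_mem _, rfl⟩ ⟨_, hg'R, rfl⟩ x hx (D' x) (by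
      rw [hD', hDapp]
      ring))
    t ht (fun N => Pen.P1.VN_finite (algCl_M hJ) (RM f g M) (SR_RM_fin hJ) t ht
      (fun O' hO' => SR_RM_resfin hJ hO') N)
    (fun x hx => exists_VN (RM f g M) (SR_RM_fin hJ) t ht x hx)
    (fun O' hO' => by
      obtain ⟨O'', h1, h2, h3⟩ := SR_RM hO'
      refine M_log M O'' O' h2 (toZ (ιK k g' • D2 f)) D' hD' (log_gD2 hJ' O'' h1 ?_)
      by_cases h4 : ιK k g ∈ O''
      · right
        rw [hgg]
        exact hall O'' h1 h4 (h3 h4)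
      · left
        rw [hgO' O'' h1.1]
        exact h4)
    O hO (fun h => hgOn ((hgO O hO.1).1 h)) (fun z hz => SR_RM_resalg hJ hO z hz)
    O1 hO1 ((hgO O1 hO1.1).2 hg1)
  refine unit_contra hJ' (y : KK k) hyR.1 n a ha (e : KK k) e.2 ?_ ?_
  · intro h
    exact he (Subtype.ext h)
  · have h1 := congrArg (algebraMap M (KK k)) hye
    rw [map_mul, map_pow, map_pow] at h1
    exact h1

end

end Pool.Agent.H928R2.Tri
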