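import Pool.Agent.H928R2.TriM1
import Pool.Agent.H928R2.TriGenAB

/-!
# Intermediate fields: the theorem at the level of places, II
-/

set_option autoImplicit false
set_option linter.unusedSectionVars false

open MvPolynomial Pool.Agent.H928R2.Inv Pool.Agent.H928R2.Pen

namespace Pool.Agent.H928R2.Tri

section
variable {k : Type*} [Field k] [CharZero k] [IsAlgClosed k] {f g : PP k}
  {M : IntermediateField (EF f) (KK k)}

/-- no place with a finite value: `M = E(g)` -/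
theorem M_caseN (hJ : br f g = 1) (hgM : ιK k g ∈ M)
    (hfin : ∀ O ∈ SR (RM f g M), (⟨ιK k g, hgM⟩ : M) ∉ O) (z : KK k) (hz : z ∈ M) :
    z ∈ IntermediateField.adjoin (EF f) {ιK k g} := by
  obtain ⟨O, hO, -⟩ := exists_O hJ hgM
  obtain ⟨t, ht⟩ := M_t (M := M) hJ
  obtain ⟨D', hD'⟩ := exists_DM hJ hgM (D2 f) (by rw [D2_f]; exact zero_mem _)
    (by rw [D2_g hJ]; exact one_mem _)
  have htr : Transcendental (EF f) (⟨ιK k g, hgM⟩ : M) := by
    intro h
    apply transc_g hJ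
    exact (isAlgebraic_algebraMap_iff (algebraMap M (KK k)).injective).2 h
  have h1 := caseN (⟨ιK k g, hgM⟩ : M) (M_hfin hJ htr) D'
    (fun a => Subtype.ext (by
      rw [hD']
      have h1 := D2_alg hJ a
      have h2 : ((algebraMap (EF f) M a : M) : KK k) = algebraMap (EF f) (KK k) a := rfl
      rw [h2, h1]
      rfl))
    (Subtype.ext (by
      rw [hD']
      show D2 f (ιK k g) = 1
      rw [D2_g hJ]))
    (fun x hx => by
      have h1 := hD' x
      rw [hx] at h1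
      exact ⟨⟨x, (D2_ker hJ _).1 h1.symm⟩, Subtype.ext rfl⟩)
    (RM f g M) (g_RM hgM) (RM_int hJ)
    (fun x hx => RM_comb hJ 0 1 ⟨0, zero_mem _, rfl⟩ ⟨1, one_mem _, rfl⟩ x hx (D' x) (by
      rw [hD']
      ring))
    t ht (fun N => Pen.P1.VN_finite (algCl_M hJ) (RM f g M) (SR_RM_fin hJ) t ht
      (fun O' hO' => SR_RM_resfin hJ hO') N)
    (fun x hx => exists_VN (RM f g M) (SR_RM_fin hJ) t ht x hx)
    (fun O' hO' => by
      obtain ⟨O'', h1, h2, h3⟩ := SR_RM hO'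
      refine M_log M O'' O' h2 (toZ (ιK k g • D2 f)) _ (fun x => ?_) (log_gD2 hJ O'' h1 (Or.inl ?_))
      · show ιK k g * (D' x : KK k) = ιK k g * D2 f x
        rw [hD']
      · intro h4
        exact hfin O' hO' ((h2 ⟨ιK k g, hgM⟩).1 h4))
    hfin O hO ⟨z, hz⟩
  have hl : IntermediateField.lift (IntermediateField.adjoin (EF f) {(⟨ιK k g, hgM⟩ : M)}) =
      IntermediateField.adjoin (EF f) {ιK k g} :=
    IntermediateField.lift_adjoin_simple (EF f) M ⟨ιK k g, hgM⟩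
  rw [← hl]
  exact ⟨⟨z, hz⟩, h1, rfl⟩

/-- the theorem at the level of places: linear vector fields -/
theorem place_M (hJ : br f g = 1) (hgM : ιK k g ∈ M) (η θ : EF f)
    (h : ∀ O ∈ SR (RE f), ιK k g ∈ O → Good f g M O ∨ LogAt O (toZ (DL f g η θ))) (z : KK k)
    (hz : z ∈ M) : z ∈ IntermediateField.adjoin (EF f) {ιK k g} := by
  by_cases hfin : ∃ O1 ∈ SR (RM f g M), (⟨ιK k g, hgM⟩ : M) ∈ O1
  swap
  · push Not at hfin
    exact M_caseN hJ hgM hfin z hz
  exfalso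
  obtain ⟨O1, hO1, hg1⟩ := hfin
  obtain ⟨O1', s1, s2, s3⟩ := SR_RM hO1
  have hg1' : ιK k g ∈ O1' := (s2 ⟨ιK k g, hgM⟩).2 hg1
  have hlog1 := (h O1' s1 hg1').resolve_left (s3 hg1')
  obtain ⟨h0, e4⟩ := exists_section f g hJ η θ O1' s1 hg1' hlog1
  obtain ⟨g', hg'⟩ : ∃ g' : PP k, g' = g - Polynomial.aeval f h0 := ⟨_, rfl⟩
  have hJ' : br f g' = 1 := by rw [hg']; exact br_shift hJ h0
  have hgg : ιK k g' = ιK k g - ev f h0 := by rw [hg', map_sub, ev_apply]
  have hDg' : DL f g η θ (ιK k g') = (η : KK k) * ιK k g' := by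
    rw [hgg, map_sub, DL_g hJ, DL_ev hJ, e4]
    ring
  have hgO : ∀ O : ValuationSubring (KK k), (∀ a : EF f, algebraMap (EF f) (KK k) a ∈ O) →
      (ιK k g' ∈ O ↔ ιK k g ∈ O) := by
    intro O hO
    have h1 : ev f h0 ∈ O := hO ⟨_, ev_mem f h0⟩
    constructor
    · intro h
      have h2 : ιK k g = ιK k g' + ev f h0 := by rw [hgg]; ring
      rw [h2]
      exact add_mem h h1
    · intro h
      rw [hgg]
      exact sub_mem h h1
  by_cases hall : ∀ O ∈ SR (RE f), ιK k g ∈ O → ¬ Good f g M O →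
      ιK k g - ev f h0 ∈ O.nonunits
  · exact M_caseA hJ hgM h0 hall O1 hO1 hg1
  push Not at hall
  obtain ⟨O2, hO2, hg2, hgood2, hg2'⟩ := hall
  rw [← hgg] at hg2'
  obtain ⟨m, P, hP0, e6⟩ := exists_pencil f g g' hJ hJ' η θ O2 hO2 ((hgO O2 hO2.1).2 hg2) hg2'
    ((h O2 hO2 hg2).resolve_left hgood2) hDg'
  have hPe : ev f P ≠ 0 := ev_ne hJ hP0
  have hDj : DL f g η θ (jn f g' P (m + 1)) = 0 := by
    unfold jn
    rw [Derivation.leibniz_div, Derivation.leibniz_pow, hDg', DL_ev hJ, e6]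
    simp only [smul_eq_mul, nsmul_eq_mul, Nat.add_sub_cancel]
    ring
  have hconst : ∀ O ∈ SR (RE f), ιK k g ∈ O → ¬ Good f g M O →
      ∃ c : k, jn f g' P (m + 1) - algebraMap k (KK k) c ∈ O.nonunits := by
    intro O hO hg3 hgood3
    have hg3' : ιK k g' ∈ O := (hgO O hO.1).2 hg3
    have hjO : jn f g' P (m + 1) ∈ O := by
      by_contra h
      exact (jn_pole hJ' hP0 (Nat.succ_pos m) O hO.1).1 h hg3'
    exact const_res O hO.1 (toZ (DL f g η θ)) ((h O hO hg3).resolve_left hgood3)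
      (fun a => ⟨⟨DL f g η θ a, DL_EF hJ _ a.2⟩, rfl⟩) (fun a ha => by
        obtain ⟨c, hc⟩ := DL_const hJ (a : KK k) a.2 ha
        exact ⟨c, Subtype.ext hc.symm⟩) _ hjO hDj (SR_resalg hJ hO _ hjO)
  -- the derivation on `M`
  have hevM : ev f h0 ∈ M := EF_M _ (ev_mem f h0)
  have hg'M : ιK k g' ∈ M := by rw [hgg]; exact sub_mem hgM hevM
  have hjM : jn f g' P (m + 1) ∈ M := div_mem (pow_mem hg'M _) (EF_M _ (ev_mem f P))
  have hcE : ev f (Polynomial.derivative P) / ev f P ∈ EF f :=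
    div_mem (ev_mem f _) (ev_mem f _)
  have hfE : ιK k f ∈ EF f := IntermediateField.mem_adjoin_simple_self k _
  have hadj : ∀ x ∈ EF f, x ∈ IntermediateField.adjoin (EF f) {ιK k g} := fun x hx =>
    (IntermediateField.adjoin (EF f) {ιK k g}).algebraMap_mem ⟨x, hx⟩
  obtain ⟨D', hD'⟩ := exists_DM hJ hgM (DN f g' P (m + 1)) (DN_EF hJ' _ hfE)
    (by
      have h2 : ιK k g = ιK k g' + ev f h0 := by rw [hgg]; ring
      have h3 : ιK k g' ∈ IntermediateField.adjoin (EF f) {ιK k g} := by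
        rw [hgg]
        exact sub_mem (IntermediateField.mem_adjoin_simple_self _ _) (hadj _ (ev_mem f h0))
      have h4 : DN f g' P (m + 1) (ιK k g) = ev f (Polynomial.derivative P) / ev f P * ιK k g' +
          DN f g' P (m + 1) (ev f h0) := by
        rw [h2, map_add, DN_g hJ']
      rw [h4]
      exact add_mem (mul_mem (hadj _ hcE) h3) (hadj _ (DN_EF hJ' _ (ev_mem f h0))))
  have hg'R : (⟨ιK k g', hg'M⟩ : M) ∈ RM f g M := by
    have h2 : (⟨ιK k g', hg'M⟩ : M) = ⟨ιK k g, hgM⟩ -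
        algebraMap (EF f) M ⟨ev f h0, ev_mem f h0⟩ := Subtype.ext hgg
    rw [h2]
    exact sub_mem (g_RM hgM) ((RM f g M).algebraMap_mem _)
  have htr : Transcendental (EF f) (⟨ιK k g', hg'M⟩ : M) := by
    intro h
    apply transc_g hJ'
    exact (isAlgebraic_algebraMap_iff (algebraMap M (KK k)).injective).2 h
  obtain ⟨O, hO, hgOn⟩ := exists_O hJ hgM
  obtain ⟨O', q1, q2, q3⟩ := SR_RM hO
  obtain ⟨t, ht⟩ := M_t (M := M) hJ
  have hgO'n : ιK k g ∉ O' := fun h => hgOn ((q2 ⟨ιK k g, hgM⟩).1 h)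
  have hg'O'n : ιK k g' ∉ O' := fun h => hgO'n ((hgO O' q1.1).1 h)
  obtain ⟨ρ, hρR, hρD, hρO⟩ := rho_ex (algCl_M hJ) (⟨ιK k g', hg'M⟩ : M) htr (M_hfin hJ htr) D'
    (fun a => ⟨⟨DN f g' P (m + 1) a, DN_EF hJ' _ a.2⟩, Subtype.ext (hD' _)⟩)
    ⟨_, hcE⟩
    (Subtype.ext (by
      rw [hD']
      show DN f g' P (m + 1) (ιK k g') = ev f (Polynomial.derivative P) / ev f P * ιK k g'
      rw [DN_g hJ']))
    (RM f g M) (RM_int hJ)
    (fun x hx => by
      refine RM_comb hJ ((m + 1 : ℕ) : KK k) (((m + 1 : ℕ) : KK k) *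
        ev f (Polynomial.derivative h0) + ev f (Polynomial.derivative P) / ev f P * ιK k g')
        ⟨((m + 1 : ℕ) : M), natCast_mem _ _, by push_cast; rfl⟩ ?_ x hx (D' x) ?_
      · refine ⟨((m + 1 : ℕ) : M) * algebraMap (EF f) M ⟨_, ev_mem f (Polynomial.derivative h0)⟩ +
          algebraMap (EF f) M ⟨_, hcE⟩ * ⟨ιK k g', hg'M⟩, ?_, ?_⟩
        · exact add_mem (mul_mem (natCast_mem _ _) ((RM f g M).algebraMap_mem _))
            (mul_mem ((RM f g M).algebraMap_mem _) hg'R)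
        · push_cast
          rfl
      · rw [hD', DN_apply, hg', D1_shift]
        push_cast
        ring)
    t ht (fun N => Pen.P1.VN_finite (algCl_M hJ) (RM f g M) (SR_RM_fin hJ) t ht
      (fun O' hO' => SR_RM_resfin hJ hO') N)
    (fun x hx => exists_VN (RM f g M) (SR_RM_fin hJ) t ht x hx)
    (fun O3 hO3 => by
      obtain ⟨O3', h1, h2, h3⟩ := SR_RM hO3
      refine M_log M O3' O3 h2 (toZ (DN f g' P (m + 1))) D' hD'
        (DN_log hJ' hP0 (Nat.succ_pos m) O3' h1 ?_)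
      by_cases h4 : ιK k g ∈ O3'
      · right
        exact hconst O3' h1 h4 (h3 h4)
      · left
        rw [hgO O3' h1.1]
        exact h4)
    (⟨_, hjM⟩ : M)
    (Subtype.ext (by
      rw [hD']
      exact DN_jn hJ' hP0 (Nat.succ_pos m)))
    O hO.1
    (fun h => hg'O'n ((q2 ⟨ιK k g', hg'M⟩).2 h))
    (fun h => (jn_pole hJ' hP0 (Nat.succ_pos m) O' q1.1).2 hg'O'n ((q2 ⟨_, hjM⟩).2 h))
    O1 hO1
  obtain ⟨c, hc⟩ := hconst O1' s1 hg1' (s3 hg1')
  refine contra_rho hJ' hP0 (Nat.succ_pos m) O1' s1.1 c hc (ρ : KK k) hρR.1 ?_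
    (fun h => hρO ((s2 ρ).1 h))
  have h5 := hD' ρ
  rw [hρD] at h5
  exact h5.symm

/-- the theorem at the level of places: vertical vector fields -/
theorem place_V (hJ : br f g = 1) (hgM : ιK k g ∈ M) (b c : Polynomial k) (hbc : b ≠ 0 ∨ c ≠ 0)
    (h : ∀ O ∈ SR (RE f), ιK k g ∈ O → Good f g M O ∨
      LogAt O (toZ ((ev f b * ιK k g + ev f c) • D2 f))) (z : KK k)
    (hz : z ∈ M) : z ∈ IntermediateField.adjoin (EF f) {ιK k g} := by
  by_cases hfin : ∃ O1 ∈ SR (RM f g M), (⟨ιK k g, hgM⟩ : M) ∈ O1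
  swap
  · push Not at hfin
    exact M_caseN hJ hgM hfin z hz
  exfalso
  obtain ⟨O1, hO1, hg1⟩ := hfin
  obtain ⟨O1', s1, s2, s3⟩ := SR_RM hO1
  have hg1' : ιK k g ∈ O1' := (s2 ⟨ιK k g, hgM⟩).2 hg1
  have hsmall : ∀ O ∈ SR (RE f), ιK k g ∈ O → ¬ Good f g M O →
      ev f b * ιK k g + ev f c ∈ O.nonunits := by
    intro O hO hg hgood
    have h1 := log_small O hO.1 (fun z hz => SR_resalg hJ hO z hz)
      (toZ ((ev f b * ιK k g + ev f c) • D2 f)) (fun x => by
        show (ev f b * ιK k g + ev f c) * D2 f (algebraMap (EF f) (KK k) x) = 0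
        rw [D2_alg hJ, mul_zero]) ((h O hO hg).resolve_left hgood) _ hg
    have h2 : toZ ((ev f b * ιK k g + ev f c) • D2 f) (ιK k g) =
        ev f b * ιK k g + ev f c := by
      show (ev f b * ιK k g + ev f c) * D2 f (ιK k g) = _
      rw [D2_g hJ, mul_one]
    rw [h2] at h1
    exact h1
  have h1 := hsmall O1' s1 hg1' (s3 hg1')
  by_cases hb : b = 0
  · have hc : c ≠ 0 := by
      rcases hbc with h | h
      · exact absurd hb h
      · exact h
    rw [hb, map_zero, zero_mul, zero_add] at h1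
    have h4 := unit_mul s1.1 (ev_mem f c) (ev_ne hJ hc) (z := 1) (by rwa [mul_one])
    exact nu_one _ h4
  · have hb0 : ev f b ≠ 0 := ev_ne hJ hb
    obtain ⟨μ, m1, m2, m3, m4, m5⟩ := exists_min_int f g hJ O1' s1 hg1'
    have hbE : ev f c / ev f b ∈ EF f := div_mem (ev_mem f _) (ev_mem f _)
    have h6 : ev f b * ιK k g + ev f c = ev f b * (ιK k g + ev f c / ev f b) := by
      field_simp
    have h7 : ∀ O ∈ SR (RE f), ιK k g ∈ O → ¬ Good f g M O →
        ιK k g + ev f c / ev f b ∈ O.nonunits := by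
      intro O hO hg hgood
      refine unit_mul hO.1 (ev_mem f b) hb0 ?_
      rw [← h6]
      exact hsmall O hO hg hgood
    have h8 : μ ∣ Polynomial.X + Polynomial.C (⟨_, hbE⟩ : EF f) := by
      apply m4
      rw [map_add, Polynomial.aeval_X, Polynomial.aeval_C]
      exact h7 O1' s1 hg1' (s3 hg1')
    have h9 : μ = Polynomial.X + Polynomial.C (⟨_, hbE⟩ : EF f) := by
      have h10 : (Polynomial.X + Polynomial.C (⟨_, hbE⟩ : EF f)).Monic :=
        Polynomial.monic_X_add_C _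
      have h11 : (Polynomial.X + Polynomial.C (⟨_, hbE⟩ : EF f)).natDegree ≤ μ.natDegree := by
        rw [Polynomial.natDegree_X_add_C]
        exact m2
      exact (Polynomial.eq_of_monic_of_dvd_of_natDegree_le m1 h10 h8 h11).symm
    obtain ⟨γ, hγ⟩ := m5 0
    have h12 : ev f γ = ev f c / ev f b := by
      rw [h9, Polynomial.coeff_add, Polynomial.coeff_X_zero, Polynomial.coeff_C_zero,
        zero_add] at hγ
      exact (congrArg (algebraMap (EF f) (KK k)) hγ).symm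
    refine M_caseA hJ hgM (-γ) (fun O hO hg hgood => ?_) O1 hO1 hg1
    rw [map_neg, sub_neg_eq_add, h12]
    exact h7 O hO hg hgood

end

end Pool.Agent.H928R2.Tri
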