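import Pool.Agent.H928R2.TriMainL
import Pool.Agent.H922R2.L9

/-!
# Jacobian pairs whose non-properness curve is invariant under a linear vector field:
changing the coordinates of the target, retracts
-/

set_option autoImplicit false
set_option linter.unusedSectionVars false

open MvPolynomial Pool.Agent.H928R2.Inv Pool.Agent.H928R2.Pen

namespace Pool.Agent.H928R2.Tri

section
variable {k : Type*} [Field k] [CharZero k]

open Pool.Agent.H922R2 in
/-- the curve is invariant under a linear vector field, in some coordinates of the target -/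
theorem main_lin_aut (F : Fin 2 → PP k) (hJ : IsUnit (jac F).det) (D : PP k) (hD : D ≠ 0)
    (hint : ∀ i, ∃ N : ℕ, IsIntegral (Algebra.adjoin k (Set.range F)) ((aeval F D) ^ N * X i))
    (Ψ : PP k ≃ₐ[k] PP k) (a b c : Polynomial k) (habc : a ≠ 0 ∨ b ≠ 0 ∨ c ≠ 0)
    (hdvd : Ψ D ∣ Polynomial.aeval (X 0) a * pderiv 0 (Ψ D) +
      (Polynomial.aeval (X 0) b * X 1 + Polynomial.aeval (X 0) c) * pderiv 1 (Ψ D)) :
    Pool.Agent.H922R2.SS F = ⊤ := by
  obtain ⟨F', hF'⟩ : ∃ F' : Fin 2 → PP k, F' = fun i => aeval F (Ψ.symm (X i)) := ⟨_, rfl⟩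
  have hev : ∀ p : PP k, aeval F' p = aeval F (Ψ.symm p) := by
    intro p
    have h1 : (aeval F' : PP k →ₐ[k] PP k) =
        (aeval F : PP k →ₐ[k] PP k).comp (Ψ.symm : PP k →ₐ[k] PP k) := by
      apply MvPolynomial.algHom_ext
      intro i
      rw [aeval_X, hF']
      rfl
    rw [h1]
    rfl
  have hSS : Pool.Agent.H922R2.SS F' = Pool.Agent.H922R2.SS F := by
    apply le_antisymm
    · rintro _ ⟨p, rfl⟩
      exact ⟨Ψ.symm p, (hev p).symm⟩
    · rintro _ ⟨p, rfl⟩
      refine ⟨Ψ p, ?_⟩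
      show aeval F' (Ψ p) = aeval F p
      rw [hev, AlgEquiv.symm_apply_apply]
  have hadj : Algebra.adjoin k (Set.range F') = Algebra.adjoin k (Set.range F) := by
    rw [Algebra.adjoin_range_eq_range_aeval, Algebra.adjoin_range_eq_range_aeval]
    exact hSS
  have hJ1 : IsUnit (jac (fun i => Ψ.symm (X i) : Fin 2 → PP k)).det := by
    apply jac_comp Ψ.symm (X : Fin 2 → PP k)
    have h1 : (jac (X : Fin 2 → PP k)).det = 1 := by
      rw [Matrix.det_fin_two]
      simp [pderiv_X]
    rw [h1]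
    exact isUnit_one
  have hJ' : IsUnit (jac F').det := by
    rw [det_jac, hF', DJ_aeval, ← det_jac]
    refine IsUnit.mul ?_ hJ
    rw [det_jac] at hJ1
    exact hJ1.map _
  rw [← hSS]
  refine main_lin F' hJ' (Ψ D) ?_ ?_ a b c habc hdvd
  · exact (map_ne_zero_iff _ Ψ.injective).2 hD
  · intro i
    obtain ⟨N, hN⟩ := hint i
    refine ⟨N, ?_⟩
    rw [hev, AlgEquiv.symm_apply_apply, hadj]
    exact hN

/-- components of an automorphism generate retracts -/
theorem retract_of_top (F : Fin 2 → PP k) (hJ : IsUnit (Pool.Agent.H922R2.jac F).det)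
    (h : Pool.Agent.H922R2.SS F = ⊤) (j : Fin 2) :
    ∃ φ : PP k →ₐ[k] PP k, φ.comp φ = φ ∧ φ.range = Algebra.adjoin k {F j} := by
  classical
  have hbij : Function.Bijective (aeval F : PP k →ₐ[k] PP k) := by
    refine ⟨Pool.Agent.H922R2.aeval_injective F hJ, fun p => ?_⟩
    have h1 : p ∈ Pool.Agent.H922R2.SS F := by rw [h]; trivial
    exact h1
  let e : PP k ≃ₐ[k] PP k := AlgEquiv.ofBijective (aeval F) hbij
  have he : ∀ p, e p = aeval F p := fun _ => rfl
  let ρ : PP k →ₐ[k] PP k := aeval (fun i => if i = j then X j else 0)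
  have hρj : ρ (X j) = X j := by
    show aeval _ (X j) = _
    rw [aeval_X, if_pos rfl]
  have hρρ : ρ.comp ρ = ρ := by
    apply MvPolynomial.algHom_ext
    intro i
    show ρ (ρ (X i)) = ρ (X i)
    by_cases hij : i = j
    · rw [hij, hρj, hρj]
    · have h0 : ρ (X i) = 0 := by
        show aeval _ (X i) = _
        rw [aeval_X, if_neg hij]
      rw [h0, map_zero]
  have hρρ' : ∀ p, ρ (ρ p) = ρ p := fun p => by
    have := congrArg (fun φ : PP k →ₐ[k] PP k => φ p) hρρ
    exact this
  have hρr : ρ.range = Algebra.adjoin k {(X j : PP k)} := by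
    have h1 : ρ.range = Algebra.adjoin k (Set.range fun i : Fin 2 => if i = j then (X j : PP k) else 0) :=
      (Algebra.adjoin_range_eq_range_aeval k _).symm
    rw [h1]
    apply le_antisymm
    · rw [Algebra.adjoin_le_iff]
      rintro _ ⟨i, rfl⟩
      by_cases hij : i = j
      · simp only [hij, if_true]
        exact Algebra.subset_adjoin rfl
      · simp only [hij, if_false]
        exact Subalgebra.zero_mem _
    · rw [Algebra.adjoin_le_iff]
      rintro _ rfl
      exact Algebra.subset_adjoin ⟨j, by simp⟩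
  refine ⟨(e : PP k →ₐ[k] PP k).comp (ρ.comp (e.symm : PP k →ₐ[k] PP k)), ?_, ?_⟩
  · ext1 i
    show e (ρ (e.symm (e (ρ (e.symm (X i)))))) = e (ρ (e.symm (X i)))
    rw [AlgEquiv.symm_apply_apply, hρρ']
  · have h2 : Algebra.adjoin k {F j} = (Algebra.adjoin k {(X j : PP k)}).map (e : PP k →ₐ[k] PP k) := by
      rw [AlgHom.map_adjoin, Set.image_singleton]
      congr 2
      show F j = aeval F (X j)
      rw [aeval_X]
    rw [h2, ← hρr]
    ext x
    constructor
    · rintro ⟨p, rfl⟩
      exact ⟨ρ (e.symm p), ⟨e.symm p, rfl⟩, rfl⟩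
    · rintro ⟨_, ⟨p, rfl⟩, rfl⟩
      refine ⟨e p, ?_⟩
      show e (ρ (e.symm (e p))) = e (ρ p)
      rw [AlgEquiv.symm_apply_apply]

end

end Pool.Agent.H928R2.Tri
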