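import Pool.Agent.H928R2.TriM2
import Pool.Agent.H928R2.TriMainT
import Pool.Agent.H928R2.TriGood
import Pool.Agent.H928R2.TriFixed
import Pool.Agent.H928R2.TriIntD
import Pool.Agent.H928R2.TriFieldD
import Pool.Agent.H928R2.TriAct

/-!
# Branch curves invariant under a linear vector field
-/

set_option autoImplicit false
set_option linter.unusedSectionVars false

open MvPolynomial Pool.Agent.H928R2.Inv Pool.Agent.H928R2.Pen

namespace Pool.Agent.H928R2.Tri

/-- integrality and ring homomorphisms -/
theorem int_map {k k' A B : Type*} [Field k] [Field k'] [CommRing A] [CommRing B] [Algebra k A]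
    [Algebra k' B] (S : Subalgebra k A) (T : Subalgebra k' B) (φ : A →+* B)
    (h : ∀ s ∈ S, φ s ∈ T) (b : A) (hb : IsIntegral S b) : IsIntegral T (φ b) := by
  let ψ : S →+* T := (φ.comp (algebraMap S A)).codRestrict T (fun s => h s s.2)
  obtain ⟨p, hp, hpb⟩ := hb
  refine ⟨p.map ψ, hp.map _, ?_⟩
  rw [Polynomial.eval₂_map]
  have h1 : (algebraMap T B).comp ψ = φ.comp (algebraMap S A) := by
    ext s
    rfl
  rw [h1, ← Polynomial.hom_eval₂, hpb, map_zero]

section
variable {k : Type*} [Field k] [CharZero k]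

open Pool.Agent.H922R2 in
/-- the étaleness hypothesis passes to the algebraic closure -/
theorem etale_up (F : Fin 2 → PP k) (M : IntermediateField k (KK k)) (D : PP k)
    (het : ∀ b : PP k, ιK k b ∈ M → IsIntegral (Algebra.adjoin k (Set.range F)) b →
      ∀ j, ∃ N : ℕ, IsIntegral (Algebra.adjoin k (Set.range F))
        ((aeval F D) ^ N * br (F j) b))
    (b : PP (AlgebraicClosure k))
    (hbM : ιK (AlgebraicClosure k) b ∈ IntermediateField.adjoin (AlgebraicClosure k)
      ((frM k (AlgebraicClosure k)) '' (M : Set (KK k))))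
    (hb : IsIntegral (Algebra.adjoin (AlgebraicClosure k)
      (Set.range fun i => mE k (AlgebraicClosure k) (Fin 2) (F i))) b) (j : Fin 2) :
    ∃ N : ℕ, IsIntegral (Algebra.adjoin (AlgebraicClosure k)
      (Set.range fun i => mE k (AlgebraicClosure k) (Fin 2) (F i)))
        ((mE k (AlgebraicClosure k) (Fin 2) (aeval F D)) ^ N *
          br (mE k (AlgebraicClosure k) (Fin 2) (F j)) b) := by
  obtain ⟨S, hS⟩ : ∃ S, S = Algebra.adjoin (AlgebraicClosure k)
      (Set.range fun i => mE k (AlgebraicClosure k) (Fin 2) (F i)) := ⟨_, rfl⟩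
  obtain ⟨M', hM'⟩ : ∃ M', M' = IntermediateField.adjoin (AlgebraicClosure k)
      ((frM k (AlgebraicClosure k)) '' (M : Set (KK k))) := ⟨_, rfl⟩
  obtain ⟨w, hw⟩ : ∃ w, w = mE k (AlgebraicClosure k) (Fin 2) (aeval F D) := ⟨_, rfl⟩
  rw [← hS] at hb
  rw [← hM'] at hbM
  rw [← hS, ← hw]
  have hwS : w ∈ S := by
    have h1 : w = aeval (fun i => mE k (AlgebraicClosure k) (Fin 2) (F i))
        (mE k (AlgebraicClosure k) (Fin 2) D) := by
      rw [hw, mE_aeval]
    rw [h1, hS, Algebra.adjoin_range_eq_range_aeval]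
    exact ⟨_, rfl⟩
  have hCS : ∀ c : AlgebraicClosure k, (C c : PP (AlgebraicClosure k)) ∈ S := fun c =>
    S.algebraMap_mem c
  have hFS : ∀ i, mE k (AlgebraicClosure k) (Fin 2) (F i) ∈ S := by
    intro i
    rw [hS]
    exact Algebra.subset_adjoin ⟨i, rfl⟩
  have hsub : ∀ s ∈ Algebra.adjoin k (Set.range F), mE k (AlgebraicClosure k) (Fin 2) s ∈ S := by
    intro s hs
    induction hs using Algebra.adjoin_induction with
    | mem x hx =>
      obtain ⟨i, rfl⟩ := hx
      exact hFS i
    | algebraMap c =>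
      rw [MvPolynomial.algebraMap_eq, mE, map_C]
      exact hCS _
    | add x y _ _ hx hy => rw [map_add]; exact add_mem hx hy
    | mul x y _ _ hx hy => rw [map_mul]; exact mul_mem hx hy
  have hcI : ∀ s ∈ S, IsIntegral S s := fun s hs => isIntegral_algebraMap (x := (⟨s, hs⟩ : S))
  have hcC : ∀ c : AlgebraicClosure k, IsIntegral S (C c : PP (AlgebraicClosure k)) :=
    fun c => hcI _ (hCS c)
  let V : Submodule (AlgebraicClosure k) (PP (AlgebraicClosure k)) :=
    { carrier := {b | IsIntegral S b ∧ ιK (AlgebraicClosure k) b ∈ M'}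
      add_mem' := fun ha hb => ⟨ha.1.add hb.1, by rw [map_add]; exact add_mem ha.2 hb.2⟩
      zero_mem' := ⟨isIntegral_zero, by rw [map_zero]; exact zero_mem _⟩
      smul_mem' := fun c x hx => ⟨by
        rw [MvPolynomial.smul_eq_C_mul]
        exact (hcC c).mul hx.1, by
        rw [map_smul]
        exact M'.smul_mem hx.2⟩ }
  have hV : ∀ σ : AlgebraicClosure k ≃ₐ[k] AlgebraicClosure k, ∀ b ∈ V,
      MvPolynomial.map (σ : AlgebraicClosure k →+* AlgebraicClosure k) b ∈ V := by
    intro σ b hb
    obtain ⟨A, hA1, hA2⟩ := exists_act σ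
    have hσF : ∀ i, MvPolynomial.map (σ : AlgebraicClosure k →+* AlgebraicClosure k)
        (mE k (AlgebraicClosure k) (Fin 2) (F i)) = mE k (AlgebraicClosure k) (Fin 2) (F i) := by
      intro i
      unfold mE
      rw [MvPolynomial.map_map]
      have hc : ((σ : AlgebraicClosure k →+* AlgebraicClosure k).comp
          (algebraMap k (AlgebraicClosure k))) = algebraMap k (AlgebraicClosure k) := by
        apply RingHom.ext
        intro c
        exact σ.commutes c
      rw [hc]
    refine ⟨int_map S S (MvPolynomial.map (σ : AlgebraicClosure k →+* AlgebraicClosure k))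
      ?_ b hb.1, ?_⟩
    · intro s hs
      rw [hS] at hs
      induction hs using Algebra.adjoin_induction with
      | mem x hx =>
        obtain ⟨i, rfl⟩ := hx
        rw [hσF i]
        exact hFS i
      | algebraMap c =>
        rw [MvPolynomial.algebraMap_eq, map_C]
        exact hCS _
      | add x y _ _ hx hy => rw [map_add]; exact add_mem hx hy
      | mul x y _ _ hx hy => rw [map_mul]; exact mul_mem hx hy
    · rw [← hA1]
      have hAM : ∀ x ∈ M', A x ∈ M' := by
        intro x hx
        rw [hM'] at hx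
        induction hx using IntermediateField.adjoin_induction with
        | mem x hx =>
          obtain ⟨m, hm, rfl⟩ := hx
          rw [hA2, hM']
          exact IntermediateField.subset_adjoin _ _ ⟨m, hm, rfl⟩
        | algebraMap c =>
          have h1 : algebraMap (AlgebraicClosure k) (KK (AlgebraicClosure k)) c =
              ιK (AlgebraicClosure k) (C c) := by
            rw [← MvPolynomial.algebraMap_eq, AlgHom.commutes]
          have h2 : A (algebraMap (AlgebraicClosure k) (KK (AlgebraicClosure k)) c) =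
              algebraMap (AlgebraicClosure k) (KK (AlgebraicClosure k)) (σ c) := by
            rw [h1, hA1, map_C, ← MvPolynomial.algebraMap_eq, AlgHom.commutes]
            rfl
          rw [h2]
          exact M'.algebraMap_mem _
        | add x y _ _ hx hy => rw [map_add]; exact add_mem hx hy
        | inv x _ hx => rw [map_inv₀]; exact inv_mem hx
        | mul x y _ _ hx hy => rw [map_mul]; exact mul_mem hx hy
      exact hAM _ hb.2
  have hspan := span_fixed V hV (show b ∈ V from ⟨hb, hbM⟩)
  clear hb hbM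
  induction hspan using Submodule.span_induction with
  | mem x hx =>
    obtain ⟨⟨h1, h2⟩, b0, rfl⟩ := hx
    have h3 : IsIntegral (Algebra.adjoin k (Set.range F)) b0 := by
      rw [hS] at h1
      exact int_descent F b0 h1
    have h4 : ιK k b0 ∈ M := by
      apply field_descent
      rw [frM_ι, ← hM']
      exact h2
    obtain ⟨N, hN⟩ := het b0 h4 h3 j
    refine ⟨N, ?_⟩
    have h5 := int_map (Algebra.adjoin k (Set.range F)) S
      (mE k (AlgebraicClosure k) (Fin 2) : PP k →+* PP (AlgebraicClosure k)) hsub _ hN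
    have h6 : ∀ p q : PP k, mE k (AlgebraicClosure k) (Fin 2) (br p q) =
        br (mE k (AlgebraicClosure k) (Fin 2) p) (mE k (AlgebraicClosure k) (Fin 2) q) := by
      intro p q
      unfold br
      simp only [map_sub, map_mul, mE, MvPolynomial.pderiv_map]
    have h7 : (mE k (AlgebraicClosure k) (Fin 2) : PP k →+* PP (AlgebraicClosure k))
        ((aeval F D) ^ N * br (F j) b0) = w ^ N * br (mE k (AlgebraicClosure k) (Fin 2) (F j))
          (mE k (AlgebraicClosure k) (Fin 2) b0) := by
      rw [map_mul, map_pow, hw, ← h6]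
    rw [← h7]
    exact h5
  | zero =>
    refine ⟨0, ?_⟩
    have h1 : br (mE k (AlgebraicClosure k) (Fin 2) (F j)) 0 = 0 := by
      rw [← dd_br, map_zero]
    rw [h1, mul_zero]
    exact isIntegral_zero
  | add x y _ _ hx hy =>
    obtain ⟨N1, h1⟩ := hx
    obtain ⟨N2, h2⟩ := hy
    refine ⟨N1 + N2, ?_⟩
    have h3 : w ^ (N1 + N2) * br (mE k (AlgebraicClosure k) (Fin 2) (F j)) (x + y) =
        w ^ N2 * (w ^ N1 * br (mE k (AlgebraicClosure k) (Fin 2) (F j)) x) +
        w ^ N1 * (w ^ N2 * br (mE k (AlgebraicClosure k) (Fin 2) (F j)) y) := by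
      rw [← dd_br, ← dd_br, ← dd_br, map_add]
      ring
    rw [h3]
    exact ((hcI _ (pow_mem hwS N2)).mul h1).add ((hcI _ (pow_mem hwS N1)).mul h2)
  | smul c x _ hx =>
    obtain ⟨N, h1⟩ := hx
    refine ⟨N, ?_⟩
    have h3 : w ^ N * br (mE k (AlgebraicClosure k) (Fin 2) (F j)) (c • x) =
        C c * (w ^ N * br (mE k (AlgebraicClosure k) (Fin 2) (F j)) x) := by
      rw [← dd_br, ← dd_br, Derivation.map_smul, MvPolynomial.smul_eq_C_mul]
      ring
    rw [h3]
    exact (hcC c).mul h1

end

end Pool.Agent.H928R2.Tri
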