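import Pool.Agent.H928R2.TriM3

/-!
# Branch curves invariant under a linear vector field: the main theorem
-/

set_option autoImplicit false
set_option linter.unusedSectionVars false

open MvPolynomial Pool.Agent.H928R2.Inv Pool.Agent.H928R2.Pen

namespace Pool.Agent.H928R2.Tri

section
variable {k : Type*} [Field k] [CharZero k]

open Pool.Agent.H922R2 in
/-- the branch curve of an intermediate field is invariant under a linear vector field -/
theorem main_M (F : Fin 2 → PP k) (hJ : IsUnit (jac F).det) (M : IntermediateField k (KK k))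
    (hFM : ∀ i, ιK k (F i) ∈ M) (D : PP k) (hD : D ≠ 0)
    (het : ∀ b : PP k, ιK k b ∈ M → IsIntegral (Algebra.adjoin k (Set.range F)) b →
      ∀ j, ∃ N : ℕ, IsIntegral (Algebra.adjoin k (Set.range F))
        ((aeval F D) ^ N * br (F j) b))
    (a b c : Polynomial k) (habc : a ≠ 0 ∨ b ≠ 0 ∨ c ≠ 0)
    (hdvd : D ∣ Polynomial.aeval (X 0) a * pderiv 0 D +
      (Polynomial.aeval (X 0) b * X 1 + Polynomial.aeval (X 0) c) * pderiv 1 D)
    (z : KK k) (hz : z ∈ M) : z ∈ IntermediateField.adjoin k {ιK k (F 0), ιK k (F 1)} := by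
  obtain ⟨e, he⟩ := hdvd
  obtain ⟨u, g, hu, hF1, hbr⟩ := exists_normal (K := AlgebraicClosure k) F hJ
  obtain ⟨f, hf⟩ : ∃ f : PP (AlgebraicClosure k), f = mE k (AlgebraicClosure k) (Fin 2) (F 0) :=
    ⟨_, rfl⟩
  rw [← hf] at hbr
  have hinj := (algebraMap k (AlgebraicClosure k)).injective
  have hcu : algebraMap (AlgebraicClosure k) (KK (AlgebraicClosure k)) u ≠ 0 :=
    (map_ne_zero _).2 hu
  have hφ0 : φK k (AlgebraicClosure k) (F 0) = ιK (AlgebraicClosure k) f := by
    rw [hf]
    rfl
  have hφ1 : φK k (AlgebraicClosure k) (F 1) =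
      algebraMap (AlgebraicClosure k) (KK (AlgebraicClosure k)) u *
        ιK (AlgebraicClosure k) g := by
    show ιK (AlgebraicClosure k) (mE k (AlgebraicClosure k) (Fin 2) (F 1)) = _
    rw [hF1, map_mul, ← MvPolynomial.algebraMap_eq, AlgHom.commutes]
  have hφfr : ∀ p : PP k, frM k (AlgebraicClosure k) (ιK k p) = φK k (AlgebraicClosure k) p :=
    fun p => frM_ι k (AlgebraicClosure k) p
  have hne : φK k (AlgebraicClosure k) (aeval F D) ≠ 0 := by
    intro h
    apply hD
    apply aeval_injective F hJ
    rw [map_zero]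
    apply φK_inj (K := AlgebraicClosure k)
    rw [h, map_zero]
  have hgO : ∀ O ∈ SR (RE f), ιK (AlgebraicClosure k) g ∈ O →
      φK k (AlgebraicClosure k) (F 1) ∈ O := by
    intro O hO hg
    rw [hφ1]
    exact mul_mem (hO.1 ⟨_, IntermediateField.algebraMap_mem _ u⟩) hg
  -- the intermediate field upstairs
  have hNf : ∀ N : IntermediateField k (KK k), (∀ i, ιK k (F i) ∈ N) →
      ιK (AlgebraicClosure k) f ∈ IntermediateField.adjoin (AlgebraicClosure k)
        ((frM k (AlgebraicClosure k)) '' (N : Set (KK k))) := by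
    intro N hN
    apply IntermediateField.subset_adjoin
    exact ⟨ιK k (F 0), hN 0, by rw [hφfr, hφ0]⟩
  have hNg : ∀ N : IntermediateField k (KK k), (∀ i, ιK k (F i) ∈ N) →
      ιK (AlgebraicClosure k) g ∈ IntermediateField.adjoin (AlgebraicClosure k)
        ((frM k (AlgebraicClosure k)) '' (N : Set (KK k))) := by
    intro N hN
    have h1 : ιK (AlgebraicClosure k) g =
        (algebraMap (AlgebraicClosure k) (KK (AlgebraicClosure k)) u)⁻¹ *
          φK k (AlgebraicClosure k) (F 1) := by
      rw [hφ1]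
      field_simp
    rw [h1]
    refine mul_mem (inv_mem (IntermediateField.algebraMap_mem _ _)) ?_
    apply IntermediateField.subset_adjoin
    exact ⟨ιK k (F 1), hN 1, by rw [hφfr]⟩
  have hNE : ∀ N : IntermediateField k (KK k), (∀ i, ιK k (F i) ∈ N) →
      EF f ≤ IntermediateField.adjoin (AlgebraicClosure k)
        ((frM k (AlgebraicClosure k)) '' (N : Set (KK k))) := by
    intro N hN
    rw [IntermediateField.adjoin_simple_le_iff]
    exact hNf N hN
  obtain ⟨M', hM'⟩ : ∃ M', M' = IntermediateField.extendScalars (hNE M hFM) := ⟨_, rfl⟩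
  have hmem : ∀ x, x ∈ M' ↔ x ∈ IntermediateField.adjoin (AlgebraicClosure k)
      ((frM k (AlgebraicClosure k)) '' (M : Set (KK k))) := by
    intro x
    rw [hM']
    exact IntermediateField.mem_extendScalars _
  have hgM : ιK (AlgebraicClosure k) g ∈ M' := (hmem _).2 (hNg M hFM)
  -- the final descent
  suffices hmain : ∀ x ∈ M', x ∈ IntermediateField.adjoin (EF f) {ιK (AlgebraicClosure k) g} by
    have hM0 : ∀ i, ιK k (F i) ∈ IntermediateField.adjoin k {ιK k (F 0), ιK k (F 1)} := by
      intro i
      apply IntermediateField.subset_adjoin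
      fin_cases i
      · exact Set.mem_insert _ _
      · exact Set.mem_insert_of_mem _ rfl
    apply field_descent
    have h1 := hmain (frM k (AlgebraicClosure k) z)
      ((hmem _).2 (IntermediateField.subset_adjoin _ _ ⟨z, hz, rfl⟩))
    generalize frM k (AlgebraicClosure k) z = x at h1 ⊢
    induction h1 using IntermediateField.adjoin_induction with
    | mem x hx =>
      rw [Set.mem_singleton_iff] at hx
      rw [hx]
      exact hNg _ hM0
    | algebraMap x => exact hNE _ hM0 x.2
    | add x y _ _ hx hy => exact add_mem hx hy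
    | inv x _ hx => exact inv_mem hx
    | mul x y _ _ hx hy => exact mul_mem hx hy
  -- good places
  obtain ⟨w, hw⟩ : ∃ w, w = mE k (AlgebraicClosure k) (Fin 2) (aeval F D) := ⟨_, rfl⟩
  have hwφ : φK k (AlgebraicClosure k) (aeval F D) = ιK (AlgebraicClosure k) w := by
    rw [hw]
    rfl
  have hCu : (C u⁻¹ * C u : PP (AlgebraicClosure k)) = 1 := by
    rw [← C_mul, inv_mul_cancel₀ hu, C_1]
  have hadj : Algebra.adjoin (AlgebraicClosure k) {f, g} = Algebra.adjoin (AlgebraicClosure k)
      (Set.range fun i => mE k (AlgebraicClosure k) (Fin 2) (F i)) := by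
    apply le_antisymm
    · rw [Algebra.adjoin_le_iff]
      rintro x (rfl | hx)
      · rw [hf]
        exact Algebra.subset_adjoin ⟨0, rfl⟩
      · rw [Set.mem_singleton_iff] at hx
        have h1 : x = C u⁻¹ * mE k (AlgebraicClosure k) (Fin 2) (F 1) := by
          rw [hF1, ← mul_assoc, hCu, one_mul, hx]
        rw [h1]
        exact mul_mem (Subalgebra.algebraMap_mem _ _) (Algebra.subset_adjoin ⟨1, rfl⟩)
    · rw [Algebra.adjoin_le_iff]
      rintro _ ⟨i, rfl⟩
      fin_cases i
      · show mE k (AlgebraicClosure k) (Fin 2) (F 0) ∈ _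
        rw [← hf]
        exact Algebra.subset_adjoin (Set.mem_insert _ _)
      · show mE k (AlgebraicClosure k) (Fin 2) (F 1) ∈ _
        rw [hF1]
        exact mul_mem (Subalgebra.algebraMap_mem _ _)
          (Algebra.subset_adjoin (Set.mem_insert_of_mem _ rfl))
  have hgood : ∀ O ∈ SR (RE f), ιK (AlgebraicClosure k) g ∈ O →
      ιK (AlgebraicClosure k) w ∉ O.nonunits → Good f g M' O := by
    intro O hO hg hwn x hxM hxO
    have hO' : O ∈ SR (RE (mE k (AlgebraicClosure k) (Fin 2) (F 0))) := by rw [← hf]; exact hO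
    have hwO : ιK (AlgebraicClosure k) w ∈ O := by
      rw [← hwφ]
      exact place_mem F O hO' (hgO O hO hg) D
    refine ⟨good_of f g hbr M' hgM w (D1 g) (fun b hbM hb => ?_) O hO.1 hg hwO hwn x hxM hxO,
      good_of f g hbr M' hgM w (D2 f) (fun b hbM hb => ?_) O hO.1 hg hwO hwn x hxM hxO⟩
    · rw [hadj] at hb ⊢
      obtain ⟨N, hN⟩ := etale_up F M D het b ((hmem _).1 hbM) hb 1
      rw [← hw, hF1] at hN
      refine ⟨N, w ^ N * br b g, ?_, ?_⟩
      · have h1 : w ^ N * br b g = C (-u⁻¹) * (w ^ N * br (C u * g) b) := by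
          have h2 : br (C u * g) b = -(C u * br b g) := by
            unfold br
            simp only [Derivation.leibniz, pderiv_C, smul_eq_mul, mul_zero, add_zero]
            ring
          rw [h2, map_neg]
          linear_combination (-(w ^ N * br b g)) * hCu
        rw [h1]
        exact (isIntegral_algebraMap (x := (⟨C (-u⁻¹), Subalgebra.algebraMap_mem _ _⟩ :
          Algebra.adjoin (AlgebraicClosure k)
            (Set.range fun i => mE k (AlgebraicClosure k) (Fin 2) (F i))))).mul hN
      · rw [D1_ι, map_mul, map_pow]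
    · rw [hadj] at hb ⊢
      obtain ⟨N, hN⟩ := etale_up F M D het b ((hmem _).1 hbM) hb 0
      rw [← hw, ← hf] at hN
      exact ⟨N, w ^ N * br f b, hN, by rw [D2_ι, map_mul, map_pow]⟩
  -- the relation at the level of fields
  have hrel := congrArg (fun p => φK k (AlgebraicClosure k) (aeval F p)) he
  simp only [map_add, map_mul, aeval_X, φK_aeval_poly, ← hf] at hrel
  set A := ev f (a.map (algebraMap k (AlgebraicClosure k))) with hA
  set B := ev f (b.map (algebraMap k (AlgebraicClosure k))) with hB
  set C' := ev f (c.map (algebraMap k (AlgebraicClosure k))) with hC'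
  have hAE : A ∈ EF f := ev_mem f _
  have hBE : B ∈ EF f := ev_mem f _
  have hCE : C' ∈ EF f := ev_mem f _
  have huE : algebraMap (AlgebraicClosure k) (KK (AlgebraicClosure k)) u ∈ EF f :=
    IntermediateField.algebraMap_mem _ u
  by_cases ha : a = 0
  · -- vertical vector field
    have hA0 : A = 0 := by rw [hA, ha, Polynomial.map_zero, map_zero]
    rw [hA0, zero_mul, zero_add] at hrel
    have hCuev : ev f (Polynomial.C u) =
        algebraMap (AlgebraicClosure k) (KK (AlgebraicClosure k)) u := by
      rw [ev_eq, Polynomial.aeval_C]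
    let Δ : Derivation (AlgebraicClosure k) (KK (AlgebraicClosure k)) (KK (AlgebraicClosure k)) :=
      (ev f (b.map (algebraMap k (AlgebraicClosure k)) * Polynomial.C u) *
        ιK (AlgebraicClosure k) g + ev f (c.map (algebraMap k (AlgebraicClosure k)))) • D2 f
    have hΔ0 : ev f (b.map (algebraMap k (AlgebraicClosure k)) * Polynomial.C u) *
        ιK (AlgebraicClosure k) g + ev f (c.map (algebraMap k (AlgebraicClosure k))) =
        B * φK k (AlgebraicClosure k) (F 1) + C' := by
      rw [map_mul, hCuev, hφ1, hB, hC']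
      ring
    have hΔ : ∀ x, Δ x = (B * φK k (AlgebraicClosure k) (F 1) + C') * D2 f x := fun x => by
      rw [← hΔ0]
      rfl
    have hΔf : Δ (ιK (AlgebraicClosure k) f) = 0 := by rw [hΔ, D2_f, mul_zero]
    have hΔg : Δ (ιK (AlgebraicClosure k) g) = B * φK k (AlgebraicClosure k) (F 1) + C' := by
      rw [hΔ, D2_g hbr, mul_one]
    have hΔ1 : Δ (φK k (AlgebraicClosure k) (F 1)) =
        algebraMap (AlgebraicClosure k) (KK (AlgebraicClosure k)) u *
          (B * φK k (AlgebraicClosure k) (F 1) + C') := by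
      have h1 : Δ (φK k (AlgebraicClosure k) (F 1)) =
          Δ (algebraMap (AlgebraicClosure k) (KK (AlgebraicClosure k)) u *
            ιK (AlgebraicClosure k) g) := by rw [hφ1]
      rw [h1, Derivation.leibniz, Derivation.map_algebraMap, smul_zero, add_zero, smul_eq_mul, hΔg]
    refine fun x hx => place_V hbr hgM (b.map (algebraMap k (AlgebraicClosure k)) * Polynomial.C u)
      (c.map (algebraMap k (AlgebraicClosure k))) ?_ (fun O hO hg => ?_) x hx
    · rcases habc with h | h | h
      · exact absurd ha h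
      · exact Or.inl (mul_ne_zero ((Polynomial.map_ne_zero_iff hinj).2 h)
          (Polynomial.C_ne_zero.2 hu))
      · exact Or.inr ((Polynomial.map_ne_zero_iff hinj).2 h)
    · by_cases hwn : ιK (AlgebraicClosure k) w ∈ O.nonunits
      · right
        have hO' : O ∈ SR (RE (mE k (AlgebraicClosure k) (Fin 2) (F 0))) := by rw [← hf]; exact hO
        have hF1O := hgO O hO hg
        refine log_SR f g hbr Δ (by rw [hΔf]; exact zero_mem _) O hO
          (φK k (AlgebraicClosure k) (aeval F D))
          (algebraMap (AlgebraicClosure k) (KK (AlgebraicClosure k)) u *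
            φK k (AlgebraicClosure k) (aeval F e)) hne
          (by rw [hwφ]; exact hwn)
          (mul_mem (hO.1 ⟨_, huE⟩) (place_mem F O hO' hF1O e)) ?_
        rw [chain, hφ0, hΔf, mul_zero, zero_add, hΔ1]
        linear_combination
          (algebraMap (AlgebraicClosure k) (KK (AlgebraicClosure k)) u) * hrel
      · exact Or.inl (hgood O hO hg hwn)
  · have hA0 : A ≠ 0 := ev_ne hbr ((Polynomial.map_ne_zero_iff hinj).2 ha)
    obtain ⟨η, hη⟩ : ∃ η : EF f, (η : KK (AlgebraicClosure k)) = B / A :=
      ⟨⟨B / A, div_mem hBE hAE⟩, rfl⟩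
    obtain ⟨θ, hθ⟩ : ∃ θ : EF f, (θ : KK (AlgebraicClosure k)) =
        C' / (algebraMap (AlgebraicClosure k) (KK (AlgebraicClosure k)) u * A) :=
      ⟨⟨_, div_mem hCE (mul_mem huE hAE)⟩, rfl⟩
    have hΔf := DL_f (η := η) (θ := θ) hbr
    have hΔg := DL_g (η := η) (θ := θ) hbr
    have hΔ1 : DL f g η θ (φK k (AlgebraicClosure k) (F 1)) =
        (B * φK k (AlgebraicClosure k) (F 1) + C') / A := by
      rw [hφ1, Derivation.leibniz, Derivation.map_algebraMap, smul_zero, add_zero, smul_eq_mul,
        hΔg, hη, hθ]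
      field_simp
    refine fun x hx => place_M hbr hgM η θ (fun O hO hg => ?_) x hx
    by_cases hwn : ιK (AlgebraicClosure k) w ∈ O.nonunits
    · right
      have hO' : O ∈ SR (RE (mE k (AlgebraicClosure k) (Fin 2) (F 0))) := by rw [← hf]; exact hO
      have hF1O := hgO O hO hg
      refine log_SR f g hbr (DL f g η θ) (by rw [hΔf]; exact one_mem _) O hO
        (φK k (AlgebraicClosure k) (aeval F D))
        (A⁻¹ * φK k (AlgebraicClosure k) (aeval F e)) hne
        (by rw [hwφ]; exact hwn)
        (mul_mem (hO.1 ⟨_, inv_mem hAE⟩) (place_mem F O hO' hF1O e)) ?_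
      rw [chain, hφ0, hΔf, mul_one, hΔ1]
      field_simp
      linear_combination hrel
    · exact Or.inl (hgood O hO hg hwn)

end

end Pool.Agent.H928R2.Tri
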