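import Pool.Agent.H928R2.TriM4

/-!
# Branch curves invariant under a linear vector field: coordinates of the target
-/

set_option autoImplicit false
set_option linter.unusedSectionVars false

open MvPolynomial Pool.Agent.H928R2.Inv Pool.Agent.H928R2.Pen

namespace Pool.Agent.H928R2.Tri

section
variable {k : Type*} [Field k] [CharZero k]

theorem br_chain (F : Fin 2 → PP k) (P b : PP k) :
    br (aeval F P) b = aeval F (pderiv 0 P) * br (F 0) b + aeval F (pderiv 1 P) * br (F 1) b := by
  have hsw : ∀ p : PP k, br p b = - dd (pderiv 0 b) (pderiv 1 b) p := by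
    intro p
    rw [dd_br]
    unfold br
    ring
  rw [hsw, hsw, hsw]
  induction P using MvPolynomial.induction_on with
  | C c =>
    rw [aeval_C, Derivation.map_algebraMap, pderiv_C, pderiv_C, map_zero]
    ring
  | add p q hp hq =>
    simp only [map_add]
    linear_combination hp + hq
  | mul_X p i hp =>
    rw [map_mul, Derivation.leibniz, aeval_X]
    fin_cases i
    · simp only [Derivation.leibniz, smul_eq_mul, map_add, map_mul, aeval_X, Fin.zero_eta,
        pderiv_X_self, pderiv_X_of_ne (show (0 : Fin 2) ≠ 1 by decide), map_one, map_zero]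
      linear_combination (F 0) * hp
    · simp only [Derivation.leibniz, smul_eq_mul, map_add, map_mul, aeval_X, Fin.mk_one,
        pderiv_X_self, pderiv_X_of_ne (show (1 : Fin 2) ≠ 0 by decide), map_one, map_zero]
      linear_combination (F 1) * hp

open Pool.Agent.H922R2 in
/-- the branch curve is invariant under a linear vector field, in some coordinates of the target -/
theorem main_M_aut (F : Fin 2 → PP k) (hJ : IsUnit (jac F).det) (M : IntermediateField k (KK k))
    (hFM : ∀ i, ιK k (F i) ∈ M) (D : PP k) (hD : D ≠ 0)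
    (het : ∀ b : PP k, ιK k b ∈ M → IsIntegral (Algebra.adjoin k (Set.range F)) b →
      ∀ j, ∃ N : ℕ, IsIntegral (Algebra.adjoin k (Set.range F))
        ((aeval F D) ^ N * br (F j) b))
    (Ψ : PP k ≃ₐ[k] PP k) (a b c : Polynomial k) (habc : a ≠ 0 ∨ b ≠ 0 ∨ c ≠ 0)
    (hdvd : Ψ D ∣ Polynomial.aeval (X 0) a * pderiv 0 (Ψ D) +
      (Polynomial.aeval (X 0) b * X 1 + Polynomial.aeval (X 0) c) * pderiv 1 (Ψ D))
    (z : KK k) (hz : z ∈ M) : z ∈ IntermediateField.adjoin k {ιK k (F 0), ιK k (F 1)} := by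
  obtain ⟨F', hF'⟩ : ∃ F' : Fin 2 → PP k, F' = fun i => aeval F (Ψ.symm (X i)) := ⟨_, rfl⟩
  have hev : ∀ p : PP k, aeval F' p = aeval F (Ψ.symm p) := by
    intro p
    have h1 : (aeval F' : PP k →ₐ[k] PP k) =
        (aeval F : PP k →ₐ[k] PP k).comp (Ψ.symm : PP k →ₐ[k] PP k) := by
      apply MvPolynomial.algHom_ext
      intro i
      rw [aeval_X, hF']
      rfl
    rw [h1]
    rfl
  have hSS : SS F' = SS F := by
    apply le_antisymm
    · rintro _ ⟨p, rfl⟩
      exact ⟨Ψ.symm p, (hev p).symm⟩
    · rintro _ ⟨p, rfl⟩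
      refine ⟨Ψ p, ?_⟩
      show aeval F' (Ψ p) = aeval F p
      rw [hev, AlgEquiv.symm_apply_apply]
  have hadj : Algebra.adjoin k (Set.range F') = Algebra.adjoin k (Set.range F) := by
    rw [Algebra.adjoin_range_eq_range_aeval, Algebra.adjoin_range_eq_range_aeval]
    exact hSS
  have hJ1 : IsUnit (jac (fun i => Ψ.symm (X i) : Fin 2 → PP k)).det := by
    apply jac_comp Ψ.symm (X : Fin 2 → PP k)
    have h1 : (jac (X : Fin 2 → PP k)).det = 1 := by
      rw [Matrix.det_fin_two]
      simp [pderiv_X]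
    rw [h1]
    exact isUnit_one
  have hJ' : IsUnit (jac F').det := by
    rw [det_jac, hF', DJ_aeval, ← det_jac]
    refine IsUnit.mul ?_ hJ
    rw [det_jac] at hJ1
    exact hJ1.map _
  -- polynomials in `F` belong to `M`
  have hpoly : ∀ (N : IntermediateField k (KK k)), (∀ i, ιK k (F i) ∈ N) → ∀ p : PP k,
      ιK k (aeval F p) ∈ N := by
    intro N hN p
    induction p using MvPolynomial.induction_on with
    | C c =>
      rw [aeval_C, AlgHom.commutes]
      exact N.algebraMap_mem c
    | add p q hp hq => rw [map_add, map_add]; exact add_mem hp hq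
    | mul_X p i hp => rw [map_mul, map_mul, aeval_X]; exact mul_mem hp (hN i)
  have hF'i : ∀ i, F' i = aeval F (Ψ.symm (X i)) := fun i => by rw [hF']
  have h0 := main_M F' hJ' M (fun i => by rw [hF'i]; exact hpoly M hFM _) (Ψ D)
    ((map_ne_zero_iff _ Ψ.injective).2 hD) ?_ a b c habc hdvd z hz
  · have hM0 : ∀ i, ιK k (F i) ∈ IntermediateField.adjoin k {ιK k (F 0), ιK k (F 1)} := by
      intro i
      apply IntermediateField.subset_adjoin
      fin_cases i
      · exact Set.mem_insert _ _
      · exact Set.mem_insert_of_mem _ rfl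
    have hle : IntermediateField.adjoin k {ιK k (F' 0), ιK k (F' 1)} ≤
        IntermediateField.adjoin k {ιK k (F 0), ιK k (F 1)} := by
      rw [IntermediateField.adjoin_le_iff]
      rintro x (rfl | hx)
      · rw [hF'i]
        exact hpoly _ hM0 _
      · rw [Set.mem_singleton_iff] at hx
        rw [hx, hF'i]
        exact hpoly _ hM0 _
    exact hle h0
  · intro b' hb'M hb' j
    rw [hadj] at hb' ⊢
    obtain ⟨N0, hN0⟩ := het b' hb'M hb' 0
    obtain ⟨N1, hN1⟩ := het b' hb'M hb' 1
    refine ⟨N0 + N1, ?_⟩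
    rw [hev, AlgEquiv.symm_apply_apply, hF'i, br_chain]
    have hI : ∀ p : PP k, IsIntegral (Algebra.adjoin k (Set.range F)) (aeval F p) := by
      intro p
      have h1 : aeval F p ∈ Algebra.adjoin k (Set.range F) := by
        rw [Algebra.adjoin_range_eq_range_aeval]
        exact ⟨p, rfl⟩
      exact isIntegral_algebraMap (x := (⟨_, h1⟩ : Algebra.adjoin k (Set.range F)))
    have h1 : aeval F D ^ (N0 + N1) * (aeval F (pderiv 0 (Ψ.symm (X j))) * br (F 0) b' +
        aeval F (pderiv 1 (Ψ.symm (X j))) * br (F 1) b') =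
        aeval F (pderiv 0 (Ψ.symm (X j))) * aeval F D ^ N1 * (aeval F D ^ N0 * br (F 0) b') +
        aeval F (pderiv 1 (Ψ.symm (X j))) * aeval F D ^ N0 * (aeval F D ^ N1 * br (F 1) b') := by
      ring
    rw [h1]
    exact ((((hI _).mul ((hI D).pow N1)).mul hN0)).add (((hI _).mul ((hI D).pow N0)).mul hN1)

open Pool.Agent.H922R2 in
/-- birational Keller maps are automorphisms -/
theorem top_of_field (F : Fin 2 → PP k) (hJ : IsUnit (jac F).det)
    (h : ∀ z : KK k, z ∈ IntermediateField.adjoin k {ιK k (F 0), ιK k (F 1)}) : SS F = ⊤ := by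
  have h1 : map (algebraMap k k) (F 0) = F 0 := by
    rw [Algebra.algebraMap_self, MvPolynomial.map_id]
  refine R.R_any (E := k) F hJ (ιK k (F 1)) ?_
  rw [h1]
  have h2 : IntermediateField.adjoin k {ιK k (F 0), ιK k (F 1)} = ⊤ := by
    rw [eq_top_iff]
    exact fun z _ => h z
  exact h2

end

end Pool.Agent.H928R2.Tri
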