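import Pool.Agent.H928R2.TriGenAB
import Pool.Agent.H928R2.TriUnit
import Pool.Agent.H928R2.PenBase
import Pool.Agent.H922R2.R16

/-!
# Jacobian pairs with a small non-properness curve
-/

set_option autoImplicit false
set_option linter.unusedSectionVars false

open MvPolynomial Pool.Agent.H928R2.Inv Pool.Agent.H928R2.Pen

namespace Pool.Agent.H928R2.Tri

/-- a valuation ring contains the image of everything integral over a subalgebra it contains -/
theorem mem_of_int {k A L : Type*} [Field k] [CommRing A] [Algebra k A] [Field L]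
    (S : Subalgebra k A) (φ : A →+* L) (O : ValuationSubring L) (hS : ∀ s ∈ S, φ s ∈ O) (z : A)
    (hz : IsIntegral S z) : φ z ∈ O := by
  obtain ⟨p, hp, hpz⟩ := hz
  refine val_int O (φ z) ⟨p.map (φ.comp (algebraMap S A)), hp.map _, fun i => ?_, ?_⟩
  · rw [Polynomial.coeff_map]
    exact hS _ (p.coeff i).2
  · rw [Polynomial.eval_map, ← Polynomial.hom_eval₂, hpz, map_zero]

section
variable {k : Type*} [Field k] [CharZero k]

/-- the structure map of the big field -/
noncomputable abbrev cK (k : Type*) [Field k] (K : Type*) [Field K] [Algebra k K] : k →+* KK K :=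
  (algebraMap K (KK K)).comp (algebraMap k K)

/-- the map to the big field -/
noncomputable abbrev φK (k : Type*) [Field k] (K : Type*) [Field K] [Algebra k K] : PP k →+* KK K :=
  ((ιK K : PP K →ₐ[K] KK K) : PP K →+* KK K).comp (Pool.Agent.H922R2.mE k K (Fin 2))

variable {K : Type*} [Field K] [CharZero K] [Algebra k K]

theorem φK_C (c : k) : φK k K (C c) = cK k K c := by
  show ιK K (Pool.Agent.H922R2.mE k K (Fin 2) (C c)) = algebraMap K (KK K) (algebraMap k K c)
  rw [Pool.Agent.H922R2.mE, map_C, ← MvPolynomial.algebraMap_eq, AlgHom.commutes]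

theorem φK_aeval (F : Fin 2 → PP k) (D : PP k) :
    φK k K (aeval F D) = D.eval₂ (cK k K) (fun i => φK k K (F i)) := by
  rw [aeval_def, ← coe_eval₂Hom, ← coe_eval₂Hom, ← RingHom.comp_apply]
  congr 1
  ext i
  · simp only [RingHom.comp_apply, coe_eval₂Hom, eval₂_C]
    rw [MvPolynomial.algebraMap_eq]
    exact φK_C i
  · simp

theorem φK_inj : Function.Injective (φK k K) :=
  (iR_inj (k := K) (σ := Fin 2)).comp Pool.Agent.H922R2.mE_inj

/-- at a place at infinity with finite value of `F 1`, the value lies on the curve `D = 0` -/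
theorem place_nonunit (F : Fin 2 → PP k) (D : PP k)
    (hint : ∀ i, ∃ N : ℕ, IsIntegral (Algebra.adjoin k (Set.range F)) ((aeval F D) ^ N * X i))
    (O : ValuationSubring (KK K))
    (hO : O ∈ SR (RE (Pool.Agent.H922R2.mE k K (Fin 2) (F 0)))) (hg : φK k K (F 1) ∈ O) :
    φK k K (aeval F D) ∈ O.nonunits := by
  have hk : ∀ c : K, algebraMap K (KK K) c ∈ O := fun c =>
    hO.1 ⟨_, IntermediateField.algebraMap_mem _ c⟩
  have hf : φK k K (F 0) ∈ O := hO.1 ⟨_, IntermediateField.mem_adjoin_simple_self K _⟩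
  have hS : ∀ s ∈ Algebra.adjoin k (Set.range F), φK k K s ∈ O := by
    intro s hs
    induction hs using Algebra.adjoin_induction with
    | mem x hx =>
      obtain ⟨i, rfl⟩ := hx
      fin_cases i
      · exact hf
      · exact hg
    | algebraMap c =>
      rw [MvPolynomial.algebraMap_eq, φK_C]
      exact hk _
    | add x y _ _ hx hy => rw [map_add]; exact add_mem hx hy
    | mul x y _ _ hx hy => rw [map_mul]; exact mul_mem hx hy
  have hDS : aeval F D ∈ Algebra.adjoin k (Set.range F) := by
    rw [Algebra.adjoin_range_eq_range_aeval]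
    exact ⟨D, rfl⟩
  have hDO := hS _ hDS
  by_contra hcon
  have h0 : φK k K (aeval F D) ≠ 0 := by
    intro h
    apply hcon
    rw [h, ValuationSubring.mem_nonunits_iff, map_zero]
    exact zero_lt_one
  have hinv : (φK k K (aeval F D))⁻¹ ∈ O := by
    by_contra h
    apply hcon
    rw [ValuationSubring.mem_nonunits_iff_or]
    exact Or.inr h
  have hX : ∀ i : Fin 2, ιK K (X i) ∈ O := by
    intro i
    obtain ⟨N, hN⟩ := hint i
    have h1 := mem_of_int _ (φK k K) O hS _ hN
    rw [map_mul, map_pow] at h1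
    have h2 : φK k K (X i) = ιK K (X i) := by
      show ιK K (Pool.Agent.H922R2.mE k K (Fin 2) (X i)) = _
      rw [Pool.Agent.H922R2.mE, map_X]
    rw [← h2]
    have h3 : φK k K (X i) = (φK k K (aeval F D))⁻¹ ^ N * (φK k K (aeval F D) ^ N * φK k K (X i)) := by
      rw [← mul_assoc, ← mul_pow, inv_mul_cancel₀ h0, one_pow, one_mul]
    rw [h3]
    exact mul_mem (pow_mem hinv N) h1
  obtain ⟨x, ⟨i, hi⟩, hx⟩ := exists_gen _ O hO
  exact hx (by rw [← hi]; exact hX i)

/-- normal form of the Jacobian pair over the big field -/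
theorem exists_normal (F : Fin 2 → PP k) (hJ : IsUnit (Pool.Agent.H922R2.jac F).det) :
    ∃ (u : K) (g : PP K), u ≠ 0 ∧ Pool.Agent.H922R2.mE k K (Fin 2) (F 1) = C u * g ∧
      br (Pool.Agent.H922R2.mE k K (Fin 2) (F 0)) g = 1 := by
  have h1 := Pool.Agent.H922R2.jac_mE (E := K) F hJ
  obtain ⟨u, hu, hue⟩ := MvPolynomial.isUnit_iff_eq_C_of_isReduced.1 h1
  have hu0 : u ≠ 0 := hu.ne_zero
  refine ⟨u, C u⁻¹ * Pool.Agent.H922R2.mE k K (Fin 2) (F 1), hu0, ?_, ?_⟩
  · rw [← mul_assoc, ← C_mul, mul_inv_cancel₀ hu0, C_1, one_mul]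
  · rw [Matrix.det_fin_two] at hue
    simp only [Matrix.of_apply] at hue
    have h2 : br (Pool.Agent.H922R2.mE k K (Fin 2) (F 0))
        (C u⁻¹ * Pool.Agent.H922R2.mE k K (Fin 2) (F 1)) = C u⁻¹ * C u := by
      rw [← hue]
      unfold br
      simp only [Derivation.leibniz, pderiv_C, smul_eq_mul, mul_zero, add_zero]
      ring
    rw [h2, ← C_mul, inv_mul_cancel₀ hu0, C_1]

/-- the image of a one-variable polynomial in `F 0` -/
theorem φK_poly (F : Fin 2 → PP k) (q : Polynomial k) :
    q.eval₂ (cK k K) (φK k K (F 0)) =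
      ev (Pool.Agent.H922R2.mE k K (Fin 2) (F 0)) (q.map (algebraMap k K)) := by
  rw [ev_eq, Polynomial.aeval_def, Polynomial.eval₂_map]
  rfl

end

section
variable {k : Type*} [Field k] [CharZero k]

open Pool.Agent.H922R2 in
/-- the curve has degree at most two in the second variable -/
theorem main_a (F : Fin 2 → PP k) (hJ : IsUnit (jac F).det) (D : PP k) (hD : D ≠ 0)
    (hint : ∀ i, ∃ N : ℕ, IsIntegral (Algebra.adjoin k (Set.range F)) ((aeval F D) ^ N * X i))
    (q2 q1 q0 : Polynomial k)
    (hform : ∀ (c : k →+* KK (AlgebraicClosure k)) (a : Fin 2 → KK (AlgebraicClosure k)),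
      D.eval₂ c a = q2.eval₂ c (a 0) * a 1 ^ 2 + q1.eval₂ c (a 0) * a 1 + q0.eval₂ c (a 0)) :
    Pool.Agent.H922R2.SS F = ⊤ := by
  obtain ⟨u, g, hu, hF1, hbr⟩ := exists_normal (K := AlgebraicClosure k) F hJ
  set f : PP (AlgebraicClosure k) := mE k (AlgebraicClosure k) (Fin 2) (F 0) with hf
  have hcu : algebraMap (AlgebraicClosure k) (KK (AlgebraicClosure k)) u ≠ 0 :=
    (map_ne_zero _).2 hu
  have hφ1 : φK k (AlgebraicClosure k) (F 1) =
      algebraMap (AlgebraicClosure k) (KK (AlgebraicClosure k)) u *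
        ιK (AlgebraicClosure k) g := by
    show ιK (AlgebraicClosure k) (mE k (AlgebraicClosure k) (Fin 2) (F 1)) = _
    rw [hF1, map_mul, ← MvPolynomial.algebraMap_eq, AlgHom.commutes]
  have hq : q2 ≠ 0 ∨ q1 ≠ 0 ∨ q0 ≠ 0 := by
    by_contra h
    push Not at h
    obtain ⟨h2, h1, h0⟩ := h
    have h3 := φK_aeval (K := AlgebraicClosure k) F D
    rw [hform, h2, h1, h0] at h3
    simp only [Polynomial.eval₂_zero, zero_mul, add_zero] at h3
    apply hD
    apply aeval_injective F hJ
    rw [map_zero]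
    apply φK_inj (K := AlgebraicClosure k)
    rw [h3, map_zero]
  obtain ⟨T, hT⟩ := gen_a hbr (q2.map (algebraMap k (AlgebraicClosure k)) * Polynomial.C (u ^ 2))
    (q1.map (algebraMap k (AlgebraicClosure k)) * Polynomial.C u)
    (q0.map (algebraMap k (AlgebraicClosure k))) (by
      have hC2 : (Polynomial.C (u ^ 2) : Polynomial (AlgebraicClosure k)) ≠ 0 :=
        Polynomial.C_ne_zero.2 (pow_ne_zero 2 hu)
      have hC1 : (Polynomial.C u : Polynomial (AlgebraicClosure k)) ≠ 0 := Polynomial.C_ne_zero.2 hu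
      have hinj := (algebraMap k (AlgebraicClosure k)).injective
      rcases hq with h | h | h
      · exact Or.inl (mul_ne_zero ((Polynomial.map_ne_zero_iff hinj).2 h) hC2)
      · exact Or.inr (Or.inl (mul_ne_zero ((Polynomial.map_ne_zero_iff hinj).2 h) hC1))
      · exact Or.inr (Or.inr ((Polynomial.map_ne_zero_iff hinj).2 h))) (by
      intro O hO hg
      have hg' : φK k (AlgebraicClosure k) (F 1) ∈ O := by
        rw [hφ1]
        exact mul_mem (hO.1 ⟨_, IntermediateField.algebraMap_mem _ u⟩) hg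
      have h1 := place_nonunit F D hint O hO hg'
      rw [φK_aeval, hform, φK_poly, φK_poly, φK_poly, hφ1, ← hf] at h1
      have h2 : ∀ x : AlgebraicClosure k, ev f (Polynomial.C x) =
          algebraMap (AlgebraicClosure k) (KK (AlgebraicClosure k)) x := by
        intro x
        rw [ev_eq, Polynomial.aeval_C]
      rw [map_mul, map_mul, h2, h2, map_pow]
      have h3 : ev f (Polynomial.map (algebraMap k (AlgebraicClosure k)) q2) *
          algebraMap (AlgebraicClosure k) (KK (AlgebraicClosure k)) u ^ 2 *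
            ιK (AlgebraicClosure k) g ^ 2 +
          ev f (Polynomial.map (algebraMap k (AlgebraicClosure k)) q1) *
            algebraMap (AlgebraicClosure k) (KK (AlgebraicClosure k)) u *
            ιK (AlgebraicClosure k) g +
          ev f (Polynomial.map (algebraMap k (AlgebraicClosure k)) q0) =
          ev f (Polynomial.map (algebraMap k (AlgebraicClosure k)) q2) *
          (algebraMap (AlgebraicClosure k) (KK (AlgebraicClosure k)) u *
            ιK (AlgebraicClosure k) g) ^ 2 +
          ev f (Polynomial.map (algebraMap k (AlgebraicClosure k)) q1) *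
            (algebraMap (AlgebraicClosure k) (KK (AlgebraicClosure k)) u *
            ιK (AlgebraicClosure k) g) +
          ev f (Polynomial.map (algebraMap k (AlgebraicClosure k)) q0) := by ring
      rw [h3]
      exact h1)
  exact Pool.Agent.H922R2.R.R_any (E := AlgebraicClosure k) F hJ T hT

open Pool.Agent.H922R2 in
/-- the curve is a union of members of a pencil -/
theorem main_b (F : Fin 2 → PP k) (hJ : IsUnit (jac F).det) (D : PP k) (hD : D ≠ 0)
    (hint : ∀ i, ∃ N : ℕ, IsIntegral (Algebra.adjoin k (Set.range F)) ((aeval F D) ^ N * X i))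
    (n m : ℕ) (hn : 0 < n) (A P w : Polynomial k) (hP : P ≠ 0)
    (hform : ∀ (c : k →+* KK (AlgebraicClosure k)) (a : Fin 2 → KK (AlgebraicClosure k)),
      P.eval₂ c (a 0) ≠ 0 → D.eval₂ c a =
        A.eval₂ c (a 0) * (P.eval₂ c (a 0)) ^ m * w.eval₂ c (a 1 ^ n / P.eval₂ c (a 0))) :
    Pool.Agent.H922R2.SS F = ⊤ := by
  obtain ⟨u, g, hu, hF1, hbr⟩ := exists_normal (K := AlgebraicClosure k) F hJ
  set f : PP (AlgebraicClosure k) := mE k (AlgebraicClosure k) (Fin 2) (F 0) with hf
  have hinj := (algebraMap k (AlgebraicClosure k)).injective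
  have hφ1 : φK k (AlgebraicClosure k) (F 1) =
      algebraMap (AlgebraicClosure k) (KK (AlgebraicClosure k)) u *
        ιK (AlgebraicClosure k) g := by
    show ιK (AlgebraicClosure k) (mE k (AlgebraicClosure k) (Fin 2) (F 1)) = _
    rw [hF1, map_mul, ← MvPolynomial.algebraMap_eq, AlgHom.commutes]
  have hP' : P.map (algebraMap k (AlgebraicClosure k)) ≠ 0 := (Polynomial.map_ne_zero_iff hinj).2 hP
  have hP0 := ev_ne hbr hP'
  have hform' := hform (cK k (AlgebraicClosure k)) (fun i => φK k (AlgebraicClosure k) (F i)) (by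
    rw [φK_poly]
    exact hP0)
  rw [← φK_aeval, φK_poly, φK_poly, ← hf] at hform'
  have hne : φK k (AlgebraicClosure k) (aeval F D) ≠ 0 := by
    intro h
    apply hD
    apply aeval_injective F hJ
    rw [map_zero]
    apply φK_inj (K := AlgebraicClosure k)
    rw [h, map_zero]
  set w' : Polynomial (AlgebraicClosure k) :=
    (w.map (algebraMap k (AlgebraicClosure k))).comp (Polynomial.C (u ^ n) * Polynomial.X) with hw'
  have hw'e : Polynomial.aeval (jn f g (P.map (algebraMap k (AlgebraicClosure k))) n) w' =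
      w.eval₂ (cK k (AlgebraicClosure k)) (φK k (AlgebraicClosure k) (F 1) ^ n /
        ev f (P.map (algebraMap k (AlgebraicClosure k)))) := by
    rw [hw', Polynomial.aeval_comp, Polynomial.aeval_def, Polynomial.eval₂_map, map_mul,
      Polynomial.aeval_C, Polynomial.aeval_X, hφ1, mul_pow, map_pow]
    unfold jn
    rw [mul_div_assoc]
  rw [← hw'e] at hform'
  have hw0 : w' ≠ 0 := by
    intro h
    apply hne
    rw [hform', h, map_zero, mul_zero]
  have hA0 : A.map (algebraMap k (AlgebraicClosure k)) ≠ 0 := by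
    intro h
    apply hne
    rw [hform', h, map_zero, zero_mul, zero_mul]
  obtain ⟨T, hT⟩ := gen_b hbr (P.map (algebraMap k (AlgebraicClosure k))) hP' n hn w' hw0 (by
    intro O hO hg
    have hg' : φK k (AlgebraicClosure k) (F 1) ∈ O := by
      rw [hφ1]
      exact mul_mem (hO.1 ⟨_, IntermediateField.algebraMap_mem _ u⟩) hg
    have h1 := place_nonunit F D hint O hO hg'
    rw [hform'] at h1
    exact unit_mul hO.1 (mul_mem (ev_mem f _) (pow_mem (ev_mem f _) m))
      (mul_ne_zero (ev_ne hbr hA0) (pow_ne_zero m hP0)) h1)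
  exact Pool.Agent.H922R2.R.R_any (E := AlgebraicClosure k) F hJ T hT

end

end Pool.Agent.H928R2.Tri
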