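import Pool.Agent.H928R2.TriLin
import Pool.Agent.H928R2.TriMainQ

/-!
# Jacobian pairs whose non-properness curve is invariant under a linear vector field
-/

set_option autoImplicit false
set_option linter.unusedSectionVars false

open MvPolynomial Pool.Agent.H928R2.Inv Pool.Agent.H928R2.Pen

namespace Pool.Agent.H928R2.Tri

section
variable {k : Type*} [Field k] [CharZero k] {K : Type*} [Field K] [CharZero K] [Algebra k K]

/-- at a place at infinity with finite value of `F 1`, all polynomials in `F` are finite -/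
theorem place_mem (F : Fin 2 → PP k) (O : ValuationSubring (KK K))
    (hO : O ∈ SR (RE (Pool.Agent.H922R2.mE k K (Fin 2) (F 0)))) (hg : φK k K (F 1) ∈ O)
    (D : PP k) : φK k K (aeval F D) ∈ O := by
  have hk : ∀ c : K, algebraMap K (KK K) c ∈ O := fun c =>
    hO.1 ⟨_, IntermediateField.algebraMap_mem _ c⟩
  have hf : φK k K (F 0) ∈ O := hO.1 ⟨_, IntermediateField.mem_adjoin_simple_self K _⟩
  have hF : ∀ i, φK k K (F i) ∈ O := by
    intro i
    fin_cases i
    · exact hf
    · exact hg
  induction D using MvPolynomial.induction_on with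
  | C c =>
    rw [aeval_C, MvPolynomial.algebraMap_eq, φK_C]
    exact hk _
  | add p q hp hq => rw [map_add, map_add]; exact add_mem hp hq
  | mul_X p i hp => rw [map_mul, map_mul, aeval_X]; exact mul_mem hp (hF i)

/-- the chain rule -/
theorem chain (F : Fin 2 → PP k) (Δ : Derivation K (KK K) (KK K)) (D : PP k) :
    Δ (φK k K (aeval F D)) = φK k K (aeval F (pderiv 0 D)) * Δ (φK k K (F 0)) +
      φK k K (aeval F (pderiv 1 D)) * Δ (φK k K (F 1)) := by
  induction D using MvPolynomial.induction_on with
  | C c =>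
    rw [aeval_C, MvPolynomial.algebraMap_eq, φK_C, pderiv_C, pderiv_C]
    show Δ (algebraMap K (KK K) (algebraMap k K c)) = _
    rw [Derivation.map_algebraMap]
    simp
  | add p q hp hq =>
    simp only [map_add, hp, hq]
    ring
  | mul_X p i hp =>
    rw [map_mul, map_mul, Derivation.leibniz, hp, aeval_X]
    fin_cases i
    · simp only [Derivation.leibniz, smul_eq_mul, map_add, map_mul, aeval_X, Fin.zero_eta,
        pderiv_X_self, pderiv_X_of_ne (show (0 : Fin 2) ≠ 1 by decide), map_one, map_zero]
      ring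
    · simp only [Derivation.leibniz, smul_eq_mul, map_add, map_mul, aeval_X, Fin.mk_one,
        pderiv_X_self, pderiv_X_of_ne (show (1 : Fin 2) ≠ 0 by decide), map_one, map_zero]
      ring

theorem φK_aeval_poly (F : Fin 2 → PP k) (q : Polynomial k) :
    φK k K (aeval F (Polynomial.aeval (X 0 : PP k) q)) =
      ev (Pool.Agent.H922R2.mE k K (Fin 2) (F 0)) (q.map (algebraMap k K)) := by
  have h1 : aeval F (Polynomial.aeval (X 0 : PP k) q) = Polynomial.aeval (F 0) q := by
    rw [← Polynomial.aeval_algHom_apply, aeval_X]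
  rw [h1, ← φK_poly, Polynomial.aeval_def, Polynomial.hom_eval₂]
  congr 1
  ext c
  rw [RingHom.comp_apply, MvPolynomial.algebraMap_eq]
  exact φK_C c

end

section
variable {k : Type*} [Field k] [CharZero k]

open Pool.Agent.H922R2 in
/-- the curve is invariant under a linear vector field -/
theorem main_lin (F : Fin 2 → PP k) (hJ : IsUnit (jac F).det) (D : PP k) (hD : D ≠ 0)
    (hint : ∀ i, ∃ N : ℕ, IsIntegral (Algebra.adjoin k (Set.range F)) ((aeval F D) ^ N * X i))
    (a b c : Polynomial k) (habc : a ≠ 0 ∨ b ≠ 0 ∨ c ≠ 0)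
    (hdvd : D ∣ Polynomial.aeval (X 0) a * pderiv 0 D +
      (Polynomial.aeval (X 0) b * X 1 + Polynomial.aeval (X 0) c) * pderiv 1 D) :
    Pool.Agent.H922R2.SS F = ⊤ := by
  obtain ⟨e, he⟩ := hdvd
  obtain ⟨u, g, hu, hF1, hbr⟩ := exists_normal (K := AlgebraicClosure k) F hJ
  obtain ⟨f, hf⟩ : ∃ f : PP (AlgebraicClosure k), f = mE k (AlgebraicClosure k) (Fin 2) (F 0) :=
    ⟨_, rfl⟩
  rw [← hf] at hbr
  have hinj := (algebraMap k (AlgebraicClosure k)).injective
  have hcu : algebraMap (AlgebraicClosure k) (KK (AlgebraicClosure k)) u ≠ 0 :=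
    (map_ne_zero _).2 hu
  have hφ0 : φK k (AlgebraicClosure k) (F 0) = ιK (AlgebraicClosure k) f := by
    rw [hf]
    rfl
  have hφ1 : φK k (AlgebraicClosure k) (F 1) =
      algebraMap (AlgebraicClosure k) (KK (AlgebraicClosure k)) u *
        ιK (AlgebraicClosure k) g := by
    show ιK (AlgebraicClosure k) (mE k (AlgebraicClosure k) (Fin 2) (F 1)) = _
    rw [hF1, map_mul, ← MvPolynomial.algebraMap_eq, AlgHom.commutes]
  have hne : φK k (AlgebraicClosure k) (aeval F D) ≠ 0 := by
    intro h
    apply hD
    apply aeval_injective F hJ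
    rw [map_zero]
    apply φK_inj (K := AlgebraicClosure k)
    rw [h, map_zero]
  have hgO : ∀ O ∈ SR (RE f), ιK (AlgebraicClosure k) g ∈ O →
      φK k (AlgebraicClosure k) (F 1) ∈ O := by
    intro O hO hg
    rw [hφ1]
    exact mul_mem (hO.1 ⟨_, IntermediateField.algebraMap_mem _ u⟩) hg
  -- the relation at the level of fields
  have hrel := congrArg (fun p => φK k (AlgebraicClosure k) (aeval F p)) he
  simp only [map_add, map_mul, aeval_X, φK_aeval_poly, ← hf] at hrel
  set A := ev f (a.map (algebraMap k (AlgebraicClosure k))) with hA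
  set B := ev f (b.map (algebraMap k (AlgebraicClosure k))) with hB
  set C' := ev f (c.map (algebraMap k (AlgebraicClosure k))) with hC'
  have hAE : A ∈ EF f := ev_mem f _
  have hBE : B ∈ EF f := ev_mem f _
  have hCE : C' ∈ EF f := ev_mem f _
  have huE : algebraMap (AlgebraicClosure k) (KK (AlgebraicClosure k)) u ∈ EF f :=
    IntermediateField.algebraMap_mem _ u
  by_cases ha : a = 0
  · -- vertical vector field
    have hA0 : A = 0 := by rw [hA, ha, Polynomial.map_zero, map_zero]
    rw [hA0, zero_mul, zero_add] at hrel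
    let Δ : Derivation (AlgebraicClosure k) (KK (AlgebraicClosure k)) (KK (AlgebraicClosure k)) :=
      (B * φK k (AlgebraicClosure k) (F 1) + C') • D2 f
    have hΔ : ∀ x, Δ x = (B * φK k (AlgebraicClosure k) (F 1) + C') * D2 f x := fun _ => rfl
    have hΔf : Δ (ιK (AlgebraicClosure k) f) = 0 := by rw [hΔ, D2_f, mul_zero]
    have hΔg : Δ (ιK (AlgebraicClosure k) g) = B * φK k (AlgebraicClosure k) (F 1) + C' := by
      rw [hΔ, D2_g hbr, mul_one]
    have hΔ1 : Δ (φK k (AlgebraicClosure k) (F 1)) =
        algebraMap (AlgebraicClosure k) (KK (AlgebraicClosure k)) u *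
          (B * φK k (AlgebraicClosure k) (F 1) + C') := by
      have h1 : Δ (φK k (AlgebraicClosure k) (F 1)) =
          Δ (algebraMap (AlgebraicClosure k) (KK (AlgebraicClosure k)) u *
            ιK (AlgebraicClosure k) g) := by rw [hφ1]
      rw [h1, Derivation.leibniz, Derivation.map_algebraMap, smul_zero, add_zero, smul_eq_mul, hΔg]
    have hnon : ∀ O ∈ SR (RE f), ιK (AlgebraicClosure k) g ∈ O →
        B * φK k (AlgebraicClosure k) (F 1) + C' ∈ O.nonunits := by
      intro O hO hg
      have hO' : O ∈ SR (RE (mE k (AlgebraicClosure k) (Fin 2) (F 0))) := by rw [← hf]; exact hO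
      have hF1O := hgO O hO hg
      have hlog : LogAt O (toZ Δ) := by
        refine log_SR f g hbr Δ (by rw [hΔf]; exact zero_mem _) O hO
          (φK k (AlgebraicClosure k) (aeval F D))
          (algebraMap (AlgebraicClosure k) (KK (AlgebraicClosure k)) u *
            φK k (AlgebraicClosure k) (aeval F e)) hne
          (place_nonunit F D hint O hO' hF1O)
          (mul_mem (hO.1 ⟨_, huE⟩) (place_mem F O hO' hF1O e)) ?_
        rw [chain, hφ0, hΔf, mul_zero, zero_add, hΔ1]
        linear_combination
          (algebraMap (AlgebraicClosure k) (KK (AlgebraicClosure k)) u) * hrel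
      have h1 := log_small O hO.1 (fun z hz => SR_resalg hbr hO z hz) (toZ Δ) (fun x => by
        rw [toZ_apply, hΔ, D2_alg hbr, mul_zero]) hlog _ hg
      rw [toZ_apply, hΔg] at h1
      exact h1
    obtain ⟨T, hT⟩ := gen_a hbr 0
      (b.map (algebraMap k (AlgebraicClosure k)) * Polynomial.C u)
      (c.map (algebraMap k (AlgebraicClosure k))) (by
        rcases habc with h | h | h
        · exact absurd ha h
        · exact Or.inr (Or.inl (mul_ne_zero ((Polynomial.map_ne_zero_iff hinj).2 h)
            (Polynomial.C_ne_zero.2 hu)))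
        · exact Or.inr (Or.inr ((Polynomial.map_ne_zero_iff hinj).2 h))) (by
        intro O hO hg
        have h1 := hnon O hO hg
        have h2 : ev f (Polynomial.C u) =
            algebraMap (AlgebraicClosure k) (KK (AlgebraicClosure k)) u := by
          rw [ev_eq, Polynomial.aeval_C]
        rw [map_zero, zero_mul, zero_add, map_mul, h2]
        rw [hφ1, ← mul_assoc] at h1
        exact h1)
    rw [hf] at hT
    exact Pool.Agent.H922R2.R.R_any (E := AlgebraicClosure k) F hJ T hT
  · have hA0 : A ≠ 0 := ev_ne hbr ((Polynomial.map_ne_zero_iff hinj).2 ha)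
    obtain ⟨η, hη⟩ : ∃ η : EF f, (η : KK (AlgebraicClosure k)) = B / A :=
      ⟨⟨B / A, div_mem hBE hAE⟩, rfl⟩
    obtain ⟨θ, hθ⟩ : ∃ θ : EF f, (θ : KK (AlgebraicClosure k)) =
        C' / (algebraMap (AlgebraicClosure k) (KK (AlgebraicClosure k)) u * A) :=
      ⟨⟨_, div_mem hCE (mul_mem huE hAE)⟩, rfl⟩
    have hΔf := DL_f (η := η) (θ := θ) hbr
    have hΔg := DL_g (η := η) (θ := θ) hbr
    have hΔ1 : DL f g η θ (φK k (AlgebraicClosure k) (F 1)) =
        (B * φK k (AlgebraicClosure k) (F 1) + C') / A := by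
      rw [hφ1, Derivation.leibniz, Derivation.map_algebraMap, smul_zero, add_zero, smul_eq_mul,
        hΔg, hη, hθ]
      field_simp
    obtain ⟨T, hT⟩ := gen_lin f g hbr η θ (by
      intro O hO hg
      have hO' : O ∈ SR (RE (mE k (AlgebraicClosure k) (Fin 2) (F 0))) := by rw [← hf]; exact hO
      have hF1O := hgO O hO hg
      refine log_SR f g hbr (DL f g η θ) (by rw [hΔf]; exact one_mem _) O hO
        (φK k (AlgebraicClosure k) (aeval F D))
        (A⁻¹ * φK k (AlgebraicClosure k) (aeval F e)) hne
        (place_nonunit F D hint O hO' hF1O)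
        (mul_mem (hO.1 ⟨_, inv_mem hAE⟩) (place_mem F O hO' hF1O e)) ?_
      rw [chain, hφ0, hΔf, mul_one, hΔ1]
      field_simp
      linear_combination hrel)
    rw [hf] at hT
    exact Pool.Agent.H922R2.R.R_any (E := AlgebraicClosure k) F hJ T hT

end

end Pool.Agent.H928R2.Tri
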