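import Pool.Agent.H928R2.TriDef

/-!
# Minimal polynomials of residues and derivations
-/

set_option autoImplicit false

open Polynomial Pool.Agent.H928R2.Inv

namespace Pool.Agent.H928R2.Tri

section
variable {E L : Type*} [Field E] [Field L] [Algebra E L]

theorem nu_mul {O : ValuationSubring L} {x y : L} (hx : x ∈ O) (hy : y ∈ O.nonunits) :
    x * y ∈ O.nonunits := by
  rw [ValuationSubring.mem_nonunits_iff, map_mul]
  exact lt_of_le_of_lt (mul_le_of_le_one_left' ((O.valuation_le_one_iff _).2 hx))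
    (O.mem_nonunits_iff.1 hy)

theorem nu_add {O : ValuationSubring L} {x y : L} (hx : x ∈ O.nonunits)
    (hy : y ∈ O.nonunits) : x + y ∈ O.nonunits := by
  rw [ValuationSubring.mem_nonunits_iff] at hx hy ⊢
  exact lt_of_le_of_lt (O.valuation.map_add x y) (max_lt hx hy)

theorem nu_zero (O : ValuationSubring L) : (0 : L) ∈ O.nonunits := by
  rw [ValuationSubring.mem_nonunits_iff, map_zero]
  exact zero_lt_one

theorem nu_one (O : ValuationSubring L) : (1 : L) ∉ O.nonunits := by
  rw [ValuationSubring.mem_nonunits_iff, map_one]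
  exact lt_irrefl _

theorem nu_prime {O : ValuationSubring L} {x y : L} (h : x * y ∈ O.nonunits) :
    x ∈ O.nonunits ∨ y ∈ O.nonunits := by
  by_contra hcon
  push Not at hcon
  obtain ⟨h1, h2⟩ := hcon
  rw [ValuationSubring.mem_nonunits_iff, not_lt] at h1 h2
  rw [ValuationSubring.mem_nonunits_iff, map_mul] at h
  exact absurd h (not_lt.2 (one_le_mul h1 h2))

theorem aeval_mem_O {O : ValuationSubring L} (hE : ∀ a : E, algebraMap E L a ∈ O) {z : L}
    (hz : z ∈ O) (ν : E[X]) : aeval z ν ∈ O := by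
  induction ν using Polynomial.induction_on' with
  | add p q hp hq => rw [map_add]; exact add_mem hp hq
  | monomial n a =>
    rw [aeval_monomial]
    exact mul_mem (hE a) (pow_mem hz n)

/-- the minimal polynomial of the residue of `z` -/
theorem exists_min (O : ValuationSubring L) (hE : ∀ a : E, algebraMap E L a ∈ O) (z : L)
    (hz : z ∈ O) (hres : ∃ P : E[X], P ≠ 0 ∧ aeval z P ∈ O.nonunits) :
    ∃ μ : E[X], μ.Monic ∧ 0 < μ.natDegree ∧ aeval z μ ∈ O.nonunits ∧
      ∀ ν : E[X], aeval z ν ∈ O.nonunits → μ ∣ ν := by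
  let I : Ideal E[X] :=
    { carrier := {ν | aeval z ν ∈ O.nonunits}
      add_mem' := fun {a b} ha hb => by
        show aeval z (a + b) ∈ O.nonunits
        rw [map_add]
        exact nu_add ha hb
      zero_mem' := by
        show aeval z (0 : E[X]) ∈ O.nonunits
        rw [map_zero]
        exact nu_zero O
      smul_mem' := fun c x hx => by
        show aeval z (c • x) ∈ O.nonunits
        rw [smul_eq_mul, map_mul]
        exact nu_mul (aeval_mem_O hE hz c) hx }
  have hI : ∀ ν, ν ∈ I ↔ aeval z ν ∈ O.nonunits := fun _ => Iff.rfl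
  obtain ⟨P, hP, hPz⟩ := hres
  obtain ⟨γ, hγ⟩ := (IsPrincipalIdealRing.principal I).principal
  have hγ' : ∀ ν, ν ∈ I ↔ γ ∣ ν := by
    intro ν
    rw [hγ]
    exact Ideal.mem_span_singleton
  have hγ0 : γ ≠ 0 := by
    intro h
    have h1 := (hγ' P).1 ((hI P).2 hPz)
    rw [h, zero_dvd_iff] at h1
    exact hP h1
  have hl : γ.leadingCoeff ≠ 0 := leadingCoeff_ne_zero.2 hγ0
  have hm : (γ * C γ.leadingCoeff⁻¹).Monic := monic_mul_leadingCoeff_inv hγ0
  have hmem : aeval z (γ * C γ.leadingCoeff⁻¹) ∈ O.nonunits :=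
    (hI _).1 ((hγ' _).2 (Dvd.intro _ rfl))
  refine ⟨γ * C γ.leadingCoeff⁻¹, hm, ?_, hmem, ?_⟩
  · by_contra h
    have h1 : γ * C γ.leadingCoeff⁻¹ = 1 := hm.natDegree_eq_zero.1 (by omega)
    rw [h1, map_one] at hmem
    exact nu_one O hmem
  · intro ν hν
    have h1 := (hγ' ν).1 ((hI ν).2 hν)
    have hu : IsUnit (C γ.leadingCoeff⁻¹ : E[X]) := isUnit_C.2 (isUnit_iff_ne_zero.2 (inv_ne_zero hl))
    exact (hu.mul_right_dvd).2 h1

/-- the action of a derivation on the minimal polynomial of a residue -/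
theorem min_der (O : ValuationSubring L) (D : Derivation ℤ L L) (hlog : LogAt O D)
    (δ : E → E) (hδ : ∀ a, D (algebraMap E L a) = algebraMap E L (δ a)) (z : L) (η θ : E)
    (hDz : D z = algebraMap E L η * z + algebraMap E L θ) (hE : ∀ a : E, algebraMap E L a ∈ O)
    (μ : E[X]) (hμ : μ.Monic) (hμz : aeval z μ ∈ O.nonunits)
    (hmin : ∀ ν : E[X], aeval z ν ∈ O.nonunits → μ ∣ ν) (i : ℕ) :
    δ (μ.coeff i) = (μ.natDegree - i) * η * μ.coeff i - (i + 1) * θ * μ.coeff (i + 1) := by
  classical
  have hinj := (algebraMap E L).injective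
  have hδ0 : δ 0 = 0 := hinj (by rw [← hδ, map_zero, map_zero])
  have hδ1 : δ 1 = 0 := hinj (by rw [← hδ, map_one, D.map_one_eq_zero, map_zero])
  have hδa : ∀ a b, δ (a + b) = δ a + δ b := fun a b => hinj (by
    rw [← hδ, map_add, map_add, hδ, hδ, map_add])
  -- the derivative of `aeval z ν`
  have key : ∀ ν : E[X], ∃ ν' : E[X], D (aeval z ν) = aeval z ν' ∧
      ∀ n, ν'.coeff n = δ (ν.coeff n) + n * η * ν.coeff n + (n + 1) * θ * ν.coeff (n + 1) := by
    intro ν
    induction ν using Polynomial.induction_on' with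
    | add p q hp hq =>
      obtain ⟨p', hp1, hp2⟩ := hp
      obtain ⟨q', hq1, hq2⟩ := hq
      refine ⟨p' + q', by rw [map_add, map_add, hp1, hq1, map_add], fun n => ?_⟩
      rw [coeff_add, hp2, hq2, coeff_add, coeff_add, hδa]
      ring
    | monomial m a =>
      refine ⟨monomial m (δ a + m * η * a) + monomial (m - 1) (m * θ * a), ?_, fun n => ?_⟩
      · rw [aeval_monomial, D.leibniz, D.leibniz_pow, hDz, hδ, map_add, aeval_monomial,
          aeval_monomial]
        simp only [smul_eq_mul, nsmul_eq_mul, map_add, map_mul, map_natCast]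
        rcases m with _ | m
        · simp
        · rw [Nat.add_sub_cancel]
          ring
      · rw [coeff_add, coeff_monomial, coeff_monomial, coeff_monomial, coeff_monomial]
        rcases m with _ | m
        · by_cases h0 : 0 = n
          · subst h0
            simp
          · simp [h0, hδ0]
        · rw [Nat.add_sub_cancel]
          by_cases h1 : m + 1 = n
          · subst h1
            simp
          · by_cases h2 : m = n
            · subst h2
              simp [hδ0]
            · have h3 : ¬ (m + 1 = n + 1) := by omega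
              simp [h1, h2, hδ0]
  obtain ⟨ν', h1, h2⟩ := key μ
  have h3 : aeval z (ν' - C (μ.natDegree * η) * μ) ∈ O.nonunits := by
    rw [map_sub, map_mul, aeval_C, ← h1, sub_eq_add_neg, ← neg_mul]
    exact nu_add (hlog.non _ hμz) (nu_mul (neg_mem (hE _)) hμz)
  have h4 := hmin _ h3
  have h5 : ν' - C (μ.natDegree * η) * μ = 0 := by
    by_contra hne
    apply hμ.not_dvd_of_degree_lt hne _ h4
    rw [degree_eq_natDegree hμ.ne_zero, degree_lt_iff_coeff_zero]
    intro m hm
    rw [coeff_sub, coeff_C_mul, h2]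
    rcases eq_or_lt_of_le hm with h6 | h6
    · rw [← h6, hμ.coeff_natDegree, coeff_eq_zero_of_natDegree_lt (Nat.lt_succ_self _), hδ1]
      ring
    · rw [coeff_eq_zero_of_natDegree_lt h6, coeff_eq_zero_of_natDegree_lt (by omega), hδ0]
      ring
  have h6 := congrArg (fun p => p.coeff i) h5
  simp only [coeff_sub, coeff_C_mul, h2, coeff_zero] at h6
  linear_combination h6

/-- constants in the residue field -/
theorem const_res {k : Type*} [Field k] [IsAlgClosed k] [CharZero E] [Algebra k E] [Algebra k L]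
    [IsScalarTower k E L] (O : ValuationSubring L) (hE : ∀ a : E, algebraMap E L a ∈ O)
    (D : Derivation ℤ L L) (hlog : LogAt O D)
    (hDE : ∀ a : E, ∃ b : E, D (algebraMap E L a) = algebraMap E L b)
    (hconst : ∀ a : E, D (algebraMap E L a) = 0 → ∃ c : k, algebraMap k E c = a) (j : L)
    (hj : j ∈ O) (hDj : D j = 0) (hres : ∃ P : E[X], P ≠ 0 ∧ aeval j P ∈ O.nonunits) :
    ∃ c : k, j - algebraMap k L c ∈ O.nonunits := by
  obtain ⟨μ, hμ, hd, hμz, hmin⟩ := exists_min O hE j hj hres
  choose δ hδ using hDE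
  have h1 : ∀ i, ∃ c : k, algebraMap k E c = μ.coeff i := by
    intro i
    apply hconst
    rw [hδ, min_der O D hlog δ hδ j 0 0 (by rw [hDj, map_zero, zero_mul, add_zero]) hE μ hμ hμz
      hmin i]
    simp
  have h2 : μ ∈ lifts (algebraMap k E) := by
    rw [lifts_iff_coeff_lifts]
    exact h1
  obtain ⟨p, hp, hpd, hpm⟩ := lifts_and_natDegree_eq_and_monic h2 hμ
  obtain ⟨c, hc⟩ := IsAlgClosed.exists_root p (by
    intro h
    have h3 : p.natDegree = 0 := natDegree_eq_zero_iff_degree_le_zero.2 h.le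
    omega)
  obtain ⟨q, hq⟩ := dvd_iff_isRoot.2 hc
  refine ⟨c, ?_⟩
  have h3 : aeval j μ = (j - algebraMap k L c) * aeval j (q.map (algebraMap k E)) := by
    rw [← hp, hq, Polynomial.map_mul, map_mul, Polynomial.map_sub, map_X, map_C, map_sub, aeval_X,
      aeval_C, ← IsScalarTower.algebraMap_apply]
  rw [h3] at hμz
  rcases nu_prime hμz with h | h
  · exact h
  · exfalso
    have h4 := hmin _ h
    have hp0 : p ≠ 0 := hpm.ne_zero
    have hq0 : q ≠ 0 := by
      rintro rfl
      rw [mul_zero] at hq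
      exact hp0 hq
    have h5 : (q.map (algebraMap k E)) ≠ 0 :=
      (Polynomial.map_ne_zero_iff (algebraMap k E).injective).2 hq0
    have h6 := natDegree_le_of_dvd h4 h5
    rw [natDegree_map, ← hpd, hq, natDegree_mul (X_sub_C_ne_zero c) hq0, natDegree_X_sub_C] at h6
    omega

end

end Pool.Agent.H928R2.Tri
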