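import Pool.Agent.H928R2.TriBase

/-!
# The derivation attached to a pencil of curves in the target
-/

set_option autoImplicit false
set_option linter.unusedSectionVars false

open MvPolynomial Pool.Agent.H928R2.Inv Pool.Agent.H928R2.Pen

namespace Pool.Agent.H928R2.Tri

section
variable {k : Type*} [Field k] [CharZero k]

/-- the derivation `D` with `D f = n`, `D g = (P'(f)/P(f)) g` -/
noncomputable def DN (f g : PP k) (P : Polynomial k) (n : ℕ) : Derivation k (KK k) (KK k) :=
  (n : KK k) • D1 g + (ev f (Polynomial.derivative P) / ev f P * ιK k g) • D2 f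

/-- the constant `g ^ n / P(f)` -/
noncomputable def jn (f g : PP k) (P : Polynomial k) (n : ℕ) : KK k := ιK k g ^ n / ev f P

variable {f g : PP k} {P : Polynomial k} {n : ℕ}

theorem DN_apply (x : KK k) : DN f g P n x =
    n * D1 g x + (ev f (Polynomial.derivative P) / ev f P * ιK k g) * D2 f x := rfl

theorem DN_f (hJ : br f g = 1) : DN f g P n (ιK k f) = n := by
  rw [DN_apply, D1_f hJ, D2_f]
  ring

theorem DN_g (hJ : br f g = 1) :
    DN f g P n (ιK k g) = ev f (Polynomial.derivative P) / ev f P * ιK k g := by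
  rw [DN_apply, D1_g, D2_g hJ]
  ring

theorem DN_EF (hJ : br f g = 1) (x : KK k) (hx : x ∈ EF f) : DN f g P n x ∈ EF f := by
  apply der_EF _ f _ x hx
  rw [DN_f hJ]
  exact natCast_mem _ n

theorem DN_ev [IsAlgClosed k] (hJ : br f g = 1) (γ : Polynomial k) :
    DN f g P n (ev f γ) = n * ev f (Polynomial.derivative γ) := by
  rw [DN_apply, D1_ev hJ, (D2_ker hJ _).2 (ev_mem f γ)]
  ring

theorem DN_jn [IsAlgClosed k] (hJ : br f g = 1) (hP : P ≠ 0) (hn : 0 < n) :
    DN f g P n (jn f g P n) = 0 := by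
  have hP0 : ev f P ≠ 0 := ev_ne hJ hP
  obtain ⟨m, rfl⟩ : ∃ m, n = m + 1 := ⟨n - 1, by omega⟩
  unfold jn
  rw [Derivation.leibniz_div, Derivation.leibniz_pow, DN_g hJ, DN_ev hJ]
  simp only [smul_eq_mul, nsmul_eq_mul, Nat.add_sub_cancel]
  field_simp
  ring

theorem DN_const [IsAlgClosed k] (hJ : br f g = 1) (hn : 0 < n) (x : KK k) (hx : x ∈ EF f)
    (h : DN f g P n x = 0) : ∃ c : k, x = algebraMap k (KK k) c := by
  have h2 : D2 f x = 0 := (D2_ker hJ x).2 hx
  refine D1_const hJ x ?_ h2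
  rw [DN_apply, h2, mul_zero, add_zero] at h
  exact (mul_eq_zero.1 h).resolve_left (Nat.cast_ne_zero.2 (by omega))

theorem DN_RE (hJ : br f g = 1) (x : KK k) (hx : x ∈ RE f) : DN f g P n x ∈ RE f := by
  rw [DN_apply]
  refine add_mem (mul_mem (natCast_mem _ n) (D1_RE hJ x hx)) (mul_mem (mul_mem ?_ (ι_mem_RE _ _))
    (D2_RE f x hx))
  exact EF_RE f (div_mem (ev_mem f _) (ev_mem f _))

theorem DN_ne (hJ : br f g = 1) (hn : 0 < n) : DN f g P n ≠ 0 := by
  intro h
  have h1 := DN_f (P := P) (n := n) hJ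
  rw [h] at h1
  exact (Nat.cast_ne_zero.2 (by omega : n ≠ 0)) h1.symm

end

end Pool.Agent.H928R2.Tri
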