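import Pool.Agent.H928R2.TriN
import Pool.Agent.H928R2.PenSemi

/-!
# Constant field extension at a place: the residue field becomes the field of constants (helper204)

The place is embedded into the field of Laurent series over its residue field by Taylor series
with respect to a derivation `D` with `D t = 1`; the extension is generated there by the constants.
-/

set_option autoImplicit false
set_option linter.unusedSectionVars false

namespace Pool.Agent.H928R2.TriPlaceAux

open Polynomial IntermediateField

theorem exists_der {E L : Type*} [Field E] [CharZero E] [Field L] [Algebra E L] (x : L)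
    (hx : Transcendental E x)
    (hfin : FiniteDimensional (IntermediateField.adjoin E {x}) L) :
    ∃ D : Derivation E L L, D x = 1 := by
  let algT : Algebra E[X] L := (aeval x : E[X] →ₐ[E] L).toRingHom.toAlgebra
  have halgT : ∀ p : E[X], algebraMap E[X] L p = aeval x p := fun _ => rfl
  have hst : IsScalarTower E E[X] L := IsScalarTower.of_algebraMap_eq (fun a => by
    rw [halgT]
    show _ = aeval x (C a)
    rw [aeval_C])
  let e := RatFunc.algEquivOfTranscendental x hx
  let algR : Algebra (RatFunc E) L :=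
    ((algebraMap (IntermediateField.adjoin E {x}) L).comp
      (e.toRingEquiv : RatFunc E →+* IntermediateField.adjoin E {x})).toAlgebra
  have halgR : ∀ p : RatFunc E, algebraMap (RatFunc E) L p = (e p : L) := fun _ => rfl
  have : IsScalarTower E[X] (RatFunc E) L := IsScalarTower.of_algebraMap_eq (by
    intro p
    rw [halgR, halgT]
    show _ = ((RatFunc.algEquivOfTranscendental x hx) (algebraMap E[X] (RatFunc E) p) : L)
    rw [RatFunc.algEquivOfTranscendental_algebraMap]
    exact aeval_algebraMap_apply L (AdjoinSimple.gen E x) p)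
  have : FiniteDimensional (RatFunc E) L :=
    Module.Finite.of_equiv_equiv (A₁ := IntermediateField.adjoin E {x}) (B₁ := L)
      e.symm.toRingEquiv (RingEquiv.refl L) (by
        ext z
        show ((e (e.symm z) : IntermediateField.adjoin E {x}) : L) = z
        rw [AlgEquiv.apply_symm_apply])
  have : CharZero (RatFunc E) := charZero_of_injective_algebraMap
    (FaithfulSMul.algebraMap_injective E (RatFunc E))
  have h1 : Algebra.FormallyEtale E[X] (RatFunc E) :=
    Algebra.FormallyEtale.of_isLocalization (nonZeroDivisors E[X])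
  have h2 : Algebra.FormallyEtale (RatFunc E) L := Algebra.FormallyEtale.of_isSeparable _ _
  have h3 : Algebra.FormallyEtale E[X] L := Algebra.FormallyEtale.comp E[X] (RatFunc E) L
  let g : (Ω[E[X]⁄E]) →ₗ[E[X]] L :=
    (Algebra.linearMap E[X] L) ∘ₗ (KaehlerDifferential.polynomialEquiv E).toLinearMap
  let f : (Ω[L⁄E]) →ₗ[L] L :=
    (LinearMap.liftBaseChange L g) ∘ₗ
      (KaehlerDifferential.tensorKaehlerEquivOfFormallyEtale E E[X] L).symm.toLinearMap
  refine ⟨f.compDer (KaehlerDifferential.D E L), ?_⟩
  have h4 : x = algebraMap E[X] L X := by rw [halgT, aeval_X]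
  have h5 : f (KaehlerDifferential.D E L (algebraMap E[X] L X)) = 1 := by
    show (LinearMap.liftBaseChange L g)
      ((KaehlerDifferential.tensorKaehlerEquivOfFormallyEtale E E[X] L).symm
        (KaehlerDifferential.D E L (algebraMap E[X] L X))) = 1
    rw [KaehlerDifferential.tensorKaehlerEquivOfFormallyEtale_symm_D_algebraMap,
      LinearMap.liftBaseChange_tmul, one_smul]
    show algebraMap E[X] L (KaehlerDifferential.polynomialEquiv E (KaehlerDifferential.D E E[X] X))
      = 1
    rw [KaehlerDifferential.polynomialEquiv_D, derivative_X, map_one]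
  rw [← h4] at h5
  exact h5


open scoped algebraAdjoinAdjoin in
theorem alg_exchange {E L : Type*} [Field E] [Field L] [Algebra E L] (x t : L)
    (hx : Transcendental E x)
    (hfin : Algebra.IsAlgebraic (IntermediateField.adjoin E {x}) L)
    (ht : Transcendental E t) : Algebra.IsAlgebraic (IntermediateField.adjoin E {t}) L := by
  have hx1 : AlgebraicIndependent E (fun _ : Unit => x) :=
    (algebraicIndependent_unique_type_iff).2 hx
  have ht1 : AlgebraicIndependent E (fun _ : Unit => t) :=
    (algebraicIndependent_unique_type_iff).2 ht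
  have hr : ∀ y : L, Set.range (fun _ : Unit => y) = {y} := by
    intro y
    ext z
    simp [eq_comm]
  have h1 : IsTranscendenceBasis E (fun _ : Unit => x) := by
    rw [hx1.isTranscendenceBasis_iff_isAlgebraic, hr]
    exact (IsFractionRing.comap_isAlgebraic_iff (A := Algebra.adjoin E {x})
      (K := IntermediateField.adjoin E {x}) (C := L)).2 hfin
  have h2 : IsTranscendenceBasis E (fun _ : Unit => t) := by
    apply ht1.isTranscendenceBasis_of_lift_trdeg_le_of_finite
    rw [← h1.lift_cardinalMk_eq_trdeg]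
  have h3 := h2.isAlgebraic_field
  rw [hr] at h3
  exact h3

section taylor
variable {O κ : Type*} [CommRing O] [Field κ] [CharZero κ]

/-- Taylor series -/
noncomputable def tay (D : Derivation ℤ O O) (r : O →+* κ) (z : O) : PowerSeries κ :=
  PowerSeries.mk fun n => r ((fun y => D y)^[n] z) / (n.factorial : κ)

omit [CharZero κ] in
theorem coeff_tay (D : Derivation ℤ O O) (r : O →+* κ) (z : O) (n : ℕ) :
    PowerSeries.coeff n (tay D r z) = r ((fun y => D y)^[n] z) / (n.factorial : κ) := by
  unfold tay
  rw [PowerSeries.coeff_mk]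

theorem tay_succ (D : Derivation ℤ O O) (r : O →+* κ) (z : O) (n : ℕ) :
    PowerSeries.coeff (n + 1) (tay D r z) * (n + 1) = PowerSeries.coeff n (tay D r (D z)) := by
  rw [coeff_tay, coeff_tay, Function.iterate_succ_apply, Nat.factorial_succ]
  have h1 : ((n : κ) + 1) ≠ 0 := Nat.cast_add_one_ne_zero n
  have h2 : (n.factorial : κ) ≠ 0 := Nat.cast_ne_zero.2 (Nat.factorial_ne_zero _)
  push_cast
  field_simp

theorem tay_add (D : Derivation ℤ O O) (r : O →+* κ) (y z : O) :
    tay D r (y + z) = tay D r y + tay D r z := by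
  ext n
  rw [map_add, coeff_tay, coeff_tay, coeff_tay]
  have h : (fun y => D y)^[n] (y + z) = (fun y => D y)^[n] y + (fun y => D y)^[n] z := by
    induction n generalizing y z with
    | zero => rfl
    | succ n ih =>
      rw [Function.iterate_succ_apply, Function.iterate_succ_apply, Function.iterate_succ_apply]
      simp only [map_add]
      exact ih _ _
  rw [h, map_add, add_div]

theorem tay_mul (D : Derivation ℤ O O) (r : O →+* κ) (y z : O) :
    tay D r (y * z) = tay D r y * tay D r z := by
  have h : ∀ n, ∀ y z : O, PowerSeries.coeff n (tay D r (y * z)) =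
      PowerSeries.coeff n (tay D r y * tay D r z) := by
    intro n
    induction n with
    | zero =>
      intro y z
      rw [coeff_tay, PowerSeries.coeff_zero_eq_constantCoeff_apply, map_mul,
        ← PowerSeries.coeff_zero_eq_constantCoeff_apply,
        ← PowerSeries.coeff_zero_eq_constantCoeff_apply, coeff_tay, coeff_tay]
      simp
    | succ n ih =>
      intro y z
      have h1 : ((n : κ) + 1) ≠ 0 := Nat.cast_add_one_ne_zero n
      apply mul_right_cancel₀ h1
      rw [tay_succ, ← PowerSeries.coeff_derivative, Derivation.leibniz, Derivation.leibniz,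
        tay_add, map_add, map_add, smul_eq_mul, smul_eq_mul, smul_eq_mul, smul_eq_mul, ih, ih]
      have h2 : ∀ w : O, tay D r (D w) = PowerSeries.derivative κ (tay D r w) := by
        intro w
        ext m
        rw [PowerSeries.coeff_derivative, tay_succ]
      rw [h2, h2]
  ext n
  exact h n y z

theorem tay_const (D : Derivation ℤ O O) (r : O →+* κ) (z : O) (hz : D z = 0) :
    tay D r z = PowerSeries.C (r z) := by
  ext n
  rw [coeff_tay, PowerSeries.coeff_C]
  rcases n with _ | n
  · simp
  · rw [Function.iterate_succ_apply, if_neg (Nat.succ_ne_zero n)]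
    have h : (fun y => D y)^[n] (D z) = 0 := by
      rw [hz]
      have : ∀ m, (fun y => D y)^[m] (0 : O) = 0 := by
        intro m
        induction m with
        | zero => rfl
        | succ m ih => rw [Function.iterate_succ_apply, map_zero, ih]
      exact this n
    rw [h, map_zero, zero_div]

theorem tay_X (D : Derivation ℤ O O) (r : O →+* κ) (z : O) (hz : D z = 1) (hr : r z = 0) :
    tay D r z = PowerSeries.X := by
  ext n
  rcases n with _ | n
  · rw [coeff_tay]
    simp [hr]
  · have h1 : ((n : κ) + 1) ≠ 0 := Nat.cast_add_one_ne_zero n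
    apply mul_right_cancel₀ h1
    rw [tay_succ, hz, tay_const D r 1 (by simp), map_one, PowerSeries.coeff_X,
      PowerSeries.coeff_C]
    rcases n with _ | n
    · simp
    · simp

theorem exists_tay (D : Derivation ℤ O O) (r : O →+* κ) :
    ∃ T : O →+* PowerSeries κ, (∀ z, PowerSeries.constantCoeff (T z) = r z) ∧
      (∀ z, D z = 0 → T z = PowerSeries.C (r z)) ∧
      ∀ z, D z = 1 → r z = 0 → T z = PowerSeries.X := by
  refine ⟨{ toFun := tay D r
            map_one' := by
              rw [tay_const D r 1 (by simp), map_one, map_one]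
            map_mul' := tay_mul D r
            map_zero' := by
              rw [tay_const D r 0 (by simp), map_zero, map_zero]
            map_add' := tay_add D r }, fun z => ?_, tay_const D r, tay_X D r⟩
  show PowerSeries.constantCoeff (tay D r z) = r z
  rw [← PowerSeries.coeff_zero_eq_constantCoeff_apply, coeff_tay]
  simp

end taylor

/-- the power series in the field of Laurent series -/
theorem exists_V (κ : Type*) [Field κ] : ∃ V : ValuationSubring (LaurentSeries κ),
    (∀ f, f ∈ V ↔ ∃ F : PowerSeries κ, (F : LaurentSeries κ) = f) ∧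
    ∀ F : PowerSeries κ, PowerSeries.constantCoeff F = 0 → (F : LaurentSeries κ) ∈ V.nonunits := by
  have hV : ∀ f, f ∈ (Valued.v (R := LaurentSeries κ)).valuationSubring ↔
      ∃ F : PowerSeries κ, (F : LaurentSeries κ) = f := by
    intro f
    rw [Valuation.mem_valuationSubring_iff]
    exact LaurentSeries.val_le_one_iff_eq_coe κ f
  refine ⟨(Valued.v (R := LaurentSeries κ)).valuationSubring, hV, fun F hF => ?_⟩
  rw [ValuationSubring.mem_nonunits_iff_or]
  by_cases h0 : (F : LaurentSeries κ) = 0
  · exact Or.inl h0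
  right
  intro h1
  rw [hV] at h1
  obtain ⟨G, hG⟩ := h1
  have h2 : ((F * G : PowerSeries κ) : LaurentSeries κ) = ((1 : PowerSeries κ) : LaurentSeries κ) := by
    rw [PowerSeries.coe_mul, hG, mul_inv_cancel₀ h0, PowerSeries.coe_one]
  have h3 : F * G = 1 := HahnSeries.ofPowerSeries_injective h2
  have h4 := congrArg PowerSeries.constantCoeff h3
  rw [map_mul, hF, zero_mul, map_one] at h4
  exact zero_ne_one h4


section basis
variable {E L : Type*} [Field E] [Field L] [Algebra E L]

open Pool.Agent.H928R2.Inv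

theorem exists_basis (O : ValuationSubring L) (hE : ∀ a : E, algebraMap E L a ∈ O)
    (hfin : ∃ n : ℕ, ∀ (m : ℕ) (f : Fin m → L), (∀ i, f i ∈ O) →
      (∀ a : Fin m → E, ∑ i, algebraMap E L (a i) * f i ∈ O.nonunits → a = 0) → m ≤ n) :
    ∃ (m : ℕ) (b : Fin m → L), (∀ i, b i ∈ O) ∧ ∀ z ∈ O, ∃ a : Fin m → E,
      z - ∑ i, algebraMap E L (a i) * b i ∈ O.nonunits := by
  classical
  obtain ⟨n, hn⟩ := hfin
  let good : ℕ → Prop := fun m => ∃ f : Fin m → L, (∀ i, f i ∈ O) ∧
      (∀ a : Fin m → E, ∑ i, algebraMap E L (a i) * f i ∈ O.nonunits → a = 0)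
  have hgood0 : good 0 := ⟨Fin.elim0, fun i => i.elim0, fun a _ => Subsingleton.elim _ _⟩
  have hbound : ∀ m, good m → m ≤ n := by
    rintro m ⟨f, hf, hind⟩
    exact hn m f hf hind
  obtain ⟨m, hm, hmax⟩ : ∃ m, good m ∧ ∀ m', good m' → m' ≤ m := by
    refine ⟨Nat.findGreatest good n, Nat.findGreatest_spec (Nat.zero_le n) hgood0, ?_⟩
    intro m' hm'
    exact Nat.le_findGreatest (hbound m' hm') hm'
  obtain ⟨b, hb, hind⟩ := hm
  refine ⟨m, b, hb, fun z hz => ?_⟩
  have hnot : ¬ good (m + 1) := fun h => by
    have := hmax _ h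
    omega
  have h1 : ∃ a : Fin (m + 1) → E, ∑ i, algebraMap E L (a i) *
      (Fin.cons z b : Fin (m + 1) → L) i ∈ O.nonunits ∧ a ≠ 0 := by
    by_contra hcon
    push Not at hcon
    apply hnot
    refine ⟨Fin.cons z b, ?_, hcon⟩
    intro i
    refine Fin.cases ?_ (fun i => ?_) i
    · exact hz
    · exact hb i
  obtain ⟨a, ha, ha0⟩ := h1
  rw [Fin.sum_univ_succ] at ha
  simp only [Fin.cons_zero, Fin.cons_succ] at ha
  have ha00 : a 0 ≠ 0 := by
    intro h0
    apply ha0
    rw [h0, map_zero, zero_mul, zero_add] at ha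
    have h2 := hind _ ha
    funext i
    refine Fin.cases h0 (fun i => ?_) i
    exact congrFun h2 i
  have haL : algebraMap E L (a 0) ≠ 0 := (map_ne_zero (algebraMap E L)).2 ha00
  refine ⟨fun i => - (a i.succ / a 0), ?_⟩
  have h5 : z - ∑ i, algebraMap E L (- (a i.succ / a 0)) * b i =
      (algebraMap E L (a 0) * z + ∑ i, algebraMap E L (a i.succ) * b i) *
        algebraMap E L (a 0)⁻¹ := by
    rw [add_mul, Finset.sum_mul, map_inv₀, sub_eq_add_neg, ← Finset.sum_neg_distrib]
    congr 1
    · field_simp
    · refine Finset.sum_congr rfl fun i _ => ?_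
      rw [map_neg, map_div₀]
      field_simp
  rw [h5]
  exact nonunits_mul ha (hE _)

theorem exists_poly (O : ValuationSubring L)
    (hfin : ∃ n : ℕ, ∀ (m : ℕ) (f : Fin m → L), (∀ i, f i ∈ O) →
      (∀ a : Fin m → E, ∑ i, algebraMap E L (a i) * f i ∈ O.nonunits → a = 0) → m ≤ n)
    (f : L) (hf : f ∈ O) : ∃ P : E[X], P ≠ 0 ∧ aeval f P ∈ O.nonunits := by
  classical
  obtain ⟨n, hn⟩ := hfin
  by_contra hcon
  push Not at hcon
  have h1 := hn (n + 1) (fun i => f ^ (i : ℕ)) (fun i => pow_mem hf _) (fun a ha => by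
    by_contra ha0
    obtain ⟨P, hP⟩ : ∃ P : E[X], P = ∑ i : Fin (n + 1), C (a i) * X ^ (i : ℕ) := ⟨_, rfl⟩
    have hc : ∀ j : Fin (n + 1), P.coeff (j : ℕ) = a j := by
      intro j
      rw [hP, finsetSum_coeff, Finset.sum_eq_single j]
      · simp
      · intro i _ hij
        rw [coeff_C_mul, coeff_X_pow, if_neg, mul_zero]
        intro h
        exact hij (Fin.ext h.symm)
      · simp
    have hP0 : P ≠ 0 := by
      rintro rfl
      apply ha0
      funext j
      rw [← hc j]
      simp
    apply hcon P hP0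
    rw [hP, map_sum]
    have h2 : ∀ i : Fin (n + 1), aeval f (C (a i) * X ^ (i : ℕ)) =
        algebraMap E L (a i) * f ^ (i : ℕ) := by
      intro i
      rw [map_mul, aeval_C, map_pow, aeval_X]
    rw [Finset.sum_congr rfl fun i _ => h2 i]
    exact ha)
  omega

end basis

end Pool.Agent.H928R2.TriPlaceAux

open MvPolynomial Pool.Agent.H928R2.Inv Pool.Agent.H928R2.Pen Pool.Agent.H928R2.TriPlaceAux

namespace Pool.Agent.H928R2.Tri

theorem base_place.{u, v} {E : Type u} {L : Type v} [Field E] [CharZero E] [Field L] [Algebra E L]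
    (hcl : AlgCl E L) (x : L) (hx : Transcendental E x)
    (hfin : FiniteDimensional (IntermediateField.adjoin E {x}) L)
    (O : ValuationSubring L) (hE : ∀ a : E, algebraMap E L a ∈ O) (hxO : x ∉ O) :
    ∃ (L' : Type v) (_ : Field L') (_ : Algebra L L') (_ : Algebra E L')
      (_ : IsScalarTower E L L') (_ : FiniteDimensional L L') (E' : IntermediateField E L')
      (O' : ValuationSubring L'), FiniteDimensional E E' ∧
      (∀ z : L, algebraMap L L' z ∈ O' ↔ z ∈ O) ∧ (∀ a : E', (a : L') ∈ O') ∧
      ∀ z ∈ O', ∃ a : E', z - (a : L') ∈ O'.nonunits := by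
  classical
  have hx0 : x ≠ 0 := fun h => hxO (by rw [h]; exact O.zero_mem)
  obtain ⟨⟨t, ht⟩, -, hbd⟩ := (places x hx hfin).2 O hE hxO
  have hxi : x⁻¹ ∈ O.nonunits := by
    rw [ValuationSubring.mem_nonunits_iff_or, inv_inv]
    exact Or.inr hxO
  have hadj : IntermediateField.adjoin E {x⁻¹} = IntermediateField.adjoin E {x} := by
    apply le_antisymm
    · rw [IntermediateField.adjoin_simple_le_iff]
      exact inv_mem (IntermediateField.mem_adjoin_simple_self E x)
    · rw [IntermediateField.adjoin_simple_le_iff]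
      have h1 : x = (x⁻¹)⁻¹ := by rw [inv_inv]
      have h2 : (x⁻¹)⁻¹ ∈ IntermediateField.adjoin E {x⁻¹} :=
        inv_mem (IntermediateField.mem_adjoin_simple_self E x⁻¹)
      rwa [inv_inv] at h2
  have hfin' : FiniteDimensional (IntermediateField.adjoin E {x⁻¹}) L := by
    rw [hadj]
    exact hfin
  have hrf := res_fin O hE x⁻¹ (inv_ne_zero hx0) hxi hfin'
  have hres : ∀ f ∈ O, ∃ P : Polynomial E, P ≠ 0 ∧ Polynomial.aeval f P ∈ O.nonunits :=
    fun f hf => exists_poly O hrf f hf
  obtain ⟨m, b, hb, hbs⟩ := exists_basis O hE hrf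
  -- the derivation
  obtain ⟨D0, hD0x⟩ := exists_der x hx hfin
  have hD0 : D0 ≠ 0 := by
    intro h
    rw [h] at hD0x
    exact zero_ne_one hD0x
  have htt : Transcendental E t := by
    intro h
    exact ht.inv (algebraic_mem hE h.inv)
  have hDt : D0 t ≠ 0 := deriv_ne_zero D0 hD0 t
    (alg_exchange x t hx (Algebra.IsAlgebraic.of_finite _ _) htt)
  have hDO : ∀ z ∈ O, D0 z / D0 t ∈ O := fun z hz =>
    deriv_mem O hE t ht hres D0 hDt x hx0 (hbd D0) z hz
  let dl : O →+ O :=
    { toFun := fun z => ⟨D0 (z : L) / D0 t, hDO z z.2⟩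
      map_zero' := by
        apply Subtype.ext
        show D0 (0 : L) / D0 t = 0
        rw [map_zero, zero_div]
      map_add' := by
        intro y z
        apply Subtype.ext
        show D0 ((y : L) + z) / D0 t = D0 y / D0 t + D0 z / D0 t
        rw [map_add, add_div] }
  let D : Derivation ℤ O O := Derivation.mk' dl.toIntLinearMap (fun y z => by
    apply Subtype.ext
    show D0 ((y : L) * z) / D0 t = (y : L) * (D0 z / D0 t) + z * (D0 y / D0 t)
    rw [Derivation.leibniz, smul_eq_mul, smul_eq_mul]
    ring)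
  have hD : ∀ z : O, ((D z : O) : L) = D0 z / D0 t := fun _ => rfl
  -- the residue field
  let r : O →+* IsLocalRing.ResidueField O := IsLocalRing.residue O
  let ρ : E →+* IsLocalRing.ResidueField O :=
    r.comp ((algebraMap E L).codRestrict O.toSubring hE)
  have hρ : ∀ a : E, ρ a = r ⟨algebraMap E L a, hE a⟩ := fun _ => rfl
  have : CharZero (IsLocalRing.ResidueField O) := charZero_of_injective_ringHom ρ.injective
  have hr0 : ∀ z : O, r z = 0 ↔ (z : L) ∈ O.nonunits := by
    intro z
    rw [ValuationSubring.coe_mem_nonunits_iff]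
    exact Ideal.Quotient.eq_zero_iff_mem
  obtain ⟨T, hT0, hTC, hTX⟩ := exists_tay D r
  have hTt : T ⟨t, ht.mem⟩ = PowerSeries.X := by
    apply hTX
    · apply Subtype.ext
      rw [hD]
      exact div_self hDt
    · rw [hr0]
      exact ht.nonunit
  have hTinj : Function.Injective T := by
    rw [injective_iff_map_eq_zero]
    intro z hz
    by_contra hz0
    have hzL : (z : L) ≠ 0 := fun h => hz0 (Subtype.ext h)
    obtain ⟨j, u, hu, hui, h1⟩ := ht.fac (z : L) hzL
    have hu0 : u ≠ 0 := by
      rintro rfl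
      rw [zero_mul] at h1
      exact hzL h1
    have hTu : T ⟨u, hu⟩ ≠ 0 := by
      intro h
      have h2 := hT0 ⟨u, hu⟩
      rw [h, map_zero] at h2
      exact notMem_nonunits_of_inv hu0 hui ((hr0 ⟨u, hu⟩).1 h2.symm)
    rcases Int.le_total 0 j with hj | hj
    · obtain ⟨n, rfl⟩ := Int.eq_ofNat_of_zero_le hj
      have h2 : z = ⟨u, hu⟩ * ⟨t, ht.mem⟩ ^ n := by
        apply Subtype.ext
        show (z : L) = u * t ^ n
        rw [h1, zpow_natCast]
      rw [h2, map_mul, map_pow, hTt] at hz
      rcases mul_eq_zero.1 hz with h3 | h3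
      · exact hTu h3
      · exact pow_ne_zero n PowerSeries.X_ne_zero h3
    · obtain ⟨n, hn⟩ := Int.eq_ofNat_of_zero_le (Int.neg_nonneg.2 hj)
      have h2 : z * (⟨u⁻¹, hui⟩ * ⟨t, ht.mem⟩ ^ n) = 1 := by
        apply Subtype.ext
        show (z : L) * (u⁻¹ * t ^ n) = 1
        rw [h1, ← zpow_natCast, ← hn, zpow_neg]
        have h3 : t ^ j ≠ 0 := zpow_ne_zero _ ht.ne
        field_simp
      have h3 := congrArg T h2
      rw [map_mul, hz, zero_mul, map_one] at h3
      exact zero_ne_one h3
  -- the embedding into the Laurent series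
  let Ω := LaurentSeries (IsLocalRing.ResidueField O)
  let co : PowerSeries (IsLocalRing.ResidueField O) →+* Ω := HahnSeries.ofPowerSeries ℤ _
  have hco : Function.Injective co := HahnSeries.ofPowerSeries_injective
  let τ : L →+* Ω := IsFractionRing.lift (A := O) (K := L) (g := co.comp T)
    (hco.comp hTinj)
  have hτ : ∀ z : O, τ (z : L) = co (T z) := fun z =>
    IsFractionRing.lift_algebraMap (A := O) (K := L) (g := co.comp T) (hco.comp hTinj) z
  let cc : IsLocalRing.ResidueField O →+* Ω := co.comp PowerSeries.C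
  have hτE : ∀ a : E, τ (algebraMap E L a) = cc (ρ a) := by
    intro a
    have h1 := hτ ⟨algebraMap E L a, hE a⟩
    have h2 : D ⟨algebraMap E L a, hE a⟩ = 0 := by
      apply Subtype.ext
      rw [hD]
      show D0 (algebraMap E L a) / D0 t = 0
      rw [D0.map_algebraMap, zero_div]
    rw [hTC _ h2] at h1
    exact h1
  obtain ⟨V, hV, hVn⟩ := exists_V (IsLocalRing.ResidueField O)
  have hmem : ∀ z : L, τ z ∈ V ↔ z ∈ O := by
    intro z
    constructor
    · intro h
      by_contra hz
      have hz0 : z ≠ 0 := by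
        rintro rfl
        exact hz O.zero_mem
      have h1 : z⁻¹ ∈ O.nonunits := by
        rw [ValuationSubring.mem_nonunits_iff_or, inv_inv]
        exact Or.inr hz
      have h2 : τ z⁻¹ ∈ V.nonunits := by
        have h3 := hτ ⟨z⁻¹, nonunits_mem h1⟩
        have h4 : τ z⁻¹ = co (T ⟨z⁻¹, nonunits_mem h1⟩) := h3
        rw [h4]
        apply hVn
        rw [hT0, hr0]
        exact h1
      refine notMem_nonunits_of_inv ?_ ?_ h2
      · exact (_root_.map_ne_zero τ).2 (inv_ne_zero hz0)
      · rw [map_inv₀, inv_inv]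
        exact h
    · intro h
      rw [hV]
      exact ⟨T ⟨z, h⟩, (hτ ⟨z, h⟩).symm⟩
  -- the field
  let algLΩ : Algebra L Ω := τ.toAlgebra
  have halg : ∀ z : L, algebraMap L Ω z = τ z := fun _ => rfl
  let S : Set Ω := Set.range (fun i : Fin m => cc (r ⟨b i, hb i⟩))
  let F : IntermediateField L Ω := IntermediateField.adjoin L S
  have hSfin : Finite S := (Set.finite_range _).to_subtype
  have hFfin : FiniteDimensional L F := by
    apply IntermediateField.finiteDimensional_adjoin
    rintro _ ⟨i, rfl⟩
    obtain ⟨P, hP0, hP⟩ := hres (b i) (hb i)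
    have h1 : Polynomial.eval₂ ρ (r ⟨b i, hb i⟩) P = 0 := by
      have h2 : Polynomial.eval₂ ((algebraMap E L).codRestrict O.toSubring hE)
          (⟨b i, hb i⟩ : O) P = ⟨Polynomial.aeval (b i) P, nonunits_mem hP⟩ := by
        apply Subtype.ext
        have h3 := Polynomial.hom_eval₂ P ((algebraMap E L).codRestrict O.toSubring hE)
          O.toSubring.subtype (⟨b i, hb i⟩ : O)
        exact h3
      have h4 := Polynomial.hom_eval₂ P ((algebraMap E L).codRestrict O.toSubring hE)
          r (⟨b i, hb i⟩ : O)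
      rw [h2] at h4
      rw [← (hr0 ⟨Polynomial.aeval (b i) P, nonunits_mem hP⟩).2 hP]
      exact h4.symm
    have h5 : IsAlgebraic L (cc (r ⟨b i, hb i⟩)) := by
      refine ⟨P.map (algebraMap E L), ?_, ?_⟩
      · rw [Ne, Polynomial.map_eq_zero]
        exact hP0
      · rw [Polynomial.aeval_def, Polynomial.eval₂_map]
        have h6 : (algebraMap L Ω).comp (algebraMap E L) = cc.comp ρ := by
          ext1 a
          exact hτE a
        rw [h6, ← Polynomial.hom_eval₂, h1, map_zero]
    exact h5.isIntegral
  have hcc : ∀ c, cc c ∈ F := by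
    intro c
    obtain ⟨z, rfl⟩ := IsLocalRing.residue_surjective c
    obtain ⟨a, ha⟩ := hbs z z.2
    have h1 : r z = ∑ i, ρ (a i) * r ⟨b i, hb i⟩ := by
      have h2 : (z - ∑ i, (⟨algebraMap E L (a i), hE _⟩ : O) * ⟨b i, hb i⟩ : O) = 
          ⟨(z : L) - ∑ i, algebraMap E L (a i) * b i, nonunits_mem ha⟩ := by
        apply Subtype.ext
        push_cast
        rfl
      have h3 := (hr0 ⟨(z : L) - ∑ i, algebraMap E L (a i) * b i, nonunits_mem ha⟩).2 ha
      rw [← h2, map_sub, sub_eq_zero, map_sum] at h3
      rw [h3]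
      refine Finset.sum_congr rfl fun i _ => ?_
      rw [map_mul]
      rfl
    rw [show (IsLocalRing.residue O) z = r z from rfl, h1, map_sum]
    refine sum_mem fun i _ => ?_
    rw [map_mul, ← hτE]
    exact mul_mem (F.algebraMap_mem _) (IntermediateField.subset_adjoin _ _ ⟨i, rfl⟩)
  let algEF : Algebra E F := ((algebraMap L F).comp (algebraMap E L)).toAlgebra
  have hEF : ∀ a : E, ((algebraMap E F a : F) : Ω) = cc (ρ a) := by
    intro a
    rw [← hτE]
    rfl
  let cF : IsLocalRing.ResidueField O →+* F := cc.codRestrict F.toSubfield.toSubring hcc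
  have hcF : ∀ c, ((cF c : F) : Ω) = cc c := fun _ => rfl
  let E' : IntermediateField E F := cF.fieldRange.toIntermediateField (fun a => ⟨ρ a, by
    apply Subtype.ext
    rw [hEF]
    rfl⟩)
  have hE' : ∀ w : F, w ∈ E' ↔ ∃ c, cF c = w := fun w => Iff.rfl
  refine ⟨F, inferInstance, inferInstance, algEF, IsScalarTower.of_algebraMap_eq (fun _ => rfl),
    hFfin, E', V.comap (algebraMap F Ω), ?_, ?_, ?_, ?_⟩
  · let g : Fin m → E' := fun i => ⟨cF (r ⟨b i, hb i⟩), ⟨_, rfl⟩⟩
    refine ⟨Submodule.fg_def.2 ⟨Set.range g, Set.finite_range g, ?_⟩⟩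
    rw [eq_top_iff]
    rintro ⟨w, hw⟩ -
    obtain ⟨c, rfl⟩ := (hE' w).1 hw
    obtain ⟨z, rfl⟩ := IsLocalRing.residue_surjective c
    obtain ⟨a, ha⟩ := hbs z z.2
    have h1 : r z = ∑ i, ρ (a i) * r ⟨b i, hb i⟩ := by
      have h2 : (z - ∑ i, (⟨algebraMap E L (a i), hE _⟩ : O) * ⟨b i, hb i⟩ : O) = 
          ⟨(z : L) - ∑ i, algebraMap E L (a i) * b i, nonunits_mem ha⟩ := by
        apply Subtype.ext
        push_cast
        rfl
      have h3 := (hr0 ⟨(z : L) - ∑ i, algebraMap E L (a i) * b i, nonunits_mem ha⟩).2 ha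
      rw [← h2, map_sub, sub_eq_zero, map_sum] at h3
      rw [h3]
      refine Finset.sum_congr rfl fun i _ => ?_
      rw [map_mul]
      rfl
    have h2 : (⟨cF (IsLocalRing.residue O z), hw⟩ : E') = ∑ i, a i • g i := by
      apply Subtype.ext
      show cF (r z) = E'.val (∑ i, a i • g i)
      rw [h1, map_sum, map_sum]
      refine Finset.sum_congr rfl fun i _ => ?_
      have h3 : E'.val (a i • g i) = algebraMap E F (a i) * cF (r ⟨b i, hb i⟩) := by
        rw [IntermediateField.coe_val, IntermediateField.coe_smul, Algebra.smul_def]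
      rw [h3, map_mul]
      congr 1
      apply Subtype.ext
      rw [hEF]
      rfl
    rw [h2]
    exact Submodule.sum_mem _ fun i _ => Submodule.smul_mem _ _ (Submodule.subset_span ⟨i, rfl⟩)
  · intro z
    rw [ValuationSubring.mem_comap]
    exact hmem z
  · rintro ⟨w, hw⟩
    obtain ⟨c, rfl⟩ := (hE' w).1 hw
    rw [ValuationSubring.mem_comap, hV]
    exact ⟨PowerSeries.C c, rfl⟩
  · intro z hz
    rw [ValuationSubring.mem_comap, hV] at hz
    obtain ⟨G, hG⟩ := hz
    refine ⟨⟨cF (PowerSeries.constantCoeff G), ⟨_, rfl⟩⟩, ?_⟩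
    have h1 : ((G - PowerSeries.C (PowerSeries.constantCoeff G) :
        PowerSeries (IsLocalRing.ResidueField O)) : Ω) ∈ V.nonunits := by
      apply hVn
      rw [map_sub, PowerSeries.constantCoeff_C, sub_self]
    have h2 : algebraMap F Ω (z - cF (PowerSeries.constantCoeff G)) ∈ V.nonunits := by
      have h3 : algebraMap F Ω (z - cF (PowerSeries.constantCoeff G)) =
          co (G - PowerSeries.C (PowerSeries.constantCoeff G)) := by
        rw [map_sub, map_sub]
        congr 1
        exact hG.symm
      rw [h3]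
      exact h1
    rw [ValuationSubring.mem_nonunits_iff_or] at h2 ⊢
    rcases h2 with h3 | h3
    · left
      rw [map_eq_zero] at h3
      exact h3
    · right
      rw [← map_inv₀] at h3
      exact h3

end Pool.Agent.H928R2.Tri
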