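import Pool.Agent.H928R2.TriEq
import Pool.Agent.H928R2.TriConst
import Pool.Agent.H928R2.TriBdd
import Pool.Agent.H928R2.TriPlace
import Pool.Agent.H928R2.TriExt
import Pool.Agent.H928R2.TriDescend

/-!
# A constant of the derivation with a pole at a given place
-/

set_option autoImplicit false
set_option linter.unusedSectionVars false

open Pool.Agent.H928R2.Inv Pool.Agent.H928R2.Pen

namespace Pool.Agent.H928R2.Tri

section up
variable {E L L' : Type*} [Field E] [Field L] [Field L'] [Algebra E L] [Algebra L L'] [Algebra E L']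
  [IsScalarTower E L L'] [FiniteDimensional L L'] (E' : IntermediateField E L')
  [FiniteDimensional E E']

theorem up_tr {g : L} (hg : Transcendental E g) : Transcendental E' (algebraMap L L' g) := by
  intro h
  apply hg
  have h1 : IsAlgebraic E (algebraMap L L' g) := h.restrictScalars E
  exact (isAlgebraic_algebraMap_iff (algebraMap L L').injective).1 h1

theorem up_fin {g : L} (hfin : FiniteDimensional (IntermediateField.adjoin E {g}) L) :
    FiniteDimensional (IntermediateField.adjoin E' {algebraMap L L' g}) L' := by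
  have h : ∀ x ∈ IntermediateField.adjoin E {g},
      algebraMap L L' x ∈ IntermediateField.adjoin E' {algebraMap L L' g} := by
    intro x hx
    induction hx using IntermediateField.adjoin_induction with
    | mem x hx =>
      rw [Set.mem_singleton_iff] at hx
      rw [hx]
      exact IntermediateField.mem_adjoin_simple_self _ _
    | algebraMap x =>
      rw [← IsScalarTower.algebraMap_apply]
      have h1 : algebraMap E L' x = algebraMap E' L' (algebraMap E E' x) := rfl
      rw [h1]
      exact IntermediateField.algebraMap_mem _ _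
    | add x y _ _ hx hy => rw [map_add]; exact add_mem hx hy
    | inv x _ hx => rw [map_inv₀]; exact inv_mem hx
    | mul x y _ _ hx hy => rw [map_mul]; exact mul_mem hx hy
  let F := IntermediateField.adjoin E {g}
  let F' := IntermediateField.adjoin E' {algebraMap L L' g}
  let ψ : F →+* F' :=
    { toFun := fun x => ⟨algebraMap L L' x, h x x.2⟩
      map_one' := Subtype.ext (by simp)
      map_mul' := fun x y => Subtype.ext (by simp)
      map_zero' := Subtype.ext (by simp)
      map_add' := fun x y => Subtype.ext (by simp) }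
  let _ : Algebra F F' := ψ.toAlgebra
  have : IsScalarTower F F' L' := IsScalarTower.of_algebraMap_eq (fun _ => rfl)
  have : FiniteDimensional F L' := Module.Finite.trans L L'
  exact Module.Finite.of_restrictScalars_finite F F' L'

end up

/-- a constant of `D` in `R` with a pole at `O1` -/
theorem rho_ex.{u, v} {E : Type u} {L : Type v} [Field E] [CharZero E] [Field L] [CharZero L]
    [Algebra E L] (hcl : AlgCl E L) (g : L) (hg : Transcendental E g)
    (hfin : FiniteDimensional (IntermediateField.adjoin E {g}) L)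
    (D : Derivation ℤ L L)
    (hDE : ∀ a : E, ∃ b : E, D (algebraMap E L a) = algebraMap E L b)
    (η : E) (hDg : D g = algebraMap E L η * g)
    (R : Subalgebra E L)
    (hR : ∀ x : L, (∃ p : Polynomial L, p.Monic ∧ (∀ i, p.coeff i ∈ R.toSubring) ∧
      p.eval x = 0) → x ∈ R.toSubring)
    (hDR : ∀ x ∈ R, D x ∈ R) (t : ValuationSubring L → L) (ht : ∀ O ∈ SR R, IsUnif O (t O))
    (hVfin : ∀ N, Module.Finite E (Pen.P1.VN R t N))
    (hVN : ∀ x ∈ R, ∃ N, x ∈ Pen.P1.VN R t N)
    (hlog : ∀ O ∈ SR R, LogAt O D) (j : L) (hj : D j = 0)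
    (O : ValuationSubring L) (hO : ∀ a : E, algebraMap E L a ∈ O) (hgO : g ∉ O) (hjO : j ∉ O)
    (O1 : ValuationSubring L) (hO1 : O1 ∈ SR R) : ∃ ρ ∈ R, D ρ = 0 ∧ ρ ∉ O1 := by
  obtain ⟨L', i1, i2, i3, i4, i5, E', O', hE'fin, hO'O, hE'O', hres'⟩ :=
    base_place hcl g hg hfin O hO hgO
  have := hE'fin
  have : CharZero L' := charZero_of_injective_algebraMap (algebraMap L L').injective
  have : CharZero E' := charZero_of_injective_algebraMap (algebraMap E E').injective
  have hinst : IsScalarTower R L L' := IsScalarTower.of_algebraMap_eq (fun _ => rfl)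
  obtain ⟨D', hD'⟩ := ext_der (L' := L') D
  have hEalg : ∀ a ∈ E', IsAlgebraic E a := fun a ha => by
    have h1 : IsAlgebraic E (⟨a, ha⟩ : E') := Algebra.IsAlgebraic.isAlgebraic _
    exact (isAlgebraic_algebraMap_iff (algebraMap E' L').injective).2 h1
  have hDE' : ∀ a : E', ∃ b : E', D' (algebraMap E' L' a) = algebraMap E' L' b := by
    refine der_alg E' hEalg D' fun a => ?_
    obtain ⟨b, hb⟩ := hDE a
    refine ⟨b, ?_⟩
    rw [IsScalarTower.algebraMap_apply E L L', hD', hb, ← IsScalarTower.algebraMap_apply]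
  obtain ⟨O1', hO1'⟩ := ext_val (L' := L') O1
  set g' : L' := algebraMap L L' g with hg'
  have hg'tr : Transcendental E' g' := up_tr E' hg
  have hg'fin : FiniteDimensional (IntermediateField.adjoin E' {g'}) L' := up_fin E' hfin
  have hg'O : g' ∉ O' := fun h => hgO ((hO'O g).1 h)
  have hg'0 : g' ≠ 0 := fun h => hg'O (by rw [h]; exact O'.zero_mem)
  have hEO' : ∀ a : E', algebraMap E' L' a ∈ O' := hE'O'
  obtain ⟨t', ht'⟩ := ((places g' hg'tr hg'fin).2 O' hEO' hg'O).1
  set η' : E' := algebraMap E E' η with hη'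
  have hD'g : D' g' = algebraMap E' L' η' * g' := by
    rw [hg', hD', hDg, map_mul, ← IsScalarTower.algebraMap_apply]
    rfl
  have hlog' : LogAt O' D' := by
    refine log_of (E := E') O' hEO' t' ht' ?_ D' hDE' g' hg'0
      (bdd g' hg'tr hg'fin O' hEO' hg'O D' hDE') g'⁻¹ (-algebraMap E' L' η')
      (inv_ne_zero hg'0) ?_ (neg_mem (hEO' _)) ?_
    · intro f hf
      obtain ⟨a, ha⟩ := hres' f hf
      refine ⟨Polynomial.X - Polynomial.C a, Polynomial.X_sub_C_ne_zero a, ?_⟩
      rw [map_sub, Polynomial.aeval_X, Polynomial.aeval_C]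
      exact ha
    · rw [ValuationSubring.mem_nonunits_iff_or]
      right
      rw [inv_inv]
      exact hg'O
    · rw [Derivation.leibniz_inv, hD'g, smul_eq_mul]
      field_simp
  obtain ⟨c, hc1, hc⟩ := exists_c0 g' hg'tr hg'fin
  have hcD := hc D' η' hDE' hD'g
  -- the space spanned by `VN`
  obtain ⟨x, hx, hxO⟩ := hO1.2
  obtain ⟨N, hN⟩ := hVN x hx
  have := hVfin N
  let V : Submodule E L := Pen.P1.VN R t N
  let V' : Submodule E' L' := Submodule.span E' ((algebraMap L L') '' V)
  have hVV : ∀ y ∈ V, D y ∈ V := fun y hy => log_VN R t ht D hDR hlog N y hy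
  have hV'fin : Module.Finite E' V' := by
    obtain ⟨S, hS⟩ := (Module.Finite.iff_fg (R := E) (N := V)).1 (hVfin N)
    rw [Module.Finite.iff_fg]
    classical
    refine ⟨S.image (algebraMap L L'), ?_⟩
    rw [Finset.coe_image]
    apply le_antisymm
    · apply Submodule.span_mono
      apply Set.image_mono
      rw [← hS]
      exact Submodule.subset_span
    · rw [Submodule.span_le]
      rintro _ ⟨y, hy, rfl⟩
      have hy' : y ∈ Submodule.span E (S : Set L) := by rw [hS]; exact hy
      induction hy' using Submodule.span_induction with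
      | mem y hy' => exact Submodule.subset_span ⟨y, hy', rfl⟩
      | zero => rw [map_zero]; exact zero_mem _
      | add y z hy1 hz1 hy2 hz2 =>
        rw [map_add]
        have hyV : y ∈ V := by rw [← hS]; exact hy1
        have hzV : z ∈ V := by rw [← hS]; exact hz1
        exact add_mem (hy2 hyV) (hz2 hzV)
      | smul a y hy1 hy2 =>
        have hyV : y ∈ V := by rw [← hS]; exact hy1
        have h1 : algebraMap L L' (a • y) = algebraMap E E' a • algebraMap L L' y := by
          rw [Algebra.smul_def, map_mul, Algebra.smul_def, ← IsScalarTower.algebraMap_apply]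
          rfl
        rw [h1]
        exact Submodule.smul_mem _ _ (hy2 hyV)
  have hV'D : ∀ y ∈ V', D' y ∈ V' := by
    intro y hy
    induction hy using Submodule.span_induction with
    | mem y hy =>
      obtain ⟨z, hz, rfl⟩ := hy
      rw [hD']
      exact Submodule.subset_span ⟨_, hVV z hz, rfl⟩
    | zero => rw [map_zero]; exact zero_mem _
    | add y z _ _ hy hz => rw [map_add]; exact add_mem hy hz
    | smul a y hy1 hy2 =>
      obtain ⟨b, hb⟩ := hDE' a
      rw [Algebra.smul_def, D'.leibniz, hb, smul_eq_mul, smul_eq_mul, mul_comm y,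
        ← Algebra.smul_def, ← Algebra.smul_def]
      exact add_mem (Submodule.smul_mem _ _ hy2) (Submodule.smul_mem _ _ hy1)
  have hspan := span_of_exists D' c hc1 hcD Set.univ
    (fun W hW hW0 hWD => by
      obtain ⟨z, hz, hz0, μ, hμ⟩ := exists_darboux O' hEO' t' ht' hres' D' hlog' W hW hW0 hWD
      exact ⟨z, hz, hz0, μ, trivial, hμ⟩) V' hV'fin hV'D
  -- algebraic elements are in every valuation ring
  have hEO1' : ∀ a : E', algebraMap E' L' a ∈ O1' := by
    intro a
    have h1 : ∀ b : E, algebraMap E L' b ∈ O1' := by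
      intro b
      rw [IsScalarTower.algebraMap_apply E L L']
      exact (hO1' _).2 (hO1.1 b)
    exact algebraic_mem h1 (hEalg a a.2)
  have hxO' : algebraMap L L' x ∉ O1' := fun h => hxO ((hO1' x).1 h)
  obtain ⟨z, hzV, hzO, μ, hμ⟩ : ∃ z ∈ V', z ∉ O1' ∧ ∃ μ : E', D' z = algebraMap E' L' μ * z := by
    by_contra hcon
    push Not at hcon
    apply hxO'
    have h1 : Submodule.span E' {z | z ∈ V' ∧ ∃ μ ∈ (Set.univ : Set E'),
        D' z = algebraMap E' L' μ * z} ≤ Pen.P1.MO O1' hEO1' := by
      rw [Submodule.span_le]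
      rintro z ⟨hz, μ, -, hμ⟩
      by_contra hzO
      exact hcon z hz hzO μ hμ
    exact h1 (hspan (Submodule.subset_span ⟨x, hN, rfl⟩))
  have hz0 : z ≠ 0 := fun h => hzO (by rw [h]; exact O1'.zero_mem)
  have hjD' : D' (algebraMap L L' j) = 0 := by rw [hD', hj, map_zero]
  have hjO' : algebraMap L L' j ∉ O' := fun h => hjO ((hO'O j).1 h)
  obtain ⟨M, hM, hconst⟩ := darboux_const O' hEO' t' ht' hres' D' hDE' hlog'
    (algebraMap L L' j) hjD' hjO'
  obtain ⟨s, hs0, hs⟩ := hconst z hz0 ⟨μ, hμ⟩
  have hs0' : algebraMap E' L' s ≠ 0 := fun h => hs0 ((algebraMap E' L').injective (by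
    rw [h, map_zero]))
  -- integrality over `R`
  have hRint : ∀ y ∈ V', IsIntegral R y := by
    intro y hy
    induction hy using Submodule.span_induction with
    | mem y hy =>
      obtain ⟨w, hw, rfl⟩ := hy
      have h1 : algebraMap L L' w = algebraMap R L' ⟨w, hw.1⟩ := rfl
      rw [h1]
      exact isIntegral_algebraMap
    | zero => exact isIntegral_zero
    | add y z _ _ hy hz => exact hy.add hz
    | smul a y _ hy =>
      rw [Algebra.smul_def]
      refine IsIntegral.mul ?_ hy
      have h1 : IsIntegral E (algebraMap E' L' a) := (hEalg a a.2).isIntegral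
      exact h1.tower_top
  have hsint : IsIntegral R (algebraMap E' L' s)⁻¹ := by
    have h1 : (algebraMap E' L' s)⁻¹ = ((s⁻¹ : E') : L') := by
      rw [← map_inv₀]
      rfl
    rw [h1]
    have h2 : IsIntegral E ((s⁻¹ : E') : L') := (hEalg _ (s⁻¹).2).isIntegral
    exact h2.tower_top
  have hρint : IsIntegral R (z ^ M / algebraMap E' L' s) := by
    rw [div_eq_mul_inv]
    exact ((hRint z hzV).pow M).mul hsint
  have hρO : z ^ M / algebraMap E' L' s ∉ O1' := by
    intro h
    have h1 : z ^ M ∈ O1' := by
      have h2 : z ^ M = z ^ M / algebraMap E' L' s * algebraMap E' L' s := by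
        rw [div_mul_cancel₀ _ hs0']
      rw [h2]
      exact mul_mem h (hEO1' s)
    rcases O1'.mem_or_inv_mem z with h3 | h3
    · exact hzO h3
    · apply hzO
      obtain ⟨m, rfl⟩ : ∃ m, M = m + 1 := ⟨M - 1, by omega⟩
      have h4 : z = z ^ (m + 1) * z⁻¹ ^ m := by
        rw [pow_succ, inv_pow]
        field_simp
      rw [h4]
      exact mul_mem h1 (pow_mem h3 m)
  obtain ⟨ρ, hρ, hρD, hρO1⟩ := descend R.toSubring hR D D' hD' O1 O1' hO1'
    (z ^ M / algebraMap E' L' s) hs (by
      obtain ⟨p, hp, hpx⟩ := hρint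
      refine ⟨p.map (algebraMap R L), hp.map _, fun i => ?_, ?_⟩
      · rw [Polynomial.coeff_map]
        exact (p.coeff i).2
      · rw [Polynomial.aeval_map_algebraMap]
        exact hpx) hρO
  exact ⟨ρ, hρ, hρD, hρO1⟩

end Pool.Agent.H928R2.Tri
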