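import Pool.Agent.H928R2.TriBase

set_option autoImplicit false
set_option linter.unusedSectionVars false

/-!
# At most three places at infinity: the two cases (helper959)
-/

open MvPolynomial Pool.Agent.H928R2.Inv Pool.Agent.H928R2.Pen

namespace Pool.Agent.H928R2.Tri

namespace Three

section
variable {E L : Type*} [Field E] [Field L] [Algebra E L]

/-- there is an independent family of size `n` at the place `O` -/
def Ind (E : Type*) {L : Type*} [Field E] [Field L] [Algebra E L] (O : ValuationSubring L)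
    (n : ℕ) : Prop :=
  ∃ u : Fin n → L, (∀ i, u i ∈ O) ∧
    ∀ a : Fin n → E, ∑ i, algebraMap E L (a i) * u i ∈ O.nonunits → a = 0

theorem ind1 {O : ValuationSubring L} (hE : ∀ a : E, algebraMap E L a ∈ O) : Ind E O 1 := by
  refine ⟨fun _ => 1, fun _ => O.one_mem, fun a ha => ?_⟩
  rw [Fin.sum_univ_one, mul_one] at ha
  by_contra hne
  refine const_notMem_nonunits hE ?_ ha
  intro h0
  apply hne
  funext i
  rw [Subsingleton.elim i 0, h0]
  rfl

/-- division by a constant -/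
theorem div_const {O : ValuationSubring L} (hE : ∀ a : E, algebraMap E L a ∈ O) {b : E} {z w : L}
    (hz : z ∈ O.nonunits) (hw : w = algebraMap E L b⁻¹ * z) : w ∈ O.nonunits := by
  rw [hw, mul_comm]
  exact nonunits_mul hz (hE _)

theorem ind2 {O : ValuationSubring L} (hE : ∀ a : E, algebraMap E L a ∈ O) {z : L} (hz : z ∈ O)
    (h : ∀ a : E, z - algebraMap E L a ∉ O.nonunits) : Ind E O 2 := by
  refine ⟨![1, z], ?_, ?_⟩
  · intro i
    fin_cases i
    · exact O.one_mem
    · exact hz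
  · intro a ha
    rw [Fin.sum_univ_two] at ha
    simp only [Matrix.cons_val_zero, Matrix.cons_val_one, mul_one] at ha
    have h1 : a 1 = 0 := by
      by_contra h1
      refine h (-(a 0) * (a 1)⁻¹) (div_const hE (b := a 1) ha ?_)
      have h2 : algebraMap E L (a 1) ≠ 0 := (map_ne_zero _).2 h1
      rw [map_mul, map_neg, map_inv₀]
      field_simp
      ring
    rw [h1, map_zero, zero_mul, add_zero] at ha
    have h0 : a 0 = 0 := by
      by_contra h0
      exact const_notMem_nonunits hE h0 ha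
    funext i
    fin_cases i
    · exact h0
    · exact h1

theorem ind3 {O : ValuationSubring L} (hE : ∀ a : E, algebraMap E L a ∈ O) {z : L} (hz : z ∈ O)
    (h : ∀ c1 c0 : E, z ^ 2 + algebraMap E L c1 * z + algebraMap E L c0 ∉ O.nonunits) :
    Ind E O 3 := by
  have hlin : ∀ a : E, z - algebraMap E L a ∉ O.nonunits := by
    intro a ha
    refine h (-a) 0 ?_
    have := nonunits_mul ha hz
    rw [map_neg, map_zero, add_zero]
    have e : z ^ 2 + -algebraMap E L a * z = (z - algebraMap E L a) * z := by ring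
    rwa [e]
  refine ⟨![1, z, z ^ 2], ?_, ?_⟩
  · intro i
    fin_cases i
    · exact O.one_mem
    · exact hz
    · exact pow_mem hz 2
  · intro a ha
    rw [Fin.sum_univ_three] at ha
    change algebraMap E L (a 0) * 1 + algebraMap E L (a 1) * z + algebraMap E L (a 2) * z ^ 2 ∈
      O.nonunits at ha
    rw [mul_one] at ha
    have h2 : a 2 = 0 := by
      by_contra h2
      refine h (a 1 * (a 2)⁻¹) (a 0 * (a 2)⁻¹) (div_const hE (b := a 2) ha ?_)
      have h3 : algebraMap E L (a 2) ≠ 0 := (map_ne_zero _).2 h2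
      rw [map_mul, map_mul, map_inv₀]
      field_simp
      ring
    rw [h2, map_zero, zero_mul, add_zero] at ha
    have h1 : a 1 = 0 := by
      by_contra h1
      refine hlin (-(a 0) * (a 1)⁻¹) (div_const hE (b := a 1) ha ?_)
      have h2 : algebraMap E L (a 1) ≠ 0 := (map_ne_zero _).2 h1
      rw [map_mul, map_neg, map_inv₀]
      field_simp
      ring
    rw [h1, map_zero, zero_mul, add_zero] at ha
    have h0 : a 0 = 0 := by
      by_contra h0
      exact const_notMem_nonunits hE h0 ha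
    funext i
    fin_cases i
    · exact h0
    · exact h1
    · exact h2

/-- the abstract statement -/
theorem abs_three (T : Set (ValuationSubring L)) (hT : ∀ O ∈ T, ∀ a : E, algebraMap E L a ∈ O)
    (g : L) (Oi : ValuationSubring L) (hOi : Oi ∈ T) (hgi : g ∉ Oi)
    (h3 : ∀ (S : Finset (ValuationSubring L)) (n : ValuationSubring L → ℕ),
      (∀ O ∈ S, O ∈ T ∧ Ind E O (n O)) → ∑ O ∈ S, n O ≤ 3) :
    (∃ a : E, ∀ O' ∈ T, g ∉ O' ∨ g - algebraMap E L a ∈ O'.nonunits) ∨
    ∃ O ∈ T, g ∉ O ∧ (∀ z ∈ O, ∃ a : E, z - algebraMap E L a ∈ O.nonunits) ∧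
      ∃ c1 c0 : E, ∀ O' ∈ T, O' ≠ O → g ∈ O' ∧
        g ^ 2 + algebraMap E L c1 * g + algebraMap E L c0 ∈ O'.nonunits := by
  classical
  have two : ∀ O1 ∈ T, ∀ O2 ∈ T, O1 ≠ O2 → ∀ n1 n2 : ℕ, Ind E O1 n1 → Ind E O2 n2 →
      n1 + n2 ≤ 3 := by
    intro O1 m1 O2 m2 h12 n1 n2 i1 i2
    have h := h3 {O1, O2} (fun O => if O = O1 then n1 else n2) (by
      intro O hO
      rw [Finset.mem_insert, Finset.mem_singleton] at hO
      rcases hO with rfl | rfl
      · simp only [if_true]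
        exact ⟨m1, i1⟩
      · simp only [if_neg (Ne.symm h12)]
        exact ⟨m2, i2⟩)
    rw [Finset.sum_pair h12, if_pos rfl, if_neg (Ne.symm h12)] at h
    exact h
  have three : ∀ O1 ∈ T, ∀ O2 ∈ T, ∀ O3 ∈ T, O1 ≠ O2 → O1 ≠ O3 → O2 ≠ O3 → ∀ n1 n2 n3 : ℕ,
      Ind E O1 n1 → Ind E O2 n2 → Ind E O3 n3 → n1 + n2 + n3 ≤ 3 := by
    intro O1 m1 O2 m2 O3 m3 h12 h13 h23 n1 n2 n3 i1 i2 i3
    have h := h3 {O1, O2, O3} (fun O => if O = O1 then n1 else if O = O2 then n2 else n3) (by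
      intro O hO
      rw [Finset.mem_insert, Finset.mem_insert, Finset.mem_singleton] at hO
      rcases hO with rfl | rfl | rfl
      · simp only [if_true]
        exact ⟨m1, i1⟩
      · simp only [if_neg (Ne.symm h12), if_true]
        exact ⟨m2, i2⟩
      · simp only [if_neg (Ne.symm h13), if_neg (Ne.symm h23)]
        exact ⟨m3, i3⟩)
    rw [Finset.sum_insert (by
      rw [Finset.mem_insert, Finset.mem_singleton, not_or]
      exact ⟨h12, h13⟩), Finset.sum_pair h23, if_pos rfl, if_neg (Ne.symm h12), if_pos rfl,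
      if_neg (Ne.symm h13), if_neg (Ne.symm h23)] at h
    omega
  have four : ∀ O1 ∈ T, ∀ O2 ∈ T, ∀ O3 ∈ T, ∀ O4 ∈ T, O1 ≠ O2 → O1 ≠ O3 → O2 ≠ O3 →
      O4 ≠ O1 → O4 ≠ O2 → O4 ≠ O3 → False := by
    intro O1 m1 O2 m2 O3 m3 O4 m4 h12 h13 h23 h41 h42 h43
    have h := h3 {O4, O1, O2, O3} (fun _ => 1) (by
      intro O hO
      rw [Finset.mem_insert, Finset.mem_insert, Finset.mem_insert, Finset.mem_singleton] at hO
      rcases hO with rfl | rfl | rfl | rfl
      · exact ⟨m4, ind1 (hT _ m4)⟩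
      · exact ⟨m1, ind1 (hT _ m1)⟩
      · exact ⟨m2, ind1 (hT _ m2)⟩
      · exact ⟨m3, ind1 (hT _ m3)⟩)
    rw [Finset.sum_const, Finset.card_insert_of_notMem (by
      rw [Finset.mem_insert, Finset.mem_insert, Finset.mem_singleton, not_or, not_or]
      exact ⟨h41, h42, h43⟩), Finset.card_insert_of_notMem (by
      rw [Finset.mem_insert, Finset.mem_singleton, not_or]
      exact ⟨h12, h13⟩), Finset.card_pair h23] at h
    norm_num at h
  by_cases hA : ∀ O' ∈ T, g ∉ O'
  · exact Or.inl ⟨0, fun O' hO' => Or.inl (hA O' hO')⟩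
  push Not at hA
  obtain ⟨O0, hO0, hg0⟩ := hA
  by_cases hB : ∃ O1 ∈ T, g ∈ O1 ∧ ∀ a : E, g - algebraMap E L a ∉ O1.nonunits
  · obtain ⟨O1, m1, hg1, hr1⟩ := hB
    have hne : Oi ≠ O1 := by
      rintro rfl
      exact hgi hg1
    have i1 : Ind E O1 2 := ind2 (hT _ m1) hg1 hr1
    right
    refine ⟨Oi, hOi, hgi, ?_, ?_⟩
    · intro z hz
      by_contra hcon
      push Not at hcon
      have := two Oi hOi O1 m1 hne 2 2 (ind2 (hT _ hOi) hz hcon) i1
      omega
    · have hc : ∃ c1 c0 : E, g ^ 2 + algebraMap E L c1 * g + algebraMap E L c0 ∈ O1.nonunits := by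
        by_contra hcon
        push Not at hcon
        have := two Oi hOi O1 m1 hne 1 3 (ind1 (hT _ hOi)) (ind3 (hT _ m1) hg1 hcon)
        omega
      obtain ⟨c1, c0, hc⟩ := hc
      refine ⟨c1, c0, ?_⟩
      intro O' hO' hne'
      have hO1 : O' = O1 := by
        by_contra h
        have := three Oi hOi O1 m1 O' hO' hne (Ne.symm hne') (Ne.symm h) 1 2 1
          (ind1 (hT _ hOi)) i1 (ind1 (hT _ hO'))
        omega
      rw [hO1]
      exact ⟨hg1, hc⟩
  · push Not at hB
    obtain ⟨a, ha⟩ := hB O0 hO0 hg0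
    by_cases hC : ∀ O' ∈ T, g ∉ O' ∨ g - algebraMap E L a ∈ O'.nonunits
    · exact Or.inl ⟨a, hC⟩
    push Not at hC
    obtain ⟨O2, m2, hg2, hr2⟩ := hC
    obtain ⟨b, hb⟩ := hB O2 m2 hg2
    have h0i : Oi ≠ O0 := by
      rintro rfl
      exact hgi hg0
    have h2i : Oi ≠ O2 := by
      rintro rfl
      exact hgi hg2
    have h02 : O0 ≠ O2 := by
      rintro rfl
      exact hr2 ha
    right
    refine ⟨Oi, hOi, hgi, ?_, -(a + b), a * b, ?_⟩
    · intro z hz
      by_contra hcon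
      push Not at hcon
      have := three Oi hOi O0 hO0 O2 m2 h0i h2i h02 2 1 1 (ind2 (hT _ hOi) hz hcon)
        (ind1 (hT _ hO0)) (ind1 (hT _ m2))
      omega
    · intro O' hO' hne'
      have e : g ^ 2 + algebraMap E L (-(a + b)) * g + algebraMap E L (a * b) =
          (g - algebraMap E L a) * (g - algebraMap E L b) := by
        rw [map_neg, map_add, map_mul]
        ring
      rw [e]
      have hO2 : O' = O0 ∨ O' = O2 := by
        by_contra h
        rw [not_or] at h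
        exact four Oi hOi O0 hO0 O2 m2 O' hO' h0i h2i h02 hne' h.1 h.2
      rcases hO2 with rfl | rfl
      · exact ⟨hg0, nonunits_mul ha (sub_mem hg0 (hT _ hO0 _))⟩
      · refine ⟨hg2, ?_⟩
        rw [mul_comm]
        exact nonunits_mul hb (sub_mem hg2 (hT _ m2 _))

end

end Three

theorem from_three {k : Type*} [Field k] [CharZero k] [IsAlgClosed k] (f g : PP k)
    (hJ : br f g = 1)
    (h3 : ∀ (S : Finset (ValuationSubring (KK k))) (n : ValuationSubring (KK k) → ℕ),
      (∀ O ∈ S, O ∈ SR (RE f) ∧ ∃ u : Fin (n O) → KK k, (∀ i, u i ∈ O) ∧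
        ∀ a : Fin (n O) → EF f, ∑ i, algebraMap (EF f) (KK k) (a i) * u i ∈ O.nonunits → a = 0) →
      ∑ O ∈ S, n O ≤ 3) :
    (∃ a : EF f, ∀ O' ∈ SR (RE f), ιK k g ∉ O' ∨
      ιK k g - algebraMap (EF f) (KK k) a ∈ O'.nonunits) ∨
    ∃ O ∈ SR (RE f), ιK k g ∉ O ∧
      (∀ z ∈ O, ∃ a : EF f, z - algebraMap (EF f) (KK k) a ∈ O.nonunits) ∧
      ∃ c1 c0 : EF f, ∀ O' ∈ SR (RE f), O' ≠ O → ιK k g ∈ O' ∧
        ιK k g ^ 2 + algebraMap (EF f) (KK k) c1 * ιK k g + algebraMap (EF f) (KK k) c0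
          ∈ O'.nonunits := by
  obtain ⟨Oi, hEi, hgi⟩ := exists_place (E := EF f) (ιK k g) (transc_g hJ)
  exact Three.abs_three (SR (RE f)) (fun O hO => hO.1) (ιK k g) Oi
    ⟨hEi, ιK k g, ι_mem_RE _ _, hgi⟩ hgi h3

end Pool.Agent.H928R2.Tri
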