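import Pool.Agent.H928R2.FolDef

/-!
# Definitions for the theorem on Keller maps preserving a web
-/

set_option autoImplicit false
set_option linter.unusedSectionVars false

open MvPolynomial Pool.Agent.H928R2.Inv

namespace Pool.Agent.H928R2.Pen

section
variable {k : Type*} [Field k]

/-- binary forms in `dx, dy` with polynomial coefficients -/
abbrev BF (k : Type*) [Field k] : Type _ := MvPolynomial (Fin 2) (PP k)

/-- the pull-back of a symmetric differential form -/
noncomputable def pull (G : Fin 2 → PP k) : BF k →+* BF k :=
  eval₂Hom (C.comp ((aeval G : PP k →ₐ[k] PP k) : PP k →+* PP k))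
    (fun i => ∑ j, C (pderiv j (G i)) * X j)

theorem pull_C (G : Fin 2 → PP k) (a : PP k) : pull G (C a) = C (aeval G a) := by
  unfold pull
  rw [coe_eval₂Hom, eval₂_C]
  rfl

theorem pull_X (G : Fin 2 → PP k) (i : Fin 2) :
    pull G (X i) = ∑ j, C (pderiv j (G i)) * X j := by
  unfold pull
  rw [coe_eval₂Hom, eval₂_X]

theorem pull_homog (G : Fin 2 → PP k) (Ω : BF k) (m : ℕ) (h : Ω.IsHomogeneous m) :
    (pull G Ω).IsHomogeneous m := by
  have h1 : pull G Ω = aeval (fun i => ∑ j, C (pderiv j (G i)) * X j)
      (map ((aeval G : PP k →ₐ[k] PP k) : PP k →+* PP k) Ω) := by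
    rw [aeval_def, eval₂_map]
    rfl
  rw [h1]
  have h2 := IsHomogeneous.aeval (h.map ((aeval G : PP k →ₐ[k] PP k) : PP k →+* PP k))
    (fun i => ∑ j, C (pderiv j (G i)) * X j) (n := 1) (by
      intro i
      apply IsHomogeneous.sum
      intro j _
      exact (isHomogeneous_X (PP k) j).C_mul _)
  rwa [one_mul] at h2

end

section
variable {k : Type*} [Field k] [CharZero k] (F : Fin 2 → PP k)

theorem pull_itr (n : ℕ) (Ω : BF k) : (pull F)^[n] Ω = pull (itr F n) Ω := by
  induction n generalizing Ω with
  | zero =>
    have h1 : pull (itr F 0) = RingHom.id (BF k) := by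
      apply MvPolynomial.ringHom_ext
      · intro a
        rw [pull_C, aeval_itr]
        rfl
      · intro i
        rw [pull_X]
        have h2 : ∀ j, pderiv j (itr F 0 i) = if j = i then 1 else 0 := by
          intro j
          show pderiv j (X i : PP k) = _
          rw [pderiv_X, Pi.single_apply]
          simp only [eq_comm]
        simp only [h2]
        rw [Finset.sum_eq_single i]
        · simp
        · intro j _ hj
          simp [hj]
        · simp
    rw [h1]
    rfl
  | succ n ih =>
    rw [Function.iterate_succ_apply, ih]
    have h1 : (pull (itr F n)).comp (pull F) = pull (itr F (n + 1)) := by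
      apply MvPolynomial.ringHom_ext
      · intro a
        rw [RingHom.comp_apply, pull_C, pull_C, pull_C, aeval_itr, aeval_itr,
          Function.iterate_succ_apply]
      · intro i
        rw [RingHom.comp_apply, pull_X, pull_X, map_sum]
        simp only [map_mul, pull_C, pull_X]
        have h3 : ∀ j, pderiv j (itr F (n + 1) i) =
            ∑ l, aeval (itr F n) (pderiv l (F i)) * pderiv j (itr F n l) := by
          intro j
          rw [← Pool.Agent.H922R2.deriv_aeval]
          congr 1
          rw [aeval_itr]
          unfold itr
          rw [Function.iterate_succ_apply, aeval_X]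
        simp only [h3, map_sum, Finset.mul_sum, Finset.sum_mul, map_mul]
        rw [Finset.sum_comm]
        refine Finset.sum_congr rfl fun j _ => Finset.sum_congr rfl fun l _ => ?_
        ring
    rw [← h1]
    rfl

end

/-- the form has a multiple direction, or vanishes, at `z` -/
def Bad {k : Type*} [Field k] (Ω : BF k) (z : Fin 2 → k) : Prop :=
  ∃ w : Fin 2 → k, w ≠ 0 ∧ ∀ i, eval w (map (eval z) (pderiv i Ω)) = 0

end Pool.Agent.H928R2.Pen
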